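import Mathlib
import Pool.Agent.LNDF.Tau

/-!
# MIY/Mod: the model of `B = k[x,y,z]` inside `K[T]`, `K = Frac A`, for an arbitrary kernel `A`
(copy of LNDF.Model with `A` for `A2 k`, `K` for `K2 k`, density `1 / (J c)`)
-/

set_option autoImplicit false

open Polynomial

namespace Pool.Agent.MIY

open Pool.Agent.LNDF (mc tau TQ)

/-- the embedding of `A` in `K` -/
noncomputable abbrev al {A K : Type} [CommRing A] [Field K] [Algebra A K] (a : A) : K := algebraMap A K a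

section al

variable {A K : Type} [CommRing A] [IsDomain A] [Field K] [Algebra A K] [IsFractionRing A K]

theorem al_inj {a b : A} (h : (al a : K) = al b) : a = b :=
  IsFractionRing.injective A K h

theorem al_ne {a : A} (h : a ≠ 0) : (al a : K) ≠ 0 := fun h0 =>
  h (al_inj (K := K) (by rw [h0]; simp [al]))

end al

/-- The ring `k[x,y,z]` seen inside `K[T]` (`T` a local slice, `K` the field of fractions of the kernel `A`),
with the vector field `d/dx`, elements `x`, `y` of all image ideals up to degree `N`, and `J = {x, y}`. -/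
structure M2 (k A K : Type) [Field k] [CommRing A] [IsDomain A] [Algebra k A] [Field K] [Algebra A K]
    [IsFractionRing A K] [Algebra k K] where
  d0 : Derivation k K K
  d1 : Derivation k K K
  S : Subalgebra A K[X]
  c : A
  c_ne : c ≠ 0
  J : A
  J_ne : J ≠ 0
  X_mem : (X : K[X]) ∈ S
  D_mem : ∀ h ∈ S, C (al c) * derivative h ∈ S
  inter : ∀ x : K, C x ∈ S → ∃ a : A, al a = x
  xi0 : K[X]
  xi1 : K[X]
  xiT : K[X]
  del_mem : ∀ u ∈ S, xi0 * mc d0 u + xi1 * mc d1 u + xiT * derivative u ∈ S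
  del_surj : ∀ b ∈ S, ∃ u ∈ S, xi0 * mc d0 u + xi1 * mc d1 u + xiT * derivative u = b
  div : C (al (J * c)) * (mc d0 xi0 + mc d1 xi1 + derivative xiT) =
    xi0 * C (d0 (al (J * c))) + xi1 * C (d1 (al (J * c)))
  N : ℕ
  N_pos : 0 < N
  cc : ℕ → A
  cc_ne : ∀ n, cc n ≠ 0
  cc_dvd : ∀ n ≤ N, ∀ h ∈ S, h.natDegree ≤ n →
    ∃ a : A, (n.factorial : K) * al c ^ n * h.coeff n = al (cc n * a)
  x : A
  y : A
  x_ne : x ≠ 0
  y_ne : y ≠ 0
  cc_x : ∀ n ≤ N, ∃ h ∈ S, h.natDegree ≤ n ∧ (n.factorial : K) * al c ^ n * h.coeff n = al (cc n * x)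
  cc_y : ∀ n ≤ N, ∃ h ∈ S, h.natDegree ≤ n ∧ (n.factorial : K) * al c ^ n * h.coeff n = al (cc n * y)
  cc_mul : ∀ l < N, Associated (cc l * cc (N - 1 - l)) (cc N)
  divQ : ∀ (d : A), d ≠ 0 → ∀ Q : K[X], (∃ s : ℕ, C (al (d ^ s)) * Q ∈ S) →
    Q.natDegree ≤ N → (N.factorial : K) * al c ^ N * Q.coeff N = al (cc N) →
    ∀ b : K[X], (∃ s : ℕ, C (al (d ^ s)) * b ∈ S) →
      ∃ u t : K[X], (∃ s : ℕ, C (al (d ^ s)) * u ∈ S) ∧ (∃ s : ℕ, C (al (d ^ s)) * t ∈ S) ∧
        b = u * Q + t ∧ t.degree < (N : ℕ)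

variable {k A K : Type} [Field k] [CommRing A] [IsDomain A] [Algebra k A] [Field K] [Algebra A K]
  [IsFractionRing A K] [Algebra k K]

namespace M2

variable (M : M2 k A K)

/-- the vector field `d/dx` -/
noncomputable def del (u : K[X]) : K[X] :=
  M.xi0 * mc M.d0 u + M.xi1 * mc M.d1 u + M.xiT * derivative u

/-- `h` lies in `S[1/d]` -/
def InS (d : A) (h : K[X]) : Prop := ∃ s : ℕ, C (al (d ^ s)) * h ∈ M.S

end M2

/-- `z` lies in `A[1/d]` -/
def InA (d : A) (z : K) : Prop := ∃ (s : ℕ) (a : A), al (d ^ s) * z = al a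

end Pool.Agent.MIY
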