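import Mathlib
import Pool.Agent.MIY.Mod
import Pool.Agent.LNDF.Ar4
import Pool.Agent.LNDT.ST2

set_option autoImplicit false

/-!
# MIY/AsmA: the arithmetic fields of the model, over an arbitrary kernel (54)
-/

open Polynomial

namespace Pool.Agent.MIY

open Pool.Agent.LNDHom
open Pool.Agent.LNDF (IsCC Arith const_of_dvd)

variable {k B K : Type} [Field k] [CommRing B] [IsDomain B] [Algebra k B]
  {D : Derivation k B B} [Field K] [Algebra (kerAlg D) K] [IsFractionRing (kerAlg D) K] [Algebra k K]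

/-- `ι` embeds `B` in `K[T]`, `K` the field of fractions of the kernel, `T` the local slice `r` -/
structure IoG (D : Derivation k B B) [Algebra (kerAlg D) K] (r : B) (c : kerAlg D) (ι : B →ₐ[k] K[X]) : Prop where
  inj : Function.Injective ι
  ev : ∀ a : kerAlg D, ι a = C (al a)
  r : ι r = X
  D : ∀ b, ι (D b) = C (al c) * derivative (ι b)

variable {r : B} {c : kerAlg D} {ι : B →ₐ[k] K[X]}

omit [IsDomain B] [IsFractionRing (kerAlg D) K] in
theorem IoG.iter (hι : IoG D r c ι) (n : ℕ) (b : B) :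
    ι ((⇑D)^[n] b) = C (al c ^ n) * (⇑derivative)^[n] (ι b) := by
  induction n with
  | zero => simp
  | succ n ih =>
    rw [Function.iterate_succ_apply', hι.D, ih, derivative_C_mul, Function.iterate_succ_apply',
      ← mul_assoc, ← C_mul, ← pow_succ']

theorem iter_eq_zero_iff {K : Type} [Field K] [CharZero K] (P : K[X]) (n : ℕ) :
    (⇑derivative)^[n] P = 0 ↔ P.degree < (n : ℕ) := by
  constructor
  · intro h
    by_contra hd
    push Not at hd
    have hP : P ≠ 0 := by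
      rintro rfl
      rw [degree_zero] at hd
      exact absurd hd (by simp)
    have h1 : n ≤ P.natDegree := by
      rw [degree_eq_natDegree hP] at hd
      exact_mod_cast hd
    have h2 := congrArg (fun Q => coeff Q (P.natDegree - n)) h
    simp only [coeff_iterate_derivative, coeff_zero, Nat.sub_add_cancel h1, nsmul_eq_mul] at h2
    rcases mul_eq_zero.1 h2 with h3 | h3
    · rw [Nat.cast_eq_zero, Nat.descFactorial_eq_zero_iff_lt] at h3
      omega
    · exact hP (leadingCoeff_eq_zero.1 h3)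
  · intro h
    rcases eq_or_ne P 0 with rfl | hP
    · simp
    · rw [degree_eq_natDegree hP] at h
      exact iterate_derivative_eq_zero (by exact_mod_cast h)

theorem IoG.deg_lt_iff [CharZero k] (hι : IoG D r c ι) (hc : c ≠ 0) (n : ℕ) (b : B) :
    (ι b).degree < (n : ℕ) ↔ (⇑D)^[n] b = 0 := by
  have : CharZero K := charZero_of_injective_algebraMap (algebraMap k K).injective
  rw [← iter_eq_zero_iff, ← map_eq_zero_iff ι hι.inj, hι.iter, mul_eq_zero, C_eq_zero,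
    or_iff_right (pow_ne_zero n (al_ne (K := K) hc))]

theorem IoG.deg_iff [CharZero k] (hι : IoG D r c ι) (hc : c ≠ 0) (n : ℕ) (b : B) :
    (ι b).natDegree ≤ n ↔ (⇑D)^[n + 1] b = 0 := by
  rw [← hι.deg_lt_iff hc, natDegree_le_iff_degree_le]
  rw [show ((n + 1 : ℕ) : WithBot ℕ) = Order.succ ((n : ℕ) : WithBot ℕ) from rfl]
  exact (Order.lt_succ_iff_of_not_isMax (by simp)).symm

omit [IsDomain B] [IsFractionRing (kerAlg D) K] in
theorem IoG.top (hι : IoG D r c ι) (n : ℕ) (b : B) (hb : (ι b).natDegree ≤ n) :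
    ι ((⇑D)^[n] b) = C ((n.factorial : K) * al c ^ n * (ι b).coeff n) := by
  rw [hι.iter]
  ext m
  rw [coeff_C_mul, coeff_iterate_derivative, coeff_C, nsmul_eq_mul]
  split_ifs with h
  · subst h
    rw [zero_add, Nat.descFactorial_self]
    ring
  · rw [coeff_eq_zero_of_natDegree_lt (by omega)]
    ring

/-- the image of `ι` as a subalgebra over the kernel -/
noncomputable def IoG.S (hι : IoG D r c ι) : Subalgebra (kerAlg D) K[X] where
  carrier := Set.range ι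
  mul_mem' := by
    rintro _ _ ⟨a, rfl⟩ ⟨b, rfl⟩
    exact ⟨a * b, map_mul _ _ _⟩
  add_mem' := by
    rintro _ _ ⟨a, rfl⟩ ⟨b, rfl⟩
    exact ⟨a + b, map_add _ _ _⟩
  algebraMap_mem' := by
    intro a
    exact ⟨a, by rw [hι.ev]; rfl⟩

/-- the greatest common divisors, as constants -/
def ccA (A : Arith D) (n : ℕ) : kerAlg D := ⟨A.cc n, (mem_kerAlg D _).2 (A.isCC n).const⟩

omit [IsFractionRing (kerAlg D) K] [IsDomain B] [Field K] [Algebra (kerAlg D) K] [Algebra k K] in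
theorem ccA_ne [IsDomain B] (A : Arith D) (n : ℕ) : ccA A n ≠ 0 := fun h =>
  (A.isCC n).ne (congrArg Subtype.val h)

theorem asmA_dvd [CharZero k] (hc : c ≠ 0) (A : Arith D) (hι : IoG D r c ι) (n : ℕ) (w : K[X])
    (hw : w ∈ hι.S) (hdeg : w.natDegree ≤ n) :
    ∃ a : kerAlg D, (n.factorial : K) * al c ^ n * w.coeff n = al (ccA A n * a) := by
  obtain ⟨x, rfl⟩ := hw
  have hdeg' : (ι x).natDegree ≤ n := hdeg
  have hx0 := (hι.deg_iff hc n x).1 hdeg'
  obtain ⟨b, hb⟩ := (A.isCC n).dvd x hx0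
  have hDn : D ((⇑D)^[n] x) = 0 := by
    rw [← Function.iterate_succ_apply' (f := ⇑D)]
    exact hx0
  have hDb : D b = 0 := by
    rw [hb, Derivation.leibniz, (A.isCC n).const, smul_zero, add_zero, smul_eq_mul] at hDn
    rcases mul_eq_zero.1 hDn with h1 | h1
    · exact absurd h1 (A.isCC n).ne
    · exact h1
  refine ⟨⟨b, (mem_kerAlg D _).2 hDb⟩, ?_⟩
  have h1 := hι.top n x hdeg'
  have h2 : ((ccA A n * ⟨b, (mem_kerAlg D _).2 hDb⟩ : kerAlg D) : B) = (⇑D)^[n] x := hb.symm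
  rw [← h2, hι.ev] at h1
  exact (C_injective h1).symm

theorem asmA_x [CharZero k] (hc : c ≠ 0) (A : Arith D) (hι : IoG D r c ι) (x : kerAlg D) (n : ℕ)
    (hx : ∃ z, (⇑D)^[n + 1] z = 0 ∧ (⇑D)^[n] z = A.cc n * x) :
    ∃ w ∈ hι.S, w.natDegree ≤ n ∧
      (n.factorial : K) * al c ^ n * w.coeff n = al (ccA A n * x) := by
  obtain ⟨z, hz0, hz⟩ := hx
  have hdeg : (ι z).natDegree ≤ n := (hι.deg_iff hc n z).2 hz0
  refine ⟨ι z, ⟨z, rfl⟩, hdeg, ?_⟩
  have h1 := hι.top n z hdeg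
  have h2 : ((ccA A n * x : kerAlg D) : B) = (⇑D)^[n] z := hz.symm
  rw [← h2, hι.ev] at h1
  exact (C_injective h1).symm

theorem asmA_mul [CharZero k] (hln : ∀ x, ∃ n, (⇑D)^[n] x = 0) (A : Arith D) (l : ℕ) (hl : l < A.N) :
    Associated (ccA A l * ccA A (A.N - 1 - l)) (ccA A A.N) := by
  have h1 := A.compl l hl
  have h2 : ((ccA A l * ccA A (A.N - 1 - l) : kerAlg D) : B) = A.cc l * A.cc (A.N - 1 - l) := rfl
  exact associated_of_dvd_dvd ((LNDT.dvd_ker hln).1 (h2 ▸ h1.dvd)) ((LNDT.dvd_ker hln).1 (h2 ▸ h1.symm.dvd))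

theorem asmA_div [CharZero k] [UniqueFactorizationMonoid B] (hD : ∃ x, D x ≠ 0)
    (hln : ∀ x, ∃ n, (⇑D)^[n] x = 0) (hc : c ≠ 0) (A : Arith D) (hι : IoG D r c ι) (d : kerAlg D)
    (hd : d ≠ 0) (Q : K[X])
    (hQ : ∃ s : ℕ, C (al (d ^ s)) * Q ∈ hι.S) (hdeg : Q.natDegree ≤ A.N)
    (hlead : (A.N.factorial : K) * al c ^ A.N * Q.coeff A.N = al (ccA A A.N))
    (b : K[X]) (hb : ∃ s : ℕ, C (al (d ^ s)) * b ∈ hι.S) :
    ∃ u t : K[X], (∃ s : ℕ, C (al (d ^ s)) * u ∈ hι.S) ∧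
      (∃ s : ℕ, C (al (d ^ s)) * t ∈ hι.S) ∧ b = u * Q + t ∧ t.degree < (A.N : ℕ) := by
  obtain ⟨s, q, hq⟩ := hQ
  obtain ⟨s', b', hb'⟩ := hb
  have hq' : ι q = C (al (d ^ s)) * Q := hq
  have hb'' : ι b' = C (al (d ^ s')) * b := hb'
  have hdq : (ι q).natDegree ≤ A.N := by
    rw [hq']
    exact (natDegree_C_mul_le _ _).trans hdeg
  have hDq : (⇑D)^[A.N] q = A.cc A.N * ((d ^ s : kerAlg D) : B) := by
    apply hι.inj
    have h1 : A.cc A.N * ((d ^ s : kerAlg D) : B) = ((ccA A A.N * d ^ s : kerAlg D) : B) := rfl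
    rw [hι.top A.N q hdq, hq', coeff_C_mul, h1, hι.ev]
    congr 1
    have hmul : (al (ccA A A.N * d ^ s) : K) = al (ccA A A.N) * al (d ^ s) := map_mul _ _ _
    rw [hmul, ← hlead]
    ring
  have hδ0 : ((d ^ s : kerAlg D) : B) ≠ 0 := by
    intro h0
    exact pow_ne_zero s hd (Subtype.ext h0)
  obtain ⟨j, s1, t1, h1, ht1⟩ := A.div hD hln ((mem_kerAlg D _).1 (d ^ s : kerAlg D).2) hδ0 hDq b'
  have h2 := congrArg ι h1
  rw [map_mul, map_add, map_mul, hq', hb'', map_pow, hι.ev] at h2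
  have hal : ∀ m, (al (d ^ m) : K) ≠ 0 := fun m => al_ne (K := K) (pow_ne_zero m hd)
  have hC : ∀ m, C (al (d ^ m) : K) ≠ 0 := fun m => by rw [Ne, C_eq_zero]; exact hal m
  set m := s * j + s' with hm
  have hm1 : C (al (d ^ m) : K) = C (al (d ^ s)) ^ j * C (al (d ^ s')) := by
    rw [hm, pow_add, pow_mul, ← map_pow, ← map_mul, al, map_mul, map_pow]
  have hinv : C (al (d ^ m) : K) * C ((al (d ^ m))⁻¹) = 1 := by
    rw [← map_mul, mul_inv_cancel₀ (hal m), map_one]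
  refine ⟨C ((al (d ^ m))⁻¹) * (C (al (d ^ s)) * ι s1), C ((al (d ^ m))⁻¹) * ι t1,
    ⟨m, ?_⟩, ⟨m, ?_⟩, ?_, ?_⟩
  · refine ⟨((d ^ s : kerAlg D) : B) * s1, ?_⟩
    rw [← mul_assoc, hinv, one_mul]
    rw [map_mul, hι.ev]
  · refine ⟨t1, ?_⟩
    rw [← mul_assoc, hinv, one_mul]
  · apply mul_left_cancel₀ (hC m)
    have h3 : C (al (d ^ m)) * b = ι s1 * (C (al (d ^ s)) * Q) + ι t1 := by
      rw [hm1, ← h2]
      ring
    rw [h3]
    linear_combination (-(C (al (d ^ s)) * ι s1 * Q + ι t1)) * hinv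
  · have h4 : (ι t1).degree < (A.N : ℕ) := (hι.deg_lt_iff hc A.N t1).2 ht1
    rw [degree_C_mul (inv_ne_zero (hal m))]
    exact h4

end Pool.Agent.MIY
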