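import Mathlib
import Pool.Agent.MIY.Mod

set_option autoImplicit false
set_option linter.unusedSectionVars false

open Polynomial

namespace Pool.Agent.MIY

open Pool.Agent.LNDF

variable {k A K : Type} [Field k] [CharZero k] [CommRing A] [IsDomain A] [Algebra k A] [Field K] [Algebra A K]
  [IsFractionRing A K] [Algebra k K] [CharZero K]

/-- `Q` is a good polynomial of degree `N` over `A2[1/d]` -/
def M2.Good (M : M2 k A K) (d : A) (Q : K[X]) : Prop :=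
  M.InS d Q ∧ Q.natDegree ≤ M.N ∧
    (M.N.factorial : K) * al M.c ^ M.N * Q.coeff M.N = al (M.cc M.N)

/-- the residue `Res (w dT / (c Q))` -/
noncomputable def M2.R (M : M2 k A K) (Q w : K[X]) : K :=
  tau (C (Q.coeff M.N)⁻¹ * Q) w / (al M.c * Q.coeff M.N)

theorem M2.Good.coeff_ne {M : M2 k A K} {d : A} {Q : K[X]} (h : M.Good d Q) :
    Q.coeff M.N ≠ 0 := by
  intro h0
  have h1 := h.2.2
  rw [h0, mul_zero] at h1
  exact al_ne (K := K) (M.cc_ne M.N) h1.symm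

theorem M2.Good.natDegree {M : M2 k A K} {d : A} {Q : K[X]} (h : M.Good d Q) :
    Q.natDegree = M.N :=
  le_antisymm h.2.1 (le_natDegree_of_ne_zero h.coeff_ne)

theorem M2.C_al_mem (M : M2 k A K) (a : A) : C (Pool.Agent.MIY.al a) ∈ M.S :=
  M.S.algebraMap_mem a

theorem M2.Good.monic {M : M2 k A K} {d : A} {Q : K[X]} (h : M.Good d Q) :
    (C (Q.coeff M.N)⁻¹ * Q).Monic ∧ (C (Q.coeff M.N)⁻¹ * Q).natDegree = M.N := by
  constructor
  · apply monic_C_mul_of_mul_leadingCoeff_eq_one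
    rw [leadingCoeff, h.natDegree]
    exact inv_mul_cancel₀ h.coeff_ne
  · rw [natDegree_C_mul (inv_ne_zero h.coeff_ne), h.natDegree]

/-- two good polynomials have the same leading coefficient -/
theorem M2.Good.coeff_eq {M : M2 k A K} {d d' : A} {Q Q' : K[X]} (h : M.Good d Q)
    (h' : M.Good d' Q') : Q.coeff M.N = Q'.coeff M.N := by
  have h1 := h.2.2.trans h'.2.2.symm
  have h2 : (M.N.factorial : K) * Pool.Agent.MIY.al M.c ^ M.N ≠ 0 :=
    mul_ne_zero (Nat.cast_ne_zero.mpr (Nat.factorial_ne_zero _)) (pow_ne_zero _ (al_ne (K := K) M.c_ne))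
  exact mul_left_cancel₀ h2 h1

theorem M2.InS.add {M : M2 k A K} {d : A} {g h : K[X]} (hg : M.InS d g)
    (hh : M.InS d h) : M.InS d (g + h) := by
  obtain ⟨s, hs⟩ := hg
  obtain ⟨t, ht⟩ := hh
  refine ⟨s + t, ?_⟩
  have h1 : C (Pool.Agent.MIY.al (d ^ (s + t))) * (g + h) =
      C (Pool.Agent.MIY.al (d ^ t)) * (C (Pool.Agent.MIY.al (d ^ s)) * g) +
      C (Pool.Agent.MIY.al (d ^ s)) * (C (Pool.Agent.MIY.al (d ^ t)) * h) := by
    simp only [Pool.Agent.MIY.al, pow_add, map_mul]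
    ring
  rw [h1]
  exact M.S.add_mem (M.S.mul_mem (M.C_al_mem _) hs) (M.S.mul_mem (M.C_al_mem _) ht)

theorem M2.InS.sub {M : M2 k A K} {d : A} {g h : K[X]} (hg : M.InS d g)
    (hh : M.InS d h) : M.InS d (g - h) := by
  obtain ⟨s, hs⟩ := hg
  obtain ⟨t, ht⟩ := hh
  refine ⟨s + t, ?_⟩
  have h1 : C (Pool.Agent.MIY.al (d ^ (s + t))) * (g - h) =
      C (Pool.Agent.MIY.al (d ^ t)) * (C (Pool.Agent.MIY.al (d ^ s)) * g) -
      C (Pool.Agent.MIY.al (d ^ s)) * (C (Pool.Agent.MIY.al (d ^ t)) * h) := by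
    simp only [Pool.Agent.MIY.al, pow_add, map_mul]
    ring
  rw [h1]
  exact M.S.sub_mem (M.S.mul_mem (M.C_al_mem _) hs) (M.S.mul_mem (M.C_al_mem _) ht)

theorem M2.InS.mul {M : M2 k A K} {d : A} {g h : K[X]} (hg : M.InS d g)
    (hh : M.InS d h) : M.InS d (g * h) := by
  obtain ⟨s, hs⟩ := hg
  obtain ⟨t, ht⟩ := hh
  refine ⟨s + t, ?_⟩
  have h1 : C (Pool.Agent.MIY.al (d ^ (s + t))) * (g * h) =
      (C (Pool.Agent.MIY.al (d ^ s)) * g) * (C (Pool.Agent.MIY.al (d ^ t)) * h) := by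
    simp only [Pool.Agent.MIY.al, pow_add, map_mul]
    ring
  rw [h1]
  exact M.S.mul_mem hs ht

theorem M2.InS.of_mem {M : M2 k A K} (d : A) {h : K[X]} (hh : h ∈ M.S) :
    M.InS d h := by
  refine ⟨0, ?_⟩
  simpa [Pool.Agent.MIY.al] using hh

/-- enlarging the denominators -/
theorem M2.InS.dvd {M : M2 k A K} {d d' : A} (hd : d ∣ d') {h : K[X]}
    (hh : M.InS d h) : M.InS d' h := by
  obtain ⟨e, rfl⟩ := hd
  obtain ⟨s, hs⟩ := hh
  refine ⟨s, ?_⟩
  have h1 : C (Pool.Agent.MIY.al ((d * e) ^ s)) * h =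
      C (Pool.Agent.MIY.al (e ^ s)) * (C (Pool.Agent.MIY.al (d ^ s)) * h) := by
    simp only [Pool.Agent.MIY.al, mul_pow, map_mul]
    ring
  rw [h1]
  exact M.S.mul_mem (M.C_al_mem _) hs

theorem M2.InS.smul {M : M2 k A K} {d : A} {x : K} (hx : InA d x) {h : K[X]}
    (hh : M.InS d h) : M.InS d (C x * h) := by
  obtain ⟨s, a, hs⟩ := hx
  obtain ⟨t, ht⟩ := hh
  refine ⟨s + t, ?_⟩
  have h1 : C (Pool.Agent.MIY.al (d ^ (s + t))) * (C x * h) =
      C (Pool.Agent.MIY.al (d ^ s) * x) * (C (Pool.Agent.MIY.al (d ^ t)) * h) := by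
    simp only [Pool.Agent.MIY.al, pow_add, map_mul]
    ring
  rw [h1, hs]
  exact M.S.mul_mem (M.C_al_mem _) ht

/-- the vector field preserves `S[1/d]` (`del (d^s h) = d^s del h + s d^(s-1) del(d) h`) -/
theorem M2.InS.del {M : M2 k A K} {d : A} {h : K[X]} (hh : M.InS d h) :
    M.InS d (M.del h) := by
  obtain ⟨s, hs⟩ := hh
  refine ⟨s + s, ?_⟩
  have h1 := M.del_mem _ hs
  have h2 := M.del_mem _ (M.C_al_mem (d ^ s))
  simp only [Derivation.leibniz, derivative_mul, derivative_C, mc_C, smul_eq_mul, zero_mul,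
    mul_zero, zero_add, add_zero] at h1 h2
  have h3 : C (Pool.Agent.MIY.al (d ^ (s + s))) * M.del h =
      C (Pool.Agent.MIY.al (d ^ s)) * (M.xi0 * (C (Pool.Agent.MIY.al (d ^ s)) * mc (M.d0) h +
        h * C (M.d0 (Pool.Agent.MIY.al (d ^ s)))) +
        M.xi1 * (C (Pool.Agent.MIY.al (d ^ s)) * mc (M.d1) h +
        h * C (M.d1 (Pool.Agent.MIY.al (d ^ s)))) +
        M.xiT * (C (Pool.Agent.MIY.al (d ^ s)) * derivative h)) -
      (M.xi0 * C (M.d0 (Pool.Agent.MIY.al (d ^ s))) +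
        M.xi1 * C (M.d1 (Pool.Agent.MIY.al (d ^ s)))) *
        (C (Pool.Agent.MIY.al (d ^ s)) * h) := by
    unfold M2.del
    have h4 : (C (Pool.Agent.MIY.al (d ^ (s + s))) : K[X]) =
        C (Pool.Agent.MIY.al (d ^ s)) * C (Pool.Agent.MIY.al (d ^ s)) := by
      simp only [Pool.Agent.MIY.al, pow_add, map_mul]
    rw [h4]
    ring
  rw [h3]
  exact M.S.sub_mem (M.S.mul_mem (M.C_al_mem _) h1) (M.S.mul_mem h2 hs)

theorem InA.add {d : A} {x y : K} (hx : InA d x) (hy : InA d y) : InA d (x + y) := by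
  obtain ⟨s, a, hs⟩ := hx
  obtain ⟨t, b, ht⟩ := hy
  refine ⟨s + t, d ^ t * a + d ^ s * b, ?_⟩
  simp only [Pool.Agent.MIY.al, pow_add, map_mul, map_add] at hs ht ⊢
  linear_combination (algebraMap (A) (K) (d ^ t)) * hs +
    (algebraMap (A) (K) (d ^ s)) * ht

theorem InA.sub {d : A} {x y : K} (hx : InA d x) (hy : InA d y) : InA d (x - y) := by
  obtain ⟨s, a, hs⟩ := hx
  obtain ⟨t, b, ht⟩ := hy
  refine ⟨s + t, d ^ t * a - d ^ s * b, ?_⟩
  simp only [Pool.Agent.MIY.al, pow_add, map_mul, map_sub] at hs ht ⊢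
  linear_combination (algebraMap (A) (K) (d ^ t)) * hs -
    (algebraMap (A) (K) (d ^ s)) * ht

theorem InA.mul {d : A} {x y : K} (hx : InA d x) (hy : InA d y) : InA d (x * y) := by
  obtain ⟨s, a, hs⟩ := hx
  obtain ⟨t, b, ht⟩ := hy
  refine ⟨s + t, a * b, ?_⟩
  simp only [Pool.Agent.MIY.al, pow_add, map_mul] at hs ht ⊢
  rw [← hs, ← ht]
  ring

theorem InA.dvd {d d' : A} (hd : d ∣ d') {x : K} (hx : InA d x) : InA d' x := by
  obtain ⟨e, rfl⟩ := hd
  obtain ⟨s, a, hs⟩ := hx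
  refine ⟨s, e ^ s * a, ?_⟩
  simp only [Pool.Agent.MIY.al, mul_pow, map_mul] at hs ⊢
  rw [← hs]
  ring

theorem InA.al (d a : A) : InA d (Pool.Agent.MIY.al a : K) := by
  refine ⟨0, a, ?_⟩
  simp [Pool.Agent.MIY.al]

/-- `cc 0` is a unit (`cc_dvd` for `h = 1`), so `cc (N-1)` is associated to `cc N` -/
theorem M2.cc_pred (M : M2 k A K) : Associated (M.cc (M.N - 1)) (M.cc M.N) := by
  obtain ⟨a, ha⟩ := M.cc_dvd 0 (Nat.zero_le _) 1 M.S.one_mem (by simp)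
  have h1 : M.cc 0 * a = 1 := by
    apply al_inj (K := K)
    rw [← ha]
    simp [Pool.Agent.MIY.al]
  have hu : IsUnit (M.cc 0) := IsUnit.of_mul_eq_one _ h1
  have h2 := M.cc_mul 0 M.N_pos
  rw [Nat.sub_zero] at h2
  obtain ⟨u, hu⟩ := hu
  refine Associated.trans ⟨u, ?_⟩ h2
  rw [hu, mul_comm]

/-- the top coefficient of an element of `S[1/d]` of degree `≤ n`, divided by `cc n` -/
theorem M2.coeff_InA (M : M2 k A K) (d : A) {h : K[X]} (hh : M.InS d h) (n : ℕ)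
    (hn : n ≤ M.N) (hd : h.natDegree ≤ n) (hd0 : d ≠ 0) :
    InA d ((n.factorial : K) * Pool.Agent.MIY.al M.c ^ n * h.coeff n /
      Pool.Agent.MIY.al (M.cc n)) := by
  obtain ⟨s, hs⟩ := hh
  obtain ⟨a, ha⟩ := M.cc_dvd n hn _ hs ((natDegree_C_mul_le _ _).trans hd)
  refine ⟨s, a, ?_⟩
  have h1 := al_ne (K := K) (M.cc_ne n)
  rw [coeff_C_mul] at ha
  rw [← mul_div_assoc, div_eq_iff h1]
  simp only [Pool.Agent.MIY.al, map_mul] at ha ⊢
  linear_combination ha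

/-- INTEGRALITY of residues. Proof: `divQ`: `w = u Q + t`, `tau` of `w` is `t.coeff (N-1)`, and
`t_{N-1} / (c Q_N) = N * ((N-1)! c^(N-1) t_{N-1}) / (N! c^N Q_N)`, use `coeff_InA` for `n = N-1`
and `cc_pred`. -/
theorem M2.integral (M : M2 k A K) {d : A} (hd : d ≠ 0) {Q : K[X]} (hQ : M.Good d Q)
    {w : K[X]} (hw : M.InS d w) : InA d (M.R Q w) := by
  obtain ⟨u, t, -, ht, e, hdeg⟩ := M.divQ d hd Q hQ.1 hQ.2.1 hQ.2.2 w hw
  have hR : M.R Q w = t.coeff (M.N - 1) / (Pool.Agent.MIY.al M.c * Q.coeff M.N) := by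
    unfold M2.R
    congr 1
    have h1 : w = (u * C (Q.coeff M.N)) * (C (Q.coeff M.N)⁻¹ * Q) + t := by
      have h2 : C (Q.coeff M.N) * C (Q.coeff M.N)⁻¹ = 1 := by
        rw [← C_mul, mul_inv_cancel₀ hQ.coeff_ne, C_1]
      rw [e]
      linear_combination (-(u * Q)) * h2
    rw [h1, tau_add hQ.monic.1, tau_mul_self hQ.monic.1, zero_add, tau_lt hQ.monic.1, hQ.monic.2]
    rw [degree_eq_natDegree hQ.monic.1.ne_zero, hQ.monic.2]
    exact hdeg
  have hN := M.N_pos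
  have htd : t.natDegree ≤ M.N - 1 := by
    by_cases h0 : t = 0
    · rw [h0, natDegree_zero]
      exact Nat.zero_le _
    · rw [degree_eq_natDegree h0] at hdeg
      have : t.natDegree < M.N := by exact_mod_cast hdeg
      omega
  have h3 := M.coeff_InA d ht (M.N - 1) (by omega) htd hd
  obtain ⟨v, hv⟩ := M.cc_pred
  have h4 : M.R Q w = Pool.Agent.MIY.al (M.N : A) *
      ((((M.N - 1).factorial : K) * Pool.Agent.MIY.al M.c ^ (M.N - 1) * t.coeff (M.N - 1) /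
      Pool.Agent.MIY.al (M.cc (M.N - 1))) * Pool.Agent.MIY.al (↑v⁻¹ : A)) := by
    rw [hR]
    have hc := al_ne (K := K) M.c_ne
    have hq := hQ.coeff_ne
    have hcc := al_ne (K := K) (M.cc_ne (M.N - 1))
    have h5 := hQ.2.2
    rw [← hv] at h5
    have h6 : (Pool.Agent.MIY.al (v : A) : K) * Pool.Agent.MIY.al (↑v⁻¹ : A) = 1 := by
      rw [Pool.Agent.MIY.al, Pool.Agent.MIY.al, ← map_mul, Units.mul_inv, map_one]
    have h7 : (M.N.factorial : K) = (M.N : K) * ((M.N - 1).factorial : K) := by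
      rw [← Nat.mul_factorial_pred hN.ne', Nat.cast_mul]
    have h8 : (Pool.Agent.MIY.al M.c : K) ^ M.N = Pool.Agent.MIY.al M.c *
        Pool.Agent.MIY.al M.c ^ (M.N - 1) := by
      rw [← pow_succ', Nat.sub_add_cancel hN]
    have h9 : (Pool.Agent.MIY.al (M.N : A) : K) = (M.N : K) := by
      simp [Pool.Agent.MIY.al]
    have h10 : (Pool.Agent.MIY.al (M.cc (M.N - 1) * (v : A)) : K) =
        Pool.Agent.MIY.al (M.cc (M.N - 1)) * Pool.Agent.MIY.al (v : A) := by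
      simp [Pool.Agent.MIY.al]
    rw [h7, h8, h10] at h5
    rw [h9, div_eq_iff (mul_ne_zero hc hq)]
    field_simp
    linear_combination (t.coeff (M.N - 1) * (-(Pool.Agent.MIY.al (↑v⁻¹ : A)))) * h5 -
      (t.coeff (M.N - 1) * Pool.Agent.MIY.al (M.cc (M.N - 1))) * h6
  rw [h4]
  exact (InA.al d _).mul (h3.mul (InA.al d _))

theorem M2.R_add (M : M2 k A K) {d : A} {Q : K[X]} (hQ : M.Good d Q)
    (v w : K[X]) : M.R Q (v + w) = M.R Q v + M.R Q w := by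
  unfold M2.R
  rw [tau_add hQ.monic.1, add_div]

theorem M2.R_C_mul (M : M2 k A K) {d : A} {Q : K[X]} (hQ : M.Good d Q) (a : K)
    (w : K[X]) : M.R Q (C a * w) = a * M.R Q w := by
  unfold M2.R
  rw [tau_C_mul hQ.monic.1, mul_div_assoc]

/-- residue of a polynomial of degree `< N` -/
theorem M2.R_lt (M : M2 k A K) {d : A} {Q : K[X]} (hQ : M.Good d Q) {w : K[X]}
    (hw : w.degree < (M.N : ℕ)) :
    M.R Q w = w.coeff (M.N - 1) / (Pool.Agent.MIY.al M.c * Q.coeff M.N) := by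
  unfold M2.R
  rw [tau_lt hQ.monic.1, hQ.monic.2]
  rw [degree_eq_natDegree hQ.monic.1.ne_zero, hQ.monic.2]
  exact hw

/-- closeness: from `tau_diff` -/
theorem M2.R_diff (M : M2 k A K) {d d' : A} {Q Q' : K[X]} (hQ : M.Good d Q)
    (hQ' : M.Good d' Q') (i : ℕ) (hi : 1 ≤ i) (hiN : i ≤ M.N)
    (hS : (Q - Q').degree < (M.N + 1 - i : ℕ)) {w : K[X]}
    (hw : w.degree < (M.N + i - 1 : ℕ)) : M.R Q w = M.R Q' w := by
  unfold M2.R
  have h1 := hQ.coeff_eq hQ'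
  rw [h1]
  congr 1
  have m1 := hQ.monic
  rw [h1] at m1
  refine tau_diff m1.1 hQ'.monic.1 M.N i M.N_pos m1.2 hQ'.monic.2 hi hiN ?_ _ hw
  rw [← mul_sub, degree_C_mul (inv_ne_zero hQ'.coeff_ne)]
  exact hS

end Pool.Agent.MIY
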