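import Mathlib
import Pool.Agent.MIY.Sur2

/-!
# MIY/BaX: dual families of `S[1/p]` with bounded denominators (hypotheses `hX`, `hY` of `dual`)
-/

set_option autoImplicit false
set_option linter.unusedSectionVars false

open Polynomial

namespace Pool.Agent.MIY

open Pool.Agent.LNDF

variable {k A K : Type} [Field k] [CharZero k] [CommRing A] [IsDomain A] [Algebra k A] [Field K]
  [Algebra A K] [IsFractionRing A K] [Algebra k K] [CharZero K]

theorem M2.S_smul (M : M2 k A K) (a : A) {V : K[X]} (h : V ∈ M.S) : C (al a) * V ∈ M.S :=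
  M.S.mul_mem (M.C_al_mem a) h

theorem M2.pow_mem_of_le (M : M2 k A K) {p : A} {s t : ℕ} (hst : s ≤ t) {V : K[X]}
    (h : C (al (p ^ s)) * V ∈ M.S) : C (al (p ^ t)) * V ∈ M.S := by
  have h1 : C (al (p ^ t) : K) * V = C (al (p ^ (t - s))) * (C (al (p ^ s)) * V) := by
    rw [← mul_assoc, ← C_mul]
    congr 2
    rw [← map_mul, ← pow_add, Nat.sub_add_cancel hst]
  rw [h1]
  exact M.S_smul _ h

/-- common denominator of finitely many elements of `S[1/p]` -/
theorem M2.exists_pow (M : M2 k A K) {p : A} (V : ℕ → K[X]) (m : ℕ)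
    (h : ∀ l < m, M.InS p (V l)) : ∃ s, ∀ l < m, C (al (p ^ s)) * V l ∈ M.S := by
  induction m with
  | zero => exact ⟨0, fun l hl => absurd hl (by omega)⟩
  | succ m ih =>
    obtain ⟨s, hs⟩ := ih fun l hl => h l (by omega)
    obtain ⟨t, ht⟩ := h m (by omega)
    refine ⟨max s t, fun l hl => ?_⟩
    rcases Nat.lt_or_eq_of_le (Nat.le_of_lt_succ hl) with h1 | h1
    · exact M.pow_mem_of_le (le_max_left _ _) (hs l h1)
    · rw [h1]
      exact M.pow_mem_of_le (le_max_right _ _) ht

/-- bounded denominators in the adapted family -/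
theorem M2.Adapted.bounded {M : M2 k A K} {p : A} {β : ℕ → K[X]} (h : M.Adapted p β) (s i : ℕ)
    (hi : i ≤ M.N + 1) (hs : ∀ l < i, C (al (p ^ s)) * β l ∈ M.S) (x : K[X]) (hx : x ∈ M.S)
    (hd : x.degree < (i : ℕ)) : ∃ a : ℕ → A,
      C (al (p ^ (i * s))) * x = ∑ l ∈ Finset.range i, C (al (a l)) * β l := by
  induction i generalizing x with
  | zero =>
    refine ⟨fun _ => 0, ?_⟩
    have h1 : x = 0 := by
      rw [← degree_eq_bot]
      rw [Nat.cast_zero] at hd
      exact Nat.WithBot.lt_zero_iff.1 hd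
    rw [h1, Finset.sum_range_zero, mul_zero]
  | succ i ih =>
    obtain ⟨-, hb2, hb3⟩ := h i (by omega)
    have hxn : x.natDegree ≤ i := by
      rw [natDegree_le_iff_degree_le]
      exact Order.lt_succ_iff.1 (by exact_mod_cast hd)
    obtain ⟨a, ha⟩ := M.cc_dvd i (by omega) x hx hxn
    have hfc : (i.factorial : K) * al M.c ^ i ≠ 0 :=
      mul_ne_zero (Nat.cast_ne_zero.mpr (Nat.factorial_ne_zero _))
        (pow_ne_zero _ (al_ne (K := K) M.c_ne))
    have hco : x.coeff i = al a * (β i).coeff i := by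
      apply mul_left_cancel₀ hfc
      rw [ha, al, map_mul]
      linear_combination (-(al a : K)) * hb3
    obtain ⟨y, hy⟩ : ∃ y, y = C (al (p ^ s)) * x - C (al a) * (C (al (p ^ s)) * β i) := ⟨_, rfl⟩
    have hyS : y ∈ M.S := by
      rw [hy]
      exact M.S.sub_mem (M.S_smul _ hx) (M.S_smul _ (hs i (by omega)))
    have hyd : y.degree < (i : ℕ) := by
      rw [degree_lt_iff_coeff_zero]
      intro m hm
      rw [hy, coeff_sub, coeff_C_mul, coeff_C_mul, coeff_C_mul]
      rcases Nat.eq_or_lt_of_le hm with h1 | h1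
      · rw [← h1, hco]
        ring
      · rw [coeff_eq_zero_of_natDegree_lt (lt_of_le_of_lt hxn h1),
          coeff_eq_zero_of_natDegree_lt (lt_of_le_of_lt hb2 h1)]
        ring
    obtain ⟨b, hb⟩ := ih (by omega) (fun l hl => hs l (by omega)) y hyS hyd
    refine ⟨fun l => if l = i then p ^ (i * s) * a * p ^ s else b l, ?_⟩
    rw [Finset.sum_range_succ]
    have h1 : ∑ l ∈ Finset.range i,
        C (al ((fun l => if l = i then p ^ (i * s) * a * p ^ s else b l) l) : K) * β l =
        ∑ l ∈ Finset.range i, C (al (b l)) * β l := by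
      refine Finset.sum_congr rfl fun l hl => ?_
      dsimp only
      rw [if_neg (Finset.mem_range.1 hl).ne]
    rw [h1, ← hb, hy]
    dsimp only
    rw [if_pos rfl, Nat.succ_mul, pow_add]
    simp only [al, map_mul]
    ring

/-- the data `hX`, `hY` of `dual` -/
theorem M2.bax (M : M2 k A K) {p : A} (hp : p ≠ 0) {β : ℕ → K[X]} (hβ : M.Adapted p β)
    {Q : K[X]} (hQ : M.Good p Q) (i : ℕ) (hi : i ≤ M.N) :
    ∃ n0 : ℕ, ∀ n, n0 ≤ n → ∃ f g : Fin i → K[X],
      (∀ l, f l ∈ M.S ∧ (f l).degree < (i : ℕ)) ∧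
      (∀ l, g l ∈ M.S ∧ (g l).degree < (M.N : ℕ)) ∧
      (∀ l m, M.R Q (f l * g m) = if l = m then al (p ^ n) else 0) ∧
      ∀ h ∈ M.S, h.degree < (i : ℕ) → ∃ a : Fin i → A,
        C (al (p ^ n)) * h = ∑ l, C (al (a l)) * f l := by
  classical
  have hV : ∀ m : ℕ, ∃ V : K[X], M.InS p V ∧ V.degree < (M.N : ℕ) ∧
      ∀ l < i, M.R Q (β l * V) = if l = m then 1 else 0 := by
    intro m
    refine M.surj hp hβ hQ i hi (fun l => if l = m then 1 else 0) fun l _ => ?_
    split_ifs
    · exact ⟨0, 1, by simp⟩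
    · exact ⟨0, 0, by simp⟩
  choose V hV1 hV2 hV3 using hV
  obtain ⟨s, hs⟩ := M.exists_pow β i fun l hl => (hβ l (by omega)).1
  obtain ⟨t, ht⟩ := M.exists_pow V i fun l _ => hV1 l
  refine ⟨(i + 1) * s + t, fun n hn => ?_⟩
  have hsn : s ≤ n := by
    have : s ≤ (i + 1) * s := Nat.le_mul_of_pos_left _ (by omega)
    omega
  have htn : t ≤ n - s := by
    have : s ≤ (i + 1) * s := Nat.le_mul_of_pos_left _ (by omega)
    omega
  refine ⟨fun l => C (al (p ^ s)) * β l, fun m => C (al (p ^ (n - s))) * V m, ?_, ?_, ?_, ?_⟩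
  · intro l
    refine ⟨hs l l.2, ?_⟩
    refine lt_of_le_of_lt degree_le_natDegree ?_
    have h1 : (C (al (p ^ s)) * β l : K[X]).natDegree ≤ l :=
      (natDegree_C_mul_le _ _).trans (hβ l (by have := l.2; omega)).2.1
    exact_mod_cast lt_of_le_of_lt h1 l.2
  · intro m
    refine ⟨M.pow_mem_of_le htn (ht m m.2), ?_⟩
    rw [degree_C_mul (al_ne (K := K) (pow_ne_zero _ hp))]
    exact hV2 m
  · intro l m
    have h1 : C (al (p ^ s)) * β l * (C (al (p ^ (n - s))) * V m) =
        C (al (p ^ n) : K) * (β l * V m) := by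
      have h2 : (al (p ^ n) : K) = al (p ^ s) * al (p ^ (n - s)) := by
        rw [← map_mul, ← pow_add, Nat.add_sub_cancel' hsn]
      rw [h2, C_mul]
      ring
    rw [h1, M.R_C_mul hQ, hV3 m l l.2]
    by_cases hlm : l = m
    · rw [if_pos hlm, if_pos (by rw [hlm]), mul_one]
    · rw [if_neg hlm, if_neg (fun h => hlm (Fin.ext h)), mul_zero]
  · intro h hh hd
    obtain ⟨a, ha⟩ := hβ.bounded s i (by omega) hs h hh hd
    obtain ⟨r, hr⟩ : ∃ r, n = i * s + s + r := ⟨n - (i * s + s), by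
      have : (i + 1) * s = i * s + s := by ring
      omega⟩
    refine ⟨fun l => p ^ r * a l, ?_⟩
    have h1 : C (al (p ^ n) : K) * h = C (al (p ^ (s + r))) * (C (al (p ^ (i * s))) * h) := by
      rw [← mul_assoc, ← C_mul]
      congr 2
      rw [← map_mul, ← pow_add, hr]
      congr 2
      ring
    rw [h1, ha, Finset.mul_sum, Finset.sum_range]
    refine Finset.sum_congr rfl fun l _ => ?_
    simp only [al, map_mul, map_pow]
    ring

end Pool.Agent.MIY
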