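import Mathlib
import Pool.Agent.LNDF.RhoA

/-!
Miyanishi's theorem, elementary proof (doc H/821812_MIY_37): definitions of the local part.
-/

set_option autoImplicit false

namespace Pool.Agent.MIY

open Pool.Agent.LNDF

/-- power series in `X` (inner variable), then in `Y` (outer variable) -/
abbrev P2 (k : Type) [Field k] : Type := PowerSeries (PowerSeries k)

section Series

variable {k : Type} [Field k]

/-- the inner variable -/
noncomputable def pX : P2 k := PowerSeries.C PowerSeries.X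

/-- the outer variable -/
noncomputable def pY : P2 k := PowerSeries.X

/-- constants -/
noncomputable def pC (r : k) : P2 k := PowerSeries.C (PowerSeries.C r)

/-- the coefficient of `X ^ i * Y ^ j` -/
noncomputable def cf (i j : ℕ) (u : P2 k) : k := PowerSeries.coeff i (PowerSeries.coeff j u)

/-- `u` lies in the ideal `(X ^ n, Y ^ n)` -/
def Van (n : ℕ) (u : P2 k) : Prop := ∀ i j : ℕ, i < n → j < n → cf i j u = 0

end Series

section Modules

variable {k M : Type} [Field k] [AddCommGroup M] [Module k M]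

/-- `x`, `y` is a regular pair of commuting operators -/
structure Reg2 (x y : M →ₗ[k] M) : Prop where
  comm : ∀ m, x (y m) = y (x m)
  inj : ∀ m, x m = 0 → m = 0
  reg : ∀ a b, y a = x b → ∃ c, a = x c

/-- `b` is a lifted basis of `M / (x M + y M)` -/
structure LB (x y : M →ₗ[k] M) {ν : ℕ} (b : Fin ν → M) : Prop where
  gen : ∀ m, ∃ (r : Fin ν → k) (u v : M), m = ∑ j, r j • b j + x u + y v
  ind : ∀ r : Fin ν → k, (∃ u v : M, ∑ j, r j • b j = x u + y v) → r = 0

/-- `M / (x M + y M)` is finite dimensional -/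
def Fg2 (x y : M →ₗ[k] M) : Prop :=
  ∃ (ν : ℕ) (b : Fin ν → M), ∀ m, ∃ (r : Fin ν → k) (u v : M), m = ∑ j, r j • b j + x u + y v

/-- `κ` is the completion of `M` in the basis `b` -/
structure Cm (x y : M →ₗ[k] M) {ν : ℕ} (b : Fin ν → M) (κ : M →ₗ[k] (Fin ν → P2 k)) : Prop where
  base : ∀ j, κ (b j) = Pi.single j 1
  mx : ∀ a j, κ (x a) j = pX * κ a j
  my : ∀ a j, κ (y a) j = pY * κ a j
  sat : ∀ n a, (∀ j, Van n (κ a j)) → ∃ u v : M, a = (x ^ n) u + (y ^ n) v

end Modules

section Env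

variable (k : Type) {A : Type} [Field k] [CommRing A] [Algebra k A]

/-- multiplication by `a` on an `A`-module, as a `k`-linear map -/
noncomputable def mu (M : Type) [AddCommGroup M] [Module k M]
    [Module A M] [IsScalarTower k A M] (a : A) : M →ₗ[k] M where
  toFun m := a • m
  map_add' := smul_add a
  map_smul' r m := by
    rw [RingHom.id_apply, ← algebraMap_smul A r m, ← algebraMap_smul A r (a • m), smul_smul,
      smul_smul, mul_comm]

/-- the two-dimensional environment: `X`, `Y` a system of parameters of the domain `A`, `J` the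
bracket of `X` and `Y`, `δ0 = J d/dX`, `δ1 = J d/dY` -/
structure Env2 (X Y J : A) (δ0 δ1 : Derivation k A A) : Prop where
  ind : AlgebraicIndependent k ![X, Y]
  Jne : J ≠ 0
  d0X : δ0 X = J
  d0Y : δ0 Y = 0
  d1X : δ1 X = 0
  d1Y : δ1 Y = J
  alg : ∀ a : A, ∃ F : Polynomial (A2 k), F ≠ 0 ∧
    F.eval₂ (MvPolynomial.aeval ![X, Y] : A2 k →ₐ[k] A).toRingHom a = 0
  reg : ∀ a b : A, Y * a = X * b → ∃ c, a = X * c
  ne : ¬ ∃ u v : A, (1 : A) = X * u + Y * v
  fin : Fg2 (mu k A X) (mu k A Y)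
  fin2 : ∀ p q : A, Prime p → ¬ p ∣ q → Fg2 (mu k A p) (mu k A q)
  geo : ∀ p : A, Prime p → p ∣ δ0 p → p ∣ δ1 p →
    ∃ α β : k, p ∣ X - algebraMap k A α ∧ p ∣ Y - algebraMap k A β

/-- the ring `Ah` with `P2 k`-basis `b` is the completion of `A` in the lifted basis `e` -/
structure Hat (X Y : A) {l : ℕ} (e : Fin l → A) (Ah : Type) [CommRing Ah] [Algebra (P2 k) Ah]
    (b : Module.Basis (Fin l) (P2 k) Ah) (i : A →+* Ah) : Prop where
  be : ∀ j, i (e j) = b j
  iC : ∀ r : k, i (algebraMap k A r) = algebraMap (P2 k) Ah (pC r)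
  iX : i X = algebraMap (P2 k) Ah pX
  iY : i Y = algebraMap (P2 k) Ah pY
  sat : ∀ n a, (∀ j, Van n (b.repr (i a) j)) → ∃ u v : A, a = X ^ n * u + Y ^ n * v

/-- the partial derivatives of `P2 k` -/
structure IsDP (D0 D1 : Derivation k (P2 k) (P2 k)) : Prop where
  c0 : ∀ i j u, cf i j (D0 u) = ((i : k) + 1) * cf (i + 1) j u
  c1 : ∀ i j u, cf i j (D1 u) = ((j : k) + 1) * cf i (j + 1) u

/-- the extensions of `δ0`, `δ1` to the completion -/
structure HatDer {Ah : Type} [CommRing Ah] [Algebra (P2 k) Ah] (i : A →+* Ah) (J : A)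
    (δ0 δ1 : Derivation k A A) (D0 D1 : Derivation k (P2 k) (P2 k)) (E0 E1 : Derivation ℤ Ah Ah) :
    Prop where
  i0 : ∀ a, E0 (i a) = i (δ0 a)
  i1 : ∀ a, E1 (i a) = i (δ1 a)
  u0 : ∀ u, E0 (algebraMap (P2 k) Ah u) = algebraMap (P2 k) Ah (D0 u) * i J
  u1 : ∀ u, E1 (algebraMap (P2 k) Ah u) = algebraMap (P2 k) Ah (D1 u) * i J

/-- the residue data: `ρ` is a functional on `K = Frac A` killing the derivatives, `τ` its Taylor series -/
structure ResD {A : Type} [CommRing A] [Algebra k A] (K : Type) [Field K] [Algebra A K] [Algebra k K]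
    (X Y J : A) (d0 d1 : Derivation k K K) (ρ : K →ₗ[k] k) (τ : A →ₗ[k] P2 k) : Prop where
  r0 : ∀ z, ρ (d0 z) = 0
  r1 : ∀ z, ρ (d1 z) = 0
  tX : ∀ a, τ (X * a) = pX * τ a
  tY : ∀ a, τ (Y * a) = pY * τ a
  tay : ∀ (a : A) (s t : ℕ), ρ (algebraMap A K a / (algebraMap A K J * algebraMap A K X ^ s *
    algebraMap A K Y ^ t)) = if s = 0 ∨ t = 0 then 0 else cf (s - 1) (t - 1) (τ a)
  gram : ∀ {l : ℕ} (e : Fin l → A), LB (mu k A X) (mu k A Y) e →
    IsUnit (Matrix.det (Matrix.of fun i j : Fin l => τ (e i * e j)))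

end Env

end Pool.Agent.MIY
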