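import Mathlib
import Pool.Agent.MIY.Mod

/-!
# MIY/Fs: the elements of `S` of degree `< n`, as an `A`-module
-/

set_option autoImplicit false

open Polynomial

namespace Pool.Agent.MIY

variable {k A K : Type} [Field k] [CommRing A] [IsDomain A] [Algebra k A] [Field K] [Algebra A K]
  [IsFractionRing A K] [Algebra k K]

/-- the elements of `S` of degree `< n` -/
def M2.Fs (M : M2 k A K) (n : ℕ) : Submodule A K[X] where
  carrier := {h | h ∈ M.S ∧ h.degree < (n : ℕ)}
  add_mem' := fun {_ _} ha hb => ⟨M.S.add_mem ha.1 hb.1,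
    lt_of_le_of_lt (degree_add_le _ _) (max_lt ha.2 hb.2)⟩
  zero_mem' := ⟨M.S.zero_mem, by rw [degree_zero]; exact WithBot.bot_lt_coe _⟩
  smul_mem' := fun a h hh => ⟨M.S.smul_mem hh.1 a, lt_of_le_of_lt (degree_smul_le _ _) hh.2⟩

theorem M2.mem_Fs {M : M2 k A K} {n : ℕ} {h : K[X]} :
    h ∈ M.Fs n ↔ h ∈ M.S ∧ h.degree < (n : ℕ) := Iff.rfl

end Pool.Agent.MIY
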