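import Mathlib
import Pool.Agent.MIY.Int2

set_option autoImplicit false
set_option linter.unusedSectionVars false

open Polynomial

namespace Pool.Agent.MIY

open Pool.Agent.LNDF

variable {k A K : Type} [Field k] [CharZero k] [CommRing A] [IsDomain A] [Algebra k A] [Field K] [Algebra A K]
  [IsFractionRing A K] [Algebra k K] [CharZero K]

theorem exists_antider {K : Type} [Field K] [CharZero K] (P : K[X]) :
    ∃ U : K[X], derivative U = P := by
  induction P using Polynomial.induction_on' with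
  | add p q hp hq =>
    obtain ⟨U, hU⟩ := hp
    obtain ⟨V, hV⟩ := hq
    exact ⟨U + V, by rw [derivative_add, hU, hV]⟩
  | monomial n a =>
    refine ⟨monomial (n + 1) (a / (n + 1 : ℕ)), ?_⟩
    rw [derivative_monomial, Nat.add_sub_cancel, div_mul_cancel₀]
    exact_mod_cast Nat.succ_ne_zero n

/-- PIOLA: the trace of the primitive `W` of `b / c`, `b = du/dx`, is a sum of derivatives and of
a residue. Proof: put `P0 = u xi0 / c`, `P1 = u xi1 / c`, `PT = u xiT / c`; the field `div` gives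
`mc (M.d0) P0 + mc (M.d1) P1 + derivative PT = b / c`. Take `U0, U1` with `derivative Ui = Pi`
(characteristic 0), then `derivative (W - mc (M.d0) U0 - mc (M.d1) U1 - PT) = 0`, so
`W = mc (M.d0) U0 + mc (M.d1) U1 + PT + C κ`. Now `TQ_der`, `TQ_C`, additivity. -/
theorem piola (M : M2 k A K) (u b W : K[X]) (hu : M.del u = b)
    (hW : C (al (M.J * M.c)) * derivative W = b) :
    ∃ (U0 U1 : K[X]) (κ : K), ∀ Q : K[X], Q.Monic → 0 < Q.natDegree →
      TQ Q W = M.d0 (TQ Q U0) + M.d1 (TQ Q U1) + (al (M.J * M.c))⁻¹ * tau Q (u * M.del Q) +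
        κ * Q.natDegree := by
  set c' : K := al (M.J * M.c) with hc'
  have hc0 : c' ≠ 0 := al_ne (K := K) (mul_ne_zero M.J_ne M.c_ne)
  obtain ⟨U0, hU0⟩ := exists_antider (C c'⁻¹ * (u * M.xi0))
  obtain ⟨U1, hU1⟩ := exists_antider (C c'⁻¹ * (u * M.xi1))
  set PT : K[X] := C c'⁻¹ * (u * M.xiT) with hPT
  have hCC : (C c' : K[X]) * C c'⁻¹ = 1 := by
    rw [← C_mul, mul_inv_cancel₀ hc0, C_1]
  have hinv : ∀ d : Derivation k K K, mc d (C c'⁻¹ : K[X]) =
      -(C c'⁻¹ * C c'⁻¹ * C (d c')) := by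
    intro d
    rw [mc_C, Derivation.leibniz_inv]
    rw [← C_mul, ← C_mul, ← C_neg, smul_eq_mul]
    congr 1
    ring
  have hdiv := M.div
  rw [← hc'] at hdiv
  have hmain : mc (M.d0) (C c'⁻¹ * (u * M.xi0)) + mc (M.d1) (C c'⁻¹ * (u * M.xi1)) +
      derivative PT = derivative W := by
    have h1 : derivative W = C c'⁻¹ * b := by
      rw [← hW, ← mul_assoc, mul_comm (C c'⁻¹), hCC, one_mul]
    have h2 : b = M.xi0 * mc (M.d0) u + M.xi1 * mc (M.d1) u + M.xiT * derivative u := by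
      rw [← hu, M2.del]
    rw [h1, h2, hPT, Derivation.leibniz, Derivation.leibniz, Derivation.leibniz,
      Derivation.leibniz, hinv, hinv]
    simp only [smul_eq_mul, derivative_mul, derivative_C, zero_mul, zero_add]
    linear_combination (u * (mc (M.d0) M.xi0 + mc (M.d1) M.xi1 + derivative M.xiT) * C c'⁻¹) *
      (-hCC) + (C c'⁻¹ * C c'⁻¹ * u) * hdiv
  have hzero : derivative (W - mc (M.d0) U0 - mc (M.d1) U1 - PT) = 0 := by
    rw [derivative_sub, derivative_sub, derivative_sub, mc_derivative, mc_derivative, hU0,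
      hU1, ← hmain]
    ring
  obtain ⟨κ, hκ⟩ : ∃ κ : K, W - mc (M.d0) U0 - mc (M.d1) U1 - PT = C κ :=
    ⟨_, eq_C_of_natDegree_eq_zero (derivative_eq_zero.mp hzero)⟩
  refine ⟨U0, U1, κ, ?_⟩
  intro Q hQ hpos
  have hW' : W = mc (M.d0) U0 + mc (M.d1) U1 + PT + C κ := by
    rw [← hκ]
    ring
  have e0 := TQ_der (M.d0) hQ hpos U0
  have e1 := TQ_der (M.d1) hQ hpos U1
  rw [hU0] at e0
  rw [hU1] at e1
  have e2 : tau Q (C c'⁻¹ * (u * M.xi0) * mc (M.d0) Q) +
      tau Q (C c'⁻¹ * (u * M.xi1) * mc (M.d1) Q) + tau Q (PT * derivative Q) =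
      c'⁻¹ * tau Q (u * M.del Q) := by
    have e3 : C c'⁻¹ * (u * M.xi0) * mc (M.d0) Q + C c'⁻¹ * (u * M.xi1) * mc (M.d1) Q +
        PT * derivative Q = C c'⁻¹ * (u * M.del Q) := by
      rw [hPT, M2.del]
      ring
    rw [← tau_C_mul hQ, ← tau_add hQ, ← tau_add hQ, e3]
  rw [hW', TQ_add hQ, TQ_add hQ, TQ_add hQ, TQ_C hQ hpos, e0, e1, ← e2]
  have e3 : TQ Q PT = tau Q (PT * derivative Q) := rfl
  rw [e3]
  ring

end Pool.Agent.MIY
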