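import Mathlib
import Pool.Agent.MIY.Pio

set_option autoImplicit false
set_option linter.unusedSectionVars false

open Polynomial

namespace Pool.Agent.MIY

open Pool.Agent.LNDF

variable {k A K : Type} [Field k] [CharZero k] [CommRing A] [IsDomain A] [Algebra k A] [Field K] [Algebra A K]
  [IsFractionRing A K] [Algebra k K] [CharZero K]

/-- a primitive of a polynomial of degree `< i` has degree `≤ i` -/
theorem antider_deg {K : Type} [Field K] [CharZero K] {P W : K[X]} (h : derivative W = P) (i : ℕ)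
    (hP : P.degree < (i : ℕ)) : W.natDegree ≤ i := by
  by_cases h0 : W.natDegree = 0
  · omega
  · have h1 := degree_derivative (p := W) h0
    rw [h] at h1
    rw [h1] at hP
    have h2 : W.natDegree - 1 < i := by exact_mod_cast hP
    omega

/-- the residue of `u * del Q` through the monic version of `Q` -/
theorem M2.tau_del (M : M2 k A K) {d : A} {Q : K[X]} (hQ : M.Good d Q) (u : K[X]) :
    (al (M.J * M.c))⁻¹ * tau (C (Q.coeff M.N)⁻¹ * Q) (u * M.del (C (Q.coeff M.N)⁻¹ * Q)) =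
      M.R Q (u * M.del Q) / al M.J := by
  set g : K := Q.coeff M.N with hg
  have hg0 : g ≠ 0 := hQ.coeff_ne
  have hm := hQ.monic.1
  rw [← hg] at hm
  have h2 : (C g : K[X]) * C g⁻¹ = 1 := by
    rw [← C_mul, mul_inv_cancel₀ hg0, C_1]
  have h1 : u * M.del (C g⁻¹ * Q) = C g⁻¹ * (u * M.del Q) +
      (u * (M.xi0 * mc M.d0 (C g⁻¹) + M.xi1 * mc M.d1 (C g⁻¹)) * C g) * (C g⁻¹ * Q) := by
    unfold M2.del
    rw [Derivation.leibniz, Derivation.leibniz, derivative_C_mul]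
    simp only [smul_eq_mul]
    linear_combination (-(u * (M.xi0 * mc M.d0 (C g⁻¹) + M.xi1 * mc M.d1 (C g⁻¹)) * Q)) * h2
  rw [h1, tau_add hm, tau_mul_self hm, add_zero, tau_C_mul hm]
  unfold M2.R
  rw [← hg]
  have hc : (al M.c : K) ≠ 0 := al_ne (K := K) M.c_ne
  have hJ : (al M.J : K) ≠ 0 := al_ne (K := K) M.J_ne
  have hJc : (al (M.J * M.c) : K) = al M.J * al M.c := by simp only [al, map_mul]
  rw [hJc]
  field_simp

/-- THE KEY STEP. `Q0`, `Q1` good over `A[1/e0]`, `A[1/e1]`, close to each other; `ρ` an additive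
map on `K` which kills the derivatives and `A[1/e0] / J`, `A[1/e1] / J`. Then `ρ` kills
`R Q0 (b * (Q0 - Q1)) / J` for all `b ∈ S` of degree `≤ i - 1`. -/
theorem M2.key (M : M2 k A K) {V : Type*} [AddCommGroup V] (ρ : K →+ V)
    (r0 : ∀ z, ρ (M.d0 z) = 0) (r1 : ∀ z, ρ (M.d1 z) = 0) {e0 e1 : A} (he0 : e0 ≠ 0) (he1 : e1 ≠ 0)
    (s0 : ∀ z : K, InA e0 z → ρ (z / al M.J) = 0) (s1 : ∀ z : K, InA e1 z → ρ (z / al M.J) = 0)
    {Q0 Q1 : K[X]} (h0 : M.Good e0 Q0) (h1 : M.Good e1 Q1) (i : ℕ) (hi : 1 ≤ i) (hiN : i ≤ M.N)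
    (hS : (Q0 - Q1).degree < (M.N + 1 - i : ℕ)) (b : K[X]) (hb : b ∈ M.S)
    (hbi : b.degree < (i : ℕ)) : ρ (M.R Q0 (b * (Q0 - Q1)) / al M.J) = 0 := by
  have hN := M.N_pos
  have hc : (al M.c : K) ≠ 0 := al_ne (K := K) M.c_ne
  have hJ : (al M.J : K) ≠ 0 := al_ne (K := K) M.J_ne
  have hJc : (al (M.J * M.c) : K) = al M.J * al M.c := by simp only [al, map_mul]
  have hJc0 : (al (M.J * M.c) : K) ≠ 0 := by rw [hJc]; exact mul_ne_zero hJ hc
  set S' : K[X] := Q0 - Q1 with hS'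
  have hSn : S'.natDegree ≤ M.N - i := by
    by_cases hz : S' = 0
    · rw [hz, natDegree_zero]
      exact Nat.zero_le _
    · rw [degree_eq_natDegree hz] at hS
      have : S'.natDegree < M.N + 1 - i := by exact_mod_cast hS
      omega
  have hg : Q0.coeff M.N = Q1.coeff M.N := h0.coeff_eq h1
  have hg0 := h0.coeff_ne
  obtain ⟨u, hu, hub⟩ := M.del_surj b hb
  obtain ⟨W, hW⟩ := exists_antider (C (al (M.J * M.c))⁻¹ * b)
  have hbn : b.natDegree ≤ i - 1 := by
    by_cases hz : b = 0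
    · rw [hz, natDegree_zero]
      exact Nat.zero_le _
    · rw [degree_eq_natDegree hz] at hbi
      have : b.natDegree < i := by exact_mod_cast hbi
      omega
  have hWd : W.natDegree ≤ i := by
    refine antider_deg hW i ?_
    rw [degree_C_mul (inv_ne_zero hJc0)]
    exact hbi
  have hWc : C (al (M.J * M.c)) * derivative W = b := by
    rw [hW, ← mul_assoc, ← C_mul, mul_inv_cancel₀ hJc0, C_1, one_mul]
  obtain ⟨U0, U1, κ, hP⟩ := piola M u b W hub hWc
  have p0 := hP _ h0.monic.1 (by rw [h0.monic.2]; exact hN)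
  have p1 := hP _ h1.monic.1 (by rw [h1.monic.2]; exact hN)
  rw [M.tau_del h0 u] at p0
  rw [M.tau_del h1 u] at p1
  rw [h0.monic.2] at p0
  rw [h1.monic.2] at p1
  have hdiff := TQ_diff h0.monic.1 h1.monic.1 M.N i h0.monic.2 h1.monic.2 hi hiN
    (by rw [← hg, ← mul_sub, degree_C_mul (inv_ne_zero hg0)]; exact hS) W hWd
  have hcoef : (C (Q0.coeff M.N)⁻¹ * Q0 - C (Q1.coeff M.N)⁻¹ * Q1).coeff (M.N - i) =
      (Q0.coeff M.N)⁻¹ * S'.coeff (M.N - i) := by
    rw [← hg, ← mul_sub, coeff_C_mul]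
  have hWi : (i : K) * W.coeff i = (al (M.J * M.c))⁻¹ * b.coeff (i - 1) := by
    have h3 := congrArg (fun P : K[X] => P.coeff (i - 1)) hW
    simp only [coeff_derivative, coeff_C_mul] at h3
    have h4 : i - 1 + 1 = i := by omega
    have h5 : ((i - 1 : ℕ) : K) + 1 = (i : K) := by
      have : ((i - 1 + 1 : ℕ) : K) = (i : K) := by rw [h4]
      rw [← this]
      push_cast
      ring
    rw [h4, h5] at h3
    rw [← h3]
    ring
  have hlt : (b * S').degree < (M.N : ℕ) := by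
    by_cases hz : b * S' = 0
    · rw [hz, degree_zero]
      exact WithBot.bot_lt_coe _
    · rw [degree_eq_natDegree hz]
      have h3 : (b * S').natDegree ≤ (i - 1) + (M.N - i) :=
        natDegree_mul_le.trans (add_le_add hbn hSn)
      have h4 : (b * S').natDegree < M.N := by omega
      exact_mod_cast h4
  have hR : M.R Q0 (b * S') = b.coeff (i - 1) * S'.coeff (M.N - i) /
      (al M.c * Q0.coeff M.N) := by
    rw [M.R_lt h0 hlt]
    congr 1
    have h3 : M.N - 1 = (i - 1) + (M.N - i) := by omega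
    rw [h3, coeff_mul_add_eq_of_natDegree_le hbn hSn]
  have hfin : M.R Q0 (b * S') / al M.J = -(M.d0 (TQ (C (Q0.coeff M.N)⁻¹ * Q0) U0 -
      TQ (C (Q1.coeff M.N)⁻¹ * Q1) U0) + M.d1 (TQ (C (Q0.coeff M.N)⁻¹ * Q0) U1 -
      TQ (C (Q1.coeff M.N)⁻¹ * Q1) U1) + M.R Q0 (u * M.del Q0) / al M.J -
      M.R Q1 (u * M.del Q1) / al M.J) := by
    rw [hcoef] at hdiff
    have h3 : M.R Q0 (b * S') / al M.J = (i : K) * W.coeff i *
        ((Q0.coeff M.N)⁻¹ * S'.coeff (M.N - i)) := by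
      rw [hR, hWi, hJc]
      field_simp
    rw [h3, map_sub, map_sub]
    linear_combination hdiff - p0 + p1
  have t0 : ρ (M.R Q0 (u * M.del Q0) / al M.J) = 0 :=
    s0 _ (M.integral he0 h0 ((M2.InS.of_mem _ hu).mul h0.1.del))
  have t1 : ρ (M.R Q1 (u * M.del Q1) / al M.J) = 0 :=
    s1 _ (M.integral he1 h1 ((M2.InS.of_mem _ hu).mul h1.1.del))
  rw [hfin, map_neg, map_sub, map_add, map_add, r0, r1, t0, t1]
  simp

end Pool.Agent.MIY
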