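import Mathlib
import Pool.Agent.MIY.Phi2
import Pool.Agent.MIY.Defs
import Pool.Agent.MIY.Fs

/-!
# MIY/FDef: other names for the `A`-modules `Fs n` (elements of `S` of degree `< n`)
-/

set_option autoImplicit false

open Polynomial

namespace Pool.Agent.MIY

variable {k A K : Type} [Field k] [CommRing A] [IsDomain A] [Algebra k A] [Field K] [Algebra A K]
  [IsFractionRing A K] [Algebra k K]

/-- the elements of `S` of degree `< n` (another name of `M2.Fs`) -/
noncomputable abbrev M2.F (M : M2 k A K) (n : ℕ) : Submodule A K[X] := M.Fs n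

theorem M2.mem_F (M : M2 k A K) (n : ℕ) (h : K[X]) :
    h ∈ M.F n ↔ h ∈ M.S ∧ h.degree < (n : ℕ) := Iff.rfl

/-- the elements of `Fs j` inside `Fs n` -/
noncomputable def M2.Fj (M : M2 k A K) (n j : ℕ) : Submodule A (M.Fs n) := (M.Fs j).comap (M.Fs n).subtype

theorem M2.mem_Fj (M : M2 k A K) (n j : ℕ) (h : M.Fs n) :
    h ∈ M.Fj n j ↔ (h : K[X]).degree < (j : ℕ) := by
  unfold M2.Fj
  rw [Submodule.mem_comap, Submodule.subtype_apply, M2.mem_Fs]
  exact ⟨fun h1 => h1.2, fun h1 => ⟨h.2.1, h1⟩⟩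

end Pool.Agent.MIY
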