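import Mathlib
import Pool.Agent.MIY.Sur2
import Pool.Agent.MIY.FDef

/-!
# MIY/BetaA: the pairing of `F_(i-1)` and `F_(N-1)` with values in `A`
-/

set_option autoImplicit false
set_option linter.unusedSectionVars false

open Polynomial

namespace Pool.Agent.MIY

variable {k A K : Type} [Field k] [CharZero k] [CommRing A] [IsDomain A] [Algebra k A] [Field K] [Algebra A K]
  [IsFractionRing A K] [Algebra k K] [CharZero K]

/-- powers of coprime elements are coprime -/
theorem betaA_pow {x y : A} (hx : x ≠ 0) (reg : ∀ a b : A, y * a = x * b → ∃ c, a = x * c) (s t : ℕ) :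
    ∀ a b : A, y ^ t * a = x ^ s * b → ∃ c, a = x ^ s * c := by
  have h1 : ∀ t : ℕ, ∀ a b : A, y ^ t * a = x * b → ∃ c, a = x * c := by
    intro t
    induction t with
    | zero => intro a b h; exact ⟨b, by simpa using h⟩
    | succ t ih =>
      intro a b h
      rw [pow_succ', mul_assoc] at h
      obtain ⟨c, hc⟩ := reg _ _ h
      exact ih a c hc
  induction s with
  | zero => intro a b _; exact ⟨a, by simp⟩
  | succ s ih =>
    intro a b h
    rw [pow_succ', mul_assoc] at h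
    obtain ⟨c, rfl⟩ := h1 t a _ h
    have h2 : y ^ t * c = x ^ s * b := by
      apply mul_left_cancel₀ hx
      rw [← h]; ring
    obtain ⟨e, rfl⟩ := ih c b h2
    exact ⟨e, by ring⟩

/-- an element of `A[1/x]` and of `A[1/y]` lies in `A` -/
theorem betaA_inter {x y : A} (hx : x ≠ 0) (reg : ∀ a b : A, y * a = x * b → ∃ c, a = x * c) {z : K}
    (hzx : InA x z) (hzy : InA y z) : ∃ a : A, al a = z := by
  obtain ⟨s, a, ha⟩ := hzx
  obtain ⟨t, b, hb⟩ := hzy
  have h1 : y ^ t * a = x ^ s * b := by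
    apply al_inj (K := K)
    simp only [al, map_mul] at ha hb ⊢
    rw [← ha, ← hb]
    ring
  obtain ⟨c, rfl⟩ := betaA_pow hx reg s t a b h1
  refine ⟨c, ?_⟩
  have h2 : (al (x ^ s) : K) ≠ 0 := al_ne (K := K) (pow_ne_zero s hx)
  apply mul_left_cancel₀ h2
  rw [ha]
  simp only [al, map_mul]

theorem M2.R_zero_right (M : M2 k A K) {d : A} {Q : K[X]} (hQ : M.Good d Q) : M.R Q 0 = 0 := by
  have h := M.R_C_mul hQ 0 0
  rw [zero_mul] at h
  simpa using h

/-- degrees in the pairing -/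
theorem betaA_degree (N i : ℕ) (hi : 1 ≤ i) (hiN : i ≤ N) {b g : K[X]} (hb : b.degree < (i : ℕ))
    (hg : g.degree < (N : ℕ)) : (b * g).degree < (N + i - 1 : ℕ) := by
  by_cases hb0 : b = 0
  · rw [hb0, zero_mul, degree_zero]; exact WithBot.bot_lt_coe _
  by_cases hg0 : g = 0
  · rw [hg0, mul_zero, degree_zero]; exact WithBot.bot_lt_coe _
  rw [degree_eq_natDegree hb0] at hb
  rw [degree_eq_natDegree hg0] at hg
  rw [degree_mul, degree_eq_natDegree hb0, degree_eq_natDegree hg0]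
  have h1 : b.natDegree < i := by exact_mod_cast hb
  have h2 : g.natDegree < N := by exact_mod_cast hg
  have h3 : b.natDegree + g.natDegree < N + i - 1 := by omega
  exact_mod_cast h3

theorem betaA_smul (a : A) (h : K[X]) : a • h = C (al a) * h := by
  rw [Algebra.smul_def]
  rfl

/-- the pairing and its kernel -/
theorem M2.exists_beta_ker (M : M2 k A K) {Q0 Q1 : K[X]} (h0 : M.Good M.x Q0) (h1 : M.Good M.y Q1) (i : ℕ)
    (hi : 1 ≤ i) (hiN : i ≤ M.N) (hS : (Q0 - Q1).degree < (M.N + 1 - i : ℕ))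
    (reg : ∀ a b : A, M.y * a = M.x * b → ∃ c, a = M.x * c) :
    ∃ β : M.Fs i →ₗ[A] M.Fs M.N →ₗ[A] A,
      (∀ b g, (al (β b g) : K) = M.R Q0 ((b : K[X]) * (g : K[X]))) ∧
      (∀ b g, (al (β b g) : K) = M.R Q1 ((b : K[X]) * (g : K[X]))) ∧
      ∀ g : M.Fs M.N, (g : K[X]).degree < (M.N - i : ℕ) ↔ ∀ b, β b g = 0 := by
  have hex : ∀ (b : M.Fs i) (g : M.Fs M.N), ∃ a : A, (al a : K) = M.R Q0 ((b : K[X]) * (g : K[X])) := by
    intro b g
    have hmem : (b : K[X]) * (g : K[X]) ∈ M.S := M.S.mul_mem b.2.1 g.2.1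
    have e := M.R_diff h0 h1 i hi hiN hS (betaA_degree M.N i hi hiN b.2.2 g.2.2)
    refine betaA_inter M.x_ne reg (M.integral M.x_ne h0 (M2.InS.of_mem _ hmem)) ?_
    rw [e]
    exact M.integral M.y_ne h1 (M2.InS.of_mem _ hmem)
  choose f hf using hex
  let β : M.Fs i →ₗ[A] M.Fs M.N →ₗ[A] A := LinearMap.mk₂ A f
    (by
      intro b b' g
      apply al_inj (K := K)
      rw [hf]
      simp only [al, map_add] at hf ⊢
      rw [hf, hf, Submodule.coe_add, add_mul, M.R_add h0])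
    (by
      intro c b g
      apply al_inj (K := K)
      rw [hf, smul_eq_mul]
      simp only [al, map_mul] at hf ⊢
      rw [hf, Submodule.coe_smul, betaA_smul, mul_assoc, M.R_C_mul h0])
    (by
      intro b g g'
      apply al_inj (K := K)
      rw [hf]
      simp only [al, map_add] at hf ⊢
      rw [hf, hf, Submodule.coe_add, mul_add, M.R_add h0])
    (by
      intro c b g
      apply al_inj (K := K)
      rw [hf, smul_eq_mul]
      simp only [al, map_mul] at hf ⊢
      rw [hf, Submodule.coe_smul, betaA_smul, mul_left_comm, M.R_C_mul h0])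
  have hβ : ∀ b g, β b g = f b g := fun b g => rfl
  refine ⟨β, fun b g => by rw [hβ, hf], fun b g => ?_, fun g => ⟨fun hg b => ?_, fun hg => ?_⟩⟩
  · rw [hβ, hf]
    exact M.R_diff h0 h1 i hi hiN hS (betaA_degree M.N i hi hiN b.2.2 g.2.2)
  · apply al_inj (K := K)
    rw [hβ, hf]
    simp only [al, map_zero]
    have hN := M.N_pos
    by_cases hb0 : (b : K[X]) = 0
    · rw [hb0, zero_mul, M.R_zero_right h0]
    by_cases hg0 : (g : K[X]) = 0
    · rw [hg0, mul_zero, M.R_zero_right h0]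
    have hb2 := b.2.2
    rw [degree_eq_natDegree hb0] at hb2
    rw [degree_eq_natDegree hg0] at hg
    have h2 : (b : K[X]).natDegree < i := by exact_mod_cast hb2
    have h3 : (g : K[X]).natDegree < M.N - i := by exact_mod_cast hg
    apply M.R_zero h0
    rw [natDegree_mul hb0 hg0]
    omega
  · refine M.orth h0 i hiN _ g.2.2 fun l hl => ?_
    have hX : (X : K[X]) ^ l ∈ M.Fs i := by
      refine ⟨M.S.pow_mem M.X_mem l, ?_⟩
      rw [degree_X_pow]
      exact_mod_cast hl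
    have h4 := hg ⟨X ^ l, hX⟩
    have h5 := hf ⟨X ^ l, hX⟩ g
    rw [hβ] at h4
    rw [h4] at h5
    rw [← h5]
    simp only [al, map_zero]

variable [IsScalarTower k A K]

/-- BetaA: the pairing `F i × F N → A`, integral over `A[1/x]` by `Q0` and over `A[1/y]` by `Q1` -/
theorem M2.exists_beta (M : M2 k A K) (hr : Reg2 (mu k A M.x) (mu k A M.y)) {Q0 Q1 : K[X]}
    (h0 : M.Good M.x Q0) (h1 : M.Good M.y Q1) {i : ℕ} (hi : 1 ≤ i) (hiN : i ≤ M.N)
    (hS : (Q0 - Q1).degree < (M.N + 1 - i : ℕ)) :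
    ∃ β : M.Fs i →ₗ[A] M.Fs M.N →ₗ[A] A, ∀ b g, (al (β b g) : K) = M.R Q0 ((b : K[X]) * g) ∧
      (al (β b g) : K) = M.R Q1 ((b : K[X]) * g) := by
  obtain ⟨β, hβ0, hβ1, -⟩ := M.exists_beta_ker h0 h1 i hi hiN hS (fun a b h => hr.reg a b h)
  exact ⟨β, fun b g => ⟨hβ0 b g, hβ1 b g⟩⟩

/-- BetaA: the kernel of the pairing (`R_zero`-type for `⟸`: degree of `b * g` is `< N - 1`; `orth` for `⟹`) -/
theorem M2.beta_ker (M : M2 k A K) {d : A} {Q : K[X]} (hQ : M.Good d Q) {i : ℕ} (hi : 1 ≤ i)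
    (hiN : i ≤ M.N) (β : M.Fs i →ₗ[A] M.Fs M.N →ₗ[A] A)
    (hβ : ∀ b g, (al (β b g) : K) = M.R Q ((b : K[X]) * g)) (g : M.Fs M.N) :
    g ∈ M.Fj M.N (M.N - i) ↔ ∀ b, β b g = 0 := by
  rw [M2.mem_Fj]
  constructor
  · intro hg b
    apply al_inj (K := K)
    rw [hβ]
    simp only [al, map_zero]
    have hN := M.N_pos
    by_cases hb0 : (b : K[X]) = 0
    · rw [hb0, zero_mul, M.R_zero_right hQ]
    by_cases hg0 : (g : K[X]) = 0
    · rw [hg0, mul_zero, M.R_zero_right hQ]
    have hb2 := b.2.2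
    rw [degree_eq_natDegree hb0] at hb2
    rw [degree_eq_natDegree hg0] at hg
    have h2 : (b : K[X]).natDegree < i := by exact_mod_cast hb2
    have h3 : (g : K[X]).natDegree < M.N - i := by exact_mod_cast hg
    apply M.R_zero hQ
    rw [natDegree_mul hb0 hg0]
    omega
  · intro hg
    refine M.orth hQ i hiN _ g.2.2 fun l hl => ?_
    have hX : (X : K[X]) ^ l ∈ M.Fs i := by
      refine ⟨M.S.pow_mem M.X_mem l, ?_⟩
      rw [degree_X_pow]
      exact_mod_cast hl
    have h4 := hg ⟨X ^ l, hX⟩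
    have h5 := hβ ⟨X ^ l, hX⟩ g
    rw [h4] at h5
    rw [← h5]
    simp only [al, map_zero]

end Pool.Agent.MIY
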