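import Mathlib

/-!
# two coprime elements of a factorially closed subalgebra of `k[x,y,z]` generate an ideal of finite codimension
-/

set_option autoImplicit false

open MvPolynomial

namespace Pool.Agent.MIY

namespace BezAux

variable {k : Type*} [Field k]

/-- the polynomials in three variables -/
abbrev P3 (k : Type*) [Field k] := MvPolynomial (Fin 3) k

/-- the substitution `X i ↦ 0` -/
noncomputable def kill (i : Fin 3) : P3 k →ₐ[k] P3 k := aeval (fun j => if j = i then 0 else X j)

theorem dvd_sub_kill (i : Fin 3) (p : P3 k) : X i ∣ p - kill i p := by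
  induction p using MvPolynomial.induction_on with
  | C a => simp [kill]
  | add p q hp hq =>
    rw [map_add]
    have := dvd_add hp hq
    convert this using 1
    ring
  | mul_X p j hp =>
    rw [map_mul]
    have hj : kill (k := k) i (X j) = if j = i then 0 else X j := by simp [kill]
    rw [hj]
    split_ifs with h
    · subst h; simp
    · obtain ⟨c, hc⟩ := hp
      exact ⟨c * X j, by rw [← mul_assoc, ← hc]; ring⟩

theorem dvd_of_kill (i : Fin 3) {p : P3 k} (h : kill i p = 0) : X i ∣ p := by
  have := dvd_sub_kill i p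
  rwa [h, sub_zero] at this

/-- the monomials in the two other variables with exponents at most `m` -/
noncomputable def mons (k : Type*) [Field k] (i : Fin 3) (m : ℕ) : Finset (P3 k) := by
  classical
  exact (Finset.range (m + 1) ×ˢ Finset.range (m + 1)).image
    (fun p => monomial (Finsupp.single (i + 1) p.1 + Finsupp.single (i + 2) p.2) (1 : k))

theorem card_mons (i : Fin 3) (m : ℕ) : (mons k i m).card ≤ (m + 1) ^ 2 := by
  classical
  unfold mons
  refine Finset.card_image_le.trans ?_
  simp [sq]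

theorem kill_mem (i : Fin 3) (m : ℕ) {p : P3 k} (hp : p.totalDegree ≤ m) :
    kill i p ∈ Submodule.span k (mons k i m : Set (P3 k)) := by
  classical
  have h1 : kill i p = ∑ d ∈ p.support, coeff d p • kill i (monomial d 1) := by
    conv_lhs => rw [p.as_sum]
    rw [map_sum]
    refine Finset.sum_congr rfl (fun d _ => ?_)
    rw [← map_smul, smul_monomial, smul_eq_mul, mul_one]
  rw [h1]
  refine Submodule.sum_mem _ (fun d hd => Submodule.smul_mem _ _ ?_)
  by_cases h0 : d i = 0
  · have hd2 : d = Finsupp.single (i + 1) (d (i + 1)) + Finsupp.single (i + 2) (d (i + 2)) := by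
      ext t
      fin_cases i <;> fin_cases t <;> simp_all
    have hk : kill i (monomial d (1 : k)) = monomial d 1 := by
      rw [monomial_eq, map_mul, C_1, map_one, one_mul, one_mul,
        Finsupp.prod_fintype _ _ (fun j => pow_zero _), map_prod]
      refine Finset.prod_congr rfl (fun j _ => ?_)
      rw [map_pow]
      by_cases hj : j = i
      · subst hj; rw [h0]; simp
      · simp [kill, hj]
    rw [hk]
    apply Submodule.subset_span
    have hle : ∀ t, d t ≤ m := by
      intro t
      have h2 := le_totalDegree hd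
      have h3 : d t ≤ d.sum fun _ e => e := by
        rw [Finsupp.sum_fintype _ _ (fun _ => rfl)]
        exact Finset.single_le_sum (f := fun t => d t) (fun _ _ => Nat.zero_le _) (Finset.mem_univ t)
      omega
    rw [Finset.mem_coe]
    unfold mons
    rw [Finset.mem_image]
    refine ⟨(d (i + 1), d (i + 2)), ?_, ?_⟩
    · simp only [Finset.mem_product, Finset.mem_range]
      exact ⟨Nat.lt_succ_of_le (hle _), Nat.lt_succ_of_le (hle _)⟩
    · rw [← hd2]
  · have hk : kill i (monomial d (1 : k)) = 0 := by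
      rw [monomial_eq, map_mul, Finsupp.prod_fintype _ _ (fun j => pow_zero _), map_prod,
        Finset.prod_eq_zero (Finset.mem_univ i), mul_zero]
      rw [map_pow]
      simp [kill, h0]
    rw [hk]
    exact Submodule.zero_mem _

variable (A : Subalgebra k (P3 k))

/-- the elements of degree at most `m` -/
noncomputable def Fm (m : ℕ) : Submodule k A :=
  (restrictTotalDegree (Fin 3) k m).comap A.val.toLinearMap

theorem mem_Fm {m : ℕ} {a : A} : a ∈ Fm A m ↔ (a : P3 k).totalDegree ≤ m := by
  simp [Fm, mem_restrictTotalDegree]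

theorem Fm_mono {m n : ℕ} (h : m ≤ n) : Fm A m ≤ Fm A n := by
  intro a ha
  rw [mem_Fm] at *
  omega

theorem kill_inj (hfc : ∀ a b : P3 k, a * b ≠ 0 → a * b ∈ A → a ∈ A) {i : Fin 3}
    (hi : (X i : P3 k) ∉ A) : Function.Injective (fun a : A => kill i (a : P3 k)) := by
  intro a b hab
  by_contra hne
  have h1 : kill i ((a : P3 k) - (b : P3 k)) = 0 := by
    rw [map_sub]; exact sub_eq_zero.2 hab
  obtain ⟨c, hc⟩ := dvd_of_kill i h1
  have h2 : (a : P3 k) - (b : P3 k) ≠ 0 := by
    intro h
    exact hne (Subtype.ext (sub_eq_zero.1 h))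
  exact hi (hfc (X i) c (by rw [← hc]; exact h2) (by rw [← hc]; exact A.sub_mem a.2 b.2))

theorem Fm_fin (hfc : ∀ a b : P3 k, a * b ≠ 0 → a * b ∈ A → a ∈ A) {i : Fin 3}
    (hi : (X i : P3 k) ∉ A) (m : ℕ) : FiniteDimensional k (Fm A m) ∧
      Module.finrank k (Fm A m) ≤ (m + 1) ^ 2 := by
  let φ : Fm A m →ₗ[k] Submodule.span k (mons k i m : Set (P3 k)) :=
    LinearMap.codRestrict _ ((kill i).toLinearMap ∘ₗ A.val.toLinearMap ∘ₗ (Fm A m).subtype)
      (fun a => kill_mem i m ((mem_Fm A).1 a.2))
  have hφ : Function.Injective φ := by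
    intro a b hab
    have h1 := congrArg Subtype.val hab
    exact Subtype.ext (kill_inj A hfc hi h1)
  have hfin : FiniteDimensional k (Submodule.span k (mons k i m : Set (P3 k))) :=
    FiniteDimensional.span_finset k _
  refine ⟨FiniteDimensional.of_injective φ hφ, ?_⟩
  exact (LinearMap.finrank_le_finrank_of_injective hφ).trans
    ((finrank_span_finset_le_card _).trans (card_mons i m))

/-- growth contradiction -/
theorem growth (h v : ℕ → ℕ) (l : ℕ) (hmono : Monotone h) (hh : ∀ m, h m ≤ (m + 1) ^ 2)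
    (hv : Monotone v) (hm : ∀ m, v (m + 2 * l) + 2 * h (m + l) ≤ h (m + 2 * l) + h m) (m : ℕ) :
    v m ≤ 8 * (l + 1) ^ 2 := by
  by_contra hcon
  push Not at hcon
  obtain ⟨N, hN⟩ : ∃ N, N = 8 * (l + 1) ^ 2 := ⟨_, rfl⟩
  rw [← hN] at hcon
  have h2 : ∀ t, N + 2 * h (m + t * l + l) ≤ h (m + t * l + 2 * l) + h (m + t * l) := by
    intro t
    have h3 := hm (m + t * l)
    have h4 : v m ≤ v (m + t * l + 2 * l) := hv (by omega)
    omega
  have h5 : ∀ t, t * N + h (m + t * l) ≤ h (m + t * l + l) := by
    intro t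
    induction t with
    | zero =>
      have := hmono (show m + 0 * l ≤ m + 0 * l + l by omega)
      omega
    | succ t ih =>
      have := h2 t
      have e1 : m + (t + 1) * l = m + t * l + l := by ring
      have e2 : m + t * l + l + l = m + t * l + 2 * l := by ring
      rw [e1, e2]
      nlinarith
  have h6 : ∀ t, (t + 1) * t * N ≤ 2 * h (m + (t + 1) * l) := by
    intro t
    induction t with
    | zero => simp
    | succ t ih =>
      have h7 := h5 (t + 1)
      have e1 : m + (t + 1 + 1) * l = m + (t + 1) * l + l := by ring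
      rw [e1]
      nlinarith
  have h7 := h6 (m + 1)
  have h8 := hh (m + (m + 1 + 1) * l)
  rw [hN] at h7
  have h9 : (m + 1 + 1) * (m + 1) * (8 * (l + 1) ^ 2) ≤ 2 * (m + (m + 1 + 1) * l + 1) ^ 2 := by
    omega
  have e3 : m + (m + 1 + 1) * l + 1 + 1 = (m + 2) * (l + 1) := by ring
  have h10 : (m + (m + 1 + 1) * l + 1) ^ 2 ≤ ((m + 2) * (l + 1)) ^ 2 := by
    rw [← e3]
    exact Nat.pow_le_pow_left (by omega) 2
  have h11 : 0 < (l + 1) ^ 2 := by positivity
  have h12 : (m + 2) * (m + 1) * 8 * (l + 1) ^ 2 ≤ 2 * (m + 2) ^ 2 * (l + 1) ^ 2 := by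
    calc (m + 2) * (m + 1) * 8 * (l + 1) ^ 2 = (m + 1 + 1) * (m + 1) * (8 * (l + 1) ^ 2) := by ring
      _ ≤ 2 * (m + (m + 1 + 1) * l + 1) ^ 2 := h9
      _ ≤ 2 * ((m + 2) * (l + 1)) ^ 2 := by omega
      _ = 2 * (m + 2) ^ 2 * (l + 1) ^ 2 := by ring
  have h13 := Nat.le_of_mul_le_mul_right h12 h11
  nlinarith

/-- an increasing union of subspaces of bounded dimension -/
theorem fin_of_bdd {M : Type*} [AddCommGroup M] [Module k M] (V : ℕ → Submodule k M)
    (hV : Monotone V) (hf : ∀ m, FiniteDimensional k (V m)) (hu : ∀ x, ∃ m, x ∈ V m) (N : ℕ)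
    (hN : ∀ m, Module.finrank k (V m) ≤ N) : FiniteDimensional k M := by
  classical
  obtain ⟨m₁, h1⟩ : ∃ m₁, ∀ m, Module.finrank k (V m) ≤ Module.finrank k (V m₁) := by
    by_contra hcon
    push Not at hcon
    have : ∀ n, ∃ m, n ≤ Module.finrank k (V m) := by
      intro n
      induction n with
      | zero => exact ⟨0, Nat.zero_le _⟩
      | succ n ih =>
        obtain ⟨m, hm⟩ := ih
        obtain ⟨m', hm'⟩ := hcon m
        exact ⟨m', by omega⟩
    obtain ⟨m, hm⟩ := this (N + 1)
    have := hN m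
    omega
  have h2 : V m₁ = ⊤ := by
    rw [eq_top_iff]
    intro x _
    obtain ⟨m, hm⟩ := hu x
    have h3 : V m₁ ≤ V (max m m₁) := hV (le_max_right _ _)
    have := hf (max m m₁)
    have h4 := Submodule.eq_of_le_of_finrank_le h3 (h1 _)
    rw [h4]
    exact hV (le_max_left _ _) hm
  have := hf m₁
  rw [h2] at this
  exact (Submodule.topEquiv (R := k) (M := M)).finiteDimensional

theorem deg_mul {x a : P3 k} (hx : x ≠ 0) (ha : a ≠ 0) :
    (x * a).totalDegree = x.totalDegree + a.totalDegree :=
  totalDegree_mul_of_isDomain hx ha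

theorem mul_inj {x : A} (hx : x ≠ 0) : Function.Injective (LinearMap.mulLeft k x) := by
  intro a b hab
  exact mul_left_cancel₀ hx hab

/-- the inequality for the growth function, equal degrees -/
theorem ineq (hfc : ∀ a b : P3 k, a * b ≠ 0 → a * b ∈ A → a ∈ A) {i : Fin 3}
    (hi : (X i : P3 k) ∉ A) (x y : A) (hx : x ≠ 0) (hy : y ≠ 0)
    (hco : ∀ p q : A, x * p = y * q → y ∣ p) (l : ℕ) (hxl : (x : P3 k).totalDegree = l)
    (hyl : (y : P3 k).totalDegree = l) (m : ℕ) :
    Module.finrank k ((Fm A (m + 2 * l)).map (Ideal.Quotient.mkₐ k (Ideal.span {x, y})).toLinearMap) +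
      2 * Module.finrank k (Fm A (m + l)) ≤
        Module.finrank k (Fm A (m + 2 * l)) + Module.finrank k (Fm A m) := by
  set q := (Ideal.Quotient.mkₐ k (Ideal.span {x, y})).toLinearMap with hq
  have f0 := (Fm_fin A hfc hi m).1
  have f1 := (Fm_fin A hfc hi (m + l)).1
  have f2 := (Fm_fin A hfc hi (m + 2 * l)).1
  have hx' : (x : P3 k) ≠ 0 := fun h => hx (Subtype.ext h)
  have hy' : (y : P3 k) ≠ 0 := fun h => hy (Subtype.ext h)
  -- products
  have hmulle : ∀ (z : A), (z : P3 k) ≠ 0 → (z : P3 k).totalDegree = l →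
      (Fm A (m + l)).map (LinearMap.mulLeft k z) ≤ Fm A (m + 2 * l) := by
    intro z hz hzl
    rw [Submodule.map_le_iff_le_comap]
    intro a ha
    rw [Submodule.mem_comap, LinearMap.mulLeft_apply, mem_Fm]
    rw [mem_Fm] at ha
    by_cases h0 : (a : P3 k) = 0
    · have : ((z * a : A) : P3 k) = 0 := by
        change (z : P3 k) * (a : P3 k) = 0
        rw [h0, mul_zero]
      rw [this]; simp
    · have : ((z * a : A) : P3 k).totalDegree = (z : P3 k).totalDegree + (a : P3 k).totalDegree :=
        deg_mul hz h0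
      rw [this, hzl]; omega
  set U1 := (Fm A (m + l)).map (LinearMap.mulLeft k x) with hU1
  set U2 := (Fm A (m + l)).map (LinearMap.mulLeft k y) with hU2
  have g1 : Module.finrank k U1 = Module.finrank k (Fm A (m + l)) :=
    (Submodule.equivMapOfInjective _ (mul_inj A hx) (Fm A (m + l))).finrank_eq.symm
  have g2 : Module.finrank k U2 = Module.finrank k (Fm A (m + l)) :=
    (Submodule.equivMapOfInjective _ (mul_inj A hy) (Fm A (m + l))).finrank_eq.symm
  have hU1f : FiniteDimensional k U1 := inferInstance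
  have hU2f : FiniteDimensional k U2 := inferInstance
  have g3 := Submodule.finrank_sup_add_finrank_inf_eq U1 U2
  have hxy : x * y ≠ 0 := mul_ne_zero hx hy
  -- the intersection
  have g4 : Module.finrank k (U1 ⊓ U2 : Submodule k A) ≤ Module.finrank k (Fm A m) := by
    have h1 : (U1 ⊓ U2 : Submodule k A) ≤ (Fm A m).map (LinearMap.mulLeft k (x * y)) := by
      rintro z ⟨hz1, hz2⟩
      obtain ⟨p, hp, hpz⟩ := (Submodule.mem_map).1 hz1
      obtain ⟨r, hr, hrz⟩ := (Submodule.mem_map).1 hz2
      have h2 : x * p = y * r := by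
        rw [LinearMap.mulLeft_apply] at hpz hrz
        rw [hpz, hrz]
      obtain ⟨t, ht⟩ := hco p r h2
      rw [Submodule.mem_map]
      refine ⟨t, ?_, ?_⟩
      · rw [mem_Fm]
        by_cases h0 : (t : P3 k) = 0
        · rw [h0]; simp
        · have h3 : (p : P3 k).totalDegree = (y : P3 k).totalDegree + (t : P3 k).totalDegree := by
            rw [ht]; exact deg_mul hy' h0
          rw [mem_Fm] at hp
          omega
      · rw [LinearMap.mulLeft_apply] at hpz ⊢
        rw [← hpz, ht]; ring
    have h2 : FiniteDimensional k ((Fm A m).map (LinearMap.mulLeft k (x * y))) := inferInstance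
    refine (Submodule.finrank_mono h1).trans ?_
    exact (Submodule.equivMapOfInjective _ (mul_inj A hxy) (Fm A m)).finrank_eq.symm.le
  -- rank and nullity
  have hUF : U1 ⊔ U2 ≤ Fm A (m + 2 * l) := sup_le (hmulle x hx' hxl) (hmulle y hy' hyl)
  have hUq : ∀ z ∈ U1 ⊔ U2, q z = 0 := by
    have e1 : U1 ⊔ U2 ≤ LinearMap.ker q := by
      refine sup_le ?_ ?_
      · rw [hU1, Submodule.map_le_iff_le_comap]
        intro a _
        rw [Submodule.mem_comap, LinearMap.mem_ker, LinearMap.mulLeft_apply]
        exact Ideal.Quotient.eq_zero_iff_mem.2 (Ideal.mul_mem_right _ _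
          (Ideal.subset_span (by simp)))
      · rw [hU2, Submodule.map_le_iff_le_comap]
        intro a _
        rw [Submodule.mem_comap, LinearMap.mem_ker, LinearMap.mulLeft_apply]
        exact Ideal.Quotient.eq_zero_iff_mem.2 (Ideal.mul_mem_right _ _
          (Ideal.subset_span (by simp)))
    exact fun z hz => e1 hz
  have g5 := LinearMap.finrank_range_add_finrank_ker (K := k) (V := Fm A (m + 2 * l))
    (V₂ := A ⧸ Ideal.span {x, y}) (q.domRestrict (Fm A (m + 2 * l)))
  have g6 : LinearMap.range (q.domRestrict (Fm A (m + 2 * l))) = (Fm A (m + 2 * l)).map q :=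
    LinearMap.range_domRestrict _ _
  rw [g6] at g5
  have g7 : Module.finrank k (U1 ⊔ U2 : Submodule k A) ≤
      Module.finrank k (LinearMap.ker (q.domRestrict (Fm A (m + 2 * l)))) := by
    let φ : (U1 ⊔ U2 : Submodule k A) →ₗ[k] LinearMap.ker (q.domRestrict (Fm A (m + 2 * l))) :=
      LinearMap.codRestrict _ (Submodule.inclusion hUF) (fun z => by
        rw [LinearMap.mem_ker]
        exact hUq z z.2)
    have hφ : Function.Injective φ := by
      intro a b hab
      have h1 := congrArg (fun z : LinearMap.ker (q.domRestrict (Fm A (m + 2 * l))) =>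
        ((z : Fm A (m + 2 * l)) : A)) hab
      exact Subtype.ext h1
    have hkf : Module.Finite k (LinearMap.ker (q.domRestrict (Fm A (m + 2 * l)))) :=
      FiniteDimensional.finiteDimensional_submodule (K := k) (V := Fm A (m + 2 * l)) _
    exact LinearMap.finrank_le_finrank_of_injective hφ
  omega

theorem bez_eq (hfc : ∀ a b : P3 k, a * b ≠ 0 → a * b ∈ A → a ∈ A) {i : Fin 3}
    (hi : (X i : P3 k) ∉ A) (x y : A) (hx : x ≠ 0) (hy : y ≠ 0)
    (hco : ∀ p q : A, x * p = y * q → y ∣ p)
    (hxy : (x : P3 k).totalDegree = (y : P3 k).totalDegree) :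
    FiniteDimensional k (A ⧸ Ideal.span {x, y}) := by
  set q := (Ideal.Quotient.mkₐ k (Ideal.span {x, y})).toLinearMap with hq
  set l := (y : P3 k).totalDegree with hl
  have hf := fun m => (Fm_fin A hfc hi m).1
  have hmono : Monotone (fun m => Module.finrank k (Fm A m)) := by
    intro m n hmn
    have := hf n
    exact Submodule.finrank_mono (Fm_mono A hmn)
  have hvf : ∀ m, FiniteDimensional k ((Fm A m).map q) := by
    intro m
    have := hf m
    infer_instance
  have hvm : Monotone (fun m => (Fm A m).map q) := fun m n hmn => Submodule.map_mono (Fm_mono A hmn)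
  have hv : Monotone (fun m => Module.finrank k ((Fm A m).map q)) := by
    intro m n hmn
    have := hvf n
    exact Submodule.finrank_mono (hvm hmn)
  refine fin_of_bdd (fun m => (Fm A m).map q) hvm hvf ?_ (8 * (l + 1) ^ 2) ?_
  · intro z
    obtain ⟨a, rfl⟩ := Ideal.Quotient.mkₐ_surjective k _ z
    exact ⟨(a : P3 k).totalDegree, Submodule.mem_map.2 ⟨a, (mem_Fm A).2 le_rfl, rfl⟩⟩
  · exact growth _ _ l hmono (fun m => (Fm_fin A hfc hi m).2) hv
      (fun m => ineq A hfc hi x y hx hy hco l hxy rfl m)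

theorem co_pow_right {R : Type*} [CommRing R] [IsDomain R] {x y : R} (hy : y ≠ 0)
    (hco : ∀ p q : R, x * p = y * q → y ∣ p) (n : ℕ) :
    ∀ p q : R, x * p = y ^ n * q → y ^ n ∣ p := by
  induction n with
  | zero => intro p q _; simp
  | succ n ih =>
    intro p q h
    have h1 : x * p = y * (y ^ n * q) := by rw [h]; ring
    obtain ⟨t, rfl⟩ := hco _ _ h1
    have h2 : x * t = y ^ n * q := by
      apply mul_left_cancel₀ hy
      rw [← h1]; ring
    obtain ⟨s, rfl⟩ := ih _ _ h2
    exact ⟨s, by ring⟩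

theorem co_symm {R : Type*} [CommRing R] [IsDomain R] {x y : R} (hy : y ≠ 0)
    (hco : ∀ p q : R, x * p = y * q → y ∣ p) : ∀ p q : R, y * p = x * q → x ∣ p := by
  intro p q h
  obtain ⟨t, rfl⟩ := hco q p h.symm
  exact ⟨t, by
    apply mul_left_cancel₀ hy
    rw [h]; ring⟩

end BezAux

open BezAux in
/-- two coprime elements of a factorially closed subalgebra generate an ideal of finite codimension -/
theorem bez {k : Type*} [Field k] (A : Subalgebra k (MvPolynomial (Fin 3) k))
    (hfc : ∀ a b : MvPolynomial (Fin 3) k, a * b ≠ 0 → a * b ∈ A → a ∈ A)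
    (hA : ∃ i, (X i : MvPolynomial (Fin 3) k) ∉ A) (x y : A) (hx : x ≠ 0) (hy : y ≠ 0)
    (hco : ∀ p q : A, x * p = y * q → y ∣ p) : FiniteDimensional k (A ⧸ Ideal.span {x, y}) := by
  obtain ⟨i, hi⟩ := hA
  have hx' : (x : P3 k) ≠ 0 := fun h => hx (Subtype.ext h)
  have hy' : (y : P3 k) ≠ 0 := fun h => hy (Subtype.ext h)
  have h1 : Ideal.span {(1 : A)} = ⊤ := Ideal.span_singleton_one
  have hC : ∀ z : A, (z : P3 k) ≠ 0 → (z : P3 k).totalDegree = 0 → IsUnit z := by
    intro z hz hz0
    rw [totalDegree_eq_zero_iff_eq_C] at hz0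
    have hc : coeff 0 (z : P3 k) ≠ 0 := by
      intro h
      rw [h, C_0] at hz0
      exact hz hz0
    have e : z = algebraMap k A (coeff 0 (z : P3 k)) := Subtype.ext hz0
    rw [e]
    exact (IsUnit.mk0 _ hc).map (algebraMap k A)
  have htop : ∀ z ∈ ({x, y} : Set A), IsUnit z → FiniteDimensional k (A ⧸ Ideal.span {x, y}) := by
    intro z hz hu
    have h2 : Ideal.span {x, y} = (⊤ : Ideal A) :=
      Ideal.eq_top_of_isUnit_mem _ (Ideal.subset_span hz) hu
    rw [h2]
    have : Subsingleton (A ⧸ (⊤ : Ideal A)) := Ideal.Quotient.subsingleton_iff.2 rfl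
    infer_instance
  rcases Nat.eq_zero_or_pos (x : P3 k).totalDegree with ha | ha
  · exact htop x (by simp) (hC x hx' ha)
  rcases Nat.eq_zero_or_pos (y : P3 k).totalDegree with hb | hb
  · exact htop y (by simp) (hC y hy' hb)
  set a := (x : P3 k).totalDegree with haa
  set b := (y : P3 k).totalDegree with hbb
  have hpow : ∀ (z : P3 k), z ≠ 0 → ∀ n, (z ^ n).totalDegree = n * z.totalDegree := by
    intro z hz n
    induction n with
    | zero => simp
    | succ n ih => rw [pow_succ, deg_mul (pow_ne_zero _ hz) hz, ih]; ring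
  have hco2 : ∀ p q : A, x ^ b * p = y ^ a * q → y ^ a ∣ p := by
    have h3 := co_pow_right hy hco a
    have h4 := co_symm (pow_ne_zero a hy) h3
    have h5 := co_pow_right hx h4 b
    exact co_symm (pow_ne_zero b hx) h5
  have hdeg : ((x ^ b : A) : P3 k).totalDegree = ((y ^ a : A) : P3 k).totalDegree := by
    have e1 : ((x ^ b : A) : P3 k) = (x : P3 k) ^ b := rfl
    have e2 : ((y ^ a : A) : P3 k) = (y : P3 k) ^ a := rfl
    rw [e1, e2, hpow _ hx', hpow _ hy', ← haa, ← hbb, mul_comm]
  have hfin := bez_eq A hfc hi (x ^ b) (y ^ a) (pow_ne_zero _ hx) (pow_ne_zero _ hy) hco2 hdeg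
  have hle : Ideal.span {x ^ b, y ^ a} ≤ Ideal.span {x, y} := by
    rw [Ideal.span_le]
    rintro z (rfl | rfl)
    · exact Ideal.pow_mem_of_mem _ (Ideal.subset_span (by simp)) _ hb
    · exact Ideal.pow_mem_of_mem _ (Ideal.subset_span (by simp)) _ ha
  exact Module.Finite.of_surjective (Ideal.Quotient.factorₐ k hle).toLinearMap
    (Ideal.Quotient.factor_surjective hle)

end Pool.Agent.MIY
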