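import Mathlib

/-!
# MIY/BezA: `A/(x, y)` has finite dimension over `k` (58)

`A` is a subalgebra of `k[x₀, x₁, x₂]` which meets `(x_i)` in `0`; `x, y` are coprime in `A`.
-/

set_option autoImplicit false

open MvPolynomial

namespace Pool.Agent.MIY

section indep

variable {k A : Type*} [Field k] [CommRing A] [IsDomain A] [Algebra k A] {x y : A} {ι : Type*} [Fintype ι]

/-- powers of `y` -/
theorem bez_indA (hy0 : y ≠ 0) (hcop : ∀ a b : A, x * a = y * b → ∃ c, a = y * c) (e : ι → A)
    (he : ∀ c : ι → k, (∑ j, c j • e j) ∈ Ideal.span {x, y} → c = 0) (K : ℕ) : ∀ (c : ℕ → ι → k) (u : A),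
    ∑ t ∈ Finset.range K, (∑ j, c t j • e j) * y ^ t = x * u → ∀ t < K, c t = 0 := by
  induction K with
  | zero => intro c u _ t ht; omega
  | succ K ih =>
    intro c u h t ht
    rw [Finset.sum_range_succ'] at h
    simp only [pow_zero, mul_one, pow_succ] at h
    have h1 : ∑ t ∈ Finset.range K, (∑ j, c (t + 1) j • e j) * (y ^ t * y) =
        y * ∑ t ∈ Finset.range K, (∑ j, c (t + 1) j • e j) * y ^ t := by
      rw [Finset.mul_sum]
      exact Finset.sum_congr rfl fun t _ => by ring
    rw [h1] at h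
    have h2 : c 0 = 0 := by
      apply he
      rw [Ideal.mem_span_pair]
      exact ⟨u, - ∑ t ∈ Finset.range K, (∑ j, c (t + 1) j • e j) * y ^ t, by linear_combination -h⟩
    rw [h2] at h
    simp only [Pi.zero_apply, zero_smul, Finset.sum_const_zero, add_zero] at h
    obtain ⟨w, hw⟩ := hcop _ _ h.symm
    have h3 : ∑ t ∈ Finset.range K, (∑ j, c (t + 1) j • e j) * y ^ t = x * w := by
      apply mul_left_cancel₀ hy0
      rw [h, hw]
      ring
    rcases t with _ | t
    · exact h2
    · exact ih (fun t => c (t + 1)) w h3 t (by omega)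

/-- powers of `x` and of `y` -/
theorem bez_indB (hx0 : x ≠ 0) (hy0 : y ≠ 0) (hcop : ∀ a b : A, x * a = y * b → ∃ c, a = y * c) (e : ι → A)
    (he : ∀ c : ι → k, (∑ j, c j • e j) ∈ Ideal.span {x, y} → c = 0) (L K : ℕ) : ∀ (c : ℕ → ℕ → ι → k),
    ∑ s ∈ Finset.range L, (∑ t ∈ Finset.range K, (∑ j, c s t j • e j) * y ^ t) * x ^ s = 0 →
      ∀ s < L, ∀ t < K, c s t = 0 := by
  induction L with
  | zero => intro c _ s hs; omega
  | succ L ih =>
    intro c h s hs
    rw [Finset.sum_range_succ'] at h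
    simp only [pow_zero, mul_one, pow_succ] at h
    have h1 : ∑ s ∈ Finset.range L, (∑ t ∈ Finset.range K, (∑ j, c (s + 1) t j • e j) * y ^ t) * (x ^ s * x) =
        x * ∑ s ∈ Finset.range L, (∑ t ∈ Finset.range K, (∑ j, c (s + 1) t j • e j) * y ^ t) * x ^ s := by
      rw [Finset.mul_sum]
      exact Finset.sum_congr rfl fun t _ => by ring
    rw [h1] at h
    have h2 := bez_indA hy0 hcop e he K (c 0)
      (- ∑ s ∈ Finset.range L, (∑ t ∈ Finset.range K, (∑ j, c (s + 1) t j • e j) * y ^ t) * x ^ s)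
      (by linear_combination h)
    have h3 : ∑ t ∈ Finset.range K, (∑ j, c 0 t j • e j) * y ^ t = 0 := by
      refine Finset.sum_eq_zero fun t ht => ?_
      rw [h2 t (Finset.mem_range.1 ht)]
      simp
    rw [h3, add_zero] at h
    have h4 := (mul_eq_zero.1 h).resolve_left hx0
    rcases s with _ | s
    · exact h2
    · exact ih (fun s => c (s + 1)) h4 s (by omega)

theorem bez_ind (hx0 : x ≠ 0) (hy0 : y ≠ 0) (hcop : ∀ a b : A, x * a = y * b → ∃ c, a = y * c) (e : ι → A)
    (he : ∀ c : ι → k, (∑ j, c j • e j) ∈ Ideal.span {x, y} → c = 0) (K : ℕ) :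
    LinearIndependent k (fun z : (Fin K × Fin K) × ι => e z.2 * y ^ (z.1.2 : ℕ) * x ^ (z.1.1 : ℕ)) := by
  classical
  rw [Fintype.linearIndependent_iff]
  intro g hg z
  set c : ℕ → ℕ → ι → k := fun s t j => if h : s < K ∧ t < K then g ((⟨s, h.1⟩, ⟨t, h.2⟩), j) else 0 with hc
  have h1 : ∑ s ∈ Finset.range K, (∑ t ∈ Finset.range K, (∑ j, c s t j • e j) * y ^ t) * x ^ s = 0 := by
    rw [← hg, Fintype.sum_prod_type, Fintype.sum_prod_type, Finset.sum_range]
    refine Finset.sum_congr rfl fun s _ => ?_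
    rw [Finset.sum_range, Finset.sum_mul]
    refine Finset.sum_congr rfl fun t _ => ?_
    rw [Finset.sum_mul, Finset.sum_mul]
    refine Finset.sum_congr rfl fun j _ => ?_
    have h2 : c s t j = g ((s, t), j) := by
      simp only [hc]
      rw [dif_pos ⟨s.2, t.2⟩]
    rw [h2]
    simp only [Algebra.smul_mul_assoc]
  have h2 := bez_indB hx0 hy0 hcop e he K K c h1 z.1.1 z.1.1.2 z.1.2 z.1.2.2
  have h3 : c z.1.1 z.1.2 z.2 = g z := by
    simp only [hc]
    rw [dif_pos ⟨z.1.1.2, z.1.2.2⟩]
  rw [← h3, h2, Pi.zero_apply]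

end indep

section growth

variable {k : Type*} [Field k]

/-- a polynomial none of whose monomials is prime to `X i` is divisible by `X i` -/
theorem X_dvd_of_coeff (i : Fin 3) (a : MvPolynomial (Fin 3) k) (h : ∀ d : Fin 3 →₀ ℕ, d i = 0 → coeff d a = 0) :
    X i ∣ a := by
  rw [X_dvd_iff_modMonomial_eq_zero]
  ext d
  rw [coeff_zero]
  by_cases hd : Finsupp.single i 1 ≤ d
  · exact coeff_modMonomial_of_le a hd
  · rw [coeff_modMonomial_of_not_le a hd]
    apply h
    by_contra h0
    exact hd (Finsupp.single_le_iff.2 (by omega))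

/-- growth: independent elements of degree at most `m` -/
theorem bez_card (i : Fin 3) (A : Subalgebra k (MvPolynomial (Fin 3) k)) (hi : ∀ a ∈ A, X i ∣ a → a = 0)
    {κ : Type*} [Fintype κ] (e : κ → A) (he : LinearIndependent k e) (m : ℕ)
    (hm : ∀ j, totalDegree (e j : MvPolynomial (Fin 3) k) ≤ m) : Fintype.card κ ≤ (m + 1) ^ 2 := by
  classical
  obtain ⟨j, l, hjl⟩ : ∃ j l : Fin 3, ∀ s : Fin 3, s = i ∨ s = j ∨ s = l := by
    fin_cases i
    · exact ⟨1, 2, by decide⟩
    · exact ⟨0, 2, by decide⟩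
    · exact ⟨0, 1, by decide⟩
  let T := {d : Fin 3 →₀ ℕ // d i = 0 ∧ d j ≤ m ∧ d l ≤ m}
  let F : T → Fin (m + 1) × Fin (m + 1) := fun d => (⟨d.1 j, by have := d.2.2.1; omega⟩, ⟨d.1 l, by have := d.2.2.2; omega⟩)
  have hF : Function.Injective F := by
    intro d d' h
    have h1 : d.1 j = d'.1 j := congrArg (fun z => (z.1 : ℕ)) h
    have h2 : d.1 l = d'.1 l := congrArg (fun z => (z.2 : ℕ)) h
    apply Subtype.ext
    ext s
    rcases hjl s with rfl | rfl | rfl
    · rw [d.2.1, d'.2.1]
    · exact h1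
    · exact h2
  haveI : Finite T := Finite.of_injective F hF
  haveI : Fintype T := Fintype.ofFinite T
  have hcard : Fintype.card T ≤ (m + 1) ^ 2 := by
    have := Fintype.card_le_of_injective F hF
    rw [Fintype.card_prod, Fintype.card_fin] at this
    rw [pow_two]
    exact this
  let φ : A →ₗ[k] (T → k) :=
    { toFun := fun a d => coeff d.1 (a : MvPolynomial (Fin 3) k)
      map_add' := fun a b => by
        funext d
        simp
      map_smul' := fun c a => by
        funext d
        simp }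
  have hφ : ∀ a : A, totalDegree (a : MvPolynomial (Fin 3) k) ≤ m → φ a = 0 → a = 0 := by
    intro a ha h0
    apply Subtype.ext
    refine hi a a.2 (X_dvd_of_coeff i _ fun d hd => ?_)
    by_contra hne
    have hdeg : ∀ s, d s ≤ m := fun s => by
      have h1 : d.degree ≤ totalDegree (a : MvPolynomial (Fin 3) k) := by
        have := le_totalDegree (mem_support_iff.2 hne)
        simpa [Finsupp.degree, Finsupp.sum] using this
      have h2 : d s ≤ d.degree := Finsupp.le_degree s d
      omega
    have h3 := congrFun h0 (⟨d, hd, hdeg j, hdeg l⟩ : T)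
    exact hne h3
  have hli : LinearIndependent k (fun s => φ (e s)) := by
    rw [Fintype.linearIndependent_iff] at he ⊢
    intro g hg
    apply he
    apply hφ
    · rw [AddSubmonoidClass.coe_finset_sum]
      refine (totalDegree_finset_sum _ _).trans (Finset.sup_le fun s _ => ?_)
      refine le_trans ?_ (hm s)
      exact totalDegree_smul_le _ _
    · rw [map_sum]
      simpa using hg
  calc Fintype.card κ ≤ Module.finrank k (T → k) := hli.fintype_card_le_finrank
    _ = Fintype.card T := Module.finrank_fintype_fun_eq_card k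
    _ ≤ (m + 1) ^ 2 := hcard

end growth

end Pool.Agent.MIY
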