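import Mathlib
import Pool.Agent.MIY.BezA

/-!
# MIY/BezB: `dim_k A/(x, y) ≤ (deg x + deg y)²` (58)
-/

set_option autoImplicit false

open MvPolynomial

namespace Pool.Agent.MIY

variable {k : Type*} [Field k]

theorem bez_rank (i : Fin 3) (A : Subalgebra k (MvPolynomial (Fin 3) k)) (hi : ∀ a ∈ A, X i ∣ a → a = 0)
    {x y : A} (hx0 : x ≠ 0) (hy0 : y ≠ 0) (hcop : ∀ a b : A, x * a = y * b → ∃ c, a = y * c) :
    Module.rank k (A ⧸ Ideal.span {x, y}) ≤
      (((totalDegree (x : MvPolynomial (Fin 3) k) + totalDegree (y : MvPolynomial (Fin 3) k)) ^ 2 : ℕ) : Cardinal) := by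
  classical
  set D := totalDegree (x : MvPolynomial (Fin 3) k) + totalDegree (y : MvPolynomial (Fin 3) k) with hD
  refine rank_le fun s hs => ?_
  -- lifts
  choose e he using fun j : s => Ideal.Quotient.mk_surjective (I := Ideal.span {x, y}) (j : A ⧸ Ideal.span {x, y})
  have hind : ∀ c : s → k, (∑ j, c j • e j) ∈ Ideal.span {x, y} → c = 0 := by
    intro c hc
    rw [Fintype.linearIndependent_iff] at hs
    funext j
    refine hs c ?_ j
    have h1 := Ideal.Quotient.eq_zero_iff_mem.2 hc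
    rw [map_sum] at h1
    rw [← h1]
    refine Finset.sum_congr rfl fun j _ => ?_
    rw [← he j]
    rfl
  set M0 := Finset.univ.sup (fun j : s => totalDegree (e j : MvPolynomial (Fin 3) k)) with hM0
  have hle : ∀ K : ℕ, K * K * s.card ≤ (M0 + K * D + 1) ^ 2 := by
    intro K
    have h1 := bez_card i A hi _ (bez_ind hx0 hy0 hcop e hind K) (M0 + K * D) ?_
    · simpa using h1
    · rintro ⟨⟨a, b⟩, j⟩
      have h2 : totalDegree (e j : MvPolynomial (Fin 3) k) ≤ M0 :=
        Finset.le_sup (f := fun j : s => totalDegree (e j : MvPolynomial (Fin 3) k)) (Finset.mem_univ j)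
      have h3 : totalDegree ((y : MvPolynomial (Fin 3) k) ^ (b : ℕ)) ≤ K * totalDegree (y : MvPolynomial (Fin 3) k) :=
        (totalDegree_pow _ _).trans (Nat.mul_le_mul_right _ b.2.le)
      have h4 : totalDegree ((x : MvPolynomial (Fin 3) k) ^ (a : ℕ)) ≤ K * totalDegree (x : MvPolynomial (Fin 3) k) :=
        (totalDegree_pow _ _).trans (Nat.mul_le_mul_right _ a.2.le)
      simp only [MulMemClass.coe_mul, SubmonoidClass.coe_pow]
      refine (totalDegree_mul _ _).trans ?_
      refine (Nat.add_le_add_right (totalDegree_mul _ _) _).trans ?_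
      rw [hD, mul_add]
      omega
  by_contra hcon
  have hc : D ^ 2 + 1 ≤ s.card := by omega
  set M := M0 + 1 with hM
  have h1 := hle (M ^ 2 + 2 * M * D + 1)
  set K := M ^ 2 + 2 * M * D + 1 with hK
  have h2 : K * K * (D ^ 2 + 1) ≤ (M0 + K * D + 1) ^ 2 := le_trans (Nat.mul_le_mul_left _ hc) h1
  have h3 : M0 + K * D + 1 = M + K * D := by rw [hM]; ring
  rw [h3] at h2
  have h4 : K * K * (D ^ 2 + 1) = K * D * (K * D) + K * K := by ring
  have h5 : (M + K * D) ^ 2 = K * D * (K * D) + (M ^ 2 + 2 * M * D * K) := by ring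
  rw [h4, h5] at h2
  have h6 : K * K ≤ M ^ 2 + 2 * M * D * K := by omega
  have h7 : K * K = (M ^ 2 + 1) * K + 2 * M * D * K := by
    conv_lhs => rw [hK]
    rw [hK]
    ring
  have h8 : (M ^ 2 + 1) * K ≤ M ^ 2 := by omega
  have h9 : 1 ≤ K := by omega
  have h10 : (M ^ 2 + 1) * 1 ≤ (M ^ 2 + 1) * K := Nat.mul_le_mul_left _ h9
  omega

/-- BEZ: for coprime `x, y` in `A` the algebra `A/(x, y)` is finite dimensional -/
theorem bez_finite (i : Fin 3) (A : Subalgebra k (MvPolynomial (Fin 3) k)) (hi : ∀ a ∈ A, X i ∣ a → a = 0)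
    {x y : A} (hx0 : x ≠ 0) (hy0 : y ≠ 0) (hcop : ∀ a b : A, x * a = y * b → ∃ c, a = y * c) :
    Module.Finite k (A ⧸ Ideal.span {x, y}) := by
  have h := bez_rank i A hi hx0 hy0 hcop
  exact Module.rank_lt_aleph0_iff.1 (lt_of_le_of_lt h (Cardinal.natCast_lt_aleph0))

/-- growth: three elements of `A` are algebraically dependent -/
theorem bez_dep (i : Fin 3) (A : Subalgebra k (MvPolynomial (Fin 3) k)) (hi : ∀ a ∈ A, X i ∣ a → a = 0)
    (a : Fin 3 → A) : ¬ AlgebraicIndependent k a := by
  classical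
  intro h
  set D := Finset.univ.sup (fun j : Fin 3 => totalDegree (a j : MvPolynomial (Fin 3) k)) with hD
  have hle : ∀ K : ℕ, K ^ 3 ≤ (3 * K * D + 1) ^ 2 := by
    intro K
    let e : (Fin K × Fin K × Fin K) → A := fun z => a 0 ^ (z.1 : ℕ) * a 1 ^ (z.2.1 : ℕ) * a 2 ^ (z.2.2 : ℕ)
    have hli : LinearIndependent k e := by
      let E : (Fin K × Fin K × Fin K) → (Fin 3 →₀ ℕ) := fun z =>
        Finsupp.single 0 (z.1 : ℕ) + Finsupp.single 1 (z.2.1 : ℕ) + Finsupp.single 2 (z.2.2 : ℕ)
      have hE : Function.Injective E := by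
        rintro ⟨p, q, r⟩ ⟨p', q', r'⟩ hpq
        have h0 := DFunLike.congr_fun hpq 0
        have h1 := DFunLike.congr_fun hpq 1
        have h2 := DFunLike.congr_fun hpq 2
        simp [E] at h0 h1 h2
        simp only [Prod.mk.injEq]
        exact ⟨Fin.ext h0, Fin.ext h1, Fin.ext h2⟩
      have h1 : LinearIndependent k (fun z => (monomial (E z) (1 : k) : MvPolynomial (Fin 3) k)) := by
        have := (MvPolynomial.basisMonomials (Fin 3) k).linearIndependent.comp E hE
        simpa [Function.comp_def, MvPolynomial.coe_basisMonomials] using this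
      have h2 := h1.map' (MvPolynomial.aeval a).toLinearMap (LinearMap.ker_eq_bot.2 h)
      have h3 : e = (⇑(MvPolynomial.aeval a : MvPolynomial (Fin 3) k →ₐ[k] A).toLinearMap ∘
          fun z => (monomial (E z) (1 : k) : MvPolynomial (Fin 3) k)) := by
        funext z
        simp only [Function.comp_apply, AlgHom.toLinearMap_apply, aeval_monomial, map_one, one_mul, E, e]
        rw [Finsupp.prod_add_index' (by simp) (by intro s b c; exact pow_add _ _ _),
          Finsupp.prod_add_index' (by simp) (by intro s b c; exact pow_add _ _ _),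
          Finsupp.prod_single_index (by simp), Finsupp.prod_single_index (by simp),
          Finsupp.prod_single_index (by simp)]
      rw [h3]
      exact h2
    have h1 := bez_card i A hi e hli (3 * K * D) ?_
    · have h2 : Fintype.card (Fin K × Fin K × Fin K) = K ^ 3 := by
        simp only [Fintype.card_prod, Fintype.card_fin]
        ring
      rw [h2] at h1
      exact h1
    · rintro ⟨p, q, r⟩
      have hb : ∀ (j : Fin 3) (n : Fin K), totalDegree ((a j : MvPolynomial (Fin 3) k) ^ (n : ℕ)) ≤ K * D := fun j n =>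
        (totalDegree_pow _ _).trans (Nat.mul_le_mul n.2.le
          (Finset.le_sup (f := fun j : Fin 3 => totalDegree (a j : MvPolynomial (Fin 3) k)) (Finset.mem_univ j)))
      simp only [MulMemClass.coe_mul, SubmonoidClass.coe_pow, e]
      refine (totalDegree_mul _ _).trans ?_
      refine (Nat.add_le_add_right (totalDegree_mul _ _) _).trans ?_
      have h0 := hb 0 p
      have h1 := hb 1 q
      have h2 := hb 2 r
      nlinarith
  have h1 := hle ((3 * D + 1) ^ 2 + 1)
  set K := (3 * D + 1) ^ 2 + 1 with hK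
  have hK1 : 1 ≤ K := by omega
  have h2 : 3 * K * D + 1 ≤ K * (3 * D + 1) := by nlinarith
  have h3 : (3 * K * D + 1) ^ 2 ≤ (K * (3 * D + 1)) ^ 2 := Nat.pow_le_pow_left h2 2
  have h4 : K ^ 3 ≤ K ^ 2 * (3 * D + 1) ^ 2 := by
    calc K ^ 3 ≤ _ := h1
      _ ≤ _ := h3
      _ = _ := by ring
  have h5 : K ^ 3 = K ^ 2 * (3 * D + 1) ^ 2 + K ^ 2 := by
    conv_lhs => rw [pow_succ, hK]
    ring
  have h6 : 1 ≤ K ^ 2 := Nat.one_le_pow _ _ hK1
  omega

end Pool.Agent.MIY
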