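import Mathlib
import Pool.Agent.MIY.Defs
import Pool.Agent.LNDF.GeoDefs
import Pool.Agent.LNDHom.Red

/-!
Miyanishi's theorem, part 2 (doc Q1/MIY): the geometry of `k[x,y,z]` over `A = ker D`. Definitions.
-/

set_option autoImplicit false

open Polynomial

namespace Pool.Agent.MIY

open Pool.Agent.LNDF Pool.Agent.LNDHom

variable {k : Type} [Field k]

/-- `D` is a nonzero irreducible locally nilpotent derivation of `k[x,y,z]` -/
structure LN (D : Derivation k (B3 k) (B3 k)) : Prop where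
  ne : ∃ x, D x ≠ 0
  ln : ∀ x, ∃ n, (⇑D)^[n] x = 0
  irr : ∀ p : B3 k, Prime p → D p = 0 → ∃ x, ¬ p ∣ D x

/-- `ι` embeds `k[x,y,z]` in `K[T]`, `K = Frac (ker D)`, `T` the local slice `r`, `D r = c` -/
structure Iot (D : Derivation k (B3 k) (B3 k)) (r : B3 k) (c : kerAlg D) (K : Type) [Field K]
    [Algebra (kerAlg D) K] [Algebra k K] (ι : B3 k →ₐ[k] K[X]) : Prop where
  cne : c ≠ 0
  Dr : D r = c
  inj : Function.Injective ι
  ev : ∀ a : kerAlg D, ι (a : B3 k) = C (algebraMap (kerAlg D) K a)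
  r : ι r = X
  D : ∀ b, ι (D b) = C (algebraMap (kerAlg D) K c) * derivative (ι b)

/-- `δ0 = {·, Y}` and `δ1 = {X, ·}` where `Jac(a, b, x) = {a, b} D x` for `a`, `b` in `ker D` -/
structure Brk (D : Derivation k (B3 k) (B3 k)) (X Y : kerAlg D)
    (δ0 δ1 : Derivation k (kerAlg D) (kerAlg D)) : Prop where
  b0 : ∀ (a : kerAlg D) (x : B3 k), jac3 (a : B3 k) Y x = δ0 a * D x
  b1 : ∀ (a : kerAlg D) (x : B3 k), jac3 (X : B3 k) a x = δ1 a * D x

/-- the derivations `d0 = d/dX`, `d1 = d/dY` of `K` -/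
structure Kd {A : Type} [CommRing A] [Algebra k A] (K : Type) [Field K] [Algebra A K] [Algebra k K]
    (J : A) (δ0 δ1 : Derivation k A A) (d0 d1 : Derivation k K K) : Prop where
  e0 : ∀ a : A, algebraMap A K J * d0 (algebraMap A K a) = algebraMap A K (δ0 a)
  e1 : ∀ a : A, algebraMap A K J * d1 (algebraMap A K a) = algebraMap A K (δ1 a)

/-- the vector field `d/dx` in the coordinates `X`, `Y`, `T` -/
noncomputable def vf {K : Type} [Field K] [Algebra k K] (d0 d1 : Derivation k K K) (x0 x1 xT : K[X])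
    (u : K[X]) : K[X] := x0 * mc d0 u + x1 * mc d1 u + xT * derivative u

end Pool.Agent.MIY
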