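import Mathlib
import Pool.Agent.LNDF.GeoDefs
import Pool.Agent.LNDHom.Red

/-!
Miyanishi's theorem, part 2: the embedding of `B` in `K[T]`, `K` the fraction field of the kernel of `D`, and
uniqueness of derivations.
-/

set_option autoImplicit false

open Polynomial

namespace Pool.Agent.MIY

open Pool.Agent.LNDF Pool.Agent.LNDHom

section iota

variable {k B : Type} [Field k] [CharZero k] [CommRing B] [IsDomain B] [Algebra k B]
  {D : Derivation k B B}

omit [CharZero k] [IsDomain B] in
theorem kd_D_aeval {r c : B} (hr : D r = c) (P : (kerAlg D)[X]) :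
    D (aeval r P) = c * aeval r (derivative P) := by
  induction P using Polynomial.induction_on' with
  | add p q hp hq => rw [map_add, map_add, hp, hq, map_add, map_add, mul_add]
  | monomial n a =>
    have ha : D (algebraMap (kerAlg D) B a) = 0 := a.2
    rw [aeval_monomial, Derivation.leibniz, ha, smul_zero, add_zero, Derivation.leibniz_pow, hr,
      derivative_monomial, aeval_monomial, map_mul, map_natCast]
    simp only [smul_eq_mul, nsmul_eq_mul]
    ring

omit [IsDomain B] in
theorem kd_anti (P : (kerAlg D)[X]) : ∃ Q : (kerAlg D)[X], derivative Q = P := by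
  induction P using Polynomial.induction_on' with
  | add p q hp hq =>
    obtain ⟨P, hP⟩ := hp
    obtain ⟨Q, hQ⟩ := hq
    exact ⟨P + Q, by rw [derivative_add, hP, hQ]⟩
  | monomial n a =>
    refine ⟨monomial (n + 1) (algebraMap k (kerAlg D) (((n : k) + 1)⁻¹) * a), ?_⟩
    rw [derivative_monomial]
    have h1 : (n : k) + 1 ≠ 0 := by exact_mod_cast Nat.succ_ne_zero n
    congr 1
    have h2 : (((n + 1 : ℕ) : kerAlg D)) = algebraMap k (kerAlg D) ((n : k) + 1) := by
      rw [map_add, map_natCast, map_one, Nat.cast_succ]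
    rw [h2, mul_right_comm, ← map_mul, inv_mul_cancel₀ h1, map_one, one_mul]

/-- `r` is transcendental over the kernel -/
theorem kd_aeval_inj {r c : B} (hr : D r = c) (hc : c ≠ 0) :
    ∀ (n : ℕ) (P : (kerAlg D)[X]), P.natDegree ≤ n → aeval r P = 0 → P = 0 := by
  have hz : ∀ a : kerAlg D, algebraMap (kerAlg D) B a = 0 → a = 0 := fun a ha => Subtype.ext ha
  intro n
  induction n with
  | zero =>
    intro P hP h0
    rw [eq_C_of_natDegree_le_zero hP] at h0 ⊢
    rw [aeval_C] at h0
    rw [hz _ h0, map_zero]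
  | succ n ih =>
    intro P hP h0
    have h1 : c * aeval r (derivative P) = 0 := by rw [← kd_D_aeval hr, h0, map_zero]
    have h2 : aeval r (derivative P) = 0 := (mul_eq_zero.1 h1).resolve_left hc
    have h3 : derivative P = 0 := ih _ ((natDegree_derivative_le P).trans (by omega)) h2
    have : CharZero (kerAlg D) := by
      refine ⟨fun a b hab => ?_⟩
      have h5 : ((a : k)) = b := by
        apply (algebraMap k (kerAlg D)).injective
        rw [map_natCast, map_natCast, hab]
      exact_mod_cast h5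
    have h4 : P.natDegree = 0 := Polynomial.derivative_eq_zero.1 h3
    rw [eq_C_of_natDegree_eq_zero h4] at h0 ⊢
    rw [aeval_C] at h0
    rw [hz _ h0, map_zero]

/-- every element of `B` is a polynomial in `r` over the fractions of the kernel -/
theorem kd_rep (hln : ∀ x, ∃ n, (⇑D)^[n] x = 0) {r : B} {c : kerAlg D} (hr : D r = c)
    (hc : c ≠ 0) (b : B) : ∃ (a : kerAlg D) (P : (kerAlg D)[X]), a ≠ 0 ∧ (a : B) * b = aeval r P := by
  obtain ⟨n, hn⟩ := hln b
  induction n generalizing b with
  | zero =>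
    refine ⟨1, 0, one_ne_zero, ?_⟩
    simp only [Function.iterate_zero, id_eq] at hn
    rw [hn, mul_zero, map_zero]
  | succ n ih =>
    rw [Function.iterate_succ, Function.comp_apply] at hn
    obtain ⟨a, P, ha, hP⟩ := ih (D b) hn
    obtain ⟨Q, hQ⟩ := kd_anti P
    have hD : D (((c * a : kerAlg D) : B)) = 0 := (c * a).2
    have h1 : D (((c * a : kerAlg D) : B) * b - aeval r Q) = 0 := by
      rw [map_sub, Derivation.leibniz, hD, smul_zero, add_zero, kd_D_aeval hr, hQ, ← hP]
      push_cast
      rw [smul_eq_mul]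
      ring
    refine ⟨c * a, Q + C ⟨_, h1⟩, mul_ne_zero hc ha, ?_⟩
    rw [map_add, aeval_C]
    show _ = aeval r Q + (((c * a : kerAlg D) : B) * b - aeval r Q)
    ring

variable (K : Type) [Field K] [Algebra (kerAlg D) K] [IsFractionRing (kerAlg D) K] [Algebra k K]
  [IsScalarTower k (kerAlg D) K]

/-- the embedding of `B` in `K[T]`, `T` the local slice -/
theorem exists_iota (hln : ∀ x, ∃ n, (⇑D)^[n] x = 0) {r : B} {c : kerAlg D} (hr : D r = c)
    (hc : c ≠ 0) : ∃ ι : B →ₐ[k] K[X], Function.Injective ι ∧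
      (∀ a : kerAlg D, ι (a : B) = C (algebraMap (kerAlg D) K a)) ∧ ι r = X ∧
      ∀ b, ι (D b) = C (algebraMap (kerAlg D) K c) * derivative (ι b) := by
  classical
  have hinj : Function.Injective (algebraMap (kerAlg D) K) := IsFractionRing.injective _ _
  have hc' : ((c : B)) ≠ 0 := fun h => hc (Subtype.ext h)
  have hne : ∀ a : kerAlg D, a ≠ 0 → (C (algebraMap (kerAlg D) K a) : K[X]) ≠ 0 := by
    intro a ha h
    rw [C_eq_zero] at h
    exact ha (hinj (by rw [h, map_zero]))
  choose a P ha hP using fun b => kd_rep hln hr hc b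
  let f : B → K[X] := fun b => C ((algebraMap (kerAlg D) K (a b))⁻¹) *
    (P b).map (algebraMap (kerAlg D) K)
  have hf0 : ∀ b, C (algebraMap (kerAlg D) K (a b)) * f b = (P b).map (algebraMap (kerAlg D) K) := by
    intro b
    have h1 : algebraMap (kerAlg D) K (a b) ≠ 0 := fun h => ha b (hinj (by rw [h, map_zero]))
    simp only [f]
    rw [← mul_assoc, ← C_mul, mul_inv_cancel₀ h1, C_1, one_mul]
  have hinj2 : ∀ P Q : (kerAlg D)[X], aeval r P = aeval r Q → P = Q := by
    intro P Q h
    rw [← sub_eq_zero]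
    exact kd_aeval_inj hr hc' _ _ le_rfl (by rw [map_sub, h, sub_self])
  -- the characterization
  have key : ∀ (b : B) (s : kerAlg D) (Q : (kerAlg D)[X]), (s : B) * b = aeval r Q →
      C (algebraMap (kerAlg D) K s) * f b = Q.map (algebraMap (kerAlg D) K) := by
    intro b s Q h
    have h1 : C (a b) * Q = C s * P b := by
      apply hinj2
      rw [map_mul, map_mul, aeval_C, aeval_C, ← h, ← hP]
      show (a b : B) * ((s : B) * b) = (s : B) * ((a b : B) * b)
      ring
    have h2 := congrArg (Polynomial.map (algebraMap (kerAlg D) K)) h1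
    rw [Polynomial.map_mul, Polynomial.map_mul, map_C, map_C, ← hf0] at h2
    apply mul_left_cancel₀ (hne _ (ha b))
    rw [h2]
    ring
  have key2 : ∀ (b : B) (F : K[X]) (s : kerAlg D) (Q : (kerAlg D)[X]), s ≠ 0 →
      (s : B) * b = aeval r Q → C (algebraMap (kerAlg D) K s) * F = Q.map (algebraMap (kerAlg D) K) →
      f b = F := by
    intro b F s Q hs h1 h2
    apply mul_left_cancel₀ (hne s hs)
    rw [key b s Q h1, h2]
  have hconst : ∀ a : kerAlg D, f (a : B) = C (algebraMap (kerAlg D) K a) := by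
    intro a
    refine key2 _ _ 1 (C a) one_ne_zero ?_ ?_
    · rw [aeval_C]
      show (1 : B) * (a : B) = a
      rw [one_mul]
    · rw [map_one, C_1, one_mul, map_C]
  have hmul : ∀ x y, f (x * y) = f x * f y := by
    intro x y
    refine key2 _ _ (a x * a y) (P x * P y) (mul_ne_zero (ha x) (ha y)) ?_ ?_
    · rw [map_mul, ← hP, ← hP]
      push_cast
      ring
    · rw [Polynomial.map_mul, ← hf0, ← hf0, map_mul, C_mul]
      ring
  have hadd : ∀ x y, f (x + y) = f x + f y := by
    intro x y
    refine key2 _ _ (a x * a y) (C (a y) * P x + C (a x) * P y) (mul_ne_zero (ha x) (ha y)) ?_ ?_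
    · rw [map_add, map_mul, map_mul, aeval_C, aeval_C, ← hP, ← hP]
      push_cast
      show _ = (a y : B) * ((a x : B) * x) + (a x : B) * ((a y : B) * y)
      ring
    · rw [Polynomial.map_add, Polynomial.map_mul, Polynomial.map_mul, ← hf0, ← hf0, map_mul, C_mul,
        map_C, map_C]
      ring
  have hone : f 1 = 1 := by
    have := hconst 1
    rw [map_one, C_1] at this
    exact this
  have hzero : f 0 = 0 := by
    have := hconst 0
    rw [map_zero, C_0] at this
    exact this
  let ι : B →ₐ[k] K[X] :=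
    { toFun := f
      map_one' := hone
      map_mul' := hmul
      map_zero' := hzero
      map_add' := hadd
      commutes' := by
        intro t
        have h1 := hconst (algebraMap k (kerAlg D) t)
        rw [← IsScalarTower.algebraMap_apply k (kerAlg D) K] at h1
        exact h1 }
  have hr' : ι r = X := by
    refine key2 _ _ 1 X one_ne_zero ?_ ?_
    · rw [aeval_X]
      show (1 : B) * r = r
      rw [one_mul]
    · rw [map_one, C_1, one_mul, map_X]
  refine ⟨ι, ?_, hconst, hr', ?_⟩
  · rw [injective_iff_map_eq_zero]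
    intro b hb
    have h1 := hf0 b
    rw [show f b = 0 from hb, mul_zero] at h1
    have h2 : P b = 0 := by
      apply Polynomial.map_injective _ hinj
      rw [← h1, Polynomial.map_zero]
    have h3 := hP b
    rw [h2, map_zero] at h3
    exact (mul_eq_zero.1 h3).resolve_left fun h => ha b (Subtype.ext h)
  · intro b
    refine key2 _ _ (a b) (C c * derivative (P b)) (ha b) ?_ ?_
    · have h1 := congrArg D (hP b)
      have h2 : D ((a b : B)) = 0 := (a b).2
      rw [Derivation.leibniz, h2, smul_zero, add_zero, kd_D_aeval hr, smul_eq_mul] at h1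
      rw [h1, map_mul, aeval_C]
      rfl
    · rw [Polynomial.map_mul, map_C, ← derivative_map, ← hf0, derivative_C_mul]
      show C (algebraMap (kerAlg D) K (a b)) * (C (algebraMap (kerAlg D) K c) * derivative (f b)) = _
      ring

end iota

section ext

variable {k B M : Type} [Field k] [CharZero k] [CommRing B] [IsDomain B] [Algebra k B]
  [CommRing M] [IsDomain M] [Algebra k M] {D : Derivation k B B}

omit [CharZero k] [IsDomain B] [IsDomain M] in
theorem der_one (ι : B →ₐ[k] M) (E : B →ₗ[k] M)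
    (hE : ∀ a b, E (a * b) = ι a * E b + ι b * E a) (t : k) : E (algebraMap k B t) = 0 := by
  have h1 : E 1 = 0 := by
    have h := hE 1 1
    rw [mul_one, map_one ι, one_mul] at h
    exact left_eq_add.1 h
  rw [Algebra.algebraMap_eq_smul_one, map_smul, h1, smul_zero]

omit [CharZero k] [IsDomain B] [IsDomain M] in
theorem der_pow (ι : B →ₐ[k] M) (E : B →ₗ[k] M)
    (hE : ∀ a b, E (a * b) = ι a * E b + ι b * E a) (a : B) (n : ℕ) :
    E (a ^ n) = (n : M) * ι a ^ (n - 1) * E a := by
  induction n with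
  | zero =>
    have := der_one ι E hE 1
    rw [map_one] at this
    rw [pow_zero, this, Nat.cast_zero, zero_mul, zero_mul]
  | succ n ih =>
    rw [pow_succ, hE, ih, map_pow]
    rcases n with _ | n
    · simp
    · rw [Nat.add_sub_cancel, Nat.add_sub_cancel]
      push_cast
      ring

omit [CharZero k] [IsDomain B] [IsDomain M] in
theorem der_ev (ι : B →ₐ[k] M) (E : B →ₗ[k] M)
    (hE : ∀ a b, E (a * b) = ι a * E b + ι b * E a) {X Y : B}
    (hX : E X = 0) (hY : E Y = 0) (p : A2 k) :
    E ((MvPolynomial.aeval ![X, Y] : A2 k →ₐ[k] B) p) = 0 := by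
  induction p using MvPolynomial.induction_on with
  | C t =>
    rw [MvPolynomial.aeval_C]
    exact der_one ι E hE t
  | add p q hp hq => rw [map_add, map_add, hp, hq, add_zero]
  | mul_X p j hp =>
    rw [map_mul, MvPolynomial.aeval_X, hE, hp, mul_zero, add_zero]
    fin_cases j
    · simp [hX]
    · simp [hY]

omit [CharZero k] [IsDomain B] [IsDomain M] in
theorem der_eval (ι : B →ₐ[k] M) (E : B →ₗ[k] M)
    (hE : ∀ a b, E (a * b) = ι a * E b + ι b * E a) {X Y : B}
    (hX : E X = 0) (hY : E Y = 0) (a : B) (F : (A2 k)[X]) :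
    E (F.eval₂ (MvPolynomial.aeval ![X, Y] : A2 k →ₐ[k] B).toRingHom a) =
      ι ((derivative F).eval₂ (MvPolynomial.aeval ![X, Y] : A2 k →ₐ[k] B).toRingHom a) * E a := by
  induction F using Polynomial.induction_on' with
  | add p q hp hq =>
    rw [eval₂_add, map_add, hp, hq, map_add, eval₂_add, map_add, add_mul]
  | monomial n c =>
    have h1 : E ((MvPolynomial.aeval ![X, Y] : A2 k →ₐ[k] B).toRingHom c) = 0 :=
      der_ev ι E hE hX hY c
    rw [eval₂_monomial, hE, h1, mul_zero, add_zero, der_pow ι E hE, derivative_monomial,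
      eval₂_monomial, map_mul, map_pow, map_mul, map_natCast, map_mul, map_natCast]
    ring

omit [IsDomain B] in
/-- a derivation along `ι` which kills `X`, `Y` kills everything algebraic over `k[X, Y]` -/
theorem der_alg (ι : B →ₐ[k] M) (hι : Function.Injective ι) (E : B →ₗ[k] M)
    (hE : ∀ a b, E (a * b) = ι a * E b + ι b * E a) {X Y : B}
    (hind : AlgebraicIndependent k ![X, Y]) (hX : E X = 0) (hY : E Y = 0) (a : B)
    (ha : ∃ F : (A2 k)[X], F ≠ 0 ∧
      F.eval₂ (MvPolynomial.aeval ![X, Y] : A2 k →ₐ[k] B).toRingHom a = 0) : E a = 0 := by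
  have key : ∀ (n : ℕ) (F : (A2 k)[X]), F.natDegree ≤ n → F ≠ 0 →
      F.eval₂ (MvPolynomial.aeval ![X, Y] : A2 k →ₐ[k] B).toRingHom a = 0 → E a = 0 := by
    intro n
    induction n with
    | zero =>
      intro F hF hF0 h0
      exfalso
      rw [eq_C_of_natDegree_le_zero hF, eval₂_C] at h0
      have h1 : F.coeff 0 = 0 := hind (by rw [map_zero]; exact h0)
      rw [eq_C_of_natDegree_le_zero hF, h1, C_0] at hF0
      exact hF0 rfl
    | succ n ih =>
      intro F hF hF0 h0
      have h1 := der_eval ι E hE hX hY a F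
      rw [h0, map_zero] at h1
      rcases mul_eq_zero.1 h1.symm with h2 | h2
      · have h3 : (derivative F).eval₂
            (MvPolynomial.aeval ![X, Y] : A2 k →ₐ[k] B).toRingHom a = 0 :=
          hι (by rw [h2, map_zero])
        by_cases h4 : derivative F = 0
        · have h5 : F.natDegree = 0 := Polynomial.derivative_eq_zero.1 h4
          exact ih F (by omega) hF0 h0
        · exact ih _ ((natDegree_derivative_le F).trans (by omega)) h4 h3
      · exact h2
  obtain ⟨F, hF, h⟩ := ha
  exact key _ F le_rfl hF h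

/-- UNIQUENESS: a derivation along `ι` which kills `X`, `Y` and the local slice is zero -/
theorem der_ext_gen (hln : ∀ x, ∃ n, (⇑D)^[n] x = 0) {r : B} {c : kerAlg D} (hr : D r = c)
    (hc : c ≠ 0) (ι : B →ₐ[k] M) (hι : Function.Injective ι) (E : B →ₗ[k] M)
    (hE : ∀ a b, E (a * b) = ι a * E b + ι b * E a) {X Y : B}
    (hind : AlgebraicIndependent k ![X, Y])
    (halg : ∀ a, D a = 0 → ∃ F : (A2 k)[X], F ≠ 0 ∧
      F.eval₂ (MvPolynomial.aeval ![X, Y] : A2 k →ₐ[k] B).toRingHom a = 0)
    (hX : E X = 0) (hY : E Y = 0) (hEr : E r = 0) (b : B) : E b = 0 := by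
  have hA : ∀ a : kerAlg D, E (a : B) = 0 := fun a =>
    der_alg ι hι E hE hind hX hY _ (halg _ a.2)
  have hP : ∀ P : (kerAlg D)[X], E (aeval r P) = 0 := by
    intro P
    induction P using Polynomial.induction_on' with
    | add p q hp hq => rw [map_add, map_add, hp, hq, add_zero]
    | monomial n a =>
      rw [aeval_monomial, hE, der_pow ι E hE, hEr, mul_zero, mul_zero, zero_add]
      rw [show E (algebraMap (kerAlg D) B a) = 0 from hA a, mul_zero]
  obtain ⟨a, P, ha, h⟩ := kd_rep hln hr hc b
  have h1 := hE a b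
  rw [h, hP, hA, mul_zero, add_zero] at h1
  refine (mul_eq_zero.1 h1.symm).resolve_left fun h2 => ha (Subtype.ext (hι ?_))
  rw [h2]
  exact (map_zero ι).symm

end ext

section chain

variable {k : Type} [Field k] [CharZero k] {D : Derivation k (B3 k) (B3 k)}
  {K : Type} [Field K] [Algebra k K]

omit [CharZero k] in
theorem pd_leib (l : Fin 3) (a b : B3 k) :
    MvPolynomial.pderiv l (a * b) = a * MvPolynomial.pderiv l b + b * MvPolynomial.pderiv l a := by
  rw [Derivation.leibniz, smul_eq_mul, smul_eq_mul]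

/-- CHAIN RULE -/
theorem chain_gen (hln : ∀ x, ∃ n, (⇑D)^[n] x = 0) {r : B3 k} {c : kerAlg D} (hr : D r = c)
    (hc : c ≠ 0) (ι : B3 k →ₐ[k] K[X]) (hι : Function.Injective ι) (hιr : ι r = X)
    {X Y : B3 k} {x y : K} (hιX : ι X = C x) (hιY : ι Y = C y)
    (hind : AlgebraicIndependent k ![X, Y])
    (halg : ∀ a, D a = 0 → ∃ F : (A2 k)[X], F ≠ 0 ∧
      F.eval₂ (MvPolynomial.aeval ![X, Y] : A2 k →ₐ[k] B3 k).toRingHom a = 0)
    (d0 d1 : Derivation k K K) (h00 : d0 x = 1) (h01 : d0 y = 0) (h10 : d1 x = 0) (h11 : d1 y = 1)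
    (l : Fin 3) (b : B3 k) :
    ι (MvPolynomial.pderiv l b) = ι (MvPolynomial.pderiv l X) * mc d0 (ι b) +
      ι (MvPolynomial.pderiv l Y) * mc d1 (ι b) +
      ι (MvPolynomial.pderiv l r) * derivative (ι b) := by
  let E : B3 k →ₗ[k] K[X] := ι.toLinearMap ∘ₗ (MvPolynomial.pderiv l).toLinearMap -
    (LinearMap.mulLeft k (ι (MvPolynomial.pderiv l X)) ∘ₗ (mc d0).toLinearMap ∘ₗ ι.toLinearMap +
      LinearMap.mulLeft k (ι (MvPolynomial.pderiv l Y)) ∘ₗ (mc d1).toLinearMap ∘ₗ ι.toLinearMap +
      LinearMap.mulLeft k (ι (MvPolynomial.pderiv l r)) ∘ₗ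
        ((derivative : K[X] →ₗ[K] K[X]).restrictScalars k) ∘ₗ ι.toLinearMap)
  have hEa : ∀ b, E b = ι (MvPolynomial.pderiv l b) - (ι (MvPolynomial.pderiv l X) * mc d0 (ι b) +
      ι (MvPolynomial.pderiv l Y) * mc d1 (ι b) +
      ι (MvPolynomial.pderiv l r) * derivative (ι b)) := fun b => rfl
  have key := der_ext_gen hln hr hc ι hι E (by
    intro a b
    rw [hEa, hEa, hEa, pd_leib, map_mul, map_add, map_mul, map_mul, Derivation.leibniz,
      Derivation.leibniz, derivative_mul, smul_eq_mul, smul_eq_mul, smul_eq_mul, smul_eq_mul]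
    ring) hind halg
    (by rw [hEa, hιX, mc_C, mc_C, h00, h10, derivative_C, C_1, C_0]; ring)
    (by rw [hEa, hιY, mc_C, mc_C, h01, h11, derivative_C, C_1, C_0]; ring)
    (by rw [hEa, hιr, mc_X, mc_X, derivative_X]; ring) b
  rw [hEa, sub_eq_zero] at key
  exact key

end chain

end Pool.Agent.MIY
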