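import Pool.Agent.MIY.Defs2
import Pool.Agent.MIY.KderA

set_option autoImplicit false

open Polynomial

namespace Pool.Agent.MIY

open Pool.Agent.LNDF Pool.Agent.LNDHom

variable {k : Type} [Field k] [CharZero k] {D : Derivation k (B3 k) (B3 k)}

/-- IotE -/
theorem ker_rep (hD : LN D) {r : B3 k} {c : kerAlg D} (hc : c ≠ 0) (hr : D r = c) (b : B3 k) :
    ∃ (a : kerAlg D) (P : (kerAlg D)[X]), a ≠ 0 ∧ (a : B3 k) * b = aeval r P :=
  kd_rep hD.ln hr hc b

/-- a derivation along `ι` killing the kernel and the slice is zero -/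
theorem iotE_zero (hD : LN D) {M : Type} [CommRing M] [IsDomain M] [Algebra k M] {r : B3 k}
    {c : kerAlg D} (hc : c ≠ 0) (hr : D r = c) (ι : B3 k →ₐ[k] M) (hι : Function.Injective ι)
    (E : B3 k →ₗ[k] M) (hE : ∀ a b, E (a * b) = ι a * E b + ι b * E a)
    (h1 : ∀ a : kerAlg D, E (a : B3 k) = 0) (h2 : E r = 0) (b : B3 k) : E b = 0 := by
  have hP : ∀ P : (kerAlg D)[X], E (aeval r P) = 0 := by
    intro P
    induction P using Polynomial.induction_on' with
    | add p q hp hq => rw [map_add, map_add, hp, hq, add_zero]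
    | monomial n a =>
      rw [aeval_monomial, hE, der_pow ι E hE, h2, mul_zero, mul_zero, zero_add]
      rw [show E (algebraMap (kerAlg D) (B3 k) a) = 0 from h1 a, mul_zero]
  obtain ⟨a, P, ha, h⟩ := ker_rep hD hc hr b
  have h3 := hE a b
  rw [h, hP, h1, mul_zero, add_zero] at h3
  refine (mul_eq_zero.1 h3.symm).resolve_left fun h4 => ha (Subtype.ext (hι ?_))
  rw [h4]
  exact (map_zero ι).symm

/-- IotE: a derivation into a torsion free module, killing `ker D` and `r`, is zero -/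
theorem der_zero (hD : LN D) {r : B3 k} {c : kerAlg D} (hc : c ≠ 0) (hr : D r = c)
    (E : Derivation k (B3 k) (B3 k)) (h1 : ∀ a : kerAlg D, E a = 0) (h2 : E r = 0) : E = 0 := by
  ext1 x
  exact iotE_zero hD hc hr (AlgHom.id k (B3 k)) (fun _ _ h => h) E.toLinearMap
    (fun a b => by
      show E (a * b) = a * E b + b * E a
      rw [Derivation.leibniz, smul_eq_mul, smul_eq_mul]) h1 h2 (MvPolynomial.X x)

variable {r : B3 k} {c : kerAlg D} {K : Type} [Field K] [Algebra (kerAlg D) K]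
  [IsFractionRing (kerAlg D) K] [Algebra k K] [IsScalarTower k (kerAlg D) K] {ι : B3 k →ₐ[k] K[X]}

/-- IotE -/
theorem exists_iot (hD : LN D) {r : B3 k} {c : kerAlg D} (hc : c ≠ 0) (hr : D r = c) (K : Type) [Field K]
    [Algebra (kerAlg D) K] [IsFractionRing (kerAlg D) K] [Algebra k K] [IsScalarTower k (kerAlg D) K] :
    ∃ ι : B3 k →ₐ[k] K[X], Iot D r c K ι := by
  obtain ⟨ι, h1, h2, h3, h4⟩ := exists_iota K hD.ln hr hc
  exact ⟨ι, hc, hr, h1, h2, h3, h4⟩

omit [IsFractionRing (kerAlg D) K] [IsScalarTower k (kerAlg D) K] in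
/-- IotE (copy of Slice.der_ext) -/
theorem Iot.der_ext (h : Iot D r c K ι) (hD : LN D) (d e : B3 k →ₗ[k] K[X])
    (hd : ∀ a b, d (a * b) = ι a * d b + ι b * d a) (he : ∀ a b, e (a * b) = ι a * e b + ι b * e a)
    (h1 : ∀ a : kerAlg D, d a = e a) (h3 : d r = e r) : d = e := by
  rw [← sub_eq_zero]
  refine LinearMap.ext fun b => ?_
  refine iotE_zero hD h.cne h.Dr ι h.inj (d - e) (fun a b => ?_) (fun a => ?_) ?_ b
  · rw [LinearMap.sub_apply, LinearMap.sub_apply, LinearMap.sub_apply, hd, he]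
    ring
  · rw [LinearMap.sub_apply, h1, sub_self]
  · rw [LinearMap.sub_apply, h3, sub_self]

end Pool.Agent.MIY
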