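import Mathlib
import Pool.Agent.MIY.Defs2

/-!
# MIY/JKer: dependent polynomials have Jacobian determinant zero
-/

set_option autoImplicit false

namespace Pool.Agent.MIY

open Pool.Agent.LNDF Pool.Agent.LNDHom

variable {k : Type} [Field k]

/-- the chain rule -/
theorem jker_chain (v : Fin 3 → B3 k) (l : Fin 3) (F : B3 k) :
    MvPolynomial.pderiv l (MvPolynomial.aeval v F) =
      ∑ i, MvPolynomial.aeval v (MvPolynomial.pderiv i F) * MvPolynomial.pderiv l (v i) := by
  induction F using MvPolynomial.induction_on with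
  | C t =>
    rw [MvPolynomial.aeval_C, Derivation.map_algebraMap]
    refine (Finset.sum_eq_zero fun i _ => ?_).symm
    rw [MvPolynomial.pderiv_C, map_zero, zero_mul]
  | add p q hp hq =>
    rw [map_add, map_add, hp, hq, ← Finset.sum_add_distrib]
    refine Finset.sum_congr rfl fun i _ => ?_
    rw [map_add, map_add, add_mul]
  | mul_X p n hp =>
    have h1 : ∀ i, MvPolynomial.aeval v (MvPolynomial.pderiv i (p * MvPolynomial.X n)) *
        MvPolynomial.pderiv l (v i) = v n * (MvPolynomial.aeval v (MvPolynomial.pderiv i p) *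
          MvPolynomial.pderiv l (v i)) +
        (if n = i then MvPolynomial.aeval v p * MvPolynomial.pderiv l (v n) else 0) := by
      intro i
      rw [Derivation.leibniz, MvPolynomial.pderiv_X, Pi.single_apply]
      split_ifs with h2
      · subst h2
        simp only [smul_eq_mul, map_add, map_mul, mul_one, MvPolynomial.aeval_X]
        ring
      · simp only [smul_eq_mul, map_add, map_mul, mul_zero, map_zero, MvPolynomial.aeval_X]
        ring
    rw [Finset.sum_congr rfl fun i _ => h1 i, Finset.sum_add_distrib, Finset.sum_ite_eq,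
      if_pos (Finset.mem_univ _), ← Finset.mul_sum, ← hp, map_mul, MvPolynomial.aeval_X,
      Derivation.leibniz, smul_eq_mul, smul_eq_mul]
    ring

/-- a nonconstant polynomial has a nonzero derivative of smaller degree -/
theorem jker_pderiv [CharZero k] (f : B3 k) (h : 0 < f.totalDegree) :
    ∃ i, MvPolynomial.pderiv i f ≠ 0 ∧
      (MvPolynomial.pderiv i f).totalDegree < f.totalDegree := by
  classical
  have hne : f ≠ 0 := by
    rintro rfl
    simp at h
  obtain ⟨m, hm, hdeg⟩ := Finset.exists_mem_eq_sup f.support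
    (MvPolynomial.support_nonempty.2 hne) (fun s => Multiset.card (Finsupp.toMultiset s))
  have hdeg' : f.totalDegree = Multiset.card (Finsupp.toMultiset m) := by
    rw [MvPolynomial.totalDegree_eq, hdeg]
  have hm0 : m ≠ 0 := by
    rintro rfl
    rw [hdeg'] at h
    simp at h
  obtain ⟨i, hi⟩ := Finsupp.ne_iff.1 hm0
  refine ⟨i, ?_, ?_⟩
  · have hle : Finsupp.single i 1 ≤ m := by
      rw [Finsupp.single_le_iff]
      exact Nat.one_le_iff_ne_zero.2 hi
    have hc := MvPolynomial.coeff_pderiv (i := i) f (m - Finsupp.single i 1)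
    rw [tsub_add_cancel_of_le hle] at hc
    intro h0
    rw [h0, MvPolynomial.coeff_zero] at hc
    rcases mul_eq_zero.1 hc.symm with h1 | h1
    · exact MvPolynomial.mem_support_iff.1 hm h1
    · have : (((m - Finsupp.single i 1 : Fin 3 →₀ ℕ) i + 1 : ℕ) : k) ≠ 0 :=
        Nat.cast_ne_zero.2 (Nat.succ_ne_zero _)
      exact this (by push_cast; exact h1)
  · rw [MvPolynomial.totalDegree_eq, Finset.sup_lt_iff (by simpa using h)]
    intro m' hm'
    rw [MvPolynomial.mem_support_iff, MvPolynomial.coeff_pderiv] at hm'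
    have h1 : m' + Finsupp.single i 1 ∈ f.support := by
      rw [MvPolynomial.mem_support_iff]
      intro h0
      exact hm' (by rw [h0, zero_mul])
    have h2 := MvPolynomial.le_totalDegree h1
    rw [Finsupp.card_toMultiset]
    rw [Finsupp.sum_add_index' (fun _ => rfl) (fun _ _ _ => rfl),
      Finsupp.sum_single_index rfl] at h2
    exact h2

/-- a relation of least degree -/
theorem jker_min [CharZero k] {v : Fin 3 → B3 k} (h : ¬ AlgebraicIndependent k v) :
    ∃ F : B3 k, MvPolynomial.aeval v F = 0 ∧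
      ∃ i, MvPolynomial.aeval v (MvPolynomial.pderiv i F) ≠ 0 := by
  classical
  rw [algebraicIndependent_iff] at h
  push Not at h
  have hex : ∃ n, ∃ F : B3 k, F.totalDegree = n ∧ MvPolynomial.aeval v F = 0 ∧ F ≠ 0 := by
    obtain ⟨F, h1, h2⟩ := h
    exact ⟨_, F, rfl, h1, h2⟩
  obtain ⟨F, hn, h1, h2⟩ := Nat.find_spec hex
  have hmin := fun m (hm : m < Nat.find hex) => Nat.find_min hex hm
  refine ⟨F, h1, ?_⟩
  have hpos : 0 < F.totalDegree := by
    rw [Nat.pos_iff_ne_zero]
    intro h0
    have hc := MvPolynomial.totalDegree_eq_zero_iff_eq_C.1 h0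
    rw [hc, MvPolynomial.aeval_C] at h1
    have h3 : MvPolynomial.coeff 0 F = 0 :=
      (map_eq_zero_iff _ (FaithfulSMul.algebraMap_injective k (B3 k))).1 h1
    rw [h3, map_zero] at hc
    exact h2 hc
  obtain ⟨i, hi, hlt⟩ := jker_pderiv F hpos
  refine ⟨i, fun h0 => ?_⟩
  exact hmin (MvPolynomial.pderiv i F).totalDegree (by rw [← hn]; exact hlt) ⟨_, rfl, h0, hi⟩

variable [CharZero k]

/-- JKer: dependent polynomials have Jacobian determinant zero -/
theorem jac_dep {a b c : B3 k} (h : ¬ AlgebraicIndependent k ![a, b, c]) : jac3 a b c = 0 := by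
  obtain ⟨F, hF, i, hi⟩ := jker_min h
  set w : Fin 3 → B3 k := fun i => MvPolynomial.aeval ![a, b, c] (MvPolynomial.pderiv i F) with hw
  have hw0 : w ≠ 0 := fun h0 => hi (congrFun h0 i)
  have key : ∀ l, w 0 * MvPolynomial.pderiv l a + w 1 * MvPolynomial.pderiv l b +
      w 2 * MvPolynomial.pderiv l c = 0 := by
    intro l
    have h1 := jker_chain ![a, b, c] l F
    rw [hF, map_zero, Fin.sum_univ_three] at h1
    exact h1.symm
  unfold jac3
  rw [← Matrix.exists_vecMul_eq_zero_iff]
  refine ⟨w, hw0, ?_⟩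
  funext l
  rw [Matrix.vecMul, dotProduct, Fin.sum_univ_three]
  fin_cases l
  · exact key 0
  · exact key 1
  · exact key 2

end Pool.Agent.MIY
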