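import Mathlib
import Pool.Agent.LNDF.Ar1
import Pool.Agent.LNDF.ChE1
import Pool.Agent.LNDF.GeoDefs


set_option autoImplicit false

/-!
# MIY/Tr2: the kernel of a nonzero locally nilpotent derivation of `k[x, y, z]` has transcendence degree two
-/

open Polynomial

namespace Pool.Agent.MIY

open Pool.Agent.LNDHom Pool.Agent.LNDF

variable {k : Type} [Field k] [CharZero k]

/-- two algebraically independent constants -/
theorem exists_two (D : Derivation k (B3 k) (B3 k)) (hD : ∃ x, D x ≠ 0)
    (hln : ∀ x, ∃ n, (⇑D)^[n] x = 0) :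
    ∃ a b : B3 k, D a = 0 ∧ D b = 0 ∧ AlgebraicIndependent k ![a, b] := by
  classical
  obtain ⟨r, hr1, hr2⟩ := exists_deg D hD hln 1
  have hr2' : D (D r) = 0 := hr2
  have hr1' : D r ≠ 0 := hr1
  let s : Set (B3 k) := insert r {a | D a = 0}
  obtain ⟨S, hS⟩ : ∃ S, S = Algebra.adjoin k s := ⟨_, rfl⟩
  have hA : ∀ a : B3 k, D a = 0 → a ∈ S := by
    intro a ha
    rw [hS]
    exact Algebra.subset_adjoin (Set.mem_insert_of_mem r ha)
  have hrS : r ∈ S := by
    rw [hS]
    exact Algebra.subset_adjoin (Set.mem_insert r _)
  have halg : Algebra.IsAlgebraic S (B3 k) := by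
    constructor
    intro x
    obtain ⟨n, hn⟩ := hln x
    obtain ⟨a, ha, R, -, hR⟩ := E1_repr (D := D) rfl hr2' hr1' n x hn
    have hy : aeval r R ∈ S := by
      rw [aeval_eq_sum_range]
      refine S.sum_mem fun i _ => ?_
      exact S.mul_mem (hA _ (R.coeff i).2) (S.pow_mem hrS i)
    refine ⟨C ⟨a, hA a a.2⟩ * X - C ⟨aeval r R, hy⟩, ?_, ?_⟩
    · intro h
      have h1 := congrArg (fun P => P.coeff 1) h
      simp only [coeff_sub, coeff_C_mul, coeff_X_one, mul_one, coeff_C, one_ne_zero, if_false, sub_zero,
        coeff_zero] at h1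
      exact ha (congrArg Subtype.val h1)
    · rw [map_sub, map_mul, aeval_C, aeval_C, aeval_X]
      show (a : B3 k) * x - aeval r R = 0
      rw [hR, sub_self]
  subst hS
  obtain ⟨t, hts, ht⟩ := exists_isTranscendenceBasis_subset (R := k) s
  have hcard : Cardinal.mk t = 3 := by
    rw [ht.cardinalMk_eq_trdeg]
    simp
  -- two elements of `t` different from `r`
  have hfin : Finite t := by
    rw [← Cardinal.lt_aleph0_iff_finite, hcard]
    exact Cardinal.natCast_lt_aleph0 (n := 3)
  have := Fintype.ofFinite t
  have hc : Fintype.card t = 3 := by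
    rw [Cardinal.mk_fintype] at hcard
    exact_mod_cast hcard
  obtain ⟨x, y, hxy, hx, hy⟩ : ∃ x y : t, x ≠ y ∧ (x : B3 k) ≠ r ∧ (y : B3 k) ≠ r := by
    have h1 : 1 < (Finset.univ.filter fun x : t => (x : B3 k) ≠ r).card := by
      have h2 : (Finset.univ.filter fun x : t => ¬ (x : B3 k) ≠ r).card ≤ 1 := by
        rw [Finset.card_le_one]
        intro a ha b hb
        simp only [Finset.mem_filter, Finset.mem_univ, true_and, not_not] at ha hb
        exact Subtype.ext (ha.trans hb.symm)
      have h3 := Finset.card_filter_add_card_filter_not (s := (Finset.univ : Finset t))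
        (fun x : t => (x : B3 k) ≠ r)
      rw [Finset.card_univ, hc] at h3
      omega
    obtain ⟨x, hx, y, hy, hxy⟩ := Finset.one_lt_card.1 h1
    simp only [Finset.mem_filter, Finset.mem_univ, true_and] at hx hy
    exact ⟨x, y, hxy, hx, hy⟩
  refine ⟨x, y, ?_, ?_, ?_⟩
  · exact (hts x.2).resolve_left hx
  · exact (hts y.2).resolve_left hy
  · have h1 := ht.1.comp ![x, y] (by
      intro i j hij
      fin_cases i <;> fin_cases j
      · rfl
      · exact absurd hij hxy
      · exact absurd hij.symm hxy
      · rfl)
    have h2 : ![(x : B3 k), (y : B3 k)] = (fun z : t => (z : B3 k)) ∘ ![x, y] := by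
      funext i
      fin_cases i <;> rfl
    rw [h2]
    exact h1

/-- a derivation of `k[x, y, z]` which kills three algebraically independent elements is zero -/
theorem no_three (D : Derivation k (B3 k) (B3 k)) (hD : ∃ x, D x ≠ 0) {a b c : B3 k} (ha : D a = 0)
    (hb : D b = 0) (hc : D c = 0) : ¬ AlgebraicIndependent k ![a, b, c] := by
  classical
  intro hi
  obtain ⟨x, hx⟩ := hD
  have h1 : IsTranscendenceBasis k ![a, b, c] :=
    hi.isTranscendenceBasis_of_trdeg_le_of_finite (by simp)
  have halg := h1.isAlgebraic
  have hS : ∀ s ∈ Algebra.adjoin k (Set.range ![a, b, c]), D s = 0 := by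
    intro s hs
    induction hs using Algebra.adjoin_induction with
    | mem y hy =>
      obtain ⟨i, rfl⟩ := hy
      fin_cases i
      · exact ha
      · exact hb
      · exact hc
    | algebraMap r => exact D.map_algebraMap r
    | add y z _ _ hy hz => rw [map_add, hy, hz, add_zero]
    | mul y z _ _ hy hz => rw [D.leibniz, hy, hz, smul_zero, smul_zero, add_zero]
  -- a polynomial of least degree
  obtain ⟨p, hp0, hp⟩ := halg.isAlgebraic x
  have key : ∀ n : ℕ, ∀ q : (Algebra.adjoin k (Set.range ![a, b, c]))[X], q ≠ 0 → q.natDegree ≤ n →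
      aeval x q = 0 → False := by
    intro n
    have hzero : ∀ q : (Algebra.adjoin k (Set.range ![a, b, c]))[X], q ≠ 0 → q.natDegree = 0 →
        aeval x q = 0 → False := by
      intro q hq0 hqd hq
      rw [eq_C_of_natDegree_eq_zero hqd, aeval_C] at hq
      apply hq0
      rw [eq_C_of_natDegree_eq_zero hqd]
      have : q.coeff 0 = 0 := Subtype.ext hq
      rw [this, C_0]
    have hder : ∀ q : (Algebra.adjoin k (Set.range ![a, b, c]))[X],
        D (aeval x q) = aeval x (derivative q) * D x := by
      intro q
      induction q using Polynomial.induction_on' with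
      | add p q hp hq =>
        rw [map_add, map_add, hp, hq, derivative_add, map_add]
        ring
      | monomial n s =>
        rw [aeval_monomial, D.leibniz, D.leibniz_pow, derivative_monomial, aeval_monomial]
        have h2 : D (algebraMap (Algebra.adjoin k (Set.range ![a, b, c])) (B3 k) s) = 0 := hS _ s.2
        rw [h2, smul_zero, add_zero, map_mul, map_natCast]
        simp only [smul_eq_mul, nsmul_eq_mul]
        ring
    induction n with
    | zero =>
      intro q hq0 hqd hq
      exact hzero q hq0 (by omega) hq
    | succ n ih =>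
      intro q hq0 hqd hq
      have h2 := hder q
      rw [hq, map_zero] at h2
      have h3 := (mul_eq_zero.1 h2.symm).resolve_right hx
      by_cases h4 : derivative q = 0
      · have : CharZero (Algebra.adjoin k (Set.range ![a, b, c])) :=
          charZero_of_injective_algebraMap (algebraMap k _).injective
        exact hzero q hq0 (derivative_eq_zero.1 h4) hq
      · have h5 := natDegree_derivative_le q
        exact ih _ h4 (by omega) h3
  exact key _ p hp0 le_rfl hp

end Pool.Agent.MIY
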