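import Mathlib
import Pool.Agent.MIY.Defs2
import Pool.Agent.MIY.JKer
import Pool.Agent.MIY.Tr2
import Pool.Agent.MIY.IotE
import Pool.Agent.LNDF.Ar1
import Pool.Agent.LNDHom.Gr

/-!
The bracket of the kernel: `Jac(a, b, x) = {a, b} D x`.
-/

set_option autoImplicit false

open Polynomial

namespace Pool.Agent.MIY

open Pool.Agent.LNDF Pool.Agent.LNDHom

section jac

variable {k : Type} [Field k]

/-- the Jacobian derivation -/
noncomputable def br1J (a b : B3 k) : Derivation k (B3 k) (B3 k) :=
  (MvPolynomial.pderiv 1 a * MvPolynomial.pderiv 2 b -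
      MvPolynomial.pderiv 2 a * MvPolynomial.pderiv 1 b) • MvPolynomial.pderiv 0 +
    (MvPolynomial.pderiv 2 a * MvPolynomial.pderiv 0 b -
      MvPolynomial.pderiv 0 a * MvPolynomial.pderiv 2 b) • MvPolynomial.pderiv 1 +
    (MvPolynomial.pderiv 0 a * MvPolynomial.pderiv 1 b -
      MvPolynomial.pderiv 1 a * MvPolynomial.pderiv 0 b) • MvPolynomial.pderiv 2

theorem br1J_apply (a b c : B3 k) : br1J a b c = jac3 a b c := by
  rw [jac3, Matrix.det_fin_three]
  simp [br1J]
  ring

theorem br1_comm (i j : Fin 3) (b : B3 k) :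
    MvPolynomial.pderiv i (MvPolynomial.pderiv j b) =
      MvPolynomial.pderiv j (MvPolynomial.pderiv i b) := by
  have h : ⁅(MvPolynomial.pderiv i : Derivation k (B3 k) (B3 k)),
      (MvPolynomial.pderiv j : Derivation k (B3 k) (B3 k))⁆ = 0 := by
    apply MvPolynomial.derivation_ext
    intro m
    rw [Derivation.commutator_apply, MvPolynomial.pderiv_X, MvPolynomial.pderiv_X,
      Pi.single_apply, Pi.single_apply]
    split_ifs <;> simp
  have h2 := congrArg (fun d : Derivation k (B3 k) (B3 k) => d b) h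
  simp only [Derivation.commutator_apply, Derivation.coe_zero, Pi.zero_apply] at h2
  exact sub_eq_zero.mp h2

/-- a derivation in coordinates -/
theorem br1_coord (D : Derivation k (B3 k) (B3 k)) (b : B3 k) :
    D b = D (MvPolynomial.X 0) * MvPolynomial.pderiv 0 b + D (MvPolynomial.X 1) * MvPolynomial.pderiv 1 b +
      D (MvPolynomial.X 2) * MvPolynomial.pderiv 2 b := by
  have h : D = D (MvPolynomial.X 0) • (MvPolynomial.pderiv 0 : Derivation k (B3 k) (B3 k)) +
      D (MvPolynomial.X 1) • (MvPolynomial.pderiv 1 : Derivation k (B3 k) (B3 k)) +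
      D (MvPolynomial.X 2) • (MvPolynomial.pderiv 2 : Derivation k (B3 k) (B3 k)) := by
    apply MvPolynomial.derivation_ext
    intro m
    fin_cases m <;> simp [MvPolynomial.pderiv_X]
  conv_lhs => rw [h]
  rfl

/-- the divergence of a Jacobian derivation is zero -/
theorem br1_div (a b : B3 k) :
    MvPolynomial.pderiv 0 (jac3 a b (MvPolynomial.X 0)) + MvPolynomial.pderiv 1 (jac3 a b (MvPolynomial.X 1)) +
      MvPolynomial.pderiv 2 (jac3 a b (MvPolynomial.X 2)) = 0 := by
  simp only [jac3, Matrix.det_fin_three]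
  simp [MvPolynomial.pderiv_X, Derivation.leibniz]
  rw [br1_comm 1 0 a, br1_comm 2 0 a, br1_comm 2 1 a, br1_comm 1 0 b, br1_comm 2 0 b,
    br1_comm 2 1 b]
  ring

end jac

section lnd

variable {k B : Type} [Field k] [CharZero k] [CommRing B] [IsDomain B] [Algebra k B]

/-- `e ∣ D e` only for constants -/
theorem br1_dvd (D : Derivation k B B) (hln : ∀ x, ∃ n, (⇑D)^[n] x = 0) {e : B} (h : e ∣ D e) :
    D e = 0 := by
  have hchar : CharZero B := charZero_of_injective_algebraMap (algebraMap k B).injective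
  by_contra h0
  obtain ⟨q, hq⟩ := h
  have he : e ≠ 0 := by
    rintro rfl
    exact h0 (map_zero D)
  have hq0 : q ≠ 0 := by
    rintro rfl
    exact h0 (by rw [hq, mul_zero])
  obtain ⟨n, hn, hn1⟩ := exists_top D he (hln e)
  obtain ⟨m, hm, hm1⟩ := exists_top D hq0 (hln q)
  have h1 := (iter_mul_top D (n + m) n m e q rfl hn1 hm1).1
  rw [← hq, ← Function.iterate_succ_apply] at h1
  have h2 : (⇑D)^[(n + m).succ] e = 0 := by
    rw [show (n + m).succ = m + (n + 1) by omega, Function.iterate_add_apply, hn1,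
      iterate_map_zero]
  rw [h2] at h1
  have h3 : (((n + m).choose n : ℕ) : B) ≠ 0 :=
    Nat.cast_ne_zero.2 (Nat.choose_pos (Nat.le_add_right n m)).ne'
  exact mul_ne_zero h3 (mul_ne_zero hn hm) h1.symm

/-- an irreducible derivation: `c ∣ e D x` for all `x` gives `c ∣ e` -/
theorem br1_irr [UniqueFactorizationMonoid B] (D : Derivation k B B)
    (hln : ∀ x, ∃ n, (⇑D)^[n] x = 0) (hirr : ∀ p : B, Prime p → D p = 0 → ∃ x, ¬ p ∣ D x) (c : B) :
    c ≠ 0 → D c = 0 → ∀ e : B, (∀ x, c ∣ e * D x) → c ∣ e := by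
  induction c using UniqueFactorizationMonoid.induction_on_prime with
  | h₁ => intro h0; exact absurd rfl h0
  | h₂ b hb => intro _ _ e _; exact hb.dvd
  | h₃ a p ha hp ih =>
    intro h0 hD e he
    have hDp : D p = 0 := fact_closed D hln p a hD h0
    have hDa : D a = 0 := by
      have h1 : D (a * p) = 0 := by rw [mul_comm]; exact hD
      exact fact_closed D hln a p h1 (by rw [mul_comm]; exact h0)
    obtain ⟨x, hx⟩ := hirr p hp hDp
    obtain ⟨e', rfl⟩ := (hp.dvd_or_dvd ((Dvd.intro a rfl).trans (he x))).resolve_right hx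
    refine mul_dvd_mul_left p (ih ha hDa e' fun y => ?_)
    have h1 := he y
    rw [mul_assoc] at h1
    exact (mul_dvd_mul_iff_left hp.ne_zero).1 h1

end lnd

variable {k : Type} [Field k] [CharZero k] {D : Derivation k (B3 k) (B3 k)}

theorem br1_ker (hD : LN D) (a b c : kerAlg D) : jac3 (a : B3 k) b c = 0 := by
  apply jac_dep
  exact no_three D hD.ne ((mem_kerAlg D _).1 a.2) ((mem_kerAlg D _).1 b.2) ((mem_kerAlg D _).1 c.2)

omit [CharZero k] in
theorem br1_mem (a : kerAlg D) : D (a : B3 k) = 0 := (mem_kerAlg D _).1 a.2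

theorem br1_slice (hD : LN D) : ∃ (r : B3 k) (c : kerAlg D), c ≠ 0 ∧ D r = c := by
  obtain ⟨r, h1, h2⟩ := exists_deg D hD.ne hD.ln 1
  refine ⟨r, ⟨D r, (mem_kerAlg D _).2 h2⟩, fun h => h1 (congrArg Subtype.val h), rfl⟩

theorem br1_exists (hD : LN D) (a b : kerAlg D) :
    ∃ e : kerAlg D, ∀ x, jac3 (a : B3 k) b x = e * D x := by
  obtain ⟨r, c, hc, hr⟩ := br1_slice hD
  have hc0 : (c : B3 k) ≠ 0 := fun h => hc (Subtype.ext h)
  have hDA : ∀ a : kerAlg D, D a = 0 := fun a => (mem_kerAlg D _).1 a.2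
  have hE : (c : B3 k) • br1J (a : B3 k) b - (jac3 (a : B3 k) b r) • D = 0 := by
    apply der_zero hD hc hr
    · intro a'
      rw [Derivation.sub_apply, Derivation.smul_apply, Derivation.smul_apply, br1J_apply,
        br1_ker hD, hDA, smul_zero, smul_zero, sub_zero]
    · rw [Derivation.sub_apply, Derivation.smul_apply, Derivation.smul_apply, br1J_apply, hr,
        smul_eq_mul, smul_eq_mul]
      ring
  have h1 : ∀ x, (c : B3 k) * jac3 (a : B3 k) b x = jac3 (a : B3 k) b r * D x := by
    intro x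
    have h2 := congrArg (fun d : Derivation k (B3 k) (B3 k) => d x) hE
    simp only [Derivation.sub_apply, Derivation.smul_apply, br1J_apply, smul_eq_mul,
      Derivation.coe_zero, Pi.zero_apply] at h2
    exact sub_eq_zero.1 h2
  obtain ⟨e, he⟩ := br1_irr D hD.ln hD.irr (c : B3 k) hc0 (hDA c) (jac3 (a : B3 k) b r)
    (fun x => ⟨_, (h1 x).symm⟩)
  have h2 : ∀ x, jac3 (a : B3 k) b x = e * D x := by
    intro x
    apply mul_left_cancel₀ hc0
    rw [h1, he, mul_assoc]
  have h3 : D e = 0 := by
    apply br1_dvd D hD.ln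
    have h4 := br1_div (a : B3 k) b
    rw [h2, h2, h2] at h4
    simp only [Derivation.leibniz, smul_eq_mul] at h4
    refine ⟨-(MvPolynomial.pderiv 0 (D (MvPolynomial.X 0)) + MvPolynomial.pderiv 1 (D (MvPolynomial.X 1)) +
      MvPolynomial.pderiv 2 (D (MvPolynomial.X 2))), ?_⟩
    rw [br1_coord D e]
    linear_combination h4
  exact ⟨⟨e, (mem_kerAlg D e).2 h3⟩, h2⟩

/-- the bracket -/
noncomputable def br1 (hD : LN D) (a b : kerAlg D) : kerAlg D := Classical.choose (br1_exists hD a b)

theorem br1_spec (hD : LN D) (a b : kerAlg D) (x : B3 k) :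
    jac3 (a : B3 k) b x = br1 hD a b * D x := Classical.choose_spec (br1_exists hD a b) x

theorem br1_cancel (hD : LN D) {e e' : kerAlg D} (h : ∀ x, (e : B3 k) * D x = e' * D x) : e = e' := by
  obtain ⟨x, hx⟩ := hD.ne
  exact Subtype.ext (mul_right_cancel₀ hx (h x))

theorem br1_swap (hD : LN D) (a b : kerAlg D) : br1 hD a b = - br1 hD b a := by
  apply br1_cancel hD
  intro x
  rw [← br1_spec]
  push_cast
  rw [neg_mul, ← br1_spec]
  simp only [jac3, Matrix.det_fin_three]
  simp
  ring

/-- the derivation `{a, ·}` -/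
noncomputable def br1D (hD : LN D) (a : kerAlg D) : Derivation k (kerAlg D) (kerAlg D) :=
  Derivation.mk'
    { toFun := br1 hD a
      map_add' := fun b c => by
        apply br1_cancel hD
        intro x
        rw [← br1_spec]
        push_cast
        rw [add_mul, ← br1_spec, ← br1_spec]
        simp only [jac3, Matrix.det_fin_three]
        simp
        ring
      map_smul' := fun t b => by
        apply br1_cancel hD
        intro x
        rw [← br1_spec, RingHom.id_apply]
        push_cast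
        rw [smul_mul_assoc, ← br1_spec]
        simp only [jac3, Matrix.det_fin_three]
        simp [MvPolynomial.smul_eq_C_mul]
        ring }
    fun b c => by
      show br1 hD a (b * c) = b • br1 hD a c + c • br1 hD a b
      apply br1_cancel hD
      intro x
      rw [← br1_spec, smul_eq_mul, smul_eq_mul]
      push_cast
      rw [add_mul, mul_assoc, mul_assoc, ← br1_spec, ← br1_spec]
      simp only [jac3, Matrix.det_fin_three]
      simp [Derivation.leibniz]
      ring

theorem br1D_apply (hD : LN D) (a b : kerAlg D) : br1D hD a b = br1 hD a b := rfl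

/-- Br1 -/
theorem exists_brk (hD : LN D) (X Y : kerAlg D) :
    ∃ δ0 δ1 : Derivation k (kerAlg D) (kerAlg D), Brk D X Y δ0 δ1 := by
  refine ⟨-br1D hD Y, br1D hD X, ?_, ?_⟩
  · intro a x
    rw [Derivation.neg_apply, br1D_apply, ← br1_swap, br1_spec]
  · intro a x
    rw [br1D_apply, br1_spec]

variable {X Y : kerAlg D} {δ0 δ1 : Derivation k (kerAlg D) (kerAlg D)}

/-- Br1 -/
theorem Brk.facts (h : Brk D X Y δ0 δ1) (hD : LN D) : δ0 Y = 0 ∧ δ1 X = 0 ∧ δ1 Y = δ0 X := by
  refine ⟨?_, ?_, ?_⟩
  · apply br1_cancel hD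
    intro x
    rw [← h.b0]
    push_cast
    rw [zero_mul]
    simp only [jac3, Matrix.det_fin_three]
    simp
    ring
  · apply br1_cancel hD
    intro x
    rw [← h.b1]
    push_cast
    rw [zero_mul]
    simp only [jac3, Matrix.det_fin_three]
    simp
    ring
  · apply br1_cancel hD
    intro x
    rw [← h.b1, ← h.b0]

end Pool.Agent.MIY
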