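import Mathlib
import Pool.Agent.MIY.Defs2
import Pool.Agent.MIY.JKer

set_option autoImplicit false

/-!
# MIY/Br2: the Jacobian determinant of three algebraically independent polynomials is not zero
-/

open Polynomial

namespace Pool.Agent.MIY

open Pool.Agent.LNDF Pool.Agent.LNDHom

variable {k : Type} [Field k]

theorem br2_ring {v : Fin 3 → B3 k} {s : B3 k} (hs : s ∈ Algebra.adjoin k (Set.range v)) :
    ∃ g : Fin 3 → B3 k, ∀ i, MvPolynomial.pderiv i s = ∑ j, g j * MvPolynomial.pderiv i (v j) := by
  rw [Algebra.adjoin_range_eq_range_aeval] at hs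
  obtain ⟨F, rfl⟩ := hs
  exact ⟨fun j => MvPolynomial.aeval v (MvPolynomial.pderiv j F), fun i => jker_chain v i F⟩

theorem br2_poly {v : Fin 3 → B3 k} (P : (Algebra.adjoin k (Set.range v))[X]) (x : B3 k) :
    ∃ g : Fin 3 → B3 k, ∀ i, MvPolynomial.pderiv i (aeval x P) =
      ∑ j, g j * MvPolynomial.pderiv i (v j) + aeval x (derivative P) * MvPolynomial.pderiv i x := by
  induction P using Polynomial.induction_on' with
  | add p q hp hq =>
    obtain ⟨g, hg⟩ := hp
    obtain ⟨h, hh⟩ := hq
    refine ⟨fun j => g j + h j, fun i => ?_⟩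
    rw [map_add, map_add, hg, hh, derivative_add, map_add]
    simp only [add_mul, Finset.sum_add_distrib]
    ring
  | monomial n s =>
    obtain ⟨g, hg⟩ := br2_ring s.2
    refine ⟨fun j => x ^ n * g j, fun i => ?_⟩
    rw [aeval_monomial, Derivation.leibniz, Derivation.leibniz_pow, derivative_monomial, aeval_monomial]
    have h1 : MvPolynomial.pderiv i (algebraMap (Algebra.adjoin k (Set.range v)) (B3 k) s) =
        ∑ j, g j * MvPolynomial.pderiv i (v j) := hg i
    rw [h1, map_mul, map_natCast]
    simp only [smul_eq_mul, nsmul_eq_mul, Finset.mul_sum, mul_assoc]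
    ring

/-- a relation of least degree -/
theorem br2_min [CharZero k] {v : Fin 3 → B3 k} {x : B3 k}
    (hx : IsAlgebraic (Algebra.adjoin k (Set.range v)) x) :
    ∃ P : (Algebra.adjoin k (Set.range v))[X], aeval x P = 0 ∧ aeval x (derivative P) ≠ 0 := by
  by_contra hcon
  push Not at hcon
  have : CharZero (Algebra.adjoin k (Set.range v)) :=
    charZero_of_injective_algebraMap (algebraMap k _).injective
  have key : ∀ n : ℕ, ∀ q : (Algebra.adjoin k (Set.range v))[X], q ≠ 0 → q.natDegree ≤ n →
      aeval x q = 0 → False := by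
    intro n
    have hzero : ∀ q : (Algebra.adjoin k (Set.range v))[X], q ≠ 0 → q.natDegree = 0 →
        aeval x q = 0 → False := by
      intro q hq0 hqd hq
      rw [eq_C_of_natDegree_eq_zero hqd, aeval_C] at hq
      apply hq0
      rw [eq_C_of_natDegree_eq_zero hqd]
      have : q.coeff 0 = 0 := Subtype.ext hq
      rw [this, C_0]
    induction n with
    | zero =>
      intro q hq0 hqd hq
      exact hzero q hq0 (by omega) hq
    | succ n ih =>
      intro q hq0 hqd hq
      by_cases h4 : derivative q = 0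
      · exact hzero q hq0 (derivative_eq_zero.1 h4) hq
      · have h5 := natDegree_derivative_le q
        exact ih _ h4 (by omega) (hcon q hq)
  obtain ⟨P, hP0, hP⟩ := hx
  exact key _ P hP0 le_rfl hP

/-- the Jacobian criterion -/
theorem jac_ne [CharZero k] {v : Fin 3 → B3 k} (hv : AlgebraicIndependent k v) :
    jac3 (v 0) (v 1) (v 2) ≠ 0 := by
  intro h0
  have hb : IsTranscendenceBasis k v := hv.isTranscendenceBasis_of_trdeg_le_of_finite (by simp)
  have halg := hb.isAlgebraic
  let M : Matrix (Fin 3) (Fin 3) (B3 k) := Matrix.of fun j i => MvPolynomial.pderiv i (v j)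
  have hM : M.det = 0 := by
    rw [← h0, jac3, Matrix.det_fin_three, Matrix.det_fin_three]
    simp [M]
  obtain ⟨w, hw0, hw⟩ := Matrix.exists_mulVec_eq_zero_iff.2 hM
  apply hw0
  funext l
  obtain ⟨P, hP, hP'⟩ := br2_min (halg.isAlgebraic (MvPolynomial.X l : B3 k))
  obtain ⟨g, hg⟩ := br2_poly P (MvPolynomial.X l : B3 k)
  have h1 : ∀ j, ∑ i, MvPolynomial.pderiv i (v j) * w i = 0 := fun j => by
    have := congrFun hw j
    simpa [Matrix.mulVec, dotProduct, M] using this
  have h2 : ∑ i, MvPolynomial.pderiv i (aeval (MvPolynomial.X l : B3 k) P) * w i = 0 := by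
    rw [hP]
    simp
  simp only [hg, add_mul, Finset.sum_add_distrib] at h2
  have h3 : ∑ i, (∑ j, g j * MvPolynomial.pderiv i (v j)) * w i = 0 := by
    simp only [Finset.sum_mul]
    rw [Finset.sum_comm]
    refine Finset.sum_eq_zero fun j _ => ?_
    have h4 := h1 j
    calc ∑ i, g j * MvPolynomial.pderiv i (v j) * w i
        = g j * ∑ i, MvPolynomial.pderiv i (v j) * w i := by
          rw [Finset.mul_sum]
          exact Finset.sum_congr rfl fun i _ => by ring
      _ = 0 := by rw [h4, mul_zero]
  rw [h3, zero_add, Finset.sum_eq_single l] at h2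
  · rw [MvPolynomial.pderiv_X_self, mul_one] at h2
    exact (mul_eq_zero.1 h2).resolve_left hP'
  · intro i _ hil
    rw [MvPolynomial.pderiv_X_of_ne (Ne.symm hil), mul_zero, zero_mul]
  · intro h
    exact absurd (Finset.mem_univ l) h

/-- a third independent element -/
theorem br2_third {a b : B3 k} (hi : AlgebraicIndependent k ![a, b]) :
    ∃ z : B3 k, AlgebraicIndependent k ![a, b, z] := by
  by_contra hcon
  push Not at hcon
  have halg : Algebra.IsAlgebraic (Algebra.adjoin k (Set.range ![a, b])) (B3 k) := by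
    constructor
    intro z
    by_contra hz
    have h1 : Transcendental (Algebra.adjoin k (Set.range ![a, b])) z := hz
    have h2 := (hi.option_iff_transcendental z).2 h1
    have h3 := h2.comp ![some 0, some 1, none] (by decide)
    have h4 : (fun o : Option (Fin 2) => o.elim z ![a, b]) ∘ ![some 0, some 1, none] = ![a, b, z] := by
      funext i
      fin_cases i <;> rfl
    rw [h4] at h3
    exact hcon z h3
  have h1 : IsTranscendenceBasis k ![a, b] := hi.isTranscendenceBasis_iff_isAlgebraic.2 halg
  have h2 := h1.cardinalMk_eq_trdeg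
  simp at h2

/-- Br2 -/
theorem Brk.ne [CharZero k] {D : Derivation k (B3 k) (B3 k)} {X Y : kerAlg D}
    {δ0 δ1 : Derivation k (kerAlg D) (kerAlg D)} (h : Brk D X Y δ0 δ1) (hD : LN D)
    (hind : AlgebraicIndependent k ![X, Y]) : δ0 X ≠ 0 := by
  intro h0
  have h5 := hind.map' (f := (kerAlg D).val) Subtype.val_injective
  have h6 : (⇑(kerAlg D).val ∘ ![X, Y]) = ![(X : B3 k), (Y : B3 k)] := by
    funext i
    fin_cases i <;> rfl
  rw [h6] at h5
  obtain ⟨z, hz⟩ := br2_third h5
  apply jac_ne hz
  show jac3 (X : B3 k) (Y : B3 k) z = 0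
  rw [h.b0 X z, h0]
  simp

end Pool.Agent.MIY
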