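import Mathlib
import Pool.Agent.MIY.Defs2
import Pool.Agent.MIY.IotE
import Pool.Agent.LNDF.JacA

/-! # Chain rule for `k[x,y,z]` over the kernel of a derivation (821812, MIY, part 2) -/

set_option autoImplicit false

open Polynomial

namespace Pool.Agent.MIY

open Pool.Agent.LNDF Pool.Agent.LNDHom

variable {k : Type} [Field k] [CharZero k] {D : Derivation k (B3 k) (B3 k)}

omit [CharZero k] in
/-- the gradients of three kernel elements -/
theorem chn_grad {X Y : kerAlg D} {δ0 δ1 : Derivation k (kerAlg D) (kerAlg D)} (hD : LN D)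
    (hB : Brk D X Y δ0 δ1) (a : kerAlg D) (l : Fin 3) :
    ((δ0 X : kerAlg D) : B3 k) * MvPolynomial.pderiv l (a : B3 k) =
      ((δ0 a : kerAlg D) : B3 k) * MvPolynomial.pderiv l (X : B3 k) +
        ((δ1 a : kerAlg D) : B3 k) * MvPolynomial.pderiv l (Y : B3 k) := by
  obtain ⟨x, hx⟩ := hD.ne
  have h0 : jac3 (X : B3 k) Y (a : B3 k) = 0 := by
    rw [hB.b0 X (a : B3 k)]
    have h1 : D (a : B3 k) = 0 := a.2
    rw [h1, mul_zero]
  have hX := hB.b0 X x
  have ha := hB.b0 a x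
  have ha' := hB.b1 a x
  apply mul_right_cancel₀ hx
  have e1 : jac3 (X : B3 k) Y x * MvPolynomial.pderiv l (a : B3 k) =
      jac3 (a : B3 k) Y x * MvPolynomial.pderiv l (X : B3 k) +
        jac3 (X : B3 k) a x * MvPolynomial.pderiv l (Y : B3 k) +
        jac3 (X : B3 k) Y a * MvPolynomial.pderiv l x := by
    simp only [jac3, Matrix.det_fin_three]
    simp only [Matrix.of_apply, Matrix.cons_val', Matrix.cons_val_zero, Matrix.cons_val_one,
      Matrix.cons_val, Matrix.cons_val_fin_one]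
    fin_cases l <;> simp only [Fin.zero_eta, Fin.mk_one, Fin.reduceFinMk] <;> ring
  rw [h0, zero_mul, add_zero, hX, ha, ha'] at e1
  linear_combination e1

variable {X Y : kerAlg D} {δ0 δ1 : Derivation k (kerAlg D) (kerAlg D)}
  {r : B3 k} {c : kerAlg D} {K : Type} [Field K] [Algebra (kerAlg D) K]
  [IsFractionRing (kerAlg D) K] [Algebra k K] [IsScalarTower k (kerAlg D) K] {ι : B3 k →ₐ[k] K[X]}
  {d0 d1 : Derivation k K K}

/-- the operator `vf` as a linear map composed with `ι` -/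
noncomputable def chn_vf (ι : B3 k →ₐ[k] K[X]) (d0 d1 : Derivation k K K) (x0 x1 xT : K[X]) :
    B3 k →ₗ[k] K[X] :=
  (LinearMap.mulLeft k x0 ∘ₗ (mc d0).toLinearMap + LinearMap.mulLeft k x1 ∘ₗ (mc d1).toLinearMap +
    LinearMap.mulLeft k xT ∘ₗ ((derivative : K[X] →ₗ[K] K[X]).restrictScalars k)) ∘ₗ ι.toLinearMap

omit [CharZero k] in
theorem chn_vf_apply (ι : B3 k →ₐ[k] K[X]) (d0 d1 : Derivation k K K) (x0 x1 xT : K[X])
    (b : B3 k) : chn_vf ι d0 d1 x0 x1 xT b = vf d0 d1 x0 x1 xT (ι b) := rfl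

omit [CharZero k] in
theorem chn_leib (d0 d1 : Derivation k K K) (x0 x1 xT u v : K[X]) :
    vf d0 d1 x0 x1 xT (u * v) = u * vf d0 d1 x0 x1 xT v + v * vf d0 d1 x0 x1 xT u := by
  unfold vf
  rw [Derivation.leibniz, Derivation.leibniz, derivative_mul, smul_eq_mul, smul_eq_mul,
    smul_eq_mul, smul_eq_mul]
  ring

/-- Chn: chain rule -/
theorem chain (hD : LN D) (hι : Iot D r c K ι) (hB : Brk D X Y δ0 δ1) (hJ : δ0 X ≠ 0)
    (hd : Kd K (δ0 X) δ0 δ1 d0 d1) (l : Fin 3) (b : B3 k) :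
    ι (MvPolynomial.pderiv l b) = vf d0 d1 (ι (MvPolynomial.pderiv l (X : B3 k)))
      (ι (MvPolynomial.pderiv l (Y : B3 k))) (ι (MvPolynomial.pderiv l r)) (ι b) := by
  have key := hι.der_ext hD (ι.toLinearMap ∘ₗ (MvPolynomial.pderiv l).toLinearMap)
    (chn_vf ι d0 d1 (ι (MvPolynomial.pderiv l (X : B3 k)))
      (ι (MvPolynomial.pderiv l (Y : B3 k))) (ι (MvPolynomial.pderiv l r)))
    (by
      intro a b
      change ι (MvPolynomial.pderiv l (a * b)) = ι a * ι (MvPolynomial.pderiv l b) +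
        ι b * ι (MvPolynomial.pderiv l a)
      rw [jacA_pd_leib, map_add, map_mul, map_mul])
    (by
      intro a b
      rw [chn_vf_apply, chn_vf_apply, chn_vf_apply, map_mul, chn_leib])
    (by
      intro a
      change ι (MvPolynomial.pderiv l (a : B3 k)) = _
      rw [chn_vf_apply, hι.ev]
      unfold vf
      rw [mc_C, mc_C, derivative_C, mul_zero, add_zero]
      have hJ' : C (algebraMap (kerAlg D) K (δ0 X)) ≠ 0 := by
        rw [Ne, C_eq_zero]
        exact fun h => hJ ((IsFractionRing.to_map_eq_zero_iff (R := kerAlg D) (K := K)).1 h)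
      apply mul_left_cancel₀ hJ'
      have h1 := congrArg ι (chn_grad hD hB a l)
      rw [map_mul, map_add, map_mul, map_mul, hι.ev, hι.ev, hι.ev] at h1
      rw [h1, ← hd.e0, ← hd.e1, C_mul, C_mul]
      ring)
    (by
      change ι (MvPolynomial.pderiv l r) = _
      rw [chn_vf_apply, hι.r]
      unfold vf
      rw [mc_X, mc_X, derivative_X, mul_zero, mul_zero, mul_one, zero_add, zero_add])
  have h2 := congrArg (fun d : B3 k →ₗ[k] K[X] => d b) key
  exact h2

omit [CharZero k] [IsFractionRing (kerAlg D) K] [IsScalarTower k (kerAlg D) K] in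
/-- Chn: `Jac(X, Y, r) = J c` -/
theorem jac_r (hι : Iot D r c K ι) (hB : Brk D X Y δ0 δ1) :
    jac3 (X : B3 k) Y r = ((δ0 X * c : kerAlg D) : B3 k) := by
  rw [hB.b0 X r, hι.Dr]
  rfl

end Pool.Agent.MIY
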