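import Mathlib

/-!
# The choice of two coprime elements

Let `J` be an ideal of a unique factorisation domain which lies in no principal prime ideal.
Then `J` is everything, or it contains two coprime, algebraically independent elements.
-/

namespace Pool.Agent.MIY

open Polynomial

section

variable {R : Type*} [CommRing R] [IsDomain R] [UniqueFactorizationMonoid R]

/-- Prime avoidance: an ideal which lies in no principal prime ideal contains an element
coprime to a given nonzero element. -/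
theorem cho_rel (J : Ideal R) (hJ : ∀ p : R, Prime p → ∃ a ∈ J, ¬ p ∣ a) {X : R} (hX : X ≠ 0) :
    ∃ Y ∈ J, IsRelPrime X Y := by
  classical
  -- the prime factors of `X`
  set S : Finset R := (UniqueFactorizationMonoid.factors X).toFinset with hS
  have hp : ∀ p ∈ S, Prime p := fun p hp =>
    UniqueFactorizationMonoid.prime_of_factor p (Multiset.mem_toFinset.mp hp)
  by_contra hcon
  push Not at hcon
  have hsub : (J : Set R) ⊆ ⋃ p ∈ (S : Set R), (Ideal.span {p} : Set R) := by
    intro Y hY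
    have h1 := hcon Y hY
    have h2 : ∃ p, Prime p ∧ p ∣ X ∧ p ∣ Y := by
      by_contra hno
      push Not at hno
      exact h1 ((UniqueFactorizationMonoid.isRelPrime_iff_no_prime_factors hX).mpr
        (fun {p} hpX hpY hpp => hno p hpp hpX hpY))
    obtain ⟨p, hpp, hpX, hpY⟩ := h2
    obtain ⟨q, hq, hpq⟩ := UniqueFactorizationMonoid.exists_mem_factors_of_dvd hX
      hpp.irreducible hpX
    simp only [Set.mem_iUnion]
    refine ⟨q, Multiset.mem_toFinset.mpr hq, ?_⟩
    exact Ideal.mem_span_singleton.mpr (hpq.symm.dvd.trans hpY)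
  have h3 := (Ideal.subset_union_prime (s := S) (f := fun p => Ideal.span {p}) (0 : R) (0 : R)
    (fun p hpS _ _ => (Ideal.span_singleton_prime (hp p hpS).ne_zero).mpr (hp p hpS))).mp hsub
  obtain ⟨p, hpS, hle⟩ := h3
  obtain ⟨a, haJ, hna⟩ := hJ p (hp p hpS)
  exact hna (Ideal.mem_span_singleton.mp (hle haJ))

omit [UniqueFactorizationMonoid R] in
/-- The condition passes to finite products of ideals. -/
theorem cho_prod {ι : Type*} (s : Finset ι) (J : ι → Ideal R)
    (hJ : ∀ i ∈ s, ∀ p : R, Prime p → ∃ a ∈ J i, ¬ p ∣ a) :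
    ∀ p : R, Prime p → ∃ a ∈ ∏ i ∈ s, J i, ¬ p ∣ a := by
  classical
  intro p hp
  choose! a ha hna using fun i (hi : i ∈ s) => hJ i hi p hp
  refine ⟨∏ i ∈ s, a i, Ideal.prod_mem_prod ha, ?_⟩
  rw [Prime.dvd_finsetProd_iff hp]
  push Not
  exact fun i hi => hna i hi

end

section

variable {k : Type*} [Field k] {R : Type*} [CommRing R] [IsDomain R] [UniqueFactorizationMonoid R]
  [Algebra k R]

omit [IsDomain R] [UniqueFactorizationMonoid R] [Algebra k R] in
/-- Splitting off the power of the variable. -/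
theorem cho_split {S : Type*} [CommRing S] {g : S[X]} (hg0 : g ≠ 0) :
    ∃ (n : ℕ) (h : S[X]), h.coeff 0 ≠ 0 ∧ g = Polynomial.X ^ n * h := by
  obtain ⟨q, hq, hnd⟩ := Polynomial.exists_eq_pow_rootMultiplicity_mul_and_not_dvd g hg0 0
  refine ⟨Polynomial.rootMultiplicity 0 g, q, ?_, ?_⟩
  · intro h0
    apply hnd
    rw [map_zero, sub_zero]
    exact Polynomial.X_dvd_iff.mpr h0
  · rw [map_zero, sub_zero] at hq
    exact hq

omit [UniqueFactorizationMonoid R] in
/-- Two algebraically dependent elements, the first not zero: the first divides a nonzero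
polynomial in the second. -/
theorem cho_reln {X Y : R} (hX : X ≠ 0) (hdep : ¬ AlgebraicIndependent k ![X, Y]) :
    ∃ g : k[X], g ≠ 0 ∧ X ∣ aeval Y g := by
  rw [algebraicIndependent_iff] at hdep
  push Not at hdep
  obtain ⟨F, hF, hF0⟩ := hdep
  set e1 : MvPolynomial (Fin 1) k ≃ₐ[k] k[X] := MvPolynomial.uniqueAlgEquiv k (Fin 1) with he1
  set e2 : MvPolynomial (Fin 2) k ≃ₐ[k] (MvPolynomial (Fin 1) k)[X] :=
    MvPolynomial.finSuccEquiv k 1 with he2
  set ψ : MvPolynomial (Fin 2) k →ₐ[k] R :=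
    (Polynomial.aevalTower (aeval Y : k[X] →ₐ[k] R) X).comp
      ((Polynomial.mapAlgHom (e1 : MvPolynomial (Fin 1) k →ₐ[k] k[X])).comp
        (e2 : MvPolynomial (Fin 2) k →ₐ[k] (MvPolynomial (Fin 1) k)[X])) with hψ
  have hψe : ψ = MvPolynomial.aeval ![X, Y] := by
    apply MvPolynomial.algHom_ext
    intro i
    fin_cases i
    · simp [hψ, he2, MvPolynomial.finSuccEquiv_X_zero]
    · have h1 : MvPolynomial.finSuccEquiv k 1 (MvPolynomial.X 1) =
          Polynomial.C (MvPolynomial.X 0) :=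
        MvPolynomial.finSuccEquiv_X_succ (R := k) (n := 1) (j := 0)
      simp [hψ, he2, h1, he1]
  set G : (k[X])[X] := (e2 F).map ((e1 : MvPolynomial (Fin 1) k →ₐ[k] k[X]) :
    MvPolynomial (Fin 1) k →+* k[X]) with hG
  have hG0 : G ≠ 0 := by
    rw [hG, Ne, Polynomial.map_eq_zero_iff]
    · exact fun h => hF0 (e2.injective (by rw [h, map_zero]))
    · exact e1.injective
  have hGX : Polynomial.eval₂ ((aeval Y : k[X] →ₐ[k] R) : k[X] →+* R) X G = 0 := by
    have h1 : ψ F = 0 := by rw [hψe]; exact hF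
    exact h1
  obtain ⟨n, H, hH0, hH⟩ := cho_split hG0
  have hHX : Polynomial.eval₂ ((aeval Y : k[X] →ₐ[k] R) : k[X] →+* R) X H = 0 := by
    rw [hH, Polynomial.eval₂_mul, Polynomial.eval₂_X_pow] at hGX
    exact (mul_eq_zero.mp hGX).resolve_left (pow_ne_zero _ hX)
  refine ⟨H.coeff 0, hH0, ?_⟩
  have h2 := Polynomial.divX_mul_X_add H
  have h3 : Polynomial.eval₂ ((aeval Y : k[X] →ₐ[k] R) : k[X] →+* R) X H.divX * X
      + aeval Y (H.coeff 0) = 0 := by
    conv_rhs => rw [← hHX, ← h2]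
    rw [Polynomial.eval₂_add, Polynomial.eval₂_mul, Polynomial.eval₂_X, Polynomial.eval₂_C]
    simp
  have h4 : aeval Y (H.coeff 0) =
      -(Polynomial.eval₂ ((aeval Y : k[X] →ₐ[k] R) : k[X] →+* R) X H.divX) * X := by
    linear_combination h3
  rw [h4]
  exact Dvd.intro_left _ rfl

/-- Two coprime algebraically dependent elements generate the unit ideal. -/
theorem cho_top {X Y : R} (hX : X ≠ 0) (hrel : IsRelPrime X Y)
    (hdep : ¬ AlgebraicIndependent k ![X, Y]) : Ideal.span {X, Y} = ⊤ := by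
  obtain ⟨g, hg0, hg⟩ := cho_reln hX hdep
  -- split off the power of the variable
  obtain ⟨n, h, hh0, rfl⟩ := cho_split hg0
  rw [map_mul, map_pow, aeval_X] at hg
  have h1 : X ∣ aeval Y h := (hrel.pow_right (n := n)).dvd_of_dvd_mul_left hg
  have h2 : aeval Y h = aeval Y h.divX * Y + algebraMap k R (h.coeff 0) := by
    conv_lhs => rw [← Polynomial.divX_mul_X_add h]
    simp
  have h3 : algebraMap k R (h.coeff 0) ∈ Ideal.span {X, Y} := by
    have e : algebraMap k R (h.coeff 0) = aeval Y h - aeval Y h.divX * Y := by rw [h2]; ring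
    rw [e]
    refine Ideal.sub_mem _ ?_ ?_
    · exact Ideal.mem_of_dvd _ h1 (Ideal.subset_span (by simp))
    · exact Ideal.mul_mem_left _ _ (Ideal.subset_span (by simp))
  refine Ideal.eq_top_of_isUnit_mem _ h3 ?_
  exact (IsUnit.mk0 _ hh0).map (algebraMap k R)

/-- The choice of `X` and `Y`. -/
theorem cho (J : Ideal R) (hJ0 : J ≠ ⊥) (hJ : ∀ p : R, Prime p → ∃ a ∈ J, ¬ p ∣ a) :
    J = ⊤ ∨ ∃ X ∈ J, ∃ Y ∈ J, X ≠ 0 ∧ Y ≠ 0 ∧ IsRelPrime X Y ∧
      AlgebraicIndependent k ![X, Y] := by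
  by_cases htop : J = ⊤
  · exact Or.inl htop
  right
  obtain ⟨X, hXJ, hX⟩ := Submodule.exists_mem_ne_zero_of_ne_bot hJ0
  obtain ⟨Y, hYJ, hrel⟩ := cho_rel J hJ hX
  have hY : Y ≠ 0 := by
    rintro rfl
    have hu : IsUnit X := isRelPrime_zero_right.mp hrel
    exact htop (Ideal.eq_top_of_isUnit_mem _ hXJ hu)
  refine ⟨X, hXJ, Y, hYJ, hX, hY, hrel, ?_⟩
  by_contra hdep
  refine htop (top_le_iff.mp ?_)
  rw [← cho_top hX hrel hdep, Ideal.span_le]
  rintro z (rfl | hz)
  · exact hXJ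
  · rw [Set.mem_singleton_iff] at hz
    rw [hz]; exact hYJ

end

end Pool.Agent.MIY
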