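import Mathlib
import Pool.Agent.MIY.Defs

set_option autoImplicit false

namespace Pool.Agent.MIY

open Pool.Agent.LNDF

namespace CmU

variable {k : Type} [Field k]

theorem cf_add (i j : ℕ) (u v : P2 k) : cf i j (u + v) = cf i j u + cf i j v := by
  unfold cf
  rw [map_add, map_add]

theorem cf_sub (i j : ℕ) (u v : P2 k) : cf i j (u - v) = cf i j u - cf i j v := by
  unfold cf
  rw [map_sub, map_sub]

theorem cf_zero (i j : ℕ) : cf i j (0 : P2 k) = 0 := by
  unfold cf
  rw [map_zero, map_zero]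

theorem cf_smul (i j : ℕ) (r : k) (u : P2 k) : cf i j (r • u) = r * cf i j u := by
  unfold cf
  rfl

theorem cf_sum {ι : Type} (s : Finset ι) (f : ι → P2 k) (i j : ℕ) :
    cf i j (∑ t ∈ s, f t) = ∑ t ∈ s, cf i j (f t) := by
  unfold cf
  rw [map_sum, map_sum]

theorem cf_ext {u v : P2 k} (h : ∀ i j, cf i j u = cf i j v) : u = v := by
  ext j i
  exact h i j

theorem cf_pX_mul (n i j : ℕ) (hi : i < n) (u : P2 k) : cf i j (pX ^ n * u) = 0 := by
  unfold cf pX
  rw [← map_pow, PowerSeries.coeff_C_mul, PowerSeries.coeff_X_pow_mul', if_neg (by omega)]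

theorem cf_pY_mul (n i j : ℕ) (hj : j < n) (u : P2 k) : cf i j (pY ^ n * u) = 0 := by
  unfold cf pY
  rw [PowerSeries.coeff_X_pow_mul', if_neg (by omega), map_zero]

theorem cf_mon (p q i j : ℕ) : cf i j ((pX : P2 k) ^ p * pY ^ q) =
    if i = p ∧ j = q then 1 else 0 := by
  unfold cf pX pY
  rw [← map_pow, PowerSeries.coeff_C_mul, PowerSeries.coeff_X_pow]
  by_cases hj : j = q
  · rw [if_pos hj, mul_one, PowerSeries.coeff_X_pow]
    simp [hj]
  · rw [if_neg hj, mul_zero, map_zero, if_neg (fun h => hj h.2)]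

theorem van_X (n : ℕ) (u : P2 k) : Van n (pX ^ n * u) := fun i j hi _ => cf_pX_mul n i j hi u

theorem van_Y (n : ℕ) (u : P2 k) : Van n (pY ^ n * u) := fun i j _ hj => cf_pY_mul n i j hj u

theorem eq_zero_of_van {u : P2 k} (h : ∀ n, ∃ a b : P2 k, u = pX ^ n * a + pY ^ n * b) : u = 0 := by
  apply cf_ext
  intro i j
  obtain ⟨a, b, hab⟩ := h (i + j + 1)
  rw [hab, cf_add, cf_pX_mul _ _ _ (by omega), cf_pY_mul _ _ _ (by omega), cf_zero, add_zero]

end CmU

section

variable {k M : Type} [Field k] [AddCommGroup M] [Module k M] {x y : M →ₗ[k] M}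

open CmU

theorem Cm.mx_pow {ν : ℕ} {b : Fin ν → M} {κ : M →ₗ[k] (Fin ν → P2 k)} (h : Cm x y b κ) (n : ℕ)
    (a : M) (j : Fin ν) : κ ((x ^ n) a) j = pX ^ n * κ a j := by
  induction n with
  | zero => rw [pow_zero, pow_zero, one_mul, Module.End.one_apply]
  | succ n ih => rw [pow_succ', Module.End.mul_apply, h.mx, ih, pow_succ']; ring

theorem Cm.my_pow {ν : ℕ} {b : Fin ν → M} {κ : M →ₗ[k] (Fin ν → P2 k)} (h : Cm x y b κ) (n : ℕ)
    (a : M) (j : Fin ν) : κ ((y ^ n) a) j = pY ^ n * κ a j := by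
  induction n with
  | zero => rw [pow_zero, pow_zero, one_mul, Module.End.one_apply]
  | succ n ih => rw [pow_succ', Module.End.mul_apply, h.my, ih, pow_succ']; ring

/-- Cmp2 -/
theorem Cm.gen {ν : ℕ} {b : Fin ν → M} {κ : M →ₗ[k] (Fin ν → P2 k)} (h : Cm x y b κ) (n : ℕ) (a : M) :
    ∃ (m : M) (u v : M), a = m + (x ^ n) u + (y ^ n) v ∧ m = ∑ j, ∑ p ∈ Finset.range n,
      ∑ q ∈ Finset.range n, cf p q (κ a j) • (x ^ p) ((y ^ q) (b j)) := by
  set m : M := ∑ j, ∑ p ∈ Finset.range n,
      ∑ q ∈ Finset.range n, cf p q (κ a j) • (x ^ p) ((y ^ q) (b j)) with hm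
  have h1 : ∀ j, κ m j = ∑ p ∈ Finset.range n, ∑ q ∈ Finset.range n,
      cf p q (κ a j) • ((pX : P2 k) ^ p * pY ^ q) := by
    intro j
    rw [hm, map_sum, Finset.sum_apply, Finset.sum_eq_single j]
    · rw [map_sum, Finset.sum_apply]
      refine Finset.sum_congr rfl fun p _ => ?_
      rw [map_sum, Finset.sum_apply]
      refine Finset.sum_congr rfl fun q _ => ?_
      rw [map_smul, Pi.smul_apply, h.mx_pow, h.my_pow, h.base, Pi.single_eq_same, mul_one]
    · intro j' _ hj'
      rw [map_sum, Finset.sum_apply]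
      refine Finset.sum_eq_zero fun p _ => ?_
      rw [map_sum, Finset.sum_apply]
      refine Finset.sum_eq_zero fun q _ => ?_
      rw [map_smul, Pi.smul_apply, h.mx_pow, h.my_pow, h.base, Pi.single_eq_of_ne (Ne.symm hj'),
        mul_zero, mul_zero, smul_zero]
    · intro hj
      exact absurd (Finset.mem_univ j) hj
  have h2 : ∀ j, Van n (κ (a - m) j) := by
    intro j i l hi hl
    rw [map_sub, Pi.sub_apply, cf_sub, h1 j, cf_sum, sub_eq_zero]
    rw [Finset.sum_eq_single i]
    · rw [cf_sum, Finset.sum_eq_single l]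
      · rw [cf_smul, cf_mon, if_pos ⟨rfl, rfl⟩, mul_one]
      · intro q _ hq
        rw [cf_smul, cf_mon, if_neg (fun h => hq h.2.symm), mul_zero]
      · intro hq
        exact absurd (Finset.mem_range.2 hl) hq
    · intro p _ hp
      rw [cf_sum]
      refine Finset.sum_eq_zero fun q _ => ?_
      rw [cf_smul, cf_mon, if_neg (fun h => hp h.1.symm), mul_zero]
    · intro hp
      exact absurd (Finset.mem_range.2 hi) hp
  obtain ⟨u, v, huv⟩ := h.sat n _ h2
  refine ⟨m, u, v, ?_, rfl⟩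
  rw [add_assoc, ← huv]
  abel

/-- Cmp2 -/
theorem Cm.univ {ν : ℕ} {b : Fin ν → M} {κ : M →ₗ[k] (Fin ν → P2 k)} (h : Cm x y b κ) {t : ℕ}
    (ψ : M →ₗ[k] (Fin t → P2 k)) (hx : ∀ a i, ψ (x a) i = pX * ψ a i)
    (hy : ∀ a i, ψ (y a) i = pY * ψ a i) (a : M) (i : Fin t) :
    ψ a i = ∑ j, κ a j * ψ (b j) i := by
  set T : M →ₗ[k] P2 k :=
    { toFun := fun a => ψ a i - ∑ j, κ a j * ψ (b j) i
      map_add' := by
        intro a a'
        simp only [map_add, Pi.add_apply, add_mul, Finset.sum_add_distrib]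
        ring
      map_smul' := by
        intro r a
        simp only [map_smul, Pi.smul_apply, smul_mul_assoc, ← Finset.smul_sum, smul_sub,
          RingHom.id_apply] } with hT
  have T1 : ∀ a, T a = ψ a i - ∑ j, κ a j * ψ (b j) i := fun a => rfl
  have Tx : ∀ a, T (x a) = pX * T a := by
    intro a
    rw [T1, T1, hx, mul_sub, Finset.mul_sum]
    congr 1
    exact Finset.sum_congr rfl fun j _ => by rw [h.mx, mul_assoc]
  have Ty : ∀ a, T (y a) = pY * T a := by
    intro a
    rw [T1, T1, hy, mul_sub, Finset.mul_sum]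
    congr 1
    exact Finset.sum_congr rfl fun j _ => by rw [h.my, mul_assoc]
  have Txp : ∀ n a, T ((x ^ n) a) = pX ^ n * T a := by
    intro n
    induction n with
    | zero => intro a; rw [pow_zero, pow_zero, one_mul, Module.End.one_apply]
    | succ n ih => intro a; rw [pow_succ', Module.End.mul_apply, Tx, ih, pow_succ']; ring
  have Typ : ∀ n a, T ((y ^ n) a) = pY ^ n * T a := by
    intro n
    induction n with
    | zero => intro a; rw [pow_zero, pow_zero, one_mul, Module.End.one_apply]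
    | succ n ih => intro a; rw [pow_succ', Module.End.mul_apply, Ty, ih, pow_succ']; ring
  have Tb : ∀ j, T (b j) = 0 := by
    intro j
    rw [T1, h.base, Finset.sum_eq_single j, Pi.single_eq_same, one_mul, sub_self]
    · intro j' _ hj'
      rw [Pi.single_eq_of_ne hj', zero_mul]
    · intro hj
      exact absurd (Finset.mem_univ j) hj
  have h0 : T a = 0 := by
    apply eq_zero_of_van
    intro n
    obtain ⟨m, u, v, h1, h2⟩ := h.gen n a
    refine ⟨T u, T v, ?_⟩
    have h3 : T m = 0 := by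
      rw [h2, map_sum]
      refine Finset.sum_eq_zero fun j _ => ?_
      rw [map_sum]
      refine Finset.sum_eq_zero fun p _ => ?_
      rw [map_sum]
      refine Finset.sum_eq_zero fun q _ => ?_
      rw [map_smul, Txp, Typ, Tb, mul_zero, mul_zero, smul_zero]
    rw [h1, map_add, map_add, h3, zero_add, Txp, Typ]
  rw [T1] at h0
  exact sub_eq_zero.1 h0

end

end Pool.Agent.MIY
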