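import Mathlib

set_option autoImplicit false

/-!
# Expansions along a regular sequence
-/

namespace Pool.Agent.MIY

/-- `X, Y` is a regular sequence on the module `M` and `b` is a basis of `M / (X M + Y M)` -/
structure CData (k : Type) {A M ι : Type} [Field k] [CommRing A] [AddCommGroup M] [Module k M]
    [Module A M] [Fintype ι] (X Y : A) (b : ι → M) : Prop where
  xreg : ∀ z : M, X • z = 0 → z = 0
  yreg : ∀ z u : M, Y • z = X • u → ∃ w : M, z = X • w
  span : ∀ z : M, ∃ (c : ι → k) (u w : M), z = ∑ j, c j • b j + X • u + Y • w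
  ind : ∀ (c : ι → k) (u w : M), ∑ j, c j • b j = X • u + Y • w → ∀ j, c j = 0

namespace CData

variable {k A M ι : Type} [Field k] [CommRing A] [Algebra k A] [AddCommGroup M] [Module k M]
  [Module A M] [IsScalarTower k A M] [Fintype ι] {X Y : A} {b : ι → M}

theorem xpow (h : CData k X Y b) (a : ℕ) (z : M) (hz : X ^ a • z = 0) : z = 0 := by
  induction a with
  | zero => simpa using hz
  | succ a ih =>
    refine ih (h.xreg _ ?_)
    rwa [← mul_smul, ← pow_succ']

theorem xcancel (h : CData k X Y b) (a : ℕ) {z w : M} (hz : X ^ a • z = X ^ a • w) : z = w := by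
  rw [← sub_eq_zero]
  exact h.xpow a _ (by rw [smul_sub, hz, sub_self])

theorem yx (h : CData k X Y b) (a : ℕ) : ∀ z u : M, Y • z = X ^ a • u → ∃ w : M, z = X ^ a • w := by
  induction a with
  | zero => exact fun z u _ => ⟨z, by rw [pow_zero, one_smul]⟩
  | succ a ih =>
    intro z u hz
    obtain ⟨w, rfl⟩ := h.yreg z (X ^ a • u) (by rw [hz, ← mul_smul, ← pow_succ'])
    obtain ⟨w', hw'⟩ := ih w u (by
      refine h.xcancel 1 ?_
      rw [pow_one, smul_comm X Y w, hz, pow_succ', mul_smul])
    exact ⟨w', by rw [hw', ← mul_smul, ← pow_succ']⟩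

theorem yxpow (h : CData k X Y b) (a n : ℕ) (z u : M) (hz : Y ^ n • z = X ^ a • u) :
    ∃ w : M, z = X ^ a • w := by
  induction n generalizing z u with
  | zero => exact ⟨u, by simpa using hz⟩
  | succ n ih =>
    rw [pow_succ, mul_smul] at hz
    obtain ⟨w, hw⟩ := ih _ _ hz
    exact h.yx a _ _ hw

/-- the row with the coefficients `c` -/
def row (Y : A) (b : ι → M) (n : ℕ) (c : ℕ → ι → k) : M :=
  ∑ l ∈ Finset.range n, Y ^ l • ∑ j, c l j • b j

/-- the partial sum with the coefficients `c` -/
def psum (X Y : A) (b : ι → M) (m n : ℕ) (c : ℕ → ℕ → ι → k) : M :=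
  ∑ i ∈ Finset.range m, X ^ i • row Y b n (c i)

theorem row_exists (h : CData k X Y b) (n : ℕ) (z : M) :
    ∃ (c : ℕ → ι → k) (u w : M), z = row Y b n c + X • u + Y ^ n • w := by
  induction n with
  | zero => exact ⟨0, 0, z, by simp [row]⟩
  | succ n ih =>
    obtain ⟨c, u, w, hz⟩ := ih
    obtain ⟨c', u', w', hw⟩ := h.span w
    refine ⟨fun l => if l = n then c' else c l, u + Y ^ n • u', w', ?_⟩
    have h1 : row Y b (n + 1) (fun l => if l = n then c' else c l) =
        row Y b n c + Y ^ n • ∑ j, c' j • b j := by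
      unfold row
      rw [Finset.sum_range_succ]
      congr 1
      · refine Finset.sum_congr rfl fun l hl => ?_
        simp only [if_neg (Finset.mem_range.1 hl).ne]
      · simp only [if_true]
    rw [h1]
    conv_lhs => rw [hz, hw]
    rw [smul_add, smul_add, smul_add, pow_succ, mul_smul, smul_comm X (Y ^ n) u']
    abel

theorem row_zero (h : CData k X Y b) (n : ℕ) : ∀ (c : ℕ → ι → k) (u w : M),
    row Y b n c = X • u + Y ^ n • w → ∀ l < n, ∀ j, c l j = 0 := by
  induction n with
  | zero => exact fun _ _ _ _ l hl => absurd hl (Nat.not_lt_zero _)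
  | succ n ih =>
    intro c u w hc
    have h1 : row Y b (n + 1) c = (∑ j, c 0 j • b j) + Y • row Y b n (fun l => c (l + 1)) := by
      unfold row
      rw [Finset.sum_range_succ', pow_zero, one_smul, add_comm, Finset.smul_sum]
      congr 1
      refine Finset.sum_congr rfl fun l _ => ?_
      rw [pow_succ', mul_smul]
    rw [h1] at hc
    have h2 : ∑ j, c 0 j • b j = X • u + Y • (Y ^ n • w - row Y b n (fun l => c (l + 1))) := by
      rw [smul_sub, ← mul_smul, ← pow_succ', ← add_sub_assoc, ← hc, add_sub_cancel_right]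
    have h3 := h.ind _ _ _ h2
    have h4 : ∑ j, c 0 j • b j = 0 := Finset.sum_eq_zero fun j _ => by rw [h3 j, zero_smul]
    rw [h4, zero_add] at hc
    obtain ⟨u', hu'⟩ := h.yreg (row Y b n (fun l => c (l + 1)) - Y ^ n • w) u (by
      rw [smul_sub, hc, ← mul_smul, ← pow_succ', add_sub_cancel_right])
    have h5 := ih _ u' w (by rw [← hu', sub_add_cancel])
    intro l hl j
    rcases l with _ | l
    · exact h3 j
    · exact h5 l (by omega) j

theorem psum_exists (h : CData k X Y b) (m n : ℕ) (z : M) :
    ∃ (c : ℕ → ℕ → ι → k) (u w : M), z = psum X Y b m n c + X ^ m • u + Y ^ n • w := by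
  induction m with
  | zero => exact ⟨0, z, 0, by simp [psum]⟩
  | succ m ih =>
    obtain ⟨c, u, w, hz⟩ := ih
    obtain ⟨c', u', w', hu⟩ := h.row_exists n u
    refine ⟨fun l => if l = m then c' else c l, u', w + X ^ m • w', ?_⟩
    have h1 : psum X Y b (m + 1) n (fun l => if l = m then c' else c l) =
        psum X Y b m n c + X ^ m • row Y b n c' := by
      unfold psum
      rw [Finset.sum_range_succ]
      congr 1
      · refine Finset.sum_congr rfl fun l hl => ?_
        simp only [if_neg (Finset.mem_range.1 hl).ne]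
      · simp only [if_true]
    rw [h1]
    conv_lhs => rw [hz, hu]
    rw [smul_add, smul_add, smul_add, pow_succ, mul_smul, smul_comm (Y ^ n) (X ^ m) w']
    abel

theorem psum_zero (h : CData k X Y b) (m n : ℕ) : ∀ (c : ℕ → ℕ → ι → k) (u w : M),
    psum X Y b m n c = X ^ m • u + Y ^ n • w → ∀ i < m, ∀ l < n, ∀ j, c i l j = 0 := by
  induction m with
  | zero => exact fun _ _ _ _ l hl => absurd hl (Nat.not_lt_zero _)
  | succ m ih =>
    intro c u w hc
    have h1 : psum X Y b (m + 1) n c = row Y b n (c 0) + X • psum X Y b m n (fun i => c (i + 1)) := by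
      unfold psum
      rw [Finset.sum_range_succ', pow_zero, one_smul, add_comm, Finset.smul_sum]
      congr 1
      refine Finset.sum_congr rfl fun l _ => ?_
      rw [pow_succ', mul_smul]
    rw [h1] at hc
    have h2 : row Y b n (c 0) =
        X • (X ^ m • u - psum X Y b m n (fun i => c (i + 1))) + Y ^ n • w := by
      rw [smul_sub, ← mul_smul, ← pow_succ', sub_add_eq_add_sub, ← hc, add_sub_cancel_right]
    have h3 := h.row_zero n _ _ _ h2
    have h4 : row Y b n (c 0) = 0 := Finset.sum_eq_zero fun l hl => by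
      rw [Finset.sum_eq_zero fun j _ => by rw [h3 l (Finset.mem_range.1 hl) j, zero_smul],
        smul_zero]
    rw [h4, zero_add] at hc
    obtain ⟨w', hw'⟩ := h.yxpow 1 n w (psum X Y b m n (fun i => c (i + 1)) - X ^ m • u) (by
      rw [pow_one, smul_sub, hc, ← mul_smul, ← pow_succ', add_sub_cancel_left])
    have h5 := ih (fun i => c (i + 1)) u w' (by
      refine h.xcancel 1 ?_
      rw [pow_one, hc, hw', pow_one, smul_add, smul_comm X (Y ^ n) w', pow_succ', mul_smul])
    intro i hi l hl j
    rcases i with _ | i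
    · exact h3 l hl j
    · exact h5 i (by omega) l hl j

end CData

end Pool.Agent.MIY
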