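import Mathlib
import Pool.Agent.MIY.Cmp1
import Pool.Agent.LNDF.RhoA

set_option autoImplicit false

/-!
# The completion map of a module with a regular sequence `X, Y` of finite codimension
-/

namespace Pool.Agent.MIY

open Pool.Agent.LNDF.RhoAux (P2 io io_X0 io_X1 io_C)

/-- the first variable in `k[[X, Y]]` -/
noncomputable def Xh (k : Type) [Field k] : P2 k := PowerSeries.C PowerSeries.X

/-- the second variable in `k[[X, Y]]` -/
noncomputable def Yh (k : Type) [Field k] : P2 k := PowerSeries.X

/-- the coefficients of an element of `(X^m, Y^n)` -/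
theorem coeff_eq_zero {k : Type} [Field k] {F U W : P2 k} {m n a l : ℕ}
    (h : F = Xh k ^ m * U + Yh k ^ n * W) (ha : a < m) (hl : l < n) :
    PowerSeries.coeff a (PowerSeries.coeff l F) = 0 := by
  rw [h, map_add, map_add]
  have h1 : PowerSeries.coeff l (Yh k ^ n * W) = 0 := by
    rw [Yh, PowerSeries.coeff_X_pow_mul', if_neg (by omega)]
  have h2 : PowerSeries.coeff a (PowerSeries.coeff l (Xh k ^ m * U)) = 0 := by
    rw [Xh, ← map_pow, PowerSeries.coeff_C_mul, PowerSeries.coeff_X_pow_mul', if_neg (by omega)]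
  rw [h1, h2, map_zero, add_zero]

namespace CData

variable {k A M ι : Type} [Field k] [CommRing A] [Algebra k A] [AddCommGroup M] [Module k M]
  [Module A M] [IsScalarTower k A M] [Fintype ι] {X Y : A} {b : ι → M}

/-- `c` are the coefficients of the expansion of `z` -/
def IsExp (X Y : A) (b : ι → M) (c : ℕ → ℕ → ι → k) (z : M) : Prop :=
  ∀ m n : ℕ, ∃ u w : M, z = psum X Y b m n c + X ^ m • u + Y ^ n • w

theorem row_restrict (n n' : ℕ) (hn : n' ≤ n) (c : ℕ → ι → k) :
    ∃ w : M, row Y b n c = row Y b n' c + Y ^ n' • w := by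
  obtain ⟨t, rfl⟩ := Nat.exists_eq_add_of_le hn
  refine ⟨row Y b t fun l => c (n' + l), ?_⟩
  unfold row
  rw [Finset.sum_range_add, Finset.smul_sum]
  congr 1
  refine Finset.sum_congr rfl fun l _ => ?_
  rw [pow_add, mul_smul]

theorem psum_restrict (m n m' n' : ℕ) (hm : m' ≤ m) (hn : n' ≤ n) (c : ℕ → ℕ → ι → k) :
    ∃ u w : M, psum X Y b m n c = psum X Y b m' n' c + X ^ m' • u + Y ^ n' • w := by
  obtain ⟨t, rfl⟩ := Nat.exists_eq_add_of_le hm
  choose w hw using fun i => row_restrict (Y := Y) (b := b) n n' hn (c i)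
  refine ⟨psum X Y b t n fun i => c (m' + i), ∑ i ∈ Finset.range m', X ^ i • w i, ?_⟩
  unfold psum
  rw [Finset.sum_range_add, Finset.smul_sum, Finset.smul_sum, add_right_comm,
    ← Finset.sum_add_distrib]
  congr 1
  · refine Finset.sum_congr rfl fun i _ => ?_
    rw [hw i, smul_add, smul_comm (Y ^ n') (X ^ i)]
  · refine Finset.sum_congr rfl fun i _ => ?_
    rw [pow_add, mul_smul]

theorem psum_sub (m n : ℕ) (c c' : ℕ → ℕ → ι → k) :
    psum X Y b m n (fun i l j => c i l j - c' i l j) = psum X Y b m n c - psum X Y b m n c' := by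
  unfold psum row
  rw [← Finset.sum_sub_distrib]
  refine Finset.sum_congr rfl fun i _ => ?_
  rw [← smul_sub, ← Finset.sum_sub_distrib]
  congr 1
  refine Finset.sum_congr rfl fun l _ => ?_
  rw [← smul_sub, ← Finset.sum_sub_distrib]
  congr 1
  refine Finset.sum_congr rfl fun j _ => ?_
  rw [sub_smul]

theorem psum_add (m n : ℕ) (c c' : ℕ → ℕ → ι → k) :
    psum X Y b m n (fun i l j => c i l j + c' i l j) = psum X Y b m n c + psum X Y b m n c' := by
  unfold psum row
  rw [← Finset.sum_add_distrib]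
  refine Finset.sum_congr rfl fun i _ => ?_
  rw [← smul_add, ← Finset.sum_add_distrib]
  congr 1
  refine Finset.sum_congr rfl fun l _ => ?_
  rw [← smul_add, ← Finset.sum_add_distrib]
  congr 1
  refine Finset.sum_congr rfl fun j _ => ?_
  rw [add_smul]

theorem row_smul (n : ℕ) (r : k) (c : ℕ → ι → k) :
    row Y b n (fun l j => r * c l j) = r • row Y b n c := by
  unfold row
  rw [Finset.smul_sum]
  refine Finset.sum_congr rfl fun l _ => ?_
  conv_rhs => rw [← smul_algebra_smul_comm, Finset.smul_sum]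
  congr 1
  refine Finset.sum_congr rfl fun j _ => ?_
  rw [mul_smul]

theorem psum_smul (m n : ℕ) (r : k) (c : ℕ → ℕ → ι → k) :
    psum X Y b m n (fun i l j => r * c i l j) = r • psum X Y b m n c := by
  unfold psum
  rw [Finset.smul_sum]
  refine Finset.sum_congr rfl fun i _ => ?_
  rw [row_smul, smul_algebra_smul_comm]

/-- uniqueness of the coefficients -/
theorem coeff_unique (h : CData k X Y b) {m n : ℕ} {c c' : ℕ → ℕ → ι → k} {z u w u' w' : M}
    (h1 : z = psum X Y b m n c + X ^ m • u + Y ^ n • w)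
    (h2 : z = psum X Y b m n c' + X ^ m • u' + Y ^ n • w') (i l : ℕ) (hi : i < m) (hl : l < n)
    (j : ι) : c i l j = c' i l j := by
  have h3 : psum X Y b m n (fun i l j => c i l j - c' i l j) =
      X ^ m • (u' - u) + Y ^ n • (w' - w) := by
    rw [psum_sub, smul_sub, smul_sub]
    have h4 := h1.symm.trans h2
    have h5 : psum X Y b m n c = psum X Y b m n c' + X ^ m • u' + Y ^ n • w' - X ^ m • u -
        Y ^ n • w := by
      rw [← h4]
      abel
    rw [h5]
    abel
  exact sub_eq_zero.1 (h.psum_zero m n _ _ _ h3 i hi l hl j)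

theorem exp_unique (h : CData k X Y b) {c c' : ℕ → ℕ → ι → k} {z : M} (h1 : IsExp X Y b c z)
    (h2 : IsExp X Y b c' z) : c = c' := by
  funext i l j
  obtain ⟨u, w, h3⟩ := h1 (i + 1) (l + 1)
  obtain ⟨u', w', h4⟩ := h2 (i + 1) (l + 1)
  exact h.coeff_unique h3 h4 i l (Nat.lt_succ_self _) (Nat.lt_succ_self _) j

theorem psum_congr {m n : ℕ} {c c' : ℕ → ℕ → ι → k}
    (h : ∀ i < m, ∀ l < n, ∀ j, c i l j = c' i l j) : psum X Y b m n c = psum X Y b m n c' := by
  unfold psum row
  refine Finset.sum_congr rfl fun i hi => ?_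
  congr 1
  refine Finset.sum_congr rfl fun l hl => ?_
  congr 1
  refine Finset.sum_congr rfl fun j _ => ?_
  rw [h i (Finset.mem_range.1 hi) l (Finset.mem_range.1 hl) j]

theorem exp_exists (h : CData k X Y b) (z : M) : ∃ c : ℕ → ℕ → ι → k, IsExp X Y b c z := by
  choose c u w hc using fun m n => h.psum_exists m n z
  refine ⟨fun i l => c (i + 1) (l + 1) i l, fun m n => ⟨u m n, w m n, ?_⟩⟩
  have h1 : psum X Y b m n (fun i l => c (i + 1) (l + 1) i l) = psum X Y b m n (c m n) := by
    refine psum_congr fun i hi l hl j => ?_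
    obtain ⟨u', w', h2⟩ := psum_restrict (X := X) (Y := Y) (b := b) m n (i + 1) (l + 1)
      (Nat.succ_le_of_lt hi) (Nat.succ_le_of_lt hl) (c m n)
    obtain ⟨s, rfl⟩ := Nat.exists_eq_add_of_le (Nat.succ_le_of_lt hi)
    obtain ⟨t, rfl⟩ := Nat.exists_eq_add_of_le (Nat.succ_le_of_lt hl)
    refine h.coeff_unique (m := i + 1) (n := l + 1) (z := z) (hc (i + 1) (l + 1))
      (u' := u' + X ^ s • u (i + 1 + s) (l + 1 + t)) (w' := w' + Y ^ t • w (i + 1 + s) (l + 1 + t))
      ?_ i l (Nat.lt_succ_self _) (Nat.lt_succ_self _) j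
    conv_lhs => rw [hc (i + 1 + s) (l + 1 + t), h2]
    rw [smul_add, smul_add, ← mul_smul, ← mul_smul, ← pow_add, ← pow_add]
    abel
  rw [h1]
  exact hc m n

/-- the coefficients of the expansion -/
noncomputable def co (h : CData k X Y b) (z : M) : ℕ → ℕ → ι → k := (h.exp_exists z).choose

theorem co_spec (h : CData k X Y b) (z : M) : IsExp X Y b (h.co z) z := (h.exp_exists z).choose_spec

theorem co_eq (h : CData k X Y b) {c : ℕ → ℕ → ι → k} {z : M} (hc : IsExp X Y b c z) :
    h.co z = c := h.exp_unique (h.co_spec z) hc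

/-- the completion map -/
noncomputable def kap (h : CData k X Y b) : M →ₗ[k] (ι → P2 k) where
  toFun z j := PowerSeries.mk fun l => PowerSeries.mk fun i => h.co z i l j
  map_add' z z' := by
    have h1 : h.co (z + z') = fun i l j => h.co z i l j + h.co z' i l j := by
      refine h.co_eq fun m n => ?_
      obtain ⟨u, w, h2⟩ := h.co_spec z m n
      obtain ⟨u', w', h3⟩ := h.co_spec z' m n
      refine ⟨u + u', w + w', ?_⟩
      rw [psum_add, smul_add, smul_add]
      conv_lhs => rw [h2, h3]
      abel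
    rw [h1]
    funext j
    ext l i
    simp
  map_smul' r z := by
    have h1 : h.co (r • z) = fun i l j => r * h.co z i l j := by
      refine h.co_eq fun m n => ?_
      obtain ⟨u, w, h2⟩ := h.co_spec z m n
      refine ⟨r • u, r • w, ?_⟩
      rw [psum_smul]
      conv_lhs => rw [h2]
      rw [smul_add, smul_add, ← algebraMap_smul A r (X ^ m • u), ← algebraMap_smul A r (Y ^ n • w),
        smul_comm (algebraMap k A r) (X ^ m), smul_comm (algebraMap k A r) (Y ^ n),
        algebraMap_smul, algebraMap_smul]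
    rw [h1]
    funext j
    ext l i
    simp

theorem kap_coeff (h : CData k X Y b) (z : M) (j : ι) (l i : ℕ) :
    PowerSeries.coeff i (PowerSeries.coeff l (h.kap z j)) = h.co z i l j := by
  simp [kap]

theorem kap_X (h : CData k X Y b) (z : M) (j : ι) : h.kap (X • z) j = Xh k * h.kap z j := by
  have h1 : h.co (X • z) = fun i l j => if i = 0 then 0 else h.co z (i - 1) l j := by
    refine h.co_eq fun m n => ?_
    rcases m with _ | m
    · exact ⟨X • z, 0, by simp [psum]⟩
    · obtain ⟨u, w, h2⟩ := h.co_spec z m n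
      refine ⟨u, X • w, ?_⟩
      have h3 : psum X Y b (m + 1) n (fun i l j => if i = 0 then 0 else h.co z (i - 1) l j) =
          X • psum X Y b m n (h.co z) := by
        unfold psum
        rw [Finset.sum_range_succ', Finset.smul_sum]
        have h4 : row Y b n (fun l j => if 0 = 0 then (0 : k) else h.co z (0 - 1) l j) = 0 := by
          simp [row]
        rw [h4, smul_zero, add_zero]
        refine Finset.sum_congr rfl fun i _ => ?_
        simp only [Nat.succ_ne_zero, if_false, Nat.add_sub_cancel]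
        rw [pow_succ', mul_smul]
      rw [h3]
      conv_lhs => rw [h2]
      rw [smul_add, smul_add, pow_succ', mul_smul, smul_comm X (Y ^ n) w]
  ext l i
  rw [kap_coeff, h1, Xh, PowerSeries.coeff_C_mul]
  rcases i with _ | i
  · simp
  · rw [PowerSeries.coeff_succ_X_mul, kap_coeff]
    simp

theorem kap_Y (h : CData k X Y b) (z : M) (j : ι) : h.kap (Y • z) j = Yh k * h.kap z j := by
  have h1 : h.co (Y • z) = fun i l j => if l = 0 then 0 else h.co z i (l - 1) j := by
    refine h.co_eq fun m n => ?_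
    rcases n with _ | n
    · exact ⟨0, Y • z, by simp [psum, row]⟩
    · obtain ⟨u, w, h2⟩ := h.co_spec z m n
      refine ⟨Y • u, w, ?_⟩
      have h3 : psum X Y b m (n + 1) (fun i l j => if l = 0 then 0 else h.co z i (l - 1) j) =
          Y • psum X Y b m n (h.co z) := by
        have h5 : ∀ i, row Y b (n + 1) (fun l j => if l = 0 then 0 else h.co z i (l - 1) j) =
            Y • row Y b n (h.co z i) := by
          intro i
          unfold row
          rw [Finset.sum_range_succ']
          conv_rhs => rw [Finset.smul_sum]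
          have h6 : Y ^ 0 • ∑ j, (if 0 = 0 then (0 : k) else h.co z i (0 - 1) j) • b j = 0 := by
            simp
          refine (congrArg₂ (· + ·) ?_ h6).trans (add_zero _)
          refine Finset.sum_congr rfl fun l _ => ?_
          simp only [Nat.succ_ne_zero, if_false, Nat.add_sub_cancel]
          rw [pow_succ', mul_smul]
        unfold psum
        rw [Finset.smul_sum]
        refine Finset.sum_congr rfl fun i _ => ?_
        rw [smul_comm Y (X ^ i), ← h5 i]
      rw [h3]
      conv_lhs => rw [h2]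
      rw [smul_add, smul_add, pow_succ', mul_smul, smul_comm Y (X ^ m) u]
  ext l i
  rw [kap_coeff, h1, Yh]
  rcases l with _ | l
  · simp
  · rw [PowerSeries.coeff_succ_X_mul, kap_coeff]
    simp

/-- the image of a basis element is a unit vector -/
theorem kap_b [DecidableEq ι] (h : CData k X Y b) (j₀ : ι) :
    h.kap (b j₀) = Pi.single j₀ (1 : P2 k) := by
  have h1 : h.co (b j₀) = fun i l j => if i = 0 ∧ l = 0 ∧ j = j₀ then 1 else 0 := by
    refine h.co_eq fun m n => ?_
    rcases m with _ | m
    · exact ⟨b j₀, 0, by simp [psum]⟩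
    rcases n with _ | n
    · exact ⟨0, b j₀, by simp [psum, row]⟩
    refine ⟨0, 0, ?_⟩
    rw [smul_zero, smul_zero, add_zero, add_zero]
    unfold psum
    rw [Finset.sum_eq_single 0]
    · unfold row
      rw [Finset.sum_eq_single 0]
      · simp
      · intro l _ hl
        simp [hl]
      · intro hl
        simp at hl
    · intro i _ hi
      simp [row, hi]
    · intro hi
      simp at hi
  funext j
  ext l i
  rw [kap_coeff, h1]
  by_cases hj : j = j₀
  · subst hj
    rw [Pi.single_eq_same, PowerSeries.coeff_one]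
    by_cases hl : l = 0
    · rw [if_pos hl, PowerSeries.coeff_one]
      simp [hl]
    · simp [hl]
  · rw [Pi.single_eq_of_ne hj, map_zero, map_zero]
    simp [hj]

/-- an element whose image lies in `(X^m, Y^n)` lies in `(X^m, Y^n) M` -/
theorem mem_of_kap (h : CData k X Y b) (m n : ℕ) (z : M)
    (hz : ∀ j, ∀ l < n, ∀ i < m, PowerSeries.coeff i (PowerSeries.coeff l (h.kap z j)) = 0) :
    ∃ u w : M, z = X ^ m • u + Y ^ n • w := by
  obtain ⟨u, w, h1⟩ := h.co_spec z m n
  refine ⟨u, w, ?_⟩
  have h2 : psum X Y b m n (h.co z) = 0 := by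
    refine Finset.sum_eq_zero fun i hi => ?_
    rw [row, Finset.sum_eq_zero fun l hl => ?_, smul_zero]
    rw [Finset.sum_eq_zero fun j _ => ?_, smul_zero]
    rw [← h.kap_coeff, hz j l (Finset.mem_range.1 hl) i (Finset.mem_range.1 hi), zero_smul]
  rw [h2, zero_add] at h1
  exact h1

theorem mem_of_kap' (h : CData k X Y b) (m n : ℕ) (z : M) (U W : ι → P2 k)
    (hz : ∀ j, h.kap z j = Xh k ^ m * U j + Yh k ^ n * W j) :
    ∃ u w : M, z = X ^ m • u + Y ^ n • w :=
  h.mem_of_kap m n z fun j _ hl _ hi => coeff_eq_zero (hz j) hi hl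

/-- a linear map that kills the basis is zero -/
theorem ext_zero (h : CData k X Y b) (ψ : M →ₗ[k] P2 k) (hX : ∀ z, ψ (X • z) = Xh k * ψ z)
    (hY : ∀ z, ψ (Y • z) = Yh k * ψ z) (hb : ∀ j, ψ (b j) = 0) (z : M) : ψ z = 0 := by
  have hXp : ∀ (m : ℕ) (z : M), ψ (X ^ m • z) = Xh k ^ m * ψ z := by
    intro m
    induction m with
    | zero => intro z; simp
    | succ m ih => intro z; rw [pow_succ', mul_smul, hX, ih, pow_succ', mul_assoc]
  have hYp : ∀ (m : ℕ) (z : M), ψ (Y ^ m • z) = Yh k ^ m * ψ z := by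
    intro m
    induction m with
    | zero => intro z; simp
    | succ m ih => intro z; rw [pow_succ', mul_smul, hY, ih, pow_succ', mul_assoc]
  ext l i
  obtain ⟨u, w, h1⟩ := h.co_spec z (i + 1) (l + 1)
  have h2 : ψ (psum X Y b (i + 1) (l + 1) (h.co z)) = 0 := by
    unfold psum row
    rw [map_sum]
    refine Finset.sum_eq_zero fun i _ => ?_
    rw [hXp, map_sum, Finset.sum_eq_zero fun l _ => ?_, mul_zero]
    rw [hYp, map_sum, Finset.sum_eq_zero fun j _ => ?_, mul_zero]
    rw [map_smul, hb, smul_zero]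
  rw [map_zero, map_zero]
  refine coeff_eq_zero (F := ψ z) (U := ψ u) (W := ψ w) (m := i + 1) (n := l + 1) ?_
    (Nat.lt_succ_self _) (Nat.lt_succ_self _)
  conv_lhs => rw [h1]
  rw [map_add, map_add, h2, zero_add, hXp, hYp]

/-- every linear map to power series factors through the completion -/
theorem factor (h : CData k X Y b) (ψ : M →ₗ[k] P2 k) (hX : ∀ z, ψ (X • z) = Xh k * ψ z)
    (hY : ∀ z, ψ (Y • z) = Yh k * ψ z) (z : M) : ψ z = ∑ j, h.kap z j * ψ (b j) := by
  classical
  set δ : M →ₗ[k] P2 k := ψ - ∑ j, (LinearMap.mulRight k (ψ (b j))).comp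
    ((LinearMap.proj j).comp h.kap) with hδ
  have hδe : ∀ z, δ z = ψ z - ∑ j, h.kap z j * ψ (b j) := by
    intro z
    simp [hδ, LinearMap.sum_apply]
  have h1 := h.ext_zero δ (fun z => ?_) (fun z => ?_) (fun j₀ => ?_) z
  · rw [hδe, sub_eq_zero] at h1
    exact h1
  · rw [hδe, hδe, hX, mul_sub, Finset.mul_sum]
    congr 1
    refine Finset.sum_congr rfl fun j _ => ?_
    rw [h.kap_X, mul_assoc]
  · rw [hδe, hδe, hY, mul_sub, Finset.mul_sum]
    congr 1
    refine Finset.sum_congr rfl fun j _ => ?_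
    rw [h.kap_Y, mul_assoc]
  · rw [hδe, h.kap_b]
    rw [Finset.sum_eq_single j₀]
    · rw [Pi.single_eq_same, one_mul, sub_self]
    · intro j _ hj
      rw [Pi.single_eq_of_ne hj, zero_mul]
    · intro hj
      exact absurd (Finset.mem_univ _) hj

end CData

end Pool.Agent.MIY
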