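import Mathlib
import Pool.Agent.MIY.Defs
import Pool.Agent.MIY.Cmp2

set_option autoImplicit false

/-!
# The completion of a module with a regular pair of operators
-/

namespace Pool.Agent.MIY

section Act

variable {k M : Type} [Field k] [AddCommGroup M] [Module k M] {x y : M →ₗ[k] M}

/-- the action of the polynomials in one operator -/
noncomputable def cmpPhi1 (x : Module.End k M) : Polynomial k →+* Module.End k M :=
  Polynomial.eval₂RingHom' (algebraMap k (Module.End k M)) x fun a => Algebra.commutes a x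

theorem cmpPhi1_comm {x y : Module.End k M} (h : x * y = y * x) (p : Polynomial k) :
    Commute (cmpPhi1 x p) y := by
  induction p using Polynomial.induction_on' with
  | add p q hp hq => rw [map_add]; exact hp.add_left hq
  | monomial n a =>
    rw [cmpPhi1, ← Polynomial.C_mul_X_pow_eq_monomial, map_mul, map_pow]
    have h1 : (Polynomial.eval₂RingHom' (algebraMap k (Module.End k M)) x
        fun a => Algebra.commutes a x) (Polynomial.C a) = algebraMap k (Module.End k M) a := by
      simp [Polynomial.eval₂RingHom']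
    have h2 : (Polynomial.eval₂RingHom' (algebraMap k (Module.End k M)) x
        fun a => Algebra.commutes a x) Polynomial.X = x := by
      simp [Polynomial.eval₂RingHom']
    rw [h1, h2]
    exact Commute.mul_left (Algebra.commutes a y) (Commute.pow_left h n)

/-- the action of the polynomials in two operators -/
noncomputable def cmpPhi {x y : Module.End k M} (h : x * y = y * x) :
    Polynomial (Polynomial k) →+* Module.End k M :=
  Polynomial.eval₂RingHom' (cmpPhi1 x) y (cmpPhi1_comm h)

theorem cmpPhi_C {x y : Module.End k M} (h : x * y = y * x) (r : k) :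
    cmpPhi h (Polynomial.C (Polynomial.C r)) = algebraMap k (Module.End k M) r := by
  simp [cmpPhi, cmpPhi1, Polynomial.eval₂RingHom']

theorem cmpPhi_X {x y : Module.End k M} (h : x * y = y * x) :
    cmpPhi h (Polynomial.C Polynomial.X) = x := by
  simp [cmpPhi, cmpPhi1, Polynomial.eval₂RingHom']

theorem cmpPhi_Y {x y : Module.End k M} (h : x * y = y * x) :
    cmpPhi h Polynomial.X = y := by
  simp [cmpPhi, Polynomial.eval₂RingHom']

theorem Reg2.mul_comm (h : Reg2 x y) : (x : Module.End k M) * y = y * x :=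
  LinearMap.ext fun m => h.comm m

/-- the action of the polynomials on the module -/
noncomputable abbrev cmpMod {x y : Module.End k M} (h : x * y = y * x) :
    Module (Polynomial (Polynomial k)) M :=
  Module.compHom M (cmpPhi h)

theorem cmpMod_tower {x y : Module.End k M} (h : x * y = y * x) :
    letI := cmpMod h
    IsScalarTower k (Polynomial (Polynomial k)) M := by
  letI := cmpMod h
  refine ⟨fun r a m => ?_⟩
  have h1 : r • a = Polynomial.C (Polynomial.C r) * a := by
    rw [Algebra.smul_def]
    rfl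
  change cmpPhi h (r • a) m = r • (cmpPhi h a m)
  rw [h1, map_mul, cmpPhi_C]
  rfl

/-- the data of `Cmp1` from a regular pair and a lifted basis -/
theorem cmp_data (h : Reg2 x y) {ν : ℕ} {b : Fin ν → M} (hb : LB x y b) :
    letI := cmpMod h.mul_comm
    CData k (Polynomial.C Polynomial.X : Polynomial (Polynomial k))
      (Polynomial.X : Polynomial (Polynomial k)) b := by
  letI := cmpMod h.mul_comm
  have hX : ∀ m : M, (Polynomial.C Polynomial.X : Polynomial (Polynomial k)) • m = x m := by
    intro m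
    change cmpPhi h.mul_comm _ m = x m
    rw [cmpPhi_X]
  have hY : ∀ m : M, (Polynomial.X : Polynomial (Polynomial k)) • m = y m := by
    intro m
    change cmpPhi h.mul_comm _ m = y m
    rw [cmpPhi_Y]
  refine ⟨fun z hz => h.inj z (by rwa [← hX]), fun z u hz => ?_, fun z => ?_, fun c u w hc j => ?_⟩
  · rw [hX, hY] at hz
    obtain ⟨w, hw⟩ := h.reg z u hz
    exact ⟨w, by rw [hX]; exact hw⟩
  · obtain ⟨r, u, v, hz⟩ := hb.gen z
    exact ⟨r, u, v, by rw [hX, hY]; exact hz⟩
  · rw [hX, hY] at hc
    exact congrFun (hb.ind c ⟨u, w, hc⟩) j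

end Act

section Cmp

variable {k M : Type} [Field k] [AddCommGroup M] [Module k M] {x y : M →ₗ[k] M}

/-- Cmp1 -/
theorem exists_lb (h : Fg2 x y) : ∃ (ν : ℕ) (b : Fin ν → M), LB x y b := by
  classical
  obtain ⟨ν, b, hb⟩ := h
  -- a basis of the quotient
  set N : Submodule k M := LinearMap.range x ⊔ LinearMap.range y with hN
  have hspan : ∀ m : M, ∃ r : Fin ν → k, N.mkQ m = ∑ j, r j • N.mkQ (b j) := by
    intro m
    obtain ⟨r, u, v, hm⟩ := hb m
    refine ⟨r, ?_⟩
    have h1 : m - ∑ j, r j • b j ∈ N := by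
      rw [hm, add_assoc, add_sub_cancel_left]
      exact Submodule.add_mem_sup ⟨u, rfl⟩ ⟨v, rfl⟩
    have h2 := (Submodule.Quotient.mk_eq_zero N).2 h1
    rw [Submodule.Quotient.mk_sub, sub_eq_zero] at h2
    rw [Submodule.mkQ_apply, h2, ← Submodule.mkQ_apply, map_sum]
    refine Finset.sum_congr rfl fun j _ => ?_
    rw [map_smul]
  haveI : Module.Finite k (M ⧸ N) := by
    refine ⟨⟨Finset.univ.image fun j => N.mkQ (b j), ?_⟩⟩
    rw [eq_top_iff]
    rintro q -
    obtain ⟨m, rfl⟩ := N.mkQ_surjective q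
    obtain ⟨r, hr⟩ := hspan m
    rw [hr]
    exact Submodule.sum_mem _ fun j _ => Submodule.smul_mem _ _ (Submodule.subset_span (by simp))
  set B := Module.finBasis k (M ⧸ N) with hB
  choose c hc using fun j => N.mkQ_surjective (B j)
  refine ⟨_, c, fun m => ?_, fun r hr => ?_⟩
  · have h1 : N.mkQ (m - ∑ j, B.repr (N.mkQ m) j • c j) = 0 := by
      rw [map_sub, map_sum]
      have h2 : ∀ j, N.mkQ (B.repr (N.mkQ m) j • c j) = B.repr (N.mkQ m) j • B j := fun j => by
        rw [map_smul, hc]
      rw [Finset.sum_congr rfl fun j _ => h2 j, B.sum_repr, sub_self]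
    rw [Submodule.mkQ_apply, Submodule.Quotient.mk_eq_zero] at h1
    obtain ⟨_, ⟨u, rfl⟩, _, ⟨v, rfl⟩, huv⟩ := Submodule.mem_sup.1 h1
    exact ⟨fun j => B.repr (N.mkQ m) j, u, v, by rw [add_assoc, huv]; abel⟩
  · obtain ⟨u, v, huv⟩ := hr
    have h1 : ∑ j, r j • B j = 0 := by
      have h2 : N.mkQ (∑ j, r j • c j) = 0 := by
        rw [huv, Submodule.mkQ_apply, Submodule.Quotient.mk_eq_zero]
        exact Submodule.add_mem_sup ⟨u, rfl⟩ ⟨v, rfl⟩
      rw [map_sum] at h2
      rw [← h2]
      exact Finset.sum_congr rfl fun j _ => by rw [map_smul, hc]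
    funext j
    exact Fintype.linearIndependent_iff.1 B.linearIndependent r h1 j

/-- Cmp1 -/
theorem exists_cm (h : Reg2 x y) {ν : ℕ} {b : Fin ν → M} (hb : LB x y b) :
    ∃ κ : M →ₗ[k] (Fin ν → P2 k), Cm x y b κ := by
  classical
  letI := cmpMod h.mul_comm
  haveI := cmpMod_tower (k := k) (M := M) h.mul_comm
  have hX : ∀ m : M, (Polynomial.C Polynomial.X : Polynomial (Polynomial k)) • m = x m := by
    intro m
    change cmpPhi h.mul_comm _ m = x m
    rw [cmpPhi_X]
  have hY : ∀ m : M, (Polynomial.X : Polynomial (Polynomial k)) • m = y m := by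
    intro m
    change cmpPhi h.mul_comm _ m = y m
    rw [cmpPhi_Y]
  have hXp : ∀ (n : ℕ) (m : M),
      (Polynomial.C Polynomial.X : Polynomial (Polynomial k)) ^ n • m = (x ^ n) m := by
    intro n m
    change cmpPhi h.mul_comm (_ ^ n) m = _
    rw [map_pow, cmpPhi_X]
  have hYp : ∀ (n : ℕ) (m : M),
      (Polynomial.X : Polynomial (Polynomial k)) ^ n • m = (y ^ n) m := by
    intro n m
    change cmpPhi h.mul_comm (_ ^ n) m = _
    rw [map_pow, cmpPhi_Y]
  have hd := cmp_data h hb
  refine ⟨hd.kap, fun j => hd.kap_b j, fun a j => ?_, fun a j => ?_, fun n a ha => ?_⟩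
  · rw [← hX, hd.kap_X]
    rfl
  · rw [← hY, hd.kap_Y]
    rfl
  · obtain ⟨u, w, h1⟩ := hd.mem_of_kap n n a fun j l hl i hi => ha j i l hi hl
    exact ⟨u, w, by rw [← hXp, ← hYp]; exact h1⟩

end Cmp

end Pool.Agent.MIY
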