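import Mathlib

/-!
# Ritt: a stable ideal without powers of `x` is in a stable prime without powers of `x`
-/

set_option autoImplicit false

namespace Pool.Agent.MIY

section

variable {k R : Type*} [Field k] [CharZero k] [CommRing R] [Algebra k R]

/-- an ideal stable under derivations -/
def Stab {ι : Type*} (δ : ι → Derivation k R R) (I : Ideal R) : Prop :=
  ∀ i, ∀ a ∈ I, δ i a ∈ I

theorem ritt_aux (δ : Derivation k R R) {I : Ideal R} (hI : ∀ a ∈ I, δ a ∈ I) {a : R} {n : ℕ}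
    (ha : a ^ n ∈ I) : ∀ m, m ≤ n → a ^ (n - m) * (δ a) ^ (2 * m) ∈ I := by
  intro m
  induction m with
  | zero => intro _; simpa using ha
  | succ m ih =>
    intro hm
    have h0 := ih (by omega)
    obtain ⟨l, hl⟩ : ∃ l, n - m = l + 1 := ⟨n - m - 1, by omega⟩
    have hl' : n - (m + 1) = l := by omega
    rw [hl] at h0
    rw [hl']
    have h1 : δ (a ^ (l + 1) * (δ a) ^ (2 * m)) * δ a ∈ I := I.mul_mem_right _ (hI _ h0)
    have h2 : δ (a ^ (l + 1) * (δ a) ^ (2 * m)) * δ a =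
        ((l + 1 : ℕ) : R) * (a ^ l * (δ a) ^ (2 * (m + 1))) +
          ((2 * m : ℕ) : R) * δ (δ a) * (a ^ (l + 1) * (δ a) ^ (2 * m)) := by
      rw [Derivation.leibniz, Derivation.leibniz_pow, Derivation.leibniz_pow]
      simp only [smul_eq_mul, nsmul_eq_mul, Nat.add_sub_cancel]
      rcases Nat.eq_zero_or_pos m with rfl | hm0
      · simp
        ring
      · obtain ⟨j, hj⟩ : ∃ j, 2 * m = j + 1 := ⟨2 * m - 1, by omega⟩
        have hj2 : 2 * (m + 1) = j + 3 := by omega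
        rw [hj2, hj, Nat.add_sub_cancel]
        ring
    rw [h2] at h1
    have h3 : ((l + 1 : ℕ) : R) * (a ^ l * (δ a) ^ (2 * (m + 1))) ∈ I := by
      have h4 : ((2 * m : ℕ) : R) * δ (δ a) * (a ^ (l + 1) * (δ a) ^ (2 * m)) ∈ I :=
        I.mul_mem_left _ h0
      exact (I.add_mem_iff_left h4).1 h1
    have h5 : algebraMap k R ((l + 1 : ℕ) : k)⁻¹ * (((l + 1 : ℕ) : R) *
        (a ^ l * (δ a) ^ (2 * (m + 1)))) = a ^ l * (δ a) ^ (2 * (m + 1)) := by
      rw [← mul_assoc, ← map_natCast (algebraMap k R) (l + 1), ← map_mul,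
        inv_mul_cancel₀ (by exact_mod_cast Nat.succ_ne_zero l), map_one, one_mul]
    rw [← h5]
    exact I.mul_mem_left _ h3

/-- the radical of a stable ideal is stable -/
theorem stab_radical {ι : Type*} {δ : ι → Derivation k R R} {I : Ideal R} (hI : Stab δ I) :
    Stab δ I.radical := by
  rintro i a ⟨n, hn⟩
  refine ⟨2 * n, ?_⟩
  have h := ritt_aux (δ i) (hI i) hn n le_rfl
  simpa using h

/-- colons of radical stable ideals are stable -/
theorem stab_colon {ι : Type*} {δ : ι → Derivation k R R} {I : Ideal R} (hI : Stab δ I)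
    (hr : ∀ (a : R) (n : ℕ), a ^ n ∈ I → a ∈ I) {a b : R} (hab : a * b ∈ I) (i : ι) :
    δ i a * b ∈ I := by
  have h1 := hI i _ hab
  rw [Derivation.leibniz, smul_eq_mul, smul_eq_mul] at h1
  have h2 : (a * δ i b + b * δ i a) * (δ i a * b) ∈ I := I.mul_mem_right _ h1
  have h3 : a * b * (δ i b * δ i a) ∈ I := I.mul_mem_right _ hab
  have h4 : (δ i a * b) ^ 2 ∈ I := by
    have : (δ i a * b) ^ 2 = (a * δ i b + b * δ i a) * (δ i a * b) - a * b * (δ i b * δ i a) := by
      ring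
    rw [this]
    exact I.sub_mem h2 h3
  exact hr _ _ h4

/-- Ritt's theorem -/
theorem exists_stab_prime {ι : Type*} {δ : ι → Derivation k R R} {I : Ideal R} (hI : Stab δ I)
    {x : R} (hx : ∀ n : ℕ, x ^ n ∉ I) :
    ∃ P : Ideal R, P.IsPrime ∧ I ≤ P ∧ Stab δ P ∧ ∀ n : ℕ, x ^ n ∉ P := by
  have hz : ∀ c ⊆ {J : Ideal R | Stab δ J ∧ ∀ n : ℕ, x ^ n ∉ J}, IsChain (· ≤ ·) c → ∀ J ∈ c,
      ∃ ub ∈ {J : Ideal R | Stab δ J ∧ ∀ n : ℕ, x ^ n ∉ J}, ∀ z ∈ c, z ≤ ub := by
    intro c hc hch J hJ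
    refine ⟨sSup c, ⟨?_, ?_⟩, fun z hz => le_sSup hz⟩
    · intro i a ha
      rw [Submodule.mem_sSup_of_directed ⟨J, hJ⟩ hch.directedOn] at ha ⊢
      obtain ⟨K, hK, haK⟩ := ha
      exact ⟨K, hK, (hc hK).1 i a haK⟩
    · intro n hn
      rw [Submodule.mem_sSup_of_directed ⟨J, hJ⟩ hch.directedOn] at hn
      obtain ⟨K, hK, haK⟩ := hn
      exact (hc hK).2 n haK
  obtain ⟨P, hIP, hP⟩ := zorn_le_nonempty₀ _ hz I ⟨hI, hx⟩
  have hPs : Stab δ P := hP.prop.1
  have hPx : ∀ n : ℕ, x ^ n ∉ P := hP.prop.2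
  -- `P` is radical
  have hrad : ∀ (a : R) (n : ℕ), a ^ n ∈ P → a ∈ P := by
    intro a n ha
    have h1 : P.radical ≤ P := hP.le_of_ge (y := P.radical)
      ⟨stab_radical hPs, fun m hm => by
        obtain ⟨j, hj⟩ := hm
        rw [← pow_mul] at hj
        exact hPx _ hj⟩ Ideal.le_radical
    exact h1 ⟨n, ha⟩
  -- colon ideals
  have hcol : ∀ b : R, b ∉ P → (∀ n : ℕ, x ^ n * b ∉ P) → ∀ a, a * b ∈ P → a ∈ P := by
    intro b _ hb' a hab
    let Q : Ideal R :=
      { carrier := {a | a * b ∈ P}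
        zero_mem' := by simp
        add_mem' := by
          intro a a' ha ha'
          have ha1 : a * b ∈ P := ha
          have ha2 : a' * b ∈ P := ha'
          show (a + a') * b ∈ P
          rw [add_mul]
          exact P.add_mem ha1 ha2
        smul_mem' := by
          intro c a ha
          have ha1 : a * b ∈ P := ha
          show c * a * b ∈ P
          rw [mul_assoc]
          exact P.mul_mem_left _ ha1 }
    have h1 : Q ≤ P := hP.le_of_ge (y := Q)
      ⟨fun i a ha => stab_colon hPs hrad (show a * b ∈ P from ha) i, fun n hn => hb' n hn⟩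
      (fun a ha => P.mul_mem_right _ ha)
    exact h1 hab
  refine ⟨P, ⟨?_, ?_⟩, hIP, hPs, hPx⟩
  · rintro rfl
    exact hPx 0 trivial
  · intro a b hab
    by_contra hcon
    push Not at hcon
    obtain ⟨ha, hb⟩ := hcon
    by_cases h : ∃ n : ℕ, x ^ n * b ∈ P
    · obtain ⟨n, hn⟩ := h
      -- `(P : x ^ n) = P`
      have h2 : ∀ m : ℕ, x ^ m * x ^ n ∉ P := fun m hm => by
        rw [← pow_add] at hm
        exact hPx _ hm
      exact hb (hcol (x ^ n) (hPx n) h2 b (by rwa [mul_comm]))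
    · push Not at h
      exact ha (hcol b hb h a hab)

end

end Pool.Agent.MIY
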