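import Mathlib
import Pool.Agent.MIY.Defs

/-!
# `stab_pow` (section 4 of H/821812_MIY_37): a stable ideal of the completion which contains a nonzero power
series contains powers of `X` and `Y`
-/

set_option autoImplicit false
set_option linter.unusedSectionVars false

namespace Pool.Agent.MIY

open Pool.Agent.LNDF

namespace Del1

section

variable {R : Type*} [CommRing R] [Algebra ℚ R]

theorem mem_of_natCast_mul {J : Ideal R} {n : ℕ} (hn : n ≠ 0) {z : R} (h : (n : R) * z ∈ J) : z ∈ J := by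
  have h1 : algebraMap ℚ R (1 / n) * ((n : R) * z) ∈ J := J.mul_mem_left _ h
  have h2 : algebraMap ℚ R (1 / n) * ((n : R) * z) = z := by
    have h3 : (n : R) = algebraMap ℚ R (n : ℚ) := (map_natCast _ n).symm
    have h4 : (1 / (n : ℚ)) * n = 1 := by
      have : (n : ℚ) ≠ 0 := Nat.cast_ne_zero.2 hn
      field_simp
    rw [← mul_assoc, h3, ← map_mul, h4, map_one, one_mul]
  rwa [h2] at h1

/-- Ritt's lemma -/
theorem ritt (d : Derivation ℤ R R) {J : Ideal R} (hd : ∀ a ∈ J, d a ∈ J) {a : R} {n : ℕ} (h : a ^ n ∈ J) :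
    (d a) ^ (2 * n) ∈ J := by
  have key : ∀ k, k ≤ n → a ^ (n - k) * (d a) ^ (2 * k) ∈ J := by
    intro k
    induction k with
    | zero => intro _; simpa using h
    | succ k ih =>
      intro hk
      have h0 := ih (by omega)
      obtain ⟨m, hm⟩ : ∃ m, n - k = m + 1 := ⟨n - k - 1, by omega⟩
      have hm' : n - (k + 1) = m := by omega
      rw [hm] at h0
      rw [hm']
      have h1 := hd _ h0
      have h2 : d (a ^ (m + 1) * (d a) ^ (2 * k)) * d a =
          ((m + 1 : ℕ) : R) * (a ^ m * (d a) ^ (2 * (k + 1))) +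
            ((2 * k : ℕ) : R) * d (d a) * (a ^ (m + 1) * (d a) ^ (2 * k)) := by
        rw [Derivation.leibniz, Derivation.leibniz_pow, Derivation.leibniz_pow]
        simp only [smul_eq_mul, nsmul_eq_mul, Nat.add_sub_cancel]
        rcases Nat.eq_zero_or_pos k with rfl | hk0
        · simp
          ring
        · obtain ⟨l, rfl⟩ : ∃ l, k = l + 1 := ⟨k - 1, by omega⟩
          have e : 2 * (l + 1) - 1 = 2 * l + 1 := by omega
          rw [e]
          push_cast
          ring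
      have h3 : d (a ^ (m + 1) * (d a) ^ (2 * k)) * d a ∈ J := J.mul_mem_right _ h1
      rw [h2] at h3
      have h4 := (J.add_mem_iff_left (J.mul_mem_left (((2 * k : ℕ) : R) * d (d a)) h0)).1 h3
      exact mem_of_natCast_mul (Nat.succ_ne_zero m) h4
  simpa using key n le_rfl

/-- a differential ideal without powers of `X` lies in a differential prime without powers of `X` -/
theorem exists_stable_prime {ι : Type*} (d : ι → Derivation ℤ R R) (X : R) (I : Ideal R)
    (hd : ∀ i, ∀ a ∈ I, d i a ∈ I) (hX : ∀ s : ℕ, X ^ s ∉ I) :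
    ∃ P : Ideal R, I ≤ P ∧ P.IsPrime ∧ (∀ i, ∀ a ∈ P, d i a ∈ P) ∧ ∀ s : ℕ, X ^ s ∉ P := by
  classical
  let S : Set (Ideal R) := {J | (∀ i, ∀ a ∈ J, d i a ∈ J) ∧ ∀ s : ℕ, X ^ s ∉ J}
  obtain ⟨P, hIP, hPmax⟩ := zorn_le_nonempty₀ S (fun c hc hchain y hy => by
    refine ⟨sSup c, ⟨?_, ?_⟩, fun z hz => le_sSup hz⟩
    · intro i a ha
      rw [Submodule.mem_sSup_of_directed ⟨y, hy⟩ hchain.directedOn] at ha ⊢
      obtain ⟨J, hJ, haJ⟩ := ha
      exact ⟨J, hJ, (hc hJ).1 i a haJ⟩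
    · intro s hs
      rw [Submodule.mem_sSup_of_directed ⟨y, hy⟩ hchain.directedOn] at hs
      obtain ⟨J, hJ, haJ⟩ := hs
      exact (hc hJ).2 s haJ) I ⟨hd, hX⟩
  have hPd : ∀ i, ∀ a ∈ P, d i a ∈ P := hPmax.prop.1
  have hPX : ∀ s : ℕ, X ^ s ∉ P := hPmax.prop.2
  have hmax : ∀ J : Ideal R, P ≤ J → (∀ i, ∀ a ∈ J, d i a ∈ J) → (∀ s : ℕ, X ^ s ∉ J) → J ≤ P := fun J hPJ h1 h2 =>
    hPmax.le_of_ge ⟨h1, h2⟩ hPJ
  -- radical
  have hrad : ∀ a : R, ∀ n : ℕ, a ^ n ∈ P → a ∈ P := by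
    intro a n han
    have h1 : P.radical ≤ P := by
      refine hmax P.radical Ideal.le_radical ?_ ?_
      · rintro i b ⟨m, hm⟩
        exact ⟨2 * m, ritt (d i) (hPd i) hm⟩
      · rintro s ⟨m, hm⟩
        rw [← pow_mul] at hm
        exact hPX _ hm
    exact h1 ⟨n, han⟩
  -- the colon ideals are stable
  have hcol : ∀ b : R, ∀ i, ∀ a, a * b ∈ P → d i a * b ∈ P := by
    intro b i a hab
    have h1 := hPd i _ hab
    rw [Derivation.leibniz, smul_eq_mul, smul_eq_mul] at h1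
    have h2 : (d i a * b) ^ 2 = (a * d i b + b * d i a) * (b * d i a) - d i b * d i a * (a * b) := by ring
    refine hrad _ 2 ?_
    rw [h2]
    exact P.sub_mem (P.mul_mem_right _ h1) (P.mul_mem_left _ hab)
  let Q : R → Ideal R := fun b =>
    { carrier := {a | a * b ∈ P}
      add_mem' := by
        intro x y hx hy
        simp only [Set.mem_ofPred_eq] at hx hy ⊢
        rw [add_mul]
        exact P.add_mem hx hy
      zero_mem' := by simp
      smul_mem' := by
        intro c x hx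
        simp only [Set.mem_ofPred_eq, smul_eq_mul] at hx ⊢
        rw [mul_assoc]
        exact P.mul_mem_left _ hx }
  have hQ : ∀ a b, a ∈ Q b ↔ a * b ∈ P := fun a b => Iff.rfl
  refine ⟨P, hIP, ?_, hPd, hPX⟩
  constructor
  · intro h
    exact hPX 0 (by rw [h]; trivial)
  · intro a b hab
    by_contra hcon
    rw [not_or] at hcon
    obtain ⟨ha, hb⟩ := hcon
    -- `(P : b)` is bigger than `P`, so it contains a power of `X`
    have h1 : ∃ s : ℕ, X ^ s * b ∈ P := by
      by_contra h2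
      push Not at h2
      have h3 := hmax (Q b) (fun x hx => P.mul_mem_right _ hx) (fun i x hx => hcol b i x hx) (fun s hs => h2 s hs)
      exact ha (h3 hab)
    obtain ⟨s, hs⟩ := h1
    have h2 := hmax (Q (X ^ s)) (fun x hx => P.mul_mem_right _ hx) (fun i x hx => hcol (X ^ s) i x hx)
      (fun t ht => hPX (t + s) (by rw [pow_add]; exact ht))
    exact hb (h2 (by rw [hQ, mul_comm]; exact hs))

end

section

variable {k : Type} [Field k]

theorem cf_one : cf 0 0 (1 : P2 k) = 1 := by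
  simp [cf]

theorem isUnit_of_cf {u : P2 k} (hu : cf 0 0 u ≠ 0) : IsUnit u := by
  rw [PowerSeries.isUnit_iff_constantCoeff, PowerSeries.isUnit_iff_constantCoeff]
  refine isUnit_iff_ne_zero.2 ?_
  simpa [cf] using hu

theorem exists_cf {u : P2 k} (hu : u ≠ 0) : ∃ i j, cf i j u ≠ 0 := by
  by_contra hcon
  push Not at hcon
  exact hu (PowerSeries.ext fun j => PowerSeries.ext fun i => by simpa [cf] using hcon i j)

/-- an ideal of power series stable under the partial derivatives is zero or everything -/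
theorem top_of_stable [CharZero k] {D0 D1 : Derivation k (P2 k) (P2 k)} (hD : IsDP k D0 D1)
    (q : Ideal (P2 k)) (h0 : ∀ u ∈ q, D0 u ∈ q) (h1 : ∀ u ∈ q, D1 u ∈ q) :
    ∀ (m i j : ℕ) (u : P2 k), i + j ≤ m → u ∈ q → cf i j u ≠ 0 → q = ⊤ := by
  intro m
  induction m with
  | zero =>
    intro i j u hij hu hc
    obtain ⟨rfl, rfl⟩ : i = 0 ∧ j = 0 := by omega
    exact Ideal.eq_top_of_isUnit_mem q hu (isUnit_of_cf hc)
  | succ m ih =>
    intro i j u hij hu hc
    rcases i with _ | i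
    · rcases j with _ | j
      · exact Ideal.eq_top_of_isUnit_mem q hu (isUnit_of_cf hc)
      · refine ih 0 j (D1 u) (by omega) (h1 u hu) ?_
        rw [hD.c1]
        exact mul_ne_zero (by exact_mod_cast Nat.succ_ne_zero j) hc
    · refine ih i j (D0 u) (by omega) (h0 u hu) ?_
      rw [hD.c0]
      exact mul_ne_zero (by exact_mod_cast Nat.succ_ne_zero i) hc

/-- a prime ideal which contains two elements `p`, `q` with `A / (p, q)` finite dimensional has residue
field `k` -/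
theorem exists_const [IsAlgClosed k] {A : Type} [CommRing A] [Algebra k A] {p q : A}
    (hfin : Fg2 (mu k A p) (mu k A q)) (P : Ideal A) (hP : P.IsPrime) (hp : p ∈ P) (hq : q ∈ P)
    (z : A) : ∃ α : k, z - algebraMap k A α ∈ P := by
  classical
  obtain ⟨ν, b, hb⟩ := hfin
  have hfin' : Module.Finite k (A ⧸ P) := by
    refine ⟨⟨Finset.univ.image fun j => Ideal.Quotient.mk P (b j), ?_⟩⟩
    rw [eq_top_iff]
    rintro x -
    obtain ⟨m, rfl⟩ := Ideal.Quotient.mk_surjective x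
    obtain ⟨r, u, v, hm⟩ := hb m
    have e : Ideal.Quotient.mk P m = ∑ j, r j • Ideal.Quotient.mk P (b j) := by
      have h1 : Ideal.Quotient.mk P (p * u) = 0 := Ideal.Quotient.eq_zero_iff_mem.2 (P.mul_mem_right _ hp)
      have h2 : Ideal.Quotient.mk P (q * v) = 0 := Ideal.Quotient.eq_zero_iff_mem.2 (P.mul_mem_right _ hq)
      have h3 : m = ∑ j, r j • b j + p * u + q * v := hm
      rw [h3, map_add, map_add, h1, h2, add_zero, add_zero, map_sum]
      rfl
    rw [e]
    refine Submodule.sum_mem _ fun j _ => Submodule.smul_mem _ _ (Submodule.subset_span ?_)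
    simp
  have hdom : IsDomain (A ⧸ P) := (Ideal.Quotient.isDomain_iff_prime P).2 hP
  have hint : Algebra.IsIntegral k (A ⧸ P) := Algebra.IsIntegral.of_finite k (A ⧸ P)
  obtain ⟨α, hα⟩ := (IsAlgClosed.algebraMap_bijective_of_isIntegral (k := k) (K := A ⧸ P)).2
    (Ideal.Quotient.mk P z)
  refine ⟨α, Ideal.Quotient.eq_zero_iff_mem.1 ?_⟩
  rw [map_sub, ← hα, sub_eq_zero]
  rfl

end

section

variable {k A : Type} [Field k] [CommRing A] [IsDomain A] [Algebra k A] {X Y J : A}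
  {δ0 δ1 : Derivation k A A}
variable {l : ℕ} {e : Fin l → A} {Ah : Type} [CommRing Ah] [Algebra (P2 k) Ah]
  {b : Module.Basis (Fin l) (P2 k) Ah} {i : A →+* Ah}

theorem isUnit_sub {z : P2 k} (hz : cf 0 0 z = 0) {α : k} (hα : α ≠ 0) : IsUnit (z - pC α) := by
  apply isUnit_of_cf
  have h1 : cf 0 0 (z - pC α) = cf 0 0 z - α := by
    simp [cf, pC]
  rw [h1, hz, zero_sub]
  exact neg_ne_zero.2 hα

theorem stab_aux [CharZero k] [IsAlgClosed k] [UniqueFactorizationMonoid A]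
    (hE : Env2 k X Y J δ0 δ1) (h : Hat k X Y e Ah b i) {D0 D1 : Derivation k (P2 k) (P2 k)}
    (hD : IsDP k D0 D1) {E0 E1 : Derivation ℤ Ah Ah} (hh : HatDer k i J δ0 δ1 D0 D1 E0 E1)
    (I : Ideal Ah) (h0 : ∀ a ∈ I, E0 a ∈ I) (h1 : ∀ a ∈ I, E1 a ∈ I)
    (hn : ∃ n : P2 k, n ≠ 0 ∧ algebraMap (P2 k) Ah n ∈ I) (Z : A) (z : P2 k)
    (hZ : i Z = algebraMap (P2 k) Ah z) (hz : cf 0 0 z = 0)
    (hgeo : ∀ p : A, Prime p → p ∣ δ0 p → p ∣ δ1 p → ∃ α : k, p ∣ Z - algebraMap k A α) :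
    ∃ s : ℕ, algebraMap (P2 k) Ah z ^ s ∈ I := by
  by_contra hcon
  push Not at hcon
  let _ : Algebra ℚ Ah := ((algebraMap (P2 k) Ah).comp (algebraMap ℚ (P2 k))).toAlgebra
  obtain ⟨P, hIP, hP, hst, hPz⟩ := exists_stable_prime (fun t : Bool => if t then E0 else E1)
    (algebraMap (P2 k) Ah z) I (fun t a ha => by
      cases t
      · exact h1 a ha
      · exact h0 a ha) hcon
  have hs0 : ∀ a ∈ P, E0 a ∈ P := fun a ha => hst true a ha
  have hs1 : ∀ a ∈ P, E1 a ∈ P := fun a ha => hst false a ha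
  -- no `Z - α` is in `P`
  have hno : ∀ α : k, Z - algebraMap k A α ∈ P.comap i → False := by
    intro α hα
    rw [Ideal.mem_comap, map_sub, hZ, h.iC, ← map_sub] at hα
    by_cases h2 : α = 0
    · rw [h2] at hα
      have h3 : (pC (0 : k) : P2 k) = 0 := by simp [pC]
      rw [h3, sub_zero] at hα
      exact hPz 1 (by rwa [pow_one])
    · exact hP.ne_top (Ideal.eq_top_of_isUnit_mem P hα ((isUnit_sub hz h2).map _))
  by_cases hJ : i J ∈ P
  · -- `P ∩ A` is a nonzero prime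
    have hP' : (P.comap i).IsPrime := Ideal.IsPrime.comap i
    have hne : P.comap i ≠ ⊥ := by
      intro h2
      have h3 : J ∈ P.comap i := hJ
      rw [h2, Ideal.mem_bot] at h3
      exact hE.Jne h3
    obtain ⟨p, hpP, hp⟩ := hP'.exists_mem_prime_of_ne_bot hne
    by_cases hall : ∀ q ∈ P.comap i, p ∣ q
    · have h2 : δ0 p ∈ P.comap i := by
        rw [Ideal.mem_comap, ← hh.i0]
        exact hs0 _ hpP
      have h3 : δ1 p ∈ P.comap i := by
        rw [Ideal.mem_comap, ← hh.i1]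
        exact hs1 _ hpP
      obtain ⟨α, hα⟩ := hgeo p hp (hall _ h2) (hall _ h3)
      exact hno α (Ideal.mem_of_dvd _ hα hpP)
    · push Not at hall
      obtain ⟨q, hq, hpq⟩ := hall
      obtain ⟨α, hα⟩ := exists_const (hE.fin2 p q hp hpq) (P.comap i) hP' hpP hq Z
      exact hno α hα
  · -- `P ∩ P2` is stable under the partial derivatives
    obtain ⟨n, hn0, hnI⟩ := hn
    obtain ⟨s, t, hst'⟩ := exists_cf hn0
    have htop := top_of_stable hD (P.comap (algebraMap (P2 k) Ah)) (fun u hu => by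
      have h2 := hs0 _ hu
      rw [hh.u0] at h2
      exact (hP.mem_or_mem h2).resolve_right hJ) (fun u hu => by
      have h2 := hs1 _ hu
      rw [hh.u1] at h2
      exact (hP.mem_or_mem h2).resolve_right hJ) (s + t) s t n le_rfl (hIP hnI) hst'
    have h2 : (1 : P2 k) ∈ P.comap (algebraMap (P2 k) Ah) := by rw [htop]; trivial
    rw [Ideal.mem_comap, map_one] at h2
    exact hP.ne_top (P.eq_top_iff_one.2 h2)

end

end Del1

section

variable {k A : Type} [Field k] [CommRing A] [IsDomain A] [Algebra k A] {X Y J : A}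
  {δ0 δ1 : Derivation k A A}
variable {l : ℕ} {e : Fin l → A} {Ah : Type} [CommRing Ah] [Algebra (P2 k) Ah]
  {b : Module.Basis (Fin l) (P2 k) Ah} {i : A →+* Ah}

/-- Del1 -/
theorem stab_pow [CharZero k] [IsAlgClosed k] [UniqueFactorizationMonoid A]
    (hE : Env2 k X Y J δ0 δ1) (h : Hat k X Y e Ah b i) {D0 D1 : Derivation k (P2 k) (P2 k)}
    (hD : IsDP k D0 D1) {E0 E1 : Derivation ℤ Ah Ah} (hh : HatDer k i J δ0 δ1 D0 D1 E0 E1)
    (I : Ideal Ah) (h0 : ∀ a ∈ I, E0 a ∈ I) (h1 : ∀ a ∈ I, E1 a ∈ I)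
    (hn : ∃ n : P2 k, n ≠ 0 ∧ algebraMap (P2 k) Ah n ∈ I) :
    (∃ s : ℕ, algebraMap (P2 k) Ah pX ^ s ∈ I) ∧ ∃ s : ℕ, algebraMap (P2 k) Ah pY ^ s ∈ I := by
  refine ⟨Del1.stab_aux hE h hD hh I h0 h1 hn X pX h.iX (by simp [cf, pX]) fun p hp h2 h3 => ?_,
    Del1.stab_aux hE h hD hh I h0 h1 hn Y pY h.iY (by simp [cf, pY]) fun p hp h2 h3 => ?_⟩
  · obtain ⟨α, β, hα, -⟩ := hE.geo p hp h2 h3
    exact ⟨α, hα⟩
  · obtain ⟨α, β, -, hβ⟩ := hE.geo p hp h2 h3
    exact ⟨β, hβ⟩

end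

end Pool.Agent.MIY
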