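import Pool.Agent.MIY.Chn

set_option autoImplicit false

open Polynomial

namespace Pool.Agent.MIY

open Pool.Agent.LNDF Pool.Agent.LNDHom

variable {k : Type} [Field k] [CharZero k] {D : Derivation k (B3 k) (B3 k)}
  {X Y : kerAlg D} {δ0 δ1 : Derivation k (kerAlg D) (kerAlg D)}
  {r : B3 k} {c : kerAlg D} {K : Type} [Field K] [Algebra (kerAlg D) K]
  [IsFractionRing (kerAlg D) K] [Algebra k K] [IsScalarTower k (kerAlg D) K] {ι : B3 k →ₐ[k] K[X]}
  {d0 d1 : Derivation k K K}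

/-- Div2: Cramer -/
theorem cramer (hD : LN D) (hι : Iot D r c K ι) (hB : Brk D X Y δ0 δ1) (hJ : δ0 X ≠ 0)
    (hd : Kd K (δ0 X) δ0 δ1 d0 d1) (b : B3 k) :
    ι (jac3 b Y r) = C (algebraMap (kerAlg D) K (δ0 X * c)) * mc d0 (ι b) ∧
    ι (jac3 (X : B3 k) b r) = C (algebraMap (kerAlg D) K (δ0 X * c)) * mc d1 (ι b) ∧
    ι (jac3 (X : B3 k) Y b) = C (algebraMap (kerAlg D) K (δ0 X * c)) * derivative (ι b) := by
  have e0 := chain hD hι hB hJ hd 0 b
  have e1 := chain hD hι hB hJ hd 1 b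
  have e2 := chain hD hι hB hJ hd 2 b
  have hC : C (algebraMap (kerAlg D) K (δ0 X * c)) = ι (jac3 (X : B3 k) Y r) := by
    rw [jac_r hι hB, hι.ev]
  rw [hC]
  simp only [vf] at e0 e1 e2
  simp only [jac3, Matrix.det_fin_three]
  simp only [Matrix.of_apply, Matrix.cons_val', Matrix.cons_val_zero, Matrix.cons_val_one,
      Matrix.cons_val, Matrix.cons_val_fin_one, map_add, map_sub, map_mul]
  rw [e0, e1, e2]
  refine ⟨by ring, by ring, by ring⟩

/-- Div2: divergence -/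
theorem divg (hD : LN D) (hι : Iot D r c K ι) (hB : Brk D X Y δ0 δ1) (hJ : δ0 X ≠ 0)
    (hd : Kd K (δ0 X) δ0 δ1 d0 d1) :
    C (algebraMap (kerAlg D) K (δ0 X * c)) * (mc d0 (ι (MvPolynomial.pderiv 0 (X : B3 k))) +
      mc d1 (ι (MvPolynomial.pderiv 0 (Y : B3 k))) + derivative (ι (MvPolynomial.pderiv 0 r))) =
    ι (MvPolynomial.pderiv 0 (X : B3 k)) * C (d0 (algebraMap (kerAlg D) K (δ0 X * c))) +
      ι (MvPolynomial.pderiv 0 (Y : B3 k)) * C (d1 (algebraMap (kerAlg D) K (δ0 X * c))) := by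
  have h1 : MvPolynomial.pderiv 0 (jac3 (X : B3 k) Y r) = jac3 (MvPolynomial.pderiv 0 (X : B3 k)) Y r +
      jac3 (X : B3 k) (MvPolynomial.pderiv 0 (Y : B3 k)) r +
      jac3 (X : B3 k) Y (MvPolynomial.pderiv 0 r) := by
    simp only [jac3, Matrix.det_fin_three]
    simp only [Matrix.of_apply, Matrix.cons_val', Matrix.cons_val_zero, Matrix.cons_val_one,
      Matrix.cons_val, Matrix.cons_val_fin_one, map_add, map_sub, jacA_pd_leib]
    rw [jacA_comm 1 0 (X : B3 k), jacA_comm 2 0 (X : B3 k), jacA_comm 1 0 (Y : B3 k),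
      jacA_comm 2 0 (Y : B3 k), jacA_comm 1 0 r, jacA_comm 2 0 r]
    ring
  have h2 : ι (MvPolynomial.pderiv 0 ((δ0 X * c : kerAlg D) : B3 k)) =
      ι (MvPolynomial.pderiv 0 (X : B3 k)) * C (d0 (algebraMap (kerAlg D) K (δ0 X * c))) +
      ι (MvPolynomial.pderiv 0 (Y : B3 k)) * C (d1 (algebraMap (kerAlg D) K (δ0 X * c))) := by
    rw [chain hD hι hB hJ hd 0 ((δ0 X * c : kerAlg D) : B3 k), hι.ev]
    simp only [vf]
    rw [mc_C, mc_C, derivative_C]
    ring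
  rw [← h2, ← jac_r hι hB, h1, map_add, map_add,
    (cramer hD hι hB hJ hd (MvPolynomial.pderiv 0 (X : B3 k))).1,
    (cramer hD hι hB hJ hd (MvPolynomial.pderiv 0 (Y : B3 k))).2.1,
    (cramer hD hι hB hJ hd (MvPolynomial.pderiv 0 r)).2.2]
  ring

end Pool.Agent.MIY
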