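import Pool.Agent.MIY.Defs
import Pool.Agent.MIY.Cmp
import Pool.Agent.MIY.CmU

/-!
# MIY/Dual: the duality step modulo `(X ^ N, Y ^ N)` (58)
-/

set_option autoImplicit false

namespace Pool.Agent.MIY

open Pool.Agent.LNDF

namespace Du

section Series

variable {k : Type} [Field k]

theorem cf_add (i j : ℕ) (u v : P2 k) : cf i j (u + v) = cf i j u + cf i j v := by simp [cf]

theorem cf_sub (i j : ℕ) (u v : P2 k) : cf i j (u - v) = cf i j u - cf i j v := by simp [cf]

theorem cf_zero (i j : ℕ) : cf i j (0 : P2 k) = 0 := by simp [cf]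

theorem cf_smul (i j : ℕ) (r : k) (u : P2 k) : cf i j (r • u) = r * cf i j u := by
  simp [cf]

theorem cf_sum {ι : Type*} (s : Finset ι) (i j : ℕ) (u : ι → P2 k) :
    cf i j (∑ t ∈ s, u t) = ∑ t ∈ s, cf i j (u t) := by simp [cf, map_sum]

theorem cf_pX_pow_mul (i j p : ℕ) (u : P2 k) : cf i j (pX ^ p * u) = if p ≤ i then cf (i - p) j u else 0 := by
  rw [cf, pX, ← map_pow, PowerSeries.coeff_C_mul, PowerSeries.coeff_X_pow_mul']
  rfl

theorem cf_pY_pow_mul (i j q : ℕ) (u : P2 k) : cf i j (pY ^ q * u) = if q ≤ j then cf i (j - q) u else 0 := by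
  rw [cf, pY, PowerSeries.coeff_X_pow_mul']
  split_ifs
  · rfl
  · simp

theorem cf_mul (i j : ℕ) (u v : P2 k) : cf i j (u * v) =
    ∑ p ∈ Finset.HasAntidiagonal.antidiagonal j, ∑ q ∈ Finset.HasAntidiagonal.antidiagonal i,
      cf q.1 p.1 u * cf q.2 p.2 v := by
  rw [cf, PowerSeries.coeff_mul, map_sum]
  refine Finset.sum_congr rfl fun p _ => ?_
  rw [PowerSeries.coeff_mul]
  rfl

theorem Van.add {n : ℕ} {u v : P2 k} (hu : Van n u) (hv : Van n v) : Van n (u + v) := fun i j hi hj => by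
  rw [cf_add, hu i j hi hj, hv i j hi hj, add_zero]

theorem Van.zero {n : ℕ} : Van n (0 : P2 k) := fun i j _ _ => cf_zero i j

theorem Van.mul_left {n : ℕ} (u : P2 k) {v : P2 k} (hv : Van n v) : Van n (u * v) := fun i j hi hj => by
  rw [cf_mul]
  refine Finset.sum_eq_zero fun p hp => Finset.sum_eq_zero fun q hq => ?_
  rw [Finset.HasAntidiagonal.mem_antidiagonal] at hp hq
  rw [hv q.2 p.2 (by omega) (by omega), mul_zero]

theorem Van.neg {n : ℕ} {v : P2 k} (hv : Van n v) : Van n (-v) := by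
  have := Van.mul_left (-1) hv
  rwa [neg_one_mul] at this

theorem Van.sub {n : ℕ} {u v : P2 k} (hu : Van n u) (hv : Van n v) : Van n (u - v) := by
  rw [sub_eq_add_neg]
  exact Van.add hu (Van.neg hv)

theorem Van.sum {n : ℕ} {ι : Type*} (s : Finset ι) (u : ι → P2 k) (h : ∀ t ∈ s, Van n (u t)) :
    Van n (∑ t ∈ s, u t) := fun i j hi hj => by
  rw [cf_sum]
  exact Finset.sum_eq_zero fun t ht => h t ht i j hi hj

/-- truncations -/
theorem van_trunc (n : ℕ) (c : P2 k) : Van n ((∑ p ∈ Finset.range n, ∑ q ∈ Finset.range n,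
    cf p q c • (pX ^ p * (pY ^ q * (1 : P2 k)))) - c) := by
  intro i j hi hj
  rw [cf_sub, cf_sum, Finset.sum_eq_single i, cf_sum, Finset.sum_eq_single j]
  · rw [cf_smul, cf_pX_pow_mul, if_pos le_rfl, cf_pY_pow_mul, if_pos le_rfl, Nat.sub_self, Nat.sub_self]
    have : cf 0 0 (1 : P2 k) = 1 := by simp [cf]
    rw [this]
    ring
  · intro q _ hq
    rw [cf_smul, cf_pX_pow_mul, if_pos le_rfl, cf_pY_pow_mul]
    split_ifs with h
    · have : cf (i - i) (j - q) (1 : P2 k) = 0 := by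
        have h2 : j - q ≠ 0 := by omega
        simp [cf, PowerSeries.coeff_one, h2]
      rw [this, mul_zero]
    · rw [mul_zero]
  · intro h
    exact absurd (Finset.mem_range.2 hj) h
  · intro p _ hp
    rw [cf_sum]
    refine Finset.sum_eq_zero fun q _ => ?_
    rw [cf_smul, cf_pX_pow_mul]
    split_ifs with h
    · rw [cf_pY_pow_mul]
      split_ifs with h'
      · have : cf (i - p) (j - q) (1 : P2 k) = 0 := by
          have h2 : i - p ≠ 0 := by omega
          rw [cf, PowerSeries.coeff_one]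
          split_ifs
          · rw [PowerSeries.coeff_one, if_neg h2]
          · simp
        rw [this, mul_zero]
      · rw [mul_zero]
    · rw [mul_zero]
  · intro h
    exact absurd (Finset.mem_range.2 hi) h

end Series

section Mod

variable {k : Type} [Field k]

theorem Cm.univ1 {M : Type} [AddCommGroup M] [Module k M] {x y : M →ₗ[k] M} {ν : ℕ} {b : Fin ν → M}
    {κ : M →ₗ[k] (Fin ν → P2 k)} (h : Cm x y b κ) (L : M →ₗ[k] P2 k) (hx : ∀ a, L (x a) = pX * L a)
    (hy : ∀ a, L (y a) = pY * L a) (a : M) : L a = ∑ j, κ a j * L (b j) := by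
  let ψ : M →ₗ[k] (Fin 1 → P2 k) := LinearMap.pi fun _ => L
  exact Cm.univ h ψ (fun a _ => hx a) (fun a _ => hy a) a 0

theorem Cm.mx_pow {M : Type} [AddCommGroup M] [Module k M] {x y : M →ₗ[k] M} {ν : ℕ} {b : Fin ν → M}
    {κ : M →ₗ[k] (Fin ν → P2 k)} (h : Cm x y b κ) (n : ℕ) (a : M) (j : Fin ν) :
    κ ((x ^ n) a) j = pX ^ n * κ a j := by
  induction n generalizing a with
  | zero => simp
  | succ n ih =>
    rw [pow_succ, Module.End.mul_apply, ih, h.mx, pow_succ]
    ring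

theorem Cm.my_pow {M : Type} [AddCommGroup M] [Module k M] {x y : M →ₗ[k] M} {ν : ℕ} {b : Fin ν → M}
    {κ : M →ₗ[k] (Fin ν → P2 k)} (h : Cm x y b κ) (n : ℕ) (a : M) (j : Fin ν) :
    κ ((y ^ n) a) j = pY ^ n * κ a j := by
  induction n generalizing a with
  | zero => simp
  | succ n ih =>
    rw [pow_succ, Module.End.mul_apply, ih, h.my, pow_succ]
    ring

/-- density -/
theorem Cm.dense {M : Type} [AddCommGroup M] [Module k M] {x y : M →ₗ[k] M} {ν : ℕ} {b : Fin ν → M}
    {κ : M →ₗ[k] (Fin ν → P2 k)} (h : Cm x y b κ) (n : ℕ) (c : Fin ν → P2 k) :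
    ∃ w : M, ∀ i, Van n (κ w i - c i) := by
  classical
  refine ⟨∑ j, ∑ p ∈ Finset.range n, ∑ q ∈ Finset.range n, cf p q (c j) • (x ^ p) ((y ^ q) (b j)), fun i => ?_⟩
  have h1 : κ (∑ j, ∑ p ∈ Finset.range n, ∑ q ∈ Finset.range n, cf p q (c j) • (x ^ p) ((y ^ q) (b j))) i =
      ∑ p ∈ Finset.range n, ∑ q ∈ Finset.range n, cf p q (c i) • (pX ^ p * (pY ^ q * (1 : P2 k))) := by
    rw [map_sum, Finset.sum_apply, Finset.sum_eq_single i]
    · rw [map_sum, Finset.sum_apply]
      refine Finset.sum_congr rfl fun p _ => ?_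
      rw [map_sum, Finset.sum_apply]
      refine Finset.sum_congr rfl fun q _ => ?_
      rw [map_smul, Pi.smul_apply, Cm.mx_pow h, Cm.my_pow h, h.base, Pi.single_eq_same]
    · intro j _ hj
      rw [map_sum, Finset.sum_apply]
      refine Finset.sum_eq_zero fun p _ => ?_
      rw [map_sum, Finset.sum_apply]
      refine Finset.sum_eq_zero fun q _ => ?_
      rw [map_smul, Pi.smul_apply, Cm.mx_pow h, Cm.my_pow h, h.base, Pi.single_eq_of_ne hj.symm, mul_zero, mul_zero,
        smul_zero]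
    · intro h
      exact absurd (Finset.mem_univ i) h
  rw [h1]
  exact van_trunc n (c i)

theorem mu_apply {A M : Type} [CommRing A] [Algebra k A] [AddCommGroup M] [Module k M] [Module A M]
    [IsScalarTower k A M] (a : A) (m : M) : mu k M a m = a • m := rfl

theorem mu_pow {A M : Type} [CommRing A] [Algebra k A] [AddCommGroup M] [Module k M] [Module A M]
    [IsScalarTower k A M] (a : A) (n : ℕ) (m : M) : (mu k M a ^ n) m = a ^ n • m := by
  induction n generalizing m with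
  | zero => simp
  | succ n ih => rw [pow_succ, Module.End.mul_apply, ih, mu_apply, pow_succ, mul_smul]

end Mod

section Tau

variable {k A : Type} [Field k] [CommRing A] [IsDomain A] [Algebra k A] {X Y : A} {τ : A →ₗ[k] P2 k}

theorem tX_pow (tX : ∀ a, τ (X * a) = pX * τ a) (n : ℕ) (a : A) : τ (X ^ n * a) = pX ^ n * τ a := by
  induction n generalizing a with
  | zero => simp
  | succ n ih => rw [pow_succ, mul_assoc, ih, tX, pow_succ]; ring

theorem tY_pow (tY : ∀ a, τ (Y * a) = pY * τ a) (n : ℕ) (a : A) : τ (Y ^ n * a) = pY ^ n * τ a := by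
  induction n generalizing a with
  | zero => simp
  | succ n ih => rw [pow_succ, mul_assoc, ih, tY, pow_succ]; ring

/-- `a ↦ τ (c a)` -/
noncomputable def tm (τ : A →ₗ[k] P2 k) (c : A) : A →ₗ[k] P2 k := τ ∘ₗ LinearMap.mulLeft k c

theorem tm_apply (c a : A) : tm τ c a = τ (c * a) := rfl

variable (tX : ∀ a, τ (X * a) = pX * τ a) (tY : ∀ a, τ (Y * a) = pY * τ a) {l : ℕ} {e : Fin l → A}
  {κ : A →ₗ[k] (Fin l → P2 k)} (hκ : Cm (mu k A X) (mu k A Y) e κ)
  (hT : IsUnit (Matrix.det (Matrix.of fun i j : Fin l => τ (e i * e j))))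

include tX tY hκ

theorem exp_tau (c a : A) : τ (c * a) = ∑ j, κ a j * τ (c * e j) := by
  have h := Cm.univ1 hκ (tm τ c) (fun a => by
    rw [tm_apply, tm_apply, mu_apply, smul_eq_mul, ← tX]
    congr 1
    ring) (fun a => by
    rw [tm_apply, tm_apply, mu_apply, smul_eq_mul, ← tY]
    congr 1
    ring) a
  simpa only [tm_apply] using h

include hT

/-- perfectness, part 1 -/
theorem sat_tau (N : ℕ) (a : A) (ha : ∀ c, Van N (τ (c * a))) : ∃ u v : A, a = X ^ N * u + Y ^ N * v := by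
  classical
  set T : Matrix (Fin l) (Fin l) (P2 k) := Matrix.of fun i j : Fin l => τ (e i * e j) with hTdef
  have h1 : T.mulVec (κ a) = fun i => τ (e i * a) := by
    funext i
    rw [exp_tau tX tY hκ (e i) a]
    simp only [Matrix.mulVec, dotProduct, hTdef, Matrix.of_apply]
    exact Finset.sum_congr rfl fun j _ => mul_comm _ _
  have h2 : κ a = T⁻¹.mulVec fun i => τ (e i * a) := by
    rw [← h1, Matrix.mulVec_mulVec, Matrix.nonsing_inv_mul _ hT, Matrix.one_mulVec]
  obtain ⟨u, v, h⟩ := hκ.sat N a (fun j => by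
    rw [h2]
    simp only [Matrix.mulVec, dotProduct]
    exact Van.sum _ _ fun i _ => Van.mul_left _ (ha (e i)))
  refine ⟨u, v, ?_⟩
  rw [h, mu_pow, mu_pow, smul_eq_mul, smul_eq_mul]

/-- perfectness, part 2 -/
theorem rep_tau (N : ℕ) (ψ : A →ₗ[k] P2 k) (hx : ∀ a, ψ (X * a) = pX * ψ a) (hy : ∀ a, ψ (Y * a) = pY * ψ a) :
    ∃ w : A, ∀ a, Van N (ψ a - τ (a * w)) := by
  classical
  set T : Matrix (Fin l) (Fin l) (P2 k) := Matrix.of fun i j : Fin l => τ (e i * e j) with hTdef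
  set c : Fin l → P2 k := T⁻¹.mulVec fun i => ψ (e i) with hc
  have h1 : T.mulVec c = fun i => ψ (e i) := by
    rw [hc, Matrix.mulVec_mulVec, Matrix.mul_nonsing_inv _ hT, Matrix.one_mulVec]
  obtain ⟨w, hw⟩ := Cm.dense hκ N c
  refine ⟨w, fun a => ?_⟩
  have h2 : ψ a = ∑ j, κ a j * ψ (e j) := Cm.univ1 hκ ψ (fun a => hx a) (fun a => hy a) a
  have h3 : τ (a * w) = ∑ j, κ a j * τ (e j * w) := by
    rw [mul_comm a w, exp_tau tX tY hκ w a]
    exact Finset.sum_congr rfl fun j _ => by rw [mul_comm w]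
  have h4 : ψ a - τ (a * w) = ∑ j, κ a j * (ψ (e j) - τ (e j * w)) := by
    rw [h2, h3, ← Finset.sum_sub_distrib]
    exact Finset.sum_congr rfl fun j _ => by ring
  rw [h4]
  refine Van.sum _ _ fun j _ => Van.mul_left _ ?_
  have h5 : ψ (e j) - τ (e j * w) = ∑ i, (- τ (e j * e i)) * (κ w i - c i) := by
    rw [exp_tau tX tY hκ (e j) w]
    have h6 := congrFun h1 j
    simp only [Matrix.mulVec, dotProduct, hTdef, Matrix.of_apply] at h6
    rw [← h6, ← Finset.sum_sub_distrib]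
    exact Finset.sum_congr rfl fun i _ => by ring
  rw [h5]
  exact Van.sum _ _ fun i _ => Van.mul_left _ (hw i)

end Tau

section Pair

variable {k A : Type} [Field k] [CommRing A] [IsDomain A] [Algebra k A] {X Y : A} {τ : A →ₗ[k] P2 k}
  (tX : ∀ a, τ (X * a) = pX * τ a) (tY : ∀ a, τ (Y * a) = pY * τ a) {l : ℕ} {e : Fin l → A}
  {κ : A →ₗ[k] (Fin l → P2 k)} (hκ : Cm (mu k A X) (mu k A Y) e κ)
  (hT : IsUnit (Matrix.det (Matrix.of fun i j : Fin l => τ (e i * e j))))
  {F G : Type} [AddCommGroup F] [AddCommGroup G] [Module k F] [Module k G] [Module A F]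
    [Module A G] [IsScalarTower k A F] [IsScalarTower k A G] (β : F →ₗ[A] G →ₗ[A] A)

include tX tY hκ hT

/-- functionals on `F` are given by elements of `G`, up to a factor `Z ^ n` (`Z = X` or `Z = Y`) -/
theorem rep_pair (N n : ℕ) {Z : A} {pZ : P2 k} (hZ0 : Z ≠ 0) (r : ℕ) (f : Fin r → F) (g : Fin r → G)
    (hfg : ∀ i j, β (f i) (g j) = if i = j then Z ^ n else 0)
    (hsp : ∀ x : F, ∃ a : Fin r → A, Z ^ n • x = ∑ i, a i • f i)
    (φ : F →ₗ[k] P2 k) (hx : ∀ a, φ (X • a) = pX * φ a) (hy : ∀ a, φ (Y • a) = pY * φ a)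
    (hz : ∀ a, φ (Z ^ n • a) = pZ * φ a) :
    ∃ W : G, ∀ b, Van N (pZ * φ b - τ (β b W)) := by
  classical
  have h1 : ∀ j, ∃ w : A, ∀ a, Van N (φ (a • f j) - τ (a * w)) := by
    intro j
    let ψ : A →ₗ[k] P2 k := φ ∘ₗ ((LinearMap.toSpanSingleton A F (f j)).restrictScalars k)
    have hψ : ∀ a, ψ a = φ (a • f j) := fun a => rfl
    obtain ⟨w, hw⟩ := rep_tau tX tY hκ hT N ψ (fun a => by rw [hψ, hψ, mul_smul, hx])
      (fun a => by rw [hψ, hψ, mul_smul, hy])
    exact ⟨w, fun a => by rw [← hψ]; exact hw a⟩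
  choose w hw using h1
  refine ⟨∑ j, w j • g j, fun b => ?_⟩
  obtain ⟨a, ha⟩ := hsp b
  have h2 : ∀ j, a j = β b (g j) := by
    intro j
    have h3 : β (Z ^ n • b) (g j) = Z ^ n * a j := by
      rw [ha, map_sum, LinearMap.sum_apply, Finset.sum_eq_single j]
      · rw [map_smul, LinearMap.smul_apply, hfg, if_pos rfl, smul_eq_mul, mul_comm]
      · intro i _ hi
        rw [map_smul, LinearMap.smul_apply, hfg, if_neg hi, smul_zero]
      · intro h
        exact absurd (Finset.mem_univ j) h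
    rw [map_smul, LinearMap.smul_apply, smul_eq_mul] at h3
    exact (mul_left_cancel₀ (pow_ne_zero n hZ0) h3).symm
  have h3 : pZ * φ b - τ (β b (∑ j, w j • g j)) = ∑ j, (φ (a j • f j) - τ (a j * w j)) := by
    rw [← hz, ha, map_sum, map_sum, map_sum, ← Finset.sum_sub_distrib]
    refine Finset.sum_congr rfl fun j _ => ?_
    rw [(β b).map_smul, smul_eq_mul, ← h2, mul_comm (w j)]
  rw [h3]
  exact Van.sum _ _ fun j _ => hw j (a j)

end Pair


/-- the duality step -/
theorem dual {k A : Type} [Field k] [CommRing A] [IsDomain A] [Algebra k A] {X Y : A}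
    (τ : A →ₗ[k] P2 k) (tX : ∀ a, τ (X * a) = pX * τ a) (tY : ∀ a, τ (Y * a) = pY * τ a)
    (hAf : Fg2 (mu k A X) (mu k A Y)) (hAr : Reg2 (mu k A X) (mu k A Y))
    (gram : ∀ {l : ℕ} (e : Fin l → A), LB (mu k A X) (mu k A Y) e →
      IsUnit (Matrix.det (Matrix.of fun i j : Fin l => τ (e i * e j))))
    {F G : Type} [AddCommGroup F] [AddCommGroup G] [Module k F] [Module k G] [Module A F]
    [Module A G] [IsScalarTower k A F] [IsScalarTower k A G] (β : F →ₗ[A] G →ₗ[A] A)
    (hFr : Reg2 (mu k F X) (mu k F Y)) (hFf : Fg2 (mu k F X) (mu k F Y))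
    (hGX : ∀ g : G, X • g = 0 → g = 0) (hGY : ∀ g : G, Y • g = 0 → g = 0) (G' : Submodule A G)
    (hker : ∀ g, g ∈ G' ↔ ∀ b, β b g = 0) (n : ℕ)
    (hX : ∃ (r : ℕ) (f : Fin r → F) (g : Fin r → G),
      (∀ i j, β (f i) (g j) = if i = j then X ^ n else 0) ∧
      ∀ x : F, ∃ a : Fin r → A, X ^ n • x = ∑ i, a i • f i)
    (hY : ∃ (r : ℕ) (f : Fin r → F) (g : Fin r → G),
      (∀ i j, β (f i) (g j) = if i = j then Y ^ n else 0) ∧
      ∀ x : F, ∃ a : Fin r → A, Y ^ n • x = ∑ i, a i • f i)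
    (s : G) (hs : ∀ b, ∃ u v : A, β b s = X ^ n * u + Y ^ n * v) :
    ∃ (m : ℕ) (g' : G) (u v : G), g' ∈ G' ∧
      (X * Y) ^ m • s = g' + X ^ (n + m) • u + Y ^ (n + m) • v := by
  classical
  obtain ⟨l, e, he⟩ := exists_lb hAf
  obtain ⟨κ, hκ⟩ := exists_cm hAr he
  have hT := gram e he
  obtain ⟨ν, b, hb⟩ := exists_lb hFf
  obtain ⟨κF, hκF⟩ := exists_cm hFr hb
  have hX0 : X ≠ 0 := by
    rintro rfl
    have h := hAr.inj 1 (by rw [mu_apply, zero_smul])
    exact one_ne_zero h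
  obtain ⟨rX, fX, gX, hfgX, hspX⟩ := hX
  obtain ⟨rY, fY, gY, hfgY, hspY⟩ := hY
  -- the functionals
  choose u0 v0 huv using fun j => hs (b j)
  let Φ : (Fin ν → P2 k) → (F →ₗ[k] P2 k) := fun c =>
    { toFun := fun z => ∑ j, κF z j * c j
      map_add' := fun z w => by
        rw [← Finset.sum_add_distrib]
        exact Finset.sum_congr rfl fun j _ => by rw [map_add, Pi.add_apply, add_mul]
      map_smul' := fun r z => by
        rw [RingHom.id_apply, Finset.smul_sum]
        exact Finset.sum_congr rfl fun j _ => by rw [map_smul, Pi.smul_apply, smul_mul_assoc] }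
  have hΦ : ∀ c z, Φ c z = ∑ j, κF z j * c j := fun c z => rfl
  have hΦx : ∀ c z, Φ c (X • z) = pX * Φ c z := fun c z => by
    rw [hΦ, hΦ, Finset.mul_sum]
    exact Finset.sum_congr rfl fun j _ => by rw [← mu_apply (k := k), hκF.mx]; ring
  have hΦy : ∀ c z, Φ c (Y • z) = pY * Φ c z := fun c z => by
    rw [hΦ, hΦ, Finset.mul_sum]
    exact Finset.sum_congr rfl fun j _ => by rw [← mu_apply (k := k), hκF.my]; ring
  have hΦxn : ∀ c z, Φ c (X ^ n • z) = pX ^ n * Φ c z := fun c z => by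
    rw [hΦ, hΦ, Finset.mul_sum]
    exact Finset.sum_congr rfl fun j _ => by rw [← mu_pow (k := k), Cm.mx_pow hκF]; ring
  have hΦyn : ∀ c z, Φ c (Y ^ n • z) = pY ^ n * Φ c z := fun c z => by
    rw [hΦ, hΦ, Finset.mul_sum]
    exact Finset.sum_congr rfl fun j _ => by rw [← mu_pow (k := k), Cm.my_pow hκF]; ring
  set φx := Φ fun j => τ (u0 j) with hφx
  set φy := Φ fun j => τ (v0 j) with hφy
  have hsum : ∀ z, τ (β z s) = pX ^ n * φx z + pY ^ n * φy z := by
    intro z
    let L : F →ₗ[k] P2 k :=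
      { toFun := fun z => τ (β z s)
        map_add' := fun z w => by rw [map_add, LinearMap.add_apply, map_add]
        map_smul' := fun r z => by
          rw [RingHom.id_apply, ← algebraMap_smul A r z, map_smul, LinearMap.smul_apply, algebraMap_smul, map_smul] }
    have hL : ∀ z, L z = τ (β z s) := fun z => rfl
    have h1 := Cm.univ1 hκF L (fun a => by
        rw [hL, hL, mu_apply, map_smul, LinearMap.smul_apply, smul_eq_mul, tX])
      (fun a => by rw [hL, hL, mu_apply, map_smul, LinearMap.smul_apply, smul_eq_mul, tY]) z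
    rw [← hL, h1, hφx, hφy, hΦ, hΦ, Finset.mul_sum, Finset.mul_sum, ← Finset.sum_add_distrib]
    refine Finset.sum_congr rfl fun j _ => ?_
    rw [hL, huv, map_add, tX_pow tX, tY_pow tY]
    ring
  -- `W` for `φy` over `X`, `W'` for `φx` over `Y`
  rcases eq_or_ne Y 0 with rfl | hY0
  · obtain ⟨c, hc⟩ := hAr.reg 1 0 (by rw [map_zero, mu_apply, zero_smul])
    rw [mu_apply, smul_eq_mul] at hc
    refine ⟨0, 0, c ^ n • s, 0, G'.zero_mem, ?_⟩
    rw [smul_zero, add_zero, zero_add, add_zero, pow_zero, smul_smul, ← mul_pow, ← hc, one_pow]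
  set N := 3 * n with hN
  obtain ⟨W, hW⟩ := rep_pair tX tY hκ hT β N n (pZ := pX ^ n) hX0 rX fX gX hfgX hspX φy (hΦx _) (hΦy _) (hΦxn _)
  obtain ⟨W', hW'⟩ := rep_pair tX tY hκ hT β N n (pZ := pY ^ n) hY0 rY fY gY hfgY hspY φx (hΦx _) (hΦy _) (hΦyn _)
  set z := (X * Y) ^ n • s - X ^ (2 * n) • W' - Y ^ (2 * n) • W with hz
  have h1 : ∀ b, Van N (τ (β b z)) := by
    intro b
    have h2 : τ (β b z) = pX ^ (2 * n) * (pY ^ n * φx b - τ (β b W')) + pY ^ (2 * n) * (pX ^ n * φy b - τ (β b W)) := by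
      rw [hz, (β b).map_sub, (β b).map_sub, (β b).map_smul, (β b).map_smul, (β b).map_smul, smul_eq_mul, smul_eq_mul,
        smul_eq_mul, map_sub, map_sub, tX_pow tX, tY_pow tY, mul_pow, mul_assoc, tX_pow tX, tY_pow tY, hsum]
      ring
    rw [h2]
    exact Van.add (Van.mul_left _ (hW' b)) (Van.mul_left _ (hW b))
  have h2 : ∀ b, ∃ u v : A, β b z = X ^ N * u + Y ^ N * v := fun b =>
    sat_tau tX tY hκ hT N _ fun c => by
      have := h1 (c • b)
      rwa [map_smul, LinearMap.smul_apply, smul_eq_mul] at this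
  choose u1 v1 huv1 using fun j => h2 (fX j)
  set z' := X ^ n • z - ∑ j, β (fX j) z • gX j with hz'
  have h3 : z' ∈ G' := by
    rw [hker]
    intro b
    obtain ⟨a, ha⟩ := hspX b
    have h4 : X ^ n * β b z' = 0 := by
      have h5 : X ^ n * β b z' = β (X ^ n • b) z' := by rw [map_smul, LinearMap.smul_apply, smul_eq_mul]
      rw [h5, ha, map_sum, LinearMap.sum_apply]
      refine Finset.sum_eq_zero fun i _ => ?_
      rw [map_smul, LinearMap.smul_apply]
      have h6 : β (fX i) z' = 0 := by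
        rw [hz', map_sub, (β (fX i)).map_smul, map_sum, Finset.sum_eq_single i]
        · rw [(β (fX i)).map_smul, hfgX, if_pos rfl, smul_eq_mul, smul_eq_mul]
          ring
        · intro j _ hj
          rw [(β (fX i)).map_smul, hfgX, if_neg hj.symm, smul_zero]
        · intro h
          exact absurd (Finset.mem_univ i) h
      rw [h6, smul_zero]
    exact (mul_eq_zero.1 h4).resolve_left (pow_ne_zero n hX0)
  refine ⟨2 * n, Y ^ n • z', (∑ j, (Y ^ n * u1 j) • gX j) + Y ^ n • W', (∑ j, (Y ^ n * v1 j) • gX j) + X ^ n • W,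
    G'.smul_mem _ h3, ?_⟩
  have h7 : X ^ n • z = z' + ∑ j, (X ^ N * u1 j + Y ^ N * v1 j) • gX j := by
    rw [hz']
    have : ∑ j, (X ^ N * u1 j + Y ^ N * v1 j) • gX j = ∑ j, β (fX j) z • gX j :=
      Finset.sum_congr rfl fun j _ => by rw [huv1]
    rw [this]
    abel
  have h8 : (X * Y) ^ n • s = z + X ^ (2 * n) • W' + Y ^ (2 * n) • W := by
    rw [hz]
    abel
  have h9 : (X * Y) ^ (2 * n) • s = Y ^ n • (X ^ n • z) + X ^ (3 * n) • (Y ^ n • W') + Y ^ (3 * n) • (X ^ n • W) := by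
    have e1 : (X * Y) ^ (2 * n) • s = (X ^ n * Y ^ n) • ((X * Y) ^ n • s) := by
      rw [smul_smul]
      congr 1
      ring
    rw [e1, h8, smul_add, smul_add, smul_smul, smul_smul, smul_smul, smul_smul, smul_smul]
    congr 1
    · congr 1
      · congr 1
        ring
      · congr 1
        ring
    · congr 1
      ring
  have e3 : n + 2 * n = 3 * n := by omega
  rw [h9, h7, e3, hN, smul_add, smul_add, smul_add, Finset.smul_sum, Finset.smul_sum, Finset.smul_sum]
  have e4 : ∑ j, Y ^ n • ((X ^ (3 * n) * u1 j + Y ^ (3 * n) * v1 j) • gX j) =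
      (∑ j, X ^ (3 * n) • ((Y ^ n * u1 j) • gX j)) + ∑ j, Y ^ (3 * n) • ((Y ^ n * v1 j) • gX j) := by
    rw [← Finset.sum_add_distrib]
    refine Finset.sum_congr rfl fun j _ => ?_
    rw [smul_smul, smul_smul, smul_smul, ← add_smul]
    congr 1
    ring
  rw [e4]
  abel

end Du

end Pool.Agent.MIY
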