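import Pool.Agent.MIY.DualA
import Pool.Agent.MIY.CmU
import Pool.Agent.MIY.Cmp

/-!
# MIY/DualP: the duality theorem of part 1 (literal `dual` of Q1/MIY)

Everything is expressed by functionals with values in `P2 k`; no completed module occurs.
-/

set_option autoImplicit false
set_option linter.unusedSectionVars false

namespace Pool.Agent.MIY

open Pool.Agent.LNDF

namespace DP

open CmU

section van

variable {k : Type} [Field k]

theorem van_add {n : ℕ} {u v : P2 k} (hu : Van n u) (hv : Van n v) : Van n (u + v) := by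
  intro i j hi hj
  rw [cf_add, hu i j hi hj, hv i j hi hj, add_zero]

theorem van_zero (n : ℕ) : Van n (0 : P2 k) := fun i j _ _ => cf_zero i j

theorem van_sum {n : ℕ} {ι : Type} (s : Finset ι) {f : ι → P2 k} (h : ∀ i ∈ s, Van n (f i)) :
    Van n (∑ i ∈ s, f i) := by
  intro i j hi hj
  rw [cf_sum]
  exact Finset.sum_eq_zero fun t ht => h t ht i j hi hj

theorem van_split {n : ℕ} {u : P2 k} (h : Van n u) :
    ∃ a b : P2 k, u = pX ^ n * a + pY ^ n * b := by
  have h1 : ∀ j, ∃ c : PowerSeries k, j < n → PowerSeries.coeff j u = PowerSeries.X ^ n * c := by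
    intro j
    by_cases hj : j < n
    · obtain ⟨c, hc⟩ := (PowerSeries.X_pow_dvd_iff (R := k) (n := n)
        (φ := PowerSeries.coeff j u)).2 fun i hi => h i j hi hj
      exact ⟨c, fun _ => hc⟩
    · exact ⟨0, fun h' => (hj h').elim⟩
  choose c hc using h1
  set a : P2 k := PowerSeries.mk c with ha
  have h2 : (PowerSeries.X : P2 k) ^ n ∣ u - pX ^ n * a := by
    rw [PowerSeries.X_pow_dvd_iff]
    intro j hj
    rw [map_sub, pX, ← map_pow, PowerSeries.coeff_C_mul, ha, PowerSeries.coeff_mk, hc j hj, sub_self]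
  obtain ⟨b, hb⟩ := h2
  refine ⟨a, b, ?_⟩
  have h3 : pY ^ n * b = u - pX ^ n * a := hb.symm
  rw [h3]
  ring

theorem van_mul {n : ℕ} {u : P2 k} (hu : Van n u) (w : P2 k) : Van n (w * u) := by
  obtain ⟨a, b, rfl⟩ := van_split hu
  have h1 : w * (pX ^ n * a + pY ^ n * b) = pX ^ n * (w * a) + pY ^ n * (w * b) := by ring
  rw [h1]
  exact van_add (van_X n _) (van_Y n _)

theorem van_neg {n : ℕ} {u : P2 k} (hu : Van n u) : Van n (-u) := by
  have := van_mul hu (-1)
  rwa [neg_one_mul] at this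

theorem pX_ne (n : ℕ) : (pX : P2 k) ^ n ≠ 0 := by
  refine pow_ne_zero n fun h => ?_
  have h1 := congrArg (cf 1 0) h
  rw [cf_zero] at h1
  have h2 := cf_mon (k := k) 1 0 1 0
  rw [pow_one, pow_zero, mul_one] at h2
  rw [h2] at h1
  simp at h1

theorem pY_ne (n : ℕ) : (pY : P2 k) ^ n ≠ 0 := pow_ne_zero n PowerSeries.X_ne_zero

end van

section fun1

variable {k A : Type} [Field k] [CommRing A] [Algebra k A] {X Y : A}

theorem mu_pow (M : Type) [AddCommGroup M] [Module k M] [Module A M] [IsScalarTower k A M] (a : A)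
    (n : ℕ) (m : M) : ((mu k M a) ^ n) m = a ^ n • m := by
  induction n with
  | zero => rw [pow_zero, pow_zero, one_smul]; rfl
  | succ n ih =>
    rw [pow_succ', Module.End.mul_apply, ih, pow_succ', mul_smul]
    rfl

theorem li_univ {M : Type} [AddCommGroup M] [Module k M] [Module A M] [IsScalarTower k A M]
    {ν : ℕ} {b : Fin ν → M} {κ : M →ₗ[k] (Fin ν → P2 k)} (h : Cm (mu k M X) (mu k M Y) b κ)
    {ψ : M → P2 k} (hψ : Li X Y ψ) (a : M) : ψ a = ∑ j, κ a j * ψ (b j) := by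
  have h1 := h.univ (t := 1)
    { toFun := fun a _ => ψ a
      map_add' := fun a b => by funext i; exact hψ.add a b
      map_smul' := fun r a => by
        funext i
        rw [hψ.sm r a, ← pC_smul]
        rfl }
    (fun a i => hψ.x a) (fun a i => hψ.y a) a 0
  exact h1

/-- truncations of power series, as elements of `A` -/
theorem tr_exists (X Y : A) (c : P2 k) (N : ℕ) :
    ∃ q : A, ∀ ψ : A → P2 k, Li X Y ψ → ∀ m, Van N (ψ (q * m) - c * ψ m) := by
  set t : P2 k := ∑ i ∈ Finset.range N, ∑ j ∈ Finset.range N, pC (cf i j c) * (pX ^ i * pY ^ j)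
    with ht
  have h1 : Van N (t - c) := by
    intro i j hi hj
    rw [cf_sub, ht, cf_sum]
    have h2 : ∀ p ∈ Finset.range N, cf i j (∑ q ∈ Finset.range N,
        pC (cf p q c) * ((pX : P2 k) ^ p * pY ^ q)) = if p = i then cf i j c else 0 := by
      intro p _
      rw [cf_sum]
      have h3 : ∀ q ∈ Finset.range N, cf i j (pC (cf p q c) * ((pX : P2 k) ^ p * pY ^ q)) =
          if q = j then (if p = i then cf i j c else 0) else 0 := by
        intro q _
        rw [← pC_smul, cf_smul, cf_mon]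
        by_cases hp : p = i
        · by_cases hq : q = j
          · subst hp; subst hq; simp
          · rw [if_neg (by tauto), if_neg hq, mul_zero]
        · rw [if_neg (by tauto), mul_zero, if_neg hp, ite_self]
      rw [Finset.sum_congr rfl h3, Finset.sum_ite_eq' (Finset.range N) j,
        if_pos (Finset.mem_range.2 hj)]
    rw [Finset.sum_congr rfl h2, Finset.sum_ite_eq' (Finset.range N) i,
      if_pos (Finset.mem_range.2 hi), sub_self]
  refine ⟨∑ i ∈ Finset.range N, ∑ j ∈ Finset.range N, cf i j c • (X ^ i * Y ^ j), ?_⟩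
  intro ψ hψ m
  have h2 : ψ ((∑ i ∈ Finset.range N, ∑ j ∈ Finset.range N, cf i j c • (X ^ i * Y ^ j)) * m) =
      t * ψ m := by
    rw [Finset.sum_mul, hψ.sum, ht, Finset.sum_mul]
    refine Finset.sum_congr rfl fun i _ => ?_
    rw [Finset.sum_mul, hψ.sum, Finset.sum_mul]
    refine Finset.sum_congr rfl fun j _ => ?_
    have h3 : cf i j c • (X ^ i * Y ^ j) * m = cf i j c • (X ^ i • (Y ^ j • m)) := by
      rw [smul_mul_assoc, smul_eq_mul, smul_eq_mul, mul_assoc]
    rw [h3, hψ.sm, hψ.pow_x, hψ.pow_y]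
    ring
  rw [h2, ← sub_mul, mul_comm]
  exact van_mul h1 _

variable {τ : A → P2 k}

/-- the Gram matrix of `τ` on lifted bases is invertible -/
def Gr (X Y : A) (τ : A → P2 k) : Prop :=
  ∀ {l : ℕ} (e : Fin l → A), LB (mu k A X) (mu k A Y) e →
    IsUnit (Matrix.det (Matrix.of fun i j : Fin l => τ (e i * e j)))

theorem li_mul_left (hτ : Li X Y τ) (z : A) : Li X Y fun a => τ (z * a) where
  add a b := by rw [mul_add, hτ.add]
  sm r a := by rw [mul_smul_comm, hτ.sm]
  x a := by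
    have h1 : z * X • a = X • (z * a) := by rw [smul_eq_mul, smul_eq_mul]; ring
    rw [h1, hτ.x]
  y a := by
    have h1 : z * Y • a = Y • (z * a) := by rw [smul_eq_mul, smul_eq_mul]; ring
    rw [h1, hτ.y]

/-- (AP) every functional is approximated by the functionals `a ↦ τ (a a0)` -/
theorem ap (hτ : Li X Y τ) (hAf : Fg2 (mu k A X) (mu k A Y)) (hAr : Reg2 (mu k A X) (mu k A Y))
    (gram : Gr X Y τ) {lam : A → P2 k} (hl : Li X Y lam) (N : ℕ) :
    ∃ a0 : A, ∀ a, Van N (lam a - τ (a * a0)) := by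
  obtain ⟨l, e, he⟩ := exists_lb hAf
  obtain ⟨κ, hκ⟩ := exists_cm hAr he
  have hG := gram e he
  set Gm : Matrix (Fin l) (Fin l) (P2 k) := Matrix.of fun i j : Fin l => τ (e i * e j) with hGm
  set c : Fin l → P2 k := Gm⁻¹.mulVec fun i => lam (e i) with hc
  have h1 : ∀ i, lam (e i) = ∑ j, τ (e i * e j) * c j := by
    intro i
    have h2 : Gm.mulVec c = fun i => lam (e i) := by
      rw [hc, Matrix.mulVec_mulVec, Matrix.mul_nonsing_inv Gm hG, Matrix.one_mulVec]
    exact (congrFun h2 i).symm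
  choose q hq using fun j => tr_exists X Y (c j) N
  refine ⟨∑ j, q j * e j, fun a => ?_⟩
  have h2 : lam a = ∑ i, κ a i * lam (e i) := li_univ hκ hl a
  have h3 : τ (a * ∑ j, q j * e j) = ∑ i, κ a i * τ (e i * ∑ j, q j * e j) := by
    have h4 := li_univ hκ (li_mul_left hτ (∑ j, q j * e j)) a
    rw [mul_comm a, h4]
    refine Finset.sum_congr rfl fun i _ => ?_
    rw [mul_comm (∑ j, q j * e j)]
  rw [h2, h3, ← Finset.sum_sub_distrib]
  refine van_sum _ fun i _ => ?_
  rw [← mul_sub]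
  refine van_mul ?_ _
  have h5 : lam (e i) - τ (e i * ∑ j, q j * e j) =
      ∑ j, -(τ (q j * (e i * e j)) - c j * τ (e i * e j)) := by
    have h6 : e i * ∑ j, q j * e j = ∑ j, q j * (e i * e j) := by
      rw [Finset.mul_sum]
      exact Finset.sum_congr rfl fun j _ => by ring
    rw [h1 i, h6, hτ.sum, ← Finset.sum_sub_distrib]
    exact Finset.sum_congr rfl fun j _ => by ring
  rw [h5]
  exact van_sum _ fun j _ => van_neg (hq j τ hτ _)

/-- (RC) an element is small if all `τ (a z)` are small -/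
theorem rc (hτ : Li X Y τ) (hAf : Fg2 (mu k A X) (mu k A Y)) (hAr : Reg2 (mu k A X) (mu k A Y))
    (gram : Gr X Y τ) {N : ℕ} {z : A} (hz : ∀ a, Van N (τ (a * z))) :
    ∃ u v : A, z = X ^ N * u + Y ^ N * v := by
  obtain ⟨l, e, he⟩ := exists_lb hAf
  obtain ⟨κ, hκ⟩ := exists_cm hAr he
  have hG := gram e he
  set Gm : Matrix (Fin l) (Fin l) (P2 k) := Matrix.of fun i j : Fin l => τ (e i * e j) with hGm
  have h1 : Gm.mulVec (κ z) = fun i => τ (e i * z) := by
    funext i
    have h2 := li_univ hκ (li_mul_left hτ (e i)) z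
    rw [h2, Matrix.mulVec, dotProduct]
    refine Finset.sum_congr rfl fun j _ => ?_
    rw [hGm, Matrix.of_apply, mul_comm]
  have h2 : κ z = Gm⁻¹.mulVec fun i => τ (e i * z) := by
    rw [← h1, Matrix.mulVec_mulVec, Matrix.nonsing_inv_mul Gm hG, Matrix.one_mulVec]
  have h3 : ∀ j, Van N (κ z j) := by
    intro j
    rw [h2, Matrix.mulVec, dotProduct]
    exact van_sum _ fun i _ => van_mul (hz (e i)) _
  obtain ⟨u, v, huv⟩ := hκ.sat N z h3
  rw [mu_pow, mu_pow] at huv
  exact ⟨u, v, huv⟩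

/-- one of the two approximations -/
theorem approx (hτ : Li X Y τ) {N : ℕ}
    (hap : ∀ lam : A → P2 k, Li X Y lam → ∃ a0 : A, ∀ a, Van N (lam a - τ (a * a0)))
    {F G : Type} [AddCommGroup F] [AddCommGroup G] [Module k F] [Module k G] [Module A F]
    [Module A G] [IsScalarTower k A F] [IsScalarTower k A G] (β : F →ₗ[A] G →ₗ[A] A)
    {Λ : F → P2 k} (hΛ : Li X Y Λ) {Z : A} {z : P2 k} (hz0 : z ≠ 0)
    (hZF : ∀ c, Λ (Z • c) = z * Λ c) (hZA : ∀ a, τ (Z * a) = z * τ a) {r : ℕ} (f : Fin r → F)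
    (g : Fin r → G) (hfg : ∀ i j, β (f i) (g j) = if i = j then Z else 0)
    (hfs : ∀ c : F, ∃ a : Fin r → A, Z • c = ∑ i, a i • f i) :
    ∃ u : G, ∀ c, Van N (z * Λ c - τ (β c u)) := by
  have h1 : ∀ j, ∃ a0 : A, ∀ a, Van N (Λ (a • f j) - τ (a * a0)) := by
    intro j
    exact hap _ (hΛ.comp (LinearMap.toSpanSingleton A F (f j)))
  choose t ht using h1
  refine ⟨∑ j, t j • g j, fun c => ?_⟩
  obtain ⟨a, ha⟩ := hfs c
  have h2 : z * Λ c = ∑ i, Λ (a i • f i) := by rw [← hZF, ha, hΛ.sum]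
  have h3 : ∀ i, β (f i) (∑ j, t j • g j) = Z * t i := by
    intro i
    rw [map_sum, Finset.sum_eq_single i]
    · rw [map_smul, hfg, if_pos rfl, smul_eq_mul, mul_comm]
    · intro j _ hj
      rw [map_smul, hfg, if_neg (Ne.symm hj), smul_zero]
    · intro h
      exact (h (Finset.mem_univ i)).elim
  have h4 : z * τ (β c (∑ j, t j • g j)) = z * ∑ i, τ (a i * t i) := by
    rw [← hZA, ← smul_eq_mul Z, ← LinearMap.smul_apply, ← map_smul, ha, map_sum β,
      LinearMap.sum_apply, hτ.sum, Finset.mul_sum]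
    refine Finset.sum_congr rfl fun i _ => ?_
    rw [map_smul, LinearMap.smul_apply, h3, smul_eq_mul, ← hZA]
    congr 1
    ring
  have h5 := mul_left_cancel₀ hz0 h4
  rw [h5, h2, ← Finset.sum_sub_distrib]
  exact van_sum _ fun i _ => ht i (a i)

end fun1

end DP

open DP CmU in
/-- Dual -/
theorem dual {k A : Type} [Field k] [CommRing A] [IsDomain A] [Algebra k A] {X Y : A}
    (τ : A →ₗ[k] P2 k) (tX : ∀ a, τ (X * a) = pX * τ a) (tY : ∀ a, τ (Y * a) = pY * τ a)
    (hAf : Fg2 (mu k A X) (mu k A Y)) (hAr : Reg2 (mu k A X) (mu k A Y))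
    (gram : ∀ {l : ℕ} (e : Fin l → A), LB (mu k A X) (mu k A Y) e →
      IsUnit (Matrix.det (Matrix.of fun i j : Fin l => τ (e i * e j))))
    {F G : Type} [AddCommGroup F] [AddCommGroup G] [Module k F] [Module k G] [Module A F]
    [Module A G] [IsScalarTower k A F] [IsScalarTower k A G] (β : F →ₗ[A] G →ₗ[A] A)
    (hFr : Reg2 (mu k F X) (mu k F Y)) (hFf : Fg2 (mu k F X) (mu k F Y))
    (hGX : ∀ g : G, X • g = 0 → g = 0) (hGY : ∀ g : G, Y • g = 0 → g = 0) (G' : Submodule A G)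
    (hker : ∀ g, g ∈ G' ↔ ∀ b, β b g = 0) (n : ℕ)
    (hX : ∃ (r : ℕ) (f : Fin r → F) (g : Fin r → G),
      (∀ i j, β (f i) (g j) = if i = j then X ^ n else 0) ∧
      ∀ x : F, ∃ a : Fin r → A, X ^ n • x = ∑ i, a i • f i)
    (hY : ∃ (r : ℕ) (f : Fin r → F) (g : Fin r → G),
      (∀ i j, β (f i) (g j) = if i = j then Y ^ n else 0) ∧
      ∀ x : F, ∃ a : Fin r → A, Y ^ n • x = ∑ i, a i • f i)
    (s : G) (hs : ∀ b, ∃ u v : A, β b s = X ^ n * u + Y ^ n * v) :
    ∃ (m : ℕ) (g' : G) (u v : G), g' ∈ G' ∧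
      (X * Y) ^ m • s = g' + X ^ (n + m) • u + Y ^ (n + m) • v := by
  classical
  by_cases hY0' : Y = 0
  · exact ⟨1, 0, 0, 0, G'.zero_mem, by rw [hY0']; simp⟩
  have hY0 : Y ^ n ≠ 0 := pow_ne_zero n hY0'
  have hτ : Li X Y (τ : A → P2 k) :=
    ⟨map_add τ, fun r a => by rw [map_smul, pC_smul], tX, tY⟩
  have hgr : Gr X Y (τ : A → P2 k) := fun e he => gram e he
  obtain ⟨ν, b, hb⟩ := exists_lb hFf
  obtain ⟨κ, hκ⟩ := exists_cm hFr hb
  have hL : ∀ g : G, Li X Y fun c => τ (β c g) := fun g => hτ.comp (β.flip g)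
  have hvan : ∀ j, Van n (τ (β (b j) s)) := by
    intro j
    obtain ⟨u, v, huv⟩ := hs (b j)
    have h1 : τ (β (b j) s) = pX ^ n * τ u + pY ^ n * τ v := by
      rw [huv, map_add]
      have h2 := hτ.pow_x n u
      have h3 := hτ.pow_y n v
      rw [smul_eq_mul] at h2 h3
      rw [h2, h3]
    rw [h1]
    exact van_add (van_X n _) (van_Y n _)
  choose xj yj hxy using fun j => van_split (hvan j)
  have hLx : Li X Y fun c => ∑ j, xj j * κ c j := Li.sums Finset.univ fun j _ => (hκ.li j).mul (xj j)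
  have hLy : Li X Y fun c => ∑ j, yj j * κ c j := Li.sums Finset.univ fun j _ => (hκ.li j).mul (yj j)
  have hsum : ∀ c, τ (β c s) = pX ^ n * (∑ j, xj j * κ c j) + pY ^ n * ∑ j, yj j * κ c j := by
    intro c
    have h1 := li_univ hκ (hL s) c
    rw [h1, Finset.mul_sum, Finset.mul_sum, ← Finset.sum_add_distrib]
    refine Finset.sum_congr rfl fun j _ => ?_
    rw [hxy j]
    ring
  have hap : ∀ lam : A → P2 k, Li X Y lam → ∃ a0 : A, ∀ a, Van (n + 2 * n) (lam a - τ (a * a0)) :=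
    fun lam hl => ap hτ hAf hAr hgr hl _
  obtain ⟨r, f, g, hfg, hfs⟩ := hX
  obtain ⟨r', f', g', hfg', hfs'⟩ := hY
  have tXn : ∀ a, τ (X ^ n * a) = pX ^ n * τ a := fun a => hτ.pow_x n a
  have tYn : ∀ a, τ (Y ^ n * a) = pY ^ n * τ a := fun a => hτ.pow_y n a
  obtain ⟨u, hu⟩ := approx hτ hap β hLx (Z := Y ^ n) (z := pY ^ n) (pY_ne n)
    (fun c => hLx.pow_y n c) tYn f' g' hfg' hfs'
  obtain ⟨v, hv⟩ := approx hτ hap β hLy (Z := X ^ n) (z := pX ^ n) (pX_ne n)
    (fun c => hLy.pow_x n c) tXn f g hfg hfs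
  set w : G := (X * Y) ^ n • s - X ^ (2 * n) • u - Y ^ (2 * n) • v with hwdef
  have hw : ∀ c, Van (n + 2 * n) (τ (β c w)) := by
    intro c
    have h1 : τ (β c w) = pX ^ (2 * n) * (pY ^ n * (∑ j, xj j * κ c j) - τ (β c u)) +
        pY ^ (2 * n) * (pX ^ n * (∑ j, yj j * κ c j) - τ (β c v)) := by
      have h2 : β c w = X ^ n • Y ^ n • β c s - X ^ (2 * n) • β c u - Y ^ (2 * n) • β c v := by
        rw [hwdef, map_sub, map_sub, map_smul, map_smul, map_smul, mul_pow, mul_smul]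
      rw [h2, map_sub, map_sub]
      have h3 := hτ.pow_x n (Y ^ n • β c s)
      have h4 := hτ.pow_y n (β c s)
      have h5 := hτ.pow_x (2 * n) (β c u)
      have h6 := hτ.pow_y (2 * n) (β c v)
      rw [h3, h4, h5, h6, hsum c]
      ring
    rw [h1]
    exact van_add (van_mul (hu c) _) (van_mul (hv c) _)
  have hw2 : ∀ c, ∃ p q : A, β c w = X ^ (n + 2 * n) * p + Y ^ (n + 2 * n) * q := by
    intro c
    refine rc hτ hAf hAr hgr fun a => ?_
    have h1 := hw (a • c)
    rwa [map_smul, LinearMap.smul_apply, smul_eq_mul] at h1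
  choose p q hpq using fun j => hw2 (f' j)
  have hg0 : Y ^ n • w - ∑ j, β (f' j) w • g' j ∈ G' := by
    rw [hker]
    intro c
    have h1 : ∀ i, β (f' i) (Y ^ n • w - ∑ j, β (f' j) w • g' j) = 0 := by
      intro i
      rw [map_sub, map_sum, map_smul, Finset.sum_eq_single i]
      · rw [map_smul, hfg', if_pos rfl, smul_eq_mul, smul_eq_mul]
        ring
      · intro j _ hj
        rw [map_smul, hfg', if_neg (Ne.symm hj), smul_zero]
      · intro h
        exact (h (Finset.mem_univ i)).elim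
    obtain ⟨a, ha⟩ := hfs' c
    have h2 : Y ^ n * β c (Y ^ n • w - ∑ j, β (f' j) w • g' j) = 0 := by
      rw [← smul_eq_mul, ← LinearMap.smul_apply, ← map_smul, ha, map_sum, LinearMap.sum_apply]
      refine Finset.sum_eq_zero fun i _ => ?_
      rw [map_smul, LinearMap.smul_apply, h1, smul_zero]
    exact (mul_eq_zero.1 h2).resolve_left hY0
  refine ⟨2 * n, X ^ n • (Y ^ n • w - ∑ j, β (f' j) w • g' j),
    X ^ n • (∑ j, p j • g' j) + Y ^ n • u, X ^ n • (∑ j, q j • g' j) + X ^ n • v,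
    G'.smul_mem _ hg0, ?_⟩
  have h1 : ∑ j, β (f' j) w • g' j = X ^ (n + 2 * n) • (∑ j, p j • g' j) +
      Y ^ (n + 2 * n) • ∑ j, q j • g' j := by
    rw [Finset.smul_sum, Finset.smul_sum, ← Finset.sum_add_distrib]
    refine Finset.sum_congr rfl fun j _ => ?_
    rw [hpq j, add_smul, mul_smul, mul_smul]
  rw [h1, hwdef]
  simp only [smul_sub, smul_add, smul_smul]
  module

end Pool.Agent.MIY
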