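import Pool.Agent.MIY.Defs

/-!
# MIY/DualA: maps of a module into the ring of power series which are linear over the polynomials
-/

set_option autoImplicit false
set_option linter.unusedSectionVars false

namespace Pool.Agent.MIY

open Pool.Agent.LNDF

section

variable {k A : Type} [Field k] [CommRing A] [Algebra k A]

/-- `ψ` is linear over `k[X, Y]` -/
structure Li (X Y : A) {M : Type} [AddCommGroup M] [Module k M] [Module A M] (ψ : M → P2 k) :
    Prop where
  add : ∀ a b, ψ (a + b) = ψ a + ψ b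
  sm : ∀ (r : k) (a : M), ψ (r • a) = pC r * ψ a
  x : ∀ a, ψ (X • a) = pX * ψ a
  y : ∀ a, ψ (Y • a) = pY * ψ a

variable {X Y : A} {M M' : Type} [AddCommGroup M] [Module k M] [Module A M] [IsScalarTower k A M]
  [AddCommGroup M'] [Module k M'] [Module A M'] [IsScalarTower k A M']

theorem pC_smul (r : k) (u : P2 k) : r • u = pC r * u := by
  rw [Algebra.smul_def, PowerSeries.algebraMap_apply, PowerSeries.algebraMap_apply,
    Algebra.algebraMap_self, RingHom.id_apply]
  rfl

theorem Li.zero (ψ : M → P2 k) (h : Li X Y ψ) : ψ 0 = 0 := by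
  have h1 := h.add 0 0
  rw [add_zero] at h1
  simpa using h1

theorem Li.neg {ψ : M → P2 k} (h : Li X Y ψ) (a : M) : ψ (-a) = - ψ a := by
  have h1 := h.add a (-a)
  rw [add_neg_cancel, h.zero] at h1
  exact (neg_eq_of_add_eq_zero_right h1.symm).symm

theorem Li.sub {ψ : M → P2 k} (h : Li X Y ψ) (a b : M) : ψ (a - b) = ψ a - ψ b := by
  rw [sub_eq_add_neg, h.add, h.neg, ← sub_eq_add_neg]

theorem Li.sum {ψ : M → P2 k} (h : Li X Y ψ) {ι : Type} (s : Finset ι) (f : ι → M) :
    ψ (∑ i ∈ s, f i) = ∑ i ∈ s, ψ (f i) := by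
  classical
  induction s using Finset.induction_on with
  | empty => rw [Finset.sum_empty, Finset.sum_empty, h.zero]
  | insert a s ha ih => rw [Finset.sum_insert ha, Finset.sum_insert ha, h.add, ih]

theorem Li.comp {ψ : M' → P2 k} (h : Li X Y ψ) (φ : M →ₗ[A] M') : Li X Y fun a => ψ (φ a) where
  add a b := by rw [map_add, h.add]
  sm r a := by
    rw [← algebraMap_smul A r a, map_smul, algebraMap_smul, h.sm]
  x a := by rw [map_smul, h.x]
  y a := by rw [map_smul, h.y]

theorem Li.mul {ψ : M → P2 k} (h : Li X Y ψ) (c : P2 k) : Li X Y fun a => c * ψ a where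
  add a b := by rw [h.add, mul_add]
  sm r a := by rw [h.sm]; ring
  x a := by rw [h.x]; ring
  y a := by rw [h.y]; ring

theorem Li.sums {ι : Type} (s : Finset ι) {ψ : ι → M → P2 k} (h : ∀ i ∈ s, Li X Y (ψ i)) :
    Li X Y fun a => ∑ i ∈ s, ψ i a where
  add a b := by
    rw [← Finset.sum_add_distrib]
    exact Finset.sum_congr rfl fun i hi => (h i hi).add a b
  sm r a := by
    rw [Finset.mul_sum]
    exact Finset.sum_congr rfl fun i hi => (h i hi).sm r a
  x a := by
    rw [Finset.mul_sum]
    exact Finset.sum_congr rfl fun i hi => (h i hi).x a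
  y a := by
    rw [Finset.mul_sum]
    exact Finset.sum_congr rfl fun i hi => (h i hi).y a

theorem Li.pow_x {ψ : M → P2 k} (h : Li X Y ψ) (n : ℕ) (a : M) : ψ (X ^ n • a) = pX ^ n * ψ a := by
  induction n generalizing a with
  | zero => rw [pow_zero, pow_zero, one_smul, one_mul]
  | succ n ih => rw [pow_succ, mul_smul, ih, h.x, pow_succ, mul_assoc]

theorem Li.pow_y {ψ : M → P2 k} (h : Li X Y ψ) (n : ℕ) (a : M) : ψ (Y ^ n • a) = pY ^ n * ψ a := by
  induction n generalizing a with
  | zero => rw [pow_zero, pow_zero, one_smul, one_mul]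
  | succ n ih => rw [pow_succ, mul_smul, ih, h.y, pow_succ, mul_assoc]

/-- the coordinates of the completion -/
theorem Cm.li {ν : ℕ} {b : Fin ν → M} {κ : M →ₗ[k] (Fin ν → P2 k)}
    (h : Cm (mu k M X) (mu k M Y) b κ) (j : Fin ν) : Li X Y fun a => κ a j where
  add a b := by rw [map_add]; rfl
  sm r a := by
    rw [map_smul, ← pC_smul]
    rfl
  x a := h.mx a j
  y a := h.my a j

end

end Pool.Agent.MIY
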