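import Pool.Agent.MIY.DualA
import Pool.Agent.MIY.CmU

/-!
# MIY/DualB: linear maps into the ring of power series and the completion
-/

set_option autoImplicit false
set_option linter.unusedSectionVars false

namespace Pool.Agent.MIY

open Pool.Agent.LNDF

section

variable {k A : Type} [Field k] [CommRing A] [Algebra k A]

variable {X Y : A} {M M' : Type} [AddCommGroup M] [Module k M] [Module A M] [IsScalarTower k A M]

/-- a linear map is determined by its values on the basis -/
theorem Li.eq {ν : ℕ} {b : Fin ν → M} {κ : M →ₗ[k] (Fin ν → P2 k)}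
    (h : Cm (mu k M X) (mu k M Y) b κ) {ψ : M → P2 k} (hψ : Li X Y ψ) (a : M) :
    ψ a = ∑ j, κ a j * ψ (b j) := by
  let Ψ : M →ₗ[k] (Fin 1 → P2 k) :=
    { toFun := fun a _ => ψ a
      map_add' := fun a b => by
        funext i
        exact hψ.add a b
      map_smul' := fun r a => by
        funext i
        show ψ (r • a) = r • ψ a
        rw [hψ.sm, pC_smul] }
  exact h.univ Ψ (fun a _ => hψ.x a) (fun a _ => hψ.y a) a 0

theorem Li.ext {ν : ℕ} {b : Fin ν → M} {κ : M →ₗ[k] (Fin ν → P2 k)}
    (h : Cm (mu k M X) (mu k M Y) b κ) {ψ φ : M → P2 k} (hψ : Li X Y ψ) (hφ : Li X Y φ)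
    (hb : ∀ j, ψ (b j) = φ (b j)) (a : M) : ψ a = φ a := by
  rw [hψ.eq h, hφ.eq h]
  exact Finset.sum_congr rfl fun j _ => by rw [hb]

end

end Pool.Agent.MIY
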