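import Pool.Agent.MIY.Defs

/-! the last step of `dual` (19): pairing values in `(X ^ p, Y ^ p)` -/

set_option autoImplicit false

namespace Pool.Agent.MIY

lemma dualC_reg_p {A : Type} [CommRing A] {X Y : A}
    (h : ∀ a b : A, Y * a = X * b → ∃ c, a = X * c) (p : ℕ) :
    ∀ a b : A, Y ^ p * a = X * b → ∃ c, a = X * c := by
  induction p with
  | zero => intro a b hab; exact ⟨b, by rw [← hab]; ring⟩
  | succ p ih =>
    intro a b hab
    obtain ⟨c, hc⟩ := h (Y ^ p * a) b (by rw [← hab]; ring)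
    exact ih a c hc

lemma dualC_reg_pq {A : Type} [CommRing A] [IsDomain A] {X Y : A} (hX : X ≠ 0)
    (h : ∀ a b : A, Y * a = X * b → ∃ c, a = X * c) (p q : ℕ) :
    ∀ a b : A, Y ^ p * a = X ^ q * b → ∃ c, a = X ^ q * c := by
  induction q with
  | zero => intro a b _; exact ⟨a, by ring⟩
  | succ q ih =>
    intro a b hab
    obtain ⟨c, hc⟩ := dualC_reg_p h p a (X ^ q * b) (by rw [hab]; ring)
    obtain ⟨d, hd⟩ := ih c b (mul_left_cancel₀ hX (by
      calc X * (Y ^ p * c) = Y ^ p * (X * c) := by ring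
        _ = X * (X ^ q * b) := by rw [← hc, hab]; ring))
    exact ⟨d, by rw [hc, hd]; ring⟩

/-- divisibility by `Y ^ p` is not changed by `X ^ q` -/
lemma dualC_dvd {A : Type} [CommRing A] [IsDomain A] {X Y : A} (hX : X ≠ 0)
    (h : ∀ a b : A, Y * a = X * b → ∃ c, a = X * c) (p q : ℕ) (z w : A)
    (hz : X ^ q * z = Y ^ p * w) : ∃ c, z = Y ^ p * c := by
  obtain ⟨c, hc⟩ := dualC_reg_pq hX h p q w z hz.symm
  exact ⟨c, mul_left_cancel₀ (pow_ne_zero q hX) (by rw [hz, hc]; ring)⟩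

/-- the last step of `dual` -/
theorem dual_end {k A : Type} [Field k] [CommRing A] [IsDomain A] [Algebra k A] {X Y : A}
    (hAr : Reg2 (mu k A X) (mu k A Y))
    {F G : Type} [AddCommGroup F] [AddCommGroup G] [Module A F] [Module A G]
    (β : F →ₗ[A] G →ₗ[A] A) (G' : Submodule A G) (hker : ∀ g, g ∈ G' ↔ ∀ b, β b g = 0) (n : ℕ)
    (hX : ∃ (r : ℕ) (f : Fin r → F) (g : Fin r → G),
      (∀ i j, β (f i) (g j) = if i = j then X ^ n else 0) ∧
      ∀ x : F, ∃ a : Fin r → A, X ^ n • x = ∑ i, a i • f i)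
    (hY : ∃ (r : ℕ) (f : Fin r → F) (g : Fin r → G),
      (∀ i j, β (f i) (g j) = if i = j then Y ^ n else 0) ∧
      ∀ x : F, ∃ a : Fin r → A, Y ^ n • x = ∑ i, a i • f i)
    (m : ℕ) (t : G) (ht : ∀ b, ∃ u v : A, β b t = X ^ (m + n) * u + Y ^ (m + n) * v) :
    ∃ g' ∈ G', ∃ u v : G, t = g' + X ^ m • u + Y ^ m • v := by
  have hreg : ∀ a b : A, Y * a = X * b → ∃ c, a = X * c := fun a b hab => hAr.reg a b hab
  have hX0 : X ≠ 0 := by
    intro h
    have h1 := hAr.inj 1 (by show X * 1 = 0; rw [h, zero_mul])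
    exact one_ne_zero h1
  by_cases hY0 : Y = 0
  · obtain ⟨c, hc⟩ := hreg 1 0 (by rw [hY0]; ring)
    refine ⟨0, G'.zero_mem, c ^ m • t, 0, ?_⟩
    rw [smul_smul, ← mul_pow, ← hc, one_pow, one_smul, smul_zero, zero_add, add_zero]
  obtain ⟨r, f, g, hfg, hgen⟩ := hX
  obtain ⟨r', f', g', hfg', hgen'⟩ := hY
  choose a b hab using fun i => ht (f i)
  obtain ⟨t', ht'⟩ : ∃ t', t' = t - X ^ m • ∑ i, a i • g i := ⟨_, rfl⟩
  have h1 : ∀ i, β (f i) t' = Y ^ (m + n) * b i := by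
    intro i
    rw [ht', map_sub, map_smul, map_sum, hab i]
    simp only [map_smul, hfg, smul_eq_mul, mul_ite, mul_zero]
    rw [Finset.sum_ite_eq Finset.univ i, if_pos (Finset.mem_univ i)]
    ring
  choose c hc using fun j => hgen (f' j)
  have h2 : ∀ j, ∃ e, β (f' j) t' = Y ^ (m + n) * e := by
    intro j
    refine dualC_dvd hX0 hreg (m + n) n _ (∑ i, c j i * b i) ?_
    have h3 : X ^ n * β (f' j) t' = β (X ^ n • f' j) t' := by
      rw [map_smul, LinearMap.smul_apply, smul_eq_mul]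
    rw [h3, hc j, map_sum, LinearMap.sum_apply, Finset.mul_sum]
    refine Finset.sum_congr rfl fun i _ => ?_
    rw [map_smul, LinearMap.smul_apply, smul_eq_mul, h1]
    ring
  choose b' hb' using h2
  obtain ⟨t'', ht''⟩ : ∃ t'', t'' = t' - Y ^ m • ∑ j, b' j • g' j := ⟨_, rfl⟩
  have h3 : ∀ j, β (f' j) t'' = 0 := by
    intro j
    rw [ht'', map_sub, map_smul, map_sum, hb' j]
    simp only [map_smul, hfg', smul_eq_mul, mul_ite, mul_zero]
    rw [Finset.sum_ite_eq Finset.univ j, if_pos (Finset.mem_univ j)]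
    ring
  have h4 : t'' ∈ G' := by
    rw [hker]
    intro x
    obtain ⟨d, hd⟩ := hgen' x
    have h5 : Y ^ n * β x t'' = β (Y ^ n • x) t'' := by
      rw [map_smul, LinearMap.smul_apply, smul_eq_mul]
    rw [hd, map_sum, LinearMap.sum_apply] at h5
    have h6 : ∑ i, (β (d i • f' i)) t'' = 0 := by
      refine Finset.sum_eq_zero fun i _ => ?_
      rw [map_smul, LinearMap.smul_apply, smul_eq_mul, h3, mul_zero]
    rw [h6] at h5
    exact (mul_eq_zero.mp h5).resolve_left (pow_ne_zero n hY0)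
  refine ⟨t'', h4, ∑ i, a i • g i, ∑ j, b' j • g' j, ?_⟩
  rw [ht'', ht']
  abel

end Pool.Agent.MIY
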