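import Mathlib
import Pool.Agent.MIY.Defs
import Pool.Agent.MIY.Cmp
import Pool.Agent.MIY.CmU

/-!
Miyanishi's theorem, local part: duality for a pairing with adapted bases over `X` and over `Y`
(literal `dual`). No completion of the second module is needed: approximation modulo
`(X ^ N, Y ^ N)`.
-/

set_option autoImplicit false
set_option linter.unusedVariables false

namespace Pool.Agent.MIY

open Pool.Agent.LNDF

section DualSeries

variable {k : Type} [Field k]

theorem Dual_cf_add (i j : ℕ) (u v : P2 k) : cf i j (u + v) = cf i j u + cf i j v := by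
  simp [cf]

theorem Dual_cf_mul (i j : ℕ) (u v : P2 k) : cf i j (u * v) =
    ∑ q ∈ Finset.HasAntidiagonal.antidiagonal j,
      ∑ p ∈ Finset.HasAntidiagonal.antidiagonal i, cf p.1 q.1 u * cf p.2 q.2 v := by
  simp only [cf, PowerSeries.coeff_mul, map_sum]

/-- the ideal of the series vanishing modulo `(X ^ N, Y ^ N)` -/
def Dual_vI (k : Type) [Field k] (N : ℕ) : Ideal (P2 k) where
  carrier := {u | Van N u}
  zero_mem' := by
    intro i j _ _
    simp [cf]
  add_mem' := by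
    intro a b ha hb i j hi hj
    rw [Dual_cf_add, ha i j hi hj, hb i j hi hj, add_zero]
  smul_mem' := by
    intro c u hu i j hi hj
    rw [smul_eq_mul, Dual_cf_mul]
    refine Finset.sum_eq_zero fun q hq => Finset.sum_eq_zero fun p hp => ?_
    have hp' := Finset.HasAntidiagonal.mem_antidiagonal.1 hp
    have hq' := Finset.HasAntidiagonal.mem_antidiagonal.1 hq
    rw [hu p.2 q.2 (by omega) (by omega), mul_zero]

theorem Dual_mem_vI {N : ℕ} {u : P2 k} : u ∈ Dual_vI k N ↔ Van N u := Iff.rfl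

theorem Dual_pC_mul (r : k) (u : P2 k) : pC r * u = r • u := by
  ext j i
  simp [pC]

theorem Dual_cf_term (r : k) (p q i j : ℕ) :
    cf i j (pC r * (pX ^ p * pY ^ q) : P2 k) = if i = p ∧ j = q then r else 0 := by
  have h1 : (pC r * (pX ^ p * pY ^ q) : P2 k) =
      PowerSeries.C (PowerSeries.C r * PowerSeries.X ^ p) * PowerSeries.X ^ q := by
    simp [pC, pX, pY, mul_assoc]
  rw [h1, cf, PowerSeries.coeff_C_mul, PowerSeries.coeff_X_pow]
  by_cases hj : j = q
  · rw [if_pos hj, mul_one, PowerSeries.coeff_C_mul, PowerSeries.coeff_X_pow]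
    by_cases hi : i = p
    · simp [hi, hj]
    · simp [hi]
  · simp [hj]

/-- the truncation of a series -/
noncomputable def Dual_tr (N : ℕ) (u : P2 k) : P2 k :=
  ∑ p ∈ Finset.range N, ∑ q ∈ Finset.range N, pC (cf p q u) * (pX ^ p * pY ^ q)

theorem Dual_tr_mem (N : ℕ) (u : P2 k) : u - Dual_tr N u ∈ Dual_vI k N := by
  intro i j hi hj
  have h1 : cf i j (Dual_tr N u) = cf i j u := by
    have h2 : cf i j (Dual_tr N u) = ∑ p ∈ Finset.range N, ∑ q ∈ Finset.range N,
        cf i j (pC (cf p q u) * (pX ^ p * pY ^ q)) := by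
      simp only [cf, Dual_tr, map_sum]
    rw [h2, Finset.sum_eq_single_of_mem i (Finset.mem_range.2 hi),
      Finset.sum_eq_single_of_mem j (Finset.mem_range.2 hj), Dual_cf_term]
    · simp
    · intro q _ hq
      rw [Dual_cf_term, if_neg]
      exact fun h => hq h.2.symm
    · intro p _ hp
      refine Finset.sum_eq_zero fun q _ => ?_
      rw [Dual_cf_term, if_neg]
      exact fun h => hp h.1.symm
  have h3 : cf i j (u - Dual_tr N u) = cf i j u - cf i j (Dual_tr N u) := by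
    simp [cf]
  rw [h3, h1, sub_self]

theorem Dual_pX_ne : (pX : P2 k) ≠ 0 := by
  intro h
  have := congrArg (cf 1 0) h
  simp [cf, pX] at this

theorem Dual_pY_ne : (pY : P2 k) ≠ 0 := PowerSeries.X_ne_zero

end DualSeries

section DualMod

variable {k A : Type} [Field k] [CommRing A] [Algebra k A]

theorem Dual_mu_apply (M : Type) [AddCommGroup M] [Module k M] [Module A M]
    [IsScalarTower k A M] (a : A) (m : M) : mu k M a m = a • m := rfl

theorem Dual_mu_pow (M : Type) [AddCommGroup M] [Module k M] [Module A M]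
    [IsScalarTower k A M] (a : A) (n : ℕ) (m : M) : (mu k M a ^ n) m = a ^ n • m := by
  induction n with
  | zero => simp
  | succ n ih => rw [pow_succ', pow_succ', Module.End.mul_apply, ih, Dual_mu_apply, mul_smul]

/-- a functional is determined on a lifted basis -/
theorem Dual_univ {M : Type} [AddCommGroup M] [Module k M] {x y : M →ₗ[k] M} {ν : ℕ}
    {b : Fin ν → M} {κ : M →ₗ[k] (Fin ν → P2 k)} (h : Cm x y b κ)
    (ψ : M →ₗ[k] P2 k) (hx : ∀ a, ψ (x a) = pX * ψ a)
    (hy : ∀ a, ψ (y a) = pY * ψ a) (a : M) : ψ a = ∑ j, κ a j * ψ (b j) :=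
  h.univ (t := 1) (LinearMap.pi fun _ => ψ) (fun a _ => hx a) (fun a _ => hy a) a 0

/-- the truncation as an element of `A` -/
noncomputable def Dual_trA (X Y : A) (N : ℕ) (u : P2 k) : A :=
  ∑ p ∈ Finset.range N, ∑ q ∈ Finset.range N, cf p q u • (X ^ p * Y ^ q)

variable {X Y : A} {τ : A →ₗ[k] P2 k}

theorem Dual_tau_pow (tX : ∀ a, τ (X * a) = pX * τ a) (p : ℕ) (a : A) :
    τ (X ^ p * a) = pX ^ p * τ a := by
  induction p with
  | zero => simp
  | succ p ih => rw [pow_succ', mul_assoc, tX, ih, pow_succ', mul_assoc]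

theorem Dual_tau_pow' (tY : ∀ a, τ (Y * a) = pY * τ a) (p : ℕ) (a : A) :
    τ (Y ^ p * a) = pY ^ p * τ a := by
  induction p with
  | zero => simp
  | succ p ih => rw [pow_succ', mul_assoc, tY, ih, pow_succ', mul_assoc]

theorem Dual_tau_trA (tX : ∀ a, τ (X * a) = pX * τ a) (tY : ∀ a, τ (Y * a) = pY * τ a)
    (N : ℕ) (u : P2 k) (a : A) : τ (Dual_trA X Y N u * a) = Dual_tr N u * τ a := by
  rw [Dual_trA, Dual_tr, Finset.sum_mul, Finset.sum_mul, map_sum]
  refine Finset.sum_congr rfl fun p _ => ?_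
  rw [Finset.sum_mul, Finset.sum_mul, map_sum]
  refine Finset.sum_congr rfl fun q _ => ?_
  rw [smul_mul_assoc, map_smul, mul_assoc, Dual_tau_pow tX, Dual_tau_pow' tY, ← Dual_pC_mul]
  ring

section Gram

variable {l : ℕ} {e : Fin l → A} {κ : A →ₗ[k] (Fin l → P2 k)}

/-- T1 -/
theorem Dual_T1 (tX : ∀ a, τ (X * a) = pX * τ a) (tY : ∀ a, τ (Y * a) = pY * τ a)
    (hκ : Cm (mu k A X) (mu k A Y) e κ)
    (hG : IsUnit (Matrix.det (Matrix.of fun i j : Fin l => τ (e i * e j)))) (N : ℕ) (z : A)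
    (hz : ∀ a, τ (a * z) ∈ Dual_vI k N) : ∃ u v : A, z = X ^ N * u + Y ^ N * v := by
  set Gm : Matrix (Fin l) (Fin l) (P2 k) := Matrix.of fun i j : Fin l => τ (e i * e j) with hGm
  have h1 : ∀ q, Gm.mulVec (κ z) q = τ (e q * z) := by
    intro q
    have h2 := Dual_univ hκ (τ.comp (mu k A (e q)))
      (fun a => by
        rw [LinearMap.comp_apply, LinearMap.comp_apply, Dual_mu_apply, Dual_mu_apply,
          Dual_mu_apply, smul_eq_mul, smul_eq_mul, smul_eq_mul, mul_left_comm, tX])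
      (fun a => by
        rw [LinearMap.comp_apply, LinearMap.comp_apply, Dual_mu_apply, Dual_mu_apply,
          Dual_mu_apply, smul_eq_mul, smul_eq_mul, smul_eq_mul, mul_left_comm, tY]) z
    rw [LinearMap.comp_apply, Dual_mu_apply, smul_eq_mul] at h2
    rw [h2, Matrix.mulVec, dotProduct]
    refine Finset.sum_congr rfl fun j _ => ?_
    rw [LinearMap.comp_apply, Dual_mu_apply, smul_eq_mul, hGm, Matrix.of_apply, mul_comm]
  have h3 : κ z = Gm⁻¹.mulVec (fun q => τ (e q * z)) := by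
    have h4 : (fun q => τ (e q * z)) = Gm.mulVec (κ z) := funext fun q => (h1 q).symm
    rw [h4, Matrix.mulVec_mulVec, Matrix.nonsing_inv_mul _ hG, Matrix.one_mulVec]
  have h5 : ∀ j, κ z j ∈ Dual_vI k N := by
    intro j
    rw [h3, Matrix.mulVec, dotProduct]
    exact Ideal.sum_mem _ fun q _ => Ideal.mul_mem_left _ _ (hz _)
  obtain ⟨u, v, huv⟩ := hκ.sat N z h5
  rw [Dual_mu_pow, Dual_mu_pow, smul_eq_mul, smul_eq_mul] at huv
  exact ⟨u, v, huv⟩

/-- T2 -/
theorem Dual_T2 (tX : ∀ a, τ (X * a) = pX * τ a) (tY : ∀ a, τ (Y * a) = pY * τ a)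
    (hκ : Cm (mu k A X) (mu k A Y) e κ)
    (hG : IsUnit (Matrix.det (Matrix.of fun i j : Fin l => τ (e i * e j)))) (N : ℕ)
    (ξ : A →ₗ[k] P2 k) (hξX : ∀ a, ξ (X * a) = pX * ξ a) (hξY : ∀ a, ξ (Y * a) = pY * ξ a) :
    ∃ c : A, ∀ a, ξ a - τ (a * c) ∈ Dual_vI k N := by
  set Gm : Matrix (Fin l) (Fin l) (P2 k) := Matrix.of fun i j : Fin l => τ (e i * e j) with hGm
  set γ : Fin l → P2 k := Gm⁻¹.mulVec (fun q => ξ (e q)) with hγ
  have h1 : ∀ q, ξ (e q) = ∑ p, τ (e q * e p) * γ p := by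
    intro q
    have h2 : Gm.mulVec γ = fun q => ξ (e q) := by
      rw [hγ, Matrix.mulVec_mulVec, Matrix.mul_nonsing_inv _ hG, Matrix.one_mulVec]
    have h3 := congrFun h2 q
    rw [← h3, Matrix.mulVec, dotProduct]
    rfl
  refine ⟨∑ p, Dual_trA X Y N (γ p) * e p, ?_⟩
  have h4 : ∀ a, τ (a * ∑ p, Dual_trA X Y N (γ p) * e p) = ∑ p, Dual_tr N (γ p) * τ (a * e p) := by
    intro a
    rw [Finset.mul_sum, map_sum]
    refine Finset.sum_congr rfl fun p _ => ?_
    rw [mul_left_comm, Dual_tau_trA tX tY]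
  have h5 : ∀ q, ξ (e q) - τ (e q * ∑ p, Dual_trA X Y N (γ p) * e p) ∈ Dual_vI k N := by
    intro q
    rw [h4, h1, ← Finset.sum_sub_distrib]
    refine Ideal.sum_mem _ fun p _ => ?_
    have h6 : τ (e q * e p) * γ p - Dual_tr N (γ p) * τ (e q * e p) =
        τ (e q * e p) * (γ p - Dual_tr N (γ p)) := by ring
    rw [h6]
    exact Ideal.mul_mem_left _ _ (Dual_tr_mem _ _)
  intro a
  set c : A := ∑ p, Dual_trA X Y N (γ p) * e p with hc
  have h7 := Dual_univ hκ (ξ - τ.comp (mu k A c))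
    (fun a => by
      simp only [LinearMap.sub_apply, LinearMap.comp_apply, Dual_mu_apply, smul_eq_mul]
      rw [hξX, mul_left_comm, tX, mul_sub])
    (fun a => by
      simp only [LinearMap.sub_apply, LinearMap.comp_apply, Dual_mu_apply, smul_eq_mul]
      rw [hξY, mul_left_comm, tY, mul_sub]) a
  simp only [LinearMap.sub_apply, LinearMap.comp_apply, Dual_mu_apply, smul_eq_mul] at h7
  rw [mul_comm a c, h7]
  refine Ideal.sum_mem _ fun j _ => Ideal.mul_mem_left _ _ ?_
  rw [mul_comm c]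
  exact h5 j

variable {F G : Type} [AddCommGroup F] [AddCommGroup G] [Module k F] [Module k G] [Module A F]
    [Module A G] [IsScalarTower k A F] [IsScalarTower k A G]

omit [Module k G] [IsScalarTower k A G] in
/-- representing a functional through an adapted basis -/
theorem Dual_rep (tX : ∀ a, τ (X * a) = pX * τ a) (tY : ∀ a, τ (Y * a) = pY * τ a)
    (hκ : Cm (mu k A X) (mu k A Y) e κ)
    (hG : IsUnit (Matrix.det (Matrix.of fun i j : Fin l => τ (e i * e j)))) (N n : ℕ)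
    (β : F →ₗ[A] G →ₗ[A] A) (Z : A) (pZ : P2 k) (hpZ : pZ ≠ 0)
    (tZ : ∀ a, τ (Z ^ n * a) = pZ ^ n * τ a)
    (ξ : F →ₗ[k] P2 k) (hξX : ∀ a, ξ (X • a) = pX * ξ a) (hξY : ∀ a, ξ (Y • a) = pY * ξ a)
    (hξZ : ∀ a, ξ (Z ^ n • a) = pZ ^ n * ξ a)
    (hZ : ∃ (r : ℕ) (f : Fin r → F) (g : Fin r → G),
      (∀ i j, β (f i) (g j) = if i = j then Z ^ n else 0) ∧
      ∀ x : F, ∃ a : Fin r → A, Z ^ n • x = ∑ i, a i • f i) :
    ∃ g : G, ∀ b, τ (β b g) - pZ ^ n * ξ b ∈ Dual_vI k N := by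
  obtain ⟨r, f, g, hfg, hF⟩ := hZ
  have h1 : ∀ i : Fin r, ∃ c : A, ∀ a, ξ (a • f i) - τ (a * c) ∈ Dual_vI k N := by
    intro i
    exact Dual_T2 tX tY hκ hG N (ξ.comp ((LinearMap.toSpanSingleton A F (f i)).restrictScalars k))
      (fun a => by
        simp only [LinearMap.comp_apply, LinearMap.restrictScalars_apply,
          LinearMap.toSpanSingleton_apply]
        rw [mul_smul, hξX])
      (fun a => by
        simp only [LinearMap.comp_apply, LinearMap.restrictScalars_apply,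
          LinearMap.toSpanSingleton_apply]
        rw [mul_smul, hξY])
  choose c hc using h1
  refine ⟨∑ j, c j • g j, fun b => ?_⟩
  obtain ⟨a, ha⟩ := hF b
  have h2 : Z ^ n * β b (∑ j, c j • g j) = Z ^ n * ∑ i, a i * c i := by
    have h3 : Z ^ n * β b (∑ j, c j • g j) = β (Z ^ n • b) (∑ j, c j • g j) := by
      rw [map_smul, LinearMap.smul_apply, smul_eq_mul]
    have h6 : β (∑ i, a i • f i) = ∑ i, a i • β (f i) := by
      rw [map_sum]
      exact Finset.sum_congr rfl fun i _ => map_smul _ _ _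
    rw [h3, ha, h6, LinearMap.sum_apply, Finset.mul_sum]
    refine Finset.sum_congr rfl fun i _ => ?_
    rw [LinearMap.smul_apply, map_sum, Finset.sum_eq_single_of_mem i (Finset.mem_univ _),
      map_smul, hfg, if_pos rfl, smul_eq_mul, smul_eq_mul]
    · ring
    · intro j _ hj
      rw [map_smul, hfg, if_neg (Ne.symm hj), smul_zero]
  have h4 : τ (β b (∑ j, c j • g j)) = ∑ i, τ (a i * c i) := by
    refine mul_left_cancel₀ (pow_ne_zero n hpZ) ?_
    rw [← tZ, h2, tZ, map_sum]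
  have h5 : pZ ^ n * ξ b = ∑ i, ξ (a i • f i) := by
    rw [← hξZ, ha, map_sum]
  rw [h4, h5, ← neg_sub, ← Finset.sum_sub_distrib]
  exact (Dual_vI k N).neg_mem (Ideal.sum_mem _ fun i _ => hc i (a i))

end Gram

end DualMod

/-- Dual -/
theorem dual {k A : Type} [Field k] [CommRing A] [IsDomain A] [Algebra k A] {X Y : A}
    (τ : A →ₗ[k] P2 k) (tX : ∀ a, τ (X * a) = pX * τ a) (tY : ∀ a, τ (Y * a) = pY * τ a)
    (hAf : Fg2 (mu k A X) (mu k A Y)) (hAr : Reg2 (mu k A X) (mu k A Y))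
    (gram : ∀ {l : ℕ} (e : Fin l → A), LB (mu k A X) (mu k A Y) e →
      IsUnit (Matrix.det (Matrix.of fun i j : Fin l => τ (e i * e j))))
    {F G : Type} [AddCommGroup F] [AddCommGroup G] [Module k F] [Module k G] [Module A F]
    [Module A G] [IsScalarTower k A F] [IsScalarTower k A G] (β : F →ₗ[A] G →ₗ[A] A)
    (hFr : Reg2 (mu k F X) (mu k F Y)) (hFf : Fg2 (mu k F X) (mu k F Y))
    (hGX : ∀ g : G, X • g = 0 → g = 0) (hGY : ∀ g : G, Y • g = 0 → g = 0) (G' : Submodule A G)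
    (hker : ∀ g, g ∈ G' ↔ ∀ b, β b g = 0) (n : ℕ)
    (hX : ∃ (r : ℕ) (f : Fin r → F) (g : Fin r → G),
      (∀ i j, β (f i) (g j) = if i = j then X ^ n else 0) ∧
      ∀ x : F, ∃ a : Fin r → A, X ^ n • x = ∑ i, a i • f i)
    (hY : ∃ (r : ℕ) (f : Fin r → F) (g : Fin r → G),
      (∀ i j, β (f i) (g j) = if i = j then Y ^ n else 0) ∧
      ∀ x : F, ∃ a : Fin r → A, Y ^ n • x = ∑ i, a i • f i)
    (s : G) (hs : ∀ b, ∃ u v : A, β b s = X ^ n * u + Y ^ n * v) :
    ∃ (m : ℕ) (g' : G) (u v : G), g' ∈ G' ∧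
      (X * Y) ^ m • s = g' + X ^ (n + m) • u + Y ^ (n + m) • v := by
  obtain ⟨l, e, he⟩ := exists_lb hAf
  obtain ⟨κ, hκ⟩ := exists_cm hAr he
  have hG := gram e he
  obtain ⟨ν, bF, hbF⟩ := exists_lb hFf
  obtain ⟨κF, hκF⟩ := exists_cm hFr hbF
  have hXne : X ≠ 0 := by
    intro h
    have := hAr.inj (1 : A) (by rw [Dual_mu_apply, h, zero_smul])
    exact one_ne_zero this
  choose u0 v0 huv using fun j => hs (bF j)
  have hlX : ∀ (w : Fin ν → P2 k) (a : F), ∑ j, κF (X • a) j * w j = pX * ∑ j, κF a j * w j := by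
    intro w a
    rw [Finset.mul_sum]
    refine Finset.sum_congr rfl fun j _ => ?_
    have := hκF.mx a j
    rw [Dual_mu_apply] at this
    rw [this, mul_assoc]
  have hlY : ∀ (w : Fin ν → P2 k) (a : F), ∑ j, κF (Y • a) j * w j = pY * ∑ j, κF a j * w j := by
    intro w a
    rw [Finset.mul_sum]
    refine Finset.sum_congr rfl fun j _ => ?_
    have := hκF.my a j
    rw [Dual_mu_apply] at this
    rw [this, mul_assoc]
  let lin : (Fin ν → P2 k) → (F →ₗ[k] P2 k) := fun w =>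
    { toFun := fun a => ∑ j, κF a j * w j
      map_add' := fun a b => by
        simp only [map_add, Pi.add_apply, add_mul, Finset.sum_add_distrib]
      map_smul' := fun r a => by
        simp only [map_smul, Pi.smul_apply, smul_mul_assoc, Finset.smul_sum, RingHom.id_apply] }
  have hlin : ∀ w a, lin w a = ∑ j, κF a j * w j := fun _ _ => rfl
  have hpow : ∀ (Z : A) (pZ : P2 k) (ξ : F →ₗ[k] P2 k), (∀ a, ξ (Z • a) = pZ * ξ a) →
      ∀ (m : ℕ) (a : F), ξ (Z ^ m • a) = pZ ^ m * ξ a := by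
    intro Z pZ ξ h m a
    induction m with
    | zero => simp
    | succ m ih => rw [pow_succ', mul_smul, h, ih, pow_succ', mul_assoc]
  have hξX : ∀ w a, lin w (X • a) = pX * lin w a := fun w a => by rw [hlin, hlin, hlX]
  have hξY : ∀ w a, lin w (Y • a) = pY * lin w a := fun w a => by rw [hlin, hlin, hlY]
  obtain ⟨gx, hgx⟩ := Dual_rep tX tY hκ hG (n + 2 * n) n β Y pY Dual_pY_ne
    (fun a => Dual_tau_pow' tY n a) (lin fun j => τ (u0 j)) (hξX _) (hξY _)
    (hpow Y pY _ (hξY _) n) hY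
  obtain ⟨gy, hgy⟩ := Dual_rep tX tY hκ hG (n + 2 * n) n β X pX Dual_pX_ne
    (fun a => Dual_tau_pow tX n a) (lin fun j => τ (v0 j)) (hξX _) (hξY _)
    (hpow X pX _ (hξX _) n) hX
  have hlam : ∀ b, τ (β b s) = pX ^ n * lin (fun j => τ (u0 j)) b +
      pY ^ n * lin (fun j => τ (v0 j)) b := by
    intro b
    have h1 := Dual_univ hκF (τ.comp ((β.flip s).restrictScalars k))
      (fun a => by
        simp only [LinearMap.comp_apply, LinearMap.restrictScalars_apply, LinearMap.flip_apply,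
          Dual_mu_apply, map_smul, smul_eq_mul]
        rw [tX])
      (fun a => by
        simp only [LinearMap.comp_apply, LinearMap.restrictScalars_apply, LinearMap.flip_apply,
          Dual_mu_apply, map_smul, smul_eq_mul]
        rw [tY]) b
    simp only [LinearMap.comp_apply, LinearMap.restrictScalars_apply, LinearMap.flip_apply] at h1
    rw [h1, hlin, hlin, Finset.mul_sum, Finset.mul_sum, ← Finset.sum_add_distrib]
    refine Finset.sum_congr rfl fun j _ => ?_
    rw [huv, map_add, Dual_tau_pow tX, Dual_tau_pow' tY]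
    ring
  set w : G := (X * Y) ^ n • s - X ^ (2 * n) • gx - Y ^ (2 * n) • gy with hw
  have hbw : ∀ b, τ (β b w) ∈ Dual_vI k (n + 2 * n) := by
    intro b
    have h1 : τ (β b w) = -(pX ^ (2 * n) * (τ (β b gx) - pY ^ n * lin (fun j => τ (u0 j)) b)) -
        pY ^ (2 * n) * (τ (β b gy) - pX ^ n * lin (fun j => τ (v0 j)) b) := by
      have h2 : β b w = X ^ n * (Y ^ n * β b s) - X ^ (2 * n) * β b gx -
          Y ^ (2 * n) * β b gy := by
        rw [hw, map_sub (β b), map_sub (β b), map_smul (β b), map_smul (β b), map_smul (β b),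
          smul_eq_mul, smul_eq_mul, smul_eq_mul, mul_pow, mul_assoc]
      rw [h2, map_sub, map_sub, Dual_tau_pow tX, Dual_tau_pow' tY,
        Dual_tau_pow tX, Dual_tau_pow' tY, hlam]
      ring
    rw [h1]
    exact Ideal.sub_mem _ ((Dual_vI k _).neg_mem (Ideal.mul_mem_left _ _ (hgx b)))
      (Ideal.mul_mem_left _ _ (hgy b))
  have hbw' : ∀ b, ∃ u v : A, β b w = X ^ (n + 2 * n) * u + Y ^ (n + 2 * n) * v := by
    intro b
    refine Dual_T1 tX tY hκ hG (n + 2 * n) (β b w) fun a => ?_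
    have h1 := hbw (a • b)
    rwa [map_smul, LinearMap.smul_apply, smul_eq_mul] at h1
  obtain ⟨r, f, g, hfg, hF⟩ := hX
  have hv : X ^ n • w - ∑ i, β (f i) w • g i ∈ G' := by
    rw [hker]
    have h1 : ∀ j, β (f j) (X ^ n • w - ∑ i, β (f i) w • g i) = 0 := by
      intro j
      rw [map_sub, map_smul, map_sum, Finset.sum_eq_single_of_mem j (Finset.mem_univ _), map_smul,
        hfg, if_pos rfl, smul_eq_mul, smul_eq_mul, mul_comm, sub_self]
      intro i _ hi
      rw [map_smul, hfg, if_neg (Ne.symm hi), smul_zero]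
    intro b
    obtain ⟨a, ha⟩ := hF b
    have h2 : X ^ n * β b (X ^ n • w - ∑ i, β (f i) w • g i) = 0 := by
      have h3 : X ^ n * β b (X ^ n • w - ∑ i, β (f i) w • g i) =
          β (X ^ n • b) (X ^ n • w - ∑ i, β (f i) w • g i) := by
        rw [map_smul, LinearMap.smul_apply, smul_eq_mul]
      have h6 : β (∑ i, a i • f i) = ∑ i, a i • β (f i) := by
        rw [map_sum]
        exact Finset.sum_congr rfl fun i _ => map_smul _ _ _
      rw [h3, ha, h6, LinearMap.sum_apply]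
      refine Finset.sum_eq_zero fun i _ => ?_
      rw [LinearMap.smul_apply, h1, smul_zero]
    exact (mul_eq_zero.1 h2).resolve_left (pow_ne_zero _ hXne)
  choose u1 v1 huv1 using fun i => hbw' (f i)
  refine ⟨2 * n, Y ^ n • (X ^ n • w - ∑ i, β (f i) w • g i),
    Y ^ n • ∑ i, u1 i • g i + Y ^ n • gx, Y ^ n • ∑ i, v1 i • g i + X ^ n • gy,
    G'.smul_mem _ hv, ?_⟩
  have h1 : ∑ i, β (f i) w • g i = X ^ (n + 2 * n) • ∑ i, u1 i • g i +
      Y ^ (n + 2 * n) • ∑ i, v1 i • g i := by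
    rw [Finset.smul_sum, Finset.smul_sum, ← Finset.sum_add_distrib]
    refine Finset.sum_congr rfl fun i _ => ?_
    rw [huv1, add_smul, mul_smul, mul_smul]
  have h2 : (X * Y) ^ n • s = w + X ^ (2 * n) • gx + Y ^ (2 * n) • gy := by
    rw [hw]
    abel
  have h3 : (X * Y) ^ (2 * n) • s = (X * Y) ^ n • ((X * Y) ^ n • s) := by
    rw [← mul_smul, ← pow_add, two_mul]
  rw [h3, h2, h1]
  module

end Pool.Agent.MIY
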