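import Pool.Agent.MIY.DualB

/-!
# MIY/DualK: the kernel of the completed pairing comes from the orthogonal submodule
-/

set_option autoImplicit false
set_option linter.unusedSectionVars false

namespace Pool.Agent.MIY

open Pool.Agent.LNDF

variable {k A : Type} [Field k] [CommRing A] [Algebra k A] {X Y : A}
  {F G : Type} [AddCommGroup F] [AddCommGroup G] [Module k F] [Module k G] [Module A F]
  [Module A G] [IsScalarTower k A F] [IsScalarTower k A G]

namespace DualKAux

theorem pow_z {G : Type} [AddCommGroup G] [Module k G] [Module A G] {q : ℕ} {κG : G →ₗ[k] (Fin q → P2 k)} {Z : A} {zp : P2 k}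
    (hκz : ∀ x c, κG (Z • x) c = zp * κG x c) (n : ℕ) (x : G) (c : Fin q) : κG (Z ^ n • x) c = zp ^ n * κG x c := by
  induction n generalizing x with
  | zero => rw [pow_zero, pow_zero, one_smul, one_mul]
  | succ n ih => rw [pow_succ, mul_smul, ih, hκz, pow_succ, mul_assoc]

/-- a vector orthogonal to all `τ (a e_m)` is zero -/
theorem gram_zero {l : ℕ} {T : Matrix (Fin l) (Fin l) (P2 k)} (h : IsUnit T.det) {y : Fin l → P2 k} (hy : ∀ m', ∑ m, y m * T m m' = 0) : y = 0 := by
  have h1 : Matrix.vecMul y T = 0 := by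
    funext m'
    exact hy m'
  have h2 := congrArg (fun z => Matrix.vecMul z T⁻¹) h1
  simp only [Matrix.vecMul_vecMul, Matrix.mul_nonsing_inv T h, Matrix.vecMul_one, Matrix.zero_vecMul] at h2
  exact h2

end DualKAux

open DualKAux

/-- 29 -/
theorem dual_ker {τ : A → P2 k} (hτ : Li X Y τ) {l : ℕ} {e : Fin l → A}
    {κA : A →ₗ[k] (Fin l → P2 k)} (hA : Cm (mu k A X) (mu k A Y) e κA)
    (gram : IsUnit (Matrix.det (Matrix.of fun i j : Fin l => τ (e i * e j))))
    (β : F →ₗ[A] G →ₗ[A] A) {q : ℕ} {bG : Fin q → G} {κG : G →ₗ[k] (Fin q → P2 k)}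
    (hG : Cm (mu k G X) (mu k G Y) bG κG) (G' : Submodule A G) {q' : ℕ} {bG' : Fin q' → G'}
    {κG' : G' →ₗ[k] (Fin q' → P2 k)} (hG' : Cm (mu k G' X) (mu k G' Y) bG' κG')
    (hker : ∀ g, g ∈ G' ↔ ∀ b, β b g = 0) (n : ℕ) (Z : A) (zp : P2 k)
    (hinj : ∀ a : A, Z ^ n * a = 0 → a = 0) (hκz : ∀ x c, κG (Z • x) c = zp * κG x c)
    {r : ℕ} (f : Fin r → F) (g : Fin r → G)
    (hfg : ∀ i j, β (f i) (g j) = if i = j then Z ^ n else 0)
    (hf : ∀ x : F, ∃ a : Fin r → A, Z ^ n • x = ∑ i, a i • f i) (v : Fin q → P2 k)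
    (hv : ∀ x : F, ∑ c, v c * τ (β x (bG c)) = 0) :
    ∃ w : Fin q' → P2 k, ∀ c, zp ^ n * v c = ∑ j, w j * κG (bG' j : G) c := by
  classical
  -- the projection
  obtain ⟨p, hp⟩ : ∃ p : G →ₗ[A] G, ∀ x, p x = Z ^ n • x - ∑ i, β (f i) x • g i := by
    refine ⟨Z ^ n • LinearMap.id - ∑ i, (β (f i)).smulRight (g i), fun x => ?_⟩
    simp [LinearMap.sum_apply]
  have hfp : ∀ m x, β (f m) (p x) = 0 := by
    intro m x
    rw [hp, map_sub, map_smul, map_sum]
    have h1 : ∑ i, β (f m) (β (f i) x • g i) = β (f m) x * Z ^ n := by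
      rw [Finset.sum_eq_single m]
      · rw [map_smul, hfg, if_pos rfl, smul_eq_mul]
      · intro i _ hi
        rw [map_smul, hfg, if_neg (Ne.symm hi), smul_zero]
      · intro h
        exact absurd (Finset.mem_univ m) h
    rw [h1, smul_eq_mul, mul_comm, sub_self]
  have hpG : ∀ x, p x ∈ G' := by
    intro x
    rw [hker]
    intro b
    apply hinj
    obtain ⟨a, ha⟩ := hf b
    have h1 : Z ^ n * β b (p x) = β (Z ^ n • b) (p x) := by
      rw [map_smul, LinearMap.smul_apply, smul_eq_mul]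
    rw [h1, ha, map_sum, LinearMap.sum_apply]
    exact Finset.sum_eq_zero fun i _ => by rw [map_smul, LinearMap.smul_apply, hfp, smul_zero]
  -- coordinates of the elements of `G'`
  have hres : ∀ (x : G') (c : Fin q), κG (x : G) c = ∑ j, κG' x j * κG (bG' j : G) c := fun x c =>
    Li.eq hG' ((hG.li c).comp G'.subtype) x
  -- the vectors `y`
  have hy : ∀ i m, ∑ c, v c * κA (β (f i) (bG c)) m = 0 := by
    intro i m
    have h1 : (fun m => ∑ c, v c * κA (β (f i) (bG c)) m) = 0 := by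
      refine gram_zero gram fun m' => ?_
      have h2 : ∀ a : A, τ (a * e m') = ∑ m, κA a m * τ (e m * e m') := by
        intro a
        have h3 := Li.eq hA (hτ.comp (LinearMap.toSpanSingleton A A (e m'))) a
        simpa [LinearMap.toSpanSingleton_apply, smul_eq_mul] using h3
      have h4 := hv (e m' • f i)
      rw [← h4]
      simp only [Matrix.of_apply, Finset.sum_mul]
      rw [Finset.sum_comm]
      refine Finset.sum_congr rfl fun c _ => ?_
      rw [map_smul, LinearMap.smul_apply, smul_eq_mul, mul_comm (e m'), h2, Finset.mul_sum]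
      exact Finset.sum_congr rfl fun m _ => by rw [mul_assoc]
    exact congrFun h1 m
  refine ⟨fun j => ∑ c, v c * κG' ⟨p (bG c), hpG _⟩ j, fun c' => ?_⟩
  have h5 : ∑ j, (∑ c, v c * κG' ⟨p (bG c), hpG _⟩ j) * κG (bG' j : G) c' = ∑ c, v c * κG (p (bG c)) c' := by
    simp only [Finset.sum_mul]
    rw [Finset.sum_comm]
    refine Finset.sum_congr rfl fun c _ => ?_
    rw [hres ⟨p (bG c), hpG _⟩ c', Finset.mul_sum]
    exact Finset.sum_congr rfl fun j _ => by rw [mul_assoc]
  have h6 : ∀ i, ∑ c, v c * κG (β (f i) (bG c) • g i) c' = 0 := by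
    intro i
    have h7 : ∀ a : A, κG (a • g i) c' = ∑ m, κA a m * κG (e m • g i) c' := by
      intro a
      have h3 := Li.eq hA ((hG.li c').comp (LinearMap.toSpanSingleton A G (g i))) a
      simpa [LinearMap.toSpanSingleton_apply] using h3
    have h8 : ∑ c, v c * κG (β (f i) (bG c) • g i) c' = ∑ m, (∑ c, v c * κA (β (f i) (bG c)) m) * κG (e m • g i) c' := by
      simp only [Finset.sum_mul]
      rw [Finset.sum_comm]
      refine Finset.sum_congr rfl fun c _ => ?_
      rw [h7, Finset.mul_sum]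
      exact Finset.sum_congr rfl fun m _ => by rw [mul_assoc]
    rw [h8]
    exact Finset.sum_eq_zero fun m _ => by rw [hy, zero_mul]
  rw [h5]
  have h9 : ∀ c, κG (p (bG c)) c' = zp ^ n * κG (bG c) c' - ∑ i, κG (β (f i) (bG c) • g i) c' := by
    intro c
    rw [hp, map_sub, map_sum, Pi.sub_apply, Finset.sum_apply, pow_z hκz]
  simp only [h9, mul_sub, Finset.sum_sub_distrib, Finset.mul_sum]
  rw [Finset.sum_comm (f := fun c i => v c * κG (β (f i) (bG c) • g i) c')]
  rw [Finset.sum_eq_zero (f := fun i => ∑ c, v c * κG (β (f i) (bG c) • g i) c') fun i _ => h6 i, sub_zero]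
  rw [Finset.sum_eq_single c']
  · rw [hG.base, Pi.single_eq_same, mul_one, mul_comm]
  · intro c _ hc
    rw [hG.base, Pi.single_eq_of_ne (Ne.symm hc), mul_zero, mul_zero]
  · intro h
    exact absurd (Finset.mem_univ c') h

end Pool.Agent.MIY
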