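import Pool.Agent.MIY.DualA

/-!
# MIY/DualV: the ideal `(X ^ n, Y ^ n)` of the ring of power series and truncation
-/

set_option autoImplicit false
set_option linter.unusedSectionVars false

namespace Pool.Agent.MIY

open Pool.Agent.LNDF

section

variable {k : Type} [Field k]

theorem cf_add (i j : ℕ) (u v : P2 k) : cf i j (u + v) = cf i j u + cf i j v := by
  unfold cf
  rw [map_add, map_add]

theorem cf_sub (i j : ℕ) (u v : P2 k) : cf i j (u - v) = cf i j u - cf i j v := by
  unfold cf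
  rw [map_sub, map_sub]

theorem cf_zero (i j : ℕ) : cf i j (0 : P2 k) = 0 := by
  unfold cf
  rw [map_zero, map_zero]

theorem cf_sum {ι : Type} (s : Finset ι) (f : ι → P2 k) (i j : ℕ) :
    cf i j (∑ a ∈ s, f a) = ∑ a ∈ s, cf i j (f a) := by
  unfold cf
  rw [map_sum, map_sum]

theorem Van.add {n : ℕ} {u v : P2 k} (hu : Van n u) (hv : Van n v) : Van n (u + v) :=
  fun i j hi hj => by rw [cf_add, hu i j hi hj, hv i j hi hj, add_zero]

theorem Van.sub {n : ℕ} {u v : P2 k} (hu : Van n u) (hv : Van n v) : Van n (u - v) :=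
  fun i j hi hj => by rw [cf_sub, hu i j hi hj, hv i j hi hj, sub_zero]

theorem Van.sum {n : ℕ} {ι : Type} (s : Finset ι) {f : ι → P2 k} (h : ∀ a ∈ s, Van n (f a)) :
    Van n (∑ a ∈ s, f a) :=
  fun i j hi hj => by
    rw [cf_sum]
    exact Finset.sum_eq_zero fun a ha => h a ha i j hi hj

theorem Van.mul {n : ℕ} {u : P2 k} (hu : Van n u) (v : P2 k) : Van n (u * v) := by
  intro i j hi hj
  unfold cf
  rw [PowerSeries.coeff_mul, map_sum]
  refine Finset.sum_eq_zero fun p hp => ?_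
  rw [PowerSeries.coeff_mul]
  refine Finset.sum_eq_zero fun q hq => ?_
  rw [Finset.HasAntidiagonal.mem_antidiagonal] at hp hq
  have h := hu q.1 p.1 (by omega) (by omega)
  unfold cf at h
  rw [h, zero_mul]

theorem Van.mul' {n : ℕ} {u : P2 k} (hu : Van n u) (v : P2 k) : Van n (v * u) := by
  rw [mul_comm]
  exact hu.mul v

theorem coeff_pX_pow (n : ℕ) : (pX : P2 k) ^ n = PowerSeries.C (PowerSeries.X ^ n) := by
  rw [map_pow]
  rfl

theorem cf_pX_mul (n i j : ℕ) (u : P2 k) :
    cf i j (pX ^ n * u) = if n ≤ i then cf (i - n) j u else 0 := by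
  rw [coeff_pX_pow]
  unfold cf
  rw [PowerSeries.coeff_C_mul, PowerSeries.coeff_X_pow_mul']

theorem cf_pY_mul (n i j : ℕ) (u : P2 k) :
    cf i j (pY ^ n * u) = if n ≤ j then cf i (j - n) u else 0 := by
  unfold cf pY
  rw [PowerSeries.coeff_X_pow_mul']
  split_ifs
  · rfl
  · rw [map_zero]

theorem cf_pC_mul (i j : ℕ) (r : k) (u : P2 k) : cf i j (pC r * u) = r * cf i j u := by
  unfold cf pC
  rw [PowerSeries.coeff_C_mul, PowerSeries.coeff_C_mul]

theorem cf_one (i j : ℕ) : cf i j (1 : P2 k) = if i = 0 ∧ j = 0 then 1 else 0 := by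
  unfold cf
  rw [PowerSeries.coeff_one]
  by_cases hj : j = 0
  · rw [if_pos hj, PowerSeries.coeff_one]
    by_cases hi : i = 0
    · rw [if_pos hi, if_pos ⟨hi, hj⟩]
    · rw [if_neg hi, if_neg fun h => hi h.1]
  · rw [if_neg hj, map_zero, if_neg fun h => hj h.2]

theorem van_X (n : ℕ) (u : P2 k) : Van n (pX ^ n * u) := fun i j hi _ => by
  rw [cf_pX_mul, if_neg (by omega)]

theorem van_Y (n : ℕ) (u : P2 k) : Van n (pY ^ n * u) := fun i j _ hj => by
  rw [cf_pY_mul, if_neg (by omega)]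

/-- the truncation -/
noncomputable def tru (n : ℕ) (u : P2 k) : P2 k :=
  ∑ p ∈ Finset.range n, ∑ q ∈ Finset.range n, pC (cf p q u) * (pX ^ p * pY ^ q)

theorem cf_mon (p q i j : ℕ) : cf i j ((pX : P2 k) ^ p * pY ^ q) = if i = p ∧ j = q then 1 else 0 := by
  rw [cf_pX_mul]
  by_cases hp : p ≤ i
  · rw [if_pos hp]
    have h := cf_pY_mul q (i - p) j (1 : P2 k)
    rw [mul_one] at h
    rw [h]
    by_cases hq : q ≤ j
    · rw [if_pos hq, cf_one]
      congr 1
      rw [eq_iff_iff]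
      omega
    · rw [if_neg hq, if_neg (by omega)]
  · rw [if_neg hp, if_neg (by omega)]

theorem cf_tru (n : ℕ) (u : P2 k) (i j : ℕ) (hi : i < n) (hj : j < n) :
    cf i j (tru n u) = cf i j u := by
  unfold tru
  rw [cf_sum, Finset.sum_eq_single i]
  · rw [cf_sum, Finset.sum_eq_single j]
    · rw [cf_pC_mul, cf_mon, if_pos ⟨rfl, rfl⟩, mul_one]
    · intro q _ hq
      rw [cf_pC_mul, cf_mon, if_neg fun h => hq h.2.symm, mul_zero]
    · intro h
      exact absurd (Finset.mem_range.2 hj) h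
  · intro p _ hp
    rw [cf_sum]
    refine Finset.sum_eq_zero fun q _ => ?_
    rw [cf_pC_mul, cf_mon, if_neg fun h => hp h.1.symm, mul_zero]
  · intro h
    exact absurd (Finset.mem_range.2 hi) h

theorem van_tru (n : ℕ) (u : P2 k) : Van n (tru n u - u) := fun i j hi hj => by
  rw [cf_sub, cf_tru n u i j hi hj, sub_self]

end

section

variable {k A : Type} [Field k] [CommRing A] [Algebra k A] {X Y : A} {M : Type} [AddCommGroup M]
  [Module k M] [Module A M] [IsScalarTower k A M]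

/-- the element of the module with truncated coordinates -/
noncomputable def trel (k : Type) {A : Type} [Field k] [CommRing A] [Algebra k A] (X Y : A)
    {M : Type} [AddCommGroup M] [Module k M] [Module A M] {ν : ℕ} (n : ℕ) (w : Fin ν → P2 k)
    (b : Fin ν → M) : M :=
  ∑ j, ∑ p ∈ Finset.range n, ∑ q ∈ Finset.range n, cf p q (w j) • (X ^ p • Y ^ q • b j)

theorem Li.trel {ψ : M → P2 k} (h : Li X Y ψ) {ν : ℕ} (n : ℕ) (w : Fin ν → P2 k)
    (b : Fin ν → M) : ψ (trel k X Y n w b) = ∑ j, tru n (w j) * ψ (b j) := by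
  unfold Pool.Agent.MIY.trel
  rw [h.sum]
  refine Finset.sum_congr rfl fun j _ => ?_
  rw [h.sum, tru, Finset.sum_mul]
  refine Finset.sum_congr rfl fun p _ => ?_
  rw [h.sum, Finset.sum_mul]
  refine Finset.sum_congr rfl fun q _ => ?_
  rw [h.sm, h.pow_x, h.pow_y]
  ring

end

end Pool.Agent.MIY
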