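import Mathlib
import Pool.Agent.LNDT.Icl
import Pool.Agent.LNDT.ST3
import Pool.Agent.LNDF.Ar1

/-!
# The E-argument for an arbitrary kernel (H/821812_MIY_37, section 7): the degree bound `d` and the data `IData`
-/

set_option autoImplicit false

namespace Pool.Agent.MIY

open Pool.Agent.LNDHom Pool.Agent.LNDT

section gen

variable {k B : Type} [Field k] [CharZero k] [CommRing B] [IsDomain B] [Algebra k B]
  {D E : Derivation k B B}

private lemma gr1_iter_add (D : Derivation k B B) (n : ℕ) (x y : B) :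
    (⇑D)^[n] (x + y) = (⇑D)^[n] x + (⇑D)^[n] y := iterate_map_add D n x y

private lemma gr1_iter_sub (D : Derivation k B B) (n : ℕ) (x y : B) :
    (⇑D)^[n] (x - y) = (⇑D)^[n] x - (⇑D)^[n] y := iterate_map_sub D n x y

omit [CharZero k] [IsDomain B] in
private lemma gr1_iter_cmul {a : B} (ha : D a = 0) (n : ℕ) (x : B) :
    (⇑D)^[n] (a * x) = a * (⇑D)^[n] x := by
  induction n with
  | zero => rfl
  | succ n ih =>
    rw [Function.iterate_succ_apply', ih, Function.iterate_succ_apply', Derivation.leibniz, ha]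
    simp

private lemma gr1_fac_ne (n : ℕ) : (n.factorial : k) ≠ 0 := by
  exact_mod_cast n.factorial_ne_zero

private lemma gr1_ld_sub (n : ℕ) (x y : B) : ld D n (x - y) = ld D n x - ld D n y := by
  rw [ld, ld, ld, gr1_iter_sub, smul_sub]

private lemma gr1_pow {r c : B} (hr : D r = c) (hc : D c = 0) (n : ℕ) :
    (⇑D)^[n + 1] (r ^ n) = 0 ∧ ld D n (r ^ n) = c ^ n := by
  have h1 : (⇑D)^[1 + 1] r = 0 := by
    simp [Function.iterate_succ_apply, hr, hc]
  have h2 : ld D 1 r = c := by simp [ld, hr]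
  induction n with
  | zero => simp [ld]
  | succ n ih =>
    have h3 := ld_mul ih.1 h1
    rw [ih.2, h2] at h3
    rw [pow_succ, pow_succ]
    exact h3

private lemma gr1_diff {r c : B} (hr : D r = c) (hc : D c = 0) {n : ℕ} {x : B}
    (hx : (⇑D)^[n + 1] x = 0) : (⇑D)^[n] (c ^ n * x - ld D n x * r ^ n) = 0 := by
  have hcn : D (c ^ n) = 0 := by
    rw [Derivation.leibniz_pow, hc]
    simp
  have h1 : ld D n (c ^ n * x - ld D n x * r ^ n) = 0 := by
    rw [gr1_ld_sub, ld_cmul hcn, ld_cmul (D_ld hx), (gr1_pow hr hc n).2]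
    ring
  rw [ld] at h1
  exact (smul_eq_zero.1 h1).resolve_left (inv_ne_zero (gr1_fac_ne n))

/-- the bound on the degrees of `E a`, `a` a constant, gives the bound for all elements -/
theorem bd_of_ker (hln : ∀ x, ∃ n, (⇑D)^[n] x = 0) {r c : B} (hr : D r = c) (hc : D c = 0)
    (hc0 : c ≠ 0) {d0 : ℕ} (h0 : ∀ b, D b = 0 → (⇑D)^[d0 + 1] (E b) = 0) : ∃ d, BdE D E d := by
  obtain ⟨a3, h3⟩ := hln (E r)
  set d := d0 + a3 with hd
  have hEr : (⇑D)^[1 + d + 1] (E r) = 0 := iter_zero_of_le D h3 (by omega)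
  have hker0 : ∀ b, D b = 0 → (⇑D)^[d + 1] (E b) = 0 := fun b hb =>
    iter_zero_of_le D (h0 b hb) (by omega)
  refine ⟨d, ?_⟩
  intro n
  induction n with
  | zero =>
    intro x hx
    rw [zero_add]
    exact hker0 x (by simpa using hx)
  | succ n ih =>
    intro x hx
    have hcn : D (c ^ (n + 1)) = 0 := by
      rw [Derivation.leibniz_pow, hc]
      simp
    have hw := ih _ (gr1_diff hr hc hx)
    have hw' : (⇑D)^[n + 1 + d + 1] (E (c ^ (n + 1) * x - ld D (n + 1) x * r ^ (n + 1))) = 0 :=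
      iter_zero_of_le D hw (by omega)
    have hlam : (⇑D)^[d + 1] (E (ld D (n + 1) x)) = 0 := hker0 _ (D_ld hx)
    have hEc : (⇑D)^[d + 1] (E (c ^ (n + 1))) = 0 := hker0 _ hcn
    have t1 : (⇑D)^[n + 1 + d + 1] (r ^ (n + 1) * E (ld D (n + 1) x)) = 0 :=
      (ld_mul (gr1_pow hr hc (n + 1)).1 hlam).1
    have t2 : (⇑D)^[n + (1 + d) + 1] (r ^ n * E r) = 0 := (ld_mul (gr1_pow hr hc n).1 hEr).1
    have t3 : (⇑D)^[n + 1 + d + 1] (x * E (c ^ (n + 1))) = 0 := (ld_mul hx hEc).1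
    have t4 : (⇑D)^[n + 1 + d + 1] (E (ld D (n + 1) x * r ^ (n + 1))) = 0 := by
      rw [Derivation.leibniz, smul_eq_mul, smul_eq_mul, gr1_iter_add, t1, add_zero,
        gr1_iter_cmul (D_ld hx), Derivation.leibniz_pow, Nat.add_sub_cancel, nsmul_eq_mul,
        smul_eq_mul, gr1_iter_cmul (D := D) (by simp), show n + 1 + d + 1 = n + (1 + d) + 1 by omega,
        t2, mul_zero, mul_zero]
    have t5 : (⇑D)^[n + 1 + d + 1] (E (c ^ (n + 1) * x)) = 0 := by
      have e : E (c ^ (n + 1) * x) = E (c ^ (n + 1) * x - ld D (n + 1) x * r ^ (n + 1)) +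
          E (ld D (n + 1) x * r ^ (n + 1)) := by rw [← map_add, sub_add_cancel]
      rw [e, gr1_iter_add, hw', t4, add_zero]
    rw [Derivation.leibniz, smul_eq_mul, smul_eq_mul, gr1_iter_add, t3, add_zero,
      gr1_iter_cmul hcn] at t5
    exact (mul_eq_zero.1 t5).resolve_left (pow_ne_zero _ hc0)

/-- modulo `r`, up to a power of `c`, every element is a constant -/
theorem mod_r {r c : B} (hr : D r = c) (hc : D c = 0) (n : ℕ) : ∀ x : B, (⇑D)^[n + 1] x = 0 →
    ∃ (m : ℕ) (g : B), D g = 0 ∧ r ∣ c ^ m * x - g := by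
  induction n with
  | zero => exact fun x hx => ⟨0, x, by simpa using hx, by simp⟩
  | succ n ih =>
    intro x hx
    obtain ⟨m, g, hg, hd⟩ := ih _ (gr1_diff hr hc hx)
    refine ⟨m + (n + 1), g, hg, ?_⟩
    have h1 : c ^ (m + (n + 1)) * x - g =
        (c ^ m * (c ^ (n + 1) * x - ld D (n + 1) x * r ^ (n + 1)) - g) +
          r * (c ^ m * ld D (n + 1) x * r ^ n) := by
      rw [pow_add, pow_succ' r n]
      ring
    rw [h1]
    exact dvd_add hd (dvd_mul_right _ _)

/-- `r ∣ a` only for `a = 0` if `a` is a constant -/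
theorem const_r (hln : ∀ x, ∃ n, (⇑D)^[n] x = 0) {r c : B} (hr : D r = c) (hc0 : c ≠ 0) {a : B}
    (ha : D a = 0) (h : r ∣ a) : a = 0 := by
  by_contra h0
  have := LNDF.const_of_dvd D hln ha h0 h
  rw [hr] at this
  exact hc0 this

/-- **the degree bound for a finitely generated ring, arbitrary kernel** -/
theorem bd_exists_gen (hln : ∀ x, ∃ n, (⇑D)^[n] x = 0) {r c : B} (hr : D r = c) (hc : D c = 0)
    (hc0 : c ≠ 0) {ν : ℕ} (x : Fin ν → B) (hx : Algebra.adjoin k (Set.range x) = ⊤) :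
    ∃ d, BdE D E d := by
  have h1 : ∀ i, ∃ (m : ℕ) (g : B), D g = 0 ∧ r ∣ c ^ m * x i - g := by
    intro i
    obtain ⟨n, hn⟩ := hln (x i)
    exact mod_r hr hc n (x i) (iter_zero_of_le D hn (Nat.le_succ n))
  choose m g hg hd using h1
  set A' : Subalgebra k B := Algebra.adjoin k (insert c (Set.range g)) with hA'
  have hcA : c ∈ A' := Algebra.subset_adjoin (Set.mem_insert _ _)
  have hgA : ∀ i, g i ∈ A' := fun i => Algebra.subset_adjoin (Set.mem_insert_of_mem _ ⟨i, rfl⟩)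
  have hA0 : ∀ z ∈ A', D z = 0 := by
    intro z hz
    induction hz using Algebra.adjoin_induction with
    | mem z hz =>
      rcases hz with rfl | ⟨i, rfl⟩
      · exact hc
      · exact hg i
    | algebraMap a => exact D.map_algebraMap a
    | add a b _ _ ha hb => rw [map_add, ha, hb, add_zero]
    | mul a b _ _ ha hb => rw [Derivation.leibniz, ha, hb, smul_zero, smul_zero, add_zero]
  -- every element of the ring is, modulo `r` and up to a power of `c`, in `A'`
  have hall : ∀ z : B, ∃ (n : ℕ) (a : B), a ∈ A' ∧ r ∣ c ^ n * z - a := by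
    intro z
    have hz : z ∈ Algebra.adjoin k (Set.range x) := by rw [hx]; exact Algebra.mem_top
    induction hz using Algebra.adjoin_induction with
    | mem z hz =>
      obtain ⟨i, rfl⟩ := hz
      exact ⟨m i, g i, hgA i, hd i⟩
    | algebraMap a => exact ⟨0, _, A'.algebraMap_mem a, by simp⟩
    | add z w _ _ hz hw =>
      obtain ⟨n1, a1, ha1, hd1⟩ := hz
      obtain ⟨n2, a2, ha2, hd2⟩ := hw
      refine ⟨n1 + n2, c ^ n2 * a1 + c ^ n1 * a2,
        add_mem (mul_mem (pow_mem hcA _) ha1) (mul_mem (pow_mem hcA _) ha2), ?_⟩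
      have h1 : c ^ (n1 + n2) * (z + w) - (c ^ n2 * a1 + c ^ n1 * a2) =
          c ^ n2 * (c ^ n1 * z - a1) + c ^ n1 * (c ^ n2 * w - a2) := by
        rw [pow_add]
        ring
      rw [h1]
      exact dvd_add (hd1.mul_left _) (hd2.mul_left _)
    | mul z w _ _ hz hw =>
      obtain ⟨n1, a1, ha1, hd1⟩ := hz
      obtain ⟨n2, a2, ha2, hd2⟩ := hw
      refine ⟨n1 + n2, a1 * a2, mul_mem ha1 ha2, ?_⟩
      have h1 : c ^ (n1 + n2) * (z * w) - a1 * a2 =
          (c ^ n1 * z - a1) * (c ^ n2 * w) + a1 * (c ^ n2 * w - a2) := by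
        rw [pow_add]
        ring
      rw [h1]
      exact dvd_add (hd1.mul_right _) (hd2.mul_left _)
  -- the degrees of `E a`, `a` in `A'`
  have hbd : ∃ d0 : ℕ, ∀ z ∈ A', (⇑D)^[d0 + 1] (E z) = 0 := by
    have h2 : ∀ i, ∃ n, (⇑D)^[n] (E (g i)) = 0 := fun i => hln _
    choose n hn using h2
    obtain ⟨n0, hn0⟩ := hln (E c)
    refine ⟨n0 + ∑ i, n i, fun z hz => ?_⟩
    induction hz using Algebra.adjoin_induction with
    | mem z hz =>
      rcases hz with rfl | ⟨i, rfl⟩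
      · exact iter_zero_of_le D hn0 (by omega)
      · refine iter_zero_of_le D (hn i) ?_
        have := Finset.single_le_sum (f := n) (fun i _ => Nat.zero_le _) (Finset.mem_univ i)
        omega
    | algebraMap a => rw [Derivation.map_algebraMap, iterate_map_zero]
    | add a b _ _ ha hb => rw [map_add, gr1_iter_add, ha, hb, add_zero]
    | mul a b ham hbm ha hb =>
      rw [Derivation.leibniz, smul_eq_mul, smul_eq_mul, gr1_iter_add, gr1_iter_cmul (hA0 a ham),
        gr1_iter_cmul (hA0 b hbm), ha, hb, mul_zero, mul_zero, add_zero]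
  obtain ⟨d0, hd0⟩ := hbd
  refine bd_of_ker hln hr hc hc0 (d0 := d0) fun b hb => ?_
  obtain ⟨n, a, ha, hdiv⟩ := hall b
  have h3 : c ^ n * b - a = 0 := by
    refine const_r hln hr hc0 ?_ hdiv
    rw [map_sub, Derivation.leibniz, hb, smul_zero, zero_add, Derivation.leibniz_pow, hc, hA0 a ha]
    simp
  have h4 := hd0 a ha
  rw [← sub_eq_zero.1 h3, Derivation.leibniz, smul_eq_mul, smul_eq_mul, gr1_iter_add,
    gr1_iter_cmul (hA0 _ (pow_mem hcA n)), gr1_iter_cmul hb, hd0 _ (pow_mem hcA n), mul_zero,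
    add_zero] at h4
  exact (mul_eq_zero.1 h4).resolve_left (pow_ne_zero _ hc0)

end gen

/-- **the hypotheses of the structure theorem for an arbitrary kernel** -/
theorem exists_setup_gen {k : Type} [Field k] [CharZero k]
    (D : Derivation k (MvPolynomial (Fin 3) k) (MvPolynomial (Fin 3) k))
    (hln : ∀ x, ∃ n, (⇑D)^[n] x = 0) {N : ℕ} (hN : 0 < N) {G : MvPolynomial (Fin 3) k}
    (hG : (⇑D)^[N + 1] G = 0) (hG0 : (⇑D)^[N] G ≠ 0)
    (hdiv : ∀ b, ∃ s t, b = s * G + t ∧ (⇑D)^[N] t = 0) {r : MvPolynomial (Fin 3) k}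
    {c : kerAlg D} (hr : D r = c) (hc : LNDF.IsCC D 1 (c : MvPolynomial (Fin 3) k))
    {f : MvPolynomial (Fin 3) k} (hf : D f = 0) (hfc : ∀ a : k, f ≠ MvPolynomial.C a) :
    ∃ E, Setup D E r c N G := by
  obtain ⟨i, hi⟩ := exists_pderiv_ne' (f := f) hfc
  refine ⟨MvPolynomial.pderiv i, hln, pderiv_ln i, hr, fun h => hc.ne (by rw [h]; rfl), ?_, hN,
    hG, hG0, ?_, ⟨f, hf, hi⟩, bd_exists_gen hln hr hc.const hc.ne
      (fun i : Fin 3 => (MvPolynomial.X i : MvPolynomial (Fin 3) k)) ?_⟩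
  · intro x hx
    exact hc.dvd x hx
  · intro n x hx
    obtain ⟨s, t, hst, ht⟩ := hdiv x
    have ht' : (⇑D)^[n + N] t = 0 := iter_zero_of_le D ht (Nat.le_add_left N n)
    have hsG : (⇑D)^[n + N + 1] (s * G) = 0 := by
      have h1 : s * G = x - t := by rw [hst]; ring
      rw [h1, iterate_map_sub, hx, iter_zero_of_le D ht' (Nat.le_succ _), sub_zero]
    have hs := deg_of_mul D hln hG hG0 hsG
    refine ⟨s, hs, ?_⟩
    rw [hst, ld_add, (ld_mul hs hG).2]
    have : ld D (n + N) t = 0 := by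
      unfold ld
      rw [ht', smul_zero]
    rw [this, add_zero, mul_comm]
  · exact MvPolynomial.adjoin_range_X

/-- the graded data of the structure theorem for an arbitrary kernel -/
theorem exists_idata {k : Type} [Field k] [CharZero k]
    (D : Derivation k (MvPolynomial (Fin 3) k) (MvPolynomial (Fin 3) k))
    (hln : ∀ x, ∃ n, (⇑D)^[n] x = 0) {N : ℕ} (hN : 0 < N) {G : MvPolynomial (Fin 3) k}
    (hG : (⇑D)^[N + 1] G = 0) (hG0 : (⇑D)^[N] G ≠ 0)
    (hdiv : ∀ b, ∃ s t, b = s * G + t ∧ (⇑D)^[N] t = 0) {r : MvPolynomial (Fin 3) k}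
    {c : kerAlg D} (hr : D r = c) (hc : LNDF.IsCC D 1 (c : MvPolynomial (Fin 3) k))
    {f : MvPolynomial (Fin 3) k} (hf : D f = 0) (hfc : ∀ a : k, f ≠ MvPolynomial.C a)
    {F : Type} [Field F] [Algebra (kerAlg D) F] [IsFractionRing (kerAlg D) F] :
    ∃ (δ : Derivation ℤ F F) (θ : F) (d : ℕ) (I : ℤ → AddSubgroup F) (h : F),
      IData D c N δ θ d I h := by
  obtain ⟨E, HS⟩ := exists_setup_gen D hln hN hG hG0 hdiv hr hc hf hfc
  exact icl (F := F) HS

end Pool.Agent.MIY
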