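import Mathlib
import Pool.Agent.LNDQ.FdE

set_option autoImplicit false

/-!
# MIY/EA4: factorially closed subalgebras of transcendence degree one, and the kernel from its generic fibre
-/

open Polynomial

namespace Pool.Agent.MIY

open Pool.Agent.LNDF Pool.Agent.LNDQ

variable {k : Type} [Field k] [IsAlgClosed k]

section gen

variable {A : Type} [CommRing A] [IsDomain A] [Algebra k A]

omit [IsAlgClosed k] in
/-- a prime element is transcendental over `k` -/
theorem tr_of_prime {p : A} (hp : Prime p) (q : k[X]) (hq : aeval p q = 0) : q = 0 := by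
  by_contra hne
  obtain ⟨q1, hq1, hq1'⟩ := Polynomial.exists_eq_pow_rootMultiplicity_mul_and_not_dvd q hne 0
  rw [C_0, sub_zero] at hq1 hq1'
  have h0 : q1.coeff 0 ≠ 0 := fun h => hq1' (X_dvd_iff.2 h)
  rw [hq1, map_mul, map_pow, aeval_X, mul_eq_zero] at hq
  have h1 : aeval p q1 = 0 := hq.resolve_left (pow_ne_zero _ hp.ne_zero)
  rw [← Polynomial.X_mul_divX_add q1, map_add, map_mul, aeval_X, aeval_C] at h1
  apply hp.not_isUnit
  refine isUnit_of_dvd_unit (y := algebraMap k A (q1.coeff 0)) ⟨-(aeval p q1.divX), by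
    linear_combination h1⟩ ((IsUnit.mk0 _ h0).map (algebraMap k A))

/-- `p` prime, no `c - λ` divisible by `p`: then `p` and `c` are algebraically independent -/
theorem ind_of_prime {u v : A} (hu : Prime u) (hv : ∀ c : k, ¬ u ∣ v - algebraMap k A c) :
    AlgebraicIndependent k ![u, v] := by
  rw [kr_ind_iff]
  refine ⟨?_, ?_⟩
  · rintro ⟨q, hq0, hq⟩
    exact hq0 (tr_of_prime hu q hq)
  · rintro ⟨P, hP0, hP⟩
    let ψ : k[X] →+* Algebra.adjoin k {u} :=
      ((aeval (⟨u, Algebra.subset_adjoin rfl⟩ : Algebra.adjoin k {u}) :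
        k[X] →ₐ[k] Algebra.adjoin k {u})).toRingHom
    have hψ : ∀ q : k[X], ((ψ q : Algebra.adjoin k {u}) : A) = aeval u q := fun q =>
      (Polynomial.aeval_algHom_apply (Algebra.adjoin k {u}).val
        (⟨u, Algebra.subset_adjoin rfl⟩ : Algebra.adjoin k {u}) q).symm
    have hψs : Function.Surjective ψ := by
      rintro ⟨a, ha⟩
      rw [Algebra.adjoin_singleton_eq_range_aeval] at ha
      obtain ⟨q, hq⟩ := ha
      exact ⟨q, Subtype.ext ((hψ q).trans hq)⟩
    obtain ⟨F, rfl⟩ := Polynomial.map_surjective ψ hψs P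
    apply hP0
    have h1 : F.eval₂ (aeval u : k[X] →ₐ[k] A).toRingHom v = 0 := by
      rw [← hP, aeval_def, eval₂_map]
      congr 1
      refine Polynomial.ringHom_ext (fun q => ?_) ?_
      · exact (hψ (C q)).symm
      · exact (hψ X).symm
    have h2 : F = 0 := by
      ext1 i
      rw [coeff_zero]
      exact fde_inj (k := k) hu hv i _ F rfl h1
    rw [h2, Polynomial.map_zero]

end gen

/-- A factorially closed subalgebra of `k[x, y, z]` of transcendence degree one is `k[h]`, and all `h - l`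
are prime. -/
theorem one_gen (C' : Subalgebra k (B3 k)) (hfc : ∀ a b : B3 k, a * b ≠ 0 → a * b ∈ C' → a ∈ C')
    (hdep : ∀ a ∈ C', ∀ b ∈ C', ¬ AlgebraicIndependent k ![a, b])
    (hne : ∃ a ∈ C', ∀ c : k, a ≠ MvPolynomial.C c) :
    ∃ h ∈ C', (∀ l : k, Prime (h - MvPolynomial.C l)) ∧ ∀ a ∈ C', ∃ q : k[X], a = aeval h q := by
  obtain ⟨a, haC, hac⟩ := hne
  have ha0 : a ≠ 0 := fun h => hac 0 (by rw [h, MvPolynomial.C_0])
  have hau : ¬ IsUnit a := by
    intro h
    obtain ⟨c, hc⟩ := (MvPolynomial.isUnit_iff_eq_C_of_isReduced.1 h)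
    exact hac c hc.2
  obtain ⟨p, hp, b, hb⟩ := WfDvdMonoid.exists_irreducible_factor hau ha0
  have hpp : Prime p := hp.prime
  have hpC : p ∈ C' := hfc p b (by rw [← hb]; exact ha0) (by rw [← hb]; exact haC)
  have hpdeg : 0 < p.totalDegree := by
    rcases Nat.eq_zero_or_pos p.totalDegree with h | h
    · exfalso
      rw [MvPolynomial.totalDegree_eq_zero_iff_eq_C] at h
      refine hpp.not_isUnit ?_
      rw [h]
      refine (IsUnit.mk0 _ ?_).map MvPolynomial.C
      intro h0
      exact hpp.ne_zero (by rw [h, h0, MvPolynomial.C_0])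
    · exact h
  -- `C' = k[p]`
  have hgen : ∀ n : ℕ, ∀ a ∈ C', a.totalDegree = n → ∃ q : k[X], a = aeval p q := by
    intro n
    induction n using Nat.strong_induction_on with
    | _ n ih =>
    intro a haC han
    obtain ⟨c, hc⟩ : ∃ c : k, p ∣ a - MvPolynomial.C c := by
      by_contra hcon
      push Not at hcon
      exact hdep p hpC a haC (ind_of_prime (k := k) (A := B3 k) hpp hcon)
    obtain ⟨a1, ha1⟩ := hc
    by_cases h0 : a1 = 0
    · refine ⟨Polynomial.C c, ?_⟩
      rw [h0, mul_zero, sub_eq_zero] at ha1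
      rw [ha1, aeval_C]
      rfl
    have hac : a - MvPolynomial.C c ≠ 0 := by
      rw [ha1]
      exact mul_ne_zero hpp.ne_zero h0
    have ha1C : a1 ∈ C' := by
      refine hfc a1 p ?_ ?_
      · rw [mul_comm, ← ha1]
        exact hac
      · rw [mul_comm, ← ha1]
        exact C'.sub_mem haC (C'.algebraMap_mem c)
    have hdeg : a1.totalDegree < n := by
      have h1 : (a - MvPolynomial.C c).totalDegree = p.totalDegree + a1.totalDegree := by
        rw [ha1, MvPolynomial.totalDegree_mul_of_isDomain hpp.ne_zero h0]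
      have h2 : (a - MvPolynomial.C c).totalDegree ≤ a.totalDegree := by
        refine (MvPolynomial.totalDegree_sub _ _).trans ?_
        rw [MvPolynomial.totalDegree_C]
        simp
      omega
    obtain ⟨q, hq⟩ := ih _ hdeg a1 ha1C rfl
    refine ⟨Polynomial.C c + X * q, ?_⟩
    rw [map_add, map_mul, aeval_X, aeval_C, ← hq, ← ha1]
    show a = MvPolynomial.C c + (a - MvPolynomial.C c)
    ring
  refine ⟨p, hpC, fun l => ?_, fun a ha => hgen _ a ha rfl⟩
  have hinj : ∀ q q' : k[X], aeval p q = aeval p q' → q = q' := by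
    intro q q' h
    rw [← sub_eq_zero]
    apply tr_of_prime hpp
    rw [map_sub, h, sub_self]
  have hpl : aeval p (X - Polynomial.C l) = p - MvPolynomial.C l := by
    rw [map_sub, aeval_X, aeval_C]
    rfl
  have hpl0 : p - MvPolynomial.C l ≠ 0 := by
    intro h
    have := hinj (X - Polynomial.C l) 0 (by rw [hpl, h, map_zero])
    exact Polynomial.X_sub_C_ne_zero l this
  have hplC : p - MvPolynomial.C l ∈ C' := C'.sub_mem hpC (C'.algebraMap_mem l)
  rw [← UniqueFactorizationMonoid.irreducible_iff_prime]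
  have hunit : ∀ q : k[X], IsUnit q → IsUnit (aeval p q) := fun q hq => hq.map (aeval p)
  refine ⟨fun hun => ?_, fun a b hab => ?_⟩
  · rw [MvPolynomial.isUnit_iff_eq_C_of_isReduced] at hun
    obtain ⟨c, -, hc⟩ := hun
    have h1 := hinj (X - Polynomial.C l) (Polynomial.C c) (by
      rw [hpl, hc, aeval_C]
      rfl)
    have h2 := congrArg natDegree h1
    rw [natDegree_X_sub_C, natDegree_C] at h2
    exact one_ne_zero h2
  · have haC := hfc a b (by rw [← hab]; exact hpl0) (by rw [← hab]; exact hplC)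
    have hbC := hfc b a (by rw [mul_comm, ← hab]; exact hpl0) (by rw [mul_comm, ← hab]; exact hplC)
    obtain ⟨qa, rfl⟩ := hgen _ a haC rfl
    obtain ⟨qb, rfl⟩ := hgen _ b hbC rfl
    have h1 := hinj (X - Polynomial.C l) (qa * qb) (by rw [hpl, hab, map_mul])
    rcases (Polynomial.irreducible_X_sub_C l).isUnit_or_isUnit h1 with h | h
    · exact Or.inl (hunit _ h)
    · exact Or.inr (hunit _ h)

/-- section 8: the kernel from its generic fibre -/
theorem ker_of_generic [CharZero k] {D : Derivation k (B3 k) (B3 k)} (hln : ∀ b, ∃ n, (⇑D)^[n] b = 0)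
    {h w : B3 k} (hp : ∀ l : k, Prime (h - MvPolynomial.C l)) (hDh : D h = 0) (hDw : D w = 0)
    (hind : AlgebraicIndependent k ![h, w])
    (hgen : ∀ a, D a = 0 → ∃ s : k[X], s ≠ 0 ∧ aeval h s * a ∈ Algebra.adjoin k {h, w}) :
    ∃ w', AlgebraicIndependent k ![h, w'] ∧ ∀ b, D b = 0 ↔ b ∈ Algebra.adjoin k {h, w'} := by
  obtain ⟨w', hw, hk, -⟩ := kern D hln h hp hDh w.totalDegree w rfl hDw hind hgen
  exact ⟨w', hw, hk⟩

end Pool.Agent.MIY
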