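import Mathlib
import Pool.Agent.LNDT.ST2
import Pool.Agent.MIY.EA4
import Pool.Agent.MIY.Tr2

set_option autoImplicit false

/-!
# MIY/EA3: the generic fibre of the kernel from the graded data (section 7)
-/

open Polynomial

namespace Pool.Agent.MIY

open Pool.Agent.LNDF Pool.Agent.LNDQ Pool.Agent.LNDT Pool.Agent.LNDHom

section dep

variable {k A : Type} [Field k] [CommRing A] [IsDomain A] [Algebra k A]

/-- without three algebraically independent elements everything is algebraic over two independent ones -/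
theorem alg_of_dep (hdep : ∀ a : Fin 3 → A, ¬ AlgebraicIndependent k a) {a b : A}
    (hab : AlgebraicIndependent k ![a, b]) (e : A) :
    IsAlgebraic (Algebra.adjoin k (Set.range ![a, b])) e := by
  by_contra h
  have h1 : AlgebraicIndependent k (fun o : Option (Fin 2) => o.elim e ![a, b]) :=
    (hab.option_iff_transcendental e).2 h
  have h2 := (algebraicIndependent_equiv (R := k) (finSuccEquiv 2)
    (f := fun o : Option (Fin 2) => o.elim e ![a, b])).2 h1
  exact hdep _ h2

/-- two polynomials in one variable are algebraically dependent -/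
theorem dep_one_var (p q : k[X]) : ¬ AlgebraicIndependent k ![p, q] := by
  intro h
  have h1 := h.lift_cardinalMk_le_trdeg
  rw [Polynomial.trdeg_of_isDomain, Cardinal.mk_fin] at h1
  simp at h1

end dep

variable {k : Type} [Field k] [CharZero k] {D : Derivation k (B3 k) (B3 k)} {F : Type} [Field F]
  [CharZero F] [Algebra (kerAlg D) F] [IsFractionRing (kerAlg D) F] {δ : Derivation ℤ F F} {θ : F}
  {d : ℕ} {I : ℤ → AddSubgroup F} {N : ℕ} {h : F} {c : kerAlg D}

/-- the constants of `δ` in the kernel -/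
noncomputable def cstA (H : IData D c N δ θ d I h) : Subalgebra k (kerAlg D) where
  carrier := {a | δ (algebraMap (kerAlg D) F a) = 0}
  mul_mem' := by
    intro a b ha hb
    simp only [Set.mem_ofPred_eq] at ha hb ⊢
    rw [map_mul, Derivation.leibniz, ha, hb, smul_zero, smul_zero, add_zero]
  add_mem' := by
    intro a b ha hb
    simp only [Set.mem_ofPred_eq] at ha hb ⊢
    rw [map_add, map_add, ha, hb, add_zero]
  algebraMap_mem' := H.base

omit [CharZero k] [CharZero F] [IsFractionRing (kerAlg D) F] in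
theorem mem_cstA (H : IData D c N δ θ d I h) (a : kerAlg D) :
    a ∈ cstA H ↔ δ (algebraMap (kerAlg D) F a) = 0 := Iff.rfl

/-- the constants of `δ` in the kernel, in `B` -/
noncomputable def cstB (H : IData D c N δ θ d I h) : Subalgebra k (B3 k) := (cstA H).map (kerAlg D).val

omit [CharZero k] [CharZero F] [IsFractionRing (kerAlg D) F] in
theorem mem_cstB (H : IData D c N δ θ d I h) (b : B3 k) :
    b ∈ cstB H ↔ ∃ a : kerAlg D, δ (algebraMap (kerAlg D) F a) = 0 ∧ (a : B3 k) = b := Iff.rfl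

theorem cstB_fc (H : IData D c N δ θ d I h) (a b : B3 k) (hab : a * b ≠ 0) (hm : a * b ∈ cstB H) :
    a ∈ cstB H := by
  obtain ⟨e, he, heq⟩ := hm
  have heq' : (e : B3 k) = a * b := heq
  have hDe : D (a * b) = 0 := heq' ▸ (mem_kerAlg D _).1 e.2
  have ha : D a = 0 := const_of_dvd D H.lnd hDe hab ⟨b, rfl⟩
  have hb : D b = 0 := const_of_dvd D H.lnd hDe hab ⟨a, mul_comm a b⟩
  refine ⟨⟨a, (mem_kerAlg D _).2 ha⟩, ?_, rfl⟩
  have h1 : e = (⟨a, (mem_kerAlg D _).2 ha⟩ : kerAlg D) * ⟨b, (mem_kerAlg D _).2 hb⟩ :=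
    Subtype.ext heq'
  refine (fc_ker H (x := ⟨a, (mem_kerAlg D _).2 ha⟩) (y := ⟨b, (mem_kerAlg D _).2 hb⟩) ?_ ?_ ?_).1
  · intro h0
    exact left_ne_zero_of_mul hab (congrArg Subtype.val h0)
  · intro h0
    exact right_ne_zero_of_mul hab (congrArg Subtype.val h0)
  · rw [← h1]
    exact he

omit [CharZero F] in
/-- `δ` vanishes on what is algebraic over constants -/
theorem delta_alg' (H : IData D c N δ θ d I h) (S : Subalgebra k (kerAlg D)) (hS : S ≤ cstA H)
    (a : kerAlg D) (ha : IsAlgebraic S a) : δ (algebraMap (kerAlg D) F a) = 0 :=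
  delta_alg (IsFractionRing.injective (kerAlg D) F) δ S (fun _ hs => hS hs) a ha

theorem cst_dep (H : IData D c N δ θ d I h)
    (hdep : ∀ a : Fin 3 → kerAlg D, ¬ AlgebraicIndependent k a) {a b : kerAlg D}
    (ha : a ∈ cstA H) (hb : b ∈ cstA H) : ¬ AlgebraicIndependent k ![a, b] := by
  intro hab
  obtain ⟨e, he⟩ := delta_ne H
  refine he (delta_alg' H _ ?_ e (alg_of_dep hdep hab e))
  rw [Algebra.adjoin_le_iff]
  rintro _ ⟨i, rfl⟩
  fin_cases i
  · exact ha
  · exact hb

omit [CharZero k] in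
/-- a nonconstant element of `C` -/
theorem cst_nontriv (H : IData D c N δ θ d I h)
    (htwo : ∃ a b : kerAlg D, AlgebraicIndependent k ![a, b]) :
    ∃ a ∈ cstB H, ∀ c : k, a ≠ MvPolynomial.C c := by
  by_contra hcon
  push Not at hcon
  have hinj := IsFractionRing.injective (kerAlg D) F
  have hc : ∀ a : kerAlg D, δ (algebraMap (kerAlg D) F a) = 0 → ∃ c : k, a = algebraMap k _ c := by
    intro a ha
    obtain ⟨c, hc⟩ := hcon (a : B3 k) ⟨a, ha, rfl⟩
    exact ⟨c, Subtype.ext hc⟩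
  let ψ : k →+* F := (algebraMap (kerAlg D) F).comp (algebraMap k (kerAlg D))
  have hK : ∀ x ∈ Kap δ I, ∃ c : k, x = ψ c := by
    intro x hx
    obtain ⟨a, c1, hc1, hc1', ha', e⟩ := st1_frac H hx
    obtain ⟨α, rfl⟩ := hc a ha'
    obtain ⟨γ, rfl⟩ := hc c1 hc1'
    have hγ : γ ≠ 0 := by
      rintro rfl
      exact hc1 (map_zero _)
    refine ⟨γ⁻¹ * α, ?_⟩
    rw [map_mul]
    have h1 : ψ γ⁻¹ * ψ γ = 1 := by rw [← map_mul, inv_mul_cancel₀ hγ, map_one]
    have h2 : ψ γ * x = ψ α := e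
    rw [← h2, ← mul_assoc, h1, one_mul]
  obtain ⟨Y, hY, hgen, hinj2, -⟩ := H.gr.main
  let _ : Algebra k F := ψ.toAlgebra
  have : IsScalarTower k (kerAlg D) F := IsScalarTower.of_algebraMap_eq fun _ => rfl
  have hpoly : ∀ a : kerAlg D, ∃ p : k[X], algebraMap (kerAlg D) F a = aeval Y p := by
    intro a
    obtain ⟨P, hP, e⟩ := hgen _ (st1_mem H a)
    choose g hg using fun i => hK _ (hP i)
    refine ⟨∑ i ∈ Finset.range (P.natDegree + 1), Polynomial.monomial i (g i), ?_⟩
    rw [← e, eval_eq_sum_range, map_sum]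
    refine Finset.sum_congr rfl fun i _ => ?_
    rw [aeval_monomial, hg i]
    rfl
  obtain ⟨a, b, hab⟩ := htwo
  obtain ⟨p, hp⟩ := hpoly a
  obtain ⟨q, hq⟩ := hpoly b
  have h1 : AlgebraicIndependent k ((IsScalarTower.toAlgHom k (kerAlg D) F) ∘ ![a, b]) :=
    hab.map' hinj
  have h2 : ((IsScalarTower.toAlgHom k (kerAlg D) F) ∘ ![a, b]) =
      (aeval Y : k[X] →ₐ[k] F) ∘ ![p, q] := by
    funext i
    fin_cases i
    · exact hp
    · exact hq
  rw [h2] at h1
  exact dep_one_var p q (AlgebraicIndependent.of_comp _ h1)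

/-- `Y` is not a constant of `δ` -/
theorem delta_Y {Y : F} (H : IData D c N δ θ d I h) (hY : Y ∈ I 0)
    (hinj : ∀ P : F[X], (∀ i, P.coeff i ∈ Kap δ I) → P.eval Y = 0 → P = 0) : δ Y ≠ 0 := by
  intro h0
  have h1 := hinj (X - C Y) (fun i => ?_) (by simp)
  · exact X_sub_C_ne_zero Y h1
  · rw [coeff_sub, coeff_X, coeff_C]
    refine (st1_kap H.gr).sub_mem ?_ ?_
    · split_ifs
      · exact (st1_kap H.gr).one_mem
      · exact (st1_kap H.gr).zero_mem
    · split_ifs
      · exact ⟨hY, h0⟩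
      · exact (st1_kap H.gr).zero_mem

/-- THE GENERIC FIBRE OF THE KERNEL -/
theorem ea3 [IsAlgClosed k] (H : IData D c N δ θ d I h)
    (hdep : ∀ a : Fin 3 → kerAlg D, ¬ AlgebraicIndependent k a)
    (htwo : ∃ a b : kerAlg D, AlgebraicIndependent k ![a, b]) :
    ∃ h0 w : B3 k, (∀ l : k, Prime (h0 - MvPolynomial.C l)) ∧ D h0 = 0 ∧ D w = 0 ∧
      AlgebraicIndependent k ![h0, w] ∧
      ∀ a, D a = 0 → ∃ s : k[X], s ≠ 0 ∧ aeval h0 s * a ∈ Algebra.adjoin k {h0, w} := by
  have hinjF := IsFractionRing.injective (kerAlg D) F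
  obtain ⟨p, hpC, hpr, hgenC⟩ := one_gen (cstB H) (cstB_fc H) (by
    rintro _ ⟨a, ha, rfl⟩ _ ⟨b, hb, rfl⟩ hab
    refine cst_dep H hdep ha hb ?_
    refine AlgebraicIndependent.of_comp (kerAlg D).val ?_
    have h1 : ((kerAlg D).val ∘ ![a, b]) = ![(kerAlg D).val a, (kerAlg D).val b] := by
      funext i
      fin_cases i <;> rfl
    rw [h1]
    exact hab) (cst_nontriv H htwo)
  obtain ⟨p', hp'C, hp'⟩ := hpC
  have hpval : (p' : B3 k) = p := hp'
  obtain ⟨Y, hY, hgen, hinj, -⟩ := H.gr.main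
  obtain ⟨w, c1, hc1, hc1', ew⟩ := (H.zero Y).1 hY
  have hδY := delta_Y H hY hinj
  have hc1F : algebraMap (kerAlg D) F c1 ≠ 0 := fun h0 => hc1 (hinjF (by rw [h0, map_zero]))
  have hδw : δ (algebraMap (kerAlg D) F w) ≠ 0 := by
    rw [← ew, Derivation.leibniz, hc1', smul_zero, add_zero, smul_eq_mul]
    exact mul_ne_zero hc1F hδY
  have hDp : D p = 0 := hpval ▸ (mem_kerAlg D _).1 p'.2
  have hpr0 : Prime p := by
    have := hpr 0
    rwa [MvPolynomial.C_0, sub_zero] at this
  refine ⟨p, (w : B3 k), hpr, hDp, (mem_kerAlg D _).1 w.2, ?_, ?_⟩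
  · -- independence
    have h1 : AlgebraicIndependent k ![p', w] := by
      rw [kr_ind_iff]
      refine ⟨?_, fun hal => hδw (delta_alg' H (Algebra.adjoin k {p'}) ?_ w hal)⟩
      · rintro ⟨q, hq0, hq⟩
        apply hq0
        apply tr_of_prime hpr0 q
        rw [← hpval]
        have h2 := congrArg (kerAlg D).val hq
        rw [← Polynomial.aeval_algHom_apply, map_zero] at h2
        exact h2
      · rw [Algebra.adjoin_le_iff]
        rintro _ rfl
        exact hp'C
    have h2 := h1.map' (f := (kerAlg D).val) Subtype.val_injective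
    have h3 : ((kerAlg D).val ∘ ![p', w]) = ![p, (w : B3 k)] := by
      funext i
      fin_cases i
      · exact hpval
      · rfl
    rwa [h3] at h2
  · intro a ha
    obtain ⟨P, hP, eP⟩ := hgen _ (st1_mem H ⟨a, (mem_kerAlg D _).2 ha⟩)
    obtain ⟨c2, hc2, hc2', hden⟩ := st1_den H (fun i => P.coeff i) hP (P.natDegree + 1)
    choose! b hb1 hb2 using hden
    set n := P.natDegree with hn
    -- the equation in the kernel
    have hE : c2 * c1 ^ n * ⟨a, (mem_kerAlg D _).2 ha⟩ =
        ∑ i ∈ Finset.range (n + 1), b i * c1 ^ (n - i) * w ^ i := by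
      apply hinjF
      rw [map_mul, map_mul, map_pow, ← eP, eval_eq_sum_range, map_sum, Finset.mul_sum]
      refine Finset.sum_congr rfl fun i hi => ?_
      rw [map_mul, map_mul, map_pow, map_pow, ← hb2 i (Finset.mem_range.1 hi), ← ew]
      have h1 : algebraMap (kerAlg D) F c1 ^ n = algebraMap (kerAlg D) F c1 ^ (n - i) *
          algebraMap (kerAlg D) F c1 ^ i := by
        rw [← pow_add]
        congr 1
        have := Finset.mem_range.1 hi
        omega
      rw [h1, mul_pow]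
      ring
    have hcst : c2 * c1 ^ n ∈ cstA H := (cstA H).mul_mem hc2' ((cstA H).pow_mem hc1' n)
    obtain ⟨s, hs⟩ := hgenC ((c2 * c1 ^ n : kerAlg D) : B3 k) ⟨_, hcst, rfl⟩
    refine ⟨s, ?_, ?_⟩
    · rintro rfl
      rw [map_zero] at hs
      exact mul_ne_zero hc2 (pow_ne_zero n hc1) (Subtype.ext hs)
    · rw [← hs]
      have h1 := congrArg (fun z : kerAlg D => (z : B3 k)) hE
      have h2 : (((c2 * c1 ^ n : kerAlg D) : B3 k)) * a =
          ((∑ i ∈ Finset.range (n + 1), b i * c1 ^ (n - i) * w ^ i : kerAlg D) : B3 k) := h1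
      rw [h2]
      have h3 : (∑ i ∈ Finset.range (n + 1), b i * c1 ^ (n - i) * w ^ i : kerAlg D) ∈
          (Algebra.adjoin k {p, (w : B3 k)}).comap (kerAlg D).val := by
        refine Subalgebra.sum_mem _ fun i hi => ?_
        refine Subalgebra.mul_mem _ (Subalgebra.mul_mem _ ?_ (Subalgebra.pow_mem _ ?_ _))
          (Subalgebra.pow_mem _ ?_ _)
        · obtain ⟨q, hq⟩ := hgenC ((b i : kerAlg D) : B3 k)
            ⟨_, hb1 i (Finset.mem_range.1 hi), rfl⟩
          rw [Subalgebra.mem_comap]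
          show ((b i : kerAlg D) : B3 k) ∈ _
          rw [hq]
          exact Algebra.adjoin_mono (by simp) (Polynomial.aeval_mem_adjoin_singleton k p)
        · obtain ⟨q, hq⟩ := hgenC ((c1 : kerAlg D) : B3 k) ⟨_, hc1', rfl⟩
          rw [Subalgebra.mem_comap]
          show ((c1 : kerAlg D) : B3 k) ∈ _
          rw [hq]
          exact Algebra.adjoin_mono (by simp) (Polynomial.aeval_mem_adjoin_singleton k p)
        · rw [Subalgebra.mem_comap]
          exact Algebra.subset_adjoin (by simp)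
      exact h3

/-- the kernel is a polynomial ring, from the graded data alone -/
theorem ker_of_idata' [IsAlgClosed k] (H : IData D c N δ θ d I h) (hD : ∃ x, D x ≠ 0) :
    ∃ h0 w : B3 k, AlgebraicIndependent k ![h0, w] ∧
      ∀ b, D b = 0 ↔ b ∈ Algebra.adjoin k {h0, w} := by
  obtain ⟨h0, w, hpr, hDh, hDw, hind, hgen⟩ := ea3 H (fun a ha => by
      have h1 := ha.map' (f := (kerAlg D).val) Subtype.val_injective
      have h2 : ((kerAlg D).val ∘ a) = ![(a 0 : B3 k), (a 1 : B3 k), (a 2 : B3 k)] := by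
        funext i
        fin_cases i <;> rfl
      rw [h2] at h1
      exact no_three D hD ((mem_kerAlg D _).1 (a 0).2) ((mem_kerAlg D _).1 (a 1).2)
        ((mem_kerAlg D _).1 (a 2).2) h1) (by
      obtain ⟨a, b, ha, hb, hab⟩ := exists_two D hD H.lnd
      refine ⟨⟨a, (mem_kerAlg D _).2 ha⟩, ⟨b, (mem_kerAlg D _).2 hb⟩, ?_⟩
      refine AlgebraicIndependent.of_comp (kerAlg D).val ?_
      have h1 : ((kerAlg D).val ∘ ![(⟨a, (mem_kerAlg D _).2 ha⟩ : kerAlg D),
          ⟨b, (mem_kerAlg D _).2 hb⟩]) = ![a, b] := by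
        funext i
        fin_cases i <;> rfl
      rw [h1]
      exact hab)
  obtain ⟨w', h1, h2⟩ := ker_of_generic H.lnd hpr hDh hDw hind hgen
  exact ⟨h0, w', h1, h2⟩

/-- the kernel is a polynomial ring -/
theorem ker_of_idata [IsAlgClosed k] (H : IData D c N δ θ d I h)
    (hdep : ∀ a : Fin 3 → kerAlg D, ¬ AlgebraicIndependent k a)
    (htwo : ∃ a b : kerAlg D, AlgebraicIndependent k ![a, b]) :
    ∃ h0 w : B3 k, AlgebraicIndependent k ![h0, w] ∧
      ∀ b, D b = 0 ↔ b ∈ Algebra.adjoin k {h0, w} := by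
  obtain ⟨h0, w, hpr, hDh, hDw, hind, hgen⟩ := ea3 H hdep htwo
  obtain ⟨w', h1, h2⟩ := ker_of_generic H.lnd hpr hDh hDw hind hgen
  exact ⟨h0, w', h1, h2⟩

end Pool.Agent.MIY
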