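import Mathlib
import Pool.Agent.LNDF.ArDefs
import Pool.Agent.LNDF.Ar4

/-!
# The slice over a general kernel

If `G` lies over `cc N`, division by `G` is possible, and two coprime constants `X`, `Y` lie in `J_1`, then
`cc 1 = D r`.
-/

set_option autoImplicit false

namespace Pool.Agent.MIY

open Pool.Agent.LNDHom Pool.Agent.LNDF

variable {k B : Type} [Field k] [CommRing B] [IsDomain B] [Algebra k B]

omit [IsDomain B] in
theorem i1_cmul (D : Derivation k B B) {c : B} (hc : D c = 0) (n : ℕ) (x : B) :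
    (⇑D)^[n] (c * x) = c * (⇑D)^[n] x := by
  induction n generalizing x with
  | zero => rfl
  | succ n ih =>
    rw [Function.iterate_succ_apply, Derivation.leibniz, hc, smul_zero, add_zero, smul_eq_mul,
      ih, Function.iterate_succ_apply]

omit [IsDomain B] in
/-- `cc 0` is a unit -/
theorem i1_cc0 {D : Derivation k B B} (A : Arith D) : IsUnit (A.cc 0) := by
  have h := (A.isCC 0).dvd 1 (by simp)
  exact isUnit_of_dvd_one h

/-- `x` can be changed by a constant so that `x * D G` has a remainder of degree below `N - 1` -/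
theorem i1_norm {D : Derivation k B B} (A : Arith D) {M : ℕ} (hM : A.N = M + 1) {G : B}
    (hG : (⇑D)^[A.N] G = A.cc A.N) (hdiv : ∀ b, ∃ s t, b = s * G + t ∧ (⇑D)^[A.N] t = 0) (x : B) :
    ∃ x' s t : B, D x' = D x ∧ x' * D G = s * G + t ∧ (⇑D)^[M] t = 0 := by
  obtain ⟨s, t, h1, h2⟩ := hdiv (x * D G)
  rw [hM] at h2
  have h3 := (A.isCC M).dvd t h2
  have h4 : Associated (A.cc M) (A.cc A.N) := by
    have h5 := A.compl 0 A.N_pos
    have h6 : A.N - 1 - 0 = M := by omega
    rw [h6] at h5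
    exact (associated_isUnit_mul_left_iff (i1_cc0 A)).1 h5
  obtain ⟨a, ha⟩ := (h4.dvd_iff_dvd_left).1 h3
  have hcc := A.isCC A.N
  have hDa : D a = 0 := by
    have h5 : D ((⇑D)^[M] t) = 0 := by rw [← h2, Function.iterate_succ_apply']
    rw [ha, Derivation.leibniz, hcc.const, smul_zero, add_zero, smul_eq_mul] at h5
    exact (mul_eq_zero.1 h5).resolve_left hcc.ne
  refine ⟨x - a, s, t - a * D G, by rw [map_sub, hDa, sub_zero], by rw [sub_mul, h1]; ring, ?_⟩
  rw [iterate_map_sub, i1_cmul D hDa, ha, ← Function.iterate_succ_apply]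
  have h6 : (⇑D)^[M.succ] G = A.cc A.N := by rw [← hG, hM]
  rw [h6]
  ring

/-- **The slice**: `I_1 = (cc 1)`. -/
theorem slice_of_G [CharZero k] {D : Derivation k B B} (hln : ∀ x, ∃ n, (⇑D)^[n] x = 0)
    (A : Arith D) {G : B} (hG : (⇑D)^[A.N] G = A.cc A.N)
    (hdiv : ∀ b, ∃ s t, b = s * G + t ∧ (⇑D)^[A.N] t = 0) {X Y : B} (hX : D X = 0) (hY : D Y = 0)
    (hY0 : Y ≠ 0) (hcop : ∀ b, Y ∣ X * b → Y ∣ b) (hXJ : ∃ x, D x = A.cc 1 * X)
    (hYJ : ∃ y, D y = A.cc 1 * Y) : ∃ r, D r = A.cc 1 := by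
  obtain ⟨x, hx⟩ := hXJ
  obtain ⟨y, hy⟩ := hYJ
  obtain ⟨M, hM⟩ : ∃ M, A.N = M + 1 := ⟨A.N - 1, by have := A.N_pos; omega⟩
  obtain ⟨x', s1, t1, hx', h1, h1'⟩ := i1_norm A hM hG hdiv x
  obtain ⟨y', s2, t2, hy', h2, h2'⟩ := i1_norm A hM hG hdiv y
  have hcc := A.isCC A.N
  have hG0 : (⇑D)^[A.N] G ≠ 0 := by rw [hG]; exact hcc.ne
  have hG1 : (⇑D)^[A.N + 1] G = 0 := by rw [Function.iterate_succ_apply', hG]; exact hcc.const
  have hDz : D (Y * x' - X * y') = 0 := by
    rw [map_sub, Derivation.leibniz, Derivation.leibniz, hX, hY, hx', hy', hx, hy]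
    simp only [smul_eq_mul]
    ring
  have hz : Y * x' - X * y' = 0 := by
    have h3 : (Y * s1 - X * s2) * G + ((Y * t1 - X * t2) - (Y * x' - X * y') * D G) = 0 := by
      linear_combination (-Y) * h1 + X * h2
    have h4 : (⇑D)^[M] (Y * t1 - X * t2) = 0 := by
      rw [iterate_map_sub, i1_cmul D hX, i1_cmul D hY, h1', h2']
      ring
    have h5 : (⇑D)^[A.N] ((Y * t1 - X * t2) - (Y * x' - X * y') * D G) = 0 := by
      rw [iterate_map_sub, i1_cmul D hDz, ← Function.iterate_succ_apply, hG1, mul_zero, sub_zero, hM,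
        Function.iterate_succ_apply', h4, map_zero]
    have h6 := (div_unique D hln hG0 hG1 h5 h3).2
    have h7 := congrArg (⇑D)^[M] h6
    rw [iterate_map_sub, h4, i1_cmul D hDz, iterate_map_zero, zero_sub, neg_eq_zero,
      ← Function.iterate_succ_apply] at h7
    have h8 : (⇑D)^[M.succ] G ≠ 0 := by
      have : M.succ = A.N := by omega
      rw [this]
      exact hG0
    exact (mul_eq_zero.1 h7).resolve_right h8
  obtain ⟨r, hr⟩ := hcop y' ⟨x', by linear_combination (-1 : B) * hz⟩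
  refine ⟨r, mul_left_cancel₀ hY0 ?_⟩
  have h9 : D y' = Y * D r := by
    rw [hr, Derivation.leibniz, hY, smul_zero, add_zero, smul_eq_mul]
  rw [← h9, hy', hy]
  ring

end Pool.Agent.MIY
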