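import Mathlib
import Pool.Agent.MIY.I1
import Pool.Agent.MIY.EA1
import Pool.Agent.MIY.EA4
import Pool.Agent.MIY.Cho
import Pool.Agent.LNDF.Ar3

/-!
# MIY/Fin4: from an element `G` over `cc N` to the input of the structure theorem

The kernel of a locally nilpotent derivation is a unique factorisation domain, its primes are primes of the
ring, the plinth ideal is generated by `cc 1` as soon as there is an element over `cc N`.
-/

set_option autoImplicit false

namespace Pool.Agent.MIY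

open Pool.Agent.LNDHom Pool.Agent.LNDF Pool.Agent.LNDT

section gen

variable {k B : Type} [Field k] [CharZero k] [CommRing B] [IsDomain B] [Algebra k B]
  {D : Derivation k B B}

/-- units of the ring which are constants are units of the kernel -/
theorem fin4_unit (hln : ∀ x, ∃ n, (⇑D)^[n] x = 0) {u : kerAlg D} (hu : IsUnit (u : B)) : IsUnit u := by
  obtain ⟨v, hv⟩ := hu.exists_right_inv
  have h1 : D v = 0 := const_of_dvd D hln (a := 1) (by simp) one_ne_zero
    ⟨(u : B), by rw [← hv, mul_comm]⟩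
  exact IsUnit.of_mul_eq_one (⟨v, h1⟩ : kerAlg D) (Subtype.ext hv)

/-- primes of the kernel are primes of the ring -/
theorem fin4_prime_of_ker [UniqueFactorizationMonoid B] (hln : ∀ x, ∃ n, (⇑D)^[n] x = 0) {p : kerAlg D}
    (hp : Prime p) : Prime (p : B) := by
  have hp0 : (p : B) ≠ 0 := fun h => hp.ne_zero (Subtype.ext h)
  have hpu : ¬ IsUnit (p : B) := fun h => hp.not_isUnit (fin4_unit hln h)
  obtain ⟨q, hq, b, hb⟩ := WfDvdMonoid.exists_irreducible_factor hpu hp0
  have hqc : D q = 0 := const_of_dvd D hln ((mem_kerAlg D _).1 p.2) hp0 ⟨b, hb⟩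
  have hbc : D b = 0 := const_of_dvd D hln ((mem_kerAlg D _).1 p.2) hp0 ⟨q, by rw [hb, mul_comm]⟩
  have h1 : p = (⟨q, hqc⟩ : kerAlg D) * ⟨b, hbc⟩ := Subtype.ext hb
  rcases hp.dvd_or_dvd (dvd_of_eq h1) with h2 | h2
  · have h3 : Associated (p : B) q := by
      refine associated_of_dvd_dvd ?_ ⟨b, hb⟩
      exact (dvd_ker hln (u := p) (y := (⟨q, hqc⟩ : kerAlg D))).2 h2
    exact h3.symm.prime hq.prime
  · exfalso
    have h3 : (p : B) ∣ b := (dvd_ker hln (u := p) (y := (⟨b, hbc⟩ : kerAlg D))).2 h2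
    obtain ⟨e, he⟩ := h3
    apply hq.not_isUnit
    refine IsUnit.of_mul_eq_one e ?_
    have h4 : (p : B) * (q * e) = (p : B) * 1 := by
      rw [mul_one]
      conv_rhs => rw [hb, he]
      ring
    exact mul_left_cancel₀ hp0 h4

/-- the kernel is a unique factorisation domain -/
theorem fin4_ker_ufd [UniqueFactorizationMonoid B] (hln : ∀ x, ∃ n, (⇑D)^[n] x = 0) :
    UniqueFactorizationMonoid (kerAlg D) := by
  classical
  refine UniqueFactorizationMonoid.of_exists_prime_factors fun a ha => ?_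
  have ha0 : (a : B) ≠ 0 := fun h => ha (Subtype.ext h)
  obtain ⟨f, hf, hfa⟩ := UniqueFactorizationMonoid.exists_prime_factors (a : B) ha0
  have hfc : ∀ b ∈ f, D b = 0 := fun b hb => const_of_dvd D hln ((mem_kerAlg D _).1 a.2) ha0
    ((Multiset.dvd_prod hb).trans hfa.dvd)
  refine ⟨f.attach.map fun b => (⟨b.1, hfc b.1 b.2⟩ : kerAlg D), ?_, ?_⟩
  · intro b hb
    obtain ⟨b', -, rfl⟩ := Multiset.mem_map.1 hb
    exact prime_ker hln (hf b'.1 b'.2)
  · have h1 : (((f.attach.map fun b => (⟨b.1, hfc b.1 b.2⟩ : kerAlg D)).prod : kerAlg D) : B) = f.prod := by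
      have h2 := map_multiset_prod (kerAlg D).val
        (f.attach.map fun b => (⟨b.1, hfc b.1 b.2⟩ : kerAlg D))
      rw [Multiset.map_map] at h2
      have h3 : Multiset.map ((kerAlg D).val ∘ fun b : {x // x ∈ f} =>
          (⟨b.1, hfc b.1 b.2⟩ : kerAlg D)) f.attach = f := by
        conv_rhs => rw [← Multiset.attach_map_val f]
        rfl
      rw [h3] at h2
      exact h2
    refine associated_of_dvd_dvd ?_ ?_
    · rw [← dvd_ker hln, h1]
      exact hfa.dvd
    · rw [← dvd_ker hln, h1]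
      exact hfa.symm.dvd

/-- division by an element over `cc N` -/
theorem fin4_div_of_G [UniqueFactorizationMonoid B] (hD : ∃ x, D x ≠ 0) (hln : ∀ x, ∃ n, (⇑D)^[n] x = 0)
    (A : Arith D) {G : B} (hG : (⇑D)^[A.N] G = A.cc A.N) (b : B) :
    ∃ s t, b = s * G + t ∧ (⇑D)^[A.N] t = 0 := by
  obtain ⟨j, s, t, h1, h2⟩ := A.div hD hln (Q := G) (δ := 1) (by simp) one_ne_zero
    (by rw [hG, mul_one]) b
  exact ⟨s, t, by rw [← h1, one_pow, one_mul], h2⟩

/-- coprime constants -/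
theorem fin4_cop_of_ker [UniqueFactorizationMonoid B] (hln : ∀ x, ∃ n, (⇑D)^[n] x = 0) {X Y : kerAlg D}
    (hY : Y ≠ 0) (h : IsRelPrime X Y) (b : B) (hb : (Y : B) ∣ (X : B) * b) : (Y : B) ∣ b := by
  have h1 : IsRelPrime (X : B) (Y : B) := by
    intro d hdX hdY
    have hY0 : (Y : B) ≠ 0 := fun h => hY (Subtype.ext h)
    have hd : D d = 0 := const_of_dvd D hln ((mem_kerAlg D _).1 Y.2) hY0 hdY
    have h2 := h (d := (⟨d, hd⟩ : kerAlg D)) ((dvd_ker hln).1 hdX) ((dvd_ker hln).1 hdY)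
    exact h2.map (kerAlg D).val
  exact h1.symm.dvd_of_dvd_mul_left hb

/-- the plinth ideal is principal once there is an element over `cc N` -/
theorem slice_of_arith [UniqueFactorizationMonoid B] (hD : ∃ x, D x ≠ 0)
    (hln : ∀ x, ∃ n, (⇑D)^[n] x = 0) (A : Arith D) {G : B} (hG : (⇑D)^[A.N] G = A.cc A.N) :
    ∃ r, D r = A.cc 1 := by
  have := fin4_ker_ufd (D := D) hln
  have hcc := A.isCC 1
  let J : Ideal (kerAlg D) :=
    { carrier := {a | ∃ x, D x = A.cc 1 * a}
      add_mem' := by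
        rintro a b ⟨x, hx⟩ ⟨y, hy⟩
        exact ⟨x + y, by rw [map_add, hx, hy]; push_cast; ring⟩
      zero_mem' := ⟨0, by simp⟩
      smul_mem' := by
        rintro a b ⟨x, hx⟩
        refine ⟨a * x, ?_⟩
        rw [Derivation.leibniz, show D (a : B) = 0 from a.2, smul_zero, add_zero, smul_eq_mul, hx,
          smul_eq_mul]
        push_cast
        ring }
  have hJ : ∀ p : kerAlg D, Prime p → ∃ a ∈ J, ¬ p ∣ a := by
    intro p hp
    obtain ⟨x, hx, hx'⟩ := hcc.sharp (p : B) (fin4_prime_of_ker hln hp)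
    obtain ⟨a, ha⟩ := hcc.dvd x hx
    have hx1 : D (D x) = 0 := hx
    have ha1 : D x = A.cc 1 * a := ha
    have haD : D a = 0 := by
      rw [ha1, Derivation.leibniz, hcc.const, smul_zero, add_zero, smul_eq_mul] at hx1
      exact (mul_eq_zero.1 hx1).resolve_left hcc.ne
    refine ⟨⟨a, haD⟩, ⟨x, ha1⟩, fun hd => hx' ?_⟩
    have h1 : (p : B) ∣ a := (dvd_ker hln (u := p) (y := (⟨a, haD⟩ : kerAlg D))).2 hd
    have h2 : (⇑D)^[1] x = A.cc 1 * a := ha1
    rw [h2]
    exact mul_dvd_mul_left _ h1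
  have hJ0 : J ≠ ⊥ := by
    obtain ⟨y, hy1, hy2⟩ := exists_deg D hD hln 1
    obtain ⟨a, ha⟩ := hcc.dvd y hy2
    have ha1 : D y = A.cc 1 * a := ha
    have hy3 : D (D y) = 0 := hy2
    have haD : D a = 0 := by
      rw [ha1, Derivation.leibniz, hcc.const, smul_zero, add_zero, smul_eq_mul] at hy3
      exact (mul_eq_zero.1 hy3).resolve_left hcc.ne
    intro h0
    have h1 : (⟨a, haD⟩ : kerAlg D) ∈ J := ⟨y, ha1⟩
    rw [h0, Ideal.mem_bot] at h1
    have h2 : a = 0 := congrArg Subtype.val h1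
    apply hy1
    show D y = 0
    rw [ha1, h2, mul_zero]
  rcases cho (k := k) J hJ0 hJ with h | ⟨X, hX, Y, hY, hX0, hY0, hrel, -⟩
  · have h1 : (1 : kerAlg D) ∈ J := by rw [h]; exact Submodule.mem_top
    obtain ⟨r, hr⟩ := h1
    exact ⟨r, by rw [hr]; simp⟩
  · have hY0' : (Y : B) ≠ 0 := fun h => hY0 (Subtype.ext h)
    exact slice_of_G hln A hG (fin4_div_of_G hD hln A hG) (X := (X : B)) (Y := (Y : B)) X.2 Y.2 hY0'
      (fin4_cop_of_ker hln hY0 hrel) hX hY

end gen

/-- the graded data from an element over `cc N` -/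
theorem idata_of_G {k : Type} [Field k] [CharZero k] (D : Derivation k (B3 k) (B3 k))
    (hD : ∃ x, D x ≠ 0) (hln : ∀ x, ∃ n, (⇑D)^[n] x = 0) (A : Arith D) {G : B3 k}
    (hG : (⇑D)^[A.N] G = A.cc A.N) {f : B3 k} (hf : D f = 0) (hfc : ∀ a : k, f ≠ MvPolynomial.C a)
    {F : Type} [Field F] [Algebra (kerAlg D) F] [IsFractionRing (kerAlg D) F] :
    ∃ (c : kerAlg D) (δ : Derivation ℤ F F) (θ : F) (d : ℕ) (I : ℤ → AddSubgroup F) (h : F),
      IData D c A.N δ θ d I h := by
  have hcc := A.isCC 1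
  have hccN := A.isCC A.N
  obtain ⟨r, hr⟩ := slice_of_arith hD hln A hG
  have hG0 : (⇑D)^[A.N] G ≠ 0 := by rw [hG]; exact hccN.ne
  have hG1 : (⇑D)^[A.N + 1] G = 0 := by rw [Function.iterate_succ_apply', hG]; exact hccN.const
  obtain ⟨δ, θ, d, I, h, H⟩ := exists_idata D hln A.N_pos hG1 hG0 (fin4_div_of_G hD hln A hG)
    (c := ⟨A.cc 1, hcc.const⟩) hr hcc hf hfc (F := F)
  exact ⟨_, δ, θ, d, I, h, H⟩

end Pool.Agent.MIY
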