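import Mathlib

/-!
A factorially closed subalgebra of a factorial domain is factorial.
-/

set_option autoImplicit false

namespace Pool.Agent.MIY

section

variable {k B : Type} [Field k] [CommRing B] [IsDomain B] [Algebra k B] (A : Subalgebra k B)

theorem ufm_mem_right (hfc : ∀ a b : B, a * b ≠ 0 → a * b ∈ A → a ∈ A) {a b : B} (h0 : a * b ≠ 0)
    (h : a * b ∈ A) : b ∈ A :=
  hfc b a (by rwa [mul_comm]) (by rwa [mul_comm])

theorem ufm_dvd (hfc : ∀ a b : B, a * b ≠ 0 → a * b ∈ A → a ∈ A) {a b : A} :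
    a ∣ b ↔ (a : B) ∣ (b : B) := by
  constructor
  · rintro ⟨c, rfl⟩
    exact ⟨c, rfl⟩
  · rintro ⟨c, hc⟩
    by_cases h0 : (b : B) = 0
    · have : b = 0 := Subtype.ext h0
      rw [this]
      exact dvd_zero a
    · have h1 : (a : B) * c ≠ 0 := by rwa [← hc]
      have h2 : c ∈ A := ufm_mem_right A hfc h1 (by rw [← hc]; exact b.2)
      exact ⟨⟨c, h2⟩, Subtype.ext hc⟩

theorem ufm_unit (hfc : ∀ a b : B, a * b ≠ 0 → a * b ∈ A → a ∈ A) {a : A} :
    IsUnit a ↔ IsUnit (a : B) := by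
  rw [isUnit_iff_dvd_one, isUnit_iff_dvd_one, ufm_dvd A hfc]
  rfl

theorem ufm_prime (hfc : ∀ a b : B, a * b ≠ 0 → a * b ∈ A → a ∈ A) {a : A}
    (h : Prime (a : B)) : Prime a := by
  refine ⟨fun h0 => h.ne_zero (by rw [h0]; rfl), fun hu => h.not_unit ((ufm_unit A hfc).1 hu), ?_⟩
  intro x y hxy
  rw [ufm_dvd A hfc] at hxy
  rcases h.dvd_or_dvd hxy with h1 | h1
  · exact Or.inl ((ufm_dvd A hfc).2 h1)
  · exact Or.inr ((ufm_dvd A hfc).2 h1)

theorem ufm_of_fc [UniqueFactorizationMonoid B]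
    (hfc : ∀ a b : B, a * b ≠ 0 → a * b ∈ A → a ∈ A) : UniqueFactorizationMonoid A := by
  classical
  refine UniqueFactorizationMonoid.of_exists_prime_factors ?_
  suffices H : ∀ f : Multiset B, (∀ b ∈ f, Prime b) → ∀ a : A, a ≠ 0 → Associated f.prod (a : B) →
      ∃ g : Multiset A, (∀ b ∈ g, Prime b) ∧ Associated g.prod a by
    intro a ha
    have ha' : (a : B) ≠ 0 := fun h => ha (Subtype.ext h)
    obtain ⟨f, hf, hfa⟩ := UniqueFactorizationMonoid.exists_prime_factors (a : B) ha'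
    exact H f hf a ha hfa
  intro f
  induction f using Multiset.induction_on with
  | empty =>
    intro _ a _ h
    refine ⟨0, by simp, ?_⟩
    rw [Multiset.prod_zero] at h ⊢
    have h1 : IsUnit (a : B) := h.isUnit isUnit_one
    exact (associated_one_iff_isUnit.2 ((ufm_unit A hfc).2 h1)).symm
  | cons p f ih =>
    intro hf a ha h
    rw [Multiset.prod_cons] at h
    have ha' : (a : B) ≠ 0 := fun h => ha (Subtype.ext h)
    have hp : Prime p := hf p (Multiset.mem_cons_self p f)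
    obtain ⟨c, hc⟩ : p ∣ (a : B) := (dvd_mul_right p f.prod).trans h.dvd
    have h1 : p * c ≠ 0 := by rwa [← hc]
    have h2 : p * c ∈ A := by rw [← hc]; exact a.2
    have hpA : p ∈ A := hfc p c h1 h2
    have hcA : c ∈ A := ufm_mem_right A hfc h1 h2
    have hc0 : (⟨c, hcA⟩ : A) ≠ 0 := fun h3 => right_ne_zero_of_mul h1 (congrArg Subtype.val h3)
    have h3 : Associated f.prod c := by
      rw [hc] at h
      exact (Associated.of_mul_left (Associated.symm h) (Associated.refl p) hp.ne_zero).symm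
    obtain ⟨g, hg, hgc⟩ := ih (fun b hb => hf b (Multiset.mem_cons_of_mem hb)) ⟨c, hcA⟩ hc0 h3
    refine ⟨⟨p, hpA⟩ ::ₘ g, ?_, ?_⟩
    · intro b hb
      rcases Multiset.mem_cons.1 hb with rfl | hb
      · exact ufm_prime A hfc hp
      · exact hg b hb
    · rw [Multiset.prod_cons]
      have h4 : a = ⟨p, hpA⟩ * ⟨c, hcA⟩ := Subtype.ext hc
      rw [h4]
      exact hgc.mul_left _

theorem ufm_prime_coe [UniqueFactorizationMonoid B]
    (hfc : ∀ a b : B, a * b ≠ 0 → a * b ∈ A → a ∈ A) {a : A} (h : Prime a) : Prime (a : B) := by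
  have h0 : (a : B) ≠ 0 := fun h1 => h.ne_zero (Subtype.ext h1)
  have hirr : Irreducible (a : B) := by
    refine ⟨fun hu => h.irreducible.not_isUnit ((ufm_unit A hfc).2 hu), ?_⟩
    intro x y hxy
    have h1 : x * y ≠ 0 := by rwa [← hxy]
    have h2 : x * y ∈ A := by rw [← hxy]; exact a.2
    have hx : x ∈ A := hfc x y h1 h2
    have hy : y ∈ A := ufm_mem_right A hfc h1 h2
    rcases h.irreducible.isUnit_or_isUnit (a := ⟨x, hx⟩) (b := ⟨y, hy⟩) (Subtype.ext hxy) with h3 | h3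
    · exact Or.inl ((ufm_unit A hfc).1 h3)
    · exact Or.inr ((ufm_unit A hfc).1 h3)
  exact hirr.prime

theorem ufm_prime_iff [UniqueFactorizationMonoid B]
    (hfc : ∀ a b : B, a * b ≠ 0 → a * b ∈ A → a ∈ A) {a : A} : Prime a ↔ Prime (a : B) :=
  ⟨ufm_prime_coe A hfc, ufm_prime A hfc⟩

end

end Pool.Agent.MIY
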