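import Mathlib
import Pool.Agent.MIY.Defs2
import Pool.Agent.MIY.Tr2
import Pool.Agent.MIY.Bez
import Pool.Agent.MIY.Fin4
import Pool.Agent.MIY.Ufm
import Pool.Agent.LNDF.JacB
import Pool.Agent.LNDF.JacC

set_option autoImplicit false

/-!
# MIY/EnvG: `X`, `Y` in the kernel of a locally nilpotent derivation of `k[x, y, z]` satisfy `Env2`
-/

open Polynomial

namespace Pool.Agent.MIY

open Pool.Agent.LNDHom Pool.Agent.LNDF Pool.Agent.LNDT

theorem envG_fg2 {k A : Type} [Field k] [CommRing A] [Algebra k A] (p q : A)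
    (h : FiniteDimensional k (A ⧸ Ideal.span {p, q})) : Fg2 (mu k A p) (mu k A q) := by
  classical
  let I : Ideal A := Ideal.span {p, q}
  let e := Module.finBasis k (A ⧸ I)
  choose b hb using fun j => Ideal.Quotient.mk_surjective (e j)
  refine ⟨_, b, fun m => ?_⟩
  have h1 : (Ideal.Quotient.mkₐ k I) m =
      (Ideal.Quotient.mkₐ k I) (∑ j, e.repr (Ideal.Quotient.mk I m) j • b j) := by
    rw [map_sum]
    have h2 : ∀ j, (Ideal.Quotient.mkₐ k I) (e.repr (Ideal.Quotient.mk I m) j • b j) =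
        e.repr (Ideal.Quotient.mk I m) j • e j := by
      intro j
      rw [map_smul]
      congr 1
      exact hb j
    simp only [h2]
    rw [e.sum_repr]
    rfl
  have h3 : m - ∑ j, e.repr (Ideal.Quotient.mk I m) j • b j ∈ I := by
    rw [← Ideal.Quotient.eq]
    exact h1
  obtain ⟨u, v, huv⟩ := Ideal.mem_span_pair.1 h3
  refine ⟨fun j => e.repr (Ideal.Quotient.mk I m) j, u, v, ?_⟩
  show m = ∑ j, e.repr (Ideal.Quotient.mk I m) j • b j + p * u + q * v
  linear_combination -huv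

variable {k : Type} [Field k] [CharZero k] {D : Derivation k (B3 k) (B3 k)}

theorem envG_alg (hD : ∃ x, D x ≠ 0) {X Y : kerAlg D} (hind : AlgebraicIndependent k ![X, Y])
    (a : kerAlg D) : ∃ F : Polynomial (A2 k), F ≠ 0 ∧
      F.eval₂ (MvPolynomial.aeval ![X, Y] : A2 k →ₐ[k] kerAlg D).toRingHom a = 0 := by
  have h1 : ¬ Transcendental (Algebra.adjoin k (Set.range ![X, Y])) a := by
    intro htr
    have h2 := (hind.option_iff_transcendental a).2 htr
    have h3 := h2.comp ![some 0, some 1, none] (by decide)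
    have h4 : (fun o : Option (Fin 2) => o.elim a ![X, Y]) ∘ ![some 0, some 1, none] = ![X, Y, a] := by
      funext i
      fin_cases i <;> rfl
    rw [h4] at h3
    have h5 := h3.map' (f := (kerAlg D).val) Subtype.val_injective
    have h6 : (⇑(kerAlg D).val ∘ ![X, Y, a]) = ![(X : B3 k), (Y : B3 k), (a : B3 k)] := by
      funext i
      fin_cases i <;> rfl
    rw [h6] at h5
    exact no_three D hD X.2 Y.2 a.2 h5
  have h2 : IsAlgebraic (Algebra.adjoin k (Set.range ![X, Y])) a := by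
    by_contra h
    exact h1 h
  obtain ⟨P, hP0, hP⟩ := h2
  refine ⟨P.map (hind.aevalEquiv.symm : _ →+* A2 k), ?_, ?_⟩
  · rw [Ne, Polynomial.map_eq_zero_iff]
    · exact hP0
    · exact hind.aevalEquiv.symm.injective
  · rw [eval₂_map, ← hP, aeval_def]
    congr 1
    ext1 s
    obtain ⟨q, rfl⟩ := hind.aevalEquiv.surjective s
    show MvPolynomial.aeval ![X, Y] (hind.aevalEquiv.symm (hind.aevalEquiv q)) = _
    rw [AlgEquiv.symm_apply_apply, hind.algebraMap_aevalEquiv]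

theorem envG_fc (hln : ∀ x, ∃ n, (⇑D)^[n] x = 0) (a b : B3 k) (h0 : a * b ≠ 0)
    (h : a * b ∈ kerAlg D) : a ∈ kerAlg D :=
  const_of_dvd D hln ((mem_kerAlg D _).1 h) h0 (dvd_mul_right a b)

omit [CharZero k] in
theorem envG_var (hD : ∃ x, D x ≠ 0) : ∃ i, (MvPolynomial.X i : B3 k) ∉ kerAlg D := by
  by_contra hcon
  push Not at hcon
  obtain ⟨x, hx⟩ := hD
  apply hx
  have h1 : ∀ b : B3 k, b ∈ kerAlg D := by
    intro b
    induction b using MvPolynomial.induction_on with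
    | C a => exact (kerAlg D).algebraMap_mem a
    | add p q hp hq => exact (kerAlg D).add_mem hp hq
    | mul_X p n hp => exact (kerAlg D).mul_mem hp (hcon n)
  exact (mem_kerAlg D _).1 (h1 x)

theorem envG_fin (hD : ∃ x, D x ≠ 0) (hln : ∀ x, ∃ n, (⇑D)^[n] x = 0) {p q : kerAlg D} (hp : p ≠ 0)
    (hq : q ≠ 0) (hco : ∀ a b : kerAlg D, p * a = q * b → q ∣ a) :
    Fg2 (mu k (kerAlg D) p) (mu k (kerAlg D) q) :=
  envG_fg2 p q (bez (kerAlg D) (envG_fc hln) (envG_var hD) p q hp hq hco)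

/-- if `p ∣ Jac (p, h, ·)` then `p ∣ h - β` -/
theorem envG_geo [IsAlgClosed k] {p h : B3 k} (hp : Prime p) (hd : ∀ x, p ∣ jac3 p h x) :
    ∃ β : k, p ∣ h - MvPolynomial.C β := by
  have h0 := hd (MvPolynomial.X 0)
  have h1 := hd (MvPolynomial.X 1)
  have h2 := hd (MvPolynomial.X 2)
  have e0 : jac3 p h (MvPolynomial.X 0) = MvPolynomial.pderiv 1 p * MvPolynomial.pderiv 2 h -
      MvPolynomial.pderiv 2 p * MvPolynomial.pderiv 1 h := by
    simp [jac3, Matrix.det_fin_three, MvPolynomial.pderiv_X]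
  have e1 : jac3 p h (MvPolynomial.X 1) = MvPolynomial.pderiv 2 p * MvPolynomial.pderiv 0 h -
      MvPolynomial.pderiv 0 p * MvPolynomial.pderiv 2 h := by
    simp [jac3, Matrix.det_fin_three, MvPolynomial.pderiv_X]
    ring
  have e2 : jac3 p h (MvPolynomial.X 2) = MvPolynomial.pderiv 0 p * MvPolynomial.pderiv 1 h -
      MvPolynomial.pderiv 1 p * MvPolynomial.pderiv 0 h := by
    simp [jac3, Matrix.det_fin_three, MvPolynomial.pderiv_X]
  rw [e0] at h0
  rw [e1] at h1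
  rw [e2] at h2
  obtain ⟨F, hF, hF'⟩ := alg_of_minors (h := h) hp (by
    intro i j
    fin_cases i <;> fin_cases j
    · simp
    · exact h2
    · have := (dvd_neg (a := p)).2 h1
      rwa [neg_sub] at this
    · have := (dvd_neg (a := p)).2 h2
      rwa [neg_sub] at this
    · simp
    · exact h0
    · exact h1
    · have := (dvd_neg (a := p)).2 h0
      rwa [neg_sub] at this
    · simp)
  exact dvd_sub_of_dvd_aeval hp hF hF'

/-- `env_of`, from the facts on the bracket -/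
theorem env_of' [IsAlgClosed k] (hD : LN D) {X Y : kerAlg D} (hX : X ≠ 0) (hY : Y ≠ 0)
    (hco : IsRelPrime X Y) (hind : AlgebraicIndependent k ![X, Y]) (hne : Ideal.span {X, Y} ≠ ⊤)
    {δ0 δ1 : Derivation k (kerAlg D) (kerAlg D)} (hB : Brk D X Y δ0 δ1)
    (hf : δ0 Y = 0 ∧ δ1 X = 0 ∧ δ1 Y = δ0 X) (hJ : δ0 X ≠ 0) : Env2 k X Y (δ0 X) δ0 δ1 := by
  have hu : UniqueFactorizationMonoid (kerAlg D) := fin4_ker_ufd hD.ln
  have hdvd : ∀ {a b : kerAlg D}, (a : B3 k) ∣ (b : B3 k) → a ∣ b := by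
    intro a b h
    exact (ufm_dvd (kerAlg D) (envG_fc hD.ln)).2 h
  have hreg : ∀ p q : kerAlg D, IsRelPrime p q → ∀ a b : kerAlg D, p * a = q * b → q ∣ a := by
    intro p q hpq a b hab
    exact hpq.symm.dvd_of_dvd_mul_left ⟨b, hab⟩
  have hgeo : ∀ (p h : kerAlg D), Prime p → (∀ x, (p : B3 k) ∣ jac3 (p : B3 k) (h : B3 k) x) →
      ∃ β : k, p ∣ h - algebraMap k (kerAlg D) β := by
    intro p h hp hd
    obtain ⟨β, hβ⟩ := envG_geo (fin4_prime_of_ker hD.ln hp) hd
    exact ⟨β, hdvd hβ⟩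
  have hant : ∀ a b x : B3 k, jac3 a b x = - jac3 b a x := by
    intro a b x
    simp [jac3, Matrix.det_fin_three]
    ring
  refine ⟨hind, hJ, rfl, hf.1, hf.2.1, hf.2.2, envG_alg hD.ne hind, fun a b hab => ?_, ?_, ?_, ?_, ?_⟩
  · obtain ⟨c, hc⟩ := hreg Y X hco.symm a b hab
    exact ⟨c, hc⟩
  · rintro ⟨u, v, huv⟩
    apply hne
    rw [Ideal.eq_top_iff_one, huv]
    exact Ideal.add_mem _ (Ideal.mul_mem_right _ _ (Ideal.subset_span (by simp)))
      (Ideal.mul_mem_right _ _ (Ideal.subset_span (by simp)))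
  · exact envG_fin hD.ne hD.ln hX hY (hreg X Y hco)
  · intro p q hp hpq
    have hq0 : q ≠ 0 := fun h => hpq (h ▸ dvd_zero p)
    exact envG_fin hD.ne hD.ln hp.ne_zero hq0 (hreg p q (hp.irreducible.isRelPrime_iff_not_dvd.2 hpq))
  · intro p hp h0 h1
    obtain ⟨α, hα⟩ := hgeo p X hp (by
      intro x
      rw [hant, dvd_neg, hB.b1 p x]
      obtain ⟨w, hw⟩ := h1
      rw [hw]
      exact ⟨(w : B3 k) * D x, by push_cast; ring⟩)
    obtain ⟨β, hβ⟩ := hgeo p Y hp (by
      intro x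
      rw [hB.b0 p x]
      obtain ⟨w, hw⟩ := h0
      rw [hw]
      exact ⟨(w : B3 k) * D x, by push_cast; ring⟩)
    exact ⟨α, β, hα, hβ⟩

end Pool.Agent.MIY
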