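import Mathlib
import Pool.Agent.MIY.Br1
import Pool.Agent.MIY.Br2
import Pool.Agent.MIY.EnvG

set_option autoImplicit false

/-!
# MIY/Env1: `X`, `Y` in the kernel of a locally nilpotent derivation of `k[x, y, z]` satisfy `Env2`
-/

namespace Pool.Agent.MIY

open Pool.Agent.LNDF Pool.Agent.LNDHom

/-- Env1 -/
theorem env_of {k : Type} [Field k] [CharZero k] {D : Derivation k (B3 k) (B3 k)} [IsAlgClosed k]
    (hD : LN D) {X Y : kerAlg D} (hX : X ≠ 0) (hY : Y ≠ 0)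
    (hco : IsRelPrime X Y) (hind : AlgebraicIndependent k ![X, Y]) (hne : Ideal.span {X, Y} ≠ ⊤)
    {δ0 δ1 : Derivation k (kerAlg D) (kerAlg D)} (hB : Brk D X Y δ0 δ1) :
    Env2 k X Y (δ0 X) δ0 δ1 :=
  env_of' hD hX hY hco hind hne hB (hB.facts hD) (hB.ne hD hind)

end Pool.Agent.MIY
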