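import Mathlib
import Pool.Agent.MIY.Defs
import Pool.Agent.MIY.FDef

/-!
# MIY/Fin2 (H/821812_MIY_37, section 6): the module `F_n` of the elements of `S` of degree `< n` is regular for
`(x, y)` and `F_n / (x, y) F_n` is finite dimensional
-/

set_option autoImplicit false

open Polynomial

namespace Pool.Agent.MIY

section pure

variable {k A : Type} [Field k] [CommRing A] [Algebra k A]

/-- an ideal which contains `x` and `y` is finite modulo `x`, `y` if the ring is -/
theorem fin2_ideal {x y : A} (h : Fg2 (mu k A x) (mu k A y)) (J : Ideal A) (hx : x ∈ J) (hy : y ∈ J) :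
    ∃ (ν : ℕ) (q : Fin ν → A), (∀ j, q j ∈ J) ∧ ∀ a ∈ J, ∃ (r : Fin ν → k) (u v : A), u ∈ J ∧ v ∈ J ∧
      a = ∑ j, r j • q j + x * u + y * v := by
  obtain ⟨ν, b, hb⟩ := h
  have hb' : ∀ m : A, ∃ (w : A) (u v : A), w ∈ Submodule.span k (Set.range b) ∧
      m = w + x * u + y * v := by
    intro m
    obtain ⟨r, u, v, hm⟩ := hb m
    refine ⟨∑ j, r j • b j, u, v, ?_, hm⟩
    exact Submodule.sum_mem _ fun j _ => Submodule.smul_mem _ _ (Submodule.subset_span ⟨j, rfl⟩)
  set W : Submodule k A := Submodule.span k (Set.range b) with hW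
  have hWfg : W.FG := Submodule.fg_span (Set.finite_range b)
  set Jk : Submodule k A := J.restrictScalars k with hJk
  set W0 : Submodule k A := (W ⊓ Jk) ⊔ (W.map (LinearMap.mulLeft k x) ⊔ W.map (LinearMap.mulLeft k y))
    with hW0
  have hW0fg : W0.FG := by
    refine Submodule.FG.sup ?_ ((hWfg.map _).sup (hWfg.map _))
    have : FiniteDimensional k W := Module.Finite.iff_fg.2 hWfg
    have h2 : FiniteDimensional k (W ⊓ Jk : Submodule k A) :=
      Submodule.finiteDimensional_of_le inf_le_left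
    exact Module.Finite.iff_fg.1 h2
  have hW0J : W0 ≤ Jk := by
    refine sup_le inf_le_right (sup_le ?_ ?_)
    · rintro _ ⟨w, _, rfl⟩
      exact J.mul_mem_right w hx
    · rintro _ ⟨w, _, rfl⟩
      exact J.mul_mem_right w hy
  obtain ⟨ν', q, hq⟩ := Submodule.fg_iff_exists_fin_generating_family.1 hW0fg
  refine ⟨ν', q, fun j => hW0J (by rw [← hq]; exact Submodule.subset_span ⟨j, rfl⟩), ?_⟩
  intro a ha
  obtain ⟨w, u, v, hw, e⟩ := hb' a
  obtain ⟨w1, u1, v1, hw1, e1⟩ := hb' u
  obtain ⟨w2, u2, v2, hw2, e2⟩ := hb' v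
  have hwJ : w ∈ J := by
    have h1 : w = a - x * u - y * v := by rw [e]; ring
    rw [h1]
    exact J.sub_mem (J.sub_mem ha (J.mul_mem_right u hx)) (J.mul_mem_right v hy)
  have h3 : w + x * w1 + y * w2 ∈ W0 := by
    refine add_mem (add_mem ?_ ?_) ?_
    · exact Submodule.mem_sup_left ⟨hw, hwJ⟩
    · exact Submodule.mem_sup_right (Submodule.mem_sup_left ⟨w1, hw1, rfl⟩)
    · exact Submodule.mem_sup_right (Submodule.mem_sup_right ⟨w2, hw2, rfl⟩)
  rw [← hq, Submodule.mem_span_range_iff_exists_fun] at h3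
  obtain ⟨r, hr⟩ := h3
  refine ⟨r, x * u1 + y * v1, x * u2 + y * v2, ?_, ?_, ?_⟩
  · exact J.add_mem (J.mul_mem_right u1 hx) (J.mul_mem_right v1 hy)
  · exact J.add_mem (J.mul_mem_right u2 hx) (J.mul_mem_right v2 hy)
  · rw [hr]
    linear_combination e + x * e1 + y * e2

end pure

section model

variable {k A K : Type} [Field k] [CharZero k] [CommRing A] [IsDomain A] [Algebra k A] [Field K]
  [Algebra A K] [IsFractionRing A K] [Algebra k K] [CharZero K] [IsScalarTower k A K]

namespace M2

/-- degree condition in `F (n + 1)` -/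
theorem fin2_mem (M : M2 k A K) {n : ℕ} {h : K[X]} : h ∈ M.F n ↔ h ∈ M.S ∧ h.degree < (n : ℕ) :=
  M.mem_F n h

theorem fin2_smul (a : A) (h : K[X]) : a • h = C (al a) * h := by
  ext n
  rw [coeff_smul, coeff_C_mul, Algebra.smul_def]

/-- `F_n` is regular for `(x, y)` -/
theorem F_reg (M : M2 k A K)
    (hS : ∀ a ∈ M.S, ∀ b ∈ M.S, M.y • a = M.x • b → ∃ c ∈ M.S, a = M.x • c) (n : ℕ) :
    Reg2 (mu k (M.F n) M.x) (mu k (M.F n) M.y) := by
  have hx : (al M.x : K) ≠ 0 := al_ne M.x_ne
  refine ⟨fun m => ?_, fun m hm => ?_, fun a b hab => ?_⟩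
  · change M.x • (M.y • m) = M.y • (M.x • m)
    rw [smul_smul, smul_smul, mul_comm]
  · have h1 : M.x • (m : K[X]) = 0 := congrArg Subtype.val hm
    rw [fin2_smul] at h1
    exact Subtype.ext ((mul_eq_zero.1 h1).resolve_left (by simpa using hx))
  · have h1 : M.y • (a : K[X]) = M.x • (b : K[X]) := congrArg Subtype.val hab
    obtain ⟨h'', hS'', e⟩ := hS a (M.fin2_mem.1 a.2).1 b (M.fin2_mem.1 b.2).1 h1
    refine ⟨⟨h'', M.fin2_mem.2 ⟨hS'', ?_⟩⟩, Subtype.ext ?_⟩
    · have h2 := (M.fin2_mem.1 a.2).2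
      rw [e, fin2_smul, degree_C_mul hx] at h2
      exact h2
    · exact e

/-- `F_n / (x, y) F_n` is finite dimensional -/
theorem F_fg (M : M2 k A K) (hA : Fg2 (mu k A M.x) (mu k A M.y)) {n : ℕ} (hn : n ≤ M.N + 1) :
    Fg2 (mu k (M.F n) M.x) (mu k (M.F n) M.y) := by
  induction n with
  | zero =>
    refine ⟨0, Fin.elim0, fun m => ⟨Fin.elim0, 0, 0, ?_⟩⟩
    have h1 : (m : K[X]) = 0 := by
      have h2 := (M.fin2_mem.1 m.2).2
      by_contra h0
      have h3 := (degree_eq_natDegree h0) ▸ h2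
      exact absurd (WithBot.coe_lt_coe.1 h3) (Nat.not_lt_zero _)
    rw [map_zero, map_zero, add_zero, add_zero]
    simp only [Finset.univ_eq_empty, Finset.sum_empty]
    exact Subtype.ext h1
  | succ n ih =>
    have hnN : n ≤ M.N := by omega
    obtain ⟨ν', b', hb'⟩ := ih (by omega)
    have hle : ∀ h ∈ M.F (n + 1), h.natDegree ≤ n := fun h hh => by
      by_cases h0 : h = 0
      · rw [h0, natDegree_zero]
        exact Nat.zero_le n
      · have := (natDegree_lt_iff_degree_lt h0).2 (M.fin2_mem.1 hh).2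
        omega
    -- the ideal of the leading coefficients
    let J : Ideal A :=
      { carrier := {a | ∃ h ∈ M.F (n + 1), (n.factorial : K) * al M.c ^ n * h.coeff n =
          al (M.cc n * a)}
        add_mem' := by
          rintro a b ⟨h, hh, e⟩ ⟨h', hh', e'⟩
          refine ⟨h + h', add_mem hh hh', ?_⟩
          rw [coeff_add, mul_add, e, e', mul_add, al, al, al, map_add]
        zero_mem' := ⟨0, zero_mem _, by simp [al]⟩
        smul_mem' := by
          rintro r a ⟨h, hh, e⟩
          refine ⟨r • h, (M.F (n + 1)).smul_mem r hh, ?_⟩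
          rw [coeff_smul, Algebra.smul_def, smul_eq_mul]
          have e' : (al (M.cc n * (r * a)) : K) = al r * al (M.cc n * a) := by
            simp only [al, map_mul]
            ring
          rw [e', ← e]
          simp only [al]
          ring }
    have hJ : ∀ a, a ∈ J ↔ ∃ h ∈ M.F (n + 1), (n.factorial : K) * al M.c ^ n * h.coeff n =
      al (M.cc n * a) := fun a => Iff.rfl
    have hmem : ∀ h ∈ M.S, h.natDegree ≤ n → h ∈ M.F (n + 1) := fun h hS hd =>
      M.fin2_mem.2 ⟨hS, lt_of_le_of_lt (natDegree_le_iff_degree_le.1 hd)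
        (by exact_mod_cast Nat.lt_succ_self n)⟩
    have hxJ : M.x ∈ J := by
      obtain ⟨h, hS, hd, e⟩ := M.cc_x n hnN
      exact ⟨h, hmem h hS hd, e⟩
    have hyJ : M.y ∈ J := by
      obtain ⟨h, hS, hd, e⟩ := M.cc_y n hnN
      exact ⟨h, hmem h hS hd, e⟩
    obtain ⟨ν, q, hqJ, hq⟩ := fin2_ideal hA J hxJ hyJ
    choose b hb hbe using fun j => (hJ (q j)).1 (hqJ j)
    have hF : ∀ h : K[X], h ∈ M.F n → h ∈ M.F (n + 1) := fun h hh =>
      M.fin2_mem.2 ⟨(M.fin2_mem.1 hh).1,
        (M.fin2_mem.1 hh).2.trans (by exact_mod_cast Nat.lt_succ_self n)⟩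
    have hfac : (n.factorial : K) * al M.c ^ n ≠ 0 := by
      exact mul_ne_zero (Nat.cast_ne_zero.2 n.factorial_ne_zero) (pow_ne_zero _ (al_ne M.c_ne))
    refine ⟨ν + ν', Fin.append (fun j => ⟨b j, hb j⟩) (fun j => ⟨b' j, hF _ (b' j).2⟩), ?_⟩
    intro m
    obtain ⟨a, ha⟩ := M.cc_dvd n hnN m (M.fin2_mem.1 m.2).1 (hle _ m.2)
    obtain ⟨r, u, v, hu, hv, e⟩ := hq a ⟨m, m.2, ha⟩
    obtain ⟨hu1, hu2, hu3⟩ := (hJ u).1 hu
    obtain ⟨hv1, hv2, hv3⟩ := (hJ v).1 hv
    -- the difference has degree `< n`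
    have hsm : ∀ (t : k) (h : K[X]), (t • h).coeff n = algebraMap k K t * h.coeff n := by
      intro t h
      rw [coeff_smul, Algebra.smul_def]
    have hdiff : (m : K[X]) - ∑ j, r j • b j - M.x • hu1 - M.y • hv1 ∈ M.F n := by
      have h1 : (m : K[X]) - ∑ j, r j • b j - M.x • hu1 - M.y • hv1 ∈ M.F (n + 1) := by
        refine sub_mem (sub_mem (sub_mem m.2 (Submodule.sum_mem _ fun j _ => ?_))
          (Submodule.smul_mem _ _ hu2)) (Submodule.smul_mem _ _ hv2)
        have h2 : r j • b j = algebraMap k A (r j) • b j := (algebraMap_smul A (r j) (b j)).symm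
        rw [h2]
        exact Submodule.smul_mem _ _ (hb j)
      refine M.fin2_mem.2 ⟨(M.fin2_mem.1 h1).1, ?_⟩
      have h3 : ((m : K[X]) - ∑ j, r j • b j - M.x • hu1 - M.y • hv1).coeff n = 0 := by
        refine (mul_eq_zero.1 ?_).resolve_left hfac
        rw [coeff_sub, coeff_sub, coeff_sub, finsetSum_coeff, mul_sub, mul_sub, mul_sub, ha,
          coeff_smul, coeff_smul, Algebra.smul_def, Algebra.smul_def, Finset.mul_sum]
        have h4 : ∀ j, (n.factorial : K) * al M.c ^ n * (r j • b j).coeff n =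
            al (M.cc n * (r j • q j)) := by
          intro j
          rw [hsm]
          have h5 : (al (M.cc n * (r j • q j)) : K) = algebraMap k K (r j) * al (M.cc n * q j) := by
            rw [Algebra.smul_def]
            simp only [al, map_mul]
            rw [← IsScalarTower.algebraMap_apply k A K]
            ring
          rw [h5, ← hbe j]
          ring
        rw [Finset.sum_congr rfl fun j _ => h4 j]
        have h6 : (n.factorial : K) * al M.c ^ n * (algebraMap A K M.x * hu1.coeff n) =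
            al (M.cc n * (M.x * u)) := by
          have : (al (M.cc n * (M.x * u)) : K) = al M.x * al (M.cc n * u) := by
            simp only [al, map_mul]
            ring
          rw [this, ← hu3]
          simp only [al]
          ring
        have h7 : (n.factorial : K) * al M.c ^ n * (algebraMap A K M.y * hv1.coeff n) =
            al (M.cc n * (M.y * v)) := by
          have : (al (M.cc n * (M.y * v)) : K) = al M.y * al (M.cc n * v) := by
            simp only [al, map_mul]
            ring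
          rw [this, ← hv3]
          simp only [al]
          ring
        rw [h6, h7, e]
        simp only [al, mul_add, map_add, Finset.mul_sum, map_sum]
        ring
      have h8 := hle _ h1
      rw [degree_lt_iff_coeff_zero]
      intro i hi
      rcases Nat.lt_or_ge n i with h9 | h9
      · exact coeff_eq_zero_of_natDegree_lt (lt_of_le_of_lt h8 h9)
      · rw [show i = n by omega]
        exact h3
    obtain ⟨r', u', v', e'⟩ := hb' ⟨_, hdiff⟩
    have hmu : ∀ (n : ℕ) (a : A) (z : M.F n), ((mu k (M.F n) a z : M.F n) : K[X]) =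
      a • (z : K[X]) := fun _ _ _ => rfl
    have hco : ∀ (n : ℕ) {ν : ℕ} (r : Fin ν → k) (b : Fin ν → M.F n),
        ((∑ j, r j • b j : M.F n) : K[X]) = ∑ j, r j • (b j : K[X]) := by
      intro n ν r b
      rw [Submodule.coe_sum]
      rfl
    refine ⟨Fin.append r r', ⟨hu1, hu2⟩ + ⟨u', hF _ u'.2⟩, ⟨hv1, hv2⟩ + ⟨v', hF _ v'.2⟩, ?_⟩
    refine Subtype.ext ?_
    have e'' : (m : K[X]) - ∑ j, r j • b j - M.x • hu1 - M.y • hv1 =
        ∑ j, r' j • (b' j : K[X]) + M.x • (u' : K[X]) + M.y • (v' : K[X]) := by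
      have := congrArg Subtype.val e'
      rw [Submodule.coe_add, Submodule.coe_add, hmu, hmu] at this
      rw [← hco n]
      exact this
    rw [Fin.sum_univ_add]
    simp only [Fin.append_left, Fin.append_right]
    have h10 : (m : K[X]) = ∑ j, r j • b j + ∑ j, r' j • (b' j : K[X]) + M.x • (hu1 + (u' : K[X])) +
        M.y • (hv1 + (v' : K[X])) := by
      rw [smul_add, smul_add]
      linear_combination e''
    rw [Submodule.coe_add, Submodule.coe_add, hmu, hmu, Submodule.coe_add, Submodule.coe_add,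
      Submodule.coe_add, hco, hco]
    exact h10

end M2

end model

end Pool.Agent.MIY
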