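import Mathlib
import Pool.Agent.MIY.Defs

set_option autoImplicit false

/-!
# Finite codimension: extensions and ideals

`fg2_ext`: an extension of two modules of finite codimension has finite codimension;
`fg2_sub`: so has an ideal of `A` which contains `X` and `Y`;
`fg2_step`: the step of the filtration by degree.
-/

namespace Pool.Agent.MIY

section ops

variable {k : Type} [Field k] {M' M N : Type} [AddCommGroup M'] [Module k M'] [AddCommGroup M]
  [Module k M] [AddCommGroup N] [Module k N]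

/-- a spanning family indexed by any finite type -/
theorem fg2_of_fintype {x y : M →ₗ[k] M} {ι : Type} [Fintype ι] (b : ι → M)
    (h : ∀ m, ∃ (r : ι → k) (u v : M), m = ∑ j, r j • b j + x u + y v) : Fg2 x y := by
  classical
  let e := Fintype.equivFin ι
  refine ⟨_, b ∘ e.symm, fun m => ?_⟩
  obtain ⟨r, u, v, hm⟩ := h m
  refine ⟨r ∘ e.symm, u, v, ?_⟩
  rw [hm]
  congr 2
  exact (Equiv.sum_comp e.symm fun j => r j • b j).symm

/-- extensions -/
theorem fg2_ext {x' y' : M' →ₗ[k] M'} {x y : M →ₗ[k] M} {x'' y'' : N →ₗ[k] N}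
    (i : M' →ₗ[k] M) (φ : M →ₗ[k] N) (hix : ∀ a, i (x' a) = x (i a)) (hiy : ∀ a, i (y' a) = y (i a))
    (hφx : ∀ a, φ (x a) = x'' (φ a)) (hφy : ∀ a, φ (y a) = y'' (φ a))
    (hex : ∀ z, φ z = 0 → ∃ z', i z' = z) (hs : ∀ n, ∃ z, φ z = n) (h1 : Fg2 x' y')
    (h2 : Fg2 x'' y'') : Fg2 x y := by
  classical
  obtain ⟨ν, b, hb⟩ := h1
  obtain ⟨κ, e, he⟩ := h2
  choose m hm using fun j => hs (e j)
  refine fg2_of_fintype (Sum.elim m (fun j => i (b j))) fun z => ?_
  obtain ⟨c, u, w, hz⟩ := he (φ z)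
  obtain ⟨u', rfl⟩ := hs u
  obtain ⟨w', rfl⟩ := hs w
  obtain ⟨z', hz'⟩ := hex (z - ∑ j, c j • m j - x u' - y w') (by
    rw [map_sub, map_sub, map_sub, map_sum, hz, hφx, hφy]
    simp only [map_smul, hm]
    abel)
  obtain ⟨d, u, w, hzz⟩ := hb z'
  refine ⟨Sum.elim c d, u' + i u, w' + i w, ?_⟩
  rw [Fintype.sum_sum_type]
  simp only [Sum.elim_inl, Sum.elim_inr]
  have h3 : i z' = ∑ j, d j • i (b j) + x (i u) + y (i w) := by
    rw [hzz, map_add, map_add, map_sum, hix, hiy]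
    simp only [map_smul]
  rw [h3] at hz'
  rw [map_add, map_add]
  have h4 : z = (z - ∑ j, c j • m j - x u' - y w') + ∑ j, c j • m j + x u' + y w' := by
    abel
  rw [h4, ← hz']
  abel

/-- the zero module -/
theorem fg2_zero {x y : M →ₗ[k] M} (h : ∀ m : M, m = 0) : Fg2 x y :=
  fg2_of_fintype (ι := Empty) (fun j => j.elim) fun m =>
    ⟨fun j => j.elim, 0, 0, by rw [h m]; simp⟩

end ops

section ideals

variable {k A : Type} [Field k] [CommRing A] [Algebra k A] {X Y : A}

/-- an ideal which contains `X` and `Y` -/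
theorem fg2_sub (hA : Fg2 (mu k A X) (mu k A Y)) (J : Ideal A) (hX : X ∈ J) (hY : Y ∈ J) :
    Fg2 (mu k J X) (mu k J Y) := by
  classical
  obtain ⟨ν, e, he'⟩ := hA
  have he : ∀ m, ∃ (r : Fin ν → k) (u v : A), m = ∑ j, r j • e j + X * u + Y * v := he'
  -- the square of the ideal `(X, Y)`
  let W : Submodule k A :=
    { carrier := {z | ∃ u v w : A, z = X * (X * u + Y * v) + Y * (Y * w)}
      zero_mem' := ⟨0, 0, 0, by simp⟩
      add_mem' := by
        rintro z z' ⟨u, v, w, rfl⟩ ⟨u', v', w', rfl⟩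
        exact ⟨u + u', v + v', w + w', by ring⟩
      smul_mem' := by
        rintro c z ⟨u, v, w, rfl⟩
        refine ⟨c • u, c • v, c • w, ?_⟩
        simp only [Algebra.smul_def]
        ring }
  have hfin : Module.Finite k (A ⧸ W) := by
    let g : Fin ν ⊕ (Fin ν ⊕ Fin ν) → A :=
      Sum.elim e (Sum.elim (fun j => X * e j) (fun j => Y * e j))
    refine ⟨⟨(Set.finite_range fun j => W.mkQ (g j)).toFinset, ?_⟩⟩
    rw [Set.Finite.coe_toFinset]
    refine top_le_iff.mp fun v _ => ?_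
    obtain ⟨z, rfl⟩ := W.mkQ_surjective v
    obtain ⟨c, u, w, hz⟩ := he z
    obtain ⟨c', u', w', hu⟩ := he u
    obtain ⟨c'', u'', w'', hw⟩ := he w
    have h2 : W.mkQ (z - (∑ j, c j • e j + ∑ j, c' j • (X * e j) +
        ∑ j, c'' j • (Y * e j))) = 0 := by
      rw [Submodule.mkQ_apply, Submodule.Quotient.mk_eq_zero]
      refine ⟨u', w' + u'', w'', ?_⟩
      rw [hz, hu, hw]
      simp only [mul_add, Finset.mul_sum, mul_smul_comm]
      ring
    rw [map_sub, sub_eq_zero] at h2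
    rw [h2, map_add, map_add, map_sum, map_sum, map_sum]
    refine Submodule.add_mem _ (Submodule.add_mem _ ?_ ?_) ?_
    · exact Submodule.sum_mem _ fun j _ => by
        rw [map_smul]
        exact Submodule.smul_mem _ _ (Submodule.subset_span ⟨Sum.inl j, rfl⟩)
    · exact Submodule.sum_mem _ fun j _ => by
        rw [map_smul]
        exact Submodule.smul_mem _ _ (Submodule.subset_span ⟨Sum.inr (Sum.inl j), rfl⟩)
    · exact Submodule.sum_mem _ fun j _ => by
        rw [map_smul]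
        exact Submodule.smul_mem _ _ (Submodule.subset_span ⟨Sum.inr (Sum.inr j), rfl⟩)
  -- the image of `J`
  let JW : Submodule k (A ⧸ W) := (J.restrictScalars k).map W.mkQ
  obtain ⟨s, hs⟩ := (inferInstance : Module.Finite k JW).fg_top
  choose f hf using fun v : JW => v.2
  refine fg2_of_fintype (ι := s) (fun v => ⟨f v.1, (hf v.1).1⟩) fun z => ?_
  have hz : (⟨W.mkQ z.1, z.1, z.2, rfl⟩ : JW) ∈ Submodule.span k (s : Set JW) := by
    rw [hs]; trivial
  rw [Submodule.mem_span_finset'] at hz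
  obtain ⟨c, hc⟩ := hz
  have hc' : ∑ v : s, c v • W.mkQ (f v.1) = W.mkQ z.1 := by
    have h1 := congrArg (Subtype.val) hc
    have h2 : ((∑ v : s, c v • (v : JW) : JW) : A ⧸ W) = ∑ v : s, c v • ((v : JW) : A ⧸ W) := by
      rw [Submodule.coe_sum]
      rfl
    rw [h2] at h1
    refine Eq.trans (Finset.sum_congr rfl fun v _ => ?_) h1
    rw [(hf v.1).2]
  have h2 : W.mkQ (z.1 - ∑ v : s, c v • f v.1) = 0 := by
    rw [map_sub, map_sum]
    simp only [map_smul]
    rw [hc', sub_self]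
  rw [Submodule.mkQ_apply, Submodule.Quotient.mk_eq_zero] at h2
  obtain ⟨u, v, w, huvw⟩ := h2
  refine ⟨c, ⟨X * u + Y * v, J.add_mem (J.mul_mem_right _ hX) (J.mul_mem_right _ hY)⟩,
    ⟨Y * w, J.mul_mem_right _ hY⟩, ?_⟩
  apply Subtype.ext
  have h5 : (((∑ j : s, c j • (⟨f j.1, (hf j.1).1⟩ : J)) : J) : A) = ∑ j : s, c j • f j.1 := by
    rw [Submodule.coe_sum]
    rfl
  show z.1 = (((∑ j : s, c j • (⟨f j.1, (hf j.1).1⟩ : J)) : J) : A) + X * (X * u + Y * v)
    + Y * (Y * w)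
  rw [h5, add_assoc, ← huvw]
  ring

/-- the step of the filtration by degree: `F'` is the kernel of the leading coefficient on `F`, whose
image is the ideal `J`, which contains `X` and `Y` -/
theorem fg2_step {B : Type} [AddCommGroup B] [Module k B] [Module A B] [IsScalarTower k A B]
    (F' F : Submodule A B) (hle : F' ≤ F) (φ : F →ₗ[A] A) (hker : ∀ z : F, φ z = 0 → (z : B) ∈ F')
    (hX : ∃ z, φ z = X) (hY : ∃ z, φ z = Y) (hA : Fg2 (mu k A X) (mu k A Y))
    (h : Fg2 (mu k F' X) (mu k F' Y)) : Fg2 (mu k F X) (mu k F Y) := by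
  obtain ⟨zX, hzX⟩ := hX
  obtain ⟨zY, hzY⟩ := hY
  let J : Ideal A := LinearMap.range φ
  have hJ := fg2_sub hA J ⟨zX, hzX⟩ ⟨zY, hzY⟩
  let φ' : F →ₗ[A] J := φ.rangeRestrict
  refine fg2_ext (x' := mu k F' X) (y' := mu k F' Y) (x := mu k F X) (y := mu k F Y)
    (x'' := mu k J X) (y'' := mu k J Y)
    ((Submodule.inclusion hle).restrictScalars k) (φ'.restrictScalars k)
    (fun a => rfl) (fun a => rfl) (fun a => φ'.map_smul X a) (fun a => φ'.map_smul Y a)
    (fun z hz => ?_) (fun n => ?_) h hJ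
  · have h1 : φ z = 0 := by
      have h2 : φ' z = 0 := hz
      have h3 := congrArg Subtype.val h2
      exact h3
    exact ⟨⟨z, hker z h1⟩, rfl⟩
  · obtain ⟨n, z, rfl⟩ := n
    exact ⟨z, rfl⟩

end ideals

end Pool.Agent.MIY
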