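import Mathlib
import Pool.Agent.LNDF.Fin3
import Pool.Agent.LNDF.Fin4A

/-!
# from Miyanishi's theorem and Q1 over algebraically closed fields to every field of characteristic zero
-/

set_option autoImplicit false

open MvPolynomial

namespace Pool.Agent.MIY

open Pool.Agent.LNDF

/-- Miyanishi's theorem for irreducible derivations over an algebraically closed field gives it for all
nonzero ones -/
theorem miy_all {K : Type} [Field K] [CharZero K]
    (miy : ∀ D : Derivation K (B3 K) (B3 K), (∃ x, D x ≠ 0) → (∀ x, ∃ n, (⇑D)^[n] x = 0) →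
      (∀ p : B3 K, Prime p → D p = 0 → ∃ x, ¬ p ∣ D x) →
      ∃ f g : B3 K, AlgebraicIndependent K ![f, g] ∧ ∀ b, D b = 0 ↔ b ∈ Algebra.adjoin K {f, g})
    (D : Derivation K (B3 K) (B3 K)) (hD : ∃ x, D x ≠ 0) (hln : ∀ x, ∃ n, (⇑D)^[n] x = 0) :
    ∃ f g : B3 K, AlgebraicIndependent K ![f, g] ∧ ∀ b, D b = 0 ↔ b ∈ Algebra.adjoin K {f, g} := by
  obtain ⟨q, E, h1, h2, h3, h4, h5, h6⟩ := exists_irr D hD hln
  obtain ⟨f, g, hind, hker⟩ := miy E (by
    obtain ⟨x, hx⟩ := hD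
    exact ⟨x, fun h0 => hx ((h5 x).1 h0)⟩) h4 h6
  exact ⟨f, g, hind, fun b => by rw [← h5, hker]⟩

/-- **S00279 from Miyanishi's theorem over algebraically closed fields and Q1 over them** -/
theorem fro
    (miy : ∀ (K : Type) [Field K] [CharZero K] [IsAlgClosed K] (D : Derivation K (B3 K) (B3 K)),
      (∃ x, D x ≠ 0) → (∀ x, ∃ n, (⇑D)^[n] x = 0) →
      (∀ p : B3 K, Prime p → D p = 0 → ∃ x, ¬ p ∣ D x) →
      ∃ f g : B3 K, AlgebraicIndependent K ![f, g] ∧ ∀ b, D b = 0 ↔ b ∈ Algebra.adjoin K {f, g})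
    (q1 : ∀ (K : Type) [Field K] [CharZero K] [IsAlgClosed K] (D : Derivation K (B3 K) (B3 K)),
      D ≠ 0 → (∀ x, ∃ n, (⇑D)^[n] x = 0) → ∀ f g : B3 K,
      (∀ b, D b = 0 ↔ b ∈ Algebra.adjoin K {f, g}) → ∀ n, Princ D n)
    (k : Type) [Field k] [CharZero k] (D : Derivation k (B3 k) (B3 k)) (hD : D ≠ 0)
    (hln : ∀ x, ∃ n, (⇑D)^[n] x = 0) (n : ℕ) : Princ D n := by
  have hx : ∃ x, D x ≠ 0 := by
    by_contra hcon
    push Not at hcon
    exact hD (Derivation.ext fun x => by rw [hcon x]; rfl)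
  have : CharZero (AlgebraicClosure k) := charZero_of_injective_algebraMap
    (algebraMap k (AlgebraicClosure k)).injective
  have hinj := MvPolynomial.map_injective (σ := Fin 3) _
    (algebraMap k (AlgebraicClosure k)).injective
  have hDK : ∃ x, (LNDHom.ext (AlgebraicClosure k) D) x ≠ 0 := by
    obtain ⟨x, hx⟩ := hx
    refine ⟨MvPolynomial.map (algebraMap k (AlgebraicClosure k)) x, fun h0 => hx (hinj ?_)⟩
    rw [← LNDHom.ext_map, h0, map_zero]
  have hlnK := LNDHom.ext_ln (K := AlgebraicClosure k) D hln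
  obtain ⟨f, g, -, hker⟩ := miy_all (fun E => miy (AlgebraicClosure k) E)
    (LNDHom.ext (AlgebraicClosure k) D) hDK hlnK
  refine princ_descent (AlgebraicClosure k) D (q1 (AlgebraicClosure k) _ ?_ hlnK f g hker n)
  rintro h0
  obtain ⟨x, hx⟩ := hDK
  exact hx (by rw [h0]; rfl)

end Pool.Agent.MIY
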