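import Mathlib

set_option autoImplicit false

open Polynomial

namespace Pool.Agent.MIY.Gen2

/-- factorially closed subalgebras of `k[x, y, z]` -/
def FC {k : Type} [Field k] (A : Subalgebra k (MvPolynomial (Fin 3) k)) : Prop :=
  ∀ a b, a * b ≠ 0 → a * b ∈ A → a ∈ A

section general

variable {k R : Type} [Field k] [CommRing R] [Algebra k R]

/-- a polynomial in `c` divisible by the prime `p` -/
private theorem exists_dvd_sub [IsAlgClosed k] {p : R} (hp : Prime p) {c : R} (n : ℕ) :
    ∀ q : k[X], q.natDegree = n → q ≠ 0 → p ∣ aeval c q → ∃ l : k, p ∣ c - algebraMap k R l := by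
  induction n with
  | zero =>
    intro q hq hq0 hpq
    exfalso
    rw [eq_C_of_natDegree_eq_zero hq, aeval_C] at hpq
    have h1 : q.coeff 0 ≠ 0 := by
      intro h0
      apply hq0
      rw [eq_C_of_natDegree_eq_zero hq, h0, C_0]
    exact hp.not_isUnit (isUnit_of_dvd_unit hpq ((isUnit_iff_ne_zero.mpr h1).map _))
  | succ n ih =>
    intro q hq hq0 hpq
    obtain ⟨l, hl⟩ := IsAlgClosed.exists_root q (by
      rw [degree_eq_natDegree hq0, hq]
      exact_mod_cast Nat.succ_ne_zero n)
    obtain ⟨q', rfl⟩ := dvd_iff_isRoot.mpr hl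
    have hq'0 : q' ≠ 0 := right_ne_zero_of_mul hq0
    rw [map_mul, map_sub, aeval_X, aeval_C] at hpq
    rcases hp.dvd_or_dvd hpq with h1 | h1
    · exact ⟨l, h1⟩
    · refine ih q' ?_ hq'0 h1
      rw [natDegree_mul (X_sub_C_ne_zero l) hq'0, natDegree_X_sub_C] at hq
      omega

/-- substitution modulo `h - l` -/
private theorem dvd_subst (h w : R) (l : k) (G : MvPolynomial (Fin 2) k) :
    (h - algebraMap k R l) ∣ MvPolynomial.aeval ![h, w] G -
      aeval w (MvPolynomial.aeval ![(C l : k[X]), X] G) := by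
  rw [← Ideal.mem_span_singleton, ← Ideal.Quotient.eq]
  have h1 : ∀ a : Fin 2 → R, (Ideal.Quotient.mk (Ideal.span {h - algebraMap k R l})
      (MvPolynomial.aeval a G)) = MvPolynomial.aeval (fun i =>
        (Ideal.Quotient.mk (Ideal.span {h - algebraMap k R l}) (a i))) G := by
    intro a
    have := MvPolynomial.comp_aeval_apply (R := k) a
      (Ideal.Quotient.mkₐ k (Ideal.span {h - algebraMap k R l})) G
    exact this
  have h2 : aeval w (MvPolynomial.aeval ![(C l : k[X]), X] G) =
      MvPolynomial.aeval (fun i => aeval w ((![(C l : k[X]), X] : Fin 2 → k[X]) i)) G :=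
    MvPolynomial.comp_aeval_apply (R := k) ![(C l : k[X]), X] (aeval w : k[X] →ₐ[k] R) G
  rw [h2, h1, h1]
  congr 2
  ext i
  fin_cases i
  · simp only [Fin.zero_eta, Fin.isValue, Matrix.cons_val_zero, aeval_C]
    rw [Ideal.Quotient.eq, Ideal.mem_span_singleton]
  · simp

/-- a nonzero polynomial in two variables has a nonzero specialization -/
private theorem exists_spec [Infinite k] {G : MvPolynomial (Fin 2) k} (hG : G ≠ 0) :
    ∃ l : k, MvPolynomial.aeval ![(C l : k[X]), X] G ≠ 0 := by
  by_contra hcon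
  push Not at hcon
  apply hG
  apply MvPolynomial.funext
  intro x
  rw [map_zero]
  have h1 := congrArg (aeval (x 1)) (hcon (x 0))
  rw [map_zero] at h1
  have h2 : aeval (x 1) (MvPolynomial.aeval ![(C (x 0) : k[X]), X] G) =
      MvPolynomial.aeval (fun i => aeval (x 1) ((![(C (x 0) : k[X]), X] : Fin 2 → k[X]) i)) G :=
    MvPolynomial.comp_aeval_apply (R := k) ![(C (x 0) : k[X]), X] (aeval (x 1) : k[X] →ₐ[k] k) G
  rw [h2] at h1
  rw [← h1]
  have h3 : (fun i => aeval (x 1) ((![(C (x 0) : k[X]), X] : Fin 2 → k[X]) i)) = x := by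
    ext i
    fin_cases i
    · simp
    · simp
  rw [h3]
  rfl

private theorem exists_of_dep [Infinite k] {h w : R} (hd : ¬ AlgebraicIndependent k ![h, w]) :
    ∃ (l : k) (q : k[X]), q ≠ 0 ∧ (h - algebraMap k R l) ∣ aeval w q := by
  rw [algebraicIndependent_iff] at hd
  push Not at hd
  obtain ⟨G, hG, hG0⟩ := hd
  obtain ⟨l, hl⟩ := exists_spec hG0
  refine ⟨l, _, hl, ?_⟩
  have h1 := dvd_subst h w l G
  rw [hG, zero_sub, dvd_neg] at h1
  exact h1

end general

variable {k : Type} [Field k]

private theorem deg_pos {a : (MvPolynomial (Fin 3) k)} (ha : a ≠ 0) (hu : ¬ IsUnit a) : 0 < a.totalDegree := by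
  rcases Nat.eq_zero_or_pos a.totalDegree with h0 | h0
  · exfalso
    rw [MvPolynomial.totalDegree_eq_zero_iff_eq_C] at h0
    apply hu
    rw [h0]
    refine (isUnit_iff_ne_zero.mpr ?_).map _
    intro h1
    apply ha
    rw [h0, h1, MvPolynomial.C_0]
  · exact h0

private theorem deg_sub_C (w : (MvPolynomial (Fin 3) k)) (c : k) : (w - MvPolynomial.C c).totalDegree ≤ w.totalDegree := by
  refine (MvPolynomial.totalDegree_sub _ _).trans ?_
  rw [MvPolynomial.totalDegree_C]
  simp

/-- the quotient by `h - l` has smaller degree -/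
private theorem deg_lt {h w w' : (MvPolynomial (Fin 3) k)} {l c : k} (hpr : Prime (h - MvPolynomial.C l))
    (hw' : w' ≠ 0) (he : w - MvPolynomial.C c = (h - MvPolynomial.C l) * w') :
    w'.totalDegree < w.totalDegree := by
  have h1 := deg_sub_C w c
  rw [he, MvPolynomial.totalDegree_mul_of_isDomain hpr.ne_zero hw'] at h1
  have h2 := deg_pos hpr.ne_zero hpr.not_isUnit
  omega

/-- a factorially closed subalgebra of transcendence degree one is generated by one element -/
theorem one_gen [IsAlgClosed k] (A : Subalgebra k (MvPolynomial (Fin 3) k)) (hfc : FC A)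
    (hne : ∃ c ∈ A, ∀ l : k, c ≠ MvPolynomial.C l)
    (hdep : ∀ a ∈ A, ∀ b ∈ A, ¬ AlgebraicIndependent k ![a, b]) :
    ∃ h, A = Algebra.adjoin k {h} ∧ (∀ l : k, Prime (h - MvPolynomial.C l)) ∧
      Transcendental k h := by
  classical
  have hex : ∃ n, ∃ c ∈ A, (∀ l : k, c ≠ MvPolynomial.C l) ∧ c.totalDegree = n := by
    obtain ⟨c, hc, hc'⟩ := hne
    exact ⟨_, c, hc, hc', rfl⟩
  obtain ⟨h, hh, hhn, hhd⟩ := Nat.find_spec hex
  have hmin : ∀ c ∈ A, (∀ l : k, c ≠ MvPolynomial.C l) → h.totalDegree ≤ c.totalDegree := by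
    intro c hc hcn
    rw [hhd]
    exact Nat.find_min' hex ⟨c, hc, hcn, rfl⟩
  have hCA : ∀ l : k, (MvPolynomial.C l : (MvPolynomial (Fin 3) k)) ∈ A := fun l => A.algebraMap_mem l
  have hnc : ∀ a : (MvPolynomial (Fin 3) k), a ≠ 0 → ¬ IsUnit a → ∀ l : k, a ≠ MvPolynomial.C l := by
    intro a ha hu l hl
    have := deg_pos ha hu
    rw [hl, MvPolynomial.totalDegree_C] at this
    omega
  have hpr : ∀ l : k, Prime (h - MvPolynomial.C l) := by
    intro l
    rw [← UniqueFactorizationMonoid.irreducible_iff_prime]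
    have hne0 : h - MvPolynomial.C l ≠ 0 := sub_ne_zero.mpr (hhn l)
    refine ⟨?_, ?_⟩
    · intro hu
      rw [MvPolynomial.isUnit_iff_eq_C_of_isReduced] at hu
      obtain ⟨r, _, hr⟩ := hu
      apply hhn (r + l)
      rw [map_add, ← hr]
      ring
    · intro a b hab
      by_contra hcon
      push Not at hcon
      obtain ⟨hua, hub⟩ := hcon
      have hab0 : a * b ≠ 0 := hab ▸ hne0
      have ha0 := left_ne_zero_of_mul hab0
      have hb0 := right_ne_zero_of_mul hab0
      have haA : a ∈ A := hfc a b hab0 (hab ▸ A.sub_mem hh (hCA l))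
      have h1 := hmin a haA (hnc a ha0 hua)
      have h2 := deg_sub_C h l
      rw [hab, MvPolynomial.totalDegree_mul_of_isDomain ha0 hb0] at h2
      have h3 := deg_pos hb0 hub
      omega
  have hinf : Infinite k := IsAlgClosed.instInfinite
  have key : ∀ (n : ℕ) (c : (MvPolynomial (Fin 3) k)), c ∈ A → c.totalDegree = n → c ∈ Algebra.adjoin k {h} := by
    intro n
    induction n using Nat.strong_induction_on with
    | _ n ih =>
      intro c hc hn
      obtain ⟨l, q, hq, hdvd⟩ := exists_of_dep (hdep h hh c hc)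
      obtain ⟨m, w', hw'⟩ := exists_dvd_sub (hpr l) q.natDegree q rfl hq hdvd
      have hw2 : c - MvPolynomial.C m = (h - MvPolynomial.C l) * w' := hw'
      have hc2 : c = MvPolynomial.C m + (h - MvPolynomial.C l) * w' := by
        rw [← hw2]; ring
      by_cases hw0 : w' = 0
      · rw [hc2, hw0, mul_zero, add_zero]
        exact Subalgebra.algebraMap_mem _ m
      · have hwA : w' ∈ A := by
          apply hfc w' (h - MvPolynomial.C l) (mul_ne_zero hw0 (hpr l).ne_zero)
          rw [mul_comm, ← hw2]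
          exact A.sub_mem hc (hCA m)
        have h1 := deg_lt (hpr l) hw0 hw2
        have h2 := ih _ (by omega) w' hwA rfl
        rw [hc2]
        refine Subalgebra.add_mem _ (Subalgebra.algebraMap_mem _ m) (Subalgebra.mul_mem _ ?_ h2)
        exact Subalgebra.sub_mem _ (Algebra.subset_adjoin rfl) (Subalgebra.algebraMap_mem _ l)
  refine ⟨h, ?_, hpr, ?_⟩
  · apply le_antisymm
    · intro c hc
      exact key _ c hc rfl
    · rw [Algebra.adjoin_le_iff]
      rintro _ rfl
      exact hh
  · rintro ⟨q, hq0, hq⟩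
    obtain ⟨l', hl'⟩ : ∃ l' : k, h = MvPolynomial.C l' := by
      by_contra hcon
      push Not at hcon
      -- `h` is a root of `q`: some factor vanishes
      have key2 : ∀ (n : ℕ) (q : k[X]), q.natDegree = n → q ≠ 0 → aeval h q = 0 → False := by
        intro n
        induction n with
        | zero =>
          intro q hq hq0 hpq
          rw [eq_C_of_natDegree_eq_zero hq, aeval_C] at hpq
          have h3 : q.coeff 0 = 0 := by
            have := (algebraMap k (MvPolynomial (Fin 3) k)).injective (hpq.trans (map_zero _).symm)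
            exact this
          apply hq0
          rw [eq_C_of_natDegree_eq_zero hq, h3, C_0]
        | succ n ih =>
          intro q hq hq0 hpq
          obtain ⟨l, hl⟩ := IsAlgClosed.exists_root q (by
            rw [degree_eq_natDegree hq0, hq]
            exact_mod_cast Nat.succ_ne_zero n)
          obtain ⟨q', rfl⟩ := dvd_iff_isRoot.mpr hl
          have hq'0 : q' ≠ 0 := right_ne_zero_of_mul hq0
          rw [map_mul, map_sub, aeval_X, aeval_C] at hpq
          rcases mul_eq_zero.mp hpq with h1 | h1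
          · exact hcon l (sub_eq_zero.mp h1)
          · refine ih q' ?_ hq'0 h1
            rw [natDegree_mul (X_sub_C_ne_zero l) hq'0, natDegree_X_sub_C] at hq
            omega
      exact key2 _ q rfl hq0 hq
    exact hhn l' hl'

/-- a factorially closed subalgebra which is a polynomial ring over `k(h)` is `k[h, w]` -/
theorem two_gen [IsAlgClosed k] (A : Subalgebra k (MvPolynomial (Fin 3) k)) (hfc : FC A) {h : (MvPolynomial (Fin 3) k)} (hh : h ∈ A)
    (hpr : ∀ l : k, Prime (h - MvPolynomial.C l)) {w0 : (MvPolynomial (Fin 3) k)} (hw0 : w0 ∈ A)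
    (hind : AlgebraicIndependent k ![h, w0])
    (hloc : ∀ a ∈ A, ∃ q : k[X], q ≠ 0 ∧ aeval h q * a ∈ Algebra.adjoin k {h, w0}) :
    ∃ w ∈ A, A = Algebra.adjoin k {h, w} ∧ AlgebraicIndependent k ![h, w] := by
  classical
  have hinf : Infinite k := IsAlgClosed.instInfinite
  have hCA : ∀ l : k, (MvPolynomial.C l : (MvPolynomial (Fin 3) k)) ∈ A := fun l => A.algebraMap_mem l
  have hex : ∃ n, ∃ w ∈ A, (∀ a ∈ A, ∃ q : k[X], q ≠ 0 ∧
      aeval h q * a ∈ Algebra.adjoin k {h, w}) ∧ w.totalDegree = n := ⟨_, w0, hw0, hloc, rfl⟩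
  obtain ⟨w, hw, hwl, hwd⟩ := Nat.find_spec hex
  have hmin : ∀ c ∈ A, (∀ a ∈ A, ∃ q : k[X], q ≠ 0 ∧
      aeval h q * a ∈ Algebra.adjoin k {h, c}) → w.totalDegree ≤ c.totalDegree := by
    intro c hc hcn
    rw [hwd]
    exact Nat.find_min' hex ⟨c, hc, hcn, rfl⟩
  have htr : ∀ (l : k) (q : k[X]), q ≠ 0 → ¬ (h - algebraMap k (MvPolynomial (Fin 3) k) l) ∣ aeval w q := by
    intro l q hq hdvd
    obtain ⟨m, w', hw'⟩ := exists_dvd_sub (hpr l) q.natDegree q rfl hq hdvd
    have hw2 : w - MvPolynomial.C m = (h - MvPolynomial.C l) * w' := hw'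
    have hwe : w = MvPolynomial.C m + (h - MvPolynomial.C l) * w' := by
      rw [← hw2]; ring
    by_cases hw'0 : w' = 0
    · -- `w` constant
      obtain ⟨q1, hq1, hq1m⟩ := hwl w0 hw0
      have h1 : Algebra.adjoin k {h, w} ≤ Algebra.adjoin k {h} := by
        rw [Algebra.adjoin_le_iff]
        intro t ht
        rcases ht with rfl | ht
        · exact Algebra.subset_adjoin rfl
        · rw [Set.mem_singleton_iff] at ht
          rw [ht, hwe, hw'0, mul_zero, add_zero]
          exact Subalgebra.algebraMap_mem _ m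
      have h2 := h1 hq1m
      rw [Algebra.adjoin_singleton_eq_range_aeval] at h2
      obtain ⟨g, hg⟩ := h2
      have hg' : aeval h g = aeval h q1 * w0 := hg
      have h3 : MvPolynomial.aeval ![h, w0] (aeval (MvPolynomial.X 0 : MvPolynomial (Fin 2) k) q1 *
          MvPolynomial.X 1 - aeval (MvPolynomial.X 0 : MvPolynomial (Fin 2) k) g) = 0 := by
        rw [map_sub, map_mul, ← aeval_algHom_apply, ← aeval_algHom_apply, MvPolynomial.aeval_X,
          MvPolynomial.aeval_X]
        simp only [Matrix.cons_val_zero, Matrix.cons_val_one, hg', sub_self]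
      have h4 := (algebraicIndependent_iff.mp hind) _ h3
      -- apply the specialization `X 0 ↦ C T`, `X 1 ↦ X`
      have h5 := congrArg (MvPolynomial.aeval (R := k) (S₁ := k[X][X])
        ![(C X : k[X][X]), (X : k[X][X])]) h4
      rw [map_sub, map_mul, ← aeval_algHom_apply, ← aeval_algHom_apply, MvPolynomial.aeval_X,
        MvPolynomial.aeval_X, map_zero] at h5
      simp only [Matrix.cons_val_zero, Matrix.cons_val_one] at h5
      have h6 : ∀ p : k[X], aeval (C X : k[X][X]) p = C p := by
        intro p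
        have h7 := aeval_algHom_apply (CAlgHom : k[X] →ₐ[k] k[X][X]) X p
        rw [aeval_X_left_apply] at h7
        exact h7
      rw [h6, h6] at h5
      have h8 := congrArg (fun p => p.coeff 1) h5
      simp only [coeff_sub, coeff_C_mul, coeff_X_one, mul_one, coeff_zero] at h8
      rw [coeff_C_of_ne_zero one_ne_zero, sub_zero] at h8
      exact hq1 h8
    · have hwA : w' ∈ A := by
        apply hfc w' (h - MvPolynomial.C l) (mul_ne_zero hw'0 (hpr l).ne_zero)
        rw [mul_comm, ← hw2]
        exact A.sub_mem hw (hCA m)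
      have h1 := deg_lt (hpr l) hw'0 hw2
      have h2 := hmin w' hwA (by
        intro a ha
        obtain ⟨q, hq, hqa⟩ := hwl a ha
        refine ⟨q, hq, ?_⟩
        have h3 : Algebra.adjoin k {h, w} ≤ Algebra.adjoin k {h, w'} := by
          rw [Algebra.adjoin_le_iff]
          intro t ht
          rcases ht with rfl | ht
          · exact Algebra.subset_adjoin (Set.mem_insert _ _)
          · rw [Set.mem_singleton_iff] at ht
            rw [ht, hwe]
            refine Subalgebra.add_mem _ (Subalgebra.algebraMap_mem _ m)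
              (Subalgebra.mul_mem _ (Subalgebra.sub_mem _
                (Algebra.subset_adjoin (Set.mem_insert _ _)) (Subalgebra.algebraMap_mem _ l))
                (Algebra.subset_adjoin (Set.mem_insert_of_mem _ rfl)))
        exact h3 hqa)
      omega
  -- division by `h - l` in `k[h, w]`
  have hdiv : ∀ (l : k) (a : (MvPolynomial (Fin 3) k)), (h - algebraMap k (MvPolynomial (Fin 3) k) l) * a ∈ Algebra.adjoin k {h, w} →
      a ∈ Algebra.adjoin k {h, w} := by
    intro l a ha
    have hhm : h ∈ Algebra.adjoin k {h, w} := Algebra.subset_adjoin (Set.mem_insert _ _)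
    have hwm : w ∈ Algebra.adjoin k {h, w} :=
      Algebra.subset_adjoin (Set.mem_insert_of_mem _ rfl)
    have h1 : ∃ G : MvPolynomial (Fin 2) k, MvPolynomial.aeval ![h, w] G =
        (h - algebraMap k (MvPolynomial (Fin 3) k) l) * a := by
      have h2 : Set.range ![h, w] = {h, w} := by
        rw [Matrix.range_cons, Matrix.range_cons, Matrix.range_empty, Set.union_empty]
        rfl
      rw [← h2, Algebra.adjoin_range_eq_range_aeval] at ha
      exact ha
    obtain ⟨G, hG⟩ := h1
    have h3 := dvd_subst h w l G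
    have h4 : (h - algebraMap k (MvPolynomial (Fin 3) k) l) ∣ aeval w (MvPolynomial.aeval ![(C l : k[X]), X] G) := by
      have := dvd_sub (Dvd.intro a hG.symm) h3
      rwa [sub_sub_cancel] at this
    have h5 : MvPolynomial.aeval ![(C l : k[X]), X] G = 0 := by
      by_contra h6
      exact htr l _ h6 h4
    have h7 := dvd_subst (R := Algebra.adjoin k {h, w}) ⟨h, hhm⟩ ⟨w, hwm⟩ l G
    rw [h5, map_zero, sub_zero] at h7
    obtain ⟨t, ht⟩ := h7
    have h8 := congrArg (Algebra.adjoin k {h, w}).val ht
    have h9 : (Algebra.adjoin k {h, w}).val (MvPolynomial.aeval (R := k)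
        ![(⟨h, hhm⟩ : Algebra.adjoin k {h, w}), ⟨w, hwm⟩] G) = MvPolynomial.aeval ![h, w] G := by
      rw [MvPolynomial.comp_aeval_apply]
      congr 2
      ext i
      fin_cases i <;> rfl
    rw [h9, hG, map_mul] at h8
    have h10 : a = (Algebra.adjoin k {h, w}).val t :=
      mul_left_cancel₀ (hpr l).ne_zero h8
    rw [h10]
    exact t.2
  have hdiv2 : ∀ (n : ℕ) (q : k[X]) (a : (MvPolynomial (Fin 3) k)), q.natDegree = n → q ≠ 0 →
      aeval h q * a ∈ Algebra.adjoin k {h, w} → a ∈ Algebra.adjoin k {h, w} := by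
    intro n
    induction n with
    | zero =>
      intro q a hq hq0 hqa
      have h1 : q.coeff 0 ≠ 0 := by
        intro h0
        apply hq0
        rw [eq_C_of_natDegree_eq_zero hq, h0, C_0]
      rw [eq_C_of_natDegree_eq_zero hq, aeval_C, ← Algebra.smul_def] at hqa
      have h2 := Subalgebra.smul_mem _ hqa (q.coeff 0)⁻¹
      rwa [smul_smul, inv_mul_cancel₀ h1, one_smul] at h2
    | succ n ih =>
      intro q a hq hq0 hqa
      obtain ⟨l, hl⟩ := IsAlgClosed.exists_root q (by
        rw [degree_eq_natDegree hq0, hq]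
        exact_mod_cast Nat.succ_ne_zero n)
      obtain ⟨q', rfl⟩ := dvd_iff_isRoot.mpr hl
      have hq'0 : q' ≠ 0 := right_ne_zero_of_mul hq0
      rw [map_mul, map_sub, aeval_X, aeval_C, mul_assoc] at hqa
      refine ih q' a ?_ hq'0 (hdiv l _ hqa)
      rw [natDegree_mul (X_sub_C_ne_zero l) hq'0, natDegree_X_sub_C] at hq
      omega
  refine ⟨w, hw, ?_, ?_⟩
  · apply le_antisymm
    · intro a ha
      obtain ⟨q, hq, hqa⟩ := hwl a ha
      exact hdiv2 _ q a rfl hq hqa
    · rw [Algebra.adjoin_le_iff]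
      intro t ht
      rcases ht with rfl | ht
      · exact hh
      · rw [Set.mem_singleton_iff] at ht
        rw [ht]
        exact hw
  · by_contra hcon
    obtain ⟨l, q, hq, hdvd⟩ := exists_of_dep hcon
    exact htr l q hq hdvd

end Pool.Agent.MIY.Gen2
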