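import Mathlib
import Pool.Agent.MIY.Defs2

/-!
# MIY/KDer: extension of `δ / J` to the field of fractions (6)
-/

set_option autoImplicit false

open Polynomial

namespace Pool.Agent.MIY

namespace KDerAux

variable {k : Type} [Field k] {A : Type} [CommRing A] [IsDomain A] [Algebra k A] {K : Type} [Field K] [Algebra A K]
    [IsFractionRing A K] [Algebra k K] [IsScalarTower k A K]

variable (K) in
omit [IsDomain A] in
theorem inj {a b : A} (h : algebraMap A K a = algebraMap A K b) : a = b :=
  IsFractionRing.injective A K h

variable (K) in
omit [IsDomain A] in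
theorem ne {a : A} (h : a ≠ 0) : algebraMap A K a ≠ 0 := fun h0 => h (inj K (by rw [h0, map_zero]))

/-- extension of a derivation to the field of fractions: the function -/
noncomputable def fn (d : Derivation k A A) (x : K) : K :=
  (algebraMap A K (IsLocalization.sec (nonZeroDivisors A) x).2 *
      algebraMap A K (d (IsLocalization.sec (nonZeroDivisors A) x).1) -
    algebraMap A K (IsLocalization.sec (nonZeroDivisors A) x).1 *
      algebraMap A K (d (IsLocalization.sec (nonZeroDivisors A) x).2)) /
    algebraMap A K (IsLocalization.sec (nonZeroDivisors A) x).2 ^ 2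

omit [Algebra k K] [IsScalarTower k A K] in
theorem fn_div (d : Derivation k A A) (a s : A) (hs : s ≠ 0) :
    fn d (algebraMap A K a / algebraMap A K s) =
      (algebraMap A K s * algebraMap A K (d a) - algebraMap A K a * algebraMap A K (d s)) / algebraMap A K s ^ 2 := by
  unfold fn
  set x : K := algebraMap A K a / algebraMap A K s with hx
  set b := (IsLocalization.sec (nonZeroDivisors A) x).1 with hb
  set t := (IsLocalization.sec (nonZeroDivisors A) x).2 with ht
  have h1 : x * algebraMap A K (t : A) = algebraMap A K b := IsLocalization.sec_spec (nonZeroDivisors A) x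
  have ht0 : (t : A) ≠ 0 := nonZeroDivisors.ne_zero t.2
  have hs' := ne K hs
  have ht' := ne K ht0
  have h2 : a * (t : A) = b * s := by
    apply inj K
    rw [map_mul, map_mul, ← h1, hx]
    field_simp
  have h3 := congrArg d h2
  rw [Derivation.leibniz, Derivation.leibniz] at h3
  simp only [smul_eq_mul] at h3
  have h4 : algebraMap A K a * algebraMap A K (d (t : A)) + algebraMap A K (t : A) * algebraMap A K (d a) =
      algebraMap A K b * algebraMap A K (d s) + algebraMap A K s * algebraMap A K (d b) := by
    have h5 := congrArg (algebraMap A K) h3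
    simpa [map_add, map_mul] using h5
  have h2' : algebraMap A K a * algebraMap A K (t : A) = algebraMap A K b * algebraMap A K s := by
    have h5 := congrArg (algebraMap A K) h2
    simpa [map_mul] using h5
  rw [div_eq_div_iff (pow_ne_zero 2 ht') (pow_ne_zero 2 hs')]
  linear_combination (-(algebraMap A K s * algebraMap A K (t : A))) * h4 +
    (algebraMap A K s * algebraMap A K (d (t : A)) + algebraMap A K (t : A) * algebraMap A K (d s)) * h2'

/-- extension of a derivation to the field of fractions -/
noncomputable def ex (d : Derivation k A A) : Derivation k K K where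
  toFun := fn d
  map_add' := by
    intro x y
    obtain ⟨a, s, hs, rfl⟩ := IsFractionRing.div_surjective (A := A) x
    obtain ⟨b, t, ht, rfl⟩ := IsFractionRing.div_surjective (A := A) y
    have hs0 := nonZeroDivisors.ne_zero hs
    have ht0 := nonZeroDivisors.ne_zero ht
    have hs' := ne K hs0
    have ht' := ne K ht0
    have h1 : algebraMap A K a / algebraMap A K s + algebraMap A K b / algebraMap A K t =
        algebraMap A K (a * t + b * s) / algebraMap A K (s * t) := by
      simp only [map_add, map_mul]
      field_simp
    change fn d (algebraMap A K a / algebraMap A K s + algebraMap A K b / algebraMap A K t) =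
      fn d (algebraMap A K a / algebraMap A K s) + fn d (algebraMap A K b / algebraMap A K t)
    rw [h1, fn_div d _ _ (mul_ne_zero hs0 ht0), fn_div d _ _ hs0, fn_div d _ _ ht0]
    simp only [map_add, map_mul, Derivation.leibniz, smul_eq_mul]
    field_simp
    ring
  map_smul' := by
    intro r x
    obtain ⟨a, s, hs, rfl⟩ := IsFractionRing.div_surjective (A := A) x
    have hs0 := nonZeroDivisors.ne_zero hs
    have h1 : r • (algebraMap A K a / algebraMap A K s) = algebraMap A K (r • a) / algebraMap A K s := by
      rw [Algebra.smul_def r a]
      simp only [map_mul]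
      rw [Algebra.smul_def, IsScalarTower.algebraMap_apply k A K]
      ring
    change fn d (r • (algebraMap A K a / algebraMap A K s)) = r • fn d (algebraMap A K a / algebraMap A K s)
    rw [h1, fn_div d _ _ hs0, fn_div d _ _ hs0, Derivation.map_smul, Algebra.smul_def r a, Algebra.smul_def r (d a)]
    simp only [map_mul]
    rw [Algebra.smul_def, IsScalarTower.algebraMap_apply k A K]
    ring
  map_one_eq_zero' := by
    change fn d 1 = 0
    have h1 : (1 : K) = algebraMap A K 1 / algebraMap A K 1 := by simp
    rw [h1, fn_div d 1 1 one_ne_zero]
    simp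
  leibniz' := by
    intro x y
    obtain ⟨a, s, hs, rfl⟩ := IsFractionRing.div_surjective (A := A) x
    obtain ⟨b, t, ht, rfl⟩ := IsFractionRing.div_surjective (A := A) y
    have hs0 := nonZeroDivisors.ne_zero hs
    have ht0 := nonZeroDivisors.ne_zero ht
    have hs' := ne K hs0
    have ht' := ne K ht0
    have h1 : algebraMap A K a / algebraMap A K s * (algebraMap A K b / algebraMap A K t) =
        algebraMap A K (a * b) / algebraMap A K (s * t) := by
      simp only [map_mul]
      field_simp
    change fn d (algebraMap A K a / algebraMap A K s * (algebraMap A K b / algebraMap A K t)) =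
      (algebraMap A K a / algebraMap A K s) • fn d (algebraMap A K b / algebraMap A K t) +
        (algebraMap A K b / algebraMap A K t) • fn d (algebraMap A K a / algebraMap A K s)
    rw [h1, fn_div d _ _ (mul_ne_zero hs0 ht0), fn_div d _ _ hs0, fn_div d _ _ ht0]
    simp only [map_mul, Derivation.leibniz, smul_eq_mul, map_add]
    field_simp
    ring

theorem ex_al (d : Derivation k A A) (a : A) : (ex d : Derivation k K K) (algebraMap A K a) = algebraMap A K (d a) := by
  have h1 : algebraMap A K a = algebraMap A K a / algebraMap A K 1 := by simp
  change fn d (algebraMap A K a) = _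
  rw [h1, fn_div d a 1 one_ne_zero]
  simp

end KDerAux

/-- KDer -/
theorem exists_dK {k : Type} [Field k] {A : Type} [CommRing A] [IsDomain A] [Algebra k A] (K : Type) [Field K] [Algebra A K]
    [IsFractionRing A K] [Algebra k K] [IsScalarTower k A K] (δ : Derivation k A A) {J : A}
    (hJ : J ≠ 0) : ∃ d : Derivation k K K,
      ∀ a : A, algebraMap A K J * d (algebraMap A K a) = algebraMap A K (δ a) := by
  refine ⟨(algebraMap A K J)⁻¹ • (KDerAux.ex δ : Derivation k K K), fun a => ?_⟩
  rw [Derivation.smul_apply, KDerAux.ex_al, smul_eq_mul, mul_inv_cancel_left₀ (KDerAux.ne K hJ)]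

end Pool.Agent.MIY
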