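import Mathlib
import Pool.Agent.MIY.AsmA
import Pool.Agent.MIY.KderA

set_option autoImplicit false

/-!
# MIY/MkM2: the model `M2` of `k[x,y,z]` over an arbitrary kernel (assembly)
-/

open Polynomial

namespace Pool.Agent.MIY

open Pool.Agent.LNDHom
open Pool.Agent.LNDF (IsCC Arith A2 B3 mc const_of_dvd)

variable {k : Type} [Field k] [CharZero k] {D : Derivation k (B3 k) (B3 k)}
  {K : Type} [Field K] [Algebra (kerAlg D) K] [IsFractionRing (kerAlg D) K] [Algebra k K]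
  {r : B3 k} {c : kerAlg D} {ι : B3 k →ₐ[k] K[X]}

/-- every polynomial is a derivative in the first variable -/
theorem mk_surj (b : B3 k) : ∃ u : B3 k, MvPolynomial.pderiv 0 u = b := by
  induction b using MvPolynomial.induction_on' with
  | monomial m a =>
    refine ⟨MvPolynomial.monomial (m + Finsupp.single 0 1) (a / ((m 0 : k) + 1)), ?_⟩
    rw [MvPolynomial.pderiv_monomial]
    have h0 : ((m 0 : k) + 1) ≠ 0 := by exact_mod_cast Nat.succ_ne_zero (m 0)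
    congr 1
    · ext i
      simp
    · simp [h0]
  | add p q hp hq =>
    obtain ⟨u, hu⟩ := hp
    obtain ⟨v, hv⟩ := hq
    exact ⟨u + v, by rw [map_add, hu, hv]⟩

omit [IsFractionRing (kerAlg D) K] in
theorem IoG.S_mem (hι : IoG D r c ι) {h : K[X]} : h ∈ hι.S ↔ ∃ b, ι b = h := Iff.rfl

omit [CharZero k] [IsFractionRing (kerAlg D) K] in
theorem IoG.X_mem (hι : IoG D r c ι) : (X : K[X]) ∈ hι.S := ⟨r, hι.r⟩

omit [CharZero k] [IsFractionRing (kerAlg D) K] in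
theorem IoG.D_mem (hι : IoG D r c ι) (h : K[X]) (hh : h ∈ hι.S) :
    C (al c) * derivative h ∈ hι.S := by
  obtain ⟨b, rfl⟩ := hh
  exact ⟨D b, hι.D b⟩

theorem IoG.inter (hι : IoG D r c ι) (hc : c ≠ 0) (x : K) (hx : C x ∈ hι.S) :
    ∃ a : kerAlg D, al a = x := by
  obtain ⟨b, hb⟩ := hx
  have hb' : ι b = C x := hb
  have h1 : (ι b).natDegree ≤ 0 := by rw [hb', natDegree_C]
  have h2 : D b = 0 := (hι.deg_iff hc 0 b).1 h1
  refine ⟨⟨b, (mem_kerAlg D _).2 h2⟩, ?_⟩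
  have h3 := hι.ev ⟨b, (mem_kerAlg D _).2 h2⟩
  have h4 : ι ((⟨b, (mem_kerAlg D _).2 h2⟩ : kerAlg D) : B3 k) = C x := hb
  exact C_injective (h3.symm.trans h4)

/-- THE MODEL -/
theorem mkM2 (hD0 : ∃ x, D x ≠ 0) (hln : ∀ x, ∃ n, (⇑D)^[n] x = 0) (A : Arith D) (hc : c ≠ 0)
    (hr : D r = c) (hι : IoG D r c ι) {x y J : kerAlg D} (hx : x ≠ 0) (hy : y ≠ 0) (hJ : J ≠ 0)
    (hind : AlgebraicIndependent k ![(x : B3 k), (y : B3 k)])
    (halg : ∀ a, D a = 0 → ∃ F : (A2 k)[X], F ≠ 0 ∧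
      F.eval₂ (MvPolynomial.aeval ![(x : B3 k), (y : B3 k)] : A2 k →ₐ[k] B3 k).toRingHom a = 0)
    (hxx : ∀ n ≤ A.N, ∃ z, (⇑D)^[n + 1] z = 0 ∧ (⇑D)^[n] z = A.cc n * x)
    (hyy : ∀ n ≤ A.N, ∃ z, (⇑D)^[n + 1] z = 0 ∧ (⇑D)^[n] z = A.cc n * y)
    (d0 d1 : Derivation k K K) (h00 : d0 (al x) = 1) (h01 : d0 (al y) = 0) (h10 : d1 (al x) = 0)
    (h11 : d1 (al y) = 1)
    (hdiv : C (al (J * c)) * (mc d0 (ι (MvPolynomial.pderiv 0 (x : B3 k))) +
        mc d1 (ι (MvPolynomial.pderiv 0 (y : B3 k))) +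
        derivative (ι (MvPolynomial.pderiv 0 r))) =
      ι (MvPolynomial.pderiv 0 (x : B3 k)) * C (d0 (al (J * c))) +
        ι (MvPolynomial.pderiv 0 (y : B3 k)) * C (d1 (al (J * c)))) :
    ∃ M : M2 k (kerAlg D) K, M.d0 = d0 ∧ M.d1 = d1 ∧ M.S = hι.S ∧ M.c = c ∧ M.J = J ∧
      M.N = A.N ∧ M.cc = ccA A ∧ M.x = x ∧ M.y = y := by
  have hchain : ∀ b, ι (MvPolynomial.pderiv 0 b) =
      ι (MvPolynomial.pderiv 0 (x : B3 k)) * mc d0 (ι b) +
      ι (MvPolynomial.pderiv 0 (y : B3 k)) * mc d1 (ι b) +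
      ι (MvPolynomial.pderiv 0 r) * derivative (ι b) := fun b =>
    chain_gen hln hr hc ι hι.inj hι.r (hι.ev x) (hι.ev y) hind halg d0 d1 h00 h01 h10 h11 0 b
  exact ⟨{
    d0 := d0
    d1 := d1
    S := hι.S
    c := c
    c_ne := hc
    J := J
    J_ne := hJ
    X_mem := hι.X_mem
    D_mem := hι.D_mem
    inter := hι.inter hc
    xi0 := ι (MvPolynomial.pderiv 0 (x : B3 k))
    xi1 := ι (MvPolynomial.pderiv 0 (y : B3 k))
    xiT := ι (MvPolynomial.pderiv 0 r)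
    del_mem := by
      rintro u ⟨b, rfl⟩
      exact ⟨MvPolynomial.pderiv 0 b, hchain b⟩
    del_surj := by
      rintro u ⟨b, rfl⟩
      obtain ⟨v, hv⟩ := mk_surj b
      refine ⟨ι v, ⟨v, rfl⟩, ?_⟩
      have h1 := hchain v
      rw [hv] at h1
      exact h1.symm
    div := hdiv
    N := A.N
    N_pos := A.N_pos
    cc := ccA A
    cc_ne := ccA_ne A
    cc_dvd := fun n _ h hh hd => asmA_dvd hc A hι n h hh hd
    x := x
    y := y
    x_ne := hx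
    y_ne := hy
    cc_x := fun n hn => asmA_x hc A hι x n (hxx n hn)
    cc_y := fun n hn => asmA_x hc A hι y n (hyy n hn)
    cc_mul := fun l hl => asmA_mul hln A l hl
    divQ := fun d hd Q hQ hdeg hlead b hb => asmA_div hD0 hln hc A hι d hd Q hQ hdeg hlead b hb },
    rfl, rfl, rfl, rfl, rfl, rfl, rfl, rfl, rfl⟩

/-- from the model back to `B` -/
theorem mk_back (A : Arith D) (hc : c ≠ 0) (hι : IoG D r c ι) {M : M2 k (kerAlg D) K}
    (hS : M.S = hι.S) (hMc : M.c = c) (hN : M.N = A.N) (hcc : M.cc = ccA A)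
    (h : ∃ h ∈ M.S, h.natDegree ≤ M.N ∧
      (M.N.factorial : K) * al M.c ^ M.N * h.coeff M.N = al (M.cc M.N)) :
    ∃ G : B3 k, (⇑D)^[A.N + 1] G = 0 ∧ (⇑D)^[A.N] G = A.cc A.N := by
  obtain ⟨h, hh, hd, hlead⟩ := h
  rw [hS] at hh
  rw [hN] at hd hlead
  rw [hMc, hcc] at hlead
  obtain ⟨G, rfl⟩ := hh
  refine ⟨G, (hι.deg_iff hc A.N G).1 hd, ?_⟩
  apply hι.inj
  have h1 := hι.top A.N G hd
  have h2 : ι (A.cc A.N) = C (al (ccA A A.N)) := hι.ev (ccA A A.N)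
  rw [h1, h2]
  exact congrArg C hlead

end Pool.Agent.MIY
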