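import Pool.Agent.MIY.Defs

set_option autoImplicit false

/-! MIY: `Hat.trace_nd` and `Hat.exists_mul`. Matrices over a field of characteristic zero: the span of
commuting semisimple matrices is reduced, and the trace form is nondegenerate on it. -/

namespace Pool.Agent.MIY.M47

open Polynomial Matrix

section SS

variable {L : Type} [Field L] {n : Type} [Fintype n] [DecidableEq n]

/-- a squarefree polynomial kills the matrix -/
def SS (M : Matrix n n L) : Prop := ∃ q : L[X], Squarefree q ∧ aeval M q = 0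

theorem ss_iff (M : Matrix n n L) :
    SS M ↔ Module.End.IsSemisimple (Matrix.toLinAlgEquiv' M : Module.End L (n → L)) := by
  constructor
  · rintro ⟨q, hq, h⟩
    refine Module.End.isSemisimple_of_squarefree_aeval_eq_zero hq ?_
    rw [Polynomial.aeval_algEquiv, AlgHom.comp_apply, h, map_zero]
  · intro h
    refine ⟨_, h.minpoly_squarefree, ?_⟩
    have h1 := minpoly.aeval L (Matrix.toLinAlgEquiv' M : Module.End L (n → L))
    rw [Polynomial.aeval_algEquiv, AlgHom.comp_apply] at h1
    exact (map_eq_zero_iff _ (Matrix.toLinAlgEquiv' (R := L) (n := n)).injective).1 h1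

theorem ss_zero : SS (0 : Matrix n n L) := by
  refine ⟨X, ?_, by simp⟩
  exact Polynomial.irreducible_X.squarefree

theorem ss_smul {M : Matrix n n L} (h : SS M) (t : L) : SS (t • M) := by
  rw [ss_iff] at h ⊢
  rw [map_smul]
  exact Module.End.IsSemisimple_smul t h

theorem ss_add [CharZero L] {M N : Matrix n n L} (hM : SS M) (hN : SS N) (h : Commute M N) :
    SS (M + N) := by
  rw [ss_iff] at hM hN ⊢
  rw [map_add]
  exact Module.End.IsSemisimple.add_of_commute (h.map _) hM hN

theorem ss_mul [CharZero L] {M N : Matrix n n L} (hM : SS M) (hN : SS N) (h : Commute M N) :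
    SS (M * N) := by
  rw [ss_iff] at hM hN ⊢
  rw [map_mul]
  exact Module.End.IsSemisimple.mul_of_commute (h.map _) hM hN

theorem ss_nil {M : Matrix n n L} (hM : SS M) (h : IsNilpotent M) : M = 0 := by
  rw [ss_iff] at hM
  have h1 := Module.End.eq_zero_of_isNilpotent_isSemisimple (h.map _) hM
  exact (map_eq_zero_iff _ (Matrix.toLinAlgEquiv' (R := L) (n := n)).injective).1 h1

theorem comm_span {S : Set (Matrix n n L)} (hc : ∀ M ∈ S, ∀ N ∈ S, Commute M N)
    {M N : Matrix n n L} (hM : M ∈ Submodule.span L S) (hN : N ∈ Submodule.span L S) :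
    Commute M N := by
  induction hM using Submodule.span_induction with
  | mem x hx =>
    induction hN using Submodule.span_induction with
    | mem y hy => exact hc x hx y hy
    | zero => exact Commute.zero_right _
    | add y z _ _ hy hz => exact hy.add_right hz
    | smul t y _ hy => exact hy.smul_right t
  | zero => exact Commute.zero_left _
  | add y z _ _ hy hz => exact hy.add_left hz
  | smul t y _ hy => exact hy.smul_left t

theorem ss_span [CharZero L] {S : Set (Matrix n n L)} (hc : ∀ M ∈ S, ∀ N ∈ S, Commute M N)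
    (hs : ∀ M ∈ S, SS M) {M : Matrix n n L} (hM : M ∈ Submodule.span L S) : SS M := by
  induction hM using Submodule.span_induction with
  | mem x hx => exact hs x hx
  | zero => exact ss_zero
  | add y z h1 h2 hy hz => exact ss_add hy hz (comm_span hc h1 h2)
  | smul t y _ hy => exact ss_smul hy t

/-- an idempotent `M g(M)` with `M g(M) M = M` -/
theorem ss_idem {M : Matrix n n L} (hM : SS M) :
    ∃ g : L[X], M * aeval M g * M = M ∧ IsIdempotentElem (M * aeval M g) := by
  obtain ⟨q, hq, h⟩ := hM
  suffices H : ∃ g : L[X], M * aeval M g * M = M by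
    obtain ⟨g, hg⟩ := H
    refine ⟨g, hg, ?_⟩
    unfold IsIdempotentElem
    rw [← mul_assoc, hg]
  have hcomm : ∀ g : L[X], M * aeval M g = aeval M (X * g) := fun g => by
    rw [map_mul, aeval_X]
  by_cases h0 : q.coeff 0 = 0
  · obtain ⟨q1, rfl⟩ := X_dvd_iff.2 h0
    have h1 : q1.coeff 0 ≠ 0 := by
      intro h1
      obtain ⟨q2, rfl⟩ := X_dvd_iff.2 h1
      have := hq X ⟨q2, by ring⟩
      exact Polynomial.not_isUnit_X this
    refine ⟨C (-(q1.coeff 0)⁻¹) * q1.divX, ?_⟩
    have h2 : X * (C (-(q1.coeff 0)⁻¹) * q1.divX) * X - X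
        = C (-(q1.coeff 0)⁻¹) * (X * q1) := by
      have h3 := divX_mul_X_add q1
      have h4 : C (-(q1.coeff 0)⁻¹) * C (q1.coeff 0) = -1 := by
        rw [← C_mul, neg_mul, inv_mul_cancel₀ h1]
        simp
      calc X * (C (-(q1.coeff 0)⁻¹) * q1.divX) * X - X
          = C (-(q1.coeff 0)⁻¹) * (X * (q1.divX * X)) - X := by ring
        _ = C (-(q1.coeff 0)⁻¹) * (X * (q1 - C (q1.coeff 0))) - X := by
          rw [eq_sub_of_add_eq h3]
        _ = C (-(q1.coeff 0)⁻¹) * (X * q1) - (C (-(q1.coeff 0)⁻¹) * C (q1.coeff 0)) * X - X := by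
          ring
        _ = _ := by rw [h4]; ring
    have h5 := congrArg (aeval M) h2
    rw [map_sub, map_mul, map_mul, map_mul (aeval M) (C _) (X * q1), h, mul_zero, aeval_X,
      sub_eq_zero] at h5
    exact h5
  · refine ⟨C (-(q.coeff 0)⁻¹) * q.divX, ?_⟩
    have h3 := divX_mul_X_add q
    have h4 : C (-(q.coeff 0)⁻¹) * C (q.coeff 0) = -1 := by
      rw [← C_mul, neg_mul, inv_mul_cancel₀ h0]
      simp
    have h2 : X * (C (-(q.coeff 0)⁻¹) * q.divX) * X - X = C (-(q.coeff 0)⁻¹) * X * q := by
      calc X * (C (-(q.coeff 0)⁻¹) * q.divX) * X - X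
          = C (-(q.coeff 0)⁻¹) * (X * (q.divX * X)) - X := by ring
        _ = C (-(q.coeff 0)⁻¹) * (X * (q - C (q.coeff 0))) - X := by
          rw [eq_sub_of_add_eq h3]
        _ = C (-(q.coeff 0)⁻¹) * X * q - (C (-(q.coeff 0)⁻¹) * C (q.coeff 0)) * X - X := by
          ring
        _ = _ := by rw [h4]; ring
    have h5 := congrArg (aeval M) h2
    rw [map_sub, map_mul, map_mul, map_mul (aeval M) (C _ * X) q, h, mul_zero, aeval_X,
      sub_eq_zero] at h5
    exact h5

theorem idem_trace [CharZero L] {e : Matrix n n L} (he : IsIdempotentElem e) (h : e.trace = 0) :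
    e = 0 := by
  have h1 : IsIdempotentElem (Matrix.toLin' e) := by
    unfold IsIdempotentElem
    rw [Module.End.mul_eq_comp, ← Matrix.toLin'_mul, he.eq]
  have h2 := LinearMap.IsIdempotentElem.trace_eq_zero_iff h1
  rw [Matrix.trace_toLin'_eq] at h2
  have h3 := h2.1 h
  exact (map_eq_zero_iff _ (Matrix.toLin' (R := L) (n := n) (m := n)).injective).1 h3

/-- the trace form has no kernel -/
theorem trace_nondeg [CharZero L] {AA : Subalgebra L (Matrix n n L)} {M : Matrix n n L}
    (hM : M ∈ AA) (hs : SS M) (h : ∀ N ∈ AA, (M * N).trace = 0) : M = 0 := by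
  obtain ⟨g, hg, hi⟩ := ss_idem hs
  have h1 : aeval M g ∈ AA := by
    have : aeval M g = ((aeval (⟨M, hM⟩ : AA) g : AA) : Matrix n n L) := by
      rw [Polynomial.aeval_subalgebra_coe]
    rw [this]
    exact Subtype.coe_prop _
  have h2 := idem_trace hi (h _ h1)
  rw [← hg, h2, zero_mul]

end SS

section Dom

variable {P A L : Type} [CommRing P] [IsDomain P] [CharZero P] [CommRing A] [IsDomain A]
  [Algebra P A] [Field L] [Algebra P L]

/-- a nonzero algebraic element of a domain is killed by a polynomial, squarefree over every field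
over `P`, with nonzero constant term -/
theorem exists_poly (hPA : Function.Injective (algebraMap P A))
    (hPL : Function.Injective (algebraMap P L)) {a : A} (ha : a ≠ 0) (hal : IsAlgebraic P a) :
    ∃ F : P[X], aeval a F = 0 ∧ F.coeff 0 ≠ 0 ∧ Squarefree (F.map (algebraMap P L)) := by
  classical
  let K0 := FractionRing P
  let KA := FractionRing A
  have hK : Function.Injective (algebraMap P KA) := by
    rw [IsScalarTower.algebraMap_eq P A KA]
    exact (IsFractionRing.injective A KA).comp hPA
  let _ : FaithfulSMul P KA := (faithfulSMul_iff_algebraMap_injective P KA).2 hK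
  let _ : Algebra K0 KA := FractionRing.liftAlgebra P KA
  have : IsScalarTower P K0 KA := FractionRing.isScalarTower_liftAlgebra P KA
  have : CharZero K0 := charZero_of_injective_algebraMap (IsFractionRing.injective P K0)
  let b : KA := algebraMap A KA a
  have hb : b ≠ 0 := by
    intro h
    exact ha ((map_eq_zero_iff _ (IsFractionRing.injective A KA)).1 h)
  have hbal : IsAlgebraic P b := hal.algebraMap
  have hint : IsIntegral K0 b := by
    have : IsAlgebraic K0 b := hbal.extendScalars (IsFractionRing.injective P K0)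
    exact this.isIntegral
  set m := minpoly K0 b with hm
  have hirr : Irreducible m := minpoly.irreducible hint
  have hsep : m.Separable := hirr.separable
  obtain ⟨d, hdM, hd⟩ := IsLocalization.integerNormalization_spec (nonZeroDivisors P) m
  set F := IsLocalization.integerNormalization (nonZeroDivisors P) m with hF
  have hd0 : algebraMap P K0 d ≠ 0 := by
    intro h
    exact nonZeroDivisors.ne_zero hdM ((map_eq_zero_iff _ (IsFractionRing.injective P K0)).1 h)
  refine ⟨F, ?_, ?_, ?_⟩
  · have h1 : aeval b F = 0 := by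
      rw [← aeval_map_algebraMap K0 b F, hd, ← algebraMap_smul K0 d m, map_smul, minpoly.aeval,
        smul_zero]
    rw [show b = algebraMap A KA a from rfl, aeval_algebraMap_apply] at h1
    exact (map_eq_zero_iff _ (IsFractionRing.injective A KA)).1 h1
  · intro h0
    have h1 := congrArg (fun p : K0[X] => p.coeff 0) hd
    simp only [coeff_map, h0, map_zero, coeff_smul] at h1
    rw [Algebra.smul_def] at h1
    rcases mul_eq_zero.1 h1.symm with h2 | h2
    · exact hd0 h2
    · exact minpoly.coeff_zero_ne_zero hint hb h2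
  · have h1 : F.map (algebraMap P L)
        = C (IsFractionRing.lift hPL (algebraMap P K0 d)) *
          m.map (IsFractionRing.lift hPL : K0 →+* L) := by
      have h2 : F.map (algebraMap P L)
          = (F.map (algebraMap P K0)).map (IsFractionRing.lift hPL : K0 →+* L) := by
        rw [Polynomial.map_map]
        congr 1
        ext p
        simp
      rw [h2, hd, ← algebraMap_smul K0 d m, smul_eq_C_mul, Polynomial.map_mul, map_C]
    rw [h1]
    have h3 : IsUnit (C (IsFractionRing.lift hPL (algebraMap P K0 d)) : L[X]) := by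
      rw [isUnit_C, isUnit_iff_ne_zero]
      intro h
      exact hd0 ((map_eq_zero _).1 h)
    exact ((associated_unit_mul_left _ _ h3).squarefree_iff).2 hsep.map.squarefree

variable {n : Type} [Fintype n] [DecidableEq n] {φ : A →+* Matrix n n L}

theorem phi_poly (hφ : ∀ p : P, φ (algebraMap P A p) = algebraMap L _ (algebraMap P L p)) (a : A)
    (F : P[X]) : aeval (φ a) (F.map (algebraMap P L)) = φ (aeval a F) := by
  rw [aeval_def, aeval_def, eval₂_map, hom_eval₂]
  congr 1
  ext1 p
  simp [hφ]

/-- the image of a nonzero element is killed by a squarefree polynomial -/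
theorem phi_ss (hPA : Function.Injective (algebraMap P A))
    (hPL : Function.Injective (algebraMap P L)) (hal : Algebra.IsAlgebraic P A)
    (hφ : ∀ p : P, φ (algebraMap P A p) = algebraMap L _ (algebraMap P L p)) (a : A) :
    SS (φ a) := by
  by_cases ha : a = 0
  · rw [ha, map_zero]
    exact ss_zero
  · obtain ⟨F, h1, _, h3⟩ := exists_poly hPA hPL ha (hal.isAlgebraic a)
    exact ⟨_, h3, by rw [phi_poly hφ, h1, map_zero]⟩

/-- the image of a nonzero element is invertible -/
theorem phi_unit (hPA : Function.Injective (algebraMap P A))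
    (hPL : Function.Injective (algebraMap P L)) (hal : Algebra.IsAlgebraic P A)
    (hφ : ∀ p : P, φ (algebraMap P A p) = algebraMap L _ (algebraMap P L p)) {a : A}
    (ha : a ≠ 0) : IsUnit (φ a) := by
  obtain ⟨F, h1, h2, h3⟩ := exists_poly hPA hPL ha (hal.isAlgebraic a)
  have h4 := phi_poly hφ a F
  rw [h1, map_zero] at h4
  set G := F.map (algebraMap P L) with hG
  have hc : G.coeff 0 ≠ 0 := by
    rw [hG, coeff_map]
    intro h
    exact h2 ((map_eq_zero_iff _ hPL).1 h)
  have h5 : φ a * aeval (φ a) G.divX + algebraMap L _ (G.coeff 0) = 0 := by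
    rw [← h4]
    conv_rhs => rw [← divX_mul_X_add G, mul_comm G.divX X]
    rw [map_add, map_mul, aeval_X, aeval_C]
  refine IsUnit.of_mul_eq_one (-(G.coeff 0)⁻¹ • aeval (φ a) G.divX) ?_
  rw [mul_smul_comm, eq_neg_of_add_eq_zero_left h5, smul_neg, neg_smul, neg_neg,
    Algebra.algebraMap_eq_smul_one, smul_smul, inv_mul_cancel₀ hc, one_smul]

variable (φ) in
/-- the span over `L` of the image -/
noncomputable def spn : Subalgebra L (Matrix n n L) := Algebra.adjoin L (Set.range φ)

variable (φ) in
theorem spn_eq : Subalgebra.toSubmodule (spn φ) = Submodule.span L (Set.range φ) := by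
  unfold spn
  rw [Algebra.adjoin_eq_span]
  congr 1
  have : (Submonoid.closure (Set.range φ)) = MonoidHom.mrange (φ : A →* Matrix n n L) := by
    apply le_antisymm
    · rw [Submonoid.closure_le]
      rintro _ ⟨a, rfl⟩
      exact ⟨a, rfl⟩
    · rintro _ ⟨a, rfl⟩
      exact Submonoid.subset_closure ⟨a, rfl⟩
  rw [this]
  rfl

theorem mem_spn {M : Matrix n n L} : M ∈ spn φ ↔ M ∈ Submodule.span L (Set.range φ) := by
  rw [← spn_eq, Subalgebra.mem_toSubmodule]

theorem phi_mem_spn (a : A) : φ a ∈ spn φ := Algebra.subset_adjoin ⟨a, rfl⟩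

theorem spn_comm {M N : Matrix n n L} (hM : M ∈ spn φ) (hN : N ∈ spn φ) : Commute M N := by
  rw [mem_spn] at hM hN
  refine comm_span ?_ hM hN
  rintro _ ⟨a, rfl⟩ _ ⟨b, rfl⟩
  exact (Commute.all a b).map φ

theorem spn_ss [CharZero L] (hPA : Function.Injective (algebraMap P A))
    (hPL : Function.Injective (algebraMap P L)) (hal : Algebra.IsAlgebraic P A)
    (hφ : ∀ p : P, φ (algebraMap P A p) = algebraMap L _ (algebraMap P L p))
    {M : Matrix n n L} (hM : M ∈ spn φ) : SS M := by
  rw [mem_spn] at hM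
  refine ss_span ?_ ?_ hM
  · rintro _ ⟨a, rfl⟩ _ ⟨b, rfl⟩
    exact (Commute.all a b).map φ
  · rintro _ ⟨a, rfl⟩
    exact phi_ss hPA hPL hal hφ a

/-- the trace form is nondegenerate on the span -/
theorem spn_nondeg [CharZero L] (hPA : Function.Injective (algebraMap P A))
    (hPL : Function.Injective (algebraMap P L)) (hal : Algebra.IsAlgebraic P A)
    (hφ : ∀ p : P, φ (algebraMap P A p) = algebraMap L _ (algebraMap P L p))
    {M : Matrix n n L} (hM : M ∈ spn φ) (h : ∀ a : A, (M * φ a).trace = 0) : M = 0 := by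
  refine trace_nondeg hM (spn_ss hPA hPL hal hφ hM) ?_
  intro N hN
  rw [mem_spn] at hN
  induction hN using Submodule.span_induction with
  | mem x hx =>
    obtain ⟨a, rfl⟩ := hx
    exact h a
  | zero => simp
  | add x y _ _ hx hy => rw [mul_add, Matrix.trace_add, hx, hy, add_zero]
  | smul t x _ hx => rw [mul_smul_comm, Matrix.trace_smul, hx, smul_zero]

/-- no nonzero nilpotent elements in the span -/
theorem spn_reduced [CharZero L] (hPA : Function.Injective (algebraMap P A))
    (hPL : Function.Injective (algebraMap P L)) (hal : Algebra.IsAlgebraic P A)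
    (hφ : ∀ p : P, φ (algebraMap P A p) = algebraMap L _ (algebraMap P L p))
    {M : Matrix n n L} (hM : M ∈ spn φ) (h : IsNilpotent M) : M = 0 :=
  ss_nil (spn_ss hPA hPL hal hφ hM) h

end Dom

end Pool.Agent.MIY.M47

namespace Pool.Agent.MIY

open Pool.Agent.LNDF
open Pool.Agent.LNDF.RhoAux (io io_C io_X0 io_X1 io_injective)

section Hat

variable {k A : Type} [Field k] [CommRing A] [IsDomain A] [Algebra k A] {X Y J : A}
  {δ0 δ1 : Derivation k A A} {l : ℕ} {e : Fin l → A} {Ah : Type} [CommRing Ah] [Algebra (P2 k) Ah]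
  {b : Module.Basis (Fin l) (P2 k) Ah} {i : A →+* Ah}

/-- polynomials in `X`, `Y` -/
theorem Hat.i_aeval (h : Hat k X Y e Ah b i) (p : A2 k) :
    i (MvPolynomial.aeval ![X, Y] p) = algebraMap (P2 k) Ah (io k p) := by
  induction p using MvPolynomial.induction_on with
  | C r =>
    rw [MvPolynomial.aeval_C, h.iC, io_C]
    rfl
  | add p q hp hq => rw [map_add, map_add, hp, hq, map_add, map_add]
  | mul_X p j hp =>
    rw [map_mul, map_mul, hp, map_mul, map_mul, MvPolynomial.aeval_X]
    congr 1
    fin_cases j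
    · show i X = _
      rw [h.iX]
      exact congrArg _ io_X0.symm
    · show i Y = _
      rw [h.iY]
      exact congrArg _ io_X1.symm

variable [CharZero k]

theorem M47.alg_poly (hE : Env2 k X Y J δ0 δ1) {L : Type} [Field L] (f : A2 k →+* L)
    (hf : Function.Injective f) {a : A} (ha : a ≠ 0) :
    ∃ F : Polynomial (A2 k), F.eval₂ (MvPolynomial.aeval ![X, Y] : A2 k →ₐ[k] A).toRingHom a = 0 ∧
      F.coeff 0 ≠ 0 ∧ Squarefree (F.map f) := by
  let _ : Algebra (A2 k) A := (MvPolynomial.aeval ![X, Y] : A2 k →ₐ[k] A).toRingHom.toAlgebra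
  let _ : Algebra (A2 k) L := f.toAlgebra
  have h1 : Function.Injective (algebraMap (A2 k) A) := hE.ind
  have hal : IsAlgebraic (A2 k) a := hE.alg a
  exact M47.exists_poly (P := A2 k) (L := L) h1 hf ha hal

/-- Mat2 -/
theorem Hat.exists_mul' (hE : Env2 k X Y J δ0 δ1) (h : Hat k X Y e Ah b i) {a : A} (ha : a ≠ 0) :
    ∃ (a' : Ah) (n : P2 k), n ≠ 0 ∧ i a * a' = algebraMap (P2 k) Ah n := by
  obtain ⟨F, h1, h2, _⟩ := M47.alg_poly hE ((algebraMap (P2 k) (FractionRing (P2 k))).comp (io k))
    ((IsFractionRing.injective (P2 k) (FractionRing (P2 k))).comp io_injective) ha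
  refine ⟨-i (F.divX.eval₂ (MvPolynomial.aeval ![X, Y] : A2 k →ₐ[k] A).toRingHom a),
    io k (F.coeff 0), fun h0 => h2 ((map_eq_zero_iff _ io_injective).1 h0), ?_⟩
  rw [← h.i_aeval, mul_neg, ← map_mul]
  have h3 : a * F.divX.eval₂ (MvPolynomial.aeval ![X, Y] : A2 k →ₐ[k] A).toRingHom a
      + MvPolynomial.aeval ![X, Y] (F.coeff 0) = 0 := by
    rw [← h1]
    conv_rhs => rw [← Polynomial.divX_mul_X_add F]
    rw [Polynomial.eval₂_add, Polynomial.eval₂_mul, Polynomial.eval₂_X, Polynomial.eval₂_C, mul_comm]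
    rfl
  rw [eq_neg_of_add_eq_zero_left h3, map_neg, neg_neg]

/-- Mat2: the trace form of the completion is nondegenerate -/
theorem Hat.trace_nd (hE : Env2 k X Y J δ0 δ1) (h : Hat k X Y e Ah b i) (a : Ah)
    (ha : ∀ c, Algebra.trace (P2 k) Ah (a * c) = 0) : a = 0 := by
  classical
  let L := FractionRing (P2 k)
  have hL : Function.Injective (algebraMap (P2 k) L) := IsFractionRing.injective (P2 k) L
  let f : A2 k →+* L := (algebraMap (P2 k) L).comp (io k)
  have hf : Function.Injective f := hL.comp io_injective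
  let _ : Algebra (A2 k) A := (MvPolynomial.aeval ![X, Y] : A2 k →ₐ[k] A).toRingHom.toAlgebra
  let _ : Algebra (A2 k) L := f.toAlgebra
  have : CharZero L := charZero_of_injective_ringHom hf
  let ψ : Ah →+* Matrix (Fin l) (Fin l) L :=
    ((algebraMap (P2 k) L).mapMatrix).comp (Algebra.leftMulMatrix b).toRingHom
  have hψ : ∀ z, ψ z = (Algebra.leftMulMatrix b z).map (algebraMap (P2 k) L) := fun z => rfl
  have hψr : ∀ r : P2 k, ψ (algebraMap (P2 k) Ah r) = algebraMap L _ (algebraMap (P2 k) L r) := by
    intro r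
    have h1 : Algebra.leftMulMatrix b (algebraMap (P2 k) Ah r) = algebraMap (P2 k) _ r :=
      AlgHom.commutes _ r
    rw [hψ, h1, Matrix.algebraMap_eq_diagonal, Matrix.algebraMap_eq_diagonal, Matrix.diagonal_map]
    · rfl
    · exact map_zero _
  let φ : A →+* Matrix (Fin l) (Fin l) L := ψ.comp i
  have hφ : ∀ p : A2 k, φ (algebraMap (A2 k) A p) = algebraMap L _ (algebraMap (A2 k) L p) := by
    intro p
    have h1 : i (algebraMap (A2 k) A p) = algebraMap (P2 k) Ah (io k p) := h.i_aeval p
    show ψ (i _) = _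
    rw [h1, hψr]
    rfl
  have htr : ∀ z, (ψ z).trace = algebraMap (P2 k) L (Algebra.trace (P2 k) Ah z) := by
    intro z
    rw [Algebra.trace_eq_matrix_trace b, hψ, Matrix.trace, Matrix.trace, map_sum]
    rfl
  have hal : Algebra.IsAlgebraic (A2 k) A := ⟨fun a => hE.alg a⟩
  have hmem : ∀ z, ψ z ∈ M47.spn φ := by
    intro z
    rw [← b.sum_repr z, map_sum]
    refine Subalgebra.sum_mem _ fun j _ => ?_
    rw [Algebra.smul_def, map_mul, hψr, ← h.be j]
    exact Subalgebra.mul_mem _ (Subalgebra.algebraMap_mem _ _) (M47.phi_mem_spn (φ := φ) (e j))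
  have h0 : ψ a = 0 := by
    refine M47.spn_nondeg (P := A2 k) (φ := φ) hE.ind hf hal hφ (hmem a) ?_
    intro a'
    show (ψ a * ψ (i a')).trace = 0
    rw [← map_mul, htr, ha, map_zero]
  have h1 : Algebra.leftMulMatrix b a = 0 := by
    rw [hψ] at h0
    refine Matrix.ext fun x y => ?_
    have := congrFun (congrFun h0 x) y
    exact (map_eq_zero_iff _ hL).1 this
  exact (map_eq_zero_iff _ (Algebra.leftMulMatrix_injective b)).1 h1

end Hat

end Pool.Agent.MIY
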