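import Pool.Agent.MIY.Defs

/-!
Miyanishi's theorem, part 1: nonzero elements of `A` divide nonzero series in the completion.
-/

set_option autoImplicit false

namespace Pool.Agent.MIY

open Pool.Agent.LNDF Pool.Agent.LNDF.RhoAux

variable {k A : Type} [Field k] [CommRing A] [Algebra k A] {X Y J : A}
  {δ0 δ1 : Derivation k A A} {l : ℕ} {e : Fin l → A} {Ah : Type} [CommRing Ah] [Algebra (P2 k) Ah]
  {b : Module.Basis (Fin l) (P2 k) Ah} {i : A →+* Ah}

/-- polynomials in `X` and `Y` in the completion -/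
theorem Mat2a_io (h : Hat k X Y e Ah b i) (F : A2 k) :
    i ((MvPolynomial.aeval ![X, Y] : A2 k →ₐ[k] A) F) = algebraMap (P2 k) Ah (io k F) := by
  have h1 : i.comp (MvPolynomial.aeval ![X, Y] : A2 k →ₐ[k] A).toRingHom =
      (algebraMap (P2 k) Ah).comp (io k) := by
    refine MvPolynomial.ringHom_ext (fun r => ?_) (fun j => ?_)
    · show i ((MvPolynomial.aeval ![X, Y] : A2 k →ₐ[k] A) (MvPolynomial.C r)) =
        algebraMap (P2 k) Ah (io k (MvPolynomial.C r))
      rw [MvPolynomial.aeval_C, h.iC, io_C]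
      rfl
    · show i ((MvPolynomial.aeval ![X, Y] : A2 k →ₐ[k] A) (MvPolynomial.X j)) =
        algebraMap (P2 k) Ah (io k (MvPolynomial.X j))
      rw [MvPolynomial.aeval_X]
      fin_cases j
      · show i X = algebraMap (P2 k) Ah (io k (MvPolynomial.X 0))
        rw [h.iX, io_X0]
        rfl
      · show i Y = algebraMap (P2 k) Ah (io k (MvPolynomial.X 1))
        rw [h.iY, io_X1]
        rfl
  exact RingHom.congr_fun h1 F

/-- an algebraic relation with nonzero constant term -/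
theorem Mat2a_rel [IsDomain A] {R : Type} [CommRing R] [IsDomain R] (f : R →+* A) {a : A}
    (ha : a ≠ 0) {F : Polynomial R} (hF : F ≠ 0) (h0 : F.eval₂ f a = 0) :
    ∃ (c : R) (g : A), c ≠ 0 ∧ a * g = f c := by
  obtain ⟨G, hG1, hG2⟩ := Polynomial.exists_eq_pow_rootMultiplicity_mul_and_not_dvd F hF 0
  rw [Polynomial.C_0, sub_zero] at hG1 hG2
  have h1 : G.eval₂ f a = 0 := by
    rw [hG1, Polynomial.eval₂_mul, Polynomial.eval₂_pow, Polynomial.eval₂_X] at h0
    exact (mul_eq_zero.1 h0).resolve_left (pow_ne_zero _ ha)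
  have h2 : G.coeff 0 ≠ 0 := fun hc => hG2 (Polynomial.X_dvd_iff.2 hc)
  refine ⟨G.coeff 0, -(G.divX.eval₂ f a), h2, ?_⟩
  have h3 := congrArg (Polynomial.eval₂ f a) (Polynomial.divX_mul_X_add G)
  rw [h1, Polynomial.eval₂_add, Polynomial.eval₂_mul, Polynomial.eval₂_X, Polynomial.eval₂_C] at h3
  linear_combination -h3

/-- Mat2 -/
theorem Hat.exists_mul [IsDomain A] (hE : Env2 k X Y J δ0 δ1) (h : Hat k X Y e Ah b i) {a : A}
    (ha : a ≠ 0) :
    ∃ (a' : Ah) (n : P2 k), n ≠ 0 ∧ i a * a' = algebraMap (P2 k) Ah n := by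
  obtain ⟨F, hF, h0⟩ := hE.alg a
  obtain ⟨c, g, hc, hg⟩ := Mat2a_rel _ ha hF h0
  refine ⟨i g, io k c, fun hz => hc (io_injective (by rw [hz, map_zero])), ?_⟩
  rw [← map_mul, hg]
  exact Mat2a_io h c

end Pool.Agent.MIY
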