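import Pool.Agent.MIY.Defs

/-!
# MIY/Mat3: the derivations of the completion
-/

set_option autoImplicit false

namespace Pool.Agent.MIY

open Pool.Agent.LNDF

namespace Mat3

section cf

variable {k : Type} [Field k]

theorem ext_cf {u v : P2 k} (h : ∀ i j, cf i j u = cf i j v) : u = v := by
  refine PowerSeries.ext fun j => PowerSeries.ext fun i => ?_
  exact h i j

theorem cf_add (i j : ℕ) (u v : P2 k) : cf i j (u + v) = cf i j u + cf i j v := by
  unfold cf
  rw [map_add, map_add]

theorem cf_zero (i j : ℕ) : cf i j (0 : P2 k) = 0 := by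
  unfold cf
  rw [map_zero, map_zero]

theorem cf_pC (i j : ℕ) (r : k) : cf i j (pC r) = if i = 0 ∧ j = 0 then r else 0 := by
  unfold cf pC
  rw [PowerSeries.coeff_C]
  split_ifs with h1 h2 h3
  · rw [PowerSeries.coeff_C, if_pos h2.1]
  · rw [PowerSeries.coeff_C, if_neg fun h => h2 ⟨h, h1⟩]
  · exact absurd h3.2 h1
  · rw [map_zero]

theorem cf_one (i j : ℕ) : cf i j (1 : P2 k) = if i = 0 ∧ j = 0 then 1 else 0 := by
  have h : (1 : P2 k) = pC 1 := by
    unfold pC
    rw [map_one, map_one]
  rw [h, cf_pC]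

theorem cf_pC_mul (i j : ℕ) (r : k) (u : P2 k) : cf i j (pC r * u) = r * cf i j u := by
  unfold cf pC
  rw [PowerSeries.coeff_C_mul, PowerSeries.coeff_C_mul]

theorem cf_pX_mul (i j : ℕ) (u : P2 k) :
    cf i j (pX * u) = if i = 0 then 0 else cf (i - 1) j u := by
  unfold cf pX
  rw [PowerSeries.coeff_C_mul]
  cases i with
  | zero => simp
  | succ i => simp [PowerSeries.coeff_succ_X_mul]

theorem cf_pY_mul (i j : ℕ) (u : P2 k) :
    cf i j (pY * u) = if j = 0 then 0 else cf i (j - 1) u := by
  unfold cf pY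
  cases j with
  | zero => simp
  | succ j => simp [PowerSeries.coeff_succ_X_mul]

theorem cf_pX (i j : ℕ) : cf i j (pX : P2 k) = if i = 1 ∧ j = 0 then 1 else 0 := by
  have h := cf_pX_mul i j (1 : P2 k)
  rw [mul_one, cf_one] at h
  rw [h]
  split_ifs <;> first | rfl | omega

theorem cf_pY (i j : ℕ) : cf i j (pY : P2 k) = if i = 0 ∧ j = 1 then 1 else 0 := by
  have h := cf_pY_mul i j (1 : P2 k)
  rw [mul_one, cf_one] at h
  rw [h]
  split_ifs <;> first | rfl | omega

variable {D0 D1 : Derivation k (P2 k) (P2 k)}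

theorem D0_pX (hD : IsDP k D0 D1) : D0 pX = 1 := by
  refine ext_cf fun i j => ?_
  rw [hD.c0, cf_pX, cf_one]
  by_cases h : i = 0 ∧ j = 0
  · rw [if_pos ⟨by omega, h.2⟩, if_pos h, h.1]
    simp
  · rw [if_neg (fun h' => h ⟨by omega, h'.2⟩), if_neg h, mul_zero]

theorem D0_pY (hD : IsDP k D0 D1) : D0 pY = 0 := by
  refine ext_cf fun i j => ?_
  rw [hD.c0, cf_pY, cf_zero, if_neg (by omega), mul_zero]

theorem D1_pX (hD : IsDP k D0 D1) : D1 pX = 0 := by
  refine ext_cf fun i j => ?_
  rw [hD.c1, cf_pX, cf_zero, if_neg (by omega), mul_zero]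

theorem D1_pY (hD : IsDP k D0 D1) : D1 pY = 1 := by
  refine ext_cf fun i j => ?_
  rw [hD.c1, cf_pY, cf_one]
  by_cases h : i = 0 ∧ j = 0
  · rw [if_pos ⟨h.1, by omega⟩, if_pos h, h.2]
    simp
  · rw [if_neg (fun h' => h ⟨h'.1, by omega⟩), if_neg h, mul_zero]

end cf

section ext

variable {k A : Type} [Field k] [CommRing A] [Algebra k A] {X Y : A}
  {l : ℕ} {e : Fin l → A} {Ah : Type} [CommRing Ah] [Algebra (P2 k) Ah]
  {b : Module.Basis (Fin l) (P2 k) Ah} {i : A →+* Ah}

/-- additive maps which commute with `X`, `Y` and vanish on the basis vanish -/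
theorem univ0 (h : Hat k X Y e Ah b i) (Δ : A →+ Ah)
    (hC : ∀ r : k, ∀ a, Δ (algebraMap k A r * a) = algebraMap (P2 k) Ah (pC r) * Δ a)
    (hX : ∀ a, Δ (X * a) = algebraMap (P2 k) Ah pX * Δ a)
    (hY : ∀ a, Δ (Y * a) = algebraMap (P2 k) Ah pY * Δ a) (he : ∀ j, Δ (e j) = 0) (a : A) :
    Δ a = 0 := by
  -- every element is a combination of the basis modulo `X`, `Y`
  have hgen : ∀ a : A, ∃ (r : Fin l → k) (u v : A),
      a = ∑ j, algebraMap k A (r j) * e j + X * u + Y * v := by
    intro a
    have h1 : ∀ j, Van 1 (b.repr (i (a - ∑ t, algebraMap k A (cf 0 0 (b.repr (i a) t)) * e t))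
        j) := by
      intro j p q hp hq
      have hp0 : p = 0 := by omega
      have hq0 : q = 0 := by omega
      subst hp0 hq0
      have h2 : i (a - ∑ t, algebraMap k A (cf 0 0 (b.repr (i a) t)) * e t) =
          i a - ∑ t, pC (cf 0 0 (b.repr (i a) t)) • b t := by
        rw [map_sub, map_sum]
        refine congrArg _ (Finset.sum_congr rfl fun t _ => ?_)
        rw [map_mul, h.be, h.iC, Algebra.smul_def]
      rw [h2, map_sub, map_sum, Finsupp.sub_apply, Finsupp.finsetSum_apply,
        Finset.sum_eq_single j]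
      · rw [map_smul, Module.Basis.repr_self, Finsupp.smul_apply, Finsupp.single_eq_same,
          smul_eq_mul, mul_one]
        have h3 : cf 0 0 (b.repr (i a) j - pC (cf 0 0 (b.repr (i a) j))) +
            cf 0 0 (pC (cf 0 0 (b.repr (i a) j))) = cf 0 0 (b.repr (i a) j) := by
          rw [← cf_add, sub_add_cancel]
        rw [cf_pC, if_pos ⟨rfl, rfl⟩] at h3
        exact add_eq_right.1 h3
      · intro t _ ht
        rw [map_smul, Module.Basis.repr_self, Finsupp.smul_apply, Finsupp.single_eq_of_ne,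
          smul_zero]
        exact fun h' => ht h'.symm
      · intro h'
        exact absurd (Finset.mem_univ j) h'
    obtain ⟨u, v, huv⟩ := h.sat 1 _ h1
    rw [pow_one, pow_one] at huv
    exact ⟨_, u, v, by rw [add_assoc, ← huv]; ring⟩
  have key : ∀ (n : ℕ) (a : A) (t : Fin l) (p q : ℕ), p + q < n →
      cf p q (b.repr (Δ a) t) = 0 := by
    intro n
    induction n with
    | zero => intro a t p q hpq; omega
    | succ n ih =>
      intro a t p q hpq
      obtain ⟨r, u, v, rfl⟩ := hgen a
      have h1 : Δ (∑ j, algebraMap k A (r j) * e j + X * u + Y * v) =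
          (pX : P2 k) • Δ u + (pY : P2 k) • Δ v := by
        rw [map_add, map_add, map_sum, hX, hY, Finset.sum_eq_zero, zero_add, Algebra.smul_def,
          Algebra.smul_def]
        intro j _
        rw [hC, he, mul_zero]
      rw [h1, map_add, map_smul, map_smul, Finsupp.add_apply, Finsupp.smul_apply,
        Finsupp.smul_apply, smul_eq_mul, smul_eq_mul, cf_add, cf_pX_mul, cf_pY_mul]
      have h2 : (if p = 0 then 0 else cf (p - 1) q (b.repr (Δ u) t)) = 0 := by
        split_ifs with hp
        · rfl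
        · exact ih u t _ _ (by omega)
      have h3 : (if q = 0 then 0 else cf p (q - 1) (b.repr (Δ v) t)) = 0 := by
        split_ifs with hq
        · rfl
        · exact ih v t _ _ (by omega)
      rw [h2, h3, add_zero]
  apply b.repr.injective
  rw [map_zero]
  refine Finsupp.ext fun t => ext_cf (k := k) fun p q => ?_
  rw [key (p + q + 1) a t p q (Nat.lt_succ_self _), Finsupp.zero_apply, cf_zero]

/-- the extension of a derivation to the completion -/
theorem exists_one (h : Hat k X Y e Ah b i) {J : A} (D : Derivation k (P2 k) (P2 k))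
    (δ : Derivation k A A) (hX : i (δ X) = algebraMap (P2 k) Ah (D pX) * i J)
    (hY : i (δ Y) = algebraMap (P2 k) Ah (D pY) * i J) :
    ∃ E : Derivation ℤ Ah Ah, (∀ a, E (i a) = i (δ a)) ∧
      ∀ u, E (algebraMap (P2 k) Ah u) = algebraMap (P2 k) Ah (D u) * i J := by
  classical
  obtain ⟨E, hE⟩ : ∃ E : Ah →+ Ah, ∀ z, E z = ∑ j, (algebraMap (P2 k) Ah (D (b.repr z j)) * i J *
      b j + algebraMap (P2 k) Ah (b.repr z j) * i (δ (e j))) := by
    refine ⟨{ toFun := fun z => ∑ j, (algebraMap (P2 k) Ah (D (b.repr z j)) * i J *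
      b j + algebraMap (P2 k) Ah (b.repr z j) * i (δ (e j))), map_zero' := ?_, map_add' := ?_ },
      fun z => rfl⟩
    · refine Finset.sum_eq_zero fun j _ => ?_
      rw [map_zero, Finsupp.zero_apply, map_zero, map_zero]
      ring
    · intro z z'
      rw [← Finset.sum_add_distrib]
      refine Finset.sum_congr rfl fun j _ => ?_
      rw [map_add, Finsupp.add_apply, map_add, map_add, map_add]
      ring
  -- semilinearity
  have hsemi : ∀ (u : P2 k) (z : Ah), E (algebraMap (P2 k) Ah u * z) =
      algebraMap (P2 k) Ah (D u) * i J * z + algebraMap (P2 k) Ah u * E z := by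
    intro u z
    have h1 : z = ∑ j, algebraMap (P2 k) Ah (b.repr z j) * b j := by
      conv_lhs => rw [← b.sum_repr z]
      exact Finset.sum_congr rfl fun j _ => Algebra.smul_def _ _
    rw [hE, hE]
    conv_rhs => rw [h1]
    rw [Finset.mul_sum, Finset.mul_sum, ← Finset.sum_add_distrib]
    refine Finset.sum_congr rfl fun j _ => ?_
    have h2 : b.repr (algebraMap (P2 k) Ah u * z) j = u * b.repr z j := by
      rw [← Algebra.smul_def, map_smul, Finsupp.smul_apply, smul_eq_mul]
    have h3 : b.repr (∑ j, algebraMap (P2 k) Ah (b.repr z j) * b j) = b.repr z := by rw [← h1]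
    rw [h2, h3, Derivation.leibniz, map_add, smul_eq_mul, smul_eq_mul, map_mul, map_mul, map_mul]
    ring
  -- on the basis
  have hb : ∀ j, E (b j) = i (δ (e j)) := by
    intro j
    rw [hE, Finset.sum_eq_single j]
    · rw [Module.Basis.repr_self, Finsupp.single_eq_same, Derivation.map_one_eq_zero, map_zero,
        map_one]
      ring
    · intro t _ ht
      rw [Module.Basis.repr_self, Finsupp.single_eq_of_ne (fun h' => ht h'), map_zero, map_zero]
      ring
    · intro h'
      exact absurd (Finset.mem_univ j) h'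
  -- on `A`
  have hDC : ∀ r : k, D (pC r) = 0 := by
    intro r
    have h1 : (pC r : P2 k) = algebraMap k (P2 k) r := by
      unfold pC
      rw [PowerSeries.algebraMap_apply, PowerSeries.algebraMap_apply, Algebra.algebraMap_self_apply]
    rw [h1, Derivation.map_algebraMap]
  have hA : ∀ a, E (i a) = i (δ a) := by
    intro a
    have h1 := univ0 h (E.comp i.toAddMonoidHom - i.toAddMonoidHom.comp
      (δ : A →ₗ[k] A).toAddMonoidHom) ?_ ?_ ?_ ?_ a
    · exact sub_eq_zero.1 h1
    · intro r a
      change E (i (algebraMap k A r * a)) - i (δ (algebraMap k A r * a)) =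
        _ * (E (i a) - i (δ a))
      rw [map_mul, h.iC, hsemi, hDC, Derivation.leibniz, Derivation.map_algebraMap, smul_zero,
        add_zero, smul_eq_mul, map_mul, h.iC, map_zero]
      ring
    · intro a
      change E (i (X * a)) - i (δ (X * a)) = _ * (E (i a) - i (δ a))
      rw [map_mul, h.iX, hsemi, Derivation.leibniz, smul_eq_mul, smul_eq_mul, map_add, map_mul,
        map_mul, h.iX, hX]
      ring
    · intro a
      change E (i (Y * a)) - i (δ (Y * a)) = _ * (E (i a) - i (δ a))
      rw [map_mul, h.iY, hsemi, Derivation.leibniz, smul_eq_mul, smul_eq_mul, map_add, map_mul,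
        map_mul, h.iY, hY]
      ring
    · intro j
      change E (i (e j)) - i (δ (e j)) = 0
      rw [h.be, hb, sub_self]
  -- Leibniz rule
  have hspan : ∀ (P : Ah → Prop), P 0 → (∀ z z', P z → P z' → P (z + z')) →
      (∀ u z, P z → P (algebraMap (P2 k) Ah u * z)) → (∀ j, P (b j)) → ∀ z, P z := by
    intro P h0 h1 h2 h3 z
    rw [← b.sum_repr z]
    refine Finset.sum_induction _ P h1 h0 fun j _ => ?_
    rw [Algebra.smul_def]
    exact h2 _ _ (h3 j)
  have hL : ∀ z z', E (z * z') = z * E z' + z' * E z := by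
    intro z z'
    revert z'
    refine hspan (fun z => ∀ z', E (z * z') = z * E z' + z' * E z) ?_ ?_ ?_ ?_ z
    · intro z'
      rw [zero_mul, map_zero]
      ring
    · intro z1 z2 h1 h2 z'
      rw [add_mul, map_add, h1, h2, map_add]
      ring
    · intro u z1 h1 z'
      rw [mul_assoc, hsemi, h1, hsemi]
      ring
    · intro j
      refine hspan (fun z' => E (b j * z') = b j * E z' + z' * E (b j)) ?_ ?_ ?_ ?_
      · change E (b j * 0) = b j * E 0 + 0 * E (b j)
        rw [mul_zero, map_zero]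
        ring
      · intro z1 z2 h1 h2
        change E (b j * (z1 + z2)) = b j * E (z1 + z2) + (z1 + z2) * E (b j)
        rw [mul_add, map_add, h1, h2, map_add]
        ring
      · intro u z1 h1
        change E (b j * (_ * z1)) = b j * E (_ * z1) + _ * z1 * E (b j)
        rw [mul_left_comm, hsemi, h1, hsemi]
        ring
      · intro t
        change E (b j * b t) = b j * E (b t) + b t * E (b j)
        rw [← h.be, ← h.be, ← map_mul, hA, hA, hA, Derivation.leibniz, smul_eq_mul, smul_eq_mul,
          map_add, map_mul, map_mul]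
  refine ⟨Derivation.mk' E.toIntLinearMap fun z z' => ?_, hA, fun u => ?_⟩
  · change E (z * z') = z • E z' + z' • E z
    rw [smul_eq_mul, smul_eq_mul]
    exact hL z z'
  · change E (algebraMap (P2 k) Ah u) = _
    have h1 := hsemi u 1
    have h2 := hL 1 1
    rw [mul_one, one_mul, left_eq_add] at h2
    rw [mul_one, mul_one, h2, mul_zero, add_zero] at h1
    exact h1

end ext

end Mat3

section

variable {k A : Type} [Field k] [CommRing A] [IsDomain A] [Algebra k A] {X Y J : A}
  {δ0 δ1 : Derivation k A A} {l : ℕ} {e : Fin l → A} {Ah : Type} [CommRing Ah] [Algebra (P2 k) Ah]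
  {b : Module.Basis (Fin l) (P2 k) Ah} {i : A →+* Ah}

/-- Mat3 -/
theorem exists_hatDer (h : Hat k X Y e Ah b i) {D0 D1 : Derivation k (P2 k) (P2 k)}
    (hD : IsDP k D0 D1) (h0X : δ0 X = J) (h0Y : δ0 Y = 0) (h1X : δ1 X = 0) (h1Y : δ1 Y = J) :
    ∃ E0 E1 : Derivation ℤ Ah Ah, HatDer k i J δ0 δ1 D0 D1 E0 E1 := by
  obtain ⟨E0, h1, h2⟩ := Mat3.exists_one h (J := J) D0 δ0
    (by rw [h0X, Mat3.D0_pX hD, map_one, one_mul])
    (by rw [h0Y, Mat3.D0_pY hD, map_zero, map_zero, zero_mul])
  obtain ⟨E1, h3, h4⟩ := Mat3.exists_one h (J := J) D1 δ1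
    (by rw [h1X, Mat3.D1_pX hD, map_zero, map_zero, zero_mul])
    (by rw [h1Y, Mat3.D1_pY hD, map_one, one_mul])
  exact ⟨E0, E1, h1, h3, h2, h4⟩

end

end Pool.Agent.MIY
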