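import Mathlib
import Pool.Agent.MIY.Defs

/-!
The partial derivatives of `P2 k`.
-/

set_option autoImplicit false

namespace Pool.Agent.MIY

open Pool.Agent.LNDF

/-- the derivation of the coefficients -/
noncomputable def pDer0 (k : Type) [Field k] : Derivation k (P2 k) (P2 k) where
  toFun u := PowerSeries.mk fun j => PowerSeries.derivative k (PowerSeries.coeff j u)
  map_add' u v := by
    refine PowerSeries.ext fun j => ?_
    rw [PowerSeries.coeff_mk, map_add, map_add, map_add, PowerSeries.coeff_mk, PowerSeries.coeff_mk]
  map_smul' r u := by
    refine PowerSeries.ext fun j => ?_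
    rw [PowerSeries.coeff_mk]
    refine PowerSeries.ext fun i => ?_
    simp [PowerSeries.coeff_derivative]
  map_one_eq_zero' := by
    refine PowerSeries.ext fun j => ?_
    change PowerSeries.coeff j (PowerSeries.mk fun j => PowerSeries.derivative k
      (PowerSeries.coeff j (1 : P2 k))) = _
    rw [PowerSeries.coeff_mk, PowerSeries.coeff_one]
    split_ifs <;> simp
  leibniz' u v := by
    refine PowerSeries.ext fun j => ?_
    change PowerSeries.coeff j (PowerSeries.mk fun j => PowerSeries.derivative k
      (PowerSeries.coeff j (u * v))) = PowerSeries.coeff j (u * (PowerSeries.mk fun j =>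
        PowerSeries.derivative k (PowerSeries.coeff j v)) + v * (PowerSeries.mk fun j =>
        PowerSeries.derivative k (PowerSeries.coeff j u)))
    rw [mul_comm v, PowerSeries.coeff_mk, map_add, PowerSeries.coeff_mul, PowerSeries.coeff_mul,
      PowerSeries.coeff_mul, map_sum, ← Finset.sum_add_distrib]
    refine Finset.sum_congr rfl fun p _ => ?_
    rw [PowerSeries.coeff_mk, PowerSeries.coeff_mk, Derivation.leibniz, smul_eq_mul, smul_eq_mul,
      mul_comm (PowerSeries.coeff p.2 v)]

section General

variable {R : Type} [CommRing R]

/-- the derivative of power series over a general ring -/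
noncomputable def pD (u : PowerSeries R) : PowerSeries R := PowerSeries.derivative R u

theorem pD_add (u v : PowerSeries R) : pD (u + v) = pD u + pD v := map_add _ u v

theorem pD_one : pD (1 : PowerSeries R) = 0 := (PowerSeries.derivative R).map_one_eq_zero

theorem pD_mul (u v : PowerSeries R) : pD (u * v) = u * pD v + v * pD u :=
  (PowerSeries.derivative R).leibniz u v

theorem coeff_pD (u : PowerSeries R) (j : ℕ) :
    PowerSeries.coeff j (pD u) = PowerSeries.coeff (j + 1) u * ((j : R) + 1) :=
  PowerSeries.coeff_derivative u j

end General

/-- the derivation by the outer variable -/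
noncomputable def pDer1 (k : Type) [Field k] : Derivation k (P2 k) (P2 k) where
  toFun u := pD u
  map_add' u v := pD_add u v
  map_smul' r u := by
    refine PowerSeries.ext fun j => ?_
    refine PowerSeries.ext fun i => ?_
    simp [coeff_pD]
  map_one_eq_zero' := pD_one
  leibniz' u v := pD_mul u v

/-- PDer -/
theorem exists_isDP (k : Type) [Field k] : ∃ D0 D1 : Derivation k (P2 k) (P2 k), IsDP k D0 D1 := by
  refine ⟨pDer0 k, pDer1 k, ?_, ?_⟩
  · intro i j u
    change PowerSeries.coeff i (PowerSeries.coeff j (PowerSeries.mk fun j =>
      PowerSeries.derivative k (PowerSeries.coeff j u))) = _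
    rw [PowerSeries.coeff_mk, PowerSeries.coeff_derivative, mul_comm]
    rfl
  · intro i j u
    change PowerSeries.coeff i (PowerSeries.coeff j (pD u)) = _
    rw [coeff_pD]
    have h : ((j : PowerSeries k) + 1) = PowerSeries.C ((j : k) + 1) := by
      rw [map_add, map_natCast, map_one]
    rw [h, PowerSeries.coeff_mul_C, mul_comm]
    rfl

end Pool.Agent.MIY
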