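import Mathlib

/-!
Trace and derivations: if `E` extends `D` to an algebra with a finite basis, the trace commutes with
the derivations (doc H/821812_MIY_37, section 3).
-/

set_option autoImplicit false

namespace Pool.Agent.MIY

/-- coordinates of `E y` -/
theorem repr_der {R S : Type} [CommRing R] [CommRing S] [Algebra R S] {l : ℕ}
    (b : Module.Basis (Fin l) R S) (D : Derivation ℤ R R) (E : Derivation ℤ S S)
    (hE : ∀ r, E (algebraMap R S r) = algebraMap R S (D r)) (y : S) (i : Fin l) :
    b.repr (E y) i = D (b.repr y i) + ∑ j, b.repr y j * b.repr (E (b j)) i := by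
  have h1 : E y = ∑ j, (D (b.repr y j) • b j + b.repr y j • E (b j)) := by
    conv_lhs => rw [← b.sum_repr y]
    rw [map_sum]
    refine Finset.sum_congr rfl fun j _ => ?_
    rw [Algebra.smul_def, Derivation.leibniz, hE, smul_eq_mul, smul_eq_mul, Algebra.smul_def,
      Algebra.smul_def]
    ring
  rw [h1, Finset.sum_add_distrib, map_add, Finsupp.add_apply, map_sum, map_sum,
    Finsupp.finsetSum_apply, Finsupp.finsetSum_apply]
  congr 1
  · rw [Finset.sum_eq_single i]
    · rw [map_smul, Finsupp.smul_apply, b.repr_self, Finsupp.single_eq_same, smul_eq_mul, mul_one]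
    · intro j _ hj
      rw [map_smul, Finsupp.smul_apply, b.repr_self, Finsupp.single_apply, if_neg hj, smul_zero]
    · intro h
      exact absurd (Finset.mem_univ i) h
  · refine Finset.sum_congr rfl fun j _ => ?_
    rw [map_smul, Finsupp.smul_apply, smul_eq_mul]

/-- the trace as a sum of coordinates -/
theorem trace_eq_sum {R S : Type} [CommRing R] [CommRing S] [Algebra R S] {l : ℕ}
    (b : Module.Basis (Fin l) R S) (z : S) :
    Algebra.trace R S z = ∑ i, b.repr (z * b i) i := by
  rw [Algebra.trace_eq_matrix_trace b, Matrix.trace]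
  refine Finset.sum_congr rfl fun i _ => ?_
  rw [Matrix.diag_apply, Algebra.leftMulMatrix_eq_repr_mul]

/-- TrDer -/
theorem trace_der {R S : Type} [CommRing R] [CommRing S] [Algebra R S] {l : ℕ}
    (b : Module.Basis (Fin l) R S) (D : Derivation ℤ R R) (E : Derivation ℤ S S)
    (hE : ∀ r, E (algebraMap R S r) = algebraMap R S (D r)) (z : S) :
    Algebra.trace R S (E z) = D (Algebra.trace R S z) := by
  rw [trace_eq_sum b, trace_eq_sum b, map_sum]
  have h1 : ∀ i, b.repr (E z * b i) i = D (b.repr (z * b i) i) +
      (∑ j, b.repr (z * b i) j * b.repr (E (b j)) i -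
        ∑ j, b.repr (E (b i)) j * b.repr (z * b j) i) := by
    intro i
    have h2 := repr_der b D E hE (z * b i) i
    have h3 : E (z * b i) = E z * b i + z * E (b i) := by
      rw [Derivation.leibniz, smul_eq_mul, smul_eq_mul]
      ring
    have h4 : b.repr (z * E (b i)) i = ∑ j, b.repr (E (b i)) j * b.repr (z * b j) i := by
      conv_lhs => rw [← b.sum_repr (E (b i))]
      rw [Finset.mul_sum, map_sum, Finsupp.finsetSum_apply]
      refine Finset.sum_congr rfl fun j _ => ?_
      rw [mul_smul_comm, map_smul, Finsupp.smul_apply, smul_eq_mul]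
    rw [h3, map_add, Finsupp.add_apply, h4] at h2
    rw [← add_sub_assoc, ← h2]
    ring
  rw [Finset.sum_congr rfl fun i _ => h1 i, Finset.sum_add_distrib, Finset.sum_sub_distrib,
    Finset.sum_comm]
  have h5 : ∀ i j : Fin l, b.repr (z * b i) j * b.repr (E (b j)) i =
      b.repr (E (b j)) i * b.repr (z * b i) j := fun i j => mul_comm _ _
  simp only [h5, sub_self, add_zero]

end Pool.Agent.MIY
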