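import Mathlib
import Pool.Agent.MIY.Defs
import Pool.Agent.MIY.Del1
import Pool.Agent.MIY.TrDer
import Pool.Agent.MIY.PDer
import Pool.Agent.MIY.Mat3

/-!
# Perfectness (section 4 of H/821812_MIY_37), free of localization
-/

set_option autoImplicit false
set_option linter.unusedSectionVars false

namespace Pool.Agent.MIY

open Pool.Agent.LNDF

namespace PerC

section Series

variable {k : Type} [Field k]

theorem pX_ne : (pX : P2 k) ≠ 0 := by
  intro h
  have h1 := congrArg (cf 1 0) h
  simp [cf, pX] at h1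

/-- `X ^ s u` and `Y ^ t u` divisible by `n` implies `u` divisible by `n` -/
theorem dvd_of_both {n u : P2 k} (hn : n ≠ 0) {s t : ℕ} (h1 : n ∣ pX ^ s * u)
    (h2 : n ∣ pY ^ t * u) : n ∣ u := by
  obtain ⟨c1, h1⟩ := h1
  obtain ⟨c2, h2⟩ := h2
  have h3 : pY ^ t * c1 = pX ^ s * c2 := by
    apply mul_left_cancel₀ hn
    rw [mul_left_comm, ← h1, mul_left_comm n, ← h2]
    ring
  have h4 : c1 = pX ^ s * PowerSeries.mk fun j => PowerSeries.coeff (j + t) c2 := by
    ext1 j
    have h5 := congrArg (PowerSeries.coeff (j + t)) h3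
    rw [pX, ← map_pow, PowerSeries.coeff_C_mul] at h5 ⊢
    rw [pY, PowerSeries.coeff_X_pow_mul] at h5
    rw [h5, PowerSeries.coeff_mk]
  refine ⟨PowerSeries.mk fun j => PowerSeries.coeff (j + t) c2,
    mul_left_cancel₀ (pow_ne_zero s pX_ne) ?_⟩
  rw [h1, h4]
  ring

end Series

section Basis

variable {R S : Type} [CommRing R] [IsDomain R] [CommRing S] [Algebra R S] {l : ℕ}
  (b : Module.Basis (Fin l) R S)

include b in
theorem cancel {n : R} (hn : n ≠ 0) {a c : S} (h : algebraMap R S n * a = algebraMap R S n * c) :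
    a = c := by
  apply b.ext_elem
  intro j
  apply mul_left_cancel₀ hn
  have h1 := congrArg (fun z => b.repr z j) h
  simpa [← Algebra.smul_def] using h1

theorem repr_mul (n : R) (c : S) (j : Fin l) :
    b.repr (algebraMap R S n * c) j = n * b.repr c j := by
  rw [← Algebra.smul_def]
  simp

theorem exists_of_dvd {n : R} {z : S} (h : ∀ j, n ∣ b.repr z j) :
    ∃ c, z = algebraMap R S n * c := by
  choose q hq using h
  refine ⟨∑ j, q j • b j, ?_⟩
  apply b.ext_elem
  intro j
  rw [repr_mul, hq j]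
  congr 1
  rw [map_sum]
  simp [Finsupp.single_apply]

theorem tr_mul (n : R) (z : S) :
    Algebra.trace R S (algebraMap R S n * z) = n * Algebra.trace R S z := by
  rw [← Algebra.smul_def, map_smul, smul_eq_mul]

include b in
/-- the Gram determinant is a denominator of the dual lattice -/
theorem gram (hnd : ∀ a : S, (∀ c, Algebra.trace R S (a * c) = 0) → a = 0) :
    ∃ d : R, d ≠ 0 ∧ ∀ (z : S) (m : R), (∀ c, m ∣ Algebra.trace R S (z * c)) →
      ∃ w, algebraMap R S d * z = algebraMap R S m * w := by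
  classical
  let G : Matrix (Fin l) (Fin l) R := Matrix.of fun r s => Algebra.trace R S (b r * b s)
  have hG : ∀ (z : S) (s : Fin l), G.mulVec (fun r => b.repr z r) s =
      Algebra.trace R S (z * b s) := by
    intro z s
    have h1 : z * b s = ∑ r, b.repr z r • (b r * b s) := by
      conv_lhs => rw [← b.sum_repr z]
      rw [Finset.sum_mul]
      exact Finset.sum_congr rfl fun r _ => smul_mul_assoc _ _ _
    rw [h1, map_sum]
    show ∑ r, G s r * b.repr z r = _
    refine Finset.sum_congr rfl fun r _ => ?_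
    rw [map_smul, smul_eq_mul, mul_comm, show G s r = Algebra.trace R S (b s * b r) from rfl,
      mul_comm (b s)]
  refine ⟨G.det, ?_, ?_⟩
  · intro h0
    obtain ⟨v, hv0, hv⟩ := Matrix.exists_mulVec_eq_zero_iff.2 h0
    apply hv0
    have h1 : (∑ r, v r • b r) = 0 := by
      apply hnd
      intro c
      have h2 : (fun r => b.repr (∑ r, v r • b r) r) = v := by
        ext r
        rw [map_sum]
        simp [Finsupp.single_apply]
      have h3 : ∀ s, Algebra.trace R S ((∑ r, v r • b r) * b s) = 0 := by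
        intro s
        rw [← hG, h2, hv]
        rfl
      rw [← b.sum_repr c, Finset.mul_sum, map_sum]
      refine Finset.sum_eq_zero fun s _ => ?_
      rw [mul_smul_comm, map_smul, h3, smul_zero]
    ext r
    have h4 := congrArg (fun z => b.repr z r) h1
    rw [map_sum] at h4
    simpa [Finsupp.single_apply] using h4
  · intro z m hz
    apply exists_of_dvd b
    intro r
    rw [repr_mul]
    have h1 : (G.adjugate.mulVec (G.mulVec fun r => b.repr z r)) r = G.det * b.repr z r := by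
      rw [Matrix.mulVec_mulVec, Matrix.adjugate_mul, Matrix.smul_mulVec, Matrix.one_mulVec]
      rfl
    rw [← h1]
    show m ∣ ∑ s, G.adjugate r s * G.mulVec (fun r => b.repr z r) s
    refine Finset.dvd_sum fun s _ => ?_
    rw [hG]
    exact (hz (b s)).mul_left _

end Basis

section Core

variable {R S : Type} [CommRing R] [IsDomain R] [CommRing S] [Algebra R S] {l : ℕ}
  (b : Module.Basis (Fin l) R S) {j j' : S} {N : R} (hN : N ≠ 0)
  (hj : j * j' = algebraMap R S N) {D : Derivation ℤ R R} {E : Derivation ℤ S S}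
  (hE : ∀ u, E (algebraMap R S u) = algebraMap R S (D u) * j)

include b hj hE in
theorem tr_E (z : S) : Algebra.trace R S (j' * E z) = N * D (Algebra.trace R S z) := by
  have h := trace_der b (N • D) (j' • E) (by
    intro r
    rw [Derivation.smul_apply, Derivation.smul_apply, hE, smul_eq_mul, smul_eq_mul, map_mul, ← hj]
    ring) z
  rw [Derivation.smul_apply, Derivation.smul_apply, smul_eq_mul, smul_eq_mul] at h
  exact h

/-- the first ideal -/
def cc (R : Type) {S : Type} [CommRing R] [CommRing S] [Algebra R S] (j' : S) (N : R) :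
    Ideal S where
  carrier := {α | ∀ c, N ∣ Algebra.trace R S (α * j' * c)}
  zero_mem' := by
    intro c
    rw [zero_mul, zero_mul, map_zero]
    exact dvd_zero _
  add_mem' := by
    intro a a' ha ha' c
    rw [add_mul, add_mul, map_add]
    exact dvd_add (ha c) (ha' c)
  smul_mem' := by
    intro r a ha c
    rw [smul_eq_mul, show r * a * j' * c = a * j' * (r * c) by ring]
    exact ha _

theorem mem_cc {j' α : S} {N : R} :
    α ∈ cc R j' N ↔ ∀ c, N ∣ Algebra.trace R S (α * j' * c) := Iff.rfl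

include b hj hE in
theorem stab_cc {α : S} (hα : α ∈ cc R j' N) : E α ∈ cc R j' N := by
  rw [mem_cc] at hα ⊢
  intro c
  have h1 : E α * j' * c = j' * E (α * c) - α * j' * E c := by
    rw [Derivation.leibniz, smul_eq_mul, smul_eq_mul]
    ring
  rw [h1, map_sub, tr_E b hj hE]
  exact dvd_sub (dvd_mul_right _ _) (hα _)

theorem N_mem_cc (j' : S) (N : R) : algebraMap R S N ∈ cc R j' N := by
  rw [mem_cc]
  intro c
  rw [mul_assoc, tr_mul]
  exact dvd_mul_right _ _

/-- the second ideal -/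
def cd (R : Type) {S : Type} [CommRing R] [CommRing S] [Algebra R S] (j : S) : Ideal S where
  carrier := {α | ∀ (z : S) (m : R), m ≠ 0 → (∀ c, m ∣ Algebra.trace R S (z * c)) →
    ∃ w, α * j * z = algebraMap R S m * w}
  zero_mem' := by
    intro z m _ _
    exact ⟨0, by rw [zero_mul, zero_mul, mul_zero]⟩
  add_mem' := by
    intro a a' ha ha' z m hm hz
    obtain ⟨w, hw⟩ := ha z m hm hz
    obtain ⟨w', hw'⟩ := ha' z m hm hz
    exact ⟨w + w', by rw [add_mul, add_mul, hw, hw', mul_add]⟩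
  smul_mem' := by
    intro r a ha z m hm hz
    obtain ⟨w, hw⟩ := ha z m hm hz
    refine ⟨r * w, ?_⟩
    rw [smul_eq_mul, mul_assoc, mul_assoc, ← mul_assoc a, hw]
    ring

theorem mem_cd {j α : S} : α ∈ cd R j ↔ ∀ (z : S) (m : R), m ≠ 0 →
    (∀ c, m ∣ Algebra.trace R S (z * c)) → ∃ w, α * j * z = algebraMap R S m * w := Iff.rfl

include b hj hE in
/-- `d (J z)` is in the dual lattice -/
theorem dual_d {z : S} {m : R} (hz : ∀ c, m ∣ Algebra.trace R S (z * c)) (c : S) :
    N * m ^ 2 ∣ Algebra.trace R S (j' * (algebraMap R S m * E (j * z) -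
      j ^ 2 * z * algebraMap R S (D m)) * c) := by
  obtain ⟨t, ht⟩ := hz (j * c)
  obtain ⟨t', ht'⟩ := hz (E c)
  have h1 : j' * (algebraMap R S m * E (j * z) - j ^ 2 * z * algebraMap R S (D m)) * c =
      algebraMap R S m * (j' * E (j * z * c)) - algebraMap R S m * (algebraMap R S N * (z * E c)) -
        algebraMap R S (D m) * (algebraMap R S N * (z * (j * c))) := by
    rw [Derivation.leibniz E (j * z) c, smul_eq_mul, smul_eq_mul, ← hj]
    ring
  have h2 : Algebra.trace R S (j * z * c) = m * t := by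
    rw [show j * z * c = z * (j * c) by ring, ht]
  refine ⟨D t - t', ?_⟩
  rw [h1, map_sub, map_sub, tr_mul, tr_mul, tr_mul, tr_mul, tr_mul, tr_E b hj hE, h2, ht, ht',
    Derivation.leibniz, smul_eq_mul, smul_eq_mul]
  ring

include b hN hj hE in
theorem stab_cd {α : S} (hα : α ∈ cd R j) : E α ∈ cd R j := by
  rw [mem_cd] at hα ⊢
  intro z m hm hz
  obtain ⟨w0, hw0⟩ := hα z m hm hz
  obtain ⟨w2, hw2⟩ := hα _ (N * m ^ 2) (mul_ne_zero hN (pow_ne_zero 2 hm))
    (dual_d b hj hE hz)
  have h2 : α * (algebraMap R S m * E (j * z) - j ^ 2 * z * algebraMap R S (D m)) =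
      algebraMap R S m ^ 2 * w2 := by
    apply cancel b hN
    rw [map_mul (algebraMap R S) N, map_pow (algebraMap R S) m] at hw2
    rw [← mul_assoc, ← mul_assoc, ← hw2, ← hj]
    ring
  have h3 : E (α * (j * z)) = E (algebraMap R S m * w0) := by
    rw [← mul_assoc, hw0]
  rw [Derivation.leibniz, Derivation.leibniz E (algebraMap R S m), hE] at h3
  simp only [smul_eq_mul] at h3
  refine ⟨E w0 - w2, ?_⟩
  apply cancel b hm
  linear_combination (algebraMap R S m) * h3 - h2 - j * algebraMap R S (D m) * hw0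

end Core

/-- the underlying derivation over the integers -/
noncomputable def toZ {k R : Type} [CommRing k] [CommRing R] [Algebra k R] (D : Derivation k R R) :
    Derivation ℤ R R :=
  Derivation.mk' D.toLinearMap.toAddMonoidHom.toIntLinearMap fun a c => D.leibniz a c

end PerC

section Final

variable {k A : Type} [Field k] [CommRing A] [IsDomain A] [Algebra k A] {X Y J : A}
  {δ0 δ1 : Derivation k A A}
variable {l : ℕ} {e : Fin l → A} {Ah : Type} [CommRing Ah] [Algebra (P2 k) Ah]
  {b : Module.Basis (Fin l) (P2 k) Ah} {i : A →+* Ah}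

/-- Per1 -/
theorem per1 [CharZero k] [IsAlgClosed k] [UniqueFactorizationMonoid A]
    (hE : Env2 k X Y J δ0 δ1) (h : Hat k X Y e Ah b i) (a a' : Ah) (n : P2 k) (hn : n ≠ 0)
    (ha : i J * a' = algebraMap (P2 k) Ah n) : n ∣ Algebra.trace (P2 k) Ah (a * a') := by
  obtain ⟨D0, D1, hD⟩ := exists_isDP k
  obtain ⟨E0, E1, hh⟩ := exists_hatDer (J := J) (δ0 := δ0) (δ1 := δ1) h hD hE.d0X hE.d0Y hE.d1X
    hE.d1Y
  obtain ⟨⟨s, hs⟩, t, ht⟩ := stab_pow hE h hD hh (PerC.cc (P2 k) a' n)
    (fun α hα => PerC.stab_cc b ha (D := PerC.toZ D0) hh.u0 hα)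
    (fun α hα => PerC.stab_cc b ha (D := PerC.toZ D1) hh.u1 hα)
    ⟨n, hn, PerC.N_mem_cc a' n⟩
  have h1 := PerC.mem_cc.1 hs a
  have h2 := PerC.mem_cc.1 ht a
  rw [← map_pow, mul_assoc, PerC.tr_mul, mul_comm a' a] at h1 h2
  exact PerC.dvd_of_both hn h1 h2

/-- Per2, with the two facts of Mat2 as hypotheses -/
theorem per2_core [CharZero k] [IsAlgClosed k] [UniqueFactorizationMonoid A]
    (hE : Env2 k X Y J δ0 δ1) (h : Hat k X Y e Ah b i)
    (hmul : ∃ (a' : Ah) (n : P2 k), n ≠ 0 ∧ i J * a' = algebraMap (P2 k) Ah n)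
    (hnd : ∀ a : Ah, (∀ c, Algebra.trace (P2 k) Ah (a * c) = 0) → a = 0)
    (a : Ah) (n : P2 k) (hn : n ≠ 0)
    (ha : ∀ c, n ∣ Algebra.trace (P2 k) Ah (a * c)) :
    ∃ c, a * i J = algebraMap (P2 k) Ah n * c := by
  obtain ⟨D0, D1, hD⟩ := exists_isDP k
  obtain ⟨E0, E1, hh⟩ := exists_hatDer (J := J) (δ0 := δ0) (δ1 := δ1) h hD hE.d0X hE.d0Y hE.d1X
    hE.d1Y
  obtain ⟨j', N, hN, hj⟩ := hmul
  obtain ⟨d, hd, hdT⟩ := PerC.gram b hnd
  obtain ⟨⟨s, hs⟩, t, ht⟩ := stab_pow hE h hD hh (PerC.cd (P2 k) (i J))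
    (fun α hα => PerC.stab_cd b hN hj (D := PerC.toZ D0) hh.u0 hα)
    (fun α hα => PerC.stab_cd b hN hj (D := PerC.toZ D1) hh.u1 hα)
    ⟨d, hd, by
      rw [PerC.mem_cd]
      intro z m _ hz
      obtain ⟨w, hw⟩ := hdT z m hz
      refine ⟨i J * w, ?_⟩
      rw [mul_right_comm, hw]
      ring⟩
  obtain ⟨w1, h1⟩ := PerC.mem_cd.1 hs a n hn ha
  obtain ⟨w2, h2⟩ := PerC.mem_cd.1 ht a n hn ha
  apply PerC.exists_of_dvd b
  intro r
  apply PerC.dvd_of_both hn (s := s) (t := t)
  · refine ⟨b.repr w1 r, ?_⟩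
    rw [← PerC.repr_mul, ← PerC.repr_mul, ← h1, map_pow]
    congr 2
    ring
  · refine ⟨b.repr w2 r, ?_⟩
    rw [← PerC.repr_mul, ← PerC.repr_mul, ← h2, map_pow]
    congr 2
    ring

end Final

end Pool.Agent.MIY
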