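import Mathlib
import Pool.Agent.MIY.Per1
import Pool.Agent.MIY.HatNd
import Pool.Agent.MIY.Mat2a

/-!
# Perfectness, second half (section 4 of H/821812_MIY_37)
-/

set_option autoImplicit false
set_option linter.unusedSectionVars false

namespace Pool.Agent.MIY

open Pool.Agent.LNDF

variable {k A : Type} [Field k] [CommRing A] [IsDomain A] [Algebra k A] {X Y J : A}
  {δ0 δ1 : Derivation k A A}
variable {l : ℕ} {e : Fin l → A} {Ah : Type} [CommRing Ah] [Algebra (P2 k) Ah]
  {b : Module.Basis (Fin l) (P2 k) Ah} {i : A →+* Ah}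

/-- Per2 -/
theorem per2 [CharZero k] [IsAlgClosed k] [UniqueFactorizationMonoid A]
    (hE : Env2 k X Y J δ0 δ1) (h : Hat k X Y e Ah b i) (a : Ah) (n : P2 k) (hn : n ≠ 0)
    (ha : ∀ c, n ∣ Algebra.trace (P2 k) Ah (a * c)) :
    ∃ c, a * i J = algebraMap (P2 k) Ah n * c :=
  per2_core hE h (Hat.exists_mul hE h hE.Jne) (fun a ha => Hat.trace_nd hE h a ha) a n hn ha

end Pool.Agent.MIY
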