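import Mathlib
import Pool.Agent.LNDF.Rho

set_option autoImplicit false

namespace Pool.Agent.MIY.R2

open Pool.Agent.LNDF Pool.Agent.LNDF.RhoAux

variable {k : Type} [Field k]

/-- the two variables in `L2 k` -/
noncomputable def xi (k : Type) [Field k] (i : Fin 2) : L2 k := ps k (io k (MvPolynomial.X i))

theorem xi_zero : xi k 0 = HahnSeries.single (0 : ℤ) (HahnSeries.single (1 : ℤ) (1 : k)) := ps_X0

theorem xi_one : xi k 1 = HahnSeries.single (1 : ℤ) (1 : LaurentSeries k) := ps_X1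

theorem xi_ne (i : Fin 2) : xi k i ≠ 0 := by
  intro h
  have h1 : ps k (io k (MvPolynomial.X i)) = ps k (io k 0) := by
    rw [map_zero, map_zero]; exact h
  exact MvPolynomial.X_ne_zero i (io_injective (ps_injective h1))

theorem xi0_pow (s : ℕ) : xi k 0 ^ s = HahnSeries.single (0 : ℤ) (HahnSeries.single (s : ℤ) (1 : k)) :=
  psX0_pow s

theorem xi1_pow (s : ℕ) : xi k 1 ^ s = HahnSeries.single (s : ℤ) (1 : LaurentSeries k) :=
  psX1_pow s

/-- the iterated residue on `L2 k` -/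
noncomputable def res2 (k : Type) [Field k] : L2 k →+ k where
  toFun w := (w.coeff (-1)).coeff (-1)
  map_zero' := by rw [HahnSeries.coeff_zero, HahnSeries.coeff_zero]
  map_add' _ _ := by rw [HahnSeries.coeff_add, HahnSeries.coeff_add]

theorem res2_apply (w : L2 k) : res2 k w = (w.coeff (-1)).coeff (-1) := rfl

theorem res2_C (r : k) (w : L2 k) : res2 k (ps k (io k (MvPolynomial.C r)) * w) = r * res2 k w := by
  rw [res2_apply, res2_apply, ps_C, HahnSeries.coeff_single_zero_mul,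
    HahnSeries.coeff_single_zero_mul]

theorem rho_eq (x : K2 k) : rho k x = res2 k (ph k x) := rfl

/-- the image of `k[[X0, X1]]` -/
noncomputable def Ph (k : Type) [Field k] : Subring (L2 k) := (ps k).range

theorem mem_Ph {w : L2 k} : w ∈ Ph k ↔ ∃ u : P2 k, ps k u = w := Iff.rfl

theorem ps_mem (u : P2 k) : ps k u ∈ Ph k := ⟨u, rfl⟩

theorem xi_mem (i : Fin 2) : xi k i ∈ Ph k := ⟨_, rfl⟩

/-- `k[[X0, X1]][1 / t]` -/
noncomputable def PhL (t : L2 k) (ht : t ∈ Ph k) : Subring (L2 k) where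
  carrier := {w | ∃ s : ℕ, t ^ s * w ∈ Ph k}
  zero_mem' := ⟨0, by rw [mul_zero]; exact zero_mem _⟩
  one_mem' := ⟨0, by rw [pow_zero, mul_one]; exact one_mem _⟩
  add_mem' := by
    rintro a b ⟨s, hs⟩ ⟨s', hs'⟩
    refine ⟨s + s', ?_⟩
    have : t ^ (s + s') * (a + b) = t ^ s' * (t ^ s * a) + t ^ s * (t ^ s' * b) := by ring
    rw [this]
    exact add_mem (mul_mem (pow_mem ht _) hs) (mul_mem (pow_mem ht _) hs')
  mul_mem' := by
    rintro a b ⟨s, hs⟩ ⟨s', hs'⟩
    refine ⟨s + s', ?_⟩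
    have : t ^ (s + s') * (a * b) = (t ^ s * a) * (t ^ s' * b) := by ring
    rw [this]
    exact mul_mem hs hs'
  neg_mem' := by
    rintro a ⟨s, hs⟩
    refine ⟨s, ?_⟩
    have : t ^ s * -a = -(t ^ s * a) := by ring
    rw [this]
    exact neg_mem hs

/-- `k[[X0, X1]][1 / X i]` -/
noncomputable abbrev PhX (k : Type) [Field k] (i : Fin 2) : Subring (L2 k) := PhL (xi k i) (xi_mem i)

/-- `k[[X0, X1]][1 / (X0 X1)]` -/
noncomputable abbrev PhXY (k : Type) [Field k] : Subring (L2 k) :=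
  PhL (xi k 0 * xi k 1) (mul_mem (xi_mem 0) (xi_mem 1))

theorem mem_PhL {t : L2 k} {ht : t ∈ Ph k} {w : L2 k} : w ∈ PhL t ht ↔ ∃ s : ℕ, t ^ s * w ∈ Ph k :=
  Iff.rfl

theorem Ph_le {t : L2 k} {ht : t ∈ Ph k} : Ph k ≤ PhL t ht := fun w hw => ⟨0, by simpa using hw⟩

theorem PhX_le (i : Fin 2) : PhX k i ≤ PhXY k := by
  rintro w ⟨s, hs⟩
  refine ⟨s, ?_⟩
  fin_cases i
  · rw [mul_pow, mul_comm (xi k 0 ^ s), mul_assoc]
    exact mul_mem (pow_mem (xi_mem _) _) hs
  · rw [mul_pow, mul_assoc]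
    exact mul_mem (pow_mem (xi_mem _) _) hs

theorem coeff_xi0 (s : ℕ) (w : L2 k) (m n : ℤ) :
    ((xi k 0 ^ s * w).coeff n).coeff m = (w.coeff n).coeff (m - s) := by
  rw [xi0_pow, HahnSeries.coeff_single_zero_mul, HahnSeries.coeff_single_mul, one_mul]

theorem coeff_xi1 (s : ℕ) (w : L2 k) (m n : ℤ) :
    ((xi k 1 ^ s * w).coeff n).coeff m = (w.coeff (n - s)).coeff m := by
  rw [xi1_pow, HahnSeries.coeff_single_mul, one_mul]

/-- `Ph` by coefficients -/
theorem mem_Ph_iff {w : L2 k} :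
    w ∈ Ph k ↔ (∀ n : ℤ, n < 0 → w.coeff n = 0) ∧
      ∀ n m : ℤ, m < 0 → (w.coeff n).coeff m = 0 := by
  constructor
  · rintro ⟨u, rfl⟩
    exact ⟨fun n hn => ps_neg u hn, fun n m hm => ps_neg' u n hm⟩
  · rintro ⟨h1, h2⟩
    refine ⟨PowerSeries.mk fun j => PowerSeries.mk fun i => (w.coeff j).coeff i, ?_⟩
    ext n m
    rcases lt_or_ge n 0 with hn | hn
    · rw [ps_neg _ hn, h1 n hn]
    · rcases lt_or_ge m 0 with hm | hm
      · rw [ps_neg' _ _ hm, h2 n m hm]
      · obtain ⟨n, rfl⟩ := Int.eq_ofNat_of_zero_le hn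
        obtain ⟨m, rfl⟩ := Int.eq_ofNat_of_zero_le hm
        rw [ps_coeff, PowerSeries.coeff_mk, PowerSeries.coeff_mk]

theorem mem_PhX0_iff {w : L2 k} :
    w ∈ PhX k 0 ↔ (∀ n : ℤ, n < 0 → w.coeff n = 0) ∧
      ∃ s : ℕ, ∀ n m : ℤ, m < -s → (w.coeff n).coeff m = 0 := by
  constructor
  · rintro ⟨s, hs⟩
    rw [mem_Ph_iff] at hs
    constructor
    · intro n hn
      ext m
      have := congrArg (fun F => F.coeff (m + s)) (hs.1 n hn)
      simp only [coeff_xi0, add_sub_cancel_right] at this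
      rw [this, HahnSeries.coeff_zero, HahnSeries.coeff_zero]
    · refine ⟨s, fun n m hm => ?_⟩
      have := hs.2 n (m + s) (by omega)
      rwa [coeff_xi0, add_sub_cancel_right] at this
  · rintro ⟨h1, s, hs⟩
    refine ⟨s, ?_⟩
    rw [mem_Ph_iff]
    constructor
    · intro n hn
      ext m
      rw [coeff_xi0, h1 n hn, HahnSeries.coeff_zero, HahnSeries.coeff_zero]
    · intro n m hm
      rw [coeff_xi0]
      exact hs _ _ (by omega)

theorem mem_PhX1_iff {w : L2 k} :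
    w ∈ PhX k 1 ↔ (∃ s : ℕ, ∀ n : ℤ, n < -s → w.coeff n = 0) ∧
      ∀ n m : ℤ, m < 0 → (w.coeff n).coeff m = 0 := by
  constructor
  · rintro ⟨s, hs⟩
    rw [mem_Ph_iff] at hs
    constructor
    · refine ⟨s, fun n hn => ?_⟩
      ext m
      have := congrArg (fun F => F.coeff m) (hs.1 (n + s) (by omega))
      simp only [coeff_xi1, add_sub_cancel_right] at this
      rw [this, HahnSeries.coeff_zero]
    · intro n m hm
      have := hs.2 (n + s) m hm
      rwa [coeff_xi1, add_sub_cancel_right] at this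
  · rintro ⟨⟨s, h1⟩, h2⟩
    refine ⟨s, ?_⟩
    rw [mem_Ph_iff]
    constructor
    · intro n hn
      ext m
      rw [coeff_xi1, h1 _ (by omega)]
    · intro n m hm
      rw [coeff_xi1]
      exact h2 _ _ hm

/-- `Ph_X ∩ Ph_Y = Ph` -/
theorem mem_Ph_of_mem {w : L2 k} (h0 : w ∈ PhX k 0) (h1 : w ∈ PhX k 1) : w ∈ Ph k := by
  rw [mem_Ph_iff]
  exact ⟨(mem_PhX0_iff.1 h0).1, (mem_PhX1_iff.1 h1).2⟩

/-- the same with explicit powers -/
theorem mem_Ph_of_pow {w : L2 k} {s t : ℕ} (h0 : xi k 0 ^ s * w ∈ Ph k) (h1 : xi k 1 ^ t * w ∈ Ph k) :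
    w ∈ Ph k := mem_Ph_of_mem ⟨s, h0⟩ ⟨t, h1⟩

/-- the residue vanishes on `Ph_X`, `Ph_Y` -/
theorem res2_PhX {i : Fin 2} {w : L2 k} (h : w ∈ PhX k i) : res2 k w = 0 := by
  rw [res2_apply]
  fin_cases i
  · rw [(mem_PhX0_iff.1 h).1 (-1) (by norm_num), HahnSeries.coeff_zero]
  · exact (mem_PhX1_iff.1 h).2 (-1) (-1) (by norm_num)

theorem mem_PhXY {w : L2 k} (h : w ∈ PhXY k) :
    ∃ s : ℕ, (∀ n : ℤ, n < -s → w.coeff n = 0) ∧ ∀ n m : ℤ, m < -s → (w.coeff n).coeff m = 0 := by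
  obtain ⟨s, hs⟩ := h
  rw [mul_pow, mul_comm (xi k 0 ^ s), mul_assoc, mem_Ph_iff] at hs
  refine ⟨s, fun n hn => ?_, fun n m hm => ?_⟩
  · ext m
    have := congrArg (fun F => F.coeff (m + s)) (hs.1 (n + s) (by omega))
    simp only [coeff_xi1, coeff_xi0, add_sub_cancel_right] at this
    rw [this, HahnSeries.coeff_zero, HahnSeries.coeff_zero]
  · have := hs.2 (n + s) (m + s) (by omega)
    rwa [coeff_xi1, coeff_xi0, add_sub_cancel_right, add_sub_cancel_right] at this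

/-- SPLITTING: if all the moments vanish then `w ∈ Ph_X + Ph_Y` -/
theorem exists_split2 {w : L2 k} (hw : w ∈ PhXY k)
    (h : ∀ i j : ℕ, res2 k (xi k 0 ^ i * xi k 1 ^ j * w) = 0) :
    ∃ w0 ∈ PhX k 0, ∃ w1 ∈ PhX k 1, w = w0 + w1 := by
  obtain ⟨s, h1, h2⟩ := mem_PhXY hw
  have h3 : ∀ n m : ℤ, n < 0 → m < 0 → (w.coeff n).coeff m = 0 := by
    intro n m hn hm
    obtain ⟨i, hi⟩ := Int.eq_ofNat_of_zero_le (show 0 ≤ -1 - m by omega)
    obtain ⟨j, hj⟩ := Int.eq_ofNat_of_zero_le (show 0 ≤ -1 - n by omega)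
    have := h i j
    rw [res2_apply, mul_assoc, coeff_xi0, coeff_xi1] at this
    rwa [← hi, ← hj, sub_sub_cancel, sub_sub_cancel] at this
  -- the part with `n ≥ 0`
  set w0 : L2 k := HahnSeries.ofPowerSeries ℤ (LaurentSeries k)
    (PowerSeries.mk fun n => w.coeff n) with hw0
  have hc0 : ∀ n : ℤ, n < 0 → w0.coeff n = 0 := by
    intro n hn
    rw [hw0, PowerSeries.coeff_coe, if_pos hn]
  have hc1 : ∀ n : ℤ, 0 ≤ n → w0.coeff n = w.coeff n := by
    intro n hn
    obtain ⟨n, rfl⟩ := Int.eq_ofNat_of_zero_le hn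
    rw [hw0, HahnSeries.ofPowerSeries_apply_coeff, PowerSeries.coeff_mk]
  refine ⟨w0, mem_PhX0_iff.2 ⟨hc0, s, ?_⟩, w - w0, mem_PhX1_iff.2 ⟨⟨s, ?_⟩, ?_⟩,
    (add_sub_cancel _ _).symm⟩
  · intro n m hm
    rcases lt_or_ge n 0 with hn | hn
    · rw [hc0 n hn, HahnSeries.coeff_zero]
    · rw [hc1 n hn]; exact h2 n m hm
  · intro n hn
    rw [HahnSeries.coeff_sub, h1 n hn, hc0 n (by omega), sub_zero]
  · intro n m hm
    rw [HahnSeries.coeff_sub]
    rcases lt_or_ge n 0 with hn | hn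
    · rw [hc0 n hn, sub_zero]; exact h3 n m hn hm
    · rw [hc1 n hn, sub_self, HahnSeries.coeff_zero]

/-! ### the derivations -/

/-- `∂ / ∂ X i` on `L2 k` -/
noncomputable def dL (k : Type) [Field k] (i : Fin 2) : L2 k →+ L2 k where
  toFun F := (xi k i)⁻¹ * TT k i F
  map_zero' := by
    have h := TT_add i (0 : L2 k) 0
    rw [add_zero] at h
    rw [left_eq_add.mp h, mul_zero]
  map_add' F G := by rw [TT_add, mul_add]

theorem dL_apply (i : Fin 2) (F : L2 k) : dL k i F = (xi k i)⁻¹ * TT k i F := rfl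

theorem dL_mul (i : Fin 2) (F G : L2 k) : dL k i (F * G) = dL k i F * G + F * dL k i G := by
  rw [dL_apply, dL_apply, dL_apply, TT_mul]
  ring

theorem dL_C (i : Fin 2) (r : k) : dL k i (ps k (io k (MvPolynomial.C r))) = 0 := by
  rw [dL_apply, TT_C, mul_zero]

theorem xi_mul_dL (i : Fin 2) (F : L2 k) : xi k i * dL k i F = TT k i F :=
  mul_inv_cancel_left₀ (xi_ne i) _

/-- coefficients of the derivatives -/
theorem dL0_coeff (F : L2 k) (n m : ℤ) :
    ((dL k 0 F).coeff n).coeff m = ((m + 1 : ℤ) : k) * (F.coeff n).coeff (m + 1) := by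
  have h := congrArg (fun G => (HahnSeries.coeff G n).coeff (m + 1)) (xi_mul_dL 0 F)
  have h2 := coeff_xi0 1 (dL k 0 F) (m + 1) n
  rw [pow_one, Nat.cast_one, add_sub_cancel_right] at h2
  rw [h2] at h
  rw [h]
  unfold TT
  rw [if_pos rfl, eul_coeff]
  simp only [zero_mul, mul_zero, add_zero]
  change (eul 1 0 (F.coeff n)).coeff (m + 1) = _
  rw [eul_coeff]
  simp

theorem dL1_coeff (F : L2 k) (n m : ℤ) :
    ((dL k 1 F).coeff n).coeff m = ((n + 1 : ℤ) : k) * (F.coeff (n + 1)).coeff m := by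
  have h := congrArg (fun G => (HahnSeries.coeff G (n + 1)).coeff m) (xi_mul_dL 1 F)
  have h2 := coeff_xi1 1 (dL k 1 F) m (n + 1)
  rw [pow_one, Nat.cast_one, add_sub_cancel_right] at h2
  rw [h2] at h
  rw [h]
  unfold TT
  rw [if_neg (by decide), eul_coeff]
  simp only [AddMonoidHom.zero_apply, zero_add, one_mul]
  have h3 : ((n + 1 : ℤ) : LaurentSeries k) = HahnSeries.C ((n + 1 : ℤ) : k) := by
    rw [map_intCast]
  rw [h3, HahnSeries.C_apply, HahnSeries.coeff_single_zero_mul]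

/-- the residue of a derivative vanishes -/
theorem res2_dL (i : Fin 2) (F : L2 k) : res2 k (dL k i F) = 0 := by
  rw [res2_apply]
  fin_cases i
  · change ((dL k 0 F).coeff (-1)).coeff (-1) = 0
    rw [dL0_coeff]; simp
  · change ((dL k 1 F).coeff (-1)).coeff (-1) = 0
    rw [dL1_coeff]; simp

/-- `Ph` is stable -/
theorem dL_mem (i : Fin 2) {w : L2 k} (hw : w ∈ Ph k) : dL k i w ∈ Ph k := by
  rw [mem_Ph_iff] at hw ⊢
  fin_cases i
  · constructor
    · intro n hn
      ext m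
      change ((dL k 0 w).coeff n).coeff m = _
      rw [dL0_coeff, hw.1 n hn]; simp
    · intro n m hm
      change ((dL k 0 w).coeff n).coeff m = _
      rw [dL0_coeff]
      rcases eq_or_ne m (-1) with rfl | hm'
      · simp
      · rw [hw.2 n (m + 1) (by omega), mul_zero]
  · constructor
    · intro n hn
      ext m
      change ((dL k 1 w).coeff n).coeff m = _
      rw [dL1_coeff]
      rcases eq_or_ne n (-1) with rfl | hn'
      · simp
      · rw [hw.1 (n + 1) (by omega)]; simp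
    · intro n m hm
      change ((dL k 1 w).coeff n).coeff m = _
      rw [dL1_coeff, hw.2 (n + 1) m hm, mul_zero]

theorem dL_xi (i j : Fin 2) : dL k i (xi k j) = if i = j then 1 else 0 := by
  apply mul_left_cancel₀ (xi_ne i)
  rw [xi_mul_dL, xi, TT_X]
  split_ifs with h
  · subst h; rw [mul_one]; rfl
  · rw [mul_zero]

/-- compatibility with the rational functions -/
theorem dL_ph (i : Fin 2) (x : K2 k) : dL k i (ph k x) = ph k (dK i x) := by
  apply mul_left_cancel₀ (xi_ne i)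
  rw [xi_mul_dL, TT_ph]
  rfl

theorem dL_al (i : Fin 2) (a : A2 k) :
    dL k i (ps k (io k a)) = ps k (io k (MvPolynomial.pderiv i a)) := by
  rw [← ph_al, dL_ph, dK_al, ph_al]

/-- a nonzero constant term: a unit of `Ph` -/
theorem exists_inv_Ph {w : L2 k} (hw : w ∈ Ph k) (h : (w.coeff 0).coeff 0 ≠ 0) :
    ∃ w' ∈ Ph k, w * w' = 1 := by
  obtain ⟨u, rfl⟩ := hw
  have h1 : PowerSeries.coeff 0 (PowerSeries.coeff 0 u) ≠ 0 := by
    have := ps_coeff u 0 0
    rw [Nat.cast_zero] at this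
    rwa [← this]
  have h2 : IsUnit u := by
    rw [PowerSeries.isUnit_iff_constantCoeff, PowerSeries.isUnit_iff_constantCoeff, isUnit_iff_ne_zero]
    simpa using h1
  obtain ⟨u', hu'⟩ := h2.exists_right_inv
  exact ⟨ps k u', ps_mem u', by rw [← map_mul, hu', map_one]⟩

/-- the constant term of an iterated derivative -/
theorem iter_coeff (F : L2 k) (i j : ℕ) :
    (((⇑(dL k 0))^[i] ((⇑(dL k 1))^[j] F)).coeff 0).coeff 0 =
      (i.factorial : k) * (j.factorial : k) * (F.coeff j).coeff i := by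
  have h1 : ∀ (j : ℕ) (G : L2 k) (n : ℕ) (m : ℤ), (((⇑(dL k 1))^[j] G).coeff n).coeff m =
      ((n + j).descFactorial j : k) * (G.coeff (n + j : ℕ)).coeff m := by
    intro j
    induction j with
    | zero => intro G n m; simp
    | succ j ih =>
      intro G n m
      rw [Function.iterate_succ_apply, ih, dL1_coeff]
      have e1 : ((n + j : ℕ) : ℤ) + 1 = ((n + (j + 1) : ℕ) : ℤ) := by push_cast; ring
      rw [e1, Int.cast_natCast, ← mul_assoc]
      congr 1
      have e2 : n + (j + 1) = (n + j) + 1 := by ring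
      rw [e2, Nat.succ_descFactorial_succ]
      push_cast
      ring
  have h0 : ∀ (i : ℕ) (G : L2 k) (n : ℤ) (m : ℕ), (((⇑(dL k 0))^[i] G).coeff n).coeff m =
      ((m + i).descFactorial i : k) * (G.coeff n).coeff (m + i : ℕ) := by
    intro i
    induction i with
    | zero => intro G n m; simp
    | succ j ih =>
      intro G n m
      rw [Function.iterate_succ_apply, ih, dL0_coeff]
      have e1 : ((m + j : ℕ) : ℤ) + 1 = ((m + (j + 1) : ℕ) : ℤ) := by push_cast; ring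
      rw [e1, Int.cast_natCast, ← mul_assoc]
      congr 1
      have e2 : m + (j + 1) = (m + j) + 1 := by ring
      rw [e2, Nat.succ_descFactorial_succ]
      push_cast
      ring
  have h2 := h0 i ((⇑(dL k 1))^[j] F) 0 0
  have h3 := h1 j F 0 ((0 + i : ℕ) : ℤ)
  rw [Nat.cast_zero] at h2 h3
  rw [h2, h3, zero_add, zero_add, Nat.descFactorial_self, Nat.descFactorial_self]
  ring

/-- DIFFERENTIATION TO A UNIT: a subset of `Ph` closed under the two derivations, with a nonzero element,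
has an element which is a unit of `Ph` -/
theorem exists_unit [CharZero k] {S : Set (L2 k)} (hS : S ⊆ Ph k) (hd : ∀ i, ∀ w ∈ S, dL k i w ∈ S)
    (hne : ∃ w ∈ S, w ≠ 0) : ∃ w ∈ S, ∃ w' ∈ Ph k, w * w' = 1 := by
  obtain ⟨w, hw, hw0⟩ := hne
  obtain ⟨n, m, hnm⟩ : ∃ n m : ℤ, (w.coeff n).coeff m ≠ 0 := by
    by_contra h
    push Not at h
    apply hw0
    ext n m
    rw [h n m]; rfl
  have hP := mem_Ph_iff.1 (hS hw)
  have hn : 0 ≤ n := by
    by_contra h
    exact hnm (by rw [hP.1 n (by omega), HahnSeries.coeff_zero])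
  have hm : 0 ≤ m := by
    by_contra h
    exact hnm (hP.2 n m (by omega))
  obtain ⟨j, rfl⟩ := Int.eq_ofNat_of_zero_le hn
  obtain ⟨i, rfl⟩ := Int.eq_ofNat_of_zero_le hm
  have hi : ∀ (l : Fin 2) (s : ℕ) (z : L2 k), z ∈ S → (⇑(dL k l))^[s] z ∈ S := by
    intro l s
    induction s with
    | zero => intro z hz; exact hz
    | succ s ih => intro z hz; rw [Function.iterate_succ_apply]; exact ih _ (hd l z hz)
  refine ⟨(⇑(dL k 0))^[i] ((⇑(dL k 1))^[j] w), hi _ _ _ (hi _ _ _ hw), ?_⟩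
  apply exists_inv_Ph (hS (hi _ _ _ (hi _ _ _ hw)))
  rw [iter_coeff]
  refine mul_ne_zero (mul_ne_zero ?_ ?_) hnm
  · exact_mod_cast i.factorial_ne_zero
  · exact_mod_cast j.factorial_ne_zero

end Pool.Agent.MIY.R2
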