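import Mathlib

/-!
Trace and a twisted derivation: `E u = D u * J` on the base, `J * a' = n` in the base; then
`tr (a' * E z) = n * D (tr z)` (doc H/821812_MIY_37, sections 3, 4; no localisation).
-/

set_option autoImplicit false

namespace Pool.Agent.MIY

section TrDerJ

variable {R S : Type} [CommRing R] [CommRing S] [Algebra R S] {l : ℕ}

/-- coordinates of `E y` for a twisted derivation -/
theorem trDerJ_expand (b : Module.Basis (Fin l) R S) (D : Derivation ℤ R R) (E : Derivation ℤ S S)
    (J : S) (hE : ∀ r, E (algebraMap R S r) = algebraMap R S (D r) * J) (y : S) :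
    E y = ∑ j, (D (b.repr y j) • (J * b j) + b.repr y j • E (b j)) := by
  conv_lhs => rw [← b.sum_repr y]
  rw [map_sum]
  refine Finset.sum_congr rfl fun j _ => ?_
  rw [Algebra.smul_def, Derivation.leibniz, hE, smul_eq_mul, smul_eq_mul, Algebra.smul_def,
    Algebra.smul_def]
  ring

theorem trDerJ_trace (b : Module.Basis (Fin l) R S) (z : S) :
    Algebra.trace R S z = ∑ i, b.repr (z * b i) i := by
  rw [Algebra.trace_eq_matrix_trace b, Matrix.trace]
  refine Finset.sum_congr rfl fun i _ => ?_
  rw [Matrix.diag_apply, Algebra.leftMulMatrix_eq_repr_mul]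

/-- coordinates of a product -/
theorem trDerJ_mul (b : Module.Basis (Fin l) R S) (z w : S) (i : Fin l) :
    b.repr (z * w) i = ∑ j, b.repr w j * b.repr (z * b j) i := by
  conv_lhs => rw [← b.sum_repr w]
  rw [Finset.mul_sum, map_sum, Finsupp.finsetSum_apply]
  refine Finset.sum_congr rfl fun j _ => ?_
  rw [mul_smul_comm, map_smul, Finsupp.smul_apply, smul_eq_mul]

/-- the trace of `a' * E z` -/
theorem trace_derJ (b : Module.Basis (Fin l) R S) (D : Derivation ℤ R R) (E : Derivation ℤ S S)
    (J a' : S) (n : R) (hJ : J * a' = algebraMap R S n)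
    (hE : ∀ r, E (algebraMap R S r) = algebraMap R S (D r) * J) (z : S) :
    Algebra.trace R S (a' * E z) = n * D (Algebra.trace R S z) := by
  -- `a' E (z b_i) = ∑ n D(z_ji) b_j + ∑ z_ji a' E b_j`
  have h1 : ∀ i, b.repr (a' * E (z * b i)) i = n * D (b.repr (z * b i) i) +
      ∑ j, b.repr (z * b i) j * b.repr (a' * E (b j)) i := by
    intro i
    rw [trDerJ_expand b D E J hE (z * b i), Finset.mul_sum, map_sum, Finsupp.finsetSum_apply]
    have h2 : ∀ j, b.repr (a' * (D (b.repr (z * b i) j) • (J * b j) +
        b.repr (z * b i) j • E (b j))) i =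
        n * D (b.repr (z * b i) j) * (if j = i then 1 else 0) +
          b.repr (z * b i) j * b.repr (a' * E (b j)) i := by
      intro j
      have h3 : a' * (D (b.repr (z * b i) j) • (J * b j) + b.repr (z * b i) j • E (b j)) =
          (n * D (b.repr (z * b i) j)) • b j + b.repr (z * b i) j • (a' * E (b j)) := by
        rw [Algebra.smul_def, Algebra.smul_def, Algebra.smul_def, Algebra.smul_def,
          map_mul (algebraMap R S), ← hJ]
        ring
      rw [h3, map_add, Finsupp.add_apply, map_smul, map_smul, Finsupp.smul_apply,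
        Finsupp.smul_apply, b.repr_self, Finsupp.single_apply, smul_eq_mul, smul_eq_mul]
    rw [Finset.sum_congr rfl fun j _ => h2 j, Finset.sum_add_distrib]
    congr 1
    simp
  have h4 : ∀ i, b.repr (a' * E z * b i) i = n * D (b.repr (z * b i) i) +
      (∑ j, b.repr (z * b i) j * b.repr (a' * E (b j)) i -
        ∑ j, b.repr (a' * E (b i)) j * b.repr (z * b j) i) := by
    intro i
    rw [← trDerJ_mul b z (a' * E (b i)) i, ← add_sub_assoc, ← h1 i, Derivation.leibniz,
      smul_eq_mul, smul_eq_mul, eq_sub_iff_add_eq, ← Finsupp.add_apply, ← map_add]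
    congr 2
    ring
  rw [trDerJ_trace b, trDerJ_trace b, map_sum, Finset.mul_sum, Finset.sum_congr rfl fun i _ => h4 i,
    Finset.sum_add_distrib, Finset.sum_sub_distrib, Finset.sum_comm]
  have h5 : ∀ i j : Fin l, b.repr (z * b i) j * b.repr (a' * E (b j)) i =
      b.repr (a' * E (b j)) i * b.repr (z * b i) j := fun i j => mul_comm _ _
  simp only [h5, sub_self, add_zero]

end TrDerJ

end Pool.Agent.MIY
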