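import Pool.Agent.MIY.Mat1
import Pool.Agent.MIY.Per2
import Pool.Agent.MIY.TrDerJ
import Pool.Agent.MIY.Rho2

/-!
The residue theorem (doc H/821812_MIY_37, sections 3 - 5): assembly.
-/

set_option autoImplicit false

namespace Pool.Agent.MIY

open Pool.Agent.LNDF

section Tr

variable {k A : Type} [Field k] [CommRing A] [Algebra k A]
  {Ah : Type} [CommRing Ah] [Algebra (P2 k) Ah] (i : A →+* Ah)
  {K : Type} [Field K] [Algebra A K]

/-- `w` is the trace of `z` -/
def ResTr (z : K) (w : RhoAux.L2 k) : Prop :=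
  ∃ (a s : A) (c : Ah) (n : P2 k), s ≠ 0 ∧ n ≠ 0 ∧ algebraMap A K s * z = algebraMap A K a ∧
    i s * c = algebraMap (P2 k) Ah n ∧
    RhoAux.ps k n * w = RhoAux.ps k (Algebra.trace (P2 k) Ah (i a * c))

variable {i}

theorem res_ps_ne {n : P2 k} (hn : n ≠ 0) : RhoAux.ps k n ≠ 0 := fun h =>
  hn (RhoAux.ps_injective (by rw [h, map_zero]))

theorem res_tr_mul (n : P2 k) (x : Ah) :
    Algebra.trace (P2 k) Ah (algebraMap (P2 k) Ah n * x) = n * Algebra.trace (P2 k) Ah x := by
  rw [← Algebra.smul_def, map_smul, smul_eq_mul]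

theorem ResTr.ex [IsDomain A] [IsFractionRing A K]
    (hm : ∀ a : A, a ≠ 0 → ∃ (a' : Ah) (n : P2 k), n ≠ 0 ∧ i a * a' = algebraMap (P2 k) Ah n)
    (z : K) : ∃ w, ResTr (k := k) i z w := by
  obtain ⟨a, s, hs, rfl⟩ := IsFractionRing.div_surjective (A := A) z
  have hs0 : s ≠ 0 := nonZeroDivisors.ne_zero hs
  have hs1 : algebraMap A K s ≠ 0 := by
    intro h
    exact hs0 (IsFractionRing.injective A K (by rw [h, map_zero]))
  obtain ⟨c, n, hn, hc⟩ := hm s hs0
  refine ⟨RhoAux.ps k (Algebra.trace (P2 k) Ah (i a * c)) / RhoAux.ps k n, a, s, c, n, hs0, hn,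
    mul_div_cancel₀ _ hs1, hc, mul_div_cancel₀ _ (res_ps_ne hn)⟩

theorem ResTr.uniq [IsDomain A] [IsFractionRing A K] {z : K} {w w' : RhoAux.L2 k}
    (h : ResTr (k := k) i z w) (h' : ResTr (k := k) i z w') : w = w' := by
  obtain ⟨a, s, c, n, hs, hn, hz, hc, hw⟩ := h
  obtain ⟨a', s', c', n', hs', hn', hz', hc', hw'⟩ := h'
  have h1 : a * s' = a' * s := by
    apply IsFractionRing.injective A K
    rw [map_mul, map_mul, ← hz, ← hz']
    ring
  have h2 : n' * Algebra.trace (P2 k) Ah (i a * c) = n * Algebra.trace (P2 k) Ah (i a' * c') := by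
    rw [← res_tr_mul, ← res_tr_mul, ← hc, ← hc']
    congr 1
    have h3 : i a * i s' = i a' * i s := by rw [← map_mul, h1, map_mul]
    linear_combination c * c' * h3
  have h4 : RhoAux.ps k n * RhoAux.ps k n' * w = RhoAux.ps k n * RhoAux.ps k n' * w' := by
    have h5 : RhoAux.ps k n' * (RhoAux.ps k n * w) = RhoAux.ps k n * (RhoAux.ps k n' * w') := by
      rw [hw, hw', ← map_mul, ← map_mul, h2]
    linear_combination h5
  exact mul_left_cancel₀ (mul_ne_zero (res_ps_ne hn) (res_ps_ne hn')) h4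

theorem ResTr.add [IsDomain A] {z z' : K} {w w' : RhoAux.L2 k}
    (h : ResTr (k := k) i z w) (h' : ResTr (k := k) i z' w') : ResTr (k := k) i (z + z') (w + w') := by
  obtain ⟨a, s, c, n, hs, hn, hz, hc, hw⟩ := h
  obtain ⟨a', s', c', n', hs', hn', hz', hc', hw'⟩ := h'
  refine ⟨a * s' + a' * s, s * s', c * c', n * n', mul_ne_zero hs hs', mul_ne_zero hn hn', ?_, ?_, ?_⟩
  · rw [map_mul, map_add, map_mul, map_mul, ← hz, ← hz']
    ring
  · rw [map_mul, map_mul, ← hc, ← hc']
    ring
  · have h2 : i (a * s' + a' * s) * (c * c') = algebraMap (P2 k) Ah n' * (i a * c) +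
        algebraMap (P2 k) Ah n * (i a' * c') := by
      rw [map_add, map_mul, map_mul, ← hc, ← hc']
      ring
    have h3 : RhoAux.ps k (n' * Algebra.trace (P2 k) Ah (i a * c) +
        n * Algebra.trace (P2 k) Ah (i a' * c')) =
        RhoAux.ps k n' * (RhoAux.ps k n * w) + RhoAux.ps k n * (RhoAux.ps k n' * w') := by
      rw [hw, hw', map_add, RingHom.map_mul, RingHom.map_mul]
    rw [h2, map_add, res_tr_mul, res_tr_mul, h3, RingHom.map_mul]
    ring

theorem ResTr.smul [IsDomain A] [Algebra k K] [IsScalarTower k A K] {z : K} {w : RhoAux.L2 k}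
    (hi : ∀ r : k, i (algebraMap k A r) = algebraMap (P2 k) Ah (pC r)) (r : k)
    (h : ResTr (k := k) i z w) : ResTr (k := k) i (r • z) (RhoAux.ps k (pC r) * w) := by
  obtain ⟨a, s, c, n, hs, hn, hz, hc, hw⟩ := h
  refine ⟨algebraMap k A r * a, s, c, n, hs, hn, ?_, hc, ?_⟩
  · rw [map_mul, ← hz, Algebra.smul_def, IsScalarTower.algebraMap_apply k A K]
    ring
  · have h3 : RhoAux.ps k (pC r * Algebra.trace (P2 k) Ah (i a * c)) =
        RhoAux.ps k (pC r) * (RhoAux.ps k n * w) := by rw [hw, RingHom.map_mul]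
    rw [RingHom.map_mul, hi, mul_assoc, res_tr_mul, h3]
    ring

end Tr

/-! ### lemmas on Laurent series -/

section Lau

open R2

variable {k : Type} [Field k]

theorem res_dL {D0 D1 : Derivation k (P2 k) (P2 k)} (hD : IsDP k D0 D1) (u : P2 k) :
    dL k 0 (RhoAux.ps k u) = RhoAux.ps k (D0 u) ∧ dL k 1 (RhoAux.ps k u) = RhoAux.ps k (D1 u) := by
  constructor
  · ext n m
    rw [dL0_coeff]
    rcases lt_or_ge n 0 with hn | hn
    · rw [RhoAux.ps_neg _ hn, RhoAux.ps_neg _ hn, HahnSeries.coeff_zero, HahnSeries.coeff_zero,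
        mul_zero]
    · rcases lt_or_ge m 0 with hm | hm
      · rw [RhoAux.ps_neg' (D0 u) n hm]
        rcases eq_or_ne m (-1) with rfl | hm'
        · simp
        · rw [RhoAux.ps_neg' u n (by omega), mul_zero]
      · obtain ⟨j, rfl⟩ := Int.eq_ofNat_of_zero_le hn
        obtain ⟨p, rfl⟩ := Int.eq_ofNat_of_zero_le hm
        have h1 := hD.c0 p j u
        unfold cf at h1
        have h2 : ((p : ℤ) + 1) = ((p + 1 : ℕ) : ℤ) := by push_cast; ring
        rw [RhoAux.ps_coeff, h1, h2, RhoAux.ps_coeff]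
        push_cast
        ring
  · ext n m
    rw [dL1_coeff]
    rcases lt_or_ge m 0 with hm | hm
    · rw [RhoAux.ps_neg' (D1 u) n hm, RhoAux.ps_neg' u (n + 1) hm, mul_zero]
    · rcases lt_or_ge n 0 with hn | hn
      · rw [RhoAux.ps_neg (D1 u) hn, HahnSeries.coeff_zero]
        rcases eq_or_ne n (-1) with rfl | hn'
        · simp
        · rw [RhoAux.ps_neg u (by omega), HahnSeries.coeff_zero, mul_zero]
      · obtain ⟨j, rfl⟩ := Int.eq_ofNat_of_zero_le hn
        obtain ⟨p, rfl⟩ := Int.eq_ofNat_of_zero_le hm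
        have h1 := hD.c1 p j u
        unfold cf at h1
        have h2 : ((j : ℤ) + 1) = ((j + 1 : ℕ) : ℤ) := by push_cast; ring
        rw [RhoAux.ps_coeff, h1, h2, RhoAux.ps_coeff]
        push_cast
        ring

theorem res_der {q : Fin 2} {D : P2 k → P2 k} (hD : ∀ u, dL k q (RhoAux.ps k u) = RhoAux.ps k (D u))
    {n T : P2 k} (hn : n ≠ 0) {w w' : RhoAux.L2 k} (hw : RhoAux.ps k n * w = RhoAux.ps k T)
    (hw' : RhoAux.ps k n ^ 2 * w' = RhoAux.ps k (n * D T - D n * T)) :
    (w'.coeff (-1)).coeff (-1) = 0 := by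
  have h1 := congrArg (dL k q) hw
  rw [dL_mul, hD, hD] at h1
  have h2 : w' = dL k q w := by
    apply mul_left_cancel₀ (pow_ne_zero 2 (res_ps_ne hn))
    rw [hw', map_sub, RingHom.map_mul, RingHom.map_mul, ← h1, ← hw]
    ring
  rw [h2, ← res2_apply, res2_dL]

theorem res_der0 {D0 D1 : Derivation k (P2 k) (P2 k)} (hD : IsDP k D0 D1)
    {n T : P2 k} (hn : n ≠ 0) {w w' : RhoAux.L2 k} (hw : RhoAux.ps k n * w = RhoAux.ps k T)
    (hw' : RhoAux.ps k n ^ 2 * w' = RhoAux.ps k (n * D0 T - D0 n * T)) :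
    (w'.coeff (-1)).coeff (-1) = 0 :=
  res_der (q := 0) (D := D0) (fun u => (res_dL hD u).1) hn hw hw'

theorem res_der1 {D0 D1 : Derivation k (P2 k) (P2 k)} (hD : IsDP k D0 D1)
    {n T : P2 k} (hn : n ≠ 0) {w w' : RhoAux.L2 k} (hw : RhoAux.ps k n * w = RhoAux.ps k T)
    (hw' : RhoAux.ps k n ^ 2 * w' = RhoAux.ps k (n * D1 T - D1 n * T)) :
    (w'.coeff (-1)).coeff (-1) = 0 :=
  res_der (q := 1) (D := D1) (fun u => (res_dL hD u).2) hn hw hw'

theorem res_coef {s t : ℕ} {u : P2 k} {w : RhoAux.L2 k}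
    (h : RhoAux.ps k (pX ^ s * pY ^ t) * w = RhoAux.ps k u) :
    (w.coeff (-1)).coeff (-1) = if s = 0 ∨ t = 0 then 0 else cf (s - 1) (t - 1) u := by
  have hx : RhoAux.ps k pX = xi k 0 := by
    unfold xi
    rw [RhoAux.io_X0]
    rfl
  have hy : RhoAux.ps k pY = xi k 1 := by
    unfold xi
    rw [RhoAux.io_X1]
    rfl
  have h1 : (w.coeff (-1)).coeff (-1) =
      ((RhoAux.ps k u).coeff (-1 + t)).coeff (-1 + s) := by
    rw [← h, RingHom.map_mul, map_pow, map_pow, hx, hy, mul_assoc, coeff_xi0, coeff_xi1]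
    congr 2 <;> ring_nf
  rw [h1]
  split_ifs with h2
  · rcases h2 with rfl | rfl
    · exact RhoAux.ps_neg' _ _ (by norm_num)
    · rw [RhoAux.ps_neg _ (by norm_num), HahnSeries.coeff_zero]
  · push Not at h2
    obtain ⟨s', rfl⟩ := Nat.exists_eq_succ_of_ne_zero h2.1
    obtain ⟨t', rfl⟩ := Nat.exists_eq_succ_of_ne_zero h2.2
    have e1 : (-1 + ((t' + 1 : ℕ) : ℤ)) = (t' : ℤ) := by push_cast; ring
    have e2 : (-1 + ((s' + 1 : ℕ) : ℤ)) = (s' : ℤ) := by push_cast; ring
    rw [Nat.succ_eq_add_one, Nat.succ_eq_add_one, e1, e2, RhoAux.ps_coeff]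
    rfl

end Lau

section Der

variable {k A : Type} [Field k] [CommRing A] [IsDomain A] [Algebra k A]
  {Ah : Type} [CommRing Ah] [Algebra (P2 k) Ah] {i : A →+* Ah}
  {K : Type} [Field K] [Algebra A K] [IsFractionRing A K] [Algebra k K] [IsScalarTower k A K]

/-- a derivation over `ℤ` -/
noncomputable def resZ {F R : Type} [CommRing F] [CommRing R] [Algebra F R] (D : Derivation F R R) :
    Derivation ℤ R R where
  toLinearMap := (D : R →+ R).toIntLinearMap
  map_one_eq_zero' := D.map_one_eq_zero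
  leibniz' := D.leibniz

/-- the trace commutes with the derivations -/
theorem res_tr_der {l : ℕ} (b : Module.Basis (Fin l) (P2 k) Ah) {J : A} {jj : Ah} {nJ : P2 k}
    (hJ : i J * jj = algebraMap (P2 k) Ah nJ) (D0 : Derivation k (P2 k) (P2 k))
    (E0 : Derivation ℤ Ah Ah)
    (hu : ∀ u, E0 (algebraMap (P2 k) Ah u) = algebraMap (P2 k) Ah (D0 u) * i J) (x : Ah) :
    Algebra.trace (P2 k) Ah (jj * E0 x) = nJ * D0 (Algebra.trace (P2 k) Ah x) := by
  exact trace_derJ b (resZ D0) E0 (i J) jj nJ hJ hu x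

/-- the derivative of a trace -/
theorem ResTr.der {l : ℕ} (b : Module.Basis (Fin l) (P2 k) Ah) {J : A} {jj : Ah} {nJ : P2 k}
    (hJ0 : J ≠ 0) (hnJ : nJ ≠ 0)
    (hJ : i J * jj = algebraMap (P2 k) Ah nJ) (D0 : Derivation k (P2 k) (P2 k))
    (E0 : Derivation ℤ Ah Ah)
    (hu : ∀ u, E0 (algebraMap (P2 k) Ah u) = algebraMap (P2 k) Ah (D0 u) * i J)
    {δ0 : Derivation k A A} (hi : ∀ a, E0 (i a) = i (δ0 a)) (d0 : Derivation k K K)
    (hd0 : ∀ a : A, algebraMap A K J * d0 (algebraMap A K a) = algebraMap A K (δ0 a))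
    {z : K} {w : RhoAux.L2 k} (h : ResTr (k := k) i z w) :
    ∃ (n T : P2 k) (w' : RhoAux.L2 k), n ≠ 0 ∧ RhoAux.ps k n * w = RhoAux.ps k T ∧
      RhoAux.ps k n ^ 2 * w' = RhoAux.ps k (n * D0 T - D0 n * T) ∧ ResTr (k := k) i (d0 z) w' := by
  obtain ⟨a, s, c, n, hs, hn, hz, hc, hw⟩ := h
  set T := Algebra.trace (P2 k) Ah (i a * c) with hT
  have hpn := res_ps_ne hn
  refine ⟨n, T, RhoAux.ps k (n * D0 T - D0 n * T) / RhoAux.ps k n ^ 2, hn, hw,
    mul_div_cancel₀ _ (pow_ne_zero 2 hpn), s * δ0 a - a * δ0 s, J * s ^ 2, jj * c ^ 2, nJ * n ^ 2,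
    mul_ne_zero hJ0 (pow_ne_zero 2 hs), mul_ne_zero hnJ (pow_ne_zero 2 hn), ?_, ?_, ?_⟩
  · have h1 := congrArg d0 hz
    rw [Derivation.leibniz, smul_eq_mul, smul_eq_mul] at h1
    have h2 := hd0 a
    have h3 := hd0 s
    rw [map_mul, map_pow, map_sub, map_mul, map_mul, ← h2, ← h3, ← h1, ← hz]
    ring
  · rw [map_mul, map_pow, map_mul, map_pow, ← hc, ← hJ]
    ring
  · have h1 := congrArg E0 hc
    rw [Derivation.leibniz, smul_eq_mul, smul_eq_mul, hi, hu] at h1
    have h2 : E0 (i a * c) = i a * E0 c + c * i (δ0 a) := by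
      rw [Derivation.leibniz, smul_eq_mul, smul_eq_mul, hi]
    have h3 : i (s * δ0 a - a * δ0 s) * (jj * c ^ 2) =
        algebraMap (P2 k) Ah n * (jj * E0 (i a * c)) -
          algebraMap (P2 k) Ah (D0 n * nJ) * (i a * c) := by
      rw [h2, map_sub, map_mul, map_mul, map_mul, ← hc, ← hJ]
      linear_combination (-(jj * (i a * c))) * h1
    have h4 : Algebra.trace (P2 k) Ah (i (s * δ0 a - a * δ0 s) * (jj * c ^ 2)) =
        nJ * (n * D0 T - D0 n * T) := by
      rw [h3, map_sub, res_tr_mul, res_tr_mul, res_tr_der b hJ D0 E0 hu, ← hT]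
      ring
    rw [h4, map_mul, map_mul, map_pow]
    field_simp

end Der

/-! ### the unit Gram determinant -/

section Gram

variable {k : Type} [Field k]

/-- the constant term -/
noncomputable def res_ct (k : Type) [Field k] : P2 k →+* k :=
  (PowerSeries.constantCoeff (R := k)).comp (PowerSeries.constantCoeff (R := PowerSeries k))

theorem res_ct_apply (u : P2 k) : res_ct k u = cf 0 0 u := by
  unfold res_ct cf
  rw [RingHom.comp_apply, PowerSeries.coeff_zero_eq_constantCoeff_apply,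
    PowerSeries.coeff_zero_eq_constantCoeff_apply]

theorem res_isUnit {u : P2 k} : IsUnit u ↔ res_ct k u ≠ 0 := by
  unfold res_ct
  rw [PowerSeries.isUnit_iff_constantCoeff, PowerSeries.isUnit_iff_constantCoeff,
    isUnit_iff_ne_zero]
  rfl

theorem res_smul (r : k) (u : P2 k) : r • u = pC r * u := by
  ext m n
  unfold pC
  rw [PowerSeries.coeff_C_mul, PowerSeries.coeff_C_mul]
  rfl

theorem res_ct_pX : res_ct k pX = 0 := by
  unfold res_ct pX
  simp

theorem res_ct_pY : res_ct k pY = 0 := by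
  unfold res_ct pY
  simp

theorem res_ct_pC (r : k) : res_ct k (pC r) = r := by
  unfold res_ct pC
  simp

theorem res_van {u : P2 k} (h : res_ct k u = 0) : Van 1 u := by
  intro p q hp hq
  obtain rfl : p = 0 := by omega
  obtain rfl : q = 0 := by omega
  rw [← res_ct_apply, h]

variable {A : Type} [CommRing A] [Algebra k A] {X Y : A}
  {Ah : Type} [CommRing Ah] [Algebra (P2 k) Ah] {l : ℕ} {e : Fin l → A}
  {b : Module.Basis (Fin l) (P2 k) Ah} {i : A →+* Ah}

/-- two lifted bases differ by an invertible matrix -/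
theorem res_lb_unit (h : Hat k X Y e Ah b i) {l' : ℕ} {e' : Fin l' → A}
    (he' : LB (mu k A X) (mu k A Y) e') :
    ∃ hl : l' = l, IsUnit (Matrix.det (Matrix.of fun (p q : Fin l) =>
      b.repr (i (e' (Fin.cast hl.symm q))) p)) := by
  classical
  -- the constant terms
  have hX : ∀ u v : A, ∀ p, res_ct k (b.repr (i (X * u + Y * v)) p) = 0 := by
    intro u v p
    rw [map_add, map_mul, map_mul, h.iX, h.iY, ← Algebra.smul_def, ← Algebra.smul_def, map_add,
      map_smul, map_smul]
    simp [res_ct_pX, res_ct_pY]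
  have hC : ∀ (r : k) (a : A) (p : Fin l), res_ct k (b.repr (i (r • a)) p) =
      r * res_ct k (b.repr (i a) p) := by
    intro r a p
    rw [Algebra.smul_def, map_mul, h.iC, ← Algebra.smul_def, map_smul, Finsupp.smul_apply,
      smul_eq_mul, map_mul, res_ct_pC]
  let W : (Fin l' → k) →ₗ[k] (Fin l → k) :=
    { toFun := fun r p => res_ct k (b.repr (i (∑ j, r j • e' j)) p)
      map_add' := by
        intro r r'
        funext p
        simp only [Pi.add_apply, add_smul, Finset.sum_add_distrib, map_add, Finsupp.add_apply]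
      map_smul' := by
        intro c r
        funext p
        simp only [Pi.smul_apply, smul_eq_mul, RingHom.id_apply]
        rw [← hC, Finset.smul_sum]
        simp only [smul_smul] }
  have hinj : Function.Injective W := by
    rw [injective_iff_map_eq_zero]
    intro r hr
    apply he'.ind
    obtain ⟨u, v, huv⟩ := h.sat 1 (∑ j, r j • e' j) (fun p => res_van (congrFun hr p))
    exact ⟨u, v, by rw [huv, pow_one, pow_one]; rfl⟩
  have hsurj : Function.Surjective W := by
    intro t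
    obtain ⟨r, u, v, hr⟩ := he'.gen (∑ p, t p • e p)
    refine ⟨r, ?_⟩
    funext p
    have h1 : res_ct k (b.repr (i (∑ p, t p • e p)) p) = t p := by
      rw [map_sum, map_sum, Finsupp.finsetSum_apply, map_sum]
      rw [Finset.sum_eq_single p]
      · rw [hC, h.be, b.repr_self]
        simp
      · intro q _ hq
        rw [hC, h.be, b.repr_self, Finsupp.single_eq_of_ne (Ne.symm hq), map_zero, mul_zero]
      · intro hp
        exact absurd (Finset.mem_univ p) hp
    have h2 := hX u v p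
    rw [hr] at h1
    change res_ct k (b.repr (i (∑ j, r j • e' j)) p) = t p
    rw [← h1, add_assoc, map_add i, map_add b.repr, Finsupp.add_apply, map_add]
    change _ = _ + res_ct k (b.repr (i (X * u + Y * v)) p)
    rw [h2, add_zero]
  have hl : l' = l := by
    have h1 := (LinearEquiv.ofBijective W ⟨hinj, hsurj⟩).finrank_eq
    rwa [Module.finrank_fin_fun, Module.finrank_fin_fun] at h1
  subst hl
  refine ⟨rfl, ?_⟩
  rw [res_isUnit, RingHom.map_det]
  have h1 : (res_ct k).mapMatrix (Matrix.of fun (p q : Fin l') =>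
      b.repr (i (e' (Fin.cast rfl q))) p) = LinearMap.toMatrix' W := by
    ext p q
    rw [RingHom.mapMatrix_apply, Matrix.map_apply, Matrix.of_apply, LinearMap.toMatrix'_apply]
    change _ = res_ct k (b.repr (i (∑ j, (Pi.single q 1 : Fin l' → k) j • e' j)) p)
    rw [Finset.sum_eq_single q]
    · rw [Pi.single_eq_same, one_smul]
      rfl
    · intro j _ hj
      rw [Pi.single_eq_of_ne hj, zero_smul]
    · intro hq
      exact absurd (Finset.mem_univ q) hq
  rw [h1]
  have h2 : IsUnit (LinearMap.toMatrix' W) := by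
    have h3 := (LinearEquiv.ofBijective W ⟨hinj, hsurj⟩)
    rw [← Matrix.mulVec_injective_iff_isUnit]
    intro x y hxy
    apply hinj
    rwa [← LinearMap.toMatrix'_mulVec, ← LinearMap.toMatrix'_mulVec]
  exact ((Matrix.isUnit_iff_isUnit_det _).1 h2).ne_zero

end Gram

/-! ### the theorem -/

section Main

variable {k A : Type} [Field k] [CommRing A] [IsDomain A] [Algebra k A] {X Y J : A}
  {δ0 δ1 : Derivation k A A}

/-- the functional `a ↦ tr (a J⁻¹)` on the completion -/
theorem res_theta [CharZero k] [IsAlgClosed k] [UniqueFactorizationMonoid A]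
    (hE : Env2 k X Y J δ0 δ1) {l : ℕ} {e : Fin l → A} {Ah : Type} [CommRing Ah] [Algebra (P2 k) Ah]
    {b : Module.Basis (Fin l) (P2 k) Ah} {i : A →+* Ah} (h : Hat k X Y e Ah b i) {jj : Ah} {nJ : P2 k}
    (hnJ : nJ ≠ 0) (hJ : i J * jj = algebraMap (P2 k) Ah nJ) :
    ∃ θ : Ah →ₗ[P2 k] P2 k, (∀ a, nJ * θ a = Algebra.trace (P2 k) Ah (a * jj)) ∧
      ∀ q, ∃ c : Ah, ∀ p, θ (b p * c) = if p = q then 1 else 0 := by
  classical
  have h1 : ∀ a : Ah, ∃ t : P2 k, Algebra.trace (P2 k) Ah (a * jj) = nJ * t := fun a =>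
    per1 hE h a jj nJ hnJ hJ
  choose f hf using h1
  let θ : Ah →ₗ[P2 k] P2 k :=
    { toFun := f
      map_add' := by
        intro x y
        apply mul_left_cancel₀ hnJ
        rw [mul_add, ← hf, ← hf, ← hf, add_mul, map_add]
      map_smul' := by
        intro c x
        apply mul_left_cancel₀ hnJ
        rw [← hf, RingHom.id_apply, smul_mul_assoc, map_smul, smul_eq_mul, smul_eq_mul, hf]
        ring }
  have hθ : ∀ a, nJ * θ a = Algebra.trace (P2 k) Ah (a * jj) := fun a => (hf a).symm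
  refine ⟨θ, hθ, ?_⟩
  -- the Gram matrix of the trace form
  let M : Matrix (Fin l) (Fin l) (P2 k) := Matrix.of fun p q => Algebra.trace (P2 k) Ah (b p * b q)
  have hM : M.det ≠ 0 := by
    intro h0
    obtain ⟨v, hv0, hv⟩ := Matrix.exists_mulVec_eq_zero_iff.2 h0
    apply hv0
    have h2 : (∑ q, v q • b q) = 0 := by
      apply Hat.trace_nd hE h
      intro c
      rw [← b.sum_repr c, Finset.mul_sum, map_sum]
      apply Finset.sum_eq_zero
      intro p _
      rw [mul_smul_comm, map_smul, smul_eq_mul]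
      have h3 := congrFun hv p
      change ∑ q, M p q * v q = 0 at h3
      have h4 : Algebra.trace (P2 k) Ah ((∑ q, v q • b q) * b p) = ∑ q, M p q * v q := by
        rw [Finset.sum_mul, map_sum]
        refine Finset.sum_congr rfl fun q _ => ?_
        rw [smul_mul_assoc, map_smul, smul_eq_mul, mul_comm (b q)]
        exact mul_comm _ _
      rw [h4, h3, mul_zero]
    funext q
    have h5 := congrArg (fun x => b.repr x q) h2
    simp only [map_zero, Finsupp.zero_apply] at h5
    rwa [b.repr_sum_self] at h5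
  intro q
  let a : Ah := ∑ m, M.adjugate m q • b m
  have ha : ∀ p, Algebra.trace (P2 k) Ah (b p * a) = if p = q then M.det else 0 := by
    intro p
    have h2 : Algebra.trace (P2 k) Ah (b p * a) = (M * M.adjugate) p q := by
      rw [Finset.mul_sum, map_sum, Matrix.mul_apply]
      refine Finset.sum_congr rfl fun m _ => ?_
      rw [mul_smul_comm, map_smul, smul_eq_mul]
      exact mul_comm _ _
    rw [h2, Matrix.mul_adjugate, Matrix.smul_apply, Matrix.one_apply, smul_eq_mul]
    split_ifs <;> simp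
  obtain ⟨c, hc⟩ := per2 hE h a M.det hM (fun x => by
    rw [← b.sum_repr x, Finset.mul_sum, map_sum]
    apply Finset.dvd_sum
    intro p _
    rw [mul_smul_comm, map_smul, smul_eq_mul, mul_comm a, ha]
    apply Dvd.dvd.mul_left
    split_ifs
    · exact dvd_rfl
    · exact dvd_zero _)
  refine ⟨c, fun p => ?_⟩
  apply mul_left_cancel₀ (mul_ne_zero hM hnJ)
  calc M.det * nJ * θ (b p * c) = M.det * Algebra.trace (P2 k) Ah (b p * c * jj) := by
        rw [mul_assoc, hθ]
    _ = Algebra.trace (P2 k) Ah (algebraMap (P2 k) Ah M.det * (b p * c * jj)) := by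
        rw [res_tr_mul]
    _ = Algebra.trace (P2 k) Ah (algebraMap (P2 k) Ah nJ * (b p * a)) := by
        congr 1
        rw [← hJ]
        linear_combination (-(b p * jj)) * hc
    _ = M.det * nJ * (if p = q then 1 else 0) := by
        rw [res_tr_mul, ha]
        split_ifs <;> ring

theorem residue [CharZero k] [IsAlgClosed k] [UniqueFactorizationMonoid A]
    (hE : Env2 k X Y J δ0 δ1) (K : Type) [Field K] [Algebra A K] [IsFractionRing A K] [Algebra k K]
    [IsScalarTower k A K] (d0 d1 : Derivation k K K)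
    (hd0 : ∀ a : A, algebraMap A K J * d0 (algebraMap A K a) = algebraMap A K (δ0 a))
    (hd1 : ∀ a : A, algebraMap A K J * d1 (algebraMap A K a) = algebraMap A K (δ1 a)) :
    ∃ (ρ : K →ₗ[k] k) (τ : A →ₗ[k] P2 k), ResD k K X Y J d0 d1 ρ τ := by
  classical
  obtain ⟨l, e, he⟩ := exists_lb hE.fin
  have hX0 : X ≠ 0 := by
    have := hE.ind.ne_zero 0
    simpa using this
  obtain ⟨Ah, iR, iA, b, i, h⟩ := exists_hat hX0 hE.reg he
  obtain ⟨D0, D1, hD⟩ := exists_isDP k
  obtain ⟨E0, E1, hh⟩ := exists_hatDer h hD hE.d0X hE.d0Y hE.d1X hE.d1Y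
  have hm : ∀ a : A, a ≠ 0 → ∃ (a' : Ah) (n : P2 k), n ≠ 0 ∧ i a * a' = algebraMap (P2 k) Ah n :=
    fun a ha => h.exists_mul hE ha
  obtain ⟨jj, nJ, hnJ, hJ⟩ := hm J hE.Jne
  obtain ⟨θ, hθ, hdual⟩ := res_theta hE h hnJ hJ
  -- the trace on `K`
  choose t ht using ResTr.ex (K := K) hm
  have hadd : ∀ z z', t (z + z') = t z + t z' := fun z z' =>
    (ht (z + z')).uniq ((ht z).add (ht z'))
  have hsm : ∀ (r : k) z, t (r • z) = RhoAux.ps k (pC r) * t z := fun r z =>
    (ht (r • z)).uniq ((ht z).smul h.iC r)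
  let ρ : K →ₗ[k] k :=
    { toFun := fun z => ((t z).coeff (-1)).coeff (-1)
      map_add' := by
        intro z z'
        rw [hadd, HahnSeries.coeff_add, HahnSeries.coeff_add]
      map_smul' := by
        intro r z
        have h1 : RhoAux.ps k (pC r) = HahnSeries.single (0 : ℤ) (HahnSeries.single (0 : ℤ) r) := by
          rw [← RhoAux.ps_C, RhoAux.io_C]
          rfl
        rw [hsm, h1, HahnSeries.coeff_single_zero_mul, HahnSeries.coeff_single_zero_mul]
        rfl }
  have hρ : ∀ z w, ResTr (k := k) i z w → ρ z = (w.coeff (-1)).coeff (-1) := by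
    intro z w hw
    change ((t z).coeff (-1)).coeff (-1) = _
    rw [(ht z).uniq hw]
  let τ : A →ₗ[k] P2 k :=
    { toFun := fun a => θ (i a)
      map_add' := by
        intro x y
        rw [map_add, map_add]
      map_smul' := by
        intro r x
        rw [Algebra.smul_def, map_mul, h.iC, ← Algebra.smul_def, map_smul, smul_eq_mul,
          RingHom.id_apply, res_smul] }
  have hτ : ∀ a, τ a = θ (i a) := fun _ => rfl
  refine ⟨ρ, τ, ?_, ?_, ?_, ?_, ?_, ?_⟩
  · intro z
    obtain ⟨n, T, w', hn, h1, h2, h3⟩ := (ht z).der b hE.Jne hnJ hJ D0 E0 hh.u0 hh.i0 d0 hd0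
    rw [hρ _ _ h3]
    exact res_der0 hD hn h1 h2
  · intro z
    obtain ⟨n, T, w', hn, h1, h2, h3⟩ := (ht z).der b hE.Jne hnJ hJ D1 E1 hh.u1 hh.i1 d1 hd1
    rw [hρ _ _ h3]
    exact res_der1 hD hn h1 h2
  · intro a
    rw [hτ, hτ, map_mul, h.iX, ← Algebra.smul_def, map_smul, smul_eq_mul]
  · intro a
    rw [hτ, hτ, map_mul, h.iY, ← Algebra.smul_def, map_smul, smul_eq_mul]
  · intro a s t'
    have hpX : (pX : P2 k) ≠ 0 := by
      intro h0
      have := congrArg (cf 1 0) h0
      simp [cf, pX] at this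
    have hpY : (pY : P2 k) ≠ 0 := PowerSeries.X_ne_zero
    have hY0 : Y ≠ 0 := by
      have := hE.ind.ne_zero 1
      simpa using this
    have hsn : J * X ^ s * Y ^ t' ≠ 0 :=
      mul_ne_zero (mul_ne_zero hE.Jne (pow_ne_zero _ hX0)) (pow_ne_zero _ hY0)
    have hps : RhoAux.ps k (pX ^ s * pY ^ t') ≠ 0 :=
      res_ps_ne (mul_ne_zero (pow_ne_zero _ hpX) (pow_ne_zero _ hpY))
    have h1 : ResTr (k := k) i (algebraMap A K a / (algebraMap A K J * algebraMap A K X ^ s *
        algebraMap A K Y ^ t')) (RhoAux.ps k (τ a) / RhoAux.ps k (pX ^ s * pY ^ t')) := by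
      refine ⟨a, J * X ^ s * Y ^ t', jj, nJ * (pX ^ s * pY ^ t'), hsn,
        mul_ne_zero hnJ (mul_ne_zero (pow_ne_zero _ hpX) (pow_ne_zero _ hpY)), ?_, ?_, ?_⟩
      · rw [map_mul, map_mul, map_pow, map_pow]
        apply mul_div_cancel₀
        rw [← map_pow, ← map_pow, ← map_mul, ← map_mul]
        intro h0
        exact hsn (IsFractionRing.injective A K (by rw [h0, map_zero]))
      · rw [map_mul, map_mul, map_pow, map_pow, h.iX, h.iY, RingHom.map_mul (algebraMap (P2 k) Ah),
          RingHom.map_mul (algebraMap (P2 k) Ah), map_pow, map_pow, ← hJ]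
        ring
      · rw [← hθ, RingHom.map_mul (RhoAux.ps k) nJ, RingHom.map_mul (RhoAux.ps k) nJ, mul_assoc,
          mul_div_cancel₀ _ hps, hτ]
    rw [hρ _ _ h1]
    exact res_coef (mul_div_cancel₀ _ hps)
  · intro l' e' he'
    obtain ⟨hl, hU⟩ := res_lb_unit h he'
    subst hl
    choose c hc using hdual
    -- the Gram matrix of the basis
    let G : Matrix (Fin l') (Fin l') (P2 k) := Matrix.of fun p q => θ (b p * b q)
    let H : Matrix (Fin l') (Fin l') (P2 k) := Matrix.of fun p q => b.repr (c q) p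
    have hGH : G * H = 1 := by
      refine Matrix.ext fun p q => ?_
      rw [Matrix.mul_apply, Matrix.one_apply, ← hc q p]
      conv_rhs => rw [← b.sum_repr (c q)]
      rw [Finset.mul_sum, map_sum]
      refine Finset.sum_congr rfl fun m _ => ?_
      rw [mul_smul_comm, map_smul, smul_eq_mul]
      exact mul_comm _ _
    have hG : IsUnit G.det := by
      have h1 := congrArg Matrix.det hGH
      rw [Matrix.det_mul, Matrix.det_one] at h1
      exact IsUnit.of_mul_eq_one _ h1
    let U : Matrix (Fin l') (Fin l') (P2 k) := Matrix.of fun p q => b.repr (i (e' q)) p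
    have hU' : IsUnit U.det := hU
    have h2 : (Matrix.of fun p q : Fin l' => τ (e' p * e' q)) = U.transpose * G * U := by
      ext1 p q
      rw [Matrix.of_apply, hτ, map_mul, Matrix.mul_apply]
      conv_lhs => rw [← b.sum_repr (i (e' q))]
      rw [Finset.mul_sum, map_sum]
      refine Finset.sum_congr rfl fun m _ => ?_
      rw [mul_smul_comm, map_smul, smul_eq_mul, Matrix.mul_apply, mul_comm]
      change _ * b.repr (i (e' q)) m = _ * b.repr (i (e' q)) m
      congr 1
      conv_lhs => rw [← b.sum_repr (i (e' p))]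
      rw [Finset.sum_mul, map_sum]
      refine Finset.sum_congr rfl fun n _ => ?_
      rw [smul_mul_assoc, map_smul, smul_eq_mul]
      rfl
    rw [h2, Matrix.det_mul, Matrix.det_mul, Matrix.det_transpose]
    exact (hU'.mul hG).mul hU'

end Main

end Pool.Agent.MIY
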