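import Pool.Agent.MIY.Cmp
import Pool.Agent.MIY.CmU

/-!
# An element of `A_XY` with vanishing residues lies in `A_X + A_Y` (11)
-/

set_option autoImplicit false

namespace Pool.Agent.MIY

open Pool.Agent.LNDF

namespace RSpl

section Series

variable {k : Type} [Field k]

theorem cf_add (i j : ℕ) (u v : P2 k) : cf i j (u + v) = cf i j u + cf i j v := by
  unfold cf
  rw [map_add, map_add]

theorem van_add {n : ℕ} {u v : P2 k} (hu : Van n u) (hv : Van n v) : Van n (u + v) := by
  intro i j hi hj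
  rw [cf_add, hu i j hi hj, hv i j hi hj, add_zero]

theorem van_zero (n : ℕ) : Van n (0 : P2 k) := by
  intro i j _ _
  unfold cf
  rw [map_zero, map_zero]

theorem van_sum {ι : Type} (s : Finset ι) {n : ℕ} {f : ι → P2 k} (h : ∀ a ∈ s, Van n (f a)) :
    Van n (∑ a ∈ s, f a) := by
  classical
  induction s using Finset.induction_on with
  | empty =>
    rw [Finset.sum_empty]
    exact van_zero n
  | insert a s ha ih =>
    rw [Finset.sum_insert ha]
    exact van_add (h a (Finset.mem_insert_self a s))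
      (ih fun b hb => h b (Finset.mem_insert_of_mem hb))

theorem cf_mul (i j : ℕ) (u v : P2 k) : cf i j (u * v) =
    ∑ q ∈ Finset.HasAntidiagonal.antidiagonal j, ∑ p ∈ Finset.HasAntidiagonal.antidiagonal i,
      cf p.1 q.1 u * cf p.2 q.2 v := by
  unfold cf
  rw [PowerSeries.coeff_mul, map_sum]
  refine Finset.sum_congr rfl fun q _ => ?_
  rw [PowerSeries.coeff_mul]

theorem van_mul {n : ℕ} (w : P2 k) {u : P2 k} (hu : Van n u) : Van n (w * u) := by
  intro i j hi hj
  rw [cf_mul]
  refine Finset.sum_eq_zero fun q hq => Finset.sum_eq_zero fun p hp => ?_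
  rw [Finset.HasAntidiagonal.mem_antidiagonal] at hp hq
  rw [hu p.2 q.2 (by omega) (by omega), mul_zero]

theorem cf_pX (p i j : ℕ) (u : P2 k) : cf (i + p) j (pX ^ p * u) = cf i j u := by
  unfold cf pX
  rw [← map_pow, PowerSeries.coeff_C_mul, PowerSeries.coeff_X_pow_mul]

theorem cf_pY (q i j : ℕ) (u : P2 k) : cf i (j + q) (pY ^ q * u) = cf i j u := by
  unfold cf pY
  rw [PowerSeries.coeff_X_pow_mul]

end Series

section Mu

variable {k A : Type} [Field k] [CommRing A] [Algebra k A]

theorem mu_pow (X : A) (n : ℕ) (u : A) : ((mu k A X) ^ n) u = X ^ n * u := by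
  induction n generalizing u with
  | zero => simp
  | succ n ih =>
    rw [pow_succ, Module.End.mul_apply, ih, pow_succ, mul_assoc]
    rfl

end Mu

end RSpl

open RSpl

variable {k A K : Type} [Field k] [CommRing A] [IsDomain A] [Algebra k A] [Field K] [Algebra A K]
  [IsFractionRing A K] [Algebra k K] {X Y J : A} {d0 d1 : Derivation k K K} {ρ : K →ₗ[k] k}
  {τ : A →ₗ[k] P2 k}

omit [IsDomain A] [IsFractionRing A K] in
theorem res_split0 (hR : ResD k K X Y J d0 d1 ρ τ) (hr : Reg2 (mu k A X) (mu k A Y))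
    (hf : Fg2 (mu k A X) (mu k A Y)) (n : ℕ) (a : A)
    (h : ∀ c : A, ρ (algebraMap A K (c * a) / (algebraMap A K J * algebraMap A K X ^ n *
      algebraMap A K Y ^ n)) = 0) : ∃ u v : A, a = X ^ n * u + Y ^ n * v := by
  rcases Nat.eq_zero_or_pos n with hn | hn
  · subst hn
    exact ⟨a, 0, by rw [pow_zero, one_mul, mul_zero, add_zero]⟩
  -- the Taylor series
  have htX : ∀ (p : ℕ) (c : A), τ (X ^ p * c) = pX ^ p * τ c := by
    intro p
    induction p with
    | zero => intro c; rw [pow_zero, pow_zero, one_mul, one_mul]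
    | succ p ih => intro c; rw [pow_succ', mul_assoc, hR.tX, ih, pow_succ', mul_assoc]
  have htY : ∀ (p : ℕ) (c : A), τ (Y ^ p * c) = pY ^ p * τ c := by
    intro p
    induction p with
    | zero => intro c; rw [pow_zero, pow_zero, one_mul, one_mul]
    | succ p ih => intro c; rw [pow_succ', mul_assoc, hR.tY, ih, pow_succ', mul_assoc]
  have hvan : ∀ c : A, Van n (τ (c * a)) := by
    intro c i j hi hj
    have h1 := h (X ^ (n - 1 - i) * (Y ^ (n - 1 - j) * c))
    rw [hR.tay, if_neg (by omega), mul_assoc, mul_assoc, htX, htY] at h1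
    have h2 : n - 1 = i + (n - 1 - i) := by omega
    have h3 : n - 1 = j + (n - 1 - j) := by omega
    have h4 : cf (n - 1) (n - 1) (pX ^ (n - 1 - i) * (pY ^ (n - 1 - j) * τ (c * a))) =
        cf (i + (n - 1 - i)) (j + (n - 1 - j))
          (pX ^ (n - 1 - i) * (pY ^ (n - 1 - j) * τ (c * a))) := by
      rw [← h2, ← h3]
    rw [h4, cf_pX, cf_pY] at h1
    exact h1
  obtain ⟨l, e, he⟩ := exists_lb hf
  obtain ⟨κ, hκ⟩ := exists_cm hr he
  obtain ⟨G, hG⟩ : ∃ G : Matrix (Fin l) (Fin l) (P2 k), G = Matrix.of fun i j => τ (e i * e j) :=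
    ⟨_, rfl⟩
  have hdet : IsUnit G.det := by
    rw [hG]
    exact hR.gram e he
  let ψ : A →ₗ[k] (Fin l → P2 k) := LinearMap.pi fun i =>
    τ.comp (LinearMap.mulLeft k (e i))
  have hψ : ∀ a i, ψ a i = τ (e i * a) := fun _ _ => rfl
  have huniv := hκ.univ ψ
    (fun a i => by
      rw [hψ, hψ, ← hR.tX]
      congr 1
      change e i * (X * a) = X * (e i * a)
      ring)
    (fun a i => by
      rw [hψ, hψ, ← hR.tY]
      congr 1
      change e i * (Y * a) = Y * (e i * a)
      ring)
  have hmv : G.mulVec (κ a) = fun i => τ (e i * a) := by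
    funext i
    have h1 := huniv a i
    rw [hψ] at h1
    rw [h1]
    unfold Matrix.mulVec dotProduct
    refine Finset.sum_congr rfl fun j _ => ?_
    rw [hG]
    change τ (e i * e j) * κ a j = κ a j * τ (e i * e j)
    exact mul_comm _ _
  have hv : ∀ j, Van n (κ a j) := by
    intro j
    have h1 : κ a = G⁻¹.mulVec (G.mulVec (κ a)) := by
      rw [Matrix.mulVec_mulVec, Matrix.nonsing_inv_mul G hdet, Matrix.one_mulVec]
    rw [h1, hmv]
    unfold Matrix.mulVec dotProduct
    exact van_sum _ fun i _ => van_mul _ (hvan (e i))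
  obtain ⟨u, v, huv⟩ := hκ.sat n a hv
  rw [mu_pow, mu_pow] at huv
  exact ⟨u, v, huv⟩

/-- **The split.** -/
theorem res_split (hR : ResD k K X Y J d0 d1 ρ τ) (fin : Fg2 (mu k A X) (mu k A Y))
    (reg : Reg2 (mu k A X) (mu k A Y)) (n : ℕ) (x : K) (z : A)
    (hz : algebraMap A K z = algebraMap A K X ^ n * algebraMap A K Y ^ n * x)
    (h0 : ∀ a : A, ρ (algebraMap A K a * x / algebraMap A K J) = 0) :
    ∃ u v : A, z = X ^ n * u + Y ^ n * v := by
  have hX : X ≠ 0 := by
    intro hX
    refine one_ne_zero (reg.inj (1 : A) ?_)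
    change X * 1 = 0
    rw [hX, zero_mul]
  by_cases hY : Y = 0
  · obtain ⟨c, hc⟩ := reg.reg 1 0 (by
      change Y * 1 = X * 0
      rw [hY, zero_mul, mul_zero])
    have hc' : (1 : A) = X * c := hc
    refine ⟨c ^ n * z, 0, ?_⟩
    rw [mul_zero, add_zero, ← mul_assoc, ← mul_pow, ← hc', one_pow, one_mul]
  refine res_split0 hR reg fin n z fun c => ?_
  have hX' : algebraMap A K X ≠ 0 := fun h => hX ((IsFractionRing.injective A K) (by rw [h, map_zero]))
  have hY' : algebraMap A K Y ≠ 0 := fun h => hY ((IsFractionRing.injective A K) (by rw [h, map_zero]))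
  have h1 : algebraMap A K (c * z) / (algebraMap A K J * algebraMap A K X ^ n *
      algebraMap A K Y ^ n) = algebraMap A K c * x / algebraMap A K J := by
    rw [map_mul, hz]
    have h2 : algebraMap A K X ^ n ≠ 0 := pow_ne_zero _ hX'
    have h3 : algebraMap A K Y ^ n ≠ 0 := pow_ne_zero _ hY'
    by_cases hJ : algebraMap A K J = 0
    · rw [hJ]
      simp
    · field_simp
  rw [h1]
  exact h0 c

end Pool.Agent.MIY
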