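import Mathlib
import Pool.Agent.MIY.Phi2
import Pool.Agent.MIY.FDef
import Pool.Agent.MIY.BaX
import Pool.Agent.MIY.BetaA
import Pool.Agent.MIY.RSpl
import Pool.Agent.MIY.Fin2
import Pool.Agent.MIY.DualE

/-!
# MIY/Stp2: the induction step of FREE over an arbitrary kernel, and its end
-/

set_option autoImplicit false

open Polynomial

namespace Pool.Agent.MIY

variable {k A K : Type} [Field k] [CharZero k] [CommRing A] [IsDomain A] [Algebra k A] [Field K]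
  [Algebra A K] [IsFractionRing A K] [Algebra k K] [CharZero K] [IsScalarTower k A K]

theorem stp_smul (a : A) (h : K[X]) : a • h = C (al a) * h := by
  ext n
  rw [coeff_smul, coeff_C_mul, Algebra.smul_def]

theorem stp_smul_ne {a : A} (ha : a ≠ 0) {h : K[X]} (hh : a • h = 0) : h = 0 := by
  rw [stp_smul] at hh
  have hx : (al a : K) ≠ 0 := al_ne (K := K) ha
  exact (mul_eq_zero.1 hh).resolve_left (by simpa using hx)

theorem stp_smul_cancel {a : A} (ha : a ≠ 0) {g h : K[X]} (hh : a • g = a • h) : g = h := by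
  have : a • (g - h) = 0 := by rw [smul_sub, hh, sub_self]
  exact sub_eq_zero.mp (stp_smul_ne ha this)

/-- Lam2 -/
theorem M2.stp_lam (M : M2 k A K) (hr : Reg2 (mu k A M.x) (mu k A M.y))
    (hf : Fg2 (mu k A M.x) (mu k A M.y)) {ρ : K →ₗ[k] k} {τ : A →ₗ[k] P2 k}
    (hR : ResD k K M.x M.y M.J M.d0 M.d1 ρ τ) {Q0 Q1 : K[X]} (h0 : M.Good M.x Q0)
    (h1 : M.Good M.y Q1) {i : ℕ} (hi : 1 ≤ i) (hiN : i ≤ M.N)
    (hS : (Q0 - Q1).degree < (M.N + 1 - i : ℕ)) (n : ℕ) (s : K[X])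
    (hs : s = C (al (M.x ^ n * M.y ^ n)) * (Q0 - Q1)) (b : K[X]) (hb : b ∈ M.Fs i)
    (z : A) (hz : (al z : K) = M.R Q0 (b * s)) : ∃ u v : A, z = M.x ^ n * u + M.y ^ n * v := by
  have hx := M.x_ne
  have hy := M.y_ne
  have hx' : (al M.x : K) ≠ 0 := al_ne (K := K) hx
  have hy' : (al M.y : K) ≠ 0 := al_ne (K := K) hy
  have hJ' : (al M.J : K) ≠ 0 := al_ne (K := K) M.J_ne
  have s0 : ∀ z : K, InA M.x z → ρ (z / al M.J) = 0 := by
    rintro z ⟨s, a, hsa⟩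
    have h2 := hR.tay a s 0
    rw [if_pos (Or.inr rfl)] at h2
    have h3 : z / al M.J = algebraMap A K a / (algebraMap A K M.J * algebraMap A K M.x ^ s *
        algebraMap A K M.y ^ 0) := by
      rw [← show (al a : K) = algebraMap A K a from rfl, ← hsa]
      simp only [al, map_pow] at hx' hJ' ⊢
      field_simp
    rw [h3, h2]
  have s1 : ∀ z : K, InA M.y z → ρ (z / al M.J) = 0 := by
    rintro z ⟨s, a, hsa⟩
    have h2 := hR.tay a 0 s
    rw [if_pos (Or.inl rfl)] at h2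
    have h3 : z / al M.J = algebraMap A K a / (algebraMap A K M.J * algebraMap A K M.x ^ 0 *
        algebraMap A K M.y ^ s) := by
      rw [← show (al a : K) = algebraMap A K a from rfl, ← hsa]
      simp only [al, map_pow] at hy' hJ' ⊢
      field_simp
    rw [h3, h2]
  refine res_split hR hf hr n (M.R Q0 (b * (Q0 - Q1))) z ?_ ?_
  · change (al z : K) = _
    have e1 : b * s = C (al (M.x ^ n * M.y ^ n)) * (b * (Q0 - Q1)) := by rw [hs]; ring
    rw [hz, e1, M.R_C_mul h0]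
    simp only [al, map_mul, map_pow]
  · intro a
    have hb' : C (al a) * b ∈ M.S := by
      rw [← stp_smul]
      exact M.S.smul_mem hb.1 a
    have hbd : (C (al a : K) * b).degree < (i : ℕ) := by
      rw [← stp_smul]
      exact lt_of_le_of_lt (degree_smul_le _ _) hb.2
    have h2 := M.key ρ.toAddMonoidHom hR.r0 hR.r1 hx hy s0 s1 h0 h1 i hi hiN hS _ hb' hbd
    rw [mul_assoc, M.R_C_mul h0] at h2
    exact h2

/-- the element-level data of `BaX` in the form of `dual` -/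
theorem M2.stp_bax (M : M2 k A K) {d : A} (hd : d ≠ 0) {q : ℕ → K[X]} (hq : M.Adapted d q)
    {Q : K[X]} (hQ : M.Good d Q) {i : ℕ} (hiN : i ≤ M.N) (β : M.Fs i →ₗ[A] M.Fs M.N →ₗ[A] A)
    (hβ : ∀ b g, (al (β b g) : K) = M.R Q ((b : K[X]) * g)) :
    ∃ n0 : ℕ, ∀ n ≥ n0, ∃ (r : ℕ) (f : Fin r → M.Fs i) (g : Fin r → M.Fs M.N),
      (∀ a b, β (f a) (g b) = if a = b then d ^ n else 0) ∧
      ∀ v : M.Fs i, ∃ a : Fin r → A, d ^ n • v = ∑ j, a j • f j := by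
  obtain ⟨n0, hn0⟩ := M.bax hd hq hQ i hiN
  refine ⟨n0, fun n hn => ?_⟩
  obtain ⟨f, g, hf, hg, hfg, hspan⟩ := hn0 n hn
  refine ⟨i, fun l => ⟨f l, hf l⟩, fun l => ⟨g l, hg l⟩, fun a b => ?_, fun v => ?_⟩
  · apply al_inj (K := K)
    rw [hβ]
    change M.R Q (f a * g b) = _
    rw [hfg a b]
    split_ifs
    · rfl
    · simp only [al, map_zero]
  · obtain ⟨a, ha⟩ := hspan v v.2.1 v.2.2
    refine ⟨a, Subtype.ext ?_⟩
    rw [Submodule.coe_smul, stp_smul, ha, Submodule.coe_sum]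
    refine Finset.sum_congr rfl fun l _ => ?_
    rw [Submodule.coe_smul, stp_smul]

/-- division of a small element by a power -/
theorem M2.stp_good (M : M2 k A K) {d : A} (hd : d ≠ 0) {Q : K[X]} (hQ : M.Good d Q) (w : K[X])
    (hw : w ∈ M.Fs M.N) (t : ℕ) (V : K[X]) (hV : d ^ t • V = w) : M.Good d (Q + V) := by
  have hdt : (al (d ^ t) : K) ≠ 0 := al_ne (K := K) (pow_ne_zero t hd)
  have hdeg : V.degree < (M.N : ℕ) := by
    have h1 := hw.2
    rw [← hV, stp_smul, degree_C_mul hdt] at h1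
    exact h1
  have hVS : M.InS d V := by
    refine ⟨t, ?_⟩
    rw [← stp_smul, hV]
    exact hw.1
  refine ⟨hQ.1.add hVS, ?_, ?_⟩
  · refine (natDegree_add_le _ _).trans (max_le hQ.2.1 ?_)
    by_cases h0 : V = 0
    · rw [h0, natDegree_zero]
      exact Nat.zero_le _
    · rw [degree_eq_natDegree h0] at hdeg
      have : V.natDegree < M.N := by exact_mod_cast hdeg
      exact this.le
  · rw [coeff_add, coeff_eq_zero_of_degree_lt hdeg, add_zero]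
    exact hQ.2.2

theorem stp_div {d : A} (hd : d ≠ 0) (w : K[X]) : ∃ V : K[X], d • V = w := by
  refine ⟨C (al d)⁻¹ * w, ?_⟩
  rw [stp_smul, ← mul_assoc, ← C_mul, mul_inv_cancel₀ (al_ne (K := K) hd), C_1, one_mul]

/-- Stp2 -/
theorem M2.close_succ (M : M2 k A K) (hr : Reg2 (mu k A M.x) (mu k A M.y))
    (hf : Fg2 (mu k A M.x) (mu k A M.y))
    (hSr : ∀ a ∈ M.S, ∀ b ∈ M.S, M.y • a = M.x • b → ∃ c ∈ M.S, a = M.x • c)
    {ρ : K →ₗ[k] k} {τ : A →ₗ[k] P2 k}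
    (hR : ResD k K M.x M.y M.J M.d0 M.d1 ρ τ) {i : ℕ} (hi : 1 ≤ i) (hiN : i ≤ M.N)
    (h : ∃ Q0 Q1 : K[X], M.Good M.x Q0 ∧ M.Good M.y Q1 ∧ (Q0 - Q1).degree < (M.N + 1 - i : ℕ)) :
    ∃ Q0 Q1 : K[X], M.Good M.x Q0 ∧ M.Good M.y Q1 ∧ (Q0 - Q1).degree < (M.N + 1 - (i + 1) : ℕ) := by
  obtain ⟨Q0, Q1, h0, h1, hS⟩ := h
  have hx := M.x_ne
  have hy := M.y_ne
  obtain ⟨⟨qx, hqx⟩, ⟨qy, hqy⟩⟩ := M.exists_adapted
  obtain ⟨β, hβ⟩ := M.exists_beta hr h0 h1 hi hiN hS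
  obtain ⟨nx, hnx⟩ := M.stp_bax hx hqx h0 hiN β (fun b g => (hβ b g).1)
  obtain ⟨ny, hny⟩ := M.stp_bax hy hqy h1 hiN β (fun b g => (hβ b g).2)
  obtain ⟨a0, ha0⟩ := h0.1
  obtain ⟨a1, ha1⟩ := h1.1
  set n : ℕ := max (max nx ny) (max a0 a1) with hn
  have hnn : nx ≤ n ∧ ny ≤ n ∧ a0 ≤ n ∧ a1 ≤ n := by
    refine ⟨?_, ?_, ?_, ?_⟩ <;> simp [hn]
  have hdeg : (C (al (M.x ^ n * M.y ^ n)) * (Q0 - Q1) : K[X]).degree < (M.N : ℕ) := by
    rw [degree_C_mul (al_ne (K := K) (mul_ne_zero (pow_ne_zero _ hx) (pow_ne_zero _ hy)))]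
    refine lt_of_lt_of_le hS ?_
    have : M.N + 1 - i ≤ M.N := by omega
    exact_mod_cast this
  have hsS : (C (al (M.x ^ n * M.y ^ n)) * (Q0 - Q1) : K[X]) ∈ M.S := by
    have e0 : (C (al (M.x ^ n * M.y ^ n)) * (Q0 - Q1) : K[X]) =
        C (al (M.x ^ (n - a0) * M.y ^ n)) * (C (al (M.x ^ a0)) * Q0) -
        C (al (M.x ^ n * M.y ^ (n - a1))) * (C (al (M.y ^ a1)) * Q1) := by
      obtain ⟨c0, hc0⟩ := Nat.exists_eq_add_of_le hnn.2.2.1
      obtain ⟨c1, hc1⟩ := Nat.exists_eq_add_of_le hnn.2.2.2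
      have e1 : n - a0 = c0 := by omega
      have e2 : n - a1 = c1 := by omega
      have e3 : M.x ^ n = M.x ^ c0 * M.x ^ a0 := by rw [hc0]; ring
      have e4 : M.y ^ n = M.y ^ c1 * M.y ^ a1 := by rw [hc1]; ring
      rw [e1, e2]
      have f3 : (C (al (M.x ^ n)) : K[X]) = C (al (M.x ^ c0)) * C (al (M.x ^ a0)) := by
        rw [e3, ← C_mul]; simp only [al, map_mul]
      have f4 : (C (al (M.y ^ n)) : K[X]) = C (al (M.y ^ c1)) * C (al (M.y ^ a1)) := by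
        rw [e4, ← C_mul]; simp only [al, map_mul]
      have f5 : (C (al (M.x ^ n * M.y ^ n)) : K[X]) = C (al (M.x ^ n)) * C (al (M.y ^ n)) := by
        rw [← C_mul]; simp only [al, map_mul]
      have f6 : (C (al (M.x ^ c0 * M.y ^ n)) : K[X]) = C (al (M.x ^ c0)) * C (al (M.y ^ n)) := by
        rw [← C_mul]; simp only [al, map_mul]
      have f7 : (C (al (M.x ^ n * M.y ^ c1)) : K[X]) = C (al (M.x ^ n)) * C (al (M.y ^ c1)) := by
        rw [← C_mul]; simp only [al, map_mul]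
      rw [f5, f6, f7]
      linear_combination (C (al (M.y ^ n)) * Q0) * f3 - (C (al (M.x ^ n)) * Q1) * f4
    rw [e0]
    refine M.S.sub_mem (M.S.mul_mem (M.C_al_mem _) ha0) (M.S.mul_mem (M.C_al_mem _) ha1)
  set s : M.Fs M.N := ⟨C (al (M.x ^ n * M.y ^ n)) * (Q0 - Q1), hsS, hdeg⟩ with hs
  obtain ⟨m, g', u, v, hg', e⟩ := dual τ hR.tX hR.tY hf hr hR.gram β
    (M.F_reg hSr i) (M.F_fg hf (by omega))
    (fun g hg => Subtype.ext (stp_smul_ne hx (by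
      have := congrArg Subtype.val hg
      simpa using this)))
    (fun g hg => Subtype.ext (stp_smul_ne hy (by
      have := congrArg Subtype.val hg
      simpa using this)))
    (M.Fj M.N (M.N - i)) (M.beta_ker h0 hi hiN β (fun b g => (hβ b g).1)) n
    (hnx n hnn.1) (hny n hnn.2.1) s
    (fun b => M.stp_lam hr hf hR h0 h1 hi hiN hS n _ rfl b b.2 _ (hβ b s).1)
  have hg'd := (M.mem_Fj _ _ _).1 hg'
  obtain ⟨V, hV⟩ := stp_div (K := K) (pow_ne_zero (n + m) hx) (-(v : K[X]))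
  obtain ⟨U, hU⟩ := stp_div (K := K) (pow_ne_zero (n + m) hy) (u : K[X])
  have g0 := M.stp_good hx h0 (-(v : K[X])) (Submodule.neg_mem _ v.2) (n + m) V hV
  have g1 := M.stp_good hy h1 (u : K[X]) u.2 (n + m) U hU
  have e' : (M.x * M.y) ^ m • (C (al (M.x ^ n * M.y ^ n)) * (Q0 - Q1) : K[X]) =
      (g' : K[X]) + M.x ^ (n + m) • (u : K[X]) + M.y ^ (n + m) • (v : K[X]) := by
    have h5 := congrArg Subtype.val e
    have h6 : ((M.x * M.y) ^ m • s : M.Fs M.N).val =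
        (M.x * M.y) ^ m • (C (al (M.x ^ n * M.y ^ n)) * (Q0 - Q1) : K[X]) := rfl
    rw [h6] at h5
    rw [h5]
    rfl
  have hkey : (M.x ^ (n + m) * M.y ^ (n + m)) • (Q0 + V - (Q1 + U)) = (g' : K[X]) := by
    have e1 : (M.x ^ (n + m) * M.y ^ (n + m)) • (Q0 - Q1 : K[X]) =
        (g' : K[X]) + M.x ^ (n + m) • (u : K[X]) + M.y ^ (n + m) • (v : K[X]) := by
      rw [← e', ← stp_smul, smul_smul]
      congr 1
      ring
    have e2 : (M.x ^ (n + m) * M.y ^ (n + m)) • V = - (M.y ^ (n + m) • (v : K[X])) := by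
      rw [mul_comm, mul_smul, hV, smul_neg]
    have e3 : (M.x ^ (n + m) * M.y ^ (n + m)) • U = M.x ^ (n + m) • (u : K[X]) := by
      rw [mul_smul, hU]
    have e4 : (Q0 + V - (Q1 + U) : K[X]) = (Q0 - Q1) + V - U := by ring
    rw [e4, smul_sub, smul_add, e1, e2, e3]
    abel
  refine ⟨Q0 + V, Q1 + U, g0, g1, ?_⟩
  have hd : (Q0 + V - (Q1 + U) : K[X]).degree = (g' : K[X]).degree := by
    rw [← hkey, stp_smul, degree_C_mul (al_ne (K := K)
      (mul_ne_zero (pow_ne_zero _ hx) (pow_ne_zero _ hy)))]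
  rw [hd]
  have e5 : M.N + 1 - (i + 1) = M.N - i := by omega
  rw [e5]
  exact hg'd

/-- `y ^ t a = x b` gives `x ∣ a` -/
theorem M2.stp_pow1 (M : M2 k A K)
    (hSr : ∀ a ∈ M.S, ∀ b ∈ M.S, M.y • a = M.x • b → ∃ c ∈ M.S, a = M.x • c) (t : ℕ) :
    ∀ a ∈ M.S, ∀ b ∈ M.S, M.y ^ t • a = M.x • b → ∃ c ∈ M.S, a = M.x • c := by
  induction t with
  | zero =>
    intro a _ b hb h
    rw [pow_zero, one_smul] at h
    exact ⟨b, hb, h⟩
  | succ t ih =>
    intro a ha b hb h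
    rw [pow_succ', mul_smul] at h
    obtain ⟨c, hc, e⟩ := hSr _ (M.S.smul_mem ha _) b hb h
    exact ih a ha c hc e

/-- `y ^ t a = x ^ s b` gives `x ^ s ∣ a` -/
theorem M2.stp_pow2 (M : M2 k A K)
    (hSr : ∀ a ∈ M.S, ∀ b ∈ M.S, M.y • a = M.x • b → ∃ c ∈ M.S, a = M.x • c) (t s : ℕ) :
    ∀ a ∈ M.S, ∀ b ∈ M.S, M.y ^ t • a = M.x ^ s • b → ∃ c ∈ M.S, a = M.x ^ s • c := by
  induction s with
  | zero =>
    intro a ha b _ _
    exact ⟨a, ha, by rw [pow_zero, one_smul]⟩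
  | succ s ih =>
    intro a ha b hb h
    rw [pow_succ', mul_smul] at h
    obtain ⟨c, hc, e⟩ := M.stp_pow1 hSr t a ha _ (M.S.smul_mem hb _) h
    rw [e, smul_comm] at h
    obtain ⟨c', hc', e'⟩ := ih c hc b hb (stp_smul_cancel M.x_ne h)
    exact ⟨c', hc', by rw [e, e', pow_succ', mul_smul]⟩

/-- `S[1/x] ∩ S[1/y] = S` -/
theorem M2.stp_inter (M : M2 k A K)
    (hSr : ∀ a ∈ M.S, ∀ b ∈ M.S, M.y • a = M.x • b → ∃ c ∈ M.S, a = M.x • c) {Q : K[X]}
    (h0 : M.InS M.x Q) (h1 : M.InS M.y Q) : Q ∈ M.S := by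
  obtain ⟨s, hs⟩ := h0
  obtain ⟨t, ht⟩ := h1
  rw [← stp_smul] at hs ht
  obtain ⟨c, hc, e⟩ := M.stp_pow2 hSr t s _ hs _ ht (smul_comm _ _ _)
  rw [stp_smul_cancel (pow_ne_zero s M.x_ne) e]
  exact hc

/-- Mai2: end of part 3 for a model -/
theorem M2.main (M : M2 k A K) (hr : Reg2 (mu k A M.x) (mu k A M.y))
    (hf : Fg2 (mu k A M.x) (mu k A M.y))
    (hSr : ∀ a ∈ M.S, ∀ b ∈ M.S, M.y • a = M.x • b → ∃ c ∈ M.S, a = M.x • c)
    {ρ : K →ₗ[k] k} {τ : A →ₗ[k] P2 k} (hR : ResD k K M.x M.y M.J M.d0 M.d1 ρ τ) :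
    ∃ G ∈ M.S, G.natDegree ≤ M.N ∧ (M.N.factorial : K) * al M.c ^ M.N * G.coeff M.N = al (M.cc M.N) := by
  have hN := M.N_pos
  have key : ∀ i : ℕ, 1 ≤ i → i ≤ M.N + 1 →
      ∃ Q0 Q1 : K[X], M.Good M.x Q0 ∧ M.Good M.y Q1 ∧ (Q0 - Q1).degree < (M.N + 1 - i : ℕ) := by
    intro i hi
    induction i, hi using Nat.le_induction with
    | base =>
      intro _
      obtain ⟨⟨qx, hqx⟩, ⟨qy, hqy⟩⟩ := M.exists_adapted
      refine ⟨qx M.N, qy M.N, hqx.good, hqy.good, ?_⟩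
      have e1 := hqx.good.coeff_eq hqy.good
      have e2 : M.N + 1 - 1 = M.N := by omega
      rw [e2, degree_lt_iff_coeff_zero]
      intro m hm
      rw [coeff_sub]
      rcases Nat.lt_or_ge M.N m with h | h
      · rw [coeff_eq_zero_of_natDegree_lt (lt_of_le_of_lt hqx.good.2.1 h),
          coeff_eq_zero_of_natDegree_lt (lt_of_le_of_lt hqy.good.2.1 h), sub_self]
      · have : m = M.N := le_antisymm h hm
        rw [this, e1, sub_self]
    | succ i hi ih =>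
      intro hi2
      exact M.close_succ hr hf hSr hR hi (by omega) (ih (by omega))
  obtain ⟨Q0, Q1, h0, h1, hS⟩ := key (M.N + 1) (by omega) le_rfl
  rw [Nat.sub_self] at hS
  have e : Q0 = Q1 := by
    have h2 : (Q0 - Q1).degree < ((0 : ℕ) : WithBot ℕ) := hS
    by_contra hne
    have h3 : Q0 - Q1 ≠ 0 := sub_ne_zero.mpr hne
    rw [degree_eq_natDegree h3] at h2
    exact absurd (WithBot.coe_lt_coe.1 h2) (Nat.not_lt_zero _)
  refine ⟨Q0, M.stp_inter hSr h0.1 ?_, h0.2.1, h0.2.2⟩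
  rw [e]
  exact h1.1

end Pool.Agent.MIY
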