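import Pool.Agent.MIY.GlueC
import Pool.Agent.MIY.IotE
import Pool.Agent.MIY.Br1
import Pool.Agent.MIY.Env1
import Pool.Agent.MIY.KDer
import Pool.Agent.MIY.Div2
import Pool.Agent.MIY.Res
import Pool.Agent.MIY.Stp2
import Pool.Agent.MIY.Defs2
import Pool.Agent.MIY.MkM2
import Pool.Agent.MIY.FDef

/-!
# MIY: existence of `G` over `cc N` for every irreducible locally nilpotent derivation of `k[x,y,z]`
-/

set_option autoImplicit false
set_option linter.unusedSectionVars false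

open Polynomial

namespace Pool.Agent.MIY

open Pool.Agent.LNDF Pool.Agent.LNDHom

section

variable {k : Type} [Field k] [CharZero k] {D : Derivation k (B3 k) (B3 k)}

theorem glue_ioG {r : B3 k} {c : kerAlg D} {K : Type} [Field K] [Algebra (kerAlg D) K] [Algebra k K]
    {ι : B3 k →ₐ[k] K[X]} (h : Iot D r c K ι) : IoG D r c ι where
  inj := h.inj
  ev := h.ev
  r := h.r
  D := h.D

theorem glue_sub {X Y : kerAlg D} (h : AlgebraicIndependent k ![X, Y]) :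
    AlgebraicIndependent k ![(X : B3 k), (Y : B3 k)] := by
  have h1 := h.map' (f := (kerAlg D).val) Subtype.val_injective
  have h2 : (⇑(kerAlg D).val ∘ ![X, Y]) = ![(X : B3 k), (Y : B3 k)] := by
    ext1 i
    fin_cases i <;> rfl
  rwa [h2] at h1

/-- a relation over `kerAlg D` is a relation over `B3 k` -/
theorem glue_alg {X Y : kerAlg D}
    (h : ∀ a : kerAlg D, ∃ F : Polynomial (A2 k), F ≠ 0 ∧
      F.eval₂ (MvPolynomial.aeval ![X, Y] : A2 k →ₐ[k] kerAlg D).toRingHom a = 0) (a : B3 k)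
    (ha : D a = 0) : ∃ F : (A2 k)[X], F ≠ 0 ∧
      F.eval₂ (MvPolynomial.aeval ![(X : B3 k), (Y : B3 k)] : A2 k →ₐ[k] B3 k).toRingHom a = 0 := by
  obtain ⟨F, hF, hFa⟩ := h ⟨a, ha⟩
  refine ⟨F, hF, ?_⟩
  have h1 := congrArg (kerAlg D).val hFa
  rw [map_zero] at h1
  rw [← h1]
  change _ = ((kerAlg D).val : kerAlg D →+* B3 k) _
  rw [hom_eval₂]
  congr 1
  refine MvPolynomial.ringHom_ext (fun r => ?_) fun i => ?_
  · simp
  · fin_cases i <;> simp

end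

/-- **EXISTENCE OF `G`** -/
theorem exists_G {k : Type} [Field k] [CharZero k] [IsAlgClosed k]
    (D : Derivation k (B3 k) (B3 k)) (hD : ∃ x, D x ≠ 0) (hln : ∀ x, ∃ n, (⇑D)^[n] x = 0)
    (hirr : ∀ p : B3 k, Prime p → D p = 0 → ∃ x, ¬ p ∣ D x) (A : Arith D) :
    ∃ G, (⇑D)^[A.N] G = A.cc A.N := by
  rcases glue_choice hD hln A with h | ⟨X, Y, hX, hY, hco, hind, hne, hxx, hyy⟩
  · exact h
  have hLN : LN D := ⟨hD, hln, hirr⟩
  have hU : UniqueFactorizationMonoid (kerAlg D) := fin4_ker_ufd hln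
  obtain ⟨δ0, δ1, hB⟩ := exists_brk hLN X Y
  have hE : Env2 k X Y (δ0 X) δ0 δ1 := env_of hLN hX hY hco hind hne hB
  obtain ⟨d0, hd0⟩ := exists_dK (FractionRing (kerAlg D)) δ0 hE.Jne
  obtain ⟨d1, hd1⟩ := exists_dK (FractionRing (kerAlg D)) δ1 hE.Jne
  obtain ⟨r, c, hc, hr⟩ : ∃ (r : B3 k) (c : kerAlg D), c ≠ 0 ∧ D r = c := by
    obtain ⟨r, h1, h2⟩ := Pool.Agent.LNDF.exists_deg D hD hln 1
    exact ⟨r, ⟨D r, h2⟩, fun h0 => h1 (congrArg Subtype.val h0), rfl⟩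
  obtain ⟨ι, hι⟩ := exists_iot hLN hc hr (FractionRing (kerAlg D))
  obtain ⟨ρ, τ, hRes⟩ := residue hE (FractionRing (kerAlg D)) d0 d1 hd0 hd1
  have hJK : (algebraMap (kerAlg D) (FractionRing (kerAlg D)) (δ0 X)) ≠ 0 := al_ne hE.Jne
  have hdX : d0 (al X) = 1 := mul_left_cancel₀ hJK (by rw [hd0, mul_one])
  have hdY : d0 (al Y) = 0 := mul_left_cancel₀ hJK (by rw [hd0, hE.d0Y, map_zero, mul_zero])
  have hd1X : d1 (al X) = 0 := mul_left_cancel₀ hJK (by rw [hd1, hE.d1X, map_zero, mul_zero])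
  have hd1Y : d1 (al Y) = 1 := mul_left_cancel₀ hJK (by rw [hd1, hE.d1Y, mul_one])
  obtain ⟨M, hM0, hM1, hMS, hMc, hMJ, hMN, hMcc, hMx, hMy⟩ := mkM2 hD hln A hc hr (glue_ioG hι) hX hY
    hE.Jne (glue_sub hind) (fun a ha => glue_alg hE.alg a ha) hxx hyy d0 d1 hdX hdY hd1X hd1Y
    (divg hLN hι hB hE.Jne ⟨hd0, hd1⟩)
  have hreg : Reg2 (mu k (kerAlg D) X) (mu k (kerAlg D) Y) := by
    refine ⟨fun m => ?_, fun m hm => ?_, fun a b h => ?_⟩
    · change X * (Y * m) = Y * (X * m)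
      ring
    · have h1 : X * m = 0 := hm
      exact (mul_eq_zero.1 h1).resolve_left hX
    · obtain ⟨e, he⟩ := hE.reg a b h
      exact ⟨e, he⟩
  have hcop : ∀ a b : B3 k, (Y : B3 k) * a = (X : B3 k) * b → ∃ e : B3 k, a = (X : B3 k) * e := by
    intro a b hab
    exact fin4_cop_of_ker hln hX hco.symm a ⟨b, hab⟩
  obtain ⟨G, -, hG⟩ := mk_back A hc (glue_ioG hι) hMS hMc hMN hMcc
    (M.main (by rw [hMx, hMy]; exact hreg) (by rw [hMx, hMy]; exact hE.fin) (by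
      rw [hMx, hMy, hMS]
      rintro _ ⟨a, rfl⟩ _ ⟨b, rfl⟩ hab
      have h1 : ι ((Y : B3 k) * a) = ι ((X : B3 k) * b) := by
        rw [map_mul, map_mul, hι.ev, hι.ev]
        have h2 : ∀ (z : kerAlg D) (p : (FractionRing (kerAlg D))[X]), z • p = C (al z) * p := by
          intro z p
          rw [← algebraMap_smul (FractionRing (kerAlg D)) z p, ← smul_eq_C_mul]
        rw [h2, h2] at hab
        exact hab
      obtain ⟨e, he⟩ := hcop a b (hι.inj h1)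
      refine ⟨ι e, ⟨e, rfl⟩, ?_⟩
      rw [he, map_mul, hι.ev, ← algebraMap_smul (FractionRing (kerAlg D)) X (ι e), ← smul_eq_C_mul])
      (ρ := ρ) (τ := τ) (by rw [hMx, hMy, hMJ, hM0, hM1]; exact hRes))
  exact ⟨G, hG⟩

end Pool.Agent.MIY
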