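import Pool.Agent.MIY.Cho
import Pool.Agent.MIY.Fin4
import Pool.Agent.LNDF.Ar4

/-!
# MIY: the choice of `X`, `Y` in all the ideals `J n`, `n ≤ N` (H/821812_MIY_37, section 1)
-/

set_option autoImplicit false
set_option linter.unusedSectionVars false

namespace Pool.Agent.MIY

open Pool.Agent.LNDHom Pool.Agent.LNDF Pool.Agent.LNDT

section gen

variable {k B : Type} [Field k] [CharZero k] [CommRing B] [IsDomain B] [Algebra k B]
  {D : Derivation k B B}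

theorem glue_mul (a : kerAlg D) (n : ℕ) (x : B) : (⇑D)^[n] ((a : B) * x) = (a : B) * (⇑D)^[n] x := by
  induction n with
  | zero => rfl
  | succ n ih =>
    rw [Function.iterate_succ', Function.comp_apply, Function.comp_apply, ih,
      Derivation.leibniz, show D (a : B) = 0 from a.2, smul_zero, add_zero, smul_eq_mul]

/-- the ideal `J n`: `I n = cc n * J n` -/
def glueJ (A : Arith D) (n : ℕ) : Ideal (kerAlg D) where
  carrier := {a | ∃ x, (⇑D)^[n + 1] x = 0 ∧ (⇑D)^[n] x = A.cc n * a}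
  add_mem' := by
    rintro a b ⟨x, hx0, hx⟩ ⟨y, hy0, hy⟩
    refine ⟨x + y, ?_, ?_⟩
    · rw [iterate_map_add, hx0, hy0, add_zero]
    · rw [iterate_map_add, hx, hy]
      push_cast
      ring
  zero_mem' := ⟨0, by rw [iterate_map_zero], by rw [iterate_map_zero]; simp⟩
  smul_mem' := by
    rintro a b ⟨x, hx0, hx⟩
    refine ⟨a * x, ?_, ?_⟩
    · rw [glue_mul, hx0, mul_zero]
    · rw [glue_mul, hx, smul_eq_mul]
      push_cast
      ring

theorem mem_glueJ (A : Arith D) (n : ℕ) (a : kerAlg D) :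
    a ∈ glueJ A n ↔ ∃ x, (⇑D)^[n + 1] x = 0 ∧ (⇑D)^[n] x = A.cc n * a := Iff.rfl

theorem glueJ_sharp [UniqueFactorizationMonoid B] (hln : ∀ x, ∃ n, (⇑D)^[n] x = 0) (A : Arith D)
    (n : ℕ) (p : kerAlg D) (hp : Prime p) : ∃ a ∈ glueJ A n, ¬ p ∣ a := by
  have hcc := A.isCC n
  obtain ⟨x, hx, hx'⟩ := hcc.sharp (p : B) (fin4_prime_of_ker hln hp)
  obtain ⟨a, ha⟩ := hcc.dvd x hx
  have haD : D a = 0 := by
    have h1 : D ((⇑D)^[n] x) = 0 := by
      rw [← Function.iterate_succ_apply' (f := ⇑D)]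
      exact hx
    rw [ha, Derivation.leibniz, hcc.const, smul_zero, add_zero, smul_eq_mul] at h1
    exact (mul_eq_zero.1 h1).resolve_left hcc.ne
  refine ⟨⟨a, haD⟩, ⟨x, hx, ha⟩, fun hd => hx' ?_⟩
  have h1 : (p : B) ∣ a := (dvd_ker hln (u := p) (y := (⟨a, haD⟩ : kerAlg D))).2 hd
  rw [ha]
  exact mul_dvd_mul_left _ h1

theorem glueJ_ne (hD : ∃ x, D x ≠ 0) (hln : ∀ x, ∃ n, (⇑D)^[n] x = 0) (A : Arith D) (n : ℕ) :
    ∃ a ∈ glueJ A n, a ≠ 0 := by
  have hcc := A.isCC n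
  obtain ⟨x, hx1, hx⟩ := Pool.Agent.LNDF.exists_deg D hD hln n
  obtain ⟨a, ha⟩ := hcc.dvd x hx
  have haD : D a = 0 := by
    have h1 : D ((⇑D)^[n] x) = 0 := by
      rw [← Function.iterate_succ_apply' (f := ⇑D)]
      exact hx
    rw [ha, Derivation.leibniz, hcc.const, smul_zero, add_zero, smul_eq_mul] at h1
    exact (mul_eq_zero.1 h1).resolve_left hcc.ne
  refine ⟨⟨a, haD⟩, ⟨x, hx, ha⟩, fun h0 => hx1 ?_⟩
  have h2 : a = 0 := congrArg Subtype.val h0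
  rw [ha, h2, mul_zero]

/-- **the choice**: either `G` exists or there are `X`, `Y` -/
theorem glue_choice [UniqueFactorizationMonoid B] (hD : ∃ x, D x ≠ 0)
    (hln : ∀ x, ∃ n, (⇑D)^[n] x = 0) (A : Arith D) :
    (∃ G, (⇑D)^[A.N] G = A.cc A.N) ∨
      ∃ X Y : kerAlg D, X ≠ 0 ∧ Y ≠ 0 ∧ IsRelPrime X Y ∧ AlgebraicIndependent k ![X, Y] ∧
        Ideal.span {X, Y} ≠ ⊤ ∧
        (∀ n ≤ A.N, ∃ x, (⇑D)^[n + 1] x = 0 ∧ (⇑D)^[n] x = A.cc n * X) ∧
        (∀ n ≤ A.N, ∃ x, (⇑D)^[n + 1] x = 0 ∧ (⇑D)^[n] x = A.cc n * Y) := by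
  classical
  have := fin4_ker_ufd (D := D) hln
  let J : Ideal (kerAlg D) := ∏ n ∈ Finset.range (A.N + 1), glueJ A n
  have hJ : ∀ p : kerAlg D, Prime p → ∃ a ∈ J, ¬ p ∣ a :=
    cho_prod _ _ fun n _ p hp => glueJ_sharp hln A n p hp
  have hJ0 : J ≠ ⊥ := by
    choose a ha ha0 using fun n => glueJ_ne hD hln A n
    intro h0
    have h1 : ∏ n ∈ Finset.range (A.N + 1), a n ∈ J := Ideal.prod_mem_prod fun n _ => ha n
    rw [h0, Ideal.mem_bot] at h1
    obtain ⟨n, -, hn⟩ := Finset.prod_eq_zero_iff.1 h1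
    exact ha0 n hn
  have hle : ∀ n ≤ A.N, J ≤ glueJ A n := fun n hn =>
    Ideal.prod_le_inf.trans (Finset.inf_le (Finset.mem_range.2 (by omega)))
  have hone : ∀ I : Ideal (kerAlg D), I ≤ glueJ A A.N → (1 : kerAlg D) ∈ I →
      ∃ G, (⇑D)^[A.N] G = A.cc A.N := by
    intro I hI h1
    obtain ⟨x, -, hx⟩ := hI h1
    exact ⟨x, by rw [hx]; simp⟩
  rcases cho (k := k) J hJ0 hJ with h | ⟨X, hX, Y, hY, hX0, hY0, hrel, hind⟩
  · exact Or.inl (hone J (hle _ le_rfl) (by rw [h]; exact Submodule.mem_top))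
  · by_cases hne : Ideal.span {X, Y} = ⊤
    · refine Or.inl (hone (Ideal.span {X, Y}) ?_ (by rw [hne]; exact Submodule.mem_top))
      rw [Ideal.span_le]
      rintro z (rfl | rfl)
      · exact hle _ le_rfl hX
      · exact hle _ le_rfl hY
    · exact Or.inr ⟨X, Y, hX0, hY0, hrel, hind, hne, fun n hn => hle n hn hX,
        fun n hn => hle n hn hY⟩

end gen

end Pool.Agent.MIY
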