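import Mathlib
import Pool.Agent.MIY.Tr2
import Pool.Agent.MIY.Defs2
import Pool.Agent.MIY.AsmA

set_option autoImplicit false

/-!
# MIY/GlueD: joints between the bracket, the embedding and the model
-/

open Polynomial

namespace Pool.Agent.MIY

open Pool.Agent.LNDHom
open Pool.Agent.LNDF (A2 B3 mc)

section

variable {k : Type} [Field k] {D : Derivation k (B3 k) (B3 k)} {K : Type} [Field K]
  [Algebra (kerAlg D) K] [Algebra k K] {r : B3 k} {c : kerAlg D} {ι : B3 k →ₐ[k] K[X]}

theorem Iot.toIoG (h : Iot D r c K ι) : IoG D r c ι := ⟨h.inj, h.ev, h.r, h.D⟩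

end

section

variable {k : Type} [Field k] [CharZero k] {D : Derivation k (B3 k) (B3 k)}

/-- an element of the kernel is algebraic over two other ones -/
theorem glueD_alg (hD0 : ∃ x, D x ≠ 0) {X Y : B3 k} (hX : D X = 0) (hY : D Y = 0)
    (a : B3 k) (ha : D a = 0) :
    ∃ F : (A2 k)[X], F ≠ 0 ∧
      F.eval₂ (MvPolynomial.aeval ![X, Y] : A2 k →ₐ[k] B3 k).toRingHom a = 0 := by
  have h1 := no_three D hD0 ha hX hY
  rw [algebraicIndependent_iff] at h1
  push Not at h1
  obtain ⟨p, hp0, hp⟩ := h1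
  refine ⟨MvPolynomial.finSuccEquiv k 2 p, ?_, ?_⟩
  · intro h
    exact hp ((MvPolynomial.finSuccEquiv k 2).injective (by rw [h, map_zero]))
  · let φ : (MvPolynomial (Fin 2) k)[X] →ₐ[k] B3 k :=
      Polynomial.eval₂AlgHom (MvPolynomial.aeval ![X, Y] : A2 k →ₐ[k] B3 k) a
        (fun _ => Commute.all _ _)
    have hφ : φ.comp (MvPolynomial.finSuccEquiv k 2 : MvPolynomial (Fin 3) k →ₐ[k] _) =
        MvPolynomial.aeval ![a, X, Y] := by
      apply MvPolynomial.algHom_ext
      intro i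
      refine Fin.cases ?_ (fun j => ?_) i
      · simp [φ, MvPolynomial.finSuccEquiv_X_zero]
      · simp [φ, MvPolynomial.finSuccEquiv_X_succ]
    have h2 := DFunLike.congr_fun hφ p
    rw [hp0] at h2
    exact h2

omit [CharZero k] in
/-- independence in the kernel is independence in the polynomial ring -/
theorem glueD_val {X Y : kerAlg D} (h : AlgebraicIndependent k ![X, Y]) :
    AlgebraicIndependent k ![(X : B3 k), (Y : B3 k)] := by
  have h1 := h.map' (f := (kerAlg D).val) Subtype.val_injective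
  have h2 : (⇑(kerAlg D).val ∘ ![X, Y]) = ![(X : B3 k), (Y : B3 k)] := by
    funext i
    fin_cases i <;> rfl
  rwa [h2] at h1

end

section

variable {k : Type} [Field k] {A : Type} [CommRing A] [Algebra k A]
  {K : Type} [Field K] [Algebra A K] [IsFractionRing A K] [Algebra k K]

/-- the derivations of `K` of the bracket are dual to `X`, `Y` -/
theorem glue_d {X Y : A} {δ0 δ1 : Derivation k A A} {d0 d1 : Derivation k K K}
    (hd : Kd K (δ0 X) δ0 δ1 d0 d1) (hJ : δ0 X ≠ 0) (h1 : δ0 Y = 0) (h2 : δ1 X = 0)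
    (h3 : δ1 Y = δ0 X) :
    d0 (algebraMap A K X) = 1 ∧ d0 (algebraMap A K Y) = 0 ∧ d1 (algebraMap A K X) = 0 ∧
      d1 (algebraMap A K Y) = 1 := by
  have hJK : algebraMap A K (δ0 X) ≠ 0 := by
    intro h
    exact hJ ((IsFractionRing.injective A K) (by rw [h, map_zero]))
  refine ⟨?_, ?_, ?_, ?_⟩
  · apply mul_left_cancel₀ hJK
    rw [hd.e0, mul_one]
  · apply mul_left_cancel₀ hJK
    rw [hd.e0, h1, map_zero, mul_zero]
  · apply mul_left_cancel₀ hJK
    rw [hd.e1, h2, map_zero, mul_zero]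
  · apply mul_left_cancel₀ hJK
    rw [hd.e1, h3, mul_one]

end

end Pool.Agent.MIY
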