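import Mathlib
import Pool.Agent.MIY.Sur2

/-!
Hypothesis `hX` of `dual` for the modules of elements of degree `< i` and `< N` of `M.S`: dual families up to
a power of `d`, from an adapted family over `A[1/d]`.
-/

set_option autoImplicit false
set_option linter.unusedSectionVars false

open Polynomial

namespace Pool.Agent.MIY

open Pool.Agent.LNDF

variable {k A K : Type} [Field k] [CharZero k] [CommRing A] [IsDomain A] [Algebra k A] [Field K] [Algebra A K]
  [IsFractionRing A K] [Algebra k K] [CharZero K]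

/-- a uniform exponent for a finite family -/
theorem hX_unif (M : M2 k A K) (d : A) (i : ℕ) (g : ℕ → K[X]) (h : ∀ l < i, M.InS d (g l)) :
    ∃ s : ℕ, ∀ l < i, ∀ t, s ≤ t → C (Pool.Agent.MIY.al (d ^ t)) * g l ∈ M.S := by
  induction i with
  | zero => exact ⟨0, fun l hl => absurd hl (by omega)⟩
  | succ i ih =>
    obtain ⟨s, hs⟩ := ih fun l hl => h l (by omega)
    obtain ⟨s', hs'⟩ := h i (by omega)
    refine ⟨max s s', fun l hl t ht => ?_⟩
    rcases Nat.lt_or_ge l i with h1 | h1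
    · exact hs l h1 t (le_trans (le_max_left _ _) ht)
    · have hli : l = i := by omega
      subst hli
      obtain ⟨r, rfl⟩ := Nat.exists_eq_add_of_le (le_trans (le_max_right s s') ht)
      have h2 : C (Pool.Agent.MIY.al (d ^ (s' + r))) * g l =
          C (Pool.Agent.MIY.al (d ^ r)) * (C (Pool.Agent.MIY.al (d ^ s')) * g l) := by
        simp only [Pool.Agent.MIY.al, pow_add, map_mul]
        ring
      rw [h2]
      exact M.S.mul_mem (M.C_al_mem _) hs'

theorem hX_R_sum (M : M2 k A K) {d : A} {Q : K[X]} (hQ : M.Good d Q) (s : Finset ℕ)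
    (g : ℕ → K[X]) : M.R Q (∑ l ∈ s, g l) = ∑ l ∈ s, M.R Q (g l) := by
  classical
  induction s using Finset.induction_on with
  | empty =>
    have := M.R_C_mul hQ 0 0
    rw [mul_zero, zero_mul] at this
    rw [Finset.sum_empty, Finset.sum_empty, this]
  | insert a s ha ih => rw [Finset.sum_insert ha, Finset.sum_insert ha, M.R_add hQ, ih]

/-- the dual families. `hint`: the pairing takes values in `A`. -/
theorem M2.exists_hX (M : M2 k A K) {d : A} (hd : d ≠ 0) {β : ℕ → K[X]} (h : M.Adapted d β) {Q : K[X]}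
    (hQ : M.Good d Q) (i : ℕ) (hi : i ≤ M.N)
    (hint : ∀ b ∈ M.S, ∀ g ∈ M.S, b.degree < (i : ℕ) → g.degree < (M.N : ℕ) →
      ∃ a : A, M.R Q (b * g) = Pool.Agent.MIY.al a) :
    ∃ n0 : ℕ, ∀ n, n0 ≤ n → ∃ f g : Fin i → K[X],
      (∀ l, f l ∈ M.S ∧ (f l).degree < (i : ℕ)) ∧ (∀ l, g l ∈ M.S ∧ (g l).degree < (M.N : ℕ)) ∧
      (∀ l l', M.R Q (f l * g l') = if l = l' then Pool.Agent.MIY.al (d ^ n) else 0) ∧
      ∀ z ∈ M.S, z.degree < (i : ℕ) → ∃ a : Fin i → A,
        C (Pool.Agent.MIY.al (d ^ n)) * z = ∑ l, C (Pool.Agent.MIY.al (a l)) * f l := by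
  classical
  have hdn : ∀ m : ℕ, (Pool.Agent.MIY.al (d ^ m) : K) ≠ 0 := fun m => al_ne (K := K) (pow_ne_zero m hd)
  -- the dual elements
  have hV : ∀ l' : ℕ, ∃ V : K[X], M.InS d V ∧ V.degree < (M.N : ℕ) ∧
      ∀ l < i, M.R Q (β l * V) = if l = l' then 1 else 0 := by
    intro l'
    refine M.surj hd h hQ i hi (fun l => if l = l' then 1 else 0) fun l _ => ?_
    split_ifs
    · exact ⟨0, 1, by simp [Pool.Agent.MIY.al]⟩
    · exact ⟨0, 0, by simp [Pool.Agent.MIY.al]⟩
  choose V hVS hVd hVR using hV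
  obtain ⟨a, ha⟩ := hX_unif M d i β fun l hl => (h l (by omega)).1
  obtain ⟨b, hb⟩ := hX_unif M d i V fun l _ => hVS l
  have hβd : ∀ l < i, (β l).degree < (i : ℕ) := fun l hl =>
    lt_of_le_of_lt degree_le_natDegree (by exact_mod_cast lt_of_le_of_lt (h l (by omega)).2.1 hl)
  have hCd : ∀ (m : ℕ) (p : K[X]), (C (Pool.Agent.MIY.al (d ^ m) : K) * p).degree = p.degree :=
    fun m p => degree_C_mul (hdn m)
  refine ⟨a + b, fun n hn => ?_⟩
  obtain ⟨r, rfl⟩ := Nat.exists_eq_add_of_le hn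
  refine ⟨fun l => C (Pool.Agent.MIY.al (d ^ a)) * β l,
    fun l => C (Pool.Agent.MIY.al (d ^ (b + r))) * V l, fun l => ⟨ha l l.2 a le_rfl, ?_⟩,
    fun l => ⟨hb l l.2 (b + r) (Nat.le_add_right _ _), ?_⟩, fun l l' => ?_, fun z hz hzd => ?_⟩
  · rw [hCd]
    exact hβd l l.2
  · rw [hCd]
    exact hVd l
  · have h1 : C (Pool.Agent.MIY.al (d ^ a)) * β l * (C (Pool.Agent.MIY.al (d ^ (b + r))) * V l') =
        C (Pool.Agent.MIY.al (d ^ (a + b + r)) : K) * (β l * V l') := by
      simp only [Pool.Agent.MIY.al, pow_add, map_mul]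
      ring
    rw [h1, M.R_C_mul hQ, hVR l' l l.2]
    by_cases hl : l = l'
    · rw [if_pos (by rw [hl]), if_pos hl, mul_one]
    · rw [if_neg (fun h2 => hl (Fin.ext h2)), if_neg hl, mul_zero]
  · obtain ⟨c, hc, -⟩ := h.span hd i (by omega) z hzd
    -- the coefficients are values of the pairing
    have hcR : ∀ l < i, ∃ a' : A, (Pool.Agent.MIY.al (d ^ b) : K) * c l = Pool.Agent.MIY.al a' := by
      intro l hl
      obtain ⟨a', ha'⟩ := hint z hz _ (hb l hl b le_rfl) hzd (by rw [hCd]; exact hVd l)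
      refine ⟨a', ?_⟩
      rw [← ha']
      have h1 : z * (C (Pool.Agent.MIY.al (d ^ b)) * V l) =
          C (Pool.Agent.MIY.al (d ^ b) : K) * ∑ j ∈ Finset.range i, C (c j) * (β j * V l) := by
        conv_lhs => rw [hc]
        rw [Finset.sum_mul, Finset.mul_sum]
        refine Finset.sum_congr rfl fun j _ => ?_
        ring
      rw [h1, M.R_C_mul hQ, hX_R_sum M hQ]
      congr 1
      rw [Finset.sum_eq_single l]
      · rw [M.R_C_mul hQ, hVR l l hl, if_pos rfl, mul_one]
      · intro j hj hjl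
        rw [M.R_C_mul hQ, hVR l j (Finset.mem_range.1 hj), if_neg hjl, mul_zero]
      · intro hl'
        exact absurd (Finset.mem_range.2 hl) hl'
    choose! c' hc' using hcR
    refine ⟨fun l => d ^ r * c' l, ?_⟩
    conv_lhs => rw [hc]
    rw [Finset.mul_sum, ← Fin.sum_univ_eq_sum_range
      (fun l => C (Pool.Agent.MIY.al (d ^ (a + b + r))) * (C (c l) * β l)) i]
    refine Finset.sum_congr rfl fun l _ => ?_
    have h2 := hc' l l.2
    have h3 : (Pool.Agent.MIY.al (d ^ r * c' l) : K) = Pool.Agent.MIY.al (d ^ r) *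
        (Pool.Agent.MIY.al (d ^ b) * c l) := by
      rw [h2]
      simp only [Pool.Agent.MIY.al, map_mul]
    rw [h3]
    simp only [Pool.Agent.MIY.al, pow_add, map_mul]
    ring

end Pool.Agent.MIY
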