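import Pool.Agent.MIY.Defs2

set_option autoImplicit false

open Polynomial

namespace Pool.Agent.MIY

open Pool.Agent.LNDF Pool.Agent.LNDHom

variable {k : Type} [Field k] [CharZero k] {D : Derivation k (B3 k) (B3 k)}
  {r : B3 k} {c : kerAlg D} {K : Type} [Field K] [Algebra (kerAlg D) K]
  [IsFractionRing (kerAlg D) K] [Algebra k K] [IsScalarTower k (kerAlg D) K] {ι : B3 k →ₐ[k] K[X]}

omit [CharZero k] [IsFractionRing (kerAlg D) K] [IsScalarTower k (kerAlg D) K] in
/-- IotB -/
theorem Iot.iter (h : Iot D r c K ι) (n : ℕ) (b : B3 k) :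
    ι ((⇑D)^[n] b) = C (algebraMap (kerAlg D) K c ^ n) * (⇑derivative)^[n] (ι b) := by
  induction n with
  | zero => simp
  | succ n ih =>
    rw [Function.iterate_succ_apply', h.D, ih, derivative_C_mul, Function.iterate_succ_apply',
      ← mul_assoc, ← C_mul, ← pow_succ']

theorem iotB_iter_eq_zero_iff {K : Type} [Field K] [CharZero K] (P : K[X]) (n : ℕ) :
    (⇑derivative)^[n] P = 0 ↔ P.degree < (n : ℕ) := by
  constructor
  · intro h
    by_contra hd
    push Not at hd
    have hP : P ≠ 0 := by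
      rintro rfl
      rw [degree_zero] at hd
      exact absurd hd (by simp)
    have h1 : n ≤ P.natDegree := by
      rw [degree_eq_natDegree hP] at hd
      exact_mod_cast hd
    have h2 := congrArg (fun Q => coeff Q (P.natDegree - n)) h
    simp only [coeff_iterate_derivative, coeff_zero, Nat.sub_add_cancel h1, nsmul_eq_mul] at h2
    rcases mul_eq_zero.1 h2 with h3 | h3
    · rw [Nat.cast_eq_zero, Nat.descFactorial_eq_zero_iff_lt] at h3
      omega
    · exact hP (leadingCoeff_eq_zero.1 h3)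
  · intro h
    rcases eq_or_ne P 0 with rfl | hP
    · simp
    · rw [degree_eq_natDegree hP] at h
      exact iterate_derivative_eq_zero (by exact_mod_cast h)

omit [CharZero k] [Algebra k K] [IsScalarTower k (kerAlg D) K] in
theorem iotB_ne {a : kerAlg D} (ha : a ≠ 0) : algebraMap (kerAlg D) K a ≠ 0 := fun h =>
  ha (IsFractionRing.injective (kerAlg D) K (by rw [h, map_zero]))

omit [IsScalarTower k (kerAlg D) K] in
/-- IotB -/
theorem Iot.deg_lt_iff (h : Iot D r c K ι) (n : ℕ) (b : B3 k) :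
    (ι b).degree < (n : ℕ) ↔ (⇑D)^[n] b = 0 := by
  have : CharZero K := charZero_of_injective_algebraMap (algebraMap k K).injective
  rw [← iotB_iter_eq_zero_iff, ← map_eq_zero_iff ι h.inj, h.iter, mul_eq_zero, C_eq_zero,
    or_iff_right (pow_ne_zero n (iotB_ne h.cne))]

omit [IsScalarTower k (kerAlg D) K] in
/-- IotB -/
theorem Iot.deg_iff (h : Iot D r c K ι) (n : ℕ) (b : B3 k) :
    (ι b).natDegree ≤ n ↔ (⇑D)^[n + 1] b = 0 := by
  rw [← h.deg_lt_iff, natDegree_le_iff_degree_le]
  rw [show ((n + 1 : ℕ) : WithBot ℕ) = Order.succ ((n : ℕ) : WithBot ℕ) from rfl]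
  exact (Order.lt_succ_iff_of_not_isMax (by simp)).symm

omit [CharZero k] [IsFractionRing (kerAlg D) K] [IsScalarTower k (kerAlg D) K] in
/-- IotB -/
theorem Iot.top (h : Iot D r c K ι) (n : ℕ) (b : B3 k) (hb : (ι b).natDegree ≤ n) :
    ι ((⇑D)^[n] b) = C ((n.factorial : K) * algebraMap (kerAlg D) K c ^ n * (ι b).coeff n) := by
  rw [h.iter]
  ext m
  rw [coeff_C_mul, coeff_iterate_derivative, coeff_C, nsmul_eq_mul]
  split_ifs with h
  · subst h
    rw [zero_add, Nat.descFactorial_self]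
    ring
  · rw [coeff_eq_zero_of_natDegree_lt (by omega)]
    ring

omit [CharZero k] [IsScalarTower k (kerAlg D) K] in
/-- IotB -/
theorem Iot.denom (h : Iot D r c K ι) (P : K[X]) :
    ∃ (a : kerAlg D) (b : B3 k), a ≠ 0 ∧ ι b = C (algebraMap (kerAlg D) K a) * P := by
  induction P using Polynomial.induction_on' with
  | add P Q hP hQ =>
    obtain ⟨a, b, ha, hb⟩ := hP
    obtain ⟨a', b', ha', hb'⟩ := hQ
    refine ⟨a * a', (a' : B3 k) * b + (a : B3 k) * b', mul_ne_zero ha ha', ?_⟩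
    rw [map_add, map_mul, map_mul, h.ev, h.ev, hb, hb', map_mul, C_mul]
    ring
  | monomial n x =>
    obtain ⟨p, s, hs, rfl⟩ := IsFractionRing.div_surjective (A := kerAlg D) x
    have hs0 : s ≠ 0 := nonZeroDivisors.ne_zero hs
    refine ⟨s, (p : B3 k) * r ^ n, hs0, ?_⟩
    rw [map_mul, map_pow, h.ev, h.r, C_mul_monomial, ← C_mul_X_pow_eq_monomial]
    congr 2
    rw [mul_div_cancel₀ _ (iotB_ne hs0)]

omit [IsScalarTower k (kerAlg D) K] in
/-- IotB -/
theorem Iot.inter (h : Iot D r c K ι) (x : K) (b : B3 k) (hb : ι b = C x) :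
    ∃ a : kerAlg D, b = a ∧ algebraMap (kerAlg D) K a = x := by
  have hD : D b = 0 := by
    have h1 := (h.deg_iff 0 b).1 (by rw [hb, natDegree_C])
    simpa using h1
  refine ⟨⟨b, hD⟩, rfl, ?_⟩
  have h2 := h.ev ⟨b, hD⟩
  rw [show ((⟨b, hD⟩ : kerAlg D) : B3 k) = b from rfl, hb] at h2
  exact (C_injective h2).symm

end Pool.Agent.MIY
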