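import Mathlib
import Pool.Agent.MIY.Phi2
import Pool.Agent.MIY.FDef
import Pool.Agent.MIY.RSpl

/-!
# MIY/Lam2: the residues of `b * S` over `A` lie in `(x^n, y^n)` (14)

From the key step `M2.key` for the functionals `z ↦ ρ (a * z)`, and `res_split`.
-/

set_option autoImplicit false
set_option linter.unusedVariables false
set_option linter.unusedSectionVars false

open Polynomial

namespace Pool.Agent.MIY

section

variable {k A K : Type} [Field k] [CharZero k] [CommRing A] [IsDomain A] [Algebra k A] [Field K]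
  [Algebra A K] [IsFractionRing A K] [Algebra k K] [CharZero K] [IsScalarTower k A K]

/-- `ρ` kills `A[1/X] / J` -/
theorem lam2_killX {X Y J : A} {d0 d1 : Derivation k K K} {ρ : K →ₗ[k] k} {τ : A →ₗ[k] P2 k}
    (hR : ResD k K X Y J d0 d1 ρ τ) (hX : X ≠ 0) (z : K) (hz : InA X z) :
    ρ (z / al J) = 0 := by
  obtain ⟨s, a, ha⟩ := hz
  have h := hR.tay a s 0
  rw [if_pos (Or.inr rfl), pow_zero, mul_one] at h
  have hX' : (algebraMap A K X) ^ s ≠ 0 := pow_ne_zero _ (al_ne (K := K) hX)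
  have h1 : z = algebraMap A K a / algebraMap A K X ^ s := by
    rw [eq_div_iff hX', mul_comm]
    simpa only [al, map_pow] using ha
  have h2 : z / al J = algebraMap A K a / (algebraMap A K J * algebraMap A K X ^ s) := by
    rw [h1, div_div, mul_comm (algebraMap A K X ^ s)]
  rw [h2]
  exact h

/-- `ρ` kills `A[1/Y] / J` -/
theorem lam2_killY {X Y J : A} {d0 d1 : Derivation k K K} {ρ : K →ₗ[k] k} {τ : A →ₗ[k] P2 k}
    (hR : ResD k K X Y J d0 d1 ρ τ) (hY : Y ≠ 0) (z : K) (hz : InA Y z) :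
    ρ (z / al J) = 0 := by
  obtain ⟨s, a, ha⟩ := hz
  have h := hR.tay a 0 s
  rw [if_pos (Or.inl rfl), pow_zero, mul_one] at h
  have hY' : (algebraMap A K Y) ^ s ≠ 0 := pow_ne_zero _ (al_ne (K := K) hY)
  have h1 : z = algebraMap A K a / algebraMap A K Y ^ s := by
    rw [eq_div_iff hY', mul_comm]
    simpa only [al, map_pow] using ha
  have h2 : z / al J = algebraMap A K a / (algebraMap A K J * algebraMap A K Y ^ s) := by
    rw [h1, div_div, mul_comm (algebraMap A K Y ^ s)]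
  rw [h2]
  exact h

/-- Lam2: from `M2.key` for `z ↦ ρ (al a * z)`, `integral`, `res_split` -/
theorem M2.lam2 (M : M2 k A K) (hr : Reg2 (mu k A M.x) (mu k A M.y))
    (hf : Fg2 (mu k A M.x) (mu k A M.y)) {ρ : K →ₗ[k] k} {τ : A →ₗ[k] P2 k}
    (hR : ResD k K M.x M.y M.J M.d0 M.d1 ρ τ) {Q0 Q1 : K[X]} (h0 : M.Good M.x Q0)
    (h1 : M.Good M.y Q1) {i : ℕ} (hi : 1 ≤ i) (hiN : i ≤ M.N)
    (hS : (Q0 - Q1).degree < (M.N + 1 - i : ℕ)) (n : ℕ) (s : K[X])
    (hs : s = C (al (M.x ^ n * M.y ^ n)) * (Q0 - Q1)) (hsS : s ∈ M.S) (b : K[X]) (hb : b ∈ M.Fs i)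
    (z : A) (hz : (al z : K) = M.R Q0 (b * s)) : ∃ u v : A, z = M.x ^ n * u + M.y ^ n * v := by
  refine res_split hR hf hr n (M.R Q0 (b * (Q0 - Q1))) z ?_ ?_
  · have e1 : b * s = C (al (M.x ^ n * M.y ^ n)) * (b * (Q0 - Q1)) := by
      rw [hs]
      ring
    have e2 : (al z : K) = al (M.x ^ n * M.y ^ n) * M.R Q0 (b * (Q0 - Q1)) := by
      rw [hz, e1, M.R_C_mul h0]
    have e3 : (al (M.x ^ n * M.y ^ n) : K) = algebraMap A K M.x ^ n * algebraMap A K M.y ^ n := by
      simp only [al, map_mul, map_pow]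
    rw [← e3]
    exact e2
  · intro a
    have hbS := (M.mem_F i b).mp hb
    have hb1 : C (al a : K) * b ∈ M.S := M.S.mul_mem (M.C_al_mem a) hbS.1
    have hb2 : (C (al a : K) * b : K[X]).degree < ((i : ℕ) : WithBot ℕ) := by
      refine lt_of_le_of_lt ?_ hbS.2
      by_cases ha : (al a : K) = 0
      · rw [ha, C_0, zero_mul, degree_zero]
        exact bot_le
      · rw [degree_C_mul ha]
    have hk := M.key (V := k) ρ.toAddMonoidHom hR.r0 hR.r1 M.x_ne M.y_ne
      (fun w hw => lam2_killX hR M.x_ne w hw) (fun w hw => lam2_killY hR M.y_ne w hw)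
      h0 h1 i hi hiN hS (C (al a : K) * b) hb1 hb2
    have e : M.R Q0 (C (al a : K) * b * (Q0 - Q1)) = al a * M.R Q0 (b * (Q0 - Q1)) := by
      rw [mul_assoc, M.R_C_mul h0]
    rw [e] at hk
    exact hk

end

end Pool.Agent.MIY
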