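import Mathlib
import Pool.Agent.MIY.Fin4
import Pool.Agent.MIY.EA3

/-!
# MIY/Main4: Miyanishi's theorem from the freeness theorem

`D` is an irreducible locally nilpotent derivation of `k[x, y, z]`, `k` algebraically closed. If there is an
element over `cc N`, then the kernel is a polynomial ring in two variables.
-/

set_option autoImplicit false

open Polynomial

namespace Pool.Agent.MIY

open Pool.Agent.LNDHom Pool.Agent.LNDF Pool.Agent.LNDT

/-- Miyanishi's theorem, from an element over `cc N` -/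
theorem miy_of_G {k : Type} [Field k] [CharZero k] [IsAlgClosed k] (D : Derivation k (B3 k) (B3 k))
    (hD : ∃ x, D x ≠ 0) (hln : ∀ x, ∃ n, (⇑D)^[n] x = 0) (A : Arith D)
    (hG : ∃ G, (⇑D)^[A.N] G = A.cc A.N) :
    ∃ f g : B3 k, AlgebraicIndependent k ![f, g] ∧ ∀ b, D b = 0 ↔ b ∈ Algebra.adjoin k {f, g} := by
  obtain ⟨G, hG⟩ := hG
  obtain ⟨a, b, ha, -, hab⟩ := exists_two D hD hln
  have hac : ∀ c : k, a ≠ MvPolynomial.C c := by
    intro c hc
    have h1 : Transcendental k (![a, b] 0) := hab.transcendental 0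
    apply h1
    have : (![a, b] 0 : B3 k) = algebraMap k _ c := hc
    rw [this]
    exact isAlgebraic_algebraMap c
  have hF0 : CharZero (FractionRing (kerAlg D)) :=
    charZero_of_injective_algebraMap (algebraMap k (FractionRing (kerAlg D))).injective
  obtain ⟨c, δ, θ, d, I, h, H⟩ := idata_of_G D hD hln A hG ha hac (F := FractionRing (kerAlg D))
  exact ker_of_idata' H hD

/-- Miyanishi's theorem for irreducible derivations, from the freeness theorem for arbitrary kernels -/
theorem miy_of_free {k : Type} [Field k] [CharZero k] [IsAlgClosed k]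
    (free : ∀ D : Derivation k (B3 k) (B3 k), (∃ x, D x ≠ 0) → (∀ x, ∃ n, (⇑D)^[n] x = 0) →
      (∀ p : B3 k, Prime p → D p = 0 → ∃ x, ¬ p ∣ D x) → ∀ A : Arith D,
      ∃ G, (⇑D)^[A.N] G = A.cc A.N)
    (D : Derivation k (B3 k) (B3 k)) (hD : ∃ x, D x ≠ 0) (hln : ∀ x, ∃ n, (⇑D)^[n] x = 0)
    (hirr : ∀ p : B3 k, Prime p → D p = 0 → ∃ x, ¬ p ∣ D x) :
    ∃ f g : B3 k, AlgebraicIndependent k ![f, g] ∧ ∀ b, D b = 0 ↔ b ∈ Algebra.adjoin k {f, g} := by
  obtain ⟨A⟩ := exists_arith D hD hln hirr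
  exact miy_of_G D hD hln A (free D hD hln hirr A)

end Pool.Agent.MIY
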