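import Mathlib
import Pool.Agent.MIY.Defs
import Pool.Agent.MIY.Cmp

/-!
# The completed ring

From the completion `κ` of `A` in a lifted basis `e` of `A / (X, Y)` one gets the commutative ring `Ah`
with `P2 k`-basis the images of the `e j`: it is the algebra generated by the operators
`κ c ↦ κ (a c)`.
-/

set_option autoImplicit false

namespace Pool.Agent.MIY

open Pool.Agent.LNDF

section Mat1

variable {k A : Type} [Field k] [CommRing A] [Algebra k A] {X Y : A} {l : ℕ} {e : Fin l → A}

theorem mat1_pC_smul (r : k) (u : P2 k) : r • u = pC r * u := by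
  refine PowerSeries.ext fun n => PowerSeries.ext fun m => ?_
  rw [pC, PowerSeries.coeff_C_mul, PowerSeries.coeff_C_mul]
  rfl

theorem mat1_mu_pow (a : A) (n : ℕ) (u : A) : (mu k A a ^ n) u = a ^ n * u := by
  induction n with
  | zero => simp
  | succ n ih =>
    rw [pow_succ', Module.End.mul_apply, ih]
    show a • (a ^ n * u) = _
    rw [smul_eq_mul, pow_succ']
    ring

/-- multiplication by `a` in the completion -/
noncomputable def mat1_phi (e : Fin l → A) (κ : A →ₗ[k] (Fin l → P2 k)) (a : A) :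
    Module.End (P2 k) (Fin l → P2 k) where
  toFun u := ∑ j, u j • κ (a * e j)
  map_add' u v := by simp only [Pi.add_apply, add_smul, Finset.sum_add_distrib]
  map_smul' r u := by simp only [Pi.smul_apply, smul_eq_mul, mul_smul, Finset.smul_sum,
    RingHom.id_apply]

variable {κ : A →ₗ[k] (Fin l → P2 k)}

theorem mat1_phi_apply (a : A) (u : Fin l → P2 k) :
    mat1_phi e κ a u = ∑ j, u j • κ (a * e j) := rfl

theorem mat1_phi_base (hb : ∀ j, κ (e j) = Pi.single j 1) (a : A) (j : Fin l) :
    mat1_phi e κ a (κ (e j)) = κ (a * e j) := by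
  rw [mat1_phi_apply, hb]
  rw [Finset.sum_eq_single j]
  · simp
  · intro i _ hij
    simp [Pi.single_eq_of_ne hij]
  · simp

theorem mat1_ext (hb : ∀ j, κ (e j) = Pi.single j 1) {f g : Module.End (P2 k) (Fin l → P2 k)}
    (h : ∀ j, f (κ (e j)) = g (κ (e j))) : f = g := by
  apply LinearMap.pi_ext'
  intro j
  apply LinearMap.ext_ring
  have := h j
  rw [hb] at this
  exact this

variable (hκ : Cm (mu k A X) (mu k A Y) e κ)
  (huniv : ∀ ψ : A →ₗ[k] (Fin l → P2 k), (∀ a i, ψ (mu k A X a) i = pX * ψ a i) →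
    (∀ a i, ψ (mu k A Y a) i = pY * ψ a i) → ∀ a i, ψ a i = ∑ j, κ a j * ψ (e j) i)

include hκ huniv

theorem mat1_phi_mul (a c : A) : κ (a * c) = mat1_phi e κ a (κ c) := by
  have h := huniv (κ ∘ₗ (mu k A a)) (fun c i => by
      have h1 : a • X • c = X • a • c := smul_comm a X c
      show κ (a • X • c) i = pX * κ (a • c) i
      rw [h1]
      exact hκ.mx (a • c) i) (fun c i => by
      have h1 : a • Y • c = Y • a • c := smul_comm a Y c
      show κ (a • Y • c) i = pY * κ (a • c) i
      rw [h1]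
      exact hκ.my (a • c) i) c
  funext i
  rw [mat1_phi_apply, Finset.sum_apply]
  have h2 := h i
  show κ (a • c) i = _
  exact h2

/-- the ring homomorphism -/
noncomputable def mat1_hom : A →+* Module.End (P2 k) (Fin l → P2 k) where
  toFun := mat1_phi e κ
  map_one' := mat1_ext hκ.base fun j => by
    rw [mat1_phi_base hκ.base, one_mul, Module.End.one_apply]
  map_mul' a c := mat1_ext hκ.base fun j => by
    rw [mat1_phi_base hκ.base, Module.End.mul_apply, mat1_phi_base hκ.base, mul_assoc]
    exact mat1_phi_mul hκ huniv a (c * e j)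
  map_zero' := mat1_ext hκ.base fun j => by
    rw [mat1_phi_base hκ.base, zero_mul, map_zero, LinearMap.zero_apply]
  map_add' a c := mat1_ext hκ.base fun j => by
    rw [mat1_phi_base hκ.base, add_mul, map_add, LinearMap.add_apply, mat1_phi_base hκ.base,
      mat1_phi_base hκ.base]

theorem mat1_hom_apply (a c : A) : mat1_hom hκ huniv a (κ c) = κ (a * c) :=
  (mat1_phi_mul hκ huniv a c).symm

/-- `exists_hat` from the universal property of `κ` -/
theorem hat_of_cm : ∃ (Ah : Type) (_ : CommRing Ah) (_ : Algebra (P2 k) Ah)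
    (b : Module.Basis (Fin l) (P2 k) Ah) (i : A →+* Ah), Hat k X Y e Ah b i := by
  classical
  set φ := mat1_hom hκ huniv with hφ
  set S : Subalgebra (P2 k) (Module.End (P2 k) (Fin l → P2 k)) :=
    Algebra.adjoin (P2 k) (Set.range φ) with hS
  have hcomm : ∀ a ∈ Set.range φ, ∀ c ∈ Set.range φ, a * c = c * a := by
    rintro _ ⟨a, rfl⟩ _ ⟨c, rfl⟩
    rw [← map_mul, ← map_mul, mul_comm]
  letI : CommRing S := Algebra.adjoinCommRingOfComm (P2 k) hcomm
  -- evaluation at `κ 1`
  let ev : S →ₗ[P2 k] (Fin l → P2 k) :=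
    { toFun := fun s => s.1 (κ 1)
      map_add' := fun s t => rfl
      map_smul' := fun r s => rfl }
  have hmem : ∀ a, φ a ∈ S := fun a => Algebra.subset_adjoin ⟨a, rfl⟩
  have hcm : ∀ (s : S) (a : A), s.1 * φ a = φ a * s.1 := fun s a => by
    have := mul_comm s ⟨φ a, hmem a⟩
    exact congrArg Subtype.val this
  have hinj : Function.Injective ev := by
    rw [injective_iff_map_eq_zero]
    intro s hs
    apply Subtype.ext
    refine mat1_ext hκ.base fun j => ?_
    have h1 : κ (e j) = φ (e j) (κ 1) := by rw [hφ, mat1_hom_apply, mul_one]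
    have h2 : s.1 (κ 1) = 0 := hs
    rw [h1]
    have h3 : s.1 (φ (e j) (κ 1)) = φ (e j) (s.1 (κ 1)) := by
      rw [← Module.End.mul_apply, hcm, Module.End.mul_apply]
    rw [h3, h2, map_zero]
    rfl
  have hsurj : Function.Surjective ev := by
    intro u
    refine ⟨∑ j, u j • (⟨φ (e j), hmem _⟩ : S), ?_⟩
    rw [map_sum]
    simp only [map_smul]
    have h1 : ∀ j, ev ⟨φ (e j), hmem _⟩ = Pi.single j 1 := fun j => by
      show φ (e j) (κ 1) = _
      rw [hφ, mat1_hom_apply, mul_one, hκ.base]
    simp only [h1]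
    funext i
    simp [Finset.sum_apply, Pi.single_apply]
  let E : S ≃ₗ[P2 k] (Fin l → P2 k) := LinearEquiv.ofBijective ev ⟨hinj, hsurj⟩
  let b : Module.Basis (Fin l) (P2 k) S := Module.Basis.ofEquivFun E
  let i : A →+* S := φ.codRestrict S hmem
  have hrepr : ∀ (a : A) (j : Fin l), b.repr (i a) j = κ a j := fun a j => by
    show φ a (κ 1) j = _
    rw [hφ, mat1_hom_apply, mul_one]
  refine ⟨S, inferInstance, inferInstance, b, i, ?_, ?_, ?_, ?_, ?_⟩
  · intro j
    apply b.repr.injective
    ext m : 1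
    rw [hrepr, hκ.base, Module.Basis.repr_self, Finsupp.single_apply, Pi.single_apply]
    simp [eq_comm]
  · intro r
    apply Subtype.ext
    refine mat1_ext hκ.base fun j => ?_
    show φ (algebraMap k A r) (κ (e j)) = pC r • κ (e j)
    rw [hφ, mat1_hom_apply, ← Algebra.smul_def, map_smul]
    funext m
    exact mat1_pC_smul r _
  · apply Subtype.ext
    refine mat1_ext hκ.base fun j => ?_
    show φ X (κ (e j)) = (pX : P2 k) • κ (e j)
    rw [hφ, mat1_hom_apply]
    funext m
    exact hκ.mx (e j) m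
  · apply Subtype.ext
    refine mat1_ext hκ.base fun j => ?_
    show φ Y (κ (e j)) = (pY : P2 k) • κ (e j)
    rw [hφ, mat1_hom_apply]
    funext m
    exact hκ.my (e j) m
  · intro n a ha
    obtain ⟨u, v, huv⟩ := hκ.sat n a (fun j => by rw [← hrepr]; exact ha j)
    exact ⟨u, v, by rw [huv, mat1_mu_pow, mat1_mu_pow]⟩

end Mat1

section

variable {k A : Type} [Field k] [CommRing A] [IsDomain A] [Algebra k A] {X Y : A}

/-- Mat1 -/
theorem exists_hat (hX : X ≠ 0) (hreg : ∀ a b : A, Y * a = X * b → ∃ c, a = X * c) {l : ℕ}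
    {e : Fin l → A} (he : LB (mu k A X) (mu k A Y) e) :
    ∃ (Ah : Type) (_ : CommRing Ah) (_ : Algebra (P2 k) Ah) (b : Module.Basis (Fin l) (P2 k) Ah)
      (i : A →+* Ah), Hat k X Y e Ah b i := by
  have hR : Reg2 (mu k A X) (mu k A Y) := by
    refine ⟨fun m => ?_, fun m h => ?_, fun a b h => ?_⟩
    · show X • Y • m = Y • X • m
      exact smul_comm X Y m
    · have h1 : X * m = 0 := h
      exact (mul_eq_zero.mp h1).resolve_left hX
    · exact hreg a b h
  obtain ⟨κ, hκ⟩ := exists_cm hR he
  have hd : CData k X Y e := by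
    refine ⟨fun z h => hR.inj z h, fun z u h => hR.reg z u h, fun z => ?_, fun c u w h j => ?_⟩
    · obtain ⟨r, u, v, h⟩ := he.gen z
      exact ⟨r, u, v, h⟩
    · exact congrFun (he.ind c ⟨u, w, h⟩) j
  have hkap : ∀ z i, κ z i = hd.kap z i := fun z i => by
    have h1 := hd.factor ((LinearMap.proj i).comp κ) (fun z => hκ.mx z i) (fun z => hκ.my z i) z
    have h2 : κ z i = ∑ j, hd.kap z j * κ (e j) i := h1
    rw [h2]
    simp [hκ.base, Pi.single_apply]
  refine hat_of_cm hκ fun ψ h0 h1 a i => ?_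
  have h2 := hd.factor ((LinearMap.proj i).comp ψ) (fun z => h0 z i) (fun z => h1 z i) a
  have h3 : ψ a i = ∑ j, hd.kap a j * ψ (e j) i := h2
  rw [h3]
  exact Finset.sum_congr rfl fun j _ => by rw [hkap]

end

end Pool.Agent.MIY
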