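import Mathlib

/-! 821812, track MIY, module Mat2: commuting semisimple matrices over a field of characteristic 0.
`no_nil`: their algebra has no nilpotents; `exists_trace_ne`: its trace form is nondegenerate;
`exists_dual`: dual bases; `exists_inv_of_root`: inverses inside the algebra. -/

namespace Pool.Agent.MIY

open Polynomial Matrix Module

section Basic
variable {L n : Type*} [Field L] [Fintype n] [DecidableEq n]

theorem comm_adjoin {s : Set (Matrix n n L)} (hc : ∀ a ∈ s, ∀ b ∈ s, a * b = b * a)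
    {a b : Matrix n n L} (ha : a ∈ Algebra.adjoin L s) (hb : b ∈ Algebra.adjoin L s) :
    a * b = b * a := by
  have := Algebra.isMulCommutative_adjoin L hc
  have h := mul_comm' (⟨a, ha⟩ : Algebra.adjoin L s) ⟨b, hb⟩
  exact congrArg Subtype.val h

theorem comm_aeval (M : Matrix n n L) (g : L[X]) : aeval M g * M = M * aeval M g := by
  have h := congrArg (aeval M) (mul_comm g X)
  rwa [map_mul, map_mul, aeval_X] at h

/-- A matrix killed by a squarefree polynomial is semisimple. -/
theorem semisimple_of_squarefree {a : Matrix n n L} {F : L[X]} (hF : Squarefree F)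
    (h : aeval a F = 0) : Module.End.IsSemisimple (Matrix.toLinAlgEquiv' (R := L) (n := n) a) := by
  refine Module.End.isSemisimple_of_squarefree_aeval_eq_zero hF ?_
  have h1 := Polynomial.aeval_algHom_apply (Matrix.toLinAlgEquiv' (R := L) (n := n)).toAlgHom a F
  rw [h, map_zero] at h1
  exact h1

theorem semisimple_adjoin [CharZero L] {s : Set (Matrix n n L)}
    (hc : ∀ a ∈ s, ∀ b ∈ s, a * b = b * a)
    (hs : ∀ a ∈ s, Module.End.IsSemisimple (Matrix.toLinAlgEquiv' (R := L) (n := n) a)) {M : Matrix n n L}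
    (hM : M ∈ Algebra.adjoin L s) : Module.End.IsSemisimple (Matrix.toLinAlgEquiv' (R := L) (n := n) M) := by
  induction hM using Algebra.adjoin_induction with
  | mem x hx => exact hs x hx
  | algebraMap r =>
    rw [AlgEquiv.commutes]
    have := Module.End.IsSemisimple_smul (K := L) (M := n → L) r
      (Module.End.isSemisimple_id (R := L) (M := n → L))
    exact this
  | add x y hx hy h1 h2 =>
    rw [map_add]
    refine Module.End.IsSemisimple.add_of_commute ?_ h1 h2
    show _ * _ = _ * _
    rw [← map_mul, ← map_mul, comm_adjoin hc hx hy]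
  | mul x y hx hy h1 h2 =>
    rw [map_mul]
    refine Module.End.IsSemisimple.mul_of_commute ?_ h1 h2
    show _ * _ = _ * _
    rw [← map_mul, ← map_mul, comm_adjoin hc hx hy]

/-- (a) -/
theorem no_nil [CharZero L] (s : Set (Matrix n n L))
    (hc : ∀ a ∈ s, ∀ b ∈ s, a * b = b * a)
    (hs : ∀ a ∈ s, ∃ F : L[X], Squarefree F ∧ aeval a F = 0) {M : Matrix n n L}
    (hM : M ∈ Algebra.adjoin L s) (hn : IsNilpotent M) : M = 0 := by
  have h1 : Module.End.IsSemisimple (Matrix.toLinAlgEquiv' (R := L) (n := n) M) := semisimple_adjoin hc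
    (fun a ha => by
      obtain ⟨F, hF, h⟩ := hs a ha
      exact semisimple_of_squarefree hF h) hM
  have h2 := Module.End.eq_zero_of_isNilpotent_isSemisimple (hn.map Matrix.toLinAlgEquiv') h1
  exact (map_eq_zero_iff _ (Matrix.toLinAlgEquiv' (R := L) (n := n)).injective).1 h2

/-- An idempotent matrix of trace 0 in characteristic 0 is 0. -/
theorem eq_zero_of_idem [CharZero L] {e : Matrix n n L} (he : e * e = e) (ht : e.trace = 0) :
    e = 0 := by
  have h1 : IsIdempotentElem (Matrix.toLinAlgEquiv' e) := by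
    show _ * _ = _
    rw [← map_mul, he]
  have h2 : LinearMap.trace L (n → L) (Matrix.toLinAlgEquiv' e) = 0 := by
    rw [← ht]
    exact Matrix.trace_toLin'_eq e
  have h3 := (LinearMap.IsIdempotentElem.trace_eq_zero_iff h1).1 h2
  exact (map_eq_zero_iff _ (Matrix.toLinAlgEquiv' (R := L) (n := n)).injective).1 h3

/-- Every matrix has a power that divides the square of that power: `M ^ m = M ^ (m + 1) * g (M)`. -/
theorem exists_pow_eq (M : Matrix n n L) : ∃ (m : ℕ) (g : L[X]), M ^ m = M ^ (m + 1) * aeval M g := by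
  -- the minimal polynomial is X ^ m * q with q (0) ≠ 0
  obtain ⟨q, hq, hd⟩ := Polynomial.exists_eq_pow_rootMultiplicity_mul_and_not_dvd M.charpoly
    M.charpoly_monic.ne_zero 0
  set m := M.charpoly.rootMultiplicity 0
  rw [C_0, sub_zero] at hq hd
  have h0 : q.coeff 0 ≠ 0 := by
    intro h
    exact hd (X_dvd_iff.2 h)
  obtain ⟨r, hr⟩ : X ∣ q - C (q.coeff 0) := X_dvd_iff.2 (by simp)
  refine ⟨m, C (-(q.coeff 0)⁻¹) * r, ?_⟩
  have h1 : aeval M M.charpoly = 0 := Matrix.aeval_self_charpoly M
  have h2 : q = X * r + C (q.coeff 0) := by rw [← hr]; ring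
  have h3 : M ^ m * (M * aeval M r + algebraMap L _ (q.coeff 0)) = 0 := by
    have h4 : M ^ m * aeval M q = 0 := by
      rw [hq] at h1
      simpa using h1
    rw [h2] at h4
    simpa using h4
  have h5 : M ^ m * algebraMap L (Matrix n n L) (q.coeff 0) = - (M ^ (m + 1) * aeval M r) := by
    rw [mul_add, add_comm, ← mul_assoc, ← pow_succ] at h3
    exact eq_neg_of_add_eq_zero_left h3
  have h6 : algebraMap L (Matrix n n L) (q.coeff 0) * algebraMap L (Matrix n n L) (q.coeff 0)⁻¹ = 1 := by
    rw [← map_mul, mul_inv_cancel₀ h0, map_one]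
  calc M ^ m = M ^ m * algebraMap L (Matrix n n L) (q.coeff 0)
        * algebraMap L (Matrix n n L) (q.coeff 0)⁻¹ := by rw [mul_assoc, h6, mul_one]
    _ = - (M ^ (m + 1) * aeval M r) * algebraMap L (Matrix n n L) (q.coeff 0)⁻¹ := by rw [h5]
    _ = M ^ (m + 1) * aeval M (C (-(q.coeff 0)⁻¹) * r) := by
      rw [map_mul, aeval_C, map_neg, neg_mul, neg_mul, mul_neg, mul_assoc,
        Algebra.commutes (q.coeff 0)⁻¹ (aeval M r)]

theorem aeval_mem {A : Subalgebra L (Matrix n n L)} {M : Matrix n n L} (hM : M ∈ A) (g : L[X]) :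
    aeval M g ∈ A :=
  Polynomial.aeval_mem_adjoin_singleton L M |> fun h => Algebra.adjoin_le (by simpa using hM) h

/-- (b) The trace form of a commutative algebra of matrices without nilpotents (characteristic 0)
is nondegenerate. -/
theorem exists_trace_ne [CharZero L] (A : Subalgebra L (Matrix n n L))
    (hr : ∀ M ∈ A, IsNilpotent M → M = 0) {M : Matrix n n L}
    (hM : M ∈ A) (h0 : M ≠ 0) : ∃ N ∈ A, (M * N).trace ≠ 0 := by
  obtain ⟨m, g, hg⟩ := exists_pow_eq M
  set G := aeval M g
  have hGM : Commute M G := by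
    exact (comm_aeval M g).symm
  -- M ^ m = M ^ (m + k) * G ^ k
  have hk : ∀ k : ℕ, M ^ m = M ^ (m + k) * G ^ k := by
    intro k
    induction k with
    | zero => simp
    | succ k ih =>
      have h7 : M ^ (m + k) = M ^ (m + k + 1) * G := by
        rw [add_comm m k, pow_add, hg, ← mul_assoc, ← pow_add, ← add_assoc]
      calc M ^ m = M ^ (m + k) * G ^ k := ih
        _ = M ^ (m + k + 1) * G * G ^ k := by rw [h7]
        _ = _ := by rw [mul_assoc, ← pow_succ', ← add_assoc]
  by_cases hm : m = 0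
  · subst hm
    refine ⟨G, aeval_mem hM g, ?_⟩
    have h8 : M * G = 1 := by simpa using hg.symm
    intro ht
    have h9 : (1 : Matrix n n L) = 0 := eq_zero_of_idem (by simp) (by rw [← h8]; exact ht)
    apply h0
    rw [← mul_one M, h9, mul_zero]
  · -- e = (M G) ^ m is idempotent
    have he : M ^ m * G ^ m * (M ^ m * G ^ m) = M ^ m * G ^ m := by
      have h10 : M ^ m * G ^ m * (M ^ m * G ^ m) = M ^ (m + m) * G ^ m * G ^ m := by
        rw [pow_add, mul_assoc, ← mul_assoc (G ^ m), ((hGM.pow_pow m m).eq).symm]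
        simp only [mul_assoc]
      rw [h10, ← hk m]
    refine ⟨M ^ (m - 1) * G ^ m, A.mul_mem (A.pow_mem hM _) (A.pow_mem (aeval_mem hM g) _), ?_⟩
    have h11 : M * (M ^ (m - 1) * G ^ m) = M ^ m * G ^ m := by
      rw [← mul_assoc, ← pow_succ', Nat.sub_add_cancel (Nat.pos_of_ne_zero hm)]
    rw [h11]
    intro ht
    have h12 := eq_zero_of_idem he ht
    apply h0
    refine hr M hM ⟨m, ?_⟩
    rw [hk m, pow_add, mul_assoc, h12, mul_zero]

/-- (c) inverses -/
theorem exists_inv_of_root {M : Matrix n n L} {F : L[X]} (hF : aeval M F = 0)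
    (h0 : F.coeff 0 ≠ 0) : ∃ g : L[X], M * aeval M g = 1 ∧ aeval M g * M = 1 := by
  obtain ⟨r, hr⟩ : X ∣ F - C (F.coeff 0) := X_dvd_iff.2 (by simp)
  have h2 : F = X * r + C (F.coeff 0) := by rw [← hr]; ring
  have h3 : M * aeval M r + algebraMap L _ (F.coeff 0) = 0 := by
    rw [h2] at hF
    simpa using hF
  have h5 : M * aeval M r = - algebraMap L (Matrix n n L) (F.coeff 0) :=
    eq_neg_of_add_eq_zero_left h3
  have h6 : algebraMap L (Matrix n n L) (F.coeff 0) * algebraMap L (Matrix n n L) (F.coeff 0)⁻¹ = 1 := by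
    rw [← map_mul, mul_inv_cancel₀ h0, map_one]
  have h7 : M * aeval M (C (-(F.coeff 0)⁻¹) * r) = 1 := by
    rw [map_mul, aeval_C, map_neg, neg_mul, mul_neg, Algebra.commutes (F.coeff 0)⁻¹ (aeval M r),
      ← mul_assoc, h5, neg_mul, neg_neg, h6]
  refine ⟨C (-(F.coeff 0)⁻¹) * r, h7, ?_⟩
  have h8 : aeval M (C (-(F.coeff 0)⁻¹) * r) * M = M * aeval M (C (-(F.coeff 0)⁻¹) * r) := by
    exact comm_aeval M _
  rw [h8, h7]

/-! ### Gram matrix and dual basis -/

section Gram
variable {ι : Type*} [Fintype ι] [DecidableEq ι]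

/-- The Gram matrix of the trace form. -/
def gram (e : ι → Matrix n n L) : Matrix ι ι L := Matrix.of fun i j => (e i * e j).trace

omit [DecidableEq n] [Fintype ι] [DecidableEq ι] in
theorem gram_apply (e : ι → Matrix n n L) (i j : ι) : gram e i j = (e i * e j).trace := rfl

omit [DecidableEq n] [Fintype ι] [DecidableEq ι] in
theorem gram_symm (e : ι → Matrix n n L) (i j : ι) : gram e i j = gram e j i := by
  rw [gram_apply, gram_apply, Matrix.trace_mul_comm]

omit [DecidableEq n] [DecidableEq ι] in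
theorem trace_sum_mul (e : ι → Matrix n n L) (c : ι → L) (M : Matrix n n L) :
    ((∑ j, c j • e j) * M).trace = ∑ j, c j * (e j * M).trace := by
  rw [Finset.sum_mul, Matrix.trace_sum]
  refine Finset.sum_congr rfl fun j _ => ?_
  rw [Matrix.smul_mul, Matrix.trace_smul, smul_eq_mul]

/-- The Gram determinant of a basis of `A` is not 0. -/
theorem gram_det_ne [CharZero L] (A : Subalgebra L (Matrix n n L))
    (hr : ∀ M ∈ A, IsNilpotent M → M = 0) {e : ι → Matrix n n L}
    (hli : LinearIndependent L e) (hsp : Submodule.span L (Set.range e) = A.toSubmodule) :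
    (gram e).det ≠ 0 := by
  intro h0
  obtain ⟨v, hv0, hv⟩ := Matrix.exists_mulVec_eq_zero_iff.2 h0
  have hmem : ∀ i, e i ∈ A := fun i => by
    have : e i ∈ Submodule.span L (Set.range e) := Submodule.subset_span ⟨i, rfl⟩
    rwa [hsp] at this
  have hz : (∑ j, v j • e j) ∈ A := A.sum_mem fun j _ => A.smul_mem (hmem j) _
  have hne : (∑ j, v j • e j) ≠ 0 := by
    intro h
    apply hv0
    funext j
    exact Fintype.linearIndependent_iff.1 hli v h j
  obtain ⟨N, hN, ht⟩ := exists_trace_ne A hr hz hne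
  apply ht
  have hN' : N ∈ Submodule.span L (Set.range e) := by rw [hsp]; exact hN
  obtain ⟨c, rfl⟩ := (Submodule.mem_span_range_iff_exists_fun L).1 hN'
  rw [Matrix.trace_mul_comm, trace_sum_mul]
  refine Finset.sum_eq_zero fun i _ => ?_
  rw [Matrix.trace_mul_comm, trace_sum_mul]
  have h1 := congrFun hv i
  simp only [Matrix.mulVec, dotProduct, Pi.zero_apply] at h1
  have h2 : ∑ j, v j * (e j * e i).trace = 0 := by
    rw [← h1]
    refine Finset.sum_congr rfl fun j _ => ?_
    rw [gram_symm, gram_apply, mul_comm]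
  rw [h2, mul_zero]

/-- (d) the dual basis of a basis `e` of `A` for the trace form -/
theorem exists_dual [CharZero L] (A : Subalgebra L (Matrix n n L))
    (hr : ∀ M ∈ A, IsNilpotent M → M = 0) {e : ι → Matrix n n L}
    (hli : LinearIndependent L e) (hsp : Submodule.span L (Set.range e) = A.toSubmodule) :
    ∃ d : ι → Matrix n n L, (∀ i, d i ∈ A) ∧
      (∀ i j, (e i * d j).trace = if i = j then 1 else 0) ∧
      (∀ x ∈ A, x = ∑ i, (x * d i).trace • e i) ∧
      (∀ x ∈ A, x = ∑ i, (x * e i).trace • d i) := by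
  have hdet := gram_det_ne A hr hli hsp
  have hu : IsUnit (gram e).det := isUnit_iff_ne_zero.2 hdet
  have hmem : ∀ i, e i ∈ A := fun i => by
    have : e i ∈ Submodule.span L (Set.range e) := Submodule.subset_span ⟨i, rfl⟩
    rwa [hsp] at this
  let d : ι → Matrix n n L := fun j => ∑ i, (gram e)⁻¹ i j • e i
  have hd : ∀ j, d j = ∑ i, (gram e)⁻¹ i j • e i := fun _ => rfl
  have h1 : ∀ i j, (e i * d j).trace = if i = j then 1 else 0 := by
    intro i j
    rw [Matrix.trace_mul_comm, hd, trace_sum_mul]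
    have h2 := congrFun (congrFun (Matrix.mul_nonsing_inv (gram e) hu) i) j
    rw [Matrix.mul_apply, Matrix.one_apply] at h2
    rw [← h2]
    refine Finset.sum_congr rfl fun k _ => ?_
    rw [← gram_apply, gram_symm, mul_comm]
  have h3 : ∀ x ∈ A, x = ∑ i, (x * d i).trace • e i := by
    intro x hx
    have hx' : x ∈ Submodule.span L (Set.range e) := by rw [hsp]; exact hx
    obtain ⟨c, rfl⟩ := (Submodule.mem_span_range_iff_exists_fun L).1 hx'
    refine Finset.sum_congr rfl fun i _ => ?_
    rw [trace_sum_mul]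
    simp [h1]
  refine ⟨d, fun j => A.sum_mem fun i _ => A.smul_mem (hmem i) _, h1, h3, ?_⟩
  intro x hx
  -- compare the traces against all `e j`
  have h4 : ∀ y ∈ A, (∀ j, (y * e j).trace = 0) → y = 0 := by
    intro y hy hj
    by_contra hy0
    obtain ⟨N, hN, ht⟩ := exists_trace_ne A hr hy hy0
    apply ht
    have hN' : N ∈ Submodule.span L (Set.range e) := by rw [hsp]; exact hN
    obtain ⟨c, rfl⟩ := (Submodule.mem_span_range_iff_exists_fun L).1 hN'
    rw [Matrix.trace_mul_comm, trace_sum_mul]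
    refine Finset.sum_eq_zero fun i _ => ?_
    rw [Matrix.trace_mul_comm, hj, mul_zero]
  have hdm : ∀ j, d j ∈ A := fun j => A.sum_mem fun i _ => A.smul_mem (hmem i) _
  rw [← sub_eq_zero]
  refine h4 _ (A.sub_mem hx (A.sum_mem fun i _ => A.smul_mem (hdm i) _)) fun j => ?_
  rw [sub_mul, Matrix.trace_sub, trace_sum_mul, sub_eq_zero]
  have h5 : ∀ i, (d i * e j).trace = if j = i then 1 else 0 := fun i => by
    rw [Matrix.trace_mul_comm, h1]
  simp [h5]

omit [DecidableEq n] in
/-- (d') Cramer: traces in a subring `R` clear with the Gram determinant. -/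
theorem gram_cramer (R : Subring L) {e : ι → Matrix n n L}
    (hg : ∀ i j, (e i * e j).trace ∈ R) {c : ι → L}
    (hz : ∀ i, ((∑ j, c j • e j) * e i).trace ∈ R) (j : ι) : (gram e).det * c j ∈ R := by
  have h1 : (gram e).mulVec c = fun i => ((∑ j, c j • e j) * e i).trace := by
    funext i
    rw [trace_sum_mul]
    simp only [Matrix.mulVec, dotProduct]
    refine Finset.sum_congr rfl fun j _ => ?_
    rw [gram_symm, gram_apply, mul_comm]
  have h2 : (gram e).det • c = (gram e).adjugate.mulVec
      (fun i => ((∑ j, c j • e j) * e i).trace) := by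
    rw [← h1, Matrix.mulVec_mulVec, Matrix.adjugate_mul, Matrix.smul_mulVec, Matrix.one_mulVec]
  have h3 := congrFun h2 j
  rw [Pi.smul_apply, smul_eq_mul] at h3
  rw [h3]
  simp only [Matrix.mulVec, dotProduct]
  refine R.sum_mem fun i _ => R.mul_mem ?_ (hz i)
  -- the adjugate of a matrix over `R`
  let G : Matrix ι ι R := Matrix.of fun i j => ⟨(e i * e j).trace, hg i j⟩
  have h4 : gram e = R.subtype.mapMatrix G := by
    ext a b
    rfl
  rw [h4, ← RingHom.map_adjugate]
  exact (G.adjugate j i).2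

omit [DecidableEq n] in
theorem gram_det_mem (R : Subring L) {e : ι → Matrix n n L}
    (hg : ∀ i j, (e i * e j).trace ∈ R) : (gram e).det ∈ R := by
  let G : Matrix ι ι R := Matrix.of fun i j => ⟨(e i * e j).trace, hg i j⟩
  have h4 : gram e = R.subtype.mapMatrix G := by
    ext a b
    rfl
  rw [h4, ← RingHom.map_det]
  exact G.det.2

end Gram

end Basic

end Pool.Agent.MIY
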