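import Pool.Agent.MIY.Glue
import Pool.Agent.MIY.Main4
import Pool.Agent.MIY.Fro

/-!
# MIY/Miy: the kernel of a nonzero locally nilpotent derivation of `k[x,y,z]` is generated by two elements
-/

set_option autoImplicit false

open MvPolynomial

namespace Pool.Agent.MIY

open Pool.Agent.LNDF

/-- irreducible derivations over an algebraically closed field -/
theorem miy {k : Type} [Field k] [CharZero k] [IsAlgClosed k] (D : Derivation k (B3 k) (B3 k))
    (hD : ∃ x, D x ≠ 0) (hln : ∀ x, ∃ n, (⇑D)^[n] x = 0)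
    (hirr : ∀ p : B3 k, Prime p → D p = 0 → ∃ x, ¬ p ∣ D x) :
    ∃ f g : B3 k, AlgebraicIndependent k ![f, g] ∧ ∀ b, D b = 0 ↔ b ∈ Algebra.adjoin k {f, g} :=
  miy_of_free (fun D hD hln hirr A => exists_G D hD hln hirr A) D hD hln hirr

/-- all nonzero derivations over an algebraically closed field -/
theorem miy_closed {k : Type} [Field k] [CharZero k] [IsAlgClosed k] (D : Derivation k (B3 k) (B3 k))
    (hD : D ≠ 0) (hln : ∀ x, ∃ n, (⇑D)^[n] x = 0) :
    ∃ f g : B3 k, AlgebraicIndependent k ![f, g] ∧ ∀ b, D b = 0 ↔ b ∈ Algebra.adjoin k {f, g} := by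
  refine miy_all (fun E h1 h2 h3 => miy E h1 h2 h3) D ?_ hln
  by_contra hcon
  push Not at hcon
  exact hD (Derivation.ext fun x => by rw [hcon x]; rfl)

/-- **S00279 from Q1 over algebraically closed fields** -/
theorem fro_q1
    (q1 : ∀ (K : Type) [Field K] [CharZero K] [IsAlgClosed K] (D : Derivation K (B3 K) (B3 K)),
      D ≠ 0 → (∀ x, ∃ n, (⇑D)^[n] x = 0) → ∀ f g : B3 K,
      (∀ b, D b = 0 ↔ b ∈ Algebra.adjoin K {f, g}) → ∀ n, Princ D n)
    (k : Type) [Field k] [CharZero k] (D : Derivation k (B3 k) (B3 k)) (hD : D ≠ 0)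
    (hln : ∀ x, ∃ n, (⇑D)^[n] x = 0) (n : ℕ) : Princ D n :=
  fro (fun K _ _ _ D h1 h2 h3 => miy D h1 h2 h3) q1 k D hD hln n

end Pool.Agent.MIY
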