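import Mathlib
import Pool.Agent.LNDHom.Red
import Pool.Agent.LNDHom.Gr

/-!
# the kernel of a locally nilpotent derivation of a factorial ring is factorial
-/

set_option autoImplicit false
set_option linter.unusedSectionVars false

namespace Pool.Agent.MIY

open Pool.Agent.LNDHom

section fc

variable {k B : Type} [Field k] [CommRing B] [IsDomain B] [Algebra k B]

/-- divisibility in a factorially closed subalgebra -/
theorem fc_dvd (A : Subalgebra k B) (hfc : ∀ a b : B, a * b ≠ 0 → a * b ∈ A → a ∈ A) (x y : A) :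
    x ∣ y ↔ (x : B) ∣ (y : B) := by
  constructor
  · rintro ⟨c, rfl⟩
    exact ⟨c, rfl⟩
  · rintro ⟨c, hc⟩
    by_cases hy : (y : B) = 0
    · have : y = 0 := Subtype.ext hy
      rw [this]
      exact dvd_zero x
    · have h1 : c * (x : B) ≠ 0 := by
        rw [mul_comm, ← hc]
        exact hy
      have h2 : c ∈ A := by
        refine hfc c x h1 ?_
        rw [mul_comm, ← hc]
        exact y.2
      exact ⟨⟨c, h2⟩, Subtype.ext hc⟩

/-- a prime of `B` in a factorially closed subalgebra is a prime there -/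
theorem fc_prime (A : Subalgebra k B) (hfc : ∀ a b : B, a * b ≠ 0 → a * b ∈ A → a ∈ A) (p : A)
    (hp : Prime (p : B)) : Prime p := by
  refine ⟨fun h => hp.ne_zero (by rw [h]; rfl), fun h => hp.not_isUnit (h.map A.val), ?_⟩
  intro a b hab
  rw [fc_dvd A hfc] at hab ⊢
  rw [fc_dvd A hfc p b]
  exact hp.dvd_or_dvd hab

theorem fc_isUnit (A : Subalgebra k B) (hfc : ∀ a b : B, a * b ≠ 0 → a * b ∈ A → a ∈ A) (x : A)
    (hx : IsUnit (x : B)) : IsUnit x := by
  rw [isUnit_iff_dvd_one, fc_dvd A hfc]
  exact isUnit_iff_dvd_one.1 hx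

/-- a factorially closed subalgebra of a factorial ring is factorial -/
theorem fc_ufd [UniqueFactorizationMonoid B] (A : Subalgebra k B)
    (hfc : ∀ a b : B, a * b ≠ 0 → a * b ∈ A → a ∈ A) : UniqueFactorizationMonoid A := by
  classical
  refine UniqueFactorizationMonoid.of_exists_prime_factors fun a ha => ?_
  have key : ∀ (s : Multiset B) (u : B), (∀ p ∈ s, Prime p) → u * s.prod ≠ 0 →
      u * s.prod ∈ A → ∃ (f : Multiset A) (u' : A), (∀ p ∈ f, Prime p) ∧ (u' : B) = u ∧
        ((f.prod : A) : B) = s.prod := by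
    intro s
    induction s using Multiset.induction_on with
    | empty =>
      intro u _ hne hu
      rw [Multiset.prod_zero, mul_one] at hu
      exact ⟨0, ⟨u, hu⟩, by simp, rfl, by simp⟩
    | cons p s ih =>
      intro u hs hne hu
      rw [Multiset.prod_cons] at hne hu
      have hp : Prime p := hs p (Multiset.mem_cons_self p s)
      have h1 : p ∈ A := by
        refine hfc p (u * s.prod) ?_ ?_
        · rwa [mul_left_comm]
        · rwa [mul_left_comm]
      have h2 : u * s.prod ∈ A := by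
        refine hfc (u * s.prod) p ?_ ?_
        · rwa [mul_assoc, mul_comm s.prod p]
        · rwa [mul_assoc, mul_comm s.prod p]
      have h3 : u * s.prod ≠ 0 := by
        intro h
        apply hne
        rw [mul_left_comm, h, mul_zero]
      obtain ⟨f, u', hf, hu', hprod⟩ := ih u (fun q hq => hs q (Multiset.mem_cons_of_mem hq)) h3 h2
      refine ⟨⟨p, h1⟩ ::ₘ f, u', ?_, hu', ?_⟩
      · intro q hq
        rw [Multiset.mem_cons] at hq
        rcases hq with rfl | hq
        · exact fc_prime A hfc _ hp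
        · exact hf q hq
      · rw [Multiset.prod_cons, Multiset.prod_cons]
        change p * ((f.prod : A) : B) = p * s.prod
        rw [hprod]
  have ha' : (a : B) ≠ 0 := fun h => ha (Subtype.ext h)
  obtain ⟨s, hs, u, hu⟩ := UniqueFactorizationMonoid.exists_prime_factors (a : B) ha'
  rw [mul_comm] at hu
  obtain ⟨f, u', hf, hu', hprod⟩ := key s u hs (by rw [hu]; exact ha') (by rw [hu]; exact a.2)
  refine ⟨f, hf, ?_⟩
  have h4 : IsUnit u' := fc_isUnit A hfc u' (by rw [hu']; exact u.isUnit)
  obtain ⟨w, hw⟩ := h4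
  refine ⟨w, Subtype.ext ?_⟩
  change ((f.prod : A) : B) * ((w : A) : B) = a
  rw [hprod, hw, hu', mul_comm, hu]

end fc

section ker

variable {k B : Type} [Field k] [CharZero k] [CommRing B] [IsDomain B] [Algebra k B]

theorem ker_fc (D : Derivation k B B) (hln : ∀ x, ∃ n, (⇑D)^[n] x = 0) (a b : B)
    (hne : a * b ≠ 0) (h : a * b ∈ kerAlg D) : a ∈ kerAlg D :=
  fact_closed D hln a b h hne

theorem ker_dvd (D : Derivation k B B) (hln : ∀ x, ∃ n, (⇑D)^[n] x = 0) (x y : kerAlg D) :
    x ∣ y ↔ (x : B) ∣ (y : B) :=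
  fc_dvd _ (ker_fc D hln) x y

theorem ker_ufd [UniqueFactorizationMonoid B] (D : Derivation k B B)
    (hln : ∀ x, ∃ n, (⇑D)^[n] x = 0) : UniqueFactorizationMonoid (kerAlg D) :=
  fc_ufd _ (ker_fc D hln)

/-- a prime of the kernel is prime in `B` -/
theorem ker_prime [UniqueFactorizationMonoid B] (D : Derivation k B B)
    (hln : ∀ x, ∃ n, (⇑D)^[n] x = 0) (p : kerAlg D) (hp : Prime p) : Prime (p : B) := by
  have hp0 : (p : B) ≠ 0 := fun h => hp.ne_zero (Subtype.ext h)
  rw [← UniqueFactorizationMonoid.irreducible_iff_prime]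
  refine ⟨fun h => hp.not_isUnit (fc_isUnit _ (ker_fc D hln) p h), fun a b hab => ?_⟩
  have ha : a ∈ kerAlg D := ker_fc D hln a b (by rw [← hab]; exact hp0) (by rw [← hab]; exact p.2)
  have hb : b ∈ kerAlg D := ker_fc D hln b a (by rw [mul_comm, ← hab]; exact hp0)
    (by rw [mul_comm, ← hab]; exact p.2)
  have h1 : p = ⟨a, ha⟩ * ⟨b, hb⟩ := Subtype.ext hab
  rcases hp.irreducible.isUnit_or_isUnit h1 with h2 | h2
  · exact Or.inl (h2.map (kerAlg D).val)
  · exact Or.inr (h2.map (kerAlg D).val)

end ker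

end Pool.Agent.MIY
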