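import Mathlib
import Pool.Agent.MIY.Defs
import Pool.Agent.MIY.Ufd

/-!
# MIY/MkC: coprime elements of the kernel form regular pairs in the kernel and in the ring
-/

set_option autoImplicit false

open Polynomial

namespace Pool.Agent.MIY

open Pool.Agent.LNDHom

section ufd

variable {A : Type} [CommRing A] [IsDomain A] [UniqueFactorizationMonoid A]

/-- coprime elements of a factorial domain form a regular pair -/
theorem mkC_reg {X Y : A} (h : IsRelPrime X Y) (a b : A) (hab : Y * a = X * b) :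
    ∃ c, a = X * c := by
  have h1 : X ∣ Y * a := ⟨b, hab⟩
  exact h.dvd_of_dvd_mul_left h1

theorem mkC_reg2 (k : Type) [Field k] [Algebra k A] {X Y : A} (hX : X ≠ 0)
    (h : IsRelPrime X Y) : Reg2 (mu k A X) (mu k A Y) := by
  refine ⟨fun m => ?_, fun m hm => ?_, fun a b hab => ?_⟩
  · change X • (Y • m) = Y • (X • m)
    rw [smul_smul, smul_smul, mul_comm]
  · have h1 : X * m = 0 := hm
    exact (mul_eq_zero.1 h1).resolve_left hX
  · exact mkC_reg h a b hab

end ufd

section ker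

variable {k B : Type} [Field k] [CharZero k] [CommRing B] [IsDomain B] [Algebra k B]
  [UniqueFactorizationMonoid B] (D : Derivation k B B) (hln : ∀ x, ∃ n, (⇑D)^[n] x = 0)

include hln

/-- `Y a = X b` in the kernel, `X`, `Y` coprime in the kernel -/
theorem mkC_regA {X Y : kerAlg D} (h : IsRelPrime X Y) (a b : kerAlg D) (hab : Y * a = X * b) :
    ∃ c, a = X * c := by
  have := ker_ufd D hln
  exact mkC_reg h a b hab

theorem mkC_reg2A {X Y : kerAlg D} (hX : X ≠ 0) (h : IsRelPrime X Y) :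
    Reg2 (mu k (kerAlg D) X) (mu k (kerAlg D) Y) := by
  have := ker_ufd D hln
  exact mkC_reg2 k hX h

/-- elements coprime in the kernel are coprime -/
theorem mkC_relB {X Y : kerAlg D} (hX : X ≠ 0) (h : IsRelPrime X Y) :
    IsRelPrime (X : B) (Y : B) := by
  intro d hdX hdY
  have hX0 : (X : B) ≠ 0 := fun h0 => hX (Subtype.ext h0)
  have hd : d ∈ kerAlg D := by
    obtain ⟨t, ht⟩ := hdX
    exact ker_fc D hln d t (by rw [← ht]; exact hX0) (by rw [← ht]; exact X.2)
  have h1 : (⟨d, hd⟩ : kerAlg D) ∣ X := (ker_dvd D hln _ _).2 hdX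
  have h2 : (⟨d, hd⟩ : kerAlg D) ∣ Y := (ker_dvd D hln _ _).2 hdY
  exact (h h1 h2).map (kerAlg D).val

/-- `Y a = X b` in the ring -/
theorem mkC_regB {X Y : kerAlg D} (hX : X ≠ 0) (h : IsRelPrime X Y) (a b : B)
    (hab : (Y : B) * a = X * b) : ∃ c, a = X * c :=
  mkC_reg (mkC_relB D hln hX h) a b hab

/-- the same in the image of an embedding -/
theorem mkC_regS {X Y : kerAlg D} (hX : X ≠ 0) (h : IsRelPrime X Y) {P : Type} [CommRing P]
    (ι : B →+* P) (hι : Function.Injective ι) (g h' : P) (hg : ∃ b, ι b = g) (hh : ∃ b, ι b = h')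
    (e : ι Y * g = ι X * h') : ∃ g', (∃ b, ι b = g') ∧ g = ι X * g' := by
  obtain ⟨a, rfl⟩ := hg
  obtain ⟨b, rfl⟩ := hh
  rw [← map_mul, ← map_mul] at e
  obtain ⟨c, hc⟩ := mkC_regB D hln hX h a b (hι e)
  exact ⟨ι c, ⟨c, rfl⟩, by rw [hc, map_mul]⟩

end ker

end Pool.Agent.MIY
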