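import Mathlib
import Pool.Agent.MIY.Br1
import Pool.Agent.MIY.Br2
import Pool.Agent.MIY.KDer
import Pool.Agent.MIY.EnvG

/-!
Part 2 of Miyanishi's theorem, assembled: the environment of two coprime independent elements of the kernel.
-/

set_option autoImplicit false

open Polynomial

namespace Pool.Agent.MIY

open Pool.Agent.LNDF Pool.Agent.LNDHom

variable {k : Type} [Field k] [CharZero k] {D : Derivation k (B3 k) (B3 k)}

/-- PART 2 -/
theorem part2 [IsAlgClosed k] (hD : LN D) {X Y : kerAlg D} (hX : X ≠ 0) (hY : Y ≠ 0)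
    (hco : IsRelPrime X Y) (hind : AlgebraicIndependent k ![X, Y]) (hne : Ideal.span {X, Y} ≠ ⊤)
    (K : Type) [Field K] [Algebra (kerAlg D) K] [IsFractionRing (kerAlg D) K] [Algebra k K]
    [IsScalarTower k (kerAlg D) K] :
    ∃ (δ0 δ1 : Derivation k (kerAlg D) (kerAlg D)) (d0 d1 : Derivation k K K),
      Brk D X Y δ0 δ1 ∧ Env2 k X Y (δ0 X) δ0 δ1 ∧ Kd K (δ0 X) δ0 δ1 d0 d1 := by
  obtain ⟨δ0, δ1, hB⟩ := exists_brk hD X Y
  have hJ : δ0 X ≠ 0 := hB.ne hD hind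
  have hE := env_of' hD hX hY hco hind hne hB (hB.facts hD) hJ
  obtain ⟨d0, h0⟩ := exists_dK K δ0 hJ
  obtain ⟨d1, h1⟩ := exists_dK K δ1 hJ
  exact ⟨δ0, δ1, d0, d1, hB, hE, ⟨h0, h1⟩⟩

end Pool.Agent.MIY
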