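import Mathlib

/-!
# Perfectness: `{z | tr (z Ah) ⊆ Ph} = J⁻¹ Ah` (doc H/821812_MIY_37, section 4), abstract form
-/

set_option autoImplicit false

namespace Pool.Agent.MIY

/-- the data of section 4: `Ph ⊆ L` power series in the Laurent field, `Ah ⊆ AA` the completed ring in
its algebra over `L`, the trace, the derivations `d_X`, `d_Y` (index `0`, `1`) of `L` and `AA`, the element
`J` with inverse `Ji` in `AA`, and the derivations `δ = J d` of `Ah` -/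
structure PerDat {k L AA : Type} [Field k] [Field L] [Algebra k L] [CommRing AA] [Algebra k AA]
    [Algebra L AA] (Ph : Subalgebra k L) (Ah : Subalgebra k AA) (tr : AA →ₗ[L] L)
    (dL : Fin 2 → Derivation k L L) (dA : Fin 2 → Derivation k AA AA) (J Ji : AA)
    (δ : Fin 2 → Derivation k Ah Ah) (x : Fin 2 → L) : Prop where
  /-- power series are in `Ah` -/
  sub : ∀ p ∈ Ph, algebraMap L AA p ∈ Ah
  x_mem : ∀ i, x i ∈ Ph
  tr_mem : ∀ a ∈ Ah, tr a ∈ Ph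
  dL_mem : ∀ i, ∀ p ∈ Ph, dL i p ∈ Ph
  tr_d : ∀ i z, tr (dA i z) = dL i (tr z)
  J_mem : J ∈ Ah
  inv : J * Ji = 1
  del : ∀ i (a : Ah), ((δ i a : Ah) : AA) = J * dA i a
  /-- `X ^ (-s) Ph ∩ Y ^ (-t) Ph = Ph` -/
  interL : ∀ l : L, ∀ s : ℕ, x 0 ^ s * l ∈ Ph → x 1 ^ s * l ∈ Ph → l ∈ Ph
  /-- `X ^ (-s) Ah ∩ Y ^ (-t) Ah = Ah` -/
  interA : ∀ z : AA, ∀ s : ℕ, x 0 ^ s • z ∈ Ah → x 1 ^ s • z ∈ Ah → z ∈ Ah
  /-- the dual lattice has a denominator (Gram determinant) -/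
  gram : ∃ d ∈ Ph, d ≠ 0 ∧ ∀ z : AA, (∀ b ∈ Ah, tr (z * b) ∈ Ph) → d • z ∈ Ah
  /-- `J` divides a nonzero power series -/
  normJ : ∃ p ∈ Ph, p ≠ 0 ∧ ∃ b ∈ Ah, algebraMap L AA p = J * b
  /-- stable ideals which meet `Ph` contain powers of `X` and of `Y` -/
  ideal : ∀ I : Ideal Ah, (∀ i, ∀ a ∈ I, δ i a ∈ I) → (∃ p, ∃ hp : p ∈ Ph, p ≠ 0 ∧
    (⟨algebraMap L AA p, sub p hp⟩ : Ah) ∈ I) → ∀ i, ∃ s : ℕ,
      (⟨algebraMap L AA (x i ^ s), sub _ (Ph.pow_mem (x_mem i) s)⟩ : Ah) ∈ I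

namespace PerDat

variable {k L AA : Type} [Field k] [Field L] [Algebra k L] [CommRing AA] [Algebra k AA]
    [Algebra L AA] {Ph : Subalgebra k L} {Ah : Subalgebra k AA} {tr : AA →ₗ[L] L}
    {dL : Fin 2 → Derivation k L L} {dA : Fin 2 → Derivation k AA AA} {J Ji : AA}
    {δ : Fin 2 → Derivation k Ah Ah} {x : Fin 2 → L}

/-- the dual lattice -/
def T (Ph : Subalgebra k L) (Ah : Subalgebra k AA) (tr : AA →ₗ[L] L) (z : AA) : Prop :=
  ∀ b ∈ Ah, tr (z * b) ∈ Ph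

theorem T_mul {z : AA} (hz : T Ph Ah tr z) {a : AA} (ha : a ∈ Ah) : T Ph Ah tr (a * z) := by
  intro b hb
  have h := hz (a * b) (Ah.mul_mem ha hb)
  rwa [show a * z * b = z * (a * b) by ring]

theorem T_add {z w : AA} (hz : T Ph Ah tr z) (hw : T Ph Ah tr w) : T Ph Ah tr (z + w) := by
  intro b hb
  rw [add_mul, map_add]
  exact Ph.add_mem (hz b hb) (hw b hb)

theorem T_zero : T Ph Ah tr (0 : AA) := by
  intro b _
  rw [zero_mul, map_zero]
  exact Ph.zero_mem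

/-- the key computation: `z ∈ T` implies `d (J z) ∈ T` -/
theorem T_d (H : PerDat Ph Ah tr dL dA J Ji δ x) {z : AA} (hz : T Ph Ah tr z) (i : Fin 2) :
    T Ph Ah tr (dA i (J * z)) := by
  intro b hb
  have h1 : dA i (J * z * b) = J * z * dA i b + b * dA i (J * z) := by
    rw [Derivation.leibniz, smul_eq_mul, smul_eq_mul]
  have h2 : dA i (J * z) * b = dA i (J * z * b) - z * (J * dA i b) := by
    rw [h1]; ring
  rw [h2, map_sub, H.tr_d]
  refine Ph.sub_mem (H.dL_mem i _ ?_) ?_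
  · rw [show J * z * b = z * (J * b) by ring]
    exact hz _ (Ah.mul_mem H.J_mem hb)
  · have h3 : J * dA i b ∈ Ah := by
      have h4 := H.del i ⟨b, hb⟩
      rw [← h4]
      exact (δ i ⟨b, hb⟩).2
    exact hz _ h3

/-- the first ideal: `a / J ∈ T` -/
def cc (_ : PerDat Ph Ah tr dL dA J Ji δ x) : Ideal Ah where
  carrier := {a | T Ph Ah tr (Ji * a)}
  zero_mem' := by
    show T Ph Ah tr (Ji * ((0 : Ah) : AA))
    rw [ZeroMemClass.coe_zero, mul_zero]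
    exact T_zero
  add_mem' := by
    intro a b ha hb
    show T Ph Ah tr (Ji * ((a + b : Ah) : AA))
    rw [Subalgebra.coe_add, mul_add]
    exact T_add ha hb
  smul_mem' := by
    intro c a ha
    show T Ph Ah tr (Ji * ((c • a : Ah) : AA))
    rw [smul_eq_mul, Subalgebra.coe_mul, show Ji * ((c : AA) * a) = c * (Ji * a) by ring]
    exact T_mul ha c.2

theorem mem_cc (H : PerDat Ph Ah tr dL dA J Ji δ x) (a : Ah) :
    a ∈ H.cc ↔ T Ph Ah tr (Ji * a) := Iff.rfl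

/-- the second ideal: `a J T ⊆ Ah` -/
def cd (_ : PerDat Ph Ah tr dL dA J Ji δ x) : Ideal Ah where
  carrier := {a | ∀ z, T Ph Ah tr z → (a : AA) * (J * z) ∈ Ah}
  zero_mem' := by
    intro z _
    rw [ZeroMemClass.coe_zero, zero_mul]
    exact Ah.zero_mem
  add_mem' := by
    intro a b ha hb z hz
    rw [Subalgebra.coe_add, add_mul]
    exact Ah.add_mem (ha z hz) (hb z hz)
  smul_mem' := by
    intro c a ha z hz
    rw [smul_eq_mul, Subalgebra.coe_mul, mul_assoc]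
    exact Ah.mul_mem c.2 (ha z hz)

theorem mem_cd (H : PerDat Ph Ah tr dL dA J Ji δ x) (a : Ah) :
    a ∈ H.cd ↔ ∀ z, T Ph Ah tr z → (a : AA) * (J * z) ∈ Ah := Iff.rfl

theorem stab_cc (H : PerDat Ph Ah tr dL dA J Ji δ x) : (∀ i, ∀ a ∈ H.cc, δ i a ∈ H.cc) := by
  intro i a ha
  rw [mem_cc] at ha ⊢
  rw [H.del]
  have h1 := H.T_d ha i
  rw [← mul_assoc, H.inv, one_mul] at h1
  rw [← mul_assoc, mul_comm Ji J, H.inv, one_mul]
  exact h1

theorem stab_cd (H : PerDat Ph Ah tr dL dA J Ji δ x) : (∀ i, ∀ a ∈ H.cd, δ i a ∈ H.cd) := by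
  intro i a ha z hz
  rw [H.del]
  have h1 : (a : AA) * (J * z) ∈ Ah := ha z hz
  have h2 : J * dA i ((a : AA) * (J * z)) ∈ Ah := by
    rw [← H.del i ⟨_, h1⟩]
    exact (δ i _).2
  have h3 : (a : AA) * (J * dA i (J * z)) ∈ Ah := ha _ (H.T_d hz i)
  have h4 : J * dA i (a : AA) * (J * z) =
      J * dA i ((a : AA) * (J * z)) - a * (J * dA i (J * z)) := by
    rw [Derivation.leibniz (dA i) (a : AA) (J * z), smul_eq_mul, smul_eq_mul]
    ring
  rw [h4]
  exact Ah.sub_mem h2 h3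

theorem pow_smul (l : L) (s : ℕ) (z : AA) : l ^ s • z = algebraMap L AA (l ^ s) * z :=
  Algebra.smul_def _ _

/-- both powers in a stable ideal, with one exponent -/
theorem both (H : PerDat Ph Ah tr dL dA J Ji δ x) {I : Ideal Ah} (hI : ∀ i, ∀ a ∈ I, δ i a ∈ I)
    (hp : ∃ p, ∃ hp : p ∈ Ph, p ≠ 0 ∧ (⟨algebraMap L AA p, H.sub p hp⟩ : Ah) ∈ I) :
    ∃ s : ℕ, ∀ i, (⟨algebraMap L AA (x i ^ s), H.sub _ (Ph.pow_mem (H.x_mem i) s)⟩ : Ah) ∈ I := by
  obtain ⟨s0, h0⟩ := H.ideal I hI hp 0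
  obtain ⟨s1, h1⟩ := H.ideal I hI hp 1
  have key : ∀ (i : Fin 2) (s t : ℕ), s ≤ t →
      (⟨algebraMap L AA (x i ^ s), H.sub _ (Ph.pow_mem (H.x_mem i) s)⟩ : Ah) ∈ I →
      (⟨algebraMap L AA (x i ^ t), H.sub _ (Ph.pow_mem (H.x_mem i) t)⟩ : Ah) ∈ I := by
    intro i s t hst h
    have h2 := I.mul_mem_left (⟨algebraMap L AA (x i ^ (t - s)),
      H.sub _ (Ph.pow_mem (H.x_mem i) _)⟩ : Ah) h
    convert h2 using 1
    apply Subtype.ext
    show algebraMap L AA (x i ^ t) = algebraMap L AA (x i ^ (t - s)) * algebraMap L AA (x i ^ s)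
    rw [← map_mul, ← pow_add, Nat.sub_add_cancel hst]
  refine ⟨max s0 s1, fun i => ?_⟩
  fin_cases i
  · exact key 0 s0 _ (le_max_left _ _) h0
  · exact key 1 s1 _ (le_max_right _ _) h1

/-- PERFECTNESS -/
theorem main (H : PerDat Ph Ah tr dL dA J Ji δ x) (z : AA) :
    (∀ b ∈ Ah, tr (z * b) ∈ Ph) ↔ J * z ∈ Ah := by
  constructor
  · intro hz
    -- `cd` meets `Ph`
    obtain ⟨d, hd, hd0, hT⟩ := H.gram
    obtain ⟨s, hs⟩ := H.both H.stab_cd ⟨d, hd, hd0, by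
      intro w hw
      show algebraMap L AA d * (J * w) ∈ Ah
      have h1 := hT w hw
      rw [Algebra.smul_def] at h1
      rw [show algebraMap L AA d * (J * w) = J * (algebraMap L AA d * w) by ring]
      exact Ah.mul_mem H.J_mem h1⟩
    refine H.interA _ s ?_ ?_
    · rw [pow_smul]
      exact hs 0 z hz
    · rw [pow_smul]
      exact hs 1 z hz
  · intro hz b hb
    obtain ⟨p, hp, hp0, c, hc, hpc⟩ := H.normJ
    obtain ⟨s, hs⟩ := H.both H.stab_cc ⟨p, hp, hp0, by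
      intro w hw
      show tr (Ji * algebraMap L AA p * w) ∈ Ph
      rw [hpc, ← mul_assoc, mul_comm Ji J, H.inv, one_mul]
      exact H.tr_mem _ (Ah.mul_mem hc hw)⟩
    -- `z = Ji * a`
    have h1 : z * b = Ji * (J * z * b) := by
      rw [← mul_assoc, ← mul_assoc, mul_comm Ji J, H.inv, one_mul]
    have h2 : J * z * b ∈ Ah := Ah.mul_mem hz hb
    have h3 : ∀ i, x i ^ s * tr (z * b) ∈ Ph := by
      intro i
      have h4 := hs i (J * z * b) h2
      have h5 : Ji * algebraMap L AA (x i ^ s) * (J * z * b) = x i ^ s • (z * b) := by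
        rw [h1, Algebra.smul_def]
        ring
      have h6 : tr (Ji * algebraMap L AA (x i ^ s) * (J * z * b)) ∈ Ph := h4
      rwa [h5, map_smul, smul_eq_mul] at h6
    exact H.interL _ s (h3 0) (h3 1)

end PerDat

end Pool.Agent.MIY
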