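import Mathlib
import Pool.Agent.MIY.Defs
import Pool.Agent.MIY.Rho2

set_option autoImplicit false
set_option linter.unusedSectionVars false

namespace Pool.Agent.MIY

open Pool.Agent.LNDF Pool.Agent.LNDF.RhoAux Pool.Agent.MIY.R2

namespace Res

section series

variable {k : Type} [Field k]

theorem ps_D0 {D0 D1 : Derivation k (P2 k) (P2 k)} (hD : IsDP k D0 D1) (u : P2 k) :
    ps k (D0 u) = dL k 0 (ps k u) := by
  have h1 := mem_Ph_iff.1 (ps_mem (D0 u))
  have h2 := mem_Ph_iff.1 (dL_mem 0 (ps_mem u))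
  ext n m
  rcases lt_or_ge n 0 with hn | hn
  · rw [h1.1 n hn, h2.1 n hn]
  rcases lt_or_ge m 0 with hm | hm
  · rw [h1.2 n m hm, h2.2 n m hm]
  obtain ⟨n, rfl⟩ := Int.eq_ofNat_of_zero_le hn
  obtain ⟨m, rfl⟩ := Int.eq_ofNat_of_zero_le hm
  have e1 : ((m : ℤ) + 1) = ((m + 1 : ℕ) : ℤ) := by push_cast; ring
  rw [dL0_coeff, e1, ps_coeff, ps_coeff, Int.cast_natCast]
  have := hD.c0 m n u
  unfold cf at this
  rw [this]; push_cast; ring

theorem ps_D1 {D0 D1 : Derivation k (P2 k) (P2 k)} (hD : IsDP k D0 D1) (u : P2 k) :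
    ps k (D1 u) = dL k 1 (ps k u) := by
  have h1 := mem_Ph_iff.1 (ps_mem (D1 u))
  have h2 := mem_Ph_iff.1 (dL_mem 1 (ps_mem u))
  ext n m
  rcases lt_or_ge n 0 with hn | hn
  · rw [h1.1 n hn, h2.1 n hn]
  rcases lt_or_ge m 0 with hm | hm
  · rw [h1.2 n m hm, h2.2 n m hm]
  obtain ⟨n, rfl⟩ := Int.eq_ofNat_of_zero_le hn
  obtain ⟨m, rfl⟩ := Int.eq_ofNat_of_zero_le hm
  have e1 : ((n : ℤ) + 1) = ((n + 1 : ℕ) : ℤ) := by push_cast; ring
  rw [dL1_coeff, e1, ps_coeff, ps_coeff, Int.cast_natCast]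
  have := hD.c1 m n u
  unfold cf at this
  rw [this]; push_cast; ring

theorem ps_pX : ps k (pX : P2 k) = xi k 0 := by
  rw [xi, io_X0]; rfl

theorem ps_pY : ps k (pY : P2 k) = xi k 1 := by
  rw [xi, io_X1]; rfl

theorem ps_pC (r : k) : ps k (pC r : P2 k) = ps k (io k (MvPolynomial.C r)) := by
  rw [io_C]; rfl

theorem pC_mul (r : k) (u : P2 k) : pC r * u = r • u := by
  ext j i
  unfold pC
  rw [PowerSeries.coeff_C_mul, PowerSeries.coeff_C_mul]
  rfl

theorem ps_ne {u : P2 k} (h : u ≠ 0) : ps k u ≠ 0 := fun h0 =>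
  h (ps_injective (by rw [h0, map_zero]))

end series

variable {k A : Type} [Field k] [CommRing A] [IsDomain A] [Algebra k A] {X Y J : A}
  {l : ℕ} {Ah : Type} [CommRing Ah] [Algebra (P2 k) Ah]

theorem cancelP (b : Module.Basis (Fin l) (P2 k) Ah) {n : P2 k} (hn : n ≠ 0) {u v : Ah}
    (h : algebraMap (P2 k) Ah n * u = algebraMap (P2 k) Ah n * v) : u = v := by
  apply b.ext_elem
  intro j
  have h1 := congrArg (fun w => b.repr w j) h
  simp only [← Algebra.smul_def, map_smul, Finsupp.smul_apply, smul_eq_mul] at h1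
  exact mul_left_cancel₀ hn h1

theorem cancelA (b : Module.Basis (Fin l) (P2 k) Ah) {i : A →+* Ah}
    (hmul : ∀ a : A, a ≠ 0 → ∃ (a' : Ah) (n : P2 k), n ≠ 0 ∧ i a * a' = algebraMap (P2 k) Ah n)
    {a : A} (ha : a ≠ 0) {u v : Ah} (h : i a * u = i a * v) : u = v := by
  obtain ⟨a', n, hn, h1⟩ := hmul a ha
  apply cancelP b hn
  rw [← h1]
  linear_combination a' * h

theorem trace_mul (n : P2 k) (u : Ah) : Algebra.trace (P2 k) Ah (algebraMap (P2 k) Ah n * u) =
    n * Algebra.trace (P2 k) Ah u := by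
  rw [← Algebra.smul_def, map_smul, smul_eq_mul]

variable {K : Type} [Field K] [Algebra A K]

/-- `a' / n` represents `z` in the total ring of fractions of `Ah` -/
structure Rel (i : A →+* Ah) (z : K) (a' : Ah) (n : P2 k) : Prop where
  ne : n ≠ 0
  ex : ∃ a b : A, b ≠ 0 ∧ algebraMap A K b * z = algebraMap A K a ∧
    i b * a' = algebraMap (P2 k) Ah n * i a

variable [IsFractionRing A K]

theorem rel_unique (b : Module.Basis (Fin l) (P2 k) Ah) {i : A →+* Ah}
    (hmul : ∀ a : A, a ≠ 0 → ∃ (a' : Ah) (n : P2 k), n ≠ 0 ∧ i a * a' = algebraMap (P2 k) Ah n)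
    {z : K} {a1 a2 : Ah} {n1 n2 : P2 k} (h1 : Rel i z a1 n1) (h2 : Rel i z a2 n2) :
    algebraMap (P2 k) Ah n2 * a1 = algebraMap (P2 k) Ah n1 * a2 := by
  obtain ⟨a, c, hc, e1, e2⟩ := h1.ex
  obtain ⟨a', c', hc', e3, e4⟩ := h2.ex
  have h3 : c' * a = c * a' := by
    apply IsFractionRing.injective A K
    rw [map_mul, map_mul, ← e1, ← e3]
    ring
  have h4 := congrArg i h3
  rw [map_mul, map_mul] at h4
  apply cancelA b hmul (mul_ne_zero hc hc')
  rw [map_mul]
  linear_combination (algebraMap (P2 k) Ah n2 * i c') * e2 - (algebraMap (P2 k) Ah n1 * i c) * e4 +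
    (algebraMap (P2 k) Ah n1 * algebraMap (P2 k) Ah n2) * h4

theorem exists_rel {i : A →+* Ah}
    (hmul : ∀ a : A, a ≠ 0 → ∃ (a' : Ah) (n : P2 k), n ≠ 0 ∧ i a * a' = algebraMap (P2 k) Ah n)
    (z : K) : ∃ (a' : Ah) (n : P2 k), Rel i z a' n := by
  obtain ⟨a, c, hc, rfl⟩ := IsFractionRing.div_surjective (A := A) z
  have hc0 : c ≠ 0 := nonZeroDivisors.ne_zero hc
  obtain ⟨c', n, hn, h1⟩ := hmul c hc0
  refine ⟨i a * c', n, hn, a, c, hc0, ?_, ?_⟩
  · have : algebraMap A K c ≠ 0 := fun h => hc0 (IsFractionRing.injective A K (by rw [h, map_zero]))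
    exact mul_div_cancel₀ _ this
  · linear_combination (i a) * h1

theorem rel_add {i : A →+* Ah} {z1 z2 : K} {a1 a2 : Ah} {n1 n2 : P2 k} (h1 : Rel i z1 a1 n1)
    (h2 : Rel i z2 a2 n2) :
    Rel i (z1 + z2) (algebraMap (P2 k) Ah n2 * a1 + algebraMap (P2 k) Ah n1 * a2) (n1 * n2) := by
  obtain ⟨a, c, hc, e1, e2⟩ := h1.ex
  obtain ⟨a', c', hc', e3, e4⟩ := h2.ex
  refine ⟨mul_ne_zero h1.ne h2.ne, c' * a + c * a', c * c', mul_ne_zero hc hc', ?_, ?_⟩
  · simp only [map_mul, map_add]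
    linear_combination (algebraMap A K c') * e1 + (algebraMap A K c) * e3
  · simp only [map_mul, map_add]
    linear_combination (algebraMap (P2 k) Ah n2 * i c') * e2 +
      (algebraMap (P2 k) Ah n1 * i c) * e4

theorem rel_smul {i : A →+* Ah} {z : K} {a1 : Ah} {n1 : P2 k} (h1 : Rel i z a1 n1) {r : A}
    {s : P2 k} (hr : i r = algebraMap (P2 k) Ah s) :
    Rel i (algebraMap A K r * z) (algebraMap (P2 k) Ah s * a1) n1 := by
  obtain ⟨a, c, hc, e1, e2⟩ := h1.ex
  refine ⟨h1.ne, r * a, c, hc, ?_, ?_⟩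
  · rw [map_mul]
    linear_combination (algebraMap A K r) * e1
  · rw [map_mul, hr]
    linear_combination (algebraMap (P2 k) Ah s) * e2

/-- the completed trace `K → k((X))((Y))` -/
theorem exists_T (b : Module.Basis (Fin l) (P2 k) Ah) {i : A →+* Ah}
    (hmul : ∀ a : A, a ≠ 0 → ∃ (a' : Ah) (n : P2 k), n ≠ 0 ∧ i a * a' = algebraMap (P2 k) Ah n) :
    ∃ T : K →+ L2 k, ∀ (z : K) (a' : Ah) (n : P2 k), Rel i z a' n →
      T z * ps k n = ps k (Algebra.trace (P2 k) Ah a') := by
  classical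
  choose A' N' hR using exists_rel (K := K) hmul
  have key : ∀ (z : K) (a' : Ah) (n : P2 k), Rel i z a' n →
      ps k (Algebra.trace (P2 k) Ah (A' z)) / ps k (N' z) * ps k n =
        ps k (Algebra.trace (P2 k) Ah a') := by
    intro z a' n h
    have h1 := congrArg (Algebra.trace (P2 k) Ah) (rel_unique b hmul (hR z) h)
    rw [trace_mul, trace_mul] at h1
    have h2 := congrArg (ps k) h1
    rw [map_mul, map_mul] at h2
    have h3 := ps_ne (hR z).ne
    rw [div_mul_eq_mul_div, div_eq_iff h3]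
    linear_combination h2
  refine ⟨⟨⟨fun z => ps k (Algebra.trace (P2 k) Ah (A' z)) / ps k (N' z), ?_⟩, ?_⟩, key⟩
  · have h : Rel i (0 : K) (0 : Ah) (1 : P2 k) :=
      ⟨one_ne_zero, 0, 1, one_ne_zero, by simp, by simp⟩
    have := key 0 0 1 h
    rw [map_one, mul_one, map_zero, map_zero] at this
    exact this
  · intro x y
    have h := rel_add (hR x) (hR y)
    have h1 := key _ _ _ h
    rw [map_add, trace_mul, trace_mul, map_add, map_mul, map_mul, map_mul] at h1
    have h2 := ps_ne (hR x).ne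
    have h3 := ps_ne (hR y).ne
    simp only
    rw [div_add_div _ _ h2 h3, eq_div_iff (mul_ne_zero h2 h3), h1]
    ring

/-- the derivative of a represented element -/
theorem rel_der [Algebra k K] {i : A →+* Ah} {δ : Derivation k A A}
    {D : Derivation k (P2 k) (P2 k)} {E : Derivation ℤ Ah Ah} (hi : ∀ a, E (i a) = i (δ a))
    (hu : ∀ u, E (algebraMap (P2 k) Ah u) = algebraMap (P2 k) Ah (D u) * i J)
    {d : Derivation k K K} (hd : ∀ a : A, algebraMap A K J * d (algebraMap A K a) =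
      algebraMap A K (δ a)) (hJ : J ≠ 0) {jJ : Ah} {m : P2 k} (hm : m ≠ 0)
    (hj : i J * jJ = algebraMap (P2 k) Ah m) {z : K} {a' : Ah} {n : P2 k} (h : Rel i z a' n) :
    Rel i (d z) (algebraMap (P2 k) Ah n * (jJ * E a') - algebraMap (P2 k) Ah (m * D n) * a')
      (m * n ^ 2) := by
  obtain ⟨a, c, hc, e1, e2⟩ := h.ex
  refine ⟨mul_ne_zero hm (pow_ne_zero 2 h.ne), c * δ a - a * δ c, J * c ^ 2,
    mul_ne_zero hJ (pow_ne_zero 2 hc), ?_, ?_⟩
  · have h1 := congrArg d e1
    rw [Derivation.leibniz] at h1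
    simp only [smul_eq_mul] at h1
    have h2 := hd a
    have h3 := hd c
    simp only [map_mul, map_sub, map_pow]
    rw [← h2, ← h3]
    linear_combination (algebraMap A K J * algebraMap A K c) * h1 -
      (algebraMap A K J * d (algebraMap A K c)) * e1
  · have h1 := congrArg E e2
    rw [Derivation.leibniz, Derivation.leibniz, hi, hi, hu] at h1
    simp only [smul_eq_mul] at h1
    simp only [map_mul, map_sub, map_pow]
    linear_combination
      (algebraMap (P2 k) Ah n * algebraMap (P2 k) Ah m * i c) * h1 +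
      (algebraMap (P2 k) Ah n * i c ^ 2 * E a' ) * hj
      - (algebraMap (P2 k) Ah n * algebraMap (P2 k) Ah m * i (δ c)) * e2
      - (algebraMap (P2 k) Ah m * algebraMap (P2 k) Ah (D n) * i J * i c) * e2

/-- the functional `a ↦ tr (a / J)` -/
theorem exists_tau {m : P2 k} (hm : m ≠ 0) {jJ : Ah}
    (hp : ∀ a : Ah, m ∣ Algebra.trace (P2 k) Ah (a * jJ)) :
    ∃ t : Ah →ₗ[P2 k] P2 k, ∀ a, m * t a = Algebra.trace (P2 k) Ah (a * jJ) := by
  choose t ht using hp
  refine ⟨⟨⟨t, ?_⟩, ?_⟩, fun a => (ht a).symm⟩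
  · intro x y
    apply mul_left_cancel₀ hm
    rw [← ht, mul_add, ← ht, ← ht, add_mul, map_add]
  · intro r x
    apply mul_left_cancel₀ hm
    rw [RingHom.id_apply, ← ht, smul_eq_mul, mul_left_comm, ← ht, smul_mul_assoc, map_smul,
      smul_eq_mul]

/-- the Gram matrix of a basis of the completion is invertible -/
theorem gram_b (b : Module.Basis (Fin l) (P2 k) Ah) {iJ jJ : Ah} {m : P2 k} (hm : m ≠ 0)
    (hj : iJ * jJ = algebraMap (P2 k) Ah m) (t : Ah →ₗ[P2 k] P2 k)
    (ht : ∀ a, m * t a = Algebra.trace (P2 k) Ah (a * jJ))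
    (hnd : ∀ a : Ah, (∀ c, Algebra.trace (P2 k) Ah (a * c) = 0) → a = 0)
    (hp2 : ∀ (a : Ah) (n : P2 k), n ≠ 0 → (∀ c, n ∣ Algebra.trace (P2 k) Ah (a * c)) →
      ∃ c, a * iJ = algebraMap (P2 k) Ah n * c) :
    IsUnit (Matrix.det (Matrix.of fun r s : Fin l => t (b r * b s))) := by
  classical
  set G : Matrix (Fin l) (Fin l) (P2 k) := Matrix.of fun r s : Fin l => t (b r * b s) with hG
  have hsum : ∀ (c x : Ah), t (x * c) = ∑ q, b.repr c q * t (x * b q) := by
    intro c x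
    conv_lhs => rw [← b.sum_repr c, Finset.mul_sum, map_sum]
    apply Finset.sum_congr rfl
    intro q _
    rw [mul_smul_comm, map_smul, smul_eq_mul]
  have hg : G.det ≠ 0 := by
    intro h0
    obtain ⟨v, hv, h1⟩ := Matrix.exists_mulVec_eq_zero_iff.2 h0
    apply hv
    set a : Ah := ∑ s, v s • b s with ha
    have h2 : ∀ r, t (b r * a) = 0 := by
      intro r
      have := congrFun h1 r
      rw [Matrix.mulVec, dotProduct] at this
      rw [ha, Finset.mul_sum, map_sum]
      simp only [Pi.zero_apply] at this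
      rw [← this]
      apply Finset.sum_congr rfl
      intro s _
      rw [mul_smul_comm, map_smul, smul_eq_mul, hG, Matrix.of_apply, mul_comm]
    have h3 : ∀ c, t (a * c) = 0 := by
      intro c
      rw [hsum]
      apply Finset.sum_eq_zero
      intro q _
      rw [mul_comm a, h2, mul_zero]
    have h4 : a * jJ = 0 := by
      apply hnd
      intro c
      have : a * jJ * c = a * c * jJ := by ring
      rw [this, ← ht, h3, mul_zero]
    have h5 : a = 0 := by
      apply cancelP b hm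
      rw [← hj, mul_zero]
      linear_combination iJ * h4
    funext s
    have h6 := congrArg (fun w => b.repr w s) h5
    simp only [map_zero, Finsupp.zero_apply] at h6
    rw [ha, b.repr_sum_self] at h6
    exact h6
  -- the dual basis
  set a' : Fin l → Ah := fun r => ∑ s, G.adjugate r s • b s with ha'
  have h1 : ∀ r q, t (a' r * b q) = if r = q then G.det else 0 := by
    intro r q
    have h2 : (G.adjugate * G) r q = ∑ s, G.adjugate r s * t (b s * b q) := by
      rw [Matrix.mul_apply]; rfl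
    rw [ha']
    simp only
    rw [Finset.sum_mul, map_sum]
    have h3 : ∀ s, t (G.adjugate r s • b s * b q) = G.adjugate r s * t (b s * b q) := by
      intro s
      rw [smul_mul_assoc, map_smul, smul_eq_mul]
    simp only [h3]
    rw [← h2, Matrix.adjugate_mul, Matrix.smul_apply, Matrix.one_apply, smul_eq_mul]
    split_ifs <;> simp
  have h2 : ∀ r c, t (a' r * c) = G.det * b.repr c r := by
    intro r c
    rw [hsum]
    simp only [h1, mul_ite, mul_zero]
    rw [Finset.sum_ite_eq, if_pos (Finset.mem_univ _), mul_comm]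
  have h3 : ∀ r, ∃ c, a' r = algebraMap (P2 k) Ah G.det * c := by
    intro r
    obtain ⟨c, hc⟩ := hp2 (a' r * jJ) (m * G.det) (mul_ne_zero hm hg) (by
      intro c
      have : a' r * jJ * c = a' r * c * jJ := by ring
      rw [this, ← ht, h2]
      exact ⟨b.repr c r, by ring⟩)
    refine ⟨c, cancelP b hm ?_⟩
    rw [map_mul] at hc
    linear_combination hc - a' r * hj
  choose c hc using h3
  have h4 : ∀ r q, t (c r * b q) = if r = q then 1 else 0 := by
    intro r q
    apply mul_left_cancel₀ hg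
    have h5 := h1 r q
    rw [hc, mul_assoc, ← Algebra.smul_def, map_smul, smul_eq_mul] at h5
    rw [h5]
    split_ifs <;> simp
  apply Matrix.isUnit_det_of_left_inverse (B := Matrix.of fun r s => b.repr (c r) s)
  refine Matrix.ext fun r q => ?_
  rw [Matrix.mul_apply, Matrix.one_apply, ← h4 r q, mul_comm (c r), hsum]
  apply Finset.sum_congr rfl
  intro s _
  rw [hG, Matrix.of_apply, Matrix.of_apply, mul_comm (b s)]

/-- the residue of a derivative vanishes: `T (d z) = ∂ (T z)` -/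
theorem T_der [Algebra k K] (b : Module.Basis (Fin l) (P2 k) Ah) {i : A →+* Ah}
    (hmul : ∀ a : A, a ≠ 0 → ∃ (a' : Ah) (n : P2 k), n ≠ 0 ∧ i a * a' = algebraMap (P2 k) Ah n)
    (htd : ∀ (D : Derivation k (P2 k) (P2 k)) (E : Derivation ℤ Ah Ah),
      (∀ u, E (algebraMap (P2 k) Ah u) = algebraMap (P2 k) Ah (D u) * i J) →
      ∀ (j' : Ah) (m : P2 k), i J * j' = algebraMap (P2 k) Ah m → ∀ z,
        Algebra.trace (P2 k) Ah (j' * E z) = m * D (Algebra.trace (P2 k) Ah z))
    {T : K →+ L2 k} (hT : ∀ (z : K) (a' : Ah) (n : P2 k), Rel i z a' n →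
      T z * ps k n = ps k (Algebra.trace (P2 k) Ah a'))
    {δ : Derivation k A A} {D : Derivation k (P2 k) (P2 k)} {E : Derivation ℤ Ah Ah}
    (hi : ∀ a, E (i a) = i (δ a))
    (hu : ∀ u, E (algebraMap (P2 k) Ah u) = algebraMap (P2 k) Ah (D u) * i J)
    {d : Derivation k K K} (hd : ∀ a : A, algebraMap A K J * d (algebraMap A K a) =
      algebraMap A K (δ a)) (hJ : J ≠ 0) (j : Fin 2) (hDL : ∀ u, ps k (D u) = dL k j (ps k u))
    (z : K) : T (d z) = dL k j (T z) := by
  obtain ⟨jJ, m, hm, hj⟩ := hmul J hJ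
  obtain ⟨a', n, h⟩ := exists_rel hmul z
  have h1 := hT _ _ _ (rel_der hi hu hd hJ hm hj h)
  have h2 := hT _ _ _ h
  have h3 := htd D E hu jJ m hj a'
  rw [map_sub, trace_mul, trace_mul, h3, map_sub, map_mul, map_mul, map_mul, map_mul, map_mul,
    map_pow, hDL, hDL] at h1
  have h4 := congrArg (dL k j) h2
  rw [dL_mul] at h4
  have hm' := ps_ne hm
  have hn' := ps_ne h.ne
  apply mul_right_cancel₀ (mul_ne_zero hm' (pow_ne_zero 2 hn'))
  rw [h1]
  linear_combination (-(ps k m * ps k n)) * h4 + (ps k m * dL k j (ps k n)) * h2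

/-- all the residue data except the change of basis -/
theorem aux [Algebra k K] [IsScalarTower k A K] (b : Module.Basis (Fin l) (P2 k) Ah) {i : A →+* Ah}
    (iC : ∀ r : k, i (algebraMap k A r) = algebraMap (P2 k) Ah (pC r))
    (iX : i X = algebraMap (P2 k) Ah pX) (iY : i Y = algebraMap (P2 k) Ah pY)
    (hX : X ≠ 0) (hY : Y ≠ 0) (hJ : J ≠ 0)
    (hmul : ∀ a : A, a ≠ 0 → ∃ (a' : Ah) (n : P2 k), n ≠ 0 ∧ i a * a' = algebraMap (P2 k) Ah n)
    (hnd : ∀ a : Ah, (∀ c, Algebra.trace (P2 k) Ah (a * c) = 0) → a = 0)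
    (hp1 : ∀ (a a' : Ah) (n : P2 k), n ≠ 0 → i J * a' = algebraMap (P2 k) Ah n →
      n ∣ Algebra.trace (P2 k) Ah (a * a'))
    (hp2 : ∀ (a : Ah) (n : P2 k), n ≠ 0 → (∀ c, n ∣ Algebra.trace (P2 k) Ah (a * c)) →
      ∃ c, a * i J = algebraMap (P2 k) Ah n * c)
    (htd : ∀ (D : Derivation k (P2 k) (P2 k)) (E : Derivation ℤ Ah Ah),
      (∀ u, E (algebraMap (P2 k) Ah u) = algebraMap (P2 k) Ah (D u) * i J) →
      ∀ (j' : Ah) (m : P2 k), i J * j' = algebraMap (P2 k) Ah m → ∀ z,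
        Algebra.trace (P2 k) Ah (j' * E z) = m * D (Algebra.trace (P2 k) Ah z))
    {δ0 δ1 : Derivation k A A} {D0 D1 : Derivation k (P2 k) (P2 k)} (hD : IsDP k D0 D1)
    {E0 E1 : Derivation ℤ Ah Ah} (hh : HatDer k i J δ0 δ1 D0 D1 E0 E1)
    (d0 d1 : Derivation k K K)
    (hd0 : ∀ a : A, algebraMap A K J * d0 (algebraMap A K a) = algebraMap A K (δ0 a))
    (hd1 : ∀ a : A, algebraMap A K J * d1 (algebraMap A K a) = algebraMap A K (δ1 a)) :
    ∃ (ρ : K →ₗ[k] k) (t : Ah →ₗ[P2 k] P2 k) (τ : A →ₗ[k] P2 k), (∀ a, τ a = t (i a)) ∧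
      (∀ z, ρ (d0 z) = 0) ∧ (∀ z, ρ (d1 z) = 0) ∧ (∀ a, τ (X * a) = pX * τ a) ∧
      (∀ a, τ (Y * a) = pY * τ a) ∧
      (∀ (a : A) (s t : ℕ), ρ (algebraMap A K a / (algebraMap A K J * algebraMap A K X ^ s *
        algebraMap A K Y ^ t)) = if s = 0 ∨ t = 0 then 0 else cf (s - 1) (t - 1) (τ a)) ∧
      IsUnit (Matrix.det (Matrix.of fun r s : Fin l => t (b r * b s))) := by
  obtain ⟨T, hT⟩ := exists_T (K := K) b hmul
  obtain ⟨jJ, m, hm, hj⟩ := hmul J hJ
  obtain ⟨t, ht⟩ := exists_tau hm (fun a => hp1 a jJ m hm hj)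
  have htC : ∀ (s : P2 k) (u : Ah), t (algebraMap (P2 k) Ah s * u) = s * t u := by
    intro s u
    rw [← Algebra.smul_def, map_smul, smul_eq_mul]
  let ρ : K →ₗ[k] k :=
    { toFun := fun z => res2 k (T z)
      map_add' := fun x y => by rw [map_add, map_add]
      map_smul' := by
        intro r z
        obtain ⟨a', n, h⟩ := exists_rel hmul z
        have h1 := hT _ _ _ (rel_smul h (iC r))
        have h2 := hT _ _ _ h
        have h3 : T (r • z) = ps k (io k (MvPolynomial.C r)) * T z := by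
          apply mul_right_cancel₀ (ps_ne h.ne)
          have h4 : r • z = algebraMap A K (algebraMap k A r) * z := by
            rw [← IsScalarTower.algebraMap_apply, Algebra.smul_def]
          rw [h4, h1, trace_mul, map_mul, ps_pC, mul_assoc, h2]
        rw [h3, res2_C, RingHom.id_apply, smul_eq_mul] }
  let τ : A →ₗ[k] P2 k :=
    { toFun := fun a => t (i a)
      map_add' := fun x y => by rw [map_add, map_add]
      map_smul' := by
        intro r a
        rw [Algebra.smul_def, map_mul, iC, htC, pC_mul, RingHom.id_apply] }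
  have hτ : ∀ a, τ a = t (i a) := fun a => rfl
  refine ⟨ρ, t, τ, hτ, ?_, ?_, ?_, ?_, ?_, gram_b b hm hj t ht hnd hp2⟩
  · intro z
    change res2 k (T (d0 z)) = 0
    rw [T_der b hmul htd hT hh.i0 hh.u0 hd0 hJ 0 (ps_D0 hD), res2_dL]
  · intro z
    change res2 k (T (d1 z)) = 0
    rw [T_der b hmul htd hT hh.i1 hh.u1 hd1 hJ 1 (ps_D1 hD), res2_dL]
  · intro a
    rw [hτ, hτ, map_mul, iX, htC]
  · intro a
    rw [hτ, hτ, map_mul, iY, htC]
  · intro a s q
    have hA : ∀ x : A, x ≠ 0 → algebraMap A K x ≠ 0 := fun x hx h =>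
      hx (IsFractionRing.injective A K (by rw [h, map_zero]))
    have hb : J * X ^ s * Y ^ q ≠ 0 :=
      mul_ne_zero (mul_ne_zero hJ (pow_ne_zero _ hX)) (pow_ne_zero _ hY)
    have hpX : (pX : P2 k) ≠ 0 := by
      intro h
      have := xi_ne (k := k) 0
      rw [← ps_pX, h, map_zero] at this
      exact this rfl
    have hpY : (pY : P2 k) ≠ 0 := by
      intro h
      have := xi_ne (k := k) 1
      rw [← ps_pY, h, map_zero] at this
      exact this rfl
    have hrel : Rel i (algebraMap A K a / (algebraMap A K J * algebraMap A K X ^ s *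
        algebraMap A K Y ^ q)) (i a * jJ) (m * pX ^ s * pY ^ q) := by
      refine ⟨mul_ne_zero (mul_ne_zero hm (pow_ne_zero _ hpX)) (pow_ne_zero _ hpY), a,
        J * X ^ s * Y ^ q, hb, ?_, ?_⟩
      · have h1 := hA _ hb
        rw [map_mul, map_mul, map_pow, map_pow] at h1 ⊢
        exact mul_div_cancel₀ _ h1
      · simp only [map_mul, map_pow, iX, iY]
        linear_combination (i a * algebraMap (P2 k) Ah pX ^ s * algebraMap (P2 k) Ah pY ^ q) * hj
    have h1 := hT _ _ _ hrel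
    change res2 k (T _) = _
    set w := T (algebraMap A K a / (algebraMap A K J * algebraMap A K X ^ s *
        algebraMap A K Y ^ q)) with hw
    rw [← ht, map_mul, map_mul, map_mul, map_pow, map_pow, ps_pX, ps_pY, ← hτ] at h1
    have h2 : xi k 0 ^ s * (xi k 1 ^ q * w) = ps k (τ a) := by
      apply mul_left_cancel₀ (ps_ne hm)
      rw [← h1]
      ring
    have h3 : (((ps k (τ a)).coeff ((q : ℤ) - 1)).coeff ((s : ℤ) - 1)) = res2 k w := by
      rw [← h2, coeff_xi0, coeff_xi1, res2_apply]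
      congr 2 <;> ring
    rw [← h3]
    split_ifs with h4
    · rcases h4 with h4 | h4
      · subst h4
        exact ps_neg' _ _ (by norm_num)
      · subst h4
        rw [ps_neg _ (by norm_num), HahnSeries.coeff_zero]
    · push Not at h4
      obtain ⟨s', rfl⟩ := Nat.exists_eq_succ_of_ne_zero h4.1
      obtain ⟨q', rfl⟩ := Nat.exists_eq_succ_of_ne_zero h4.2
      have e1 : ((s'.succ : ℕ) : ℤ) - 1 = (s' : ℤ) := by push_cast; ring
      have e2 : ((q'.succ : ℕ) : ℤ) - 1 = (q' : ℤ) := by push_cast; ring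
      rw [e1, e2, ps_coeff]
      rfl

end Res

end Pool.Agent.MIY
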