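import Mathlib
import Pool.Agent.MIY.Defs

/-!
The Gram determinant of a symmetric functional is a unit in every lifted basis (project MIY,
doc H/821812_MIY_37).
-/

set_option autoImplicit false

namespace Pool.Agent.MIY.ResG

section Gram

variable {k : Type} [Field k]

/-- the constant term, as a ring homomorphism -/
noncomputable def ct (k : Type) [Field k] : P2 k →+* k :=
  (PowerSeries.constantCoeff (R := k)).comp (PowerSeries.constantCoeff (R := PowerSeries k))

theorem ct_eq (u : P2 k) : ct k u = cf 0 0 u := by
  simp [ct, cf]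

theorem ct_pC (r : k) : ct k (pC r) = r := by
  simp [ct, pC]

theorem isUnit_of_ct {u : P2 k} (h : ct k u ≠ 0) : IsUnit u := by
  rw [PowerSeries.isUnit_iff_constantCoeff, PowerSeries.isUnit_iff_constantCoeff]
  exact isUnit_iff_ne_zero.mpr h

theorem van_one_of_ct {u : P2 k} (h : ct k u = 0) : Van 1 u := by
  intro i j hi hj
  obtain rfl : i = 0 := by omega
  obtain rfl : j = 0 := by omega
  rw [← ct_eq, h]

end Gram

end Pool.Agent.MIY.ResG

namespace Pool.Agent.MIY

open ResG in
theorem gram_change {k A : Type} [Field k] [CommRing A] [IsDomain A] [Algebra k A] {X Y : A} {l : ℕ}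
    {e : Fin l → A} {Ah : Type} [CommRing Ah] [Algebra (P2 k) Ah]
    {b : Module.Basis (Fin l) (P2 k) Ah} {i : A →+* Ah} (h : Hat k X Y e Ah b i)
    (he : LB (mu k A X) (mu k A Y) e) (t : Ah →ₗ[P2 k] P2 k)
    (hG : IsUnit (Matrix.det (Matrix.of fun r s : Fin l => t (b r * b s)))) {l' : ℕ}
    (e' : Fin l' → A) (he' : LB (mu k A X) (mu k A Y) e') :
    IsUnit (Matrix.det (Matrix.of fun r s : Fin l' => t (i (e' r) * i (e' s)))) := by
  classical
  have hmX : ∀ u : A, mu k A X u = X * u := fun u => rfl
  have hmY : ∀ u : A, mu k A Y u = Y * u := fun u => rfl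
  -- the matrix of `i (e' r)` in the basis `b` and its constant terms
  set C : Matrix (Fin l') (Fin l) (P2 k) := Matrix.of fun r s => b.repr (i (e' r)) s with hC
  set c0 : Matrix (Fin l') (Fin l) k := C.map (ct k) with hc0
  have hexp : ∀ r, i (e' r) = ∑ s, C r s • b s := fun r => (b.sum_repr (i (e' r))).symm
  -- `e' r = ∑ c0 r s e s` modulo `(X, Y)`
  have h1 : ∀ r, ∃ u v : A, e' r = ∑ s, c0 r s • e s + X * u + Y * v := by
    intro r
    obtain ⟨u, v, huv⟩ := h.sat 1 (e' r - ∑ s, c0 r s • e s) (by
      intro j
      apply van_one_of_ct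
      have hsm : i (∑ s, c0 r s • e s) = ∑ s, (pC (c0 r s) : P2 k) • b s := by
        rw [map_sum]
        refine Finset.sum_congr rfl fun s _ => ?_
        rw [Algebra.smul_def, map_mul, h.iC, h.be, ← Algebra.smul_def]
      rw [map_sub, hsm, map_sub, Finsupp.sub_apply, map_sub, b.repr_sum_self, ct_pC]
      exact sub_self _)
    exact ⟨u, v, by rw [pow_one, pow_one] at huv; linear_combination huv⟩
  choose u1 v1 h1 using h1
  have h2 : ∀ s, ∃ (r : Fin l' → k) (u v : A), e s = ∑ j, r j • e' j + X * u + Y * v :=
    fun s => he'.gen (e s)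
  choose d u2 v2 h2 using h2
  set D : Matrix (Fin l) (Fin l') k := Matrix.of d with hD
  -- `D * c0 = 1`
  have hDc : D * c0 = 1 := by
    ext s s'
    have hs := he.ind (fun x => (1 : Matrix (Fin l) (Fin l) k) s x - (D * c0) s x)
      ⟨∑ r, d s r • u1 r + u2 s, ∑ r, d s r • v1 r + v2 s, by
        rw [hmX, hmY]
        have e1 : ∑ x, (1 : Matrix (Fin l) (Fin l) k) s x • e x = e s := by
          simp [Matrix.one_apply]
        have e2 : ∑ x, (D * c0) s x • e x = ∑ r, d s r • ∑ x, c0 r x • e x := by
          simp only [Matrix.mul_apply, Finset.sum_smul, Finset.smul_sum, smul_smul]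
          rw [Finset.sum_comm]
          rfl
        have e3 : ∑ r, d s r • e' r = ∑ r, d s r • ∑ x, c0 r x • e x
            + X * ∑ r, d s r • u1 r + Y * ∑ r, d s r • v1 r := by
          rw [Finset.mul_sum, Finset.mul_sum, ← Finset.sum_add_distrib, ← Finset.sum_add_distrib]
          refine Finset.sum_congr rfl fun r _ => ?_
          rw [h1 r, smul_add, smul_add, mul_smul_comm, mul_smul_comm]
        simp only [sub_smul, Finset.sum_sub_distrib]
        rw [e1, e2]
        linear_combination h2 s + e3⟩
    have := congrFun hs s'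
    simp only [Pi.zero_apply, sub_eq_zero] at this
    exact this.symm
  -- `c0 * D = 1`
  have hcD : c0 * D = 1 := by
    ext s s'
    have hs := he'.ind (fun x => (1 : Matrix (Fin l') (Fin l') k) s x - (c0 * D) s x)
      ⟨∑ r, c0 s r • u2 r + u1 s, ∑ r, c0 s r • v2 r + v1 s, by
        rw [hmX, hmY]
        have e1 : ∑ x, (1 : Matrix (Fin l') (Fin l') k) s x • e' x = e' s := by
          simp [Matrix.one_apply]
        have e2 : ∑ x, (c0 * D) s x • e' x = ∑ r, c0 s r • ∑ x, d r x • e' x := by
          simp only [Matrix.mul_apply, Finset.sum_smul, Finset.smul_sum, smul_smul]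
          rw [Finset.sum_comm]
          rfl
        have e3 : ∑ r, c0 s r • e r = ∑ r, c0 s r • ∑ x, d r x • e' x
            + X * ∑ r, c0 s r • u2 r + Y * ∑ r, c0 s r • v2 r := by
          rw [Finset.mul_sum, Finset.mul_sum, ← Finset.sum_add_distrib, ← Finset.sum_add_distrib]
          refine Finset.sum_congr rfl fun r _ => ?_
          rw [h2 r, smul_add, smul_add, mul_smul_comm, mul_smul_comm]
        simp only [sub_smul, Finset.sum_sub_distrib]
        rw [e1, e2]
        linear_combination h1 s + e3⟩
    have := congrFun hs s'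
    simp only [Pi.zero_apply, sub_eq_zero] at this
    exact this.symm
  -- the two bases have the same length
  obtain rfl : l' = l := by
    have := Matrix.square_of_invertible c0 D hcD hDc
    simpa using this
  have hdet : IsUnit C.det := by
    apply isUnit_of_ct
    rw [RingHom.map_det]
    have : c0.det * D.det = 1 := by rw [← Matrix.det_mul, hcD, Matrix.det_one]
    exact left_ne_zero_of_mul_eq_one this
  have hmat : (Matrix.of fun r s : Fin l' => t (i (e' r) * i (e' s)))
      = C * (Matrix.of fun r s : Fin l' => t (b r * b s)) * C.transpose := by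
    refine Matrix.ext fun r s => ?_
    simp only [Matrix.of_apply, Matrix.mul_apply, Matrix.transpose_apply]
    rw [hexp r, hexp s, Finset.sum_mul_sum, map_sum, Finset.sum_congr rfl fun a _ => map_sum t _ _,
      Finset.sum_comm]
    refine Finset.sum_congr rfl fun c _ => ?_
    rw [Finset.sum_mul]
    refine Finset.sum_congr rfl fun a _ => ?_
    rw [smul_mul_smul_comm, map_smul, smul_eq_mul]
    ring
  rw [hmat, Matrix.det_mul, Matrix.det_mul, Matrix.det_transpose]
  exact (hdet.mul hG).mul hdet

end Pool.Agent.MIY
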