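import Pool.Agent.MIY.Defs

/-!
Literals of part 1 (doc Q1/MIY). Copy your theorem verbatim into your own file, prove it there.
-/

set_option autoImplicit false

namespace Pool.Agent.MIY

open Pool.Agent.LNDF

section Cmp

variable {k M : Type} [Field k] [AddCommGroup M] [Module k M] {x y : M →ₗ[k] M}

/-- Cmp1 -/
theorem exists_lb (h : Fg2 x y) : ∃ (ν : ℕ) (b : Fin ν → M), LB x y b := sorry

/-- Cmp1 -/
theorem exists_cm (h : Reg2 x y) {ν : ℕ} {b : Fin ν → M} (hb : LB x y b) :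
    ∃ κ : M →ₗ[k] (Fin ν → P2 k), Cm x y b κ := sorry

/-- Cmp2 -/
theorem Cm.gen {ν : ℕ} {b : Fin ν → M} {κ : M →ₗ[k] (Fin ν → P2 k)} (h : Cm x y b κ) (n : ℕ) (a : M) :
    ∃ (m : M) (u v : M), a = m + (x ^ n) u + (y ^ n) v ∧ m = ∑ j, ∑ p ∈ Finset.range n,
      ∑ q ∈ Finset.range n, cf p q (κ a j) • (x ^ p) ((y ^ q) (b j)) := sorry

/-- Cmp2 -/
theorem Cm.univ {ν : ℕ} {b : Fin ν → M} {κ : M →ₗ[k] (Fin ν → P2 k)} (h : Cm x y b κ) {t : ℕ}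
    (ψ : M →ₗ[k] (Fin t → P2 k)) (hx : ∀ a i, ψ (x a) i = pX * ψ a i)
    (hy : ∀ a i, ψ (y a) i = pY * ψ a i) (a : M) (i : Fin t) :
    ψ a i = ∑ j, κ a j * ψ (b j) i := sorry

end Cmp

section Hat

variable {k A : Type} [Field k] [CommRing A] [IsDomain A] [Algebra k A] {X Y J : A}
  {δ0 δ1 : Derivation k A A}

/-- Mat1 -/
theorem exists_hat (hX : X ≠ 0) (hreg : ∀ a b : A, Y * a = X * b → ∃ c, a = X * c) {l : ℕ}
    {e : Fin l → A} (he : LB (mu k A X) (mu k A Y) e) :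
    ∃ (Ah : Type) (_ : CommRing Ah) (_ : Algebra (P2 k) Ah) (b : Module.Basis (Fin l) (P2 k) Ah)
      (i : A →+* Ah), Hat k X Y e Ah b i := sorry

/-- PDer -/
theorem exists_isDP (k : Type) [Field k] : ∃ D0 D1 : Derivation k (P2 k) (P2 k), IsDP k D0 D1 := sorry

variable {l : ℕ} {e : Fin l → A} {Ah : Type} [CommRing Ah] [Algebra (P2 k) Ah]
  {b : Module.Basis (Fin l) (P2 k) Ah} {i : A →+* Ah}

/-- Mat3 -/
theorem exists_hatDer (h : Hat k X Y e Ah b i) {D0 D1 : Derivation k (P2 k) (P2 k)}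
    (hD : IsDP k D0 D1) (h0X : δ0 X = J) (h0Y : δ0 Y = 0) (h1X : δ1 X = 0) (h1Y : δ1 Y = J) :
    ∃ E0 E1 : Derivation ℤ Ah Ah, HatDer k i J δ0 δ1 D0 D1 E0 E1 := sorry

/-- Mat2 -/
theorem Hat.exists_mul (hE : Env2 k X Y J δ0 δ1) (h : Hat k X Y e Ah b i) {a : A} (ha : a ≠ 0) :
    ∃ (a' : Ah) (n : P2 k), n ≠ 0 ∧ i a * a' = algebraMap (P2 k) Ah n := sorry

/-- Mat2 -/
theorem Hat.trace_nd [CharZero k] (hE : Env2 k X Y J δ0 δ1) (h : Hat k X Y e Ah b i) (a : Ah)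
    (ha : ∀ c, Algebra.trace (P2 k) Ah (a * c) = 0) : a = 0 := sorry

/-- Del1 -/
theorem stab_pow [CharZero k] [IsAlgClosed k] [UniqueFactorizationMonoid A]
    (hE : Env2 k X Y J δ0 δ1) (h : Hat k X Y e Ah b i) {D0 D1 : Derivation k (P2 k) (P2 k)}
    (hD : IsDP k D0 D1) {E0 E1 : Derivation ℤ Ah Ah} (hh : HatDer k i J δ0 δ1 D0 D1 E0 E1)
    (I : Ideal Ah) (h0 : ∀ a ∈ I, E0 a ∈ I) (h1 : ∀ a ∈ I, E1 a ∈ I)
    (hn : ∃ n : P2 k, n ≠ 0 ∧ algebraMap (P2 k) Ah n ∈ I) :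
    (∃ s : ℕ, algebraMap (P2 k) Ah pX ^ s ∈ I) ∧ ∃ s : ℕ, algebraMap (P2 k) Ah pY ^ s ∈ I := sorry

/-- Per1 -/
theorem per1 [CharZero k] [IsAlgClosed k] [UniqueFactorizationMonoid A]
    (hE : Env2 k X Y J δ0 δ1) (h : Hat k X Y e Ah b i) (a a' : Ah) (n : P2 k) (hn : n ≠ 0)
    (ha : i J * a' = algebraMap (P2 k) Ah n) : n ∣ Algebra.trace (P2 k) Ah (a * a') := sorry

/-- Per2 -/
theorem per2 [CharZero k] [IsAlgClosed k] [UniqueFactorizationMonoid A]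
    (hE : Env2 k X Y J δ0 δ1) (h : Hat k X Y e Ah b i) (a : Ah) (n : P2 k) (hn : n ≠ 0)
    (ha : ∀ c, n ∣ Algebra.trace (P2 k) Ah (a * c)) :
    ∃ c, a * i J = algebraMap (P2 k) Ah n * c := sorry

/-- Res: the residue theorem -/
theorem residue [CharZero k] [IsAlgClosed k] [UniqueFactorizationMonoid A]
    (hE : Env2 k X Y J δ0 δ1) (K : Type) [Field K] [Algebra A K] [IsFractionRing A K] [Algebra k K]
    [IsScalarTower k A K] (d0 d1 : Derivation k K K)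
    (hd0 : ∀ a : A, algebraMap A K J * d0 (algebraMap A K a) = algebraMap A K (δ0 a))
    (hd1 : ∀ a : A, algebraMap A K J * d1 (algebraMap A K a) = algebraMap A K (δ1 a)) :
    ∃ (ρ : K →ₗ[k] k) (τ : A →ₗ[k] P2 k), ResD k K X Y J d0 d1 ρ τ := sorry

end Hat

section Pure

/-- RSpl -/
theorem res_split {k A : Type} [Field k] [CommRing A] [IsDomain A] [Algebra k A] {X Y J : A}
    {K : Type} [Field K] [Algebra A K] [IsFractionRing A K] [Algebra k K] [IsScalarTower k A K]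
    {d0 d1 : Derivation k K K} {ρ : K →ₗ[k] k} {τ : A →ₗ[k] P2 k} (hR : ResD k K X Y J d0 d1 ρ τ)
    (hJ : J ≠ 0) (hf : Fg2 (mu k A X) (mu k A Y)) (hr : Reg2 (mu k A X) (mu k A Y)) (n : ℕ) (x : K)
    (z : A) (hz : algebraMap A K z = algebraMap A K X ^ n * algebraMap A K Y ^ n * x)
    (h0 : ∀ a : A, ρ (algebraMap A K a * x / algebraMap A K J) = 0) :
    ∃ u v : A, z = X ^ n * u + Y ^ n * v := sorry

/-- TrDer -/
theorem trace_der {R S : Type} [CommRing R] [CommRing S] [Algebra R S] {l : ℕ}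
    (b : Module.Basis (Fin l) R S) (D : Derivation ℤ R R) (E : Derivation ℤ S S)
    (hE : ∀ r, E (algebraMap R S r) = algebraMap R S (D r)) (z : S) :
    Algebra.trace R S (E z) = D (Algebra.trace R S z) := sorry

/-- Dual -/
theorem dual {k A : Type} [Field k] [CommRing A] [IsDomain A] [Algebra k A] {X Y : A}
    (τ : A →ₗ[k] P2 k) (tX : ∀ a, τ (X * a) = pX * τ a) (tY : ∀ a, τ (Y * a) = pY * τ a)
    (hAf : Fg2 (mu k A X) (mu k A Y)) (hAr : Reg2 (mu k A X) (mu k A Y))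
    (gram : ∀ {l : ℕ} (e : Fin l → A), LB (mu k A X) (mu k A Y) e →
      IsUnit (Matrix.det (Matrix.of fun i j : Fin l => τ (e i * e j))))
    {F G : Type} [AddCommGroup F] [AddCommGroup G] [Module k F] [Module k G] [Module A F]
    [Module A G] [IsScalarTower k A F] [IsScalarTower k A G] (β : F →ₗ[A] G →ₗ[A] A)
    (hFr : Reg2 (mu k F X) (mu k F Y)) (hFf : Fg2 (mu k F X) (mu k F Y))
    (hGX : ∀ g : G, X • g = 0 → g = 0) (hGY : ∀ g : G, Y • g = 0 → g = 0) (G' : Submodule A G)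
    (hker : ∀ g, g ∈ G' ↔ ∀ b, β b g = 0) (n : ℕ)
    (hX : ∃ (r : ℕ) (f : Fin r → F) (g : Fin r → G),
      (∀ i j, β (f i) (g j) = if i = j then X ^ n else 0) ∧
      ∀ x : F, ∃ a : Fin r → A, X ^ n • x = ∑ i, a i • f i)
    (hY : ∃ (r : ℕ) (f : Fin r → F) (g : Fin r → G),
      (∀ i j, β (f i) (g j) = if i = j then Y ^ n else 0) ∧
      ∀ x : F, ∃ a : Fin r → A, Y ^ n • x = ∑ i, a i • f i)
    (s : G) (hs : ∀ b, ∃ u v : A, β b s = X ^ n * u + Y ^ n * v) :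
    ∃ (m : ℕ) (g' : G) (u v : G), g' ∈ G' ∧
      (X * Y) ^ m • s = g' + X ^ (n + m) • u + Y ^ (n + m) • v := sorry

end Pure

end Pool.Agent.MIY
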