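import Mathlib
import Pool.Agent.MIY.Defs2
import Pool.Agent.LNDF.Tau

/-!
Literals of part 2 (doc Q1/MIY). Copy your theorem verbatim into your own file, prove it there.
-/

set_option autoImplicit false

open Polynomial

namespace Pool.Agent.MIY

open Pool.Agent.LNDF Pool.Agent.LNDHom

variable {k : Type} [Field k] [CharZero k] {D : Derivation k (B3 k) (B3 k)}

section Ker2

/-- Ker2 -/
theorem LN.fc (hD : LN D) {a b : B3 k} (hab : a * b ≠ 0) (h : D (a * b) = 0) : D a = 0 ∧ D b = 0 := sorry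

/-- Ker2 -/
theorem LN.dvd (hD : LN D) {a b : kerAlg D} : (a : B3 k) ∣ (b : B3 k) ↔ a ∣ b := sorry

/-- Ker2 -/
theorem LN.prime (hD : LN D) {p : kerAlg D} : Prime p ↔ Prime (p : B3 k) := sorry

/-- Ker2 -/
theorem LN.ufd (hD : LN D) : UniqueFactorizationMonoid (kerAlg D) := sorry

/-- Ker2 -/
theorem ker_unit (hD : LN D) {a : kerAlg D} (ha : IsUnit a) : ∃ t : k, t ≠ 0 ∧ a = algebraMap k (kerAlg D) t := sorry

/-- Ker2: some variable is not in the kernel; no nonzero kernel element is a multiple of it -/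
theorem ker_var (hD : LN D) : ∃ i : Fin 3, (MvPolynomial.X i : B3 k) ∉ kerAlg D ∧
    ∀ a ∈ kerAlg D, MvPolynomial.X i ∣ a → a = 0 := sorry

/-- Ker2: a local slice exists -/
theorem ker_slice (hD : LN D) : ∃ (r : B3 k) (c : kerAlg D), c ≠ 0 ∧ D r = c := sorry

/-- Ker2: growth gives at most two algebraically independent elements, BezB.bez_dep -/
theorem ker_dep (hD : LN D) (a : Fin 3 → kerAlg D) : ¬ AlgebraicIndependent k a := sorry

/-- Ker2 (from Bez / BezB) -/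
theorem ker_fin (hD : LN D) {p q : kerAlg D} (hp : p ≠ 0) (hq : q ≠ 0) (hpq : IsRelPrime p q) :
    Fg2 (mu k (kerAlg D) p) (mu k (kerAlg D) q) := sorry

end Ker2

section IotE

/-- IotE -/
theorem ker_rep (hD : LN D) {r : B3 k} {c : kerAlg D} (hc : c ≠ 0) (hr : D r = c) (b : B3 k) :
    ∃ (a : kerAlg D) (P : (kerAlg D)[X]), a ≠ 0 ∧ (a : B3 k) * b = aeval r P := sorry

/-- IotE: a derivation into a torsion free module, killing `ker D` and `r`, is zero -/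
theorem der_zero (hD : LN D) {r : B3 k} {c : kerAlg D} (hc : c ≠ 0) (hr : D r = c)
    (E : Derivation k (B3 k) (B3 k)) (h1 : ∀ a : kerAlg D, E a = 0) (h2 : E r = 0) : E = 0 := sorry

variable {r : B3 k} {c : kerAlg D} {K : Type} [Field K] [Algebra (kerAlg D) K]
  [IsFractionRing (kerAlg D) K] [Algebra k K] [IsScalarTower k (kerAlg D) K] {ι : B3 k →ₐ[k] K[X]}

/-- IotE -/
theorem exists_iot (hD : LN D) {r : B3 k} {c : kerAlg D} (hc : c ≠ 0) (hr : D r = c) (K : Type) [Field K]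
    [Algebra (kerAlg D) K] [IsFractionRing (kerAlg D) K] [Algebra k K] [IsScalarTower k (kerAlg D) K] :
    ∃ ι : B3 k →ₐ[k] K[X], Iot D r c K ι := sorry

/-- IotE (copy of Slice.der_ext) -/
theorem Iot.der_ext (h : Iot D r c K ι) (hD : LN D) (d e : B3 k →ₗ[k] K[X])
    (hd : ∀ a b, d (a * b) = ι a * d b + ι b * d a) (he : ∀ a b, e (a * b) = ι a * e b + ι b * e a)
    (h1 : ∀ a : kerAlg D, d a = e a) (h3 : d r = e r) : d = e := sorry

end IotE

section IotB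

variable {r : B3 k} {c : kerAlg D} {K : Type} [Field K] [Algebra (kerAlg D) K]
  [IsFractionRing (kerAlg D) K] [Algebra k K] [IsScalarTower k (kerAlg D) K] {ι : B3 k →ₐ[k] K[X]}

/-- IotB -/
theorem Iot.iter (h : Iot D r c K ι) (n : ℕ) (b : B3 k) :
    ι ((⇑D)^[n] b) = C (algebraMap (kerAlg D) K c ^ n) * (⇑derivative)^[n] (ι b) := sorry

/-- IotB -/
theorem Iot.deg_lt_iff (h : Iot D r c K ι) (n : ℕ) (b : B3 k) :
    (ι b).degree < (n : ℕ) ↔ (⇑D)^[n] b = 0 := sorry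

/-- IotB -/
theorem Iot.deg_iff (h : Iot D r c K ι) (n : ℕ) (b : B3 k) :
    (ι b).natDegree ≤ n ↔ (⇑D)^[n + 1] b = 0 := sorry

/-- IotB -/
theorem Iot.top (h : Iot D r c K ι) (n : ℕ) (b : B3 k) (hb : (ι b).natDegree ≤ n) :
    ι ((⇑D)^[n] b) = C ((n.factorial : K) * algebraMap (kerAlg D) K c ^ n * (ι b).coeff n) := sorry

/-- IotB -/
theorem Iot.denom (h : Iot D r c K ι) (P : K[X]) :
    ∃ (a : kerAlg D) (b : B3 k), a ≠ 0 ∧ ι b = C (algebraMap (kerAlg D) K a) * P := sorry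

/-- IotB -/
theorem Iot.inter (h : Iot D r c K ι) (x : K) (b : B3 k) (hb : ι b = C x) :
    ∃ a : kerAlg D, b = a ∧ algebraMap (kerAlg D) K a = x := sorry

end IotB

section Br

/-- JKer: dependent polynomials have Jacobian determinant zero -/
theorem jac_dep {a b c : B3 k} (h : ¬ AlgebraicIndependent k ![a, b, c]) : jac3 a b c = 0 := sorry

/-- Br1 -/
theorem exists_brk (hD : LN D) (X Y : kerAlg D) :
    ∃ δ0 δ1 : Derivation k (kerAlg D) (kerAlg D), Brk D X Y δ0 δ1 := sorry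

variable {X Y : kerAlg D} {δ0 δ1 : Derivation k (kerAlg D) (kerAlg D)}

/-- Br1 -/
theorem Brk.facts (h : Brk D X Y δ0 δ1) (hD : LN D) : δ0 Y = 0 ∧ δ1 X = 0 ∧ δ1 Y = δ0 X := sorry

/-- Br2 -/
theorem Brk.ne (h : Brk D X Y δ0 δ1) (hD : LN D) (hind : AlgebraicIndependent k ![X, Y]) : δ0 X ≠ 0 := sorry

end Br

section Env

/-- Env1 -/
theorem env_of [IsAlgClosed k] (hD : LN D) {X Y : kerAlg D} (hX : X ≠ 0) (hY : Y ≠ 0)
    (hco : IsRelPrime X Y) (hind : AlgebraicIndependent k ![X, Y]) (hne : Ideal.span {X, Y} ≠ ⊤)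
    {δ0 δ1 : Derivation k (kerAlg D) (kerAlg D)} (hB : Brk D X Y δ0 δ1) :
    Env2 k X Y (δ0 X) δ0 δ1 := sorry

end Env

section Kder

omit [CharZero k] in
/-- KDer -/
theorem exists_dK {A : Type} [CommRing A] [IsDomain A] [Algebra k A] (K : Type) [Field K] [Algebra A K]
    [IsFractionRing A K] [Algebra k K] [IsScalarTower k A K] (δ : Derivation k A A) {J : A}
    (hJ : J ≠ 0) : ∃ d : Derivation k K K,
      ∀ a : A, algebraMap A K J * d (algebraMap A K a) = algebraMap A K (δ a) := sorry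

variable {X Y : kerAlg D} {δ0 δ1 : Derivation k (kerAlg D) (kerAlg D)}
  {r : B3 k} {c : kerAlg D} {K : Type} [Field K] [Algebra (kerAlg D) K]
  [IsFractionRing (kerAlg D) K] [Algebra k K] [IsScalarTower k (kerAlg D) K] {ι : B3 k →ₐ[k] K[X]}
  {d0 d1 : Derivation k K K}

/-- Chn: chain rule -/
theorem chain (hD : LN D) (hι : Iot D r c K ι) (hB : Brk D X Y δ0 δ1) (hJ : δ0 X ≠ 0)
    (hd : Kd K (δ0 X) δ0 δ1 d0 d1) (l : Fin 3) (b : B3 k) :
    ι (MvPolynomial.pderiv l b) = vf d0 d1 (ι (MvPolynomial.pderiv l (X : B3 k)))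
      (ι (MvPolynomial.pderiv l (Y : B3 k))) (ι (MvPolynomial.pderiv l r)) (ι b) := sorry

/-- Chn: `Jac(X, Y, r) = J c` -/
theorem jac_r (hι : Iot D r c K ι) (hB : Brk D X Y δ0 δ1) :
    jac3 (X : B3 k) Y r = ((δ0 X * c : kerAlg D) : B3 k) := sorry

/-- Div2: Cramer -/
theorem cramer (hD : LN D) (hι : Iot D r c K ι) (hB : Brk D X Y δ0 δ1) (hJ : δ0 X ≠ 0)
    (hd : Kd K (δ0 X) δ0 δ1 d0 d1) (b : B3 k) :
    ι (jac3 b Y r) = C (algebraMap (kerAlg D) K (δ0 X * c)) * mc d0 (ι b) ∧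
    ι (jac3 (X : B3 k) b r) = C (algebraMap (kerAlg D) K (δ0 X * c)) * mc d1 (ι b) ∧
    ι (jac3 (X : B3 k) Y b) = C (algebraMap (kerAlg D) K (δ0 X * c)) * derivative (ι b) := sorry

/-- Div2: divergence -/
theorem divg (hD : LN D) (hι : Iot D r c K ι) (hB : Brk D X Y δ0 δ1) (hJ : δ0 X ≠ 0)
    (hd : Kd K (δ0 X) δ0 δ1 d0 d1) :
    C (algebraMap (kerAlg D) K (δ0 X * c)) * (mc d0 (ι (MvPolynomial.pderiv 0 (X : B3 k))) +
      mc d1 (ι (MvPolynomial.pderiv 0 (Y : B3 k))) + derivative (ι (MvPolynomial.pderiv 0 r))) =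
    ι (MvPolynomial.pderiv 0 (X : B3 k)) * C (d0 (algebraMap (kerAlg D) K (δ0 X * c))) +
      ι (MvPolynomial.pderiv 0 (Y : B3 k)) * C (d1 (algebraMap (kerAlg D) K (δ0 X * c))) := sorry

end Kder

section Pio

/-- Pio (pure): Piola with density `1 / (J c)` -/
theorem piola {K : Type} [Field K] [CharZero K] [Algebra k K] (d0 d1 : Derivation k K K) {J c : K}
    (hJ : J ≠ 0) (hc : c ≠ 0) (x0 x1 xT : K[X])
    (hdiv : C (J * c) * (mc d0 x0 + mc d1 x1 + derivative xT) = x0 * C (d0 (J * c)) + x1 * C (d1 (J * c)))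
    (u b W : K[X]) (hu : vf d0 d1 x0 x1 xT u = b) (hW : C c * derivative W = b) :
    ∃ (U0 U1 : K[X]) (κ : K), ∀ Q : K[X], Q.Monic → 0 < Q.natDegree →
      J⁻¹ * TQ Q W = d0 (TQ Q U0) + d1 (TQ Q U1) + (J * c)⁻¹ * tau Q (u * vf d0 d1 x0 x1 xT Q) +
        κ * Q.natDegree := sorry

end Pio

end Pool.Agent.MIY
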