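import Mathlib
import Pool.Agent.MIY.FDef
import Pool.Agent.MIY.Sur2

/-!
Literals of part 3 over the model `M2` (captain 99). Copy your theorem verbatim into your own file,
prove it there; never import this file in a landed file.
-/

set_option autoImplicit false
set_option linter.unusedVariables false

open Polynomial

namespace Pool.Agent.MIY

section

variable {k A K : Type} [Field k] [CharZero k] [CommRing A] [IsDomain A] [Algebra k A] [Field K]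
  [Algebra A K] [IsFractionRing A K] [Algebra k K] [CharZero K] [IsScalarTower k A K]

/-- RSpl -/
theorem res_split {X Y J : A} {d0 d1 : Derivation k K K} {ρ : K →ₗ[k] k} {τ : A →ₗ[k] P2 k}
    (hR : ResD k K X Y J d0 d1 ρ τ) (hX : X ≠ 0) (hY : Y ≠ 0)
    (hr : Reg2 (mu k A X) (mu k A Y)) (hf : Fg2 (mu k A X) (mu k A Y)) (n : ℕ) (x : K) (z : A)
    (hz : algebraMap A K z = algebraMap A K X ^ n * algebraMap A K Y ^ n * x)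
    (h0 : ∀ a : A, ρ (algebraMap A K a * x / algebraMap A K J) = 0) :
    ∃ u v : A, z = X ^ n * u + Y ^ n * v := sorry

/-- Lam2: from `M2.key` for `z ↦ ρ (al a * z)`, `integral`, `res_split` -/
theorem M2.lam2 (M : M2 k A K) (hr : Reg2 (mu k A M.x) (mu k A M.y))
    (hf : Fg2 (mu k A M.x) (mu k A M.y)) {ρ : K →ₗ[k] k} {τ : A →ₗ[k] P2 k}
    (hR : ResD k K M.x M.y M.J M.d0 M.d1 ρ τ) {Q0 Q1 : K[X]} (h0 : M.Good M.x Q0)
    (h1 : M.Good M.y Q1) {i : ℕ} (hi : 1 ≤ i) (hiN : i ≤ M.N)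
    (hS : (Q0 - Q1).degree < (M.N + 1 - i : ℕ)) (n : ℕ) (s : K[X])
    (hs : s = C (al (M.x ^ n * M.y ^ n)) * (Q0 - Q1)) (hsS : s ∈ M.S) (b : K[X]) (hb : b ∈ M.Fs i)
    (z : A) (hz : (al z : K) = M.R Q0 (b * s)) : ∃ u v : A, z = M.x ^ n * u + M.y ^ n * v := sorry

/-- BetaA: the pairing `F i × F N → A`, integral over `A[1/x]` by `Q0` and over `A[1/y]` by `Q1` -/
theorem M2.exists_beta (M : M2 k A K) (hr : Reg2 (mu k A M.x) (mu k A M.y)) {Q0 Q1 : K[X]}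
    (h0 : M.Good M.x Q0) (h1 : M.Good M.y Q1) {i : ℕ} (hi : 1 ≤ i) (hiN : i ≤ M.N)
    (hS : (Q0 - Q1).degree < (M.N + 1 - i : ℕ)) :
    ∃ β : M.Fs i →ₗ[A] M.Fs M.N →ₗ[A] A, ∀ b g, (al (β b g) : K) = M.R Q0 ((b : K[X]) * g) ∧
      (al (β b g) : K) = M.R Q1 ((b : K[X]) * g) := sorry

/-- BetaA: the kernel of the pairing (`R_zero`-type for `⟸`: degree of `b * g` is `< N - 1`; `orth` for `⟹`) -/
theorem M2.beta_ker (M : M2 k A K) {d : A} {Q : K[X]} (hQ : M.Good d Q) {i : ℕ} (hi : 1 ≤ i)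
    (hiN : i ≤ M.N) (β : M.Fs i →ₗ[A] M.Fs M.N →ₗ[A] A)
    (hβ : ∀ b g, (al (β b g) : K) = M.R Q ((b : K[X]) * g)) (g : M.Fs M.N) :
    g ∈ M.Fj M.N (M.N - i) ↔ ∀ b, β b g = 0 := sorry

/-- BaX: the adapted and dual families of `dual`, uniformly bounded denominators -/
theorem M2.bax (M : M2 k A K) {d : A} (hd : d ≠ 0) {q : ℕ → K[X]} (hq : M.Adapted d q)
    {Q : K[X]} (hQ : M.Good d Q) {i : ℕ} (hiN : i ≤ M.N) (β : M.Fs i →ₗ[A] M.Fs M.N →ₗ[A] A)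
    (hβ : ∀ b g, (al (β b g) : K) = M.R Q ((b : K[X]) * g)) :
    ∃ n0 : ℕ, ∀ n ≥ n0, ∃ (r : ℕ) (f : Fin r → M.Fs i) (g : Fin r → M.Fs M.N),
      (∀ a b, β (f a) (g b) = if a = b then d ^ n else 0) ∧
      ∀ v : M.Fs i, ∃ a : Fin r → A, d ^ n • v = ∑ j, a j • f j := sorry

/-- Fin2 -/
theorem M2.F_reg (M : M2 k A K)
    (hS : ∀ a ∈ M.S, ∀ b ∈ M.S, M.y • a = M.x • b → ∃ c ∈ M.S, a = M.x • c) (n : ℕ) :
    Reg2 (mu k (M.Fs n) M.x) (mu k (M.Fs n) M.y) := sorry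

/-- Fin2: induction by `F n → F (n+1) → J_n`, `J_n ∋ x, y` (`cc_dvd`, `cc_x`, `cc_y`) -/
theorem M2.F_fg (M : M2 k A K) (hf : Fg2 (mu k A M.x) (mu k A M.y)) {n : ℕ} (hn : n ≤ M.N + 1) :
    Fg2 (mu k (M.Fs n) M.x) (mu k (M.Fs n) M.y) := sorry

/-- Stp2 (`dual` is used here) -/
theorem M2.close_succ (M : M2 k A K) (hr : Reg2 (mu k A M.x) (mu k A M.y))
    (hf : Fg2 (mu k A M.x) (mu k A M.y))
    (hSr : ∀ a ∈ M.S, ∀ b ∈ M.S, M.y • a = M.x • b → ∃ c ∈ M.S, a = M.x • c)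
    {ρ : K →ₗ[k] k} {τ : A →ₗ[k] P2 k}
    (hR : ResD k K M.x M.y M.J M.d0 M.d1 ρ τ) {i : ℕ} (hi : 1 ≤ i) (hiN : i ≤ M.N)
    (h : ∃ Q0 Q1 : K[X], M.Good M.x Q0 ∧ M.Good M.y Q1 ∧ (Q0 - Q1).degree < (M.N + 1 - i : ℕ)) :
    ∃ Q0 Q1 : K[X], M.Good M.x Q0 ∧ M.Good M.y Q1 ∧ (Q0 - Q1).degree < (M.N + 1 - (i + 1) : ℕ) :=
  sorry

/-- Mai2: end of part 3 for a model -/
theorem M2.main (M : M2 k A K) (hr : Reg2 (mu k A M.x) (mu k A M.y))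
    (hf : Fg2 (mu k A M.x) (mu k A M.y))
    (hSr : ∀ a ∈ M.S, ∀ b ∈ M.S, M.y • a = M.x • b → ∃ c ∈ M.S, a = M.x • c)
    {ρ : K →ₗ[k] k} {τ : A →ₗ[k] P2 k} (hR : ResD k K M.x M.y M.J M.d0 M.d1 ρ τ) :
    ∃ G ∈ M.S, G.natDegree ≤ M.N ∧ (M.N.factorial : K) * al M.c ^ M.N * G.coeff M.N = al (M.cc M.N) :=
  sorry

end

end Pool.Agent.MIY
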