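import Mathlib

/-!
# MIY/TrNd: semisimple commuting families, nondegeneracy of the trace (6)
-/

set_option autoImplicit false

namespace Pool.Agent.MIY

open Polynomial

/-- in characteristic zero, a semisimple endomorphism `M` with `tr (M q(M)) = 0` for all `q` is zero -/
theorem end_eq_zero {L V : Type*} [Field L] [CharZero L] [AddCommGroup V] [Module L V] [FiniteDimensional L V]
    {M : Module.End L V} (hM : M.IsSemisimple) (h : ∀ q : L[X], LinearMap.trace L V (M * aeval M q) = 0) : M = 0 := by
  have hsq := hM.minpoly_squarefree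
  have hne : minpoly L M ≠ 0 := minpoly.ne_zero (Algebra.IsIntegral.isIntegral M)
  have hcom : ∀ p : L[X], M * aeval M p = aeval M p * M := by
    intro p
    have h1 : aeval M (X * p) = aeval M (p * X) := by rw [mul_comm]
    rwa [map_mul, map_mul, aeval_X] at h1
  -- `minpoly = X ^ s * g`, `s ≤ 1`, `g` coprime to `X`
  obtain ⟨s, g, hs, hg⟩ : ∃ (s : ℕ) (g : L[X]), minpoly L M = X ^ s * g ∧ IsCoprime X g := by
    obtain ⟨g, h1, h2⟩ := exists_eq_pow_rootMultiplicity_mul_and_not_dvd (minpoly L M) hne 0
    rw [C_0, sub_zero] at h1 h2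
    exact ⟨_, g, h1, (irreducible_X.coprime_iff_not_dvd).2 h2⟩
  have hs1 : s ≤ 1 := by
    by_contra hs2
    push Not at hs2
    have h2 : X * X ∣ minpoly L M := by
      rw [hs, ← pow_two]
      exact (pow_dvd_pow X hs2).mul_right g
    exact not_isUnit_X (hsq X h2)
  have h0 : M * aeval M g = 0 := by
    have h3 : minpoly L M ∣ X * g := by
      rw [hs]
      have : (X : L[X]) ^ s ∣ X := by
        conv_rhs => rw [← pow_one (X : L[X])]
        exact pow_dvd_pow X hs1
      exact mul_dvd_mul_right this g
    obtain ⟨c, hc⟩ := h3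
    have h4 := congrArg (aeval M) hc
    rwa [map_mul, map_mul, aeval_X, minpoly.aeval, zero_mul] at h4
  obtain ⟨a, b, hab⟩ := hg
  have h1 : aeval M a * M + aeval M b * aeval M g = 1 := by
    have := congrArg (aeval M) hab
    rwa [map_add, map_mul, map_mul, aeval_X, map_one] at this
  have e1 : M * (aeval M a * M) = M := by
    have h2 : M * (aeval M a * M + aeval M b * aeval M g) = M := by rw [h1, mul_one]
    rwa [mul_add, ← mul_assoc M (aeval M b), hcom b, mul_assoc (aeval M b), h0, mul_zero, add_zero] at h2
  have hidem : IsIdempotentElem (M * aeval M a) := by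
    show M * aeval M a * (M * aeval M a) = M * aeval M a
    rw [← mul_assoc (M * aeval M a) M, mul_assoc M (aeval M a) M, e1]
  have h5 : M * aeval M a = 0 := (LinearMap.IsIdempotentElem.trace_eq_zero_iff hidem).1 (h a)
  rw [← e1, ← mul_assoc, h5, zero_mul]

/-- elements of the span of a commuting family commute -/
theorem span_commute {L A : Type*} [CommRing L] [Ring A] [Algebra L A] {S : Set A} (hc : ∀ M ∈ S, ∀ M' ∈ S, M * M' = M' * M)
    {M M' : A} (hM : M ∈ Submodule.span L S) (hM' : M' ∈ Submodule.span L S) : M * M' = M' * M := by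
  induction hM, hM' using Submodule.span_induction₂ with
  | mem_mem x y hx hy => exact hc x hx y hy
  | zero_left y hy => rw [zero_mul, mul_zero]
  | zero_right x hx => rw [zero_mul, mul_zero]
  | add_left x y z _ _ _ h1 h2 => rw [add_mul, mul_add, h1, h2]
  | add_right x y z _ _ _ h1 h2 => rw [add_mul, mul_add, h1, h2]
  | smul_left r x y _ _ h => rw [smul_mul_assoc, mul_smul_comm, h]
  | smul_right r x y _ _ h => rw [smul_mul_assoc, mul_smul_comm, h]

/-- the span of a commuting family of semisimple endomorphisms consists of semisimple endomorphisms -/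
theorem span_semisimple {L V : Type*} [Field L] [CharZero L] [AddCommGroup V] [Module L V] [FiniteDimensional L V]
    {S : Set (Module.End L V)} (hc : ∀ M ∈ S, ∀ M' ∈ S, M * M' = M' * M) (hS : ∀ M ∈ S, M.IsSemisimple)
    {M : Module.End L V} (hM : M ∈ Submodule.span L S) : M.IsSemisimple := by
  induction hM using Submodule.span_induction with
  | mem x hx => exact hS x hx
  | zero => exact Module.End.isSemisimple_zero
  | add x y hx hy h1 h2 => exact h1.add_of_commute (span_commute hc hx hy) h2
  | smul r x _ h => exact Module.End.IsSemisimple_smul r h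

/-- **the trace form on the span of a multiplicative commuting family of matrices with squarefree annihilating polynomials is
nondegenerate** -/
theorem mat_eq_zero {L ι : Type*} [Field L] [CharZero L] [Fintype ι] [DecidableEq ι] {S : Set (Matrix ι ι L)}
    (hc : ∀ M ∈ S, ∀ M' ∈ S, M * M' = M' * M) (hS : ∀ M ∈ S, ∃ F : L[X], Squarefree F ∧ aeval M F = 0)
    {M : Matrix ι ι L} (hM : M ∈ Submodule.span L S) (h : ∀ M' ∈ Algebra.adjoin L S, (M * M').trace = 0) : M = 0 := by
  obtain ⟨e, he⟩ : ∃ e : Matrix ι ι L ≃ₐ[L] Module.End L (ι → L), e = Matrix.toLinAlgEquiv' := ⟨_, rfl⟩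
  have ht : ∀ M : Matrix ι ι L, LinearMap.trace L (ι → L) (e M) = M.trace := by
    intro M
    rw [he]
    exact Matrix.trace_toLin'_eq M
  have h1 : ∀ M ∈ S, (e M).IsSemisimple := by
    intro M hM
    obtain ⟨F, hF, h0⟩ := hS M hM
    refine Module.End.isSemisimple_of_squarefree_aeval_eq_zero hF ?_
    have := aeval_algHom_apply (e : Matrix ι ι L →ₐ[L] Module.End L (ι → L)) M F
    rw [h0, map_zero] at this
    exact this
  have h2 : (e M).IsSemisimple := by
    refine span_semisimple (S := e '' S) ?_ ?_ ?_
    · rintro _ ⟨x, hx, rfl⟩ _ ⟨y, hy, rfl⟩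
      rw [← map_mul, ← map_mul, hc x hx y hy]
    · rintro _ ⟨x, hx, rfl⟩
      exact h1 x hx
    · have := Submodule.mem_map_of_mem (f := (e : Matrix ι ι L →ₐ[L] Module.End L (ι → L)).toLinearMap) hM
      rw [Submodule.map_span] at this
      exact this
  have h3 : e M = 0 := by
    refine end_eq_zero h2 fun q => ?_
    have h4 : aeval (e M) q = e (aeval M q) :=
      aeval_algHom_apply (e : Matrix ι ι L →ₐ[L] Module.End L (ι → L)) M q
    rw [h4, ← map_mul, ht]
    refine h _ ?_
    have h5 : M ∈ Algebra.adjoin L S := Algebra.span_le_adjoin L S hM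
    exact Algebra.adjoin_le (Set.singleton_subset_iff.2 h5) (aeval_mem_adjoin_singleton L M)
  exact (map_eq_zero_iff e e.injective).1 h3

end Pool.Agent.MIY
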